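import Pool.Agent.Lib.MP_f80667_ag.Ep.Y

/-!
Cycles which are `0` modulo a power of `p` and displacements.

* `Zr' f L t z`: over each ball of radius `t` the sum of the coefficients is `0`.
-/

open ZC BE PE CV IntermediateField

namespace GX

variable {F : Type} [Field F] {N : ℕ} {ι : Type} (f : ι → MvPolynomial (Fin N) F)
  {K Ω : Type} [Field K] [Field Ω] [Algebra K Ω] [Algebra F K] [Algebra F Ω]
  [IsScalarTower F K Ω] (L : Ld K Ω)

open Classical in
/-- Over each ball of radius `t` the sum of the coefficients is `0`. -/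
def Zrt (t : ℝ) (z : (Xf f).pt Ω →₀ ℤ) : Prop :=
  ∀ Q : (Xf f).pt Ω, ∑ P ∈ z.support.filter (fun P => Nrh f L t P Q), z P = 0

variable {f L}

/-- `Nrh f L t` is an equivalence relation for `t < 1`, invariant under the Galois group. Proof: `nrh_symm`, `nrh_trans`, `nrh_act` or similar may exist (`Gx/..`, `Lv/..`); divide by a coordinate of norm `1`. -/
theorem nrh_eqv (hf : ∀ i, ∃ e, (f i).IsHomogeneous e) {t : ℝ} (h0 : 0 ≤ t) (h1 : t < 1) :
    (∀ P : (Xf f).pt Ω, Nrh f L t P P) ∧ (∀ P P' : (Xf f).pt Ω, Nrh f L t P P' → Nrh f L t P' P) ∧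
      (∀ P P' P'' : (Xf f).pt Ω, Nrh f L t P P' → Nrh f L t P' P'' → Nrh f L t P P'') ∧
        ∀ (γ : Ω ≃ₐ[K] Ω) (P P' : (Xf f).pt Ω), Nrh f L t P P' →
          Nrh f L t ((Xf f).act γ P) ((Xf f).act γ P') :=
  ⟨nrh_refl hf h0, fun _ _ h => nrh_symm h, fun _ _ _ h h' => nrh_trans hf h h',
    fun γ _ _ h => nrh_act γ h⟩

open Classical in
private noncomputable def ax4q (f : ι → MvPolynomial (Fin N) F) (L : Ld K Ω) (t : ℝ)
    (Q : (Xf f).pt Ω) : ((Xf f).pt Ω →₀ ℤ) →+ ℤ :=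
  Finsupp.liftAddHom fun P => if Nrh f L t P Q then AddMonoidHom.id ℤ else 0

private theorem zrt_ax4q {t : ℝ} {z : (Xf f).pt Ω →₀ ℤ} :
    Zrt f L t z ↔ ∀ Q, ax4q f L t Q z = 0 := by
  classical
  unfold Zrt
  refine forall_congr' fun Q => ?_
  have h : ax4q f L t Q z = ∑ P ∈ z.support.filter (fun P => Nrh f L t P Q), z P := by
    unfold ax4q
    rw [Finsupp.liftAddHom_apply, Finsupp.sum, Finset.sum_filter]
    refine Finset.sum_congr rfl fun P _ => ?_
    by_cases h : Nrh f L t P Q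
    · rw [if_pos h, if_pos h]
      rfl
    · rw [if_neg h, if_neg h]
      rfl
  rw [h]

/-- The sum of two cycles `0` modulo `t`; multiples. Proof: the sum over the ball is additive (see `dq`, `zs` in `Lv/De.lean`). -/
theorem Zrt.add {t : ℝ} {z z' : (Xf f).pt Ω →₀ ℤ} (h : Zrt f L t z) (h' : Zrt f L t z') :
    Zrt f L t (z + z') := by
  rw [zrt_ax4q] at h h' ⊢
  intro Q
  rw [map_add, h Q, h' Q, add_zero]

theorem Zrt.zsmul {t : ℝ} {z : (Xf f).pt Ω →₀ ℤ} (h : Zrt f L t z) (n : ℤ) :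
    Zrt f L t (n • z) := by
  rw [zrt_ax4q] at h ⊢
  intro Q
  rw [map_zsmul, h Q, smul_zero]

private theorem zrt_dsp (hf : ∀ i, ∃ e, (f i).IsHomogeneous e) {t : ℝ} (h0 : 0 ≤ t) (h1 : t < 1)
    {P P' : (Xf f).pt Ω} (h : Nrh f L t P P') :
    Zrt f L t (Finsupp.single P' 1 - Finsupp.single P 1 : (Xf f).pt Ω →₀ ℤ) := by
  classical
  obtain ⟨-, hs, ht, -⟩ := nrh_eqv (L := L) hf h0 h1
  intro Q
  by_cases hP : P' = P
  · subst hP
    rw [sub_self]
    simp
  · have e : Nrh f L t P' Q ↔ Nrh f L t P Q := ⟨fun h' => ht _ _ _ h h', fun h' => ht _ _ _ (hs _ _ h) h'⟩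
    have hsub : (Finsupp.single P' 1 - Finsupp.single P 1 : (Xf f).pt Ω →₀ ℤ).support ⊆
        {P', P} := by
      intro R hR
      rw [Finset.mem_insert, Finset.mem_singleton]
      by_contra hc
      push Not at hc
      apply (Finsupp.mem_support_iff.1 hR)
      rw [Finsupp.sub_apply, Finsupp.single_eq_of_ne hc.1, Finsupp.single_eq_of_ne hc.2, sub_zero]
    rw [Finset.sum_filter]
    rw [Finset.sum_subset hsub]
    · rw [Finset.sum_pair hP, Finsupp.sub_apply, Finsupp.sub_apply, Finsupp.single_eq_same,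
        Finsupp.single_eq_same, Finsupp.single_eq_of_ne hP,
        Finsupp.single_eq_of_ne (Ne.symm hP)]
      by_cases hq : Nrh f L t P Q
      · rw [if_pos (e.2 hq), if_pos hq]
        norm_num
      · rw [if_neg fun h' => hq (e.1 h'), if_neg hq]
        norm_num
    · intro R _ hR
      rw [Finsupp.notMem_support_iff.1 hR, ite_self]

private theorem zrt_zero {t : ℝ} : Zrt f L t (0 : (Xf f).pt Ω →₀ ℤ) := by
  intro Q
  rw [Finsupp.support_zero, Finset.filter_empty, Finset.sum_empty]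

private theorem zrt_sm {t : ℝ} {α : Type} (s : Finset α) {z : α → (Xf f).pt Ω →₀ ℤ}
    (h : ∀ i ∈ s, Zrt f L t (z i)) : Zrt f L t (∑ i ∈ s, z i) := by
  classical
  induction s using Finset.induction_on with
  | empty =>
    rw [Finset.sum_empty]
    exact zrt_zero
  | insert a s ha ih =>
    rw [Finset.sum_insert ha]
    exact (h a (Finset.mem_insert_self a s)).add (ih fun i hi => h i (Finset.mem_insert_of_mem hi))

/-- Proof: `closure_induction`; for a generator: the norm is a sum of conjugates of `[y'] - [y]` (`nm_rep`), each is `0` modulo `t` (`nrh_eqv`); it is a cycle over `K` (`nm_fx`, `GM.cyc_iff`). -/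
theorem dcy_zrt [CharZero K] [IsAlgClosure K Ω] (hf : ∀ i, ∃ e, (f i).IsHomogeneous e) {t : ℝ}
    (h0 : 0 ≤ t) (h1 : t < 1) {z : (Xf f).pt Ω →₀ ℤ} (hz : z ∈ Dcy L f t) :
    z ∈ (Xf f).cyc K Ω ∧ Zrt f L t z := by
  have key : z ∈ (Xf f).cyc K Ω ∧ Zrt f L t z := by
    unfold Dcy at hz
    induction hz using AddSubgroup.closure_induction with
    | mem x hx =>
      obtain ⟨M, hM, y, y', hy, hy', hyy, rfl⟩ := hx
      have hF : Fx M (Finsupp.single y' 1 - Finsupp.single y 1 : (Xf f).pt Ω →₀ ℤ) :=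
        (fx_single hy' 1).sub (fx_single hy 1)
      refine ⟨GM.cyc_iff.2 (nm_fx bot_le hF), ?_⟩
      obtain ⟨s, -, -, -, h3⟩ := nm_rep (K := K) (Ω := Ω) (bot_le : (⊥ : IntermediateField K Ω) ≤ M)
      rw [h3]
      refine zrt_sm s fun γ _ => ?_
      rw [smul_sub, smul_single, smul_single]
      exact zrt_dsp hf h0 h1 ((nrh_eqv (L := L) hf h0 h1).2.2.2 γ _ _ hyy)
    | zero => exact ⟨zero_mem _, zrt_zero⟩
    | add x y _ _ hx hy => exact ⟨add_mem hx.1 hy.1, hx.2.add hy.2⟩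
    | neg x _ hx =>
      refine ⟨neg_mem hx.1, ?_⟩
      rw [← neg_one_zsmul]
      exact hx.2.zsmul _
  exact key

end GX
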