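import Pool.Agent.Lib.MP_f80667_ag.Ep.D
import Pool.Agent.Lib.MP_f80667_ag.Lv.D1

/-! Branches: the points over a field, displacements, the comparison of two divisors on a line. -/

open ZC BE PE CV IntermediateField Polynomial

namespace GX

variable {F : Type} [Field F] {K Ω : Type} [Field K] [CharZero K] [Field Ω] [Algebra K Ω]
  [Algebra F K] [Algebra F Ω] [IsScalarTower F K Ω] [IsAlgClosure K Ω] {L : Ld K Ω} {V : Vr F}
  [Hf V] {σ B : Type} {P : B → (σ → Ω) → V.pt Ω} {π : Ω} {M M' : IntermediateField K Ω}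

omit [CharZero K] [IsAlgClosure K Ω] in
theorem Bs.fp (hB : Bs L P) {b : B} {h : σ → Ω} (hh : Iv L M h) : Fp V M (P b h) := by
  intro γ hγ
  rw [hB.act γ b h fun i => (hh i).2]
  congr 1
  funext i
  exact (IntermediateField.mem_fixingSubgroup_iff M γ).1 hγ _ (hh i).1

omit [CharZero K] [IsAlgClosure K Ω] in
theorem nb_mono {t t' : ℝ} (h : t ≤ t') {x y : V.pt Ω} (hx : nb L P t x y) : nb L P t' x y := by
  obtain ⟨b, h1, h2, k1, k2, k3, k4, k5⟩ := hx
  exact ⟨b, h1, h2, k1, k2, k3, k4, fun i => (k5 i).trans h⟩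

omit [CharZero K] [IsAlgClosure K Ω] in
theorem nb_symm {t : ℝ} {x y : V.pt Ω} (hx : nb L P t x y) : nb L P t y x := by
  obtain ⟨b, h1, h2, k1, k2, k3, k4, k5⟩ := hx
  exact ⟨b, h2, h1, k2, k1, k4, k3, fun i => by
    rw [L.sub_comm]
    exact k5 i⟩

omit [CharZero K] [IsAlgClosure K Ω] in
theorem Bs.nb_act (hB : Bs L P) (γ : Ω ≃ₐ[K] Ω) {t : ℝ} {x y : V.pt Ω} (hx : nb L P t x y) :
    nb L P t (V.act γ x) (V.act γ y) := by
  obtain ⟨b, h1, h2, k1, k2, rfl, rfl, k5⟩ := hx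
  refine ⟨b, fun i => γ (h1 i), fun i => γ (h2 i), fun i => ?_, fun i => ?_, hB.act γ b h1 k1,
    hB.act γ b h2 k2, fun i => ?_⟩
  · rw [L.act]
    exact k1 i
  · rw [L.act]
    exact k2 i
  · rw [← map_sub, L.act]
    exact k5 i

/-- Proof: `dsp_pt`. -/
theorem Bs.pt_dsp (hB : Bs L P) [FiniteDimensional K M] {b : B} {h h' : σ → Ω} (hh : Iv L M h)
    (hh' : Iv L M h') {t : ℝ} (ht : ∀ i, L.nm (h' i - h i) ≤ t) :
    (Finsupp.single (P b h') 1 - Finsupp.single (P b h) 1 : V.pt Ω →₀ ℤ) ∈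
      Dsp L V (nb L P t) M :=
  dsp_pt (hB.fp hh') (hB.fp hh)
    ⟨b, h', h, fun i => (hh' i).2, fun i => (hh i).2, rfl, rfl, ht⟩

/-- **The comparison on a line**: `α i`, `α' i` are the zeros of polynomials which are congruent modulo `π ^ s`. Proof: `Bs.la` for the arc `h + z x`
(`l = 1`, `u = 0`), `prod_dpo`, `rcy_prod`, `prod_deg` as in `ln` of `Lv/Ln.lean` (there with errors which are not needed here). -/
theorem Bs.ln (hB : Bs L P) (hπ : Uf L π) (hM : Um L M) {h x : σ → Ω} (hh : Iv L M h)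
    (hx : Iv L M x) {n : ℕ} {α α' : Fin n → Ω} {s : ℕ} (hs : s ≠ 0)
    (h2 : ∀ i, α i ∈ M ∧ L.nm (α i) < 1) (h2' : ∀ i, α' i ∈ M ∧ L.nm (α' i) < 1)
    (hα : ∀ k, L.nm ((∏ i, (X - C (α i)) : Polynomial Ω).coeff k -
      (∏ i, (X - C (α' i)) : Polynomial Ω).coeff k) ≤ L.nm π ^ s) (b : B) :
    ∑ i, Finsupp.single (P b (h + α i • x)) 1 - ∑ i, Finsupp.single (P b (h + α' i • x)) (1 : ℤ) ∈
      Dsp L V (nb L P (L.nm π ^ s)) M ⊔ V.ratEq M Ω := by
  have hfd : FiniteDimensional K M := hM.fd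
  obtain ⟨β, hβ⟩ : ∃ β : σ → Polynomial Ω, β = fun r => C (x r) * X + C (h r) := ⟨_, rfl⟩
  have hev : ∀ z, (fun r => (β r).eval z) = h + z • x := fun z => by
    funext r
    rw [hβ]
    simp only [eval_add, eval_mul, eval_C, eval_X, Pi.add_apply, Pi.smul_apply, smul_eq_mul]
    ring
  have hArc : Arc L M β := by
    intro i j
    rw [hβ]
    simp only [coeff_add, coeff_C_mul, coeff_X, coeff_C]
    rcases j with _ | _ | j
    · simp only [if_neg (show ¬ (1 = 0) by omega), if_true, mul_zero, zero_add]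
      exact hh i
    · simp only [zero_add, if_true, if_neg (show ¬ (1 = 0) by omega), mul_one, add_zero]
      exact hx i
    · rw [if_neg (by omega), if_neg (by omega), mul_zero, add_zero]
      exact ⟨zero_mem M, by rw [L.zero]; exact zero_le_one⟩
  obtain ⟨z, hz, hz'⟩ := hB.la M π (hπ.mem M) hπ.pos hπ.lt (hπ.um_val hM) β hArc b _ _
    (prod_dpo (fun i => (h2 i).1) fun i => (h2 i).2)
    (prod_dpo (fun i => (h2' i).1) fun i => (h2' i).2)
    (by rw [prod_deg, prod_deg]) 1 0 s (Or.inl ⟨rfl, rfl, hs⟩)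
    (fun i => by rw [add_zero]; exact hα i)
  rw [one_smul, rcy_prod, rcy_prod] at hz'
  simp only [hev] at hz'
  have e1 : ∑ i, Finsupp.single (P b (h + α i • x)) 1 -
      ∑ i, Finsupp.single (P b (h + α' i • x)) (1 : ℤ) =
      z + (∑ i, Finsupp.single (P b (h + α i • x)) 1 -
        ∑ i, Finsupp.single (P b (h + α' i • x)) (1 : ℤ) - z) := by abel
  rw [e1]
  exact AddSubgroup.add_mem_sup hz hz'

end GX
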