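import Pool.Agent.Lib.MP_f80667_ag.Lv.D

/-! Ax's lemma: binomial coefficients. -/

open ZC BE PE CV IntermediateField Polynomial

namespace GX

private theorem ax_dvd {p : ℕ} (hp : p.Prime) {u : ℕ} (hu : ¬ p ∣ u) (e : ℕ) :
    ¬ p ∣ (p ^ e * u).choose (p ^ e) := by
  have := Fact.mk hp
  induction e with
  | zero => rwa [pow_zero, one_mul, Nat.choose_one_right]
  | succ e ih =>
    intro h
    apply ih
    have h1 : (p ^ (e + 1) * u).choose (p ^ (e + 1)) ≡
        ((p ^ (e + 1) * u) % p).choose ((p ^ (e + 1)) % p) *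
          ((p ^ (e + 1) * u) / p).choose ((p ^ (e + 1)) / p) [MOD p] :=
      Choose.choose_modEq_choose_mod_mul_choose_div_nat
    have h2 : p ^ (e + 1) = p * p ^ e := pow_succ' p e
    have h3 : p ^ (e + 1) * u = p * (p ^ e * u) := by rw [h2, mul_assoc]
    rw [h3, h2, Nat.mul_mod_right, Nat.mul_mod_right, Nat.choose_self, one_mul,
      Nat.mul_div_cancel_left _ hp.pos, Nat.mul_div_cancel_left _ hp.pos] at h1
    rw [h3, h2] at h
    exact (Nat.modEq_zero_iff_dvd).1 (h1.symm.trans ((Nat.modEq_zero_iff_dvd).2 h))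

variable {K Ω : Type} [Field K] [CharZero K] [Field Ω] [Algebra K Ω] (L : Ld K Ω)

/-- Proof: Lucas (`Choose.choose_modEq_choose_mod_mul_choose_div` or `Nat.emultiplicity_..`, `padicValNat_choose`): `choose (p ^ e u) (p ^ e)` is congruent to `u` modulo `p`; `Ld.nat_unit`. -/
theorem ax_unit {e u : ℕ} (hu : ¬ L.p ∣ u) : L.nm ((L.p ^ e * u).choose (L.p ^ e) : Ω) = 1 :=
  L.nat_unit (ax_dvd L.pp hu e)

/-- Proof: `p ^ (e + 1) = p q`, `q = p ^ e`: `choose (p q) q = p choose (p q - 1) (q - 1)` and `choose (p q - 1) (q - 1)` is prime to `p` (`Nat.Prime.multiplicity_choose_prime_pow` / `padicValNat_choose`). -/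
theorem ax_p (e : ℕ) : L.nm ((L.p ^ (e + 1)).choose (L.p ^ e) : Ω) = L.nm (L.p : Ω) := by
  have h1 : ((L.p ^ (e + 1)).choose (L.p ^ e)).factorization L.p = 1 := by
    rw [Nat.factorization_choose_prime_pow L.pp (Nat.pow_le_pow_right L.pp.pos (Nat.le_succ e))
      (pow_ne_zero _ L.pp.ne_zero), Nat.factorization_pow_self L.pp]
    omega
  have h0 : (L.p ^ (e + 1)).choose (L.p ^ e) ≠ 0 :=
    (Nat.choose_pos (Nat.pow_le_pow_right L.pp.pos (Nat.le_succ e))).ne'
  have h2 := Nat.ordProj_mul_ordCompl_eq_self ((L.p ^ (e + 1)).choose (L.p ^ e)) L.p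
  have h3 := Nat.not_dvd_ordCompl L.pp h0
  rw [h1, pow_one] at h2 h3
  rw [← h2]
  push_cast
  rw [L.mul, L.nat_unit h3, mul_one]

end GX
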