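import Pool.Agent.Lib.MP_f80667_ag.Lv.D

/-! Ax's lemma: a root of a derivative near the roots. -/

open ZC BE PE CV IntermediateField Polynomial

namespace GX

variable {K Ω : Type} [Field K] [CharZero K] [Field Ω] [Algebra K Ω] [IsAlgClosure K Ω]
  {L : Ld K Ω} {M : IntermediateField K Ω}

omit [CharZero K] [IsAlgClosure K Ω] in
private theorem ax1_sum (s : Multiset Ω) {B : ℝ} (hB : 0 ≤ B) (h : ∀ x ∈ s, L.nm x ≤ B) :
    L.nm s.sum ≤ B := by
  induction s using Multiset.induction_on with
  | empty =>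
    rw [Multiset.sum_zero, L.zero]
    exact hB
  | cons a s ih =>
    rw [Multiset.sum_cons]
    exact (L.add _ _).trans (max_le (h a (Multiset.mem_cons_self a s))
      (ih fun x hx => h x (Multiset.mem_cons_of_mem hx)))

omit [CharZero K] [IsAlgClosure K Ω] in
private theorem ax1_prod_le (s : Multiset Ω) {r : ℝ} (hr : 0 ≤ r) (h : ∀ x ∈ s, L.nm x ≤ r) :
    L.nm s.prod ≤ r ^ Multiset.card s := by
  induction s using Multiset.induction_on with
  | empty => simp [L.one]
  | cons a s ih =>
    rw [Multiset.prod_cons, Multiset.card_cons, L.mul, pow_succ, mul_comm]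
    exact mul_le_mul (ih fun x hx => h x (Multiset.mem_cons_of_mem hx))
      (h a (Multiset.mem_cons_self a s)) (L.nonneg _) (pow_nonneg hr _)

omit [CharZero K] [IsAlgClosure K Ω] in
private theorem ax1_prod_ge (s : Multiset Ω) {c : ℝ} (hc : 0 ≤ c) (h : ∀ x ∈ s, c ≤ L.nm x) :
    c ^ Multiset.card s ≤ L.nm s.prod := by
  induction s using Multiset.induction_on with
  | empty => simp [L.one]
  | cons a s ih =>
    rw [Multiset.prod_cons, Multiset.card_cons, L.mul, pow_succ, mul_comm]
    exact mul_le_mul (h a (Multiset.mem_cons_self a s))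
      (ih fun x hx => h x (Multiset.mem_cons_of_mem hx)) (pow_nonneg hc _) (L.nonneg _)

omit [CharZero K] [IsAlgClosure K Ω] in
private theorem ax1_esymm (s : Multiset Ω) (m : ℕ) {r : ℝ} (hr : 0 ≤ r)
    (h : ∀ x ∈ s, L.nm x ≤ r) : L.nm (s.esymm m) ≤ r ^ m := by
  rw [Multiset.esymm]
  refine ax1_sum _ (pow_nonneg hr _) fun x hx => ?_
  obtain ⟨t, ht, rfl⟩ := Multiset.mem_map.1 hx
  obtain ⟨h1, h2⟩ := Multiset.mem_powersetCard.1 ht
  have h3 := ax1_prod_le (L := L) t hr fun x hx => h x (Multiset.mem_of_le h1 hx)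
  rwa [h2] at h3

/-- **Ax's step.** `f` is monic over `M` of degree `n`, all its roots are at distance `≤ r` of `α`. Proof: `h = hasseDeriv q f`: degree `n - q`, leading coefficient `choose n q`, coefficients in `M`. `h (α)` is the coefficient of `X ^ q` in
`f (X + α) = ∏ (X - (β_i - α))` (`Polynomial.taylor`, `taylor_coeff`), so up to sign the elementary symmetric function of degree `n - q` of the `β_i - α` (`Polynomial.coeff_eq_esymm_roots_of_card` / `Multiset.prod_X_sub_C_coeff`): norm `≤ r ^ (n - q)`.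
`h = choose n q ∏ (X - γ_j)`: if all `nm (γ_j - α) ^ (n - q) nm (choose n q) > r ^ (n - q)` then the product of the `nm (γ_j - α)`, times `nm (choose n q)`, would be larger (choose the nearest `γ_j`). `g = h / choose n q`. -/
theorem ax_step {n q : ℕ} {f : Polynomial Ω} (hf : f.Monic) (hM : ∀ i, f.coeff i ∈ M)
    (hn : f.natDegree = n) (hq : q < n) {α : Ω} {r : ℝ} (hr : 0 ≤ r)
    (h : ∀ β, f.eval β = 0 → L.nm (β - α) ≤ r) :
    ∃ (g : Polynomial Ω) (β : Ω), g.Monic ∧ (∀ i, g.coeff i ∈ M) ∧ g.natDegree = n - q ∧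
      g.eval β = 0 ∧ L.nm (β - α) ^ (n - q) * L.nm (n.choose q : Ω) ≤ r ^ (n - q) := by
  classical
  have hΩ : IsAlgClosed Ω := IsAlgClosure.isAlgClosed K
  have hc0 : CharZero Ω := charZero_of_injective_algebraMap (algebraMap K Ω).injective
  have hn1 : L.nm (-1) = 1 := by rw [L.neg, L.one]
  have hch : ((n.choose q : ℕ) : Ω) ≠ 0 := Nat.cast_ne_zero.2 (Nat.choose_pos hq.le).ne'
  -- the value of the derivative at `α`
  have hval : L.nm ((hasseDeriv q f).eval α) ≤ r ^ (n - q) := by
    rw [← taylor_coeff]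
    have h1 : (taylor α f).Splits := IsAlgClosed.splits _
    have h2 : (taylor α f).natDegree = n := by rw [natDegree_taylor, hn]
    have h3 : (taylor α f).leadingCoeff = 1 := by
      rw [leadingCoeff, h2, taylor_coeff, ← hn, hasseDeriv_natDegree_eq_C, eval_C]
      exact hf
    rw [Polynomial.coeff_eq_esymm_roots_of_splits h1 (by rw [h2]; exact hq.le), h3, one_mul,
      L.mul, L.pow, hn1, one_pow, one_mul, h2]
    refine ax1_esymm _ _ hr fun x hx => ?_
    have h4 : (taylor α f).eval x = 0 := (mem_roots'.1 hx).2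
    rw [taylor_eval] at h4
    have h5 := h _ h4
    rwa [add_sub_cancel_right] at h5
  have hdeg : (hasseDeriv q f).natDegree = n - q := by rw [natDegree_hasseDeriv, hn]
  have hlead : (hasseDeriv q f).leadingCoeff = (n.choose q : Ω) := by
    rw [leadingCoeff, hdeg, hasseDeriv_coeff, Nat.sub_add_cancel hq.le]
    have h1 : f.coeff n = 1 := by
      rw [← hn]
      exact hf
    rw [h1, mul_one]
  set g : Polynomial Ω := C ((n.choose q : Ω)⁻¹) * hasseDeriv q f with hg
  have hgh : hasseDeriv q f = C (n.choose q : Ω) * g := by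
    rw [hg, ← mul_assoc, ← C_mul, mul_inv_cancel₀ hch, C_1, one_mul]
  have hgm : g.Monic := by
    rw [Monic, hg, leadingCoeff_mul, leadingCoeff_C, hlead, inv_mul_cancel₀ hch]
  have hgd : g.natDegree = n - q := by
    rw [hg, natDegree_C_mul (inv_ne_zero hch), hdeg]
  have hgs : g.Splits := IsAlgClosed.splits _
  have hcard : Multiset.card g.roots = n - q := by
    rw [← hgd]
    exact (splits_iff_card_roots.1 hgs)
  have hne : g.roots.toFinset.Nonempty := by
    rw [Multiset.toFinset_nonempty]
    intro h0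
    rw [h0, Multiset.card_zero] at hcard
    omega
  obtain ⟨β, hβ, hmin⟩ := Finset.exists_min_image g.roots.toFinset (fun γ => L.nm (γ - α)) hne
  rw [Multiset.mem_toFinset] at hβ
  refine ⟨g, β, hgm, fun i => ?_, hgd, (mem_roots'.1 hβ).2, ?_⟩
  · rw [hg, coeff_C_mul, hasseDeriv_coeff]
    exact mul_mem (inv_mem (IntermediateField.natCast_mem M _))
      (mul_mem (IntermediateField.natCast_mem M _) (hM _))
  · have h1 : (L.nm (β - α)) ^ (n - q) ≤ L.nm (g.eval α) := by
      rw [hgs.eval_eq_prod_roots_of_monic hgm]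
      have h2 := ax1_prod_ge (L := L) (g.roots.map fun a => α - a) (L.nonneg (β - α))
        (fun x hx => by
          obtain ⟨a, ha, rfl⟩ := Multiset.mem_map.1 hx
          rw [L.sub_comm α a]
          exact hmin a (Multiset.mem_toFinset.2 ha))
      rwa [Multiset.card_map, hcard] at h2
    rw [hgh, eval_mul, eval_C, L.mul, mul_comm] at hval
    exact (mul_le_mul_of_nonneg_right h1 (L.nonneg _)).trans hval

end GX
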