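import Pool.Agent.Lib.MP_f80667_ag.Ep.Ax
import Pool.Agent.Lib.MP_f80667_ag.Ep.Ax1

/-! Ax's lemma. -/

open ZC BE PE CV IntermediateField Polynomial

namespace GX

variable {K Ω : Type} [Field K] [CharZero K] [Field Ω] [Algebra K Ω] [IsAlgClosure K Ω]
  (L : Ld K Ω) (M : IntermediateField K Ω)

/-- The constants of the proof. -/
private noncomputable def axc (p : ℕ) (b : ℝ) (l : ℕ) : ℝ :=
  ∏ e ∈ Finset.range l, (b⁻¹) ^ ((((p ^ (e + 1) - p ^ e : ℕ) : ℝ))⁻¹)

private theorem axc_f {b : ℝ} (h0 : 0 < b) (h1 : b < 1) (m : ℕ) :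
    1 ≤ (b⁻¹) ^ (((m : ℕ) : ℝ)⁻¹) :=
  Real.one_le_rpow ((one_le_inv₀ h0).2 h1.le) (inv_nonneg.2 (Nat.cast_nonneg m))

private theorem axc_mono {p : ℕ} {b : ℝ} (h0 : 0 < b) (h1 : b < 1) : Monotone (axc p b) := by
  have hpos : ∀ l, 0 ≤ axc p b l := fun l =>
    Finset.prod_nonneg fun e _ => zero_le_one.trans (axc_f h0 h1 _)
  refine monotone_nat_of_le_succ fun l => ?_
  rw [axc, axc, Finset.prod_range_succ]
  exact le_mul_of_one_le_right (hpos l) (axc_f h0 h1 _)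

private theorem axc_one {p : ℕ} {b : ℝ} (h0 : 0 < b) (h1 : b < 1) (l : ℕ) : 1 ≤ axc p b l := by
  have h2 := axc_mono (p := p) h0 h1 (Nat.zero_le l)
  rwa [show axc p b 0 = 1 from Finset.prod_range_zero _] at h2

private theorem axc_le {p : ℕ} (hp : 2 ≤ p) {b : ℝ} (h0 : 0 < b) (h1 : b < 1) (l : ℕ) :
    axc p b l * b ^ 2 ≤ 1 := by
  have hb : 1 ≤ b⁻¹ := (one_le_inv₀ h0).2 h1.le
  have e1 : axc p b l = (b⁻¹) ^ (∑ e ∈ Finset.range l, (((p ^ (e + 1) - p ^ e : ℕ) : ℝ))⁻¹) := by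
    rw [axc, Real.rpow_sum_of_pos (inv_pos.2 h0)]
  have e2 : ∑ e ∈ Finset.range l, (((p ^ (e + 1) - p ^ e : ℕ) : ℝ))⁻¹ ≤ 2 := by
    refine (Finset.sum_le_sum fun e _ => ?_).trans (sum_geometric_two_le l)
    rw [one_div, inv_pow]
    refine inv_anti₀ (by positivity) ?_
    have h2 : 2 ^ e ≤ p ^ (e + 1) - p ^ e := by
      have h3 : 2 ^ e ≤ p ^ e := Nat.pow_le_pow_left hp e
      have h4 : 2 * p ^ e ≤ p ^ (e + 1) := by
        rw [pow_succ']
        exact Nat.mul_le_mul_right _ hp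
      omega
    exact_mod_cast h2
  have e3 : axc p b l ≤ (b⁻¹) ^ 2 := by
    rw [e1]
    refine (Real.rpow_le_rpow_of_exponent_le hb e2).trans_eq ?_
    rw [Real.rpow_two]
  calc axc p b l * b ^ 2 ≤ (b⁻¹) ^ 2 * b ^ 2 := mul_le_mul_of_nonneg_right e3 (by positivity)
    _ = 1 := by rw [← mul_pow, inv_mul_cancel₀ h0.ne', one_pow]

private theorem ax_root {b r y : ℝ} (h0 : 0 < b) (hr : 0 ≤ r) {m : ℕ} (hm : m ≠ 0)
    (h : y ^ m * b ≤ r ^ m) : y ≤ r * (b⁻¹) ^ (((m : ℕ) : ℝ)⁻¹) := by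
  by_contra hlt
  rw [not_le] at hlt
  have ht : ((b⁻¹) ^ (((m : ℕ) : ℝ)⁻¹)) ^ m = b⁻¹ :=
    Real.rpow_inv_natCast_pow (inv_nonneg.2 h0.le) hm
  have h1 := pow_lt_pow_left₀ hlt (mul_nonneg hr (Real.rpow_nonneg (inv_nonneg.2 h0.le) _)) hm
  rw [mul_pow, ht] at h1
  have h2 := mul_lt_mul_of_pos_right h1 h0
  rw [mul_assoc, inv_mul_cancel₀ h0.ne', mul_one] at h2
  exact absurd (h2.trans_le h) (lt_irrefl _)

/-- The degree of a root of a monic polynomial over `M`. -/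
private theorem ax_deg {g : Polynomial Ω} (hg : g.Monic) (hM : ∀ i, g.coeff i ∈ M) {β : Ω}
    (hβ : g.eval β = 0) : (minpoly M β).natDegree ≤ g.natDegree := by
  obtain ⟨g', hg'⟩ : g ∈ Polynomial.lifts (algebraMap M Ω) := by
    rw [Polynomial.lifts_iff_coeff_lifts]
    exact fun i => ⟨⟨g.coeff i, hM i⟩, rfl⟩
  have h1 : g'.map (algebraMap M Ω) = g := hg'
  have h2 : aeval β g' = 0 := by
    rw [aeval_def, ← eval_map, h1, hβ]
  have h3 : g' ≠ 0 := by
    rintro rfl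
    rw [Polynomial.map_zero] at h1
    exact hg.ne_zero h1.symm
  refine (natDegree_le_of_dvd (minpoly.dvd M β h2) h3).trans_eq ?_
  rw [← h1, natDegree_map]

/-- The step of the induction. -/
private theorem ax_st {n q : ℕ} {x : Ω} (hn : (minpoly M x).natDegree = n) (hq : q < n) {r : ℝ}
    (hr : 0 ≤ r) (h : ∀ γ ∈ M.fixingSubgroup, L.nm (γ x - x) ≤ r) :
    ∃ β : Ω, (minpoly M β).natDegree ≤ n - q ∧
      L.nm (β - x) ^ (n - q) * L.nm (n.choose q : Ω) ≤ r ^ (n - q) := by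
  have : Algebra.IsAlgebraic K Ω := IsAlgClosure.isAlgebraic
  have : Normal K Ω := IsAlgClosure.normal K Ω
  have : Normal M Ω := Normal.tower_top_of_normal K M Ω
  have : Algebra.IsAlgebraic M Ω := Algebra.IsAlgebraic.tower_top (K := K) M
  have hx : IsIntegral M x := Algebra.IsIntegral.isIntegral x
  obtain ⟨g, β, hg, hgM, hgn, hgβ, hle⟩ := ax_step (L := L) (M := M) (n := n) (q := q)
    (f := (minpoly M x).map (algebraMap M Ω)) ((minpoly.monic hx).map _) (fun i => by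
      rw [coeff_map]
      exact ((minpoly M x).coeff i).2) (by rw [natDegree_map, hn]) hq (α := x) hr
    (fun β hβ => by
      have h1 : aeval β (minpoly M x) = 0 := by
        rw [aeval_def, ← eval_map]
        exact hβ
      obtain ⟨s, hs⟩ := minpoly.exists_algEquiv_of_root'
        (Algebra.IsAlgebraic.isAlgebraic (R := M) x) h1
      rw [← hs]
      refine h (s.restrictScalars K) ?_
      rw [IntermediateField.mem_fixingSubgroup_iff]
      exact fun y hy => s.commutes ⟨y, hy⟩)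
  exact ⟨β, hgn ▸ ax_deg M hg hgM hgβ, hle⟩

private theorem ax_near {x β : Ω} {r r' : ℝ} (hr : r ≤ r')
    (h : ∀ γ ∈ M.fixingSubgroup, L.nm (γ x - x) ≤ r) (hβ : L.nm (β - x) ≤ r') :
    ∀ γ ∈ M.fixingSubgroup, L.nm (γ β - β) ≤ r' := by
  intro γ hγ
  have e : γ β - β = γ (β - x) + ((γ x - x) + (x - β)) := by
    rw [map_sub]
    ring
  rw [e]
  refine (L.add _ _).trans (max_le ?_ ((L.add _ _).trans (max_le ((h γ hγ).trans hr) ?_)))
  · rwa [L.act]
  · rwa [L.sub_comm]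

private theorem ax_ind (n : ℕ) : ∀ x : Ω, (minpoly M x).natDegree = n → ∀ l : ℕ,
    n < L.p ^ (l + 1) → ∀ r : ℝ, 0 ≤ r → (∀ γ ∈ M.fixingSubgroup, L.nm (γ x - x) ≤ r) →
    ∃ a ∈ M, L.nm (x - a) ≤ r * axc L.p (L.nm (L.p : Ω)) l := by
  have hb := L.p_pos
  have hb1 := L.lt
  induction n using Nat.strong_induction_on with
  | _ n ih =>
  intro x hn l hl r hr h
  have : Algebra.IsAlgebraic K Ω := IsAlgClosure.isAlgebraic
  have : Algebra.IsAlgebraic M Ω := Algebra.IsAlgebraic.tower_top (K := K) M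
  have hx : IsIntegral M x := Algebra.IsIntegral.isIntegral x
  have hn0 : 0 < n := hn ▸ minpoly.natDegree_pos hx
  have hc1 : r ≤ r * axc L.p (L.nm (L.p : Ω)) l :=
    le_mul_of_one_le_right hr (axc_one hb hb1 l)
  rcases Nat.lt_or_ge 1 n with h1n | hn1
  · obtain ⟨e, u, hu, hnu⟩ := Nat.exists_eq_pow_mul_and_not_dvd hn0.ne' L.p L.pp.ne_one
    rcases Nat.lt_or_ge 1 u with h1u | hu1
    · have hq : L.p ^ e < n := by
        rw [hnu]
        exact lt_mul_of_one_lt_right (pow_pos L.pp.pos e) h1u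
      obtain ⟨β, hβn, hβ⟩ := ax_st L M hn hq hr h
      have hch : L.nm (n.choose (L.p ^ e) : Ω) = 1 := by
        rw [hnu]
        exact ax_unit L hu
      rw [hch, mul_one] at hβ
      have hβr : L.nm (β - x) ≤ r := by
        by_contra hlt
        rw [not_le] at hlt
        exact absurd hβ (not_le.2 (pow_lt_pow_left₀ hlt hr (Nat.sub_pos_of_lt hq).ne'))
      have hlt : (minpoly M β).natDegree < n :=
        lt_of_le_of_lt hβn (Nat.sub_lt hn0 (pow_pos L.pp.pos e))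
      obtain ⟨a, ha, hle⟩ := ih _ hlt β rfl l (hlt.trans hl) r hr (ax_near L M le_rfl h hβr)
      refine ⟨a, ha, ?_⟩
      have e1 : x - a = (x - β) + (β - a) := by ring
      rw [e1]
      refine (L.add _ _).trans (max_le ?_ hle)
      rw [L.sub_comm]
      exact hβr.trans hc1
    · have hu0 : u ≠ 0 := by
        rintro rfl
        rw [mul_zero] at hnu
        exact hn0.ne' hnu
      have hu' : u = 1 := by omega
      rw [hu', mul_one] at hnu
      obtain ⟨e, rfl⟩ : ∃ e', e = e' + 1 := by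
        refine Nat.exists_eq_succ_of_ne_zero ?_
        rintro rfl
        rw [pow_zero] at hnu
        omega
      have hq : L.p ^ e < n := by
        rw [hnu]
        exact Nat.pow_lt_pow_right L.pp.one_lt (Nat.lt_succ_self e)
      obtain ⟨β, hβn, hβ⟩ := ax_st L M hn hq hr h
      have hch : L.nm (n.choose (L.p ^ e) : Ω) = L.nm (L.p : Ω) := by
        rw [hnu]
        exact ax_p L e
      rw [hch] at hβ
      have hβr := ax_root hb hr (Nat.sub_pos_of_lt hq).ne' hβ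
      rw [hnu] at hβr
      set t : ℝ := (L.nm (L.p : Ω))⁻¹ ^ ((((L.p ^ (e + 1) - L.p ^ e : ℕ) : ℝ))⁻¹) with ht
      have ht1 : 1 ≤ t := axc_f hb hb1 _
      have hrt : r ≤ r * t := le_mul_of_one_le_right hr ht1
      have hlt : (minpoly M β).natDegree < n :=
        lt_of_le_of_lt hβn (Nat.sub_lt hn0 (pow_pos L.pp.pos e))
      obtain ⟨a, ha, hle⟩ := ih _ hlt β rfl e (by rw [← hnu]; exact hlt) (r * t)
        (hr.trans hrt) (ax_near L M hrt h hβr)
      have hel : e + 1 ≤ l := by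
        have h5 : L.p ^ (e + 1) < L.p ^ (l + 1) := by rw [← hnu]; exact hl
        have h6 := (Nat.pow_lt_pow_iff_right L.pp.one_lt).1 h5
        omega
      have hce : r * t * axc L.p (L.nm (L.p : Ω)) e ≤ r * axc L.p (L.nm (L.p : Ω)) l := by
        have h7 : t * axc L.p (L.nm (L.p : Ω)) e = axc L.p (L.nm (L.p : Ω)) (e + 1) := by
          rw [axc, axc, Finset.prod_range_succ, mul_comm]
        rw [mul_assoc, h7]
        exact mul_le_mul_of_nonneg_left (axc_mono hb hb1 hel) hr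
      refine ⟨a, ha, ?_⟩
      have e1 : x - a = (x - β) + (β - a) := by ring
      rw [e1]
      refine (L.add _ _).trans (max_le ?_ (hle.trans hce))
      rw [L.sub_comm]
      refine hβr.trans (le_trans ?_ hce)
      exact le_mul_of_one_le_right (hr.trans hrt) (axc_one hb hb1 e)
  · have hn1' : (minpoly M x).natDegree = 1 := by omega
    have hd : (minpoly M x).degree = 1 := by
      rw [degree_eq_natDegree (minpoly.ne_zero hx), hn1']
      rfl
    obtain ⟨a, rfl⟩ := minpoly.mem_range_of_degree_eq_one M x hd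
    refine ⟨a, a.2, ?_⟩
    have e1 : (algebraMap M Ω) a - (a : Ω) = 0 := sub_self _
    rw [e1, (L.zero_iff 0).2 rfl]
    exact hr.trans hc1

/-- **Ax's lemma** with the constant `nm p ^ (-2)`. Proof (Ax): let `c (l) = (nm p) ^ (-s_l)` (real exponent), `s_l = ∑ e in 1..l, 1 / (p ^ e - p ^ (e - 1))`; `s_l ≤ ∑ 2 ^ (1 - e) ≤ 2`. By strong induction on `n`: for `x` of degree `≤ n` over `M`
(the minimal polynomial), `n < p ^ (l + 1)`, `nm (γ x - x) ≤ r` for all `γ` in the group of `M`: there is `a ∈ M` with `nm (x - a) ≤ r c (l)`. `n = 1`: `x ∈ M`. Let `f` = the minimal polynomial of `x`, of degree exactly `n`, its roots are the `γ x`. `n = p ^ e u`, `u` prime to `p`.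
If `u > 1`: `ax_step` for `q = p ^ e`, `ax_unit`: `nm (β - x) ≤ r`, so `nm (γ β - β) ≤ r` for all `γ`, the degree of `β` is `≤ n - q < n`. If `u = 1`, `e ≥ 1`: `q = p ^ (e - 1)`, `ax_p`: `nm (β - x) ≤ r' = r (nm p) ^ (-1 / (p ^ e - p ^ (e - 1)))`,
the degree of `β` is `< p ^ e`: `nm (β - a) ≤ r' c (e - 1) = r c (e)`. -/
theorem exists_ax {r : ℝ} (hr : 0 ≤ r) {x : Ω}
    (h : ∀ γ ∈ M.fixingSubgroup, L.nm (γ x - x) ≤ r) :
    ∃ a ∈ M, L.nm (x - a) * L.nm (L.p : Ω) ^ 2 ≤ r := by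
  have hl : (minpoly M x).natDegree < L.p ^ ((minpoly M x).natDegree + 1) :=
    (Nat.lt_succ_self _).trans (Nat.lt_pow_self L.pp.one_lt)
  obtain ⟨a, ha, hle⟩ := ax_ind L M _ x rfl _ hl r hr h
  refine ⟨a, ha, ?_⟩
  calc L.nm (x - a) * L.nm (L.p : Ω) ^ 2
      ≤ r * axc L.p (L.nm (L.p : Ω)) (minpoly M x).natDegree * L.nm (L.p : Ω) ^ 2 :=
        mul_le_mul_of_nonneg_right hle (pow_nonneg (L.nonneg _) 2)
    _ = r * (axc L.p (L.nm (L.p : Ω)) (minpoly M x).natDegree * L.nm (L.p : Ω) ^ 2) :=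
        mul_assoc _ _ _
    _ ≤ r * 1 := mul_le_mul_of_nonneg_left (axc_le L.pp.two_le L.p_pos L.lt _) hr
    _ = r := mul_one r

end GX
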