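import Pool.Agent.Lib.MP_f80667_ag.Ep.Sc
import Pool.Agent.Lib.MP_f80667_ag.Lv.Tg

/-!
The branches: coordinates of the points and tangent vectors.

* `Bd.xx b h`: the coordinates `A / D` of the point `P b h`.
* `Bd.tt b h x`: the tangent vector at `xx b h` over `ϖ x`.
* `Pk.second`: the difference of the coordinates is the tangent vector up to second order.
* `Bd.Ok.tan`: the same in a branch, the constants are absorbed by the radius.
-/

open ZC BE PE CV IntermediateField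

namespace GX

section prj

variable {F : Type} [Field F] {N d : ℕ} {ι : Type} {f : ι → MvPolynomial (Fin N) F} {K Ω : Type}
  [Field K] [CharZero K] [Field Ω] [Algebra K Ω] [Algebra F K] [Algebra F Ω]
  [IsScalarTower F K Ω] [IsAlgClosure K Ω] {L : Ld K Ω} {ψ : Prj K N d}
  {c c' : Fin (d + 1) → Ω} {w w' : Ω}

private theorem gd_dr_mon {R : Type} [CommRing R] (r : Fin (d + 1)) (n : ℕ)
    (a : MvPolynomial (Fin (d + 1)) R) : dr r (Polynomial.C a * Polynomial.X ^ n) =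
      Polynomial.C (MvPolynomial.pderiv r a) * Polynomial.X ^ n := by
  rw [dr, Polynomial.C_mul_X_pow_eq_monomial, Polynomial.sum_monomial_index]
  rw [map_zero, map_zero, zero_mul]

private theorem gd_dr_C {R : Type} [CommRing R] (r : Fin (d + 1))
    (a : MvPolynomial (Fin (d + 1)) R) :
    dr r (Polynomial.C a) = Polynomial.C (MvPolynomial.pderiv r a) := by
  have h1 := gd_dr_mon r 0 a
  rwa [pow_zero, mul_one, mul_one] at h1

omit [CharZero K] [IsAlgClosure K Ω] [Algebra F K] [Algebra F Ω] [IsScalarTower F K Ω] in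
private theorem gd_C {P : MvPolynomial (Fin (d + 1)) K}
    (hP : ∀ e, L.nm (algebraMap K Ω (P.coeff e)) ≤ 1) (k : ℕ)
    (e : Fin (d + 1) →₀ ℕ) :
    L.nm (algebraMap K Ω (((Polynomial.C P).coeff k).coeff e)) ≤ 1 := by
  rw [Polynomial.coeff_C]
  by_cases hk : k = 0
  · rw [if_pos hk]
    exact hP e
  · rw [if_neg hk, MvPolynomial.coeff_zero, map_zero, L.zero]
    exact zero_le_one

omit [CharZero K] [IsAlgClosure K Ω] [Algebra F K] [Algebra F Ω] [IsScalarTower F K Ω] in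
private theorem gd_d {P : Polynomial (MvPolynomial (Fin (d + 1)) K)}
    (hP : ∀ k e, L.nm (algebraMap K Ω ((P.coeff k).coeff e)) ≤ 1) (k : ℕ)
    (e : Fin (d + 1) →₀ ℕ) :
    L.nm (algebraMap K Ω (((Polynomial.derivative P).coeff k).coeff e)) ≤ 1 := by
  rw [Polynomial.coeff_derivative]
  have h1 : ((k : MvPolynomial (Fin (d + 1)) K) + 1) = MvPolynomial.C (((k + 1 : ℕ) : K)) := by
    rw [map_natCast, Nat.cast_add, Nat.cast_one]
  rw [h1, mul_comm, MvPolynomial.coeff_C_mul, map_mul, map_natCast, L.mul]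
  exact mul_le_one₀ (L.nat_le _) (L.nonneg _) (hP _ _)

/-- The point `A / D`. -/
theorem Pk.pt_zp (hψ : Pk f L ψ) (hG : pe c w ψ.G = 0)
    (hD : MvPolynomial.aeval c ψ.D ≠ 0) :
    (ψ.om Ω).pt c w ≠ 0 ∧ (∀ i, MvPolynomial.aeval ((ψ.om Ω).pt c w) (f i) = 0) ∧
      ψ.uv ((ψ.om Ω).pt c w) = c ∧ ψ.yv ((ψ.om Ω).pt c w) = w := by
  obtain ⟨hz, hu, hy⟩ := hψ.ok.pt_zp (om_hom hψ.hom) (c := c) (w := w)
    (by
      change pe c w (ψ.om Ω).G = 0
      rw [om_G]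
      exact hG) (by
      change MvPolynomial.eval c (ψ.om Ω).D ≠ 0
      rw [om_D]
      exact hD)
  refine ⟨(om_zp.1 hz).1, (om_zp.1 hz).2, ?_, ?_⟩
  · rw [← om_uv]
    exact hu
  · rw [← om_yv]
    exact hy

/-- **Second order, with constants.** -/
theorem Pk.second (hψ : Pk f L ψ) (hc : ∀ r, L.nm (c r) ≤ 1) (hc' : ∀ r, L.nm (c' r) ≤ 1)
    (hG : pe c w ψ.G = 0) (hG' : pe c' w' ψ.G = 0) {δ t : ℝ} (hδ : 0 < δ)
    (hD : δ ≤ L.nm (MvPolynomial.aeval c ψ.D)) (hD' : δ ≤ L.nm (MvPolynomial.aeval c' ψ.D))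
    (ht : 0 ≤ t) (ht1 : t ≤ 1) (h1 : ∀ r, L.nm (c' r - c r) ≤ t) (h2 : L.nm (w' - w) ≤ t)
    (j : Fin N) :
    L.nm ((ψ.om Ω).pt c' w' j - (ψ.om Ω).pt c w j) * δ ^ 2 ≤ t ∧
      L.nm ((ψ.om Ω).pt c' w' j - (ψ.om Ω).pt c w j -
        (ψ.om Ω).lt c w (fun r => c' r - c r) j) * δ ^ 4 ≤ t ^ 2 := by
  classical
  have hw := hψ.wl hc hG
  have hw' := hψ.wl hc' hG'
  have hgy := hψ.gy hc hG
  have hDi : ∀ c : Fin (d + 1) → Ω, (∀ r, L.nm (c r) ≤ 1) →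
      L.nm (MvPolynomial.aeval c ψ.D) ≤ 1 := fun c hc => GM.ae_le (F := K) (K := K) hψ.iD hc
  have hD1 := hDi c hc
  have hδ1 : δ ≤ 1 := hD.trans hD1
  clear hDi
  obtain ⟨ξ, hξd⟩ : ∃ ξ : Fin (d + 1) → Ω, ξ = fun r => c' r - c r := ⟨_, rfl⟩
  obtain ⟨ω, hωd⟩ : ∃ ω : Ω, ω = w' - w := ⟨_, rfl⟩
  have hξ : ∀ r, L.nm (ξ r) ≤ t := fun r => by rw [hξd]; exact h1 r
  have hω : L.nm ω ≤ t := by rw [hωd]; exact h2
  have hcξ : c + ξ = c' := by
    funext r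
    rw [hξd, Pi.add_apply]
    ring
  have hwω : w + ω = w' := by rw [hωd]; ring
  have TG := pe_tay hψ.iG hc hw ht ht1 hξ hω
  have TA := pe_tay (hψ.iA j) hc hw ht ht1 hξ hω
  have TD := pe_tay (gd_C hψ.iD) hc hw ht ht1 hξ hω
  have hAi : L.nm (pe c w (Polynomial.derivative (ψ.A j))) ≤ 1 := pe_le (gd_d (hψ.iA j)) hc hw
  have hGi : L.nm (pe c w (Polynomial.derivative ψ.G)) ≤ 1 := pe_le (gd_d hψ.iG) hc hw
  have hA1 : L.nm (pe c w (ψ.A j)) ≤ 1 := pe_le (hψ.iA j) hc hw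
  have hA1' : L.nm (pe c' w' (ψ.A j)) ≤ 1 := pe_le (hψ.iA j) hc' hw'
  have hAA : L.nm (pe c' w' (ψ.A j) - pe c w (ψ.A j)) ≤ t :=
    pe_close (hψ.iA j) hc' hw' hc hw ht h1 h2
  have hDD : L.nm (MvPolynomial.aeval c' ψ.D - MvPolynomial.aeval c ψ.D) ≤ t :=
    GM.ae_close (F := K) (K := K) hψ.iD hc' hc ht h1
  have hδδ : L.nm (∑ r, ξ r * MvPolynomial.aeval c (MvPolynomial.pderiv r ψ.D)) ≤ t := by
    refine L.sum_le _ _ ht fun r _ => ?_
    rw [L.mul]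
    exact (mul_le_of_le_one_right (L.nonneg _)
      (GM.ae_le (F := K) (K := K) (GM.pd_int (F := K) (K := K) hψ.iD r) hc)).trans (hξ r)
  have hTD : ∀ r, pe c w (dr r (Polynomial.C ψ.D)) =
      MvPolynomial.aeval c (MvPolynomial.pderiv r ψ.D) := by
    intro r
    rw [gd_dr_C, pe_C]
  have htp : ∑ r, ξ r * pe c w (ψ.tp r j) =
      MvPolynomial.aeval c ψ.D *
        ((∑ r, ξ r * pe c w (dr r (ψ.A j))) * pe c w (Polynomial.derivative ψ.G) -
        pe c w (Polynomial.derivative (ψ.A j)) * (∑ r, ξ r * pe c w (dr r ψ.G))) -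
      pe c w (ψ.A j) * (∑ r, ξ r * MvPolynomial.aeval c (MvPolynomial.pderiv r ψ.D)) *
          pe c w (Polynomial.derivative ψ.G) := by
    have h1 : ∀ r, ξ r * pe c w (ψ.tp r j) =
        MvPolynomial.aeval c ψ.D *
          (ξ r * pe c w (dr r (ψ.A j)) * pe c w (Polynomial.derivative ψ.G) -
          pe c w (Polynomial.derivative (ψ.A j)) * (ξ r * pe c w (dr r ψ.G))) -
        pe c w (ψ.A j) * (ξ r * MvPolynomial.aeval c (MvPolynomial.pderiv r ψ.D)) *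
            pe c w (Polynomial.derivative ψ.G) := by
      intro r
      rw [Prj.tp, map_sub, map_mul, map_sub, map_mul, map_mul, map_mul, map_mul, pe_C, pe_C]
      ring
    rw [Finset.sum_congr rfl fun r _ => h1 r, Finset.sum_sub_distrib, ← Finset.mul_sum,
      Finset.sum_sub_distrib, ← Finset.sum_mul, ← Finset.mul_sum, ← Finset.sum_mul,
      ← Finset.mul_sum]
  rw [hcξ, hwω] at TG TA TD
  simp only [hTD] at TD
  rw [Polynomial.derivative_C, map_zero, mul_zero, add_zero, pe_C, pe_C] at TD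
  rw [hG, hG'] at TG
  rw [← hξd, lt_form, htp, om_pt, om_pt]
  generalize ∑ r, ξ r * MvPolynomial.aeval c (MvPolynomial.pderiv r ψ.D) = η at *
  generalize ∑ r, ξ r * pe c w (dr r (ψ.A j)) = SA at *
  generalize ∑ r, ξ r * pe c w (dr r ψ.G) = SG at *
  generalize MvPolynomial.aeval c ψ.D = D at *
  generalize MvPolynomial.aeval c' ψ.D = D' at *
  generalize pe c w (Polynomial.derivative (ψ.A j)) = AY at *
  generalize pe c w (Polynomial.derivative ψ.G) = GY at *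
  generalize pe c w (ψ.A j) = a at *
  generalize pe c' w' (ψ.A j) = a' at *
  have hδ0 := hδ.le
  have hDp : 0 < L.nm D := hδ.trans_le hD
  have hDp' : 0 < L.nm D' := hδ.trans_le hD'
  have hGp : 0 < L.nm GY := hDp.trans_le hgy
  have hD0 : D ≠ 0 := L.ne_zero hDp
  have hD0' : D' ≠ 0 := L.ne_zero hDp'
  have hG0 : GY ≠ 0 := L.ne_zero hGp
  have hd2 : (0 : ℝ) ≤ δ ^ 2 := sq_nonneg δ
  have ht2 : (0 : ℝ) ≤ t ^ 2 := sq_nonneg t
  have hδ2 : δ ^ 2 ≤ 1 := pow_le_one₀ hδ0 hδ1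
  -- first order
  have hfst : L.nm (a' / D' - a / D) * δ ^ 2 ≤ t := by
    have e1 : (a' / D' - a / D) * (D * D') = (a' - a) * D - a * (D' - D) := by
      field_simp
      ring
    have h3 : L.nm (a' / D' - a / D) * (L.nm D * L.nm D') ≤ t := by
      rw [← L.mul D, ← L.mul, e1]
      refine (L.sub _ _).trans (max_le ?_ ?_)
      · rw [L.mul]
        exact (mul_le_of_le_one_right (L.nonneg _) hD1).trans hAA
      · rw [L.mul]
        exact (mul_le_of_le_one_left (L.nonneg _) hA1).trans hDD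
    refine le_trans (mul_le_mul_of_nonneg_left ?_ (L.nonneg _)) h3
    rw [pow_two]
    exact mul_le_mul hD hD' hδ0 hDp.le
  refine ⟨hfst, ?_⟩
  have hx1 : L.nm (a' / D') * δ ≤ 1 := by
    rw [L.div, div_mul_eq_mul_div, div_le_one hDp']
    exact (mul_le_of_le_one_left hδ0 hA1').trans hD'
  have hE : L.nm (D * (a' / D' - a / D) + η * (a / D) - (SA + ω * AY)) * δ ^ 2 ≤ t ^ 2 := by
    have e1 : D * (a' / D' - a / D) + η * (a / D) - (SA + ω * AY) =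
        (a' - (a + (SA + ω * AY))) - (D' - (D + η)) * (a' / D') -
        η * (a' / D' - a / D) := by
      field_simp
      ring
    rw [e1]
    refine le_trans (mul_le_mul_of_nonneg_right (L.sub _ _) hd2) ?_
    rw [max_mul_of_nonneg _ _ hd2]
    refine max_le (le_trans (mul_le_mul_of_nonneg_right (L.sub _ _) hd2) ?_) ?_
    · rw [max_mul_of_nonneg _ _ hd2]
      refine max_le ?_ ?_
      · exact (mul_le_of_le_one_right (L.nonneg _) hδ2).trans TA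
      · rw [L.mul, pow_two δ]
        calc L.nm (D' - (D + η)) * L.nm (a' / D') * (δ * δ)
            = L.nm (D' - (D + η)) * ((L.nm (a' / D') * δ) * δ) := by ring
          _ ≤ L.nm (D' - (D + η)) * 1 := mul_le_mul_of_nonneg_left
              (mul_le_one₀ hx1 hδ0 hδ1) (L.nonneg _)
          _ ≤ t ^ 2 := by rw [mul_one]; exact TD
    · rw [L.mul, mul_assoc, pow_two t]
      exact mul_le_mul hδδ hfst (mul_nonneg (L.nonneg _) hd2) ht
  have hTG : L.nm (SG + ω * GY) ≤ t ^ 2 := by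
    have e1 : (0 : Ω) - (0 + (SG + ω * GY)) = -(SG + ω * GY) := by ring
    rw [e1, L.neg] at TG
    exact TG
  have e2 : (a' / D' - a / D - (D * (SA * GY - AY * SG) - a * η * GY) / (D ^ 2 * GY)) *
      (D * GY) = GY * (D * (a' / D' - a / D) + η * (a / D) - (SA + ω * AY)) +
        AY * (SG + ω * GY) := by
    field_simp
    ring
  obtain ⟨v, hv⟩ : ∃ v, v = a' / D' - a / D -
      (D * (SA * GY - AY * SG) - a * η * GY) / (D ^ 2 * GY) := ⟨_, rfl⟩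
  rw [← hv] at e2 ⊢
  have h4 : L.nm v * (L.nm D * L.nm GY) * δ ^ 2 ≤ t ^ 2 := by
    rw [← L.mul D, ← L.mul, e2]
    refine le_trans (mul_le_mul_of_nonneg_right (L.add _ _) hd2) ?_
    rw [max_mul_of_nonneg _ _ hd2]
    refine max_le ?_ ?_
    · rw [L.mul, mul_assoc]
      exact (mul_le_of_le_one_left (mul_nonneg (L.nonneg _) hd2) hGi).trans hE
    · rw [L.mul, mul_assoc]
      refine (mul_le_of_le_one_left (mul_nonneg (L.nonneg _) hd2) hAi).trans ?_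
      exact (mul_le_of_le_one_right (L.nonneg _) hδ2).trans hTG
  refine le_trans ?_ h4
  have e3 : δ ^ 4 = δ * δ * δ ^ 2 := by ring
  rw [e3, ← mul_assoc]
  refine mul_le_mul_of_nonneg_right (mul_le_mul_of_nonneg_left ?_ (L.nonneg _)) hd2
  exact mul_le_mul hD (hD.trans hgy) hδ0 hDp.le

end prj

variable {F : Type} [Field F] {N d m : ℕ} {ι : Type} {f : ι → MvPolynomial (Fin N) F}
  {K Ω : Type} [Field K] [CharZero K] [Field Ω] [Algebra K Ω] [Algebra F K] [Algebra F Ω]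
  [IsScalarTower F K Ω] [IsAlgClosure K Ω] {L : Ld K Ω} {X : Bd f K Ω d m}
  {M : IntermediateField K Ω} {b b' : X.B} {h h' : Fin (d + 1) → Ω} {t : ℝ}

/-- The coordinates `A / D` of the point `P b h`. -/
noncomputable def Bd.xx (L : Ld K Ω) (X : Bd f K Ω d m) (b : X.B) (h : Fin (d + 1) → Ω) :
    Fin N → Ω :=
  ((X.ψ (X.i b)).om Ω).pt (X.cc b h) (X.rt L b h)

/-- The tangent vector at `xx b h` over `ϖ x`. -/
noncomputable def Bd.tt (L : Ld K Ω) (X : Bd f K Ω d m) (b : X.B) (h x : Fin (d + 1) → Ω) :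
    Fin N → Ω :=
  ((X.ψ (X.i b)).om Ω).lt (X.cc b h) (X.rt L b h) fun r => X.ϖ * x r

theorem Bd.Ok.dcc (hX : X.Ok L) (b : X.B) (hh : ∀ r, L.nm (h r) ≤ 1) :
    X.ε ≤ L.nm (MvPolynomial.aeval (X.cc b h) (X.ψ (X.i b)).D) := by
  rw [hX.D_cc b hh]
  exact hX.D b

theorem Bd.Ok.dcc_ne (hX : X.Ok L) (b : X.B) (hh : ∀ r, L.nm (h r) ≤ 1) :
    MvPolynomial.aeval (X.cc b h) (X.ψ (X.i b)).D ≠ 0 :=
  L.ne_zero (hX.ε0.trans_le (hX.dcc b hh))

/-- The point over `c = cc b h`. -/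
theorem Bd.Ok.xx_zp (hX : X.Ok L) (b : X.B) (hh : ∀ r, L.nm (h r) ≤ 1) :
    X.xx L b h ≠ 0 ∧ (∀ i, MvPolynomial.aeval (X.xx L b h) (f i) = 0) ∧
      (X.ψ (X.i b)).uv (X.xx L b h) = X.cc b h ∧
        (X.ψ (X.i b)).yv (X.xx L b h) = X.rt L b h :=
  (hX.pk (X.i b)).pt_zp (hX.rt_root b hh) (hX.dcc_ne b hh)

omit [CharZero K] [IsAlgClosure K Ω] in
theorem Bd.Ok.cc_le (hX : X.Ok L) (b : X.B) (hh : ∀ r, L.nm (h r) ≤ 1) (r : Fin (d + 1)) :
    L.nm (X.cc b h r) ≤ 1 := by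
  have h1 : L.nm X.ϖ ≤ 1 := by
    have h2 : X.ε ≤ 1 := hX.εp.trans L.lt.le
    exact hX.sm.le.trans (pow_le_one₀ hX.ε0.le h2)
  refine (L.add _ _).trans (max_le (hX.iv b r).2 ?_)
  rw [L.mul]
  exact mul_le_one₀ h1 (L.nonneg _) (hh r)

theorem Bd.Ok.xx_co (hX : X.Ok L) (b : X.B) (hh : ∀ r, L.nm (h r) ≤ 1) :
    Co (X.P b h) (X.xx L b h) := by
  have h1 := co_smul (hX.pk (X.i b)).hom (hX.cop b hh) (inv_ne_zero (hX.dcc_ne b hh))
  have e : (fun j => (MvPolynomial.aeval (X.cc b h) (X.ψ (X.i b)).D)⁻¹ *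
      pe (X.cc b h) (X.rt L b h) ((X.ψ (X.i b)).A j)) = X.xx L b h := by
    funext j
    rw [Bd.xx, om_pt, div_eq_inv_mul]
  rw [e] at h1
  exact h1

theorem Bd.Ok.xx_mem (hX : X.Ok L) (b : X.B) (hh : Iv L M h) (j : Fin N) :
    X.xx L b h j ∈ M := by
  rw [Bd.xx, om_pt]
  exact M.div_mem (pe_mem _ (fun r => (hX.cc_iv hh r).1) (hX.rt_mem b hh).1)
    (aev_mem _ fun r => (hX.cc_iv hh r).1)

theorem Bd.Ok.xx_le (hX : X.Ok L) (b : X.B) (hh : ∀ r, L.nm (h r) ≤ 1) (j : Fin N) :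
    L.nm (X.xx L b h j) ≤ X.ε⁻¹ := by
  have hc := hX.cc_le b hh
  have hw := (hX.pk (X.i b)).wl hc (hX.rt_root b hh)
  rw [Bd.xx, om_pt, L.div, div_eq_mul_inv]
  refine (mul_le_of_le_one_left (inv_nonneg.2 (L.nonneg _))
    (pe_le ((hX.pk (X.i b)).iA j) hc hw)).trans ?_
  exact inv_anti₀ hX.ε0 (hX.dcc b hh)

theorem Bd.Ok.xx_ge (hX : X.Ok L) (b : X.B) (hh : ∀ r, L.nm (h r) ≤ 1) :
    ∃ j, X.ε ^ 2 ≤ L.nm (X.xx L b h j) := by
  have hc := hX.cc_le b hh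
  obtain ⟨j, hj⟩ := (hX.pk (X.i b)).am hc (hX.rt_root b hh) (hX.dcc_ne b hh)
  have hD := hX.dcc b hh
  have hDp : 0 < L.nm (MvPolynomial.aeval (X.cc b h) (X.ψ (X.i b)).D) := hX.ε0.trans_le hD
  have hD1 : L.nm (MvPolynomial.aeval (X.cc b h) (X.ψ (X.i b)).D) ≤ 1 :=
    GM.ae_le (F := K) (K := K) (hX.pk (X.i b)).iD hc
  refine ⟨j, ?_⟩
  rw [Bd.xx, om_pt, L.div, le_div_iff₀ hDp]
  refine le_trans ?_ hj
  refine (mul_le_of_le_one_right (sq_nonneg _) hD1).trans ?_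
  exact pow_le_pow_left₀ hX.ε0.le hD 2

theorem Bd.Ok.tt_tg (hX : X.Ok L) (b : X.B) (hh : ∀ r, L.nm (h r) ≤ 1)
    (x : Fin (d + 1) → Ω) :
    Tg (fun i => MvPolynomial.map (algebraMap F Ω) (f i)) (X.xx L b h) (X.tt L b h x) ∧
      ∀ r, (X.ψ (X.i b)).uv (X.tt L b h x) r = X.ϖ * x r := by
  have h1 := (hX.pk (X.i b)).ok.lt_tg (om_hom (hX.pk (X.i b)).hom) (c := X.cc b h)
    (w := X.rt L b h) (by
      change pe _ _ ((X.ψ (X.i b)).om Ω).G = 0
      rw [om_G]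
      exact hX.rt_root b hh) (by
      change MvPolynomial.eval _ ((X.ψ (X.i b)).om Ω).D ≠ 0
      rw [om_D]
      exact hX.dcc_ne b hh) fun r => X.ϖ * x r
  refine ⟨h1.1, fun r => ?_⟩
  rw [← om_uv]
  exact congrFun h1.2 r

theorem Bd.Ok.tt_mem (hX : X.Ok L) (b : X.B) (hh : Iv L M h) {x : Fin (d + 1) → Ω}
    (hx : ∀ r, x r ∈ M) (j : Fin N) : X.tt L b h x j ∈ M :=
  lt_mem (fun r => (hX.cc_iv hh r).1) (hX.rt_mem b hh).1
    (fun r => M.mul_mem (bot_le (a := M) hX.ϖm) (hx r)) j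

theorem Bd.tt_add (X : Bd f K Ω d m) (b : X.B) (h x x' : Fin (d + 1) → Ω) :
    X.tt L b h (x + x') = X.tt L b h x + X.tt L b h x' := by
  rw [Bd.tt, Bd.tt, Bd.tt, ← Prj.lt_add]
  congr 1
  funext r
  rw [Pi.add_apply, Pi.add_apply, mul_add]

theorem Bd.tt_smul (X : Bd f K Ω d m) (b : X.B) (h x : Fin (d + 1) → Ω) (a : Ω) :
    X.tt L b h (a • x) = a • X.tt L b h x := by
  rw [Bd.tt, Bd.tt, ← Prj.lt_smul]
  congr 1
  funext r
  rw [Pi.smul_apply, Pi.smul_apply, smul_eq_mul, smul_eq_mul]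
  ring

/-- **First and second order in a branch.** -/
theorem Bd.Ok.tan (hX : X.Ok L) (b : X.B) (hh : ∀ r, L.nm (h r) ≤ 1)
    (hh' : ∀ r, L.nm (h' r) ≤ 1) (h0 : 0 ≤ t) (ht1 : t ≤ 1)
    (ht : ∀ r, L.nm (h' r - h r) ≤ t) (j : Fin N) :
    L.nm (X.xx L b h' j - X.xx L b h j) ≤ t ∧
      L.nm (X.xx L b h' j - X.xx L b h j - X.tt L b h (fun r => h' r - h r) j) ≤ t * t := by
  have hε := hX.ε0
  have hε1 : X.ε ≤ 1 := hX.ε1.le
  have hϖ := hX.sm
  obtain ⟨s, hs⟩ : ∃ s, s = L.nm X.ϖ * t / X.ε := ⟨_, rfl⟩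
  have hn : 0 ≤ L.nm X.ϖ * t := mul_nonneg (L.nonneg _) h0
  have hs0 : 0 ≤ s := by rw [hs]; exact div_nonneg hn hε.le
  have hs11 : s ≤ X.ε ^ 11 * t := by
    rw [hs, div_le_iff₀ hε]
    have e : X.ε ^ 11 * t * X.ε = X.ε ^ 12 * t := by ring
    rw [e]
    exact mul_le_mul_of_nonneg_right hϖ.le h0
  have h11 : X.ε ^ 11 ≤ 1 := pow_le_one₀ hε.le hε1
  have hst : s ≤ t := hs11.trans (mul_le_of_le_one_left h0 h11)
  have hs1 : s ≤ 1 := hst.trans ht1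
  have hc1 : ∀ r, L.nm (X.cc b h' r - X.cc b h r) ≤ s := by
    intro r
    have e : X.cc b h' r - X.cc b h r = X.ϖ * (h' r - h r) := by
      rw [Bd.cc, Bd.cc]
      ring
    rw [e, L.mul, hs, le_div_iff₀ hε]
    refine (mul_le_of_le_one_right (mul_nonneg (L.nonneg _) (L.nonneg _)) hε1).trans ?_
    exact mul_le_mul_of_nonneg_left (ht r) (L.nonneg _)
  have hw1 : L.nm (X.rt L b h' - X.rt L b h) ≤ s := by
    rw [hs, le_div_iff₀ hε]
    exact hX.rt_near b hh hh' h0 ht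
  have h1 := (hX.pk (X.i b)).second (hX.cc_le b hh) (hX.cc_le b hh') (hX.rt_root b hh)
    (hX.rt_root b hh') hε (hX.dcc b hh) (hX.dcc b hh') hs0 hs1 hc1 hw1 j
  have e1 : (fun r => X.cc b h' r - X.cc b h r) = fun r => X.ϖ * (h' r - h r) := by
    funext r
    rw [Bd.cc, Bd.cc]
    ring
  rw [e1] at h1
  refine ⟨?_, ?_⟩
  · refine le_of_mul_le_mul_right (h1.1.trans ?_) (pow_pos hε 2)
    refine hs11.trans ?_
    rw [mul_comm]
    exact mul_le_mul_of_nonneg_left (pow_le_pow_of_le_one hε.le hε1 (by norm_num)) h0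
  · refine le_of_mul_le_mul_right (h1.2.trans ?_) (pow_pos hε 4)
    calc s ^ 2 ≤ (X.ε ^ 11 * t) ^ 2 := pow_le_pow_left₀ hs0 hs11 2
      _ = t * t * X.ε ^ 22 := by ring
      _ ≤ t * t * X.ε ^ 4 := mul_le_mul_of_nonneg_left
          (pow_le_pow_of_le_one hε.le hε1 (by norm_num)) (mul_nonneg h0 h0)

end GX
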