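import Pool.Agent.Lib.MP_f80667_ag.Ep.X

/-!
The cycles of the theorem.

* `Dcy f L t`: the group generated by the traces to `K` of `[y'] - [y]`, `y`, `y'` points over finite extensions of `K` with primitive coordinates
  congruent modulo the numbers of norm `≤ t`.
* `Ub L P t`: the group generated by the traces of `[P b h'] - [P b h]` over finite extensions, `h' - h` of norm `≤ t`.
-/

open ZC BE PE CV IntermediateField

namespace GX

variable {F : Type} [Field F] {K Ω : Type} [Field K] [Field Ω] [Algebra K Ω] [Algebra F K]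
  [Algebra F Ω] [IsScalarTower F K Ω] (L : Ld K Ω)

/-- The traces of displacements of points over finite extensions. -/
noncomputable def Dcy {N : ℕ} {ι : Type} (f : ι → MvPolynomial (Fin N) F) (t : ℝ) :
    AddSubgroup ((Xf f).pt Ω →₀ ℤ) :=
  AddSubgroup.closure {z | ∃ (M : IntermediateField K Ω) (_ : FiniteDimensional K M)
    (y y' : (Xf f).pt Ω), Fp (Xf f) M y ∧ Fp (Xf f) M y' ∧ Nrh f L t y y' ∧
      z = Nm (⊥ : IntermediateField K Ω) M
        (Finsupp.single y' 1 - Finsupp.single y 1 : (Xf f).pt Ω →₀ ℤ)}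

/-- The traces of displacements inside the branches over finite extensions. -/
noncomputable def Ub {V : Vr F} [Hf V] {σ B : Type} (P : B → (σ → Ω) → V.pt Ω) (t : ℝ) :
    AddSubgroup (V.pt Ω →₀ ℤ) :=
  AddSubgroup.closure {z | ∃ (M : IntermediateField K Ω) (_ : FiniteDimensional K M) (b : B)
    (h h' : σ → Ω), Iv L M h ∧ Iv L M h' ∧ (∀ r, L.nm (h' r - h r) ≤ t) ∧ z = dvb P M b h h'}

end GX
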