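import Pool.Agent.Lib.MP_f80667_ag.Ep.Ax2
import Pool.Agent.Lib.MP_f80667_ag.Ep.Y
import Pool.Agent.Lib.MP_f80667_ag.Ep.Gd

/-! Rational points near a point which is near to its conjugates. -/

open ZC BE PE CV IntermediateField

namespace GX

variable {F : Type} [Field F] {N d m : ℕ} {ι : Type} {f : ι → MvPolynomial (Fin N) F}
  {K Ω : Type} [Field K] [CharZero K] [Field Ω] [Algebra K Ω] [Algebra F K] [Algebra F Ω]
  [IsScalarTower F K Ω] [IsAlgClosure K Ω] {L : Ld K Ω} {ψ : Fin m → Prj K N d} {ε : ℝ}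

/-- Proof: `P` has coordinates `x` with `x_k = 1`, `nm (x_j) ≤ 1`; then `nm (γ x_j - x_j) ≤ |p| ^ s` (divide the coordinates given by `Nrh` by their coordinate `k`, of norm `1` as `s ≥ 1`). `exists_ax`: `a_j ∈ M` with `nm (x_j - a_j) ≤ |p| ^ (s - 2)`. A projection `i` with
`nm (D_i (u_i x)) ≥ ε` (`hc`); `c = u_i (a)` is over `M`, `nm (c - u_i (x)) ≤ |p| ^ (s - 2)`; the root `w` of `G_i (c, Y)` near `y_i (x)` (`Pk.root`, with `δ = ε`) is in `M` (`Pk.root_uniq`: its conjugates over `M` are near `y_i (x)` too, or `Pk.root_mem` does not apply: `x` is not over `M`).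
`P'` = the point with the coordinates `A_i (c, w)` (`Pk.co`); distance: `Pk.second` (first part) and division by a coordinate (`x_k = 1`): `nm ≤ |p| ^ (s - 2) ε ^ (-1) ε ^ (-2)`: `C` with `|p| ^ (C - 2) ≤ ε ^ 6`. -/
theorem exists_rat_near (hψ : ∀ i, Pk f L (ψ i)) (hε : 0 < ε)
    (hc : ∀ x : Fin N → Ω, (∀ j, L.nm (x j) ≤ 1) → (∃ k, L.nm (x k) = 1) →
      (∀ j, MvPolynomial.aeval x (f j) = 0) →
        ∃ i, ε ≤ L.nm (MvPolynomial.aeval ((ψ i).uv x) (ψ i).D)) :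
    ∃ C : ℕ, ∀ s, C ≤ s → ∀ (M : IntermediateField K Ω) (P : (Xf f).pt Ω),
      (∀ γ ∈ M.fixingSubgroup, Nrh f L (L.nm (L.p : Ω) ^ s) ((Xf f).act γ P) P) →
        ∃ P', Fp (Xf f) M P' ∧ Nrh f L (L.nm (L.p : Ω) ^ (s - C)) P' P := by
  classical
  have hp0 : 0 < L.nm (L.p : Ω) := L.p_pos
  have hp1 : L.nm (L.p : Ω) < 1 := L.lt
  obtain ⟨δ, hδd⟩ : ∃ δ : ℝ, δ = min ε 1 := ⟨_, rfl⟩
  have hδ : 0 < δ := by rw [hδd]; exact lt_min hε zero_lt_one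
  have hδ1 : δ ≤ 1 := by rw [hδd]; exact min_le_right _ _
  have hδε : δ ≤ ε := by rw [hδd]; exact min_le_left _ _
  obtain ⟨C₀, hC₀⟩ : ∃ n : ℕ, L.nm (L.p : Ω) ^ n < δ ^ 6 :=
    exists_pow_lt_of_lt_one (pow_pos hδ 6) hp1
  refine ⟨C₀ + 2, fun s hs M P hP => ?_⟩
  -- homogeneity
  obtain ⟨y, y', -, hy, -, hy1, -, hyk, -⟩ := hP 1 (one_mem _)
  obtain ⟨i₀, -⟩ := hc y' hy1 hyk (co_zero hy)
  have hG : Hm f := (hψ i₀).hom
  -- normalized coordinates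
  obtain ⟨x, k, hx, hxk, hx1⟩ := exists_nco (L := L) hG P
  have hs1 : L.nm (L.p : Ω) ^ s < 1 := pow_lt_one₀ hp0.le hp1 (by omega)
  have hγx : ∀ γ ∈ M.fixingSubgroup, ∀ j, L.nm (γ (x j) - x j) ≤ L.nm (L.p : Ω) ^ s := by
    intro γ hγ j
    exact nrh_one hG hs1 (hP γ hγ) (co_act γ hx) hx (i := k) (by rw [hxk, map_one]) hxk
      (fun j => by rw [L.act]; exact hx1 j) hx1 j
  have hax : ∀ j, ∃ a ∈ M, L.nm (x j - a) * L.nm (L.p : Ω) ^ 2 ≤ L.nm (L.p : Ω) ^ s :=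
    fun j => exists_ax L M (pow_nonneg hp0.le s) fun γ hγ => hγx γ hγ j
  choose a ha hxa using hax
  obtain ⟨t, htd⟩ : ∃ t : ℝ, t = L.nm (L.p : Ω) ^ (s - 2) := ⟨_, rfl⟩
  have ht0 : 0 ≤ t := by rw [htd]; exact pow_nonneg hp0.le _
  have hts : L.nm (L.p : Ω) ^ s ≤ t := by
    rw [htd]
    exact pow_le_pow_of_le_one hp0.le hp1.le (by omega)
  have htC : t = L.nm (L.p : Ω) ^ (s - (C₀ + 2)) * L.nm (L.p : Ω) ^ C₀ := by
    rw [htd, ← pow_add]
    congr 1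
    omega
  have hu0 : 0 < L.nm (L.p : Ω) ^ (s - (C₀ + 2)) := pow_pos hp0 _
  have hu1 : L.nm (L.p : Ω) ^ (s - (C₀ + 2)) ≤ 1 := pow_le_one₀ hp0.le hp1.le
  have ht6 : t < L.nm (L.p : Ω) ^ (s - (C₀ + 2)) * δ ^ 6 := by
    rw [htC]
    exact mul_lt_mul_of_pos_left hC₀ hu0
  have htδ : ∀ n ≤ 6, t < δ ^ n := fun n hn => by
    refine ht6.trans_le ((mul_le_of_le_one_left (pow_nonneg hδ.le 6) hu1).trans ?_)
    exact pow_le_pow_of_le_one hδ.le hδ1 hn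
  have ht1 : t < 1 := by
    have h1 := htδ 0 (by norm_num)
    rwa [pow_zero] at h1
  have htδ1 : t < δ := by
    have h1 := htδ 1 (by norm_num)
    rwa [pow_one] at h1
  have hxa' : ∀ j, L.nm (a j - x j) ≤ t := by
    intro j
    rw [L.sub_comm]
    have h1 : L.nm (L.p : Ω) ^ s = t * L.nm (L.p : Ω) ^ 2 := by
      rw [htd, ← pow_add]
      congr 1
      omega
    have h2 := hxa j
    rw [h1] at h2
    exact le_of_mul_le_mul_right h2 (pow_pos hp0 2)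
  have ha1 : ∀ j, L.nm (a j) ≤ 1 := by
    intro j
    have e : a j = (a j - x j) + x j := by ring
    rw [e]
    exact (L.add _ _).trans (max_le ((hxa' j).trans ht1.le) (hx1 j))
  -- the projection
  obtain ⟨i, hi⟩ := hc x hx1 ⟨k, by rw [hxk, L.one]⟩ (co_zero hx)
  have hψi := hψ i
  have hDx : δ ≤ L.nm (MvPolynomial.aeval ((ψ i).uv x) (ψ i).D) := hδε.trans hi
  have hc1 : ∀ r, L.nm ((ψ i).uv x r) ≤ 1 := fun r => lv_le (hψi.iu r) hx1
  have hc1' : ∀ r, L.nm ((ψ i).uv a r) ≤ 1 := fun r => lv_le (hψi.iu r) ha1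
  have hcM : ∀ r, (ψ i).uv a r ∈ M := fun r => lv_mem ((ψ i).u r) ha
  have hcc : ∀ r, L.nm ((ψ i).uv a r - (ψ i).uv x r) ≤ t := fun r =>
    lv_close (hψi.iu r) ht0 hxa'
  obtain ⟨hG0, hA0⟩ := hψi.onX x (co_ne hx) (co_zero hx)
  have hgy := hDx.trans (hψi.gy hc1 hG0)
  obtain ⟨w', hw', hww⟩ := hψi.root hc1 hc1' hG0 ht0 hcc hgy hδ htδ1
  have hw1 : L.nm w' ≤ 1 := hψi.wl hc1' hw'
  have hwδ : L.nm (w' - (ψ i).yv x) < δ := by
    refine lt_of_mul_lt_mul_right (hww.trans_lt ?_) hδ.le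
    have h1 := htδ 2 (by norm_num)
    rwa [pow_two] at h1
  have hwM : w' ∈ M := by
    refine mem_of_fix M fun γ hγ => ?_
    have hfix : ∀ y ∈ M, γ y = y := fun y hy =>
      (IntermediateField.mem_fixingSubgroup_iff M γ).1 hγ y hy
    have h2 := congrArg γ hw'
    rw [pe_act, map_zero] at h2
    have h3 : (fun r => γ ((ψ i).uv a r)) = (ψ i).uv a := funext fun r => hfix _ (hcM r)
    rw [h3] at h2
    refine hψi.root_uniq hc1 hc1' hG0 ht0 hcc hgy hδ (htδ 2 (by norm_num)) h2 hw' ?_ hwδ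
    have h4 : γ w' - (ψ i).yv x = γ (w' - (ψ i).yv x) + (γ ((ψ i).yv x) - (ψ i).yv x) := by
      rw [map_sub]
      ring
    rw [h4]
    refine (L.add _ _).trans_lt (max_lt (by rw [L.act]; exact hwδ) ?_)
    have h5 : γ ((ψ i).yv x) - (ψ i).yv x = lv (ψ i).y (fun j => γ (x j)) - lv (ψ i).y x := by
      rw [← lv_act]
      rfl
    rw [h5]
    exact (lv_close hψi.iy (pow_nonneg hp0.le s) fun j => hγx γ hγ j).trans_lt
      (hts.trans_lt htδ1)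
  -- the point
  have hDD : L.nm (MvPolynomial.aeval ((ψ i).uv a) (ψ i).D -
      MvPolynomial.aeval ((ψ i).uv x) (ψ i).D) ≤ t := hψi.D_near hc1 hc1' ht0 hcc
  have hDa : δ ≤ L.nm (MvPolynomial.aeval ((ψ i).uv a) (ψ i).D) := by
    rw [L.eq_of_close (hDD.trans_lt (htδ1.trans_le hDx))]
    exact hDx
  have hD0 : MvPolynomial.aeval ((ψ i).uv a) (ψ i).D ≠ 0 := L.ne_zero (hδ.trans_le hDa)
  have hD0' : MvPolynomial.aeval ((ψ i).uv x) (ψ i).D ≠ 0 := L.ne_zero (hδ.trans_le hDx)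
  obtain ⟨P', hP'⟩ := hψi.co hD0 hw'
  have hfp : Fp (Xf f) M P' := fp_co hP' fun j => pe_mem _ hcM hwM
  -- the coordinates
  obtain ⟨z, hz⟩ : ∃ z : Fin N → Ω, z = ((ψ i).om Ω).pt ((ψ i).uv a) w' := ⟨_, rfl⟩
  have hzco : Co P' z := by
    have h1 := co_smul hG hP' (inv_ne_zero hD0)
    have e : (fun j => (MvPolynomial.aeval ((ψ i).uv a) (ψ i).D)⁻¹ *
        pe ((ψ i).uv a) w' ((ψ i).A j)) = z := by
      funext j
      rw [hz, om_pt, div_eq_inv_mul]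
    rw [e] at h1
    exact h1
  have hpx : ∀ j, ((ψ i).om Ω).pt ((ψ i).uv x) ((ψ i).yv x) j = x j := by
    intro j
    rw [om_pt, hA0 j, mul_div_cancel_left₀ _ hD0']
  have htd0 : 0 ≤ t / δ := div_nonneg ht0 hδ.le
  have htd1 : t / δ ≤ 1 := by rw [div_le_one hδ]; exact htδ1.le
  have httd : t ≤ t / δ := by
    rw [le_div_iff₀ hδ]
    exact mul_le_of_le_one_right ht0 hδ1
  have hzx : ∀ j, L.nm (z j - x j) * δ ^ 3 ≤ t := by
    intro j
    have h1 := (hψi.second hc1 hc1' hG0 hw' hδ hDx hDa htd0 htd1 (fun r => (hcc r).trans httd)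
      (by rw [le_div_iff₀ hδ]; exact hww) j).1
    rw [hpx j, ← hz, le_div_iff₀ hδ] at h1
    calc L.nm (z j - x j) * δ ^ 3 = L.nm (z j - x j) * δ ^ 2 * δ := by ring
      _ ≤ t := h1
  have hzx' : ∀ j, L.nm (z j - x j) < L.nm (L.p : Ω) ^ (s - (C₀ + 2)) := by
    intro j
    refine lt_of_mul_lt_mul_right ((hzx j).trans_lt (ht6.trans_le ?_)) (pow_nonneg hδ.le 3)
    exact mul_le_mul_of_nonneg_left (pow_le_pow_of_le_one hδ.le hδ1 (by norm_num)) hu0.le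
  refine ⟨P', hfp, z, x, hzco, hx, fun j => ?_, hx1, ⟨k, ?_⟩, ⟨k, by rw [hxk, L.one]⟩,
    fun j => (hzx' j).le⟩
  · have e : z j = (z j - x j) + x j := by ring
    rw [e]
    exact (L.add _ _).trans (max_le ((hzx' j).le.trans hu1) (hx1 j))
  · have h1 : L.nm (z k - x k) < L.nm (x k) := by
      rw [hxk, L.one, ← hxk]
      exact (hzx' k).trans_le hu1
    rw [L.eq_of_close h1, hxk, L.one]

end GX
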