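import Pool.Agent.Lib.MP_f80667_ag.Ep.Ax4

/-! Cycles which are `0` modulo `t` are sums of traces of displacements. -/

open ZC BE PE CV IntermediateField

namespace GX

variable {F : Type} [Field F] {N : ℕ} {ι : Type} {f : ι → MvPolynomial (Fin N) F}
  {K Ω : Type} [Field K] [CharZero K] [Field Ω] [Algebra K Ω] [Algebra F K] [Algebra F Ω]
  [IsScalarTower F K Ω] [IsAlgClosure K Ω] {L : Ld K Ω}

/-- The equivariant section of the classes modulo `t`. -/
private theorem ax5_sec (hf : ∀ i, ∃ e, (f i).IsHomogeneous e) {t t' : ℝ} (h0 : 0 < t) (h1 : t < 1)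
    (htt : t ≤ t') (h1' : t' < 1)
    (hr : ∀ (M : IntermediateField K Ω) (P : (Xf f).pt Ω),
      (∀ γ ∈ M.fixingSubgroup, Nrh f L t ((Xf f).act γ P) P) →
        ∃ P', Fp (Xf f) M P' ∧ Nrh f L t' P' P) :
    ∃ s : (Xf f).pt Ω → (Xf f).pt Ω,
      (∀ (γ : Ω ≃ₐ[K] Ω) P, s ((Xf f).act γ P) = (Xf f).act γ (s P)) ∧
      (∀ P, Nrh f L t' (s P) P) ∧ ∀ P P', Nrh f L t P P' → s P = s P' := by
  classical
  obtain ⟨hR, hS, hT, hA⟩ := nrh_eqv (K := K) (L := L) hf h0.le h1
  let sd : Setoid ((Xf f).pt Ω) :=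
    ⟨Nrh f L t, ⟨hR, fun {a b} h => hS a b h, fun {a b c} h h' => hT a b c h h'⟩⟩
  let iX : MulAction (Ω ≃ₐ[K] Ω) ((Xf f).pt Ω) :=
    { smul := fun γ P => (Xf f).act γ P
      one_smul := fun P => act_one (fct f) P
      mul_smul := fun γ δ P => act_mul (fct f) γ δ P }
  let iC : MulAction (Ω ≃ₐ[K] Ω) (Quotient sd) :=
    { smul := fun γ => Quotient.map ((Xf f).act γ) fun a b h => hA γ a b h
      one_smul := fun c => by
        induction c using Quotient.inductionOn with
        | h P => exact congrArg (Quotient.mk sd) (act_one (fct f) P)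
      mul_smul := fun γ δ c => by
        induction c using Quotient.inductionOn with
        | h P => exact congrArg (Quotient.mk sd) (act_mul (fct f) γ δ P) }
  obtain ⟨s, hs1, hs2⟩ := xh_sec (Γ := Ω ≃ₐ[K] Ω) (C := Quotient sd) (X := (Xf f).pt Ω)
    (fun c x => ∃ P, Quotient.mk sd P = c ∧ Nrh f L t' x P)
    (fun γ c x h => by
      obtain ⟨P, hP, hx⟩ := h
      refine ⟨(Xf f).act γ P, ?_, nrh_act γ hx⟩
      rw [← hP]
      rfl)
    (fun c => by
      induction c using Quotient.inductionOn with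
      | h P =>
        obtain ⟨M₀, hM₀, hfp⟩ := exists_fph (K := K) P
        have hopn : opn K Ω (MulAction.stabilizer (Ω ≃ₐ[K] Ω) (Quotient.mk sd P)) := by
          refine ⟨M₀, hM₀, fun γ hγ => ?_⟩
          rw [MulAction.mem_stabilizer_iff]
          exact congrArg (Quotient.mk sd) (hfp γ hγ)
        obtain ⟨M, hM, hH⟩ := exists_fix hopn
        obtain ⟨P', hP', hn⟩ := hr M P (fun γ hγ => by
          rw [hH, MulAction.mem_stabilizer_iff] at hγ
          exact Quotient.exact hγ)
        refine ⟨P', ⟨P, rfl, hn⟩, fun γ hγ => ?_⟩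
        refine hP' γ ?_
        rw [hH, MulAction.mem_stabilizer_iff]
        exact hγ)
  refine ⟨fun P => s (Quotient.mk sd P), fun γ P => hs1 γ (Quotient.mk sd P), fun P => ?_,
    fun P P' h => ?_⟩
  · obtain ⟨P', h2, h3⟩ := hs2 (Quotient.mk sd P)
    exact nrh_trans hf h3 (nrh_mono htt (Quotient.exact h2))
  · have h3 : Quotient.mk sd P = Quotient.mk sd P' := Quotient.sound h
    change s (Quotient.mk sd P) = s (Quotient.mk sd P')
    rw [h3]

/-- A map which is constant on the classes modulo `t` kills the cycles `0` modulo `t`. -/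
private theorem ax5_map (hf : ∀ i, ∃ e, (f i).IsHomogeneous e) {t : ℝ} (h0 : 0 < t) (h1 : t < 1)
    {s : (Xf f).pt Ω → (Xf f).pt Ω} (hs : ∀ P P', Nrh f L t P P' → s P = s P')
    {z : (Xf f).pt Ω →₀ ℤ} (h : Zrt f L t z) : Finsupp.mapDomain s z = 0 := by
  classical
  obtain ⟨hR, hS, hT, -⟩ := nrh_eqv (K := K) (L := L) hf h0.le h1
  let sd : Setoid ((Xf f).pt Ω) :=
    ⟨Nrh f L t, ⟨hR, fun {a b} h => hS a b h, fun {a b c} h h' => hT a b c h h'⟩⟩
  have hsq : s = (Quotient.lift s fun a b h => hs a b h : Quotient sd → (Xf f).pt Ω) ∘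
      Quotient.mk sd := rfl
  have h2 : Finsupp.mapDomain (Quotient.mk sd) z = 0 := by
    ext c
    induction c using Quotient.inductionOn with
    | h Q =>
      rw [Finsupp.mapDomain, Finsupp.sum, Finsupp.finsetSum_apply, Finsupp.zero_apply, ← h Q,
        Finset.sum_filter]
      refine Finset.sum_congr rfl fun x _ => ?_
      rw [Finsupp.single_apply]
      refine if_congr ⟨fun h3 => Quotient.exact h3, fun h3 => Quotient.sound h3⟩ rfl rfl
  rw [hsq, Finsupp.mapDomain_comp, h2, Finsupp.mapDomain_zero]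

/-- Proof: induction on the number of points in the support of `z` (all cycles over `K` which are `0` modulo `t`). `z ≠ 0`: let `P` be in the support, `H` = the stabiliser of the ball of radius `t` of `P` (`γ P` near `P`): a subgroup which contains the stabiliser of `P`, so `H = M.fixingSubgroup` for a finite `M / K`
(`M ≤ K (P)`: the coordinates of `P`; `IntermediateField.fixedField`, `fixingSubgroup_fixedField` for the open = closed subgroup `H`; `InfiniteGalois`). `hr` gives `P'` over `M` near `P` (`t'`). Let `Q_1, .., Q_k` be representatives of the `H`-orbits of the points of the support in the ball; `K (Q_j)` contains `M`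
(`γ Q_j = Q_j` implies that `γ` fixes the ball). `z₁ = ∑ z (Q_j) Nm_(K (Q_j) / K) ([Q_j] - [P'])` is in `Dcy t'`, and it is equal to the part of `z` over the orbit of the ball: `∑ z (Q_j) Nm_(K (Q_j) / K) [P'] = (∑ z (Q_j) [K (Q_j) : M]) Nm_(M / K) [P'] = 0`, because `∑ z (Q_j) [K (Q_j) : M]`
is the sum of the coefficients of `z` over the ball. `z - z₁` = the part of `z` outside, it is over `K`, `0` modulo `t`, with smaller support. Alternative without orbits: `[K (Q) : K]` = number of conjugates; `z = ∑_Q (z (Q) / number) ..` over the rational numbers, or see `Gx/XH*.lean`, `Gm/GxH*.lean` (the same lemma for good reduction). -/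
theorem zrt_dcy (hf : ∀ i, ∃ e, (f i).IsHomogeneous e) {t t' : ℝ} (h0 : 0 < t) (h1 : t < 1)
    (htt : t ≤ t') (h1' : t' < 1)
    (hr : ∀ (M : IntermediateField K Ω) (P : (Xf f).pt Ω),
      (∀ γ ∈ M.fixingSubgroup, Nrh f L t ((Xf f).act γ P) P) →
        ∃ P', Fp (Xf f) M P' ∧ Nrh f L t' P' P)
    {z : (Xf f).pt Ω →₀ ℤ} (hz : z ∈ (Xf f).cyc K Ω) (h : Zrt f L t z) : z ∈ Dcy L f t' := by
  obtain ⟨s, hs1, hs2, hs3⟩ := ax5_sec (K := K) (L := L) hf h0 h1 htt h1' hr
  have h00 : Finsupp.mapDomain s z = 0 := ax5_map (K := K) (L := L) hf h0 h1 hs3 h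
  obtain ⟨T, hT⟩ : ∃ T : ((Xf f).pt Ω →₀ ℤ) →+ ((Xf f).pt Ω →₀ ℤ),
    T = AddMonoidHom.id _ - Finsupp.mapDomain.addMonoidHom s := ⟨_, rfl⟩
  have hTa : ∀ y, T y = y - Finsupp.mapDomain s y := fun y => by
    rw [hT]
    rfl
  have key : ∀ y : (Xf f).pt Ω →₀ ℤ, Fx (⊥ : IntermediateField K Ω) y →
      T y ∈ Dcy L f t' := by
    intro y hy
    have h2 := fx_gen exists_fph hy
    clear hy
    induction h2 using AddSubgroup.closure_induction with
    | mem y hy =>
      obtain ⟨M, x, -, hM, hx, rfl⟩ := hy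
      have h3 : T (Nm (K := K) ⊥ M (Finsupp.single x 1)) =
          Nm (K := K) ⊥ M (T (Finsupp.single x 1)) := by
        refine hom_nm T bot_le (fun γ _ a => ?_) _
        rw [hTa, hTa, smul_sub, CV.smul_def, CV.smul_def, ← Finsupp.mapDomain_comp,
          ← Finsupp.mapDomain_comp]
        congr 2
        funext P
        exact hs1 γ P
      rw [h3, hTa, Finsupp.mapDomain_single]
      refine AddSubgroup.subset_closure ⟨M, hM, s x, x, fun γ hγ => ?_, hx, hs2 x, rfl⟩
      rw [← hs1, hx γ hγ]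
    | zero =>
      rw [map_zero]
      exact zero_mem _
    | add a b _ _ ha hb =>
      rw [map_add]
      exact add_mem ha hb
    | neg a _ ha =>
      rw [map_neg]
      exact neg_mem ha
  have h2 := key z (GM.cyc_iff.1 hz)
  rwa [hTa, h00, sub_zero] at h2

end GX
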