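import Pool.Agent.Lib.MP_f80667_ag.Ep.A

/-! The filtration by the levels inside the branches: elementary properties. -/

open ZC BE PE CV IntermediateField Polynomial

namespace GX

variable {F : Type} [Field F] {K Ω : Type} [Field K] [CharZero K] [Field Ω] [Algebra K Ω]
  [Algebra F K] [Algebra F Ω] [IsScalarTower F K Ω] [IsAlgClosure K Ω] {L : Ld K Ω} {V : Vr F}
  [Hf V] {σ B : Type} {P : B → (σ → Ω) → V.pt Ω} {π : Ω} {M M' : IntermediateField K Ω}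

omit [Algebra F Ω] [Algebra F K] [IsScalarTower F K Ω] [CharZero K] [IsAlgClosure K Ω] in
private theorem epB_map (L : Ld K Ω) (n : ℕ) (φ : Ω ≃ₐ[K] Ω) {x : Ω} (hx : x ∈ L.Ur ⊥ n) :
    φ x ∈ L.Ur ⊥ n := by
  have h1 : (L.Ur ⊥ n).map (φ : Ω →ₐ[K] Ω) ≤ L.Ur ⊥ n := by
    unfold Ld.Ur
    rw [IntermediateField.map_sup, IntermediateField.adjoin_map, IntermediateField.map_bot]
    refine sup_le_sup le_rfl (IntermediateField.adjoin.mono K _ _ ?_)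
    rintro _ ⟨x, hx, rfl⟩
    exact Ld.te_act φ hx
  exact h1 ⟨x, hx, rfl⟩

omit [Algebra F Ω] [Algebra F K] [IsScalarTower F K Ω] [CharZero K] [IsAlgClosure K Ω] in
private theorem epB_fix (L : Ld K Ω) (n : ℕ) (φ : Ω ≃ₐ[K] Ω) {γ : Ω ≃ₐ[K] Ω}
    (hγ : γ ∈ (L.Ur ⊥ n).fixingSubgroup) : φ⁻¹ * γ * φ ∈ (L.Ur ⊥ n).fixingSubgroup := by
  rw [IntermediateField.mem_fixingSubgroup_iff] at hγ ⊢
  intro x hx
  rw [AlgEquiv.mul_apply, AlgEquiv.mul_apply, hγ _ (epB_map L n φ hx), ← AlgEquiv.mul_apply,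
    inv_mul_cancel, AlgEquiv.one_apply]

omit [Algebra F Ω] [Algebra F K] [IsScalarTower F K Ω] in
private theorem epB_nm {A : Type} [AddCommGroup A] [DistribMulAction (Ω ≃ₐ[K] Ω) A]
    {N : IntermediateField K Ω} [FiniteDimensional K N] (φ : Ω ≃ₐ[K] Ω)
    (h1 : ∀ γ ∈ N.fixingSubgroup, φ⁻¹ * γ * φ ∈ N.fixingSubgroup)
    (h2 : ∀ γ ∈ N.fixingSubgroup, φ * γ * φ⁻¹ ∈ N.fixingSubgroup) {P : A} (hP : Fx N P) :
    Nm (⊥ : IntermediateField K Ω) N (φ • P) = Nm (⊥ : IntermediateField K Ω) N P := by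
  obtain ⟨s, -, -, h₂, h₃⟩ := nm_rep (M := (⊥ : IntermediateField K Ω)) (N := N) bot_le
  rw [h₃ A (φ • P), nm_eq bot_le (s.map (Equiv.mulRight φ).toEmbedding) ?_ ?_ hP, Finset.sum_map]
  · exact Finset.sum_congr rfl fun γ _ => (mul_smul γ φ P).symm
  · intro γ _
    rw [IntermediateField.fixingSubgroup_bot]
    exact Subgroup.mem_top γ
  · intro γ _
    obtain ⟨δ, ⟨hδ, hδ'⟩, hu⟩ := h₂ (γ * φ⁻¹) (by
      rw [IntermediateField.fixingSubgroup_bot]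
      exact Subgroup.mem_top _)
    refine ⟨δ * φ, ⟨?_, ?_⟩, ?_⟩
    · rw [Finset.mem_map]
      exact ⟨δ, hδ, rfl⟩
    · have h5 := h1 _ hδ'
      have e : φ⁻¹ * (δ⁻¹ * (γ * φ⁻¹)) * φ = (δ * φ)⁻¹ * γ := by group
      rwa [e] at h5
    · rintro _ ⟨hm, hm'⟩
      obtain ⟨δ', hδ1, rfl⟩ := Finset.mem_map.1 hm
      have h5 := h2 _ hm'
      have e : φ * (((Equiv.mulRight φ).toEmbedding δ')⁻¹ * γ) * φ⁻¹ = δ'⁻¹ * (γ * φ⁻¹) := by
        simp only [Equiv.coe_toEmbedding, Equiv.coe_mulRight]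
        group
      rw [e] at h5
      have h6 := hu δ' ⟨hδ1, h5⟩
      rw [h6]
      rfl

omit [CharZero K] [IsAlgClosure K Ω] in
theorem vb_rat (n : ℕ) : V.ratEq K Ω ≤ Vb L P π n := le_sup_right

omit [CharZero K] [IsAlgClosure K Ω] in
theorem vb_anti (hπ : Uf L π) : Antitone (Vb L P π) := by
  intro n m hnm
  refine sup_le_sup_right (AddSubgroup.closure_mono ?_) _
  rintro z ⟨N, M', y, y', h1, h2, h3, h4, h5, h6, h7⟩
  exact ⟨N, M', y, y', h1, h2, h3, h4, h5, nb_mono (hπ.pow_le hnm) h6, h7⟩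

/-- Proof: `dsp_fx`, and the invariance is inherited by the trace (`GM.nm_dsp`). -/
theorem dv_mem (hB : Bs L P) (hM : Um L M) {b : B} {h h' : σ → Ω} (hh : Iv L M h)
    (hh' : Iv L M h') {n : ℕ} (hn : ∀ i, L.nm (h' i - h i) ≤ L.nm π ^ n) :
    dvb P M b h h' ∈ Vb L P π n := by
  have hfd : FiniteDimensional K M := hM.fd
  exact AddSubgroup.mem_sup_left (GM.nm_dsp hM (hB.pt_dsp hh hh' hn))

/-- Proof: `GM.nm_sup`. -/
theorem vb_sup (hM : Um L M) {n : ℕ} {z : V.pt Ω →₀ ℤ}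
    (hz : z ∈ Dsp L V (nb L P (L.nm π ^ n)) M ⊔ V.ratEq M Ω) (hf : Fx M z) :
    Nm (K := K) ⊥ M z ∈ Vb L P π n := by
  have hfd : FiniteDimensional K M := hM.fd
  exact GM.nm_sup hM hz hf

theorem dv_self (b : B) (h : σ → Ω) : dvb P M b h h = 0 := by
  unfold dvb Nm
  rw [sub_self]
  simp only [smul_zero, finsum_zero]

theorem dv_add [FiniteDimensional K M] (b : B) (h h' h'' : σ → Ω) :
    dvb P M b h h' + dvb P M b h' h'' = dvb P M b h h'' := by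
  unfold dvb
  rw [← nm_add bot_le, add_comm, sub_add_sub_cancel]

/-- The generators. Proof: `dsp_gen`, `Bs.rat`. -/
theorem vb_ind (hB : Bs L P) {n : ℕ} (hπ0 : 0 ≤ L.nm π) {H : AddSubgroup (V.pt Ω →₀ ℤ)}
    (hR : V.ratEq K Ω ≤ H)
    (h : ∀ (M : IntermediateField K Ω) (b : B) (h h' : σ → Ω), Um L M → Iv L M h → Iv L M h' →
      (∀ i, L.nm (h' i - h i) ≤ L.nm π ^ n) → dvb P M b h h' ∈ H) : Vb L P π n ≤ H := by
  refine sup_le ?_ hR
  rw [dsp_gen, AddSubgroup.closure_le]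
  rintro z ⟨M', y, y', he, h4, h5, h6, rfl⟩
  have hfd : FiniteDimensional K M' := he.fd
  obtain ⟨b, x, x', hx, hx', rfl, rfl, hd⟩ := hB.rat M' _ y y' (pow_nonneg hπ0 n) h6 h4 h5
  exact h M' b x' x he.2 hx' hx hd

/-- The displacement does not change if the parameters are replaced by conjugates. Proof: `Bs.act`, the trace of `γ z` is the trace of `z` (`nm_act` or as in the proof of `cyv_act`, `Lv/Tca.lean`). -/
theorem dv_act (hB : Bs L P) {N : ℕ} (hN : N ≠ 0) {b : B} {h h' : σ → Ω}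
    (hh : Iv L (L.Ur ⊥ N) h) (hh' : Iv L (L.Ur ⊥ N) h') (γ : Ω ≃ₐ[K] Ω) :
    Iv L (L.Ur ⊥ N) (fun i => γ (h i)) ∧ Iv L (L.Ur ⊥ N) (fun i => γ (h' i)) ∧
      dvb P (L.Ur ⊥ N) b (fun i => γ (h i)) (fun i => γ (h' i)) = dvb P (L.Ur ⊥ N) b h h' := by
  have hfU : FiniteDimensional K (L.Ur ⊥ N) := Ld.ur_fin ⊥ N hN
  have hIv : ∀ v : σ → Ω, Iv L (L.Ur ⊥ N) v → Iv L (L.Ur ⊥ N) fun i => γ (v i) := by
    intro v hv i
    refine ⟨epB_map L N γ (hv i).1, ?_⟩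
    rw [L.act]
    exact (hv i).2
  refine ⟨hIv h hh, hIv h' hh', ?_⟩
  have e : (Finsupp.single (P b fun i => γ (h' i)) 1 - Finsupp.single (P b fun i => γ (h i)) 1 :
      V.pt Ω →₀ ℤ) = γ • (Finsupp.single (P b h') 1 - Finsupp.single (P b h) 1 : V.pt Ω →₀ ℤ) := by
    rw [smul_sub, smul_single, smul_single, hB.act γ b h fun i => (hh i).2,
      hB.act γ b h' fun i => (hh' i).2]
  unfold dvb
  rw [e]
  refine epB_nm γ (fun δ hδ => epB_fix L N γ hδ) (fun δ hδ => ?_)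
    ((fx_single (hB.fp hh') 1).sub (fx_single (hB.fp hh) 1))
  have h4 := epB_fix L N γ⁻¹ hδ
  rwa [inv_inv] at h4

end GX
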