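import Pool.Agent.Lib.MP_f80667_ag.Ep.B
import Pool.Agent.Lib.MP_f80667_ag.Lv.Je
import Pool.Agent.Lib.MP_f80667_ag.Lv.Tr

/-! Relations between the displacements inside a branch: (ADD). -/

open ZC BE PE CV IntermediateField Polynomial

namespace GX

variable {F : Type} [Field F] {K Ω : Type} [Field K] [CharZero K] [Field Ω] [Algebra K Ω]
  [Algebra F K] [Algebra F Ω] [IsScalarTower F K Ω] [IsAlgClosure K Ω] {L : Ld K Ω} {V : Vr F}
  [Hf V] {σ B : Type} {P : B → (σ → Ω) → V.pt Ω} {π : Ω} {M M' M₀ : IntermediateField K Ω}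

/-- Two pairs of points on a line with one midpoint. -/
private theorem dvf_line (hB : Bs L P) (hπ : Uf L π) (hM : Um L M) {b : B} {m y : σ → Ω}
    (hm : Iv L M m) (hy : Iv L M y) {a : Ω} (ha : a ∈ M) {s : ℕ} (hs : s ≠ 0)
    (ha1 : L.nm a < 1) (has : L.nm a * L.nm a ≤ L.nm π ^ s) :
    (Finsupp.single (P b (m + a • y)) 1 + Finsupp.single (P b (m + (-a) • y)) 1 -
      (Finsupp.single (P b m) 1 + Finsupp.single (P b m) 1) : V.pt Ω →₀ ℤ) ∈
      Dsp L V (nb L P (L.nm π ^ s)) M ⊔ V.ratEq M Ω := by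
  have hz : (0 : Ω) ∈ M ∧ L.nm (0 : Ω) < 1 := ⟨zero_mem M, by rw [L.zero]; exact zero_lt_one⟩
  have h := hB.ln hπ hM hm hy (n := 2) (α := ![a, -a]) (α' := ![0, 0]) hs
    (fun i => by
      fin_cases i
      · exact ⟨ha, ha1⟩
      · exact ⟨neg_mem ha, by
          show L.nm (-a) < 1
          rw [L.neg]
          exact ha1⟩)
    (fun i => by
      fin_cases i
      · exact hz
      · exact hz)
    (two_coeff L (by rw [add_neg_cancel, add_zero]) (by
      rw [mul_zero, sub_zero, L.mul, L.neg]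
      exact has)) b
  rw [Fin.sum_univ_two, Fin.sum_univ_two] at h
  simp only [Matrix.cons_val_zero, Matrix.cons_val_one, zero_smul, add_zero] at h
  exact h

/-- **ADD.** `v` is the valuation of `2`. Proof: `Bs.ln` with the midpoint `m = h + (x + x') / 2`: on the line through `m` in the direction `(x' - x) / π ^ n` the points `± π ^ n / 2` are `h + x`, `h + x'`;
in the direction `(x + x') / π ^ n` they are `h`, `h + x + x'`; `(X - a) (X + a)` and `X ^ 2` are congruent modulo `a ^ 2` (`two_coeff`). Then `vb_sup`. -/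
theorem dv_four (hB : Bs L P) (hπ : Uf L π) (hM : Um L M) {b : B} {h x x' : σ → Ω}
    (hh : Iv L M h) (hx : Iv L M x) (hx' : Iv L M x') {v n : ℕ}
    (hv : L.nm (2 : Ω) = L.nm π ^ v) (hn : v < n) (h1 : ∀ i, L.nm (x i) ≤ L.nm π ^ n)
    (h1' : ∀ i, L.nm (x' i) ≤ L.nm π ^ n) :
    dvb P M b h (h + x + x') - dvb P M b h (h + x) - dvb P M b h (h + x') ∈
      Vb L P π (2 * (n - v)) := by
  have hfd : FiniteDimensional K M := hM.fd
  have hle1 : ∀ k, L.nm π ^ k ≤ 1 := fun k => pow_le_one₀ hπ.pos.le hπ.lt.le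
  have hv0 : 0 < L.nm π ^ v := pow_pos hπ.pos v
  have hn0 : 0 < L.nm π ^ n := pow_pos hπ.pos n
  have h20 : (2 : Ω) ≠ 0 := L.ne_zero (by rw [hv]; exact hv0)
  have h2M : (2 : Ω) ∈ M := by
    have h := IntermediateField.natCast_mem M 2
    rwa [Nat.cast_ofNat] at h
  have hc0 : π ^ n ≠ 0 := pow_ne_zero n hπ.ne
  have hcM : π ^ n ∈ M := pow_mem (hπ.mem M) n
  have hq : L.nm π ^ n / L.nm π ^ v = L.nm π ^ (n - v) := by
    rw [div_eq_iff hv0.ne', ← pow_add]
    congr 1
    omega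
  obtain ⟨a, ha⟩ : ∃ a : Ω, a = π ^ n / 2 := ⟨_, rfl⟩
  have haM : a ∈ M := by
    rw [ha]
    exact div_mem hcM h2M
  have han : L.nm a = L.nm π ^ (n - v) := by rw [ha, L.div, L.pow, hv, hq]
  have ha1 : L.nm a < 1 := by
    rw [han]
    exact hπ.pow_lt (by omega)
  have has : L.nm a * L.nm a ≤ L.nm π ^ (2 * (n - v)) := by
    rw [han, ← pow_add, two_mul]
  have hs : 2 * (n - v) ≠ 0 := by omega
  obtain ⟨m, hmd⟩ : ∃ m : σ → Ω, m = fun i => h i + (x i + x' i) / 2 := ⟨_, rfl⟩
  have hm : Iv L M m := by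
    intro i
    rw [hmd]
    refine ⟨add_mem (hh i).1 (div_mem (add_mem (hx i).1 (hx' i).1) h2M), ?_⟩
    refine (L.add _ _).trans (max_le (hh i).2 ?_)
    rw [L.div, hv]
    refine le_trans ?_ (hle1 (n - v))
    rw [← hq]
    exact div_le_div_of_nonneg_right ((L.add _ _).trans (max_le (h1 i) (h1' i))) hv0.le
  have hdir : ∀ {y : σ → Ω}, (∀ i, y i ∈ M) → (∀ i, L.nm (y i) ≤ L.nm π ^ n) →
      Iv L M fun i => y i / π ^ n := by
    intro y hy hy1 i
    refine ⟨div_mem (hy i) hcM, ?_⟩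
    rw [L.div, L.pow]
    exact div_le_one_of_le₀ (hy1 i) hn0.le
  have k1 := dvf_line hB hπ hM (b := b) hm (hdir (y := fun i => x' i - x i)
    (fun i => sub_mem (hx' i).1 (hx i).1)
    (fun i => (L.sub _ _).trans (max_le (h1' i) (h1 i)))) haM hs ha1 has
  have k2 := dvf_line hB hπ hM (b := b) hm (hdir (y := fun i => x i + x' i)
    (fun i => add_mem (hx i).1 (hx' i).1)
    (fun i => (L.add _ _).trans (max_le (h1 i) (h1' i)))) haM hs ha1 has
  have e1 : m + a • (fun i => (x' i - x i) / π ^ n) = h + x' := by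
    funext i
    simp only [hmd, ha, Pi.add_apply, Pi.smul_apply, smul_eq_mul]
    field_simp
    ring
  have e2 : m + (-a) • (fun i => (x' i - x i) / π ^ n) = h + x := by
    funext i
    simp only [hmd, ha, Pi.add_apply, Pi.smul_apply, smul_eq_mul]
    field_simp
    ring
  have e3 : m + a • (fun i => (x i + x' i) / π ^ n) = h + x + x' := by
    funext i
    simp only [hmd, ha, Pi.add_apply, Pi.smul_apply, smul_eq_mul]
    field_simp
    ring
  have e4 : m + (-a) • (fun i => (x i + x' i) / π ^ n) = h := by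
    funext i
    simp only [hmd, ha, Pi.add_apply, Pi.smul_apply, smul_eq_mul]
    field_simp
    ring
  rw [e1, e2] at k1
  rw [e3, e4] at k2
  have hadd : ∀ {y z : σ → Ω}, Iv L M y → Iv L M z → Iv L M (y + z) := fun hy hz i =>
    ⟨add_mem (hy i).1 (hz i).1, (L.add _ _).trans (max_le (hy i).2 (hz i).2)⟩
  have f0 := fx_single (hB.fp (b := b) hh) 1
  have f1 := fx_single (hB.fp (b := b) (hadd hh hx)) 1
  have f2 := fx_single (hB.fp (b := b) (hadd hh hx')) 1
  have f3 := fx_single (hB.fp (b := b) (hadd (hadd hh hx) hx')) 1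
  have key := vb_sup hM (sub_mem k2 k1)
    (((f3.add f0).sub ((fx_single (hB.fp (b := b) hm) 1).add
      (fx_single (hB.fp (b := b) hm) 1))).sub ((f2.add f1).sub
        ((fx_single (hB.fp (b := b) hm) 1).add (fx_single (hB.fp (b := b) hm) 1))))
  have e5 : dvb P M b h (h + x + x') - dvb P M b h (h + x) - dvb P M b h (h + x') =
      Nm (K := K) ⊥ M (Finsupp.single (P b (h + x + x')) 1 + Finsupp.single (P b h) 1 -
        (Finsupp.single (P b m) 1 + Finsupp.single (P b m) 1) -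
        (Finsupp.single (P b (h + x')) 1 + Finsupp.single (P b (h + x)) 1 -
          (Finsupp.single (P b m) 1 + Finsupp.single (P b m) 1)) : V.pt Ω →₀ ℤ) := by
    unfold dvb
    rw [← nm_sub' bot_le, ← nm_sub' bot_le]
    congr 1
    abel
  rw [e5]
  exact key

end GX
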