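import Pool.Agent.Lib.MP_f80667_ag.Ep.B
import Pool.Agent.Lib.MP_f80667_ag.Lv.Je

/-! Relations between the displacements inside a branch: (PAR). -/

open ZC BE PE CV IntermediateField Polynomial

namespace GX

variable {F : Type} [Field F] {K Ω : Type} [Field K] [CharZero K] [Field Ω] [Algebra K Ω]
  [Algebra F K] [Algebra F Ω] [IsScalarTower F K Ω] [IsAlgClosure K Ω] {L : Ld K Ω} {V : Vr F}
  [Hf V] {σ B : Type} {P : B → (σ → Ω) → V.pt Ω} {π : Ω} {M M' M₀ : IntermediateField K Ω}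

omit [Algebra F K] [Algebra F Ω] [IsScalarTower F K Ω] in
private theorem ca_nm_sub {A : Type} [AddCommGroup A] [DistribMulAction (Ω ≃ₐ[K] Ω) A]
    {N : IntermediateField K Ω} [FiniteDimensional K N] (x y : A) :
    Nm (⊥ : IntermediateField K Ω) N (x - y) =
      Nm (⊥ : IntermediateField K Ω) N x - Nm (⊥ : IntermediateField K Ω) N y := by
  have h := nm_add (bot_le : (⊥ : IntermediateField K Ω) ≤ N) (x - y) y
  rw [sub_add_cancel] at h
  rw [h, add_sub_cancel_right]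

/-- **PAR.** Proof: `Bs.ln` for `0, a + a'` and `a, a'` (`two_coeff`). -/
theorem dv_par (hB : Bs L P) (hπ : Uf L π) (hM : Um L M) {b : B} {h y : σ → Ω}
    (hh : Iv L M h) (hy : Iv L M y) {a a' : Ω} (ha : a ∈ M) (ha' : a' ∈ M) {s t : ℕ}
    (hs : s ≠ 0) (ht : t ≠ 0) (h1 : L.nm a ≤ L.nm π ^ s) (h1' : L.nm a' ≤ L.nm π ^ t) :
    dvb P M b (h + a • y) (h + (a + a') • y) - dvb P M b h (h + a' • y) ∈ Vb L P π (s + t) := by
  have hfd : FiniteDimensional K M := hM.fd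
  have hπ1 : ∀ {n : ℕ}, n ≠ 0 → L.nm π ^ n < 1 := fun hn => pow_lt_one₀ (L.nonneg _) hπ.lt hn
  have hA : a ∈ M ∧ L.nm a < 1 := ⟨ha, h1.trans_lt (hπ1 hs)⟩
  have hA' : a' ∈ M ∧ L.nm a' < 1 := ⟨ha', h1'.trans_lt (hπ1 ht)⟩
  have hAA : a + a' ∈ M ∧ L.nm (a + a') < 1 :=
    ⟨add_mem ha ha', (L.add _ _).trans_lt (max_lt hA.2 hA'.2)⟩
  have h0 : (0 : Ω) ∈ M ∧ L.nm (0 : Ω) < 1 := ⟨zero_mem M, by rw [L.zero]; exact zero_lt_one⟩
  have hIv : ∀ {x : Ω}, x ∈ M ∧ L.nm x < 1 → Iv L M (h + x • y) := by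
    intro x hx i
    refine ⟨add_mem (hh i).1 (mul_mem hx.1 (hy i).1), (L.add _ _).trans (max_le (hh i).2 ?_)⟩
    rw [Pi.smul_apply, smul_eq_mul, L.mul]
    exact mul_le_one₀ hx.2.le (L.nonneg _) (hy i).2
  have hst : L.nm (0 * (a + a') - a * a') ≤ L.nm π ^ (s + t) := by
    rw [zero_mul, zero_sub, L.neg, L.mul, pow_add]
    exact mul_le_mul h1 h1' (L.nonneg _) (pow_nonneg (L.nonneg _) _)
  have h2 : ∀ i, (![0, a + a'] : Fin 2 → Ω) i ∈ M ∧ L.nm ((![0, a + a'] : Fin 2 → Ω) i) < 1 := by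
    intro i
    fin_cases i
    · exact h0
    · exact hAA
  have h3 : ∀ i, (![a, a'] : Fin 2 → Ω) i ∈ M ∧ L.nm ((![a, a'] : Fin 2 → Ω) i) < 1 := by
    intro i
    fin_cases i
    · exact hA
    · exact hA'
  have hk := hB.ln hπ hM hh hy (n := 2) (α := ![0, a + a']) (α' := ![a, a']) (s := s + t)
    (by omega) h2 h3 (two_coeff L (zero_add (a + a')) hst) b
  rw [Fin.sum_univ_two, Fin.sum_univ_two] at hk
  simp only [Matrix.cons_val_zero, Matrix.cons_val_one] at hk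
  rw [zero_smul, add_zero] at hk
  have hf : ∀ {x : Ω}, x ∈ M ∧ L.nm x < 1 →
      Fx M (Finsupp.single (P b (h + x • y)) 1 : V.pt Ω →₀ ℤ) := fun hx =>
    fx_single (hB.fp (hIv hx)) 1
  have hf0 : Fx M (Finsupp.single (P b h) 1 : V.pt Ω →₀ ℤ) := fx_single (hB.fp hh) 1
  have e1 : ((Finsupp.single (P b (h + (a + a') • y)) 1 - Finsupp.single (P b (h + a • y)) 1) -
      (Finsupp.single (P b (h + a' • y)) 1 - Finsupp.single (P b h) 1) : V.pt Ω →₀ ℤ) =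
      Finsupp.single (P b h) 1 + Finsupp.single (P b (h + (a + a') • y)) 1 -
        (Finsupp.single (P b (h + a • y)) 1 + Finsupp.single (P b (h + a' • y)) 1) := by
    abel
  unfold dvb
  rw [← ca_nm_sub]
  refine vb_sup hM ?_ (((hf hAA).sub (hf hA)).sub ((hf hA').sub hf0))
  rw [e1]
  exact hk

end GX
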