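import Pool.Agent.Lib.MP_f80667_ag.Ep.B
import Pool.Agent.Lib.MP_f80667_ag.Lv.Je

/-! Relations between the displacements inside a branch: (MUL). -/

open ZC BE PE CV IntermediateField Polynomial

namespace GX

variable {F : Type} [Field F] {K Ω : Type} [Field K] [CharZero K] [Field Ω] [Algebra K Ω]
  [Algebra F K] [Algebra F Ω] [IsScalarTower F K Ω] [IsAlgClosure K Ω] {L : Ld K Ω} {V : Vr F}
  [Hf V] {σ B : Type} {P : B → (σ → Ω) → V.pt Ω} {π : Ω} {M M' M₀ : IntermediateField K Ω}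

private theorem cb_nsub [FiniteDimensional K M] (z z' : V.pt Ω →₀ ℤ) :
    Nm (K := K) ⊥ M (z - z') = Nm (K := K) ⊥ M z - Nm (K := K) ⊥ M z' :=
  (GM.nmh V M).map_sub z z'

private theorem cb_div (hπ : Uf L π) {n : ℕ} {x : σ → Ω} (hx : Iv L M x)
    (h1 : ∀ r, L.nm (x r) ≤ L.nm π ^ n) :
    Iv L M (fun r => (π ^ n)⁻¹ * x r) ∧ ∀ r, π ^ n * ((π ^ n)⁻¹ * x r) = x r := by
  have h0 : π ^ n ≠ 0 := pow_ne_zero n hπ.ne
  have h2 : 0 < L.nm π ^ n := pow_pos hπ.pos n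
  refine ⟨fun r => ⟨mul_mem (inv_mem (pow_mem (hπ.mem M) n)) (hx r).1, ?_⟩, fun r => ?_⟩
  · rw [L.mul, L.inv, L.pow, inv_mul_le_iff₀ h2, mul_one]
    exact h1 r
  · rw [← mul_assoc, mul_inv_cancel₀ h0, one_mul]

/-- **MUL.** Proof: `Bs.ln` for `(X - a) ^ p` and `X ^ (p - 1) (X - p a)`, `a = π ^ n` (`pow_coeff`), on the line in the direction `x / π ^ n`. -/
theorem dv_mul (hB : Bs L P) (hπ : Uf L π) (hM : Um L M) {b : B} {h x : σ → Ω}
    (hh : Iv L M h) (hx : Iv L M x) {e n : ℕ} (he : L.nm (L.p : Ω) = L.nm π ^ e) (hn : n ≠ 0)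
    (h1 : ∀ i, L.nm (x i) ≤ L.nm π ^ n) :
    L.p • dvb P M b h (h + x) - dvb P M b h (h + (L.p : Ω) • x) ∈
      Vb L P π (min (e + 2 * n) (L.p * n)) := by
  have hfd : FiniteDimensional K M := hM.fd
  have ht := hπ.pow_lt hn
  have hpp := L.pp.two_le
  have hs : min (e + 2 * n) (L.p * n) ≠ 0 := by
    have h3 : 0 < L.p * n := Nat.mul_pos (by omega) (by omega)
    omega
  obtain ⟨u1, u2⟩ := cb_div hπ hx h1
  have hpM : (L.p : Ω) ∈ M := IntermediateField.natCast_mem M L.p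
  have hα : π ^ n ∈ M ∧ L.nm (π ^ n) < 1 := by
    refine ⟨pow_mem (hπ.mem M) n, ?_⟩
    rw [L.pow]
    exact ht
  have hz : (0 : Ω) ∈ M ∧ L.nm (0 : Ω) < 1 := ⟨zero_mem M, by rw [L.zero]; exact zero_lt_one⟩
  have hpα : (L.p : Ω) * π ^ n ∈ M ∧ L.nm ((L.p : Ω) * π ^ n) < 1 := by
    refine ⟨mul_mem hpM hα.1, ?_⟩
    rw [L.mul]
    exact mul_lt_one_of_nonneg_of_lt_one_left (L.nonneg _) L.lt hα.2.le
  obtain ⟨m, hm⟩ : ∃ m, L.p = m + 1 := ⟨L.p - 1, by omega⟩
  have k := hB.ln hπ hM hh u1 (n := m + 1) (α := fun _ => π ^ n)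
    (α' := Fin.cons ((L.p : Ω) * π ^ n) fun _ => 0) hs (fun _ => hα)
    (fun i => by
      refine Fin.cases ?_ (fun i => ?_) i
      · exact hpα
      · exact hz)
    (fun k => by
      have e1 : (∏ _i : Fin (m + 1), (X - C (π ^ n)) : Polynomial Ω) =
          (X - C (π ^ n)) ^ L.p := by
        rw [Finset.prod_const, Finset.card_univ, Fintype.card_fin, hm]
      have e2 : (∏ i : Fin (m + 1), (X - C (Fin.cons (α := fun _ => Ω) ((L.p : Ω) * π ^ n)
          (fun _ => 0) i)) : Polynomial Ω) = (X - C ((L.p : Ω) * π ^ n)) * X ^ (L.p - 1) := by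
        rw [Fin.prod_univ_succ, Fin.cons_zero]
        simp only [Fin.cons_succ, C_0, sub_zero]
        rw [Finset.prod_const, Finset.card_univ, Fintype.card_fin, hm, Nat.add_sub_cancel]
      rw [e1, e2]
      refine pow_coeff L L.pp hα.2.le ?_ ?_ k
      · rw [he, L.pow, ← pow_mul, ← pow_add, mul_comm n 2]
        exact hπ.pow_le (min_le_left _ _)
      · rw [L.pow, ← pow_mul, mul_comm n L.p]
        exact hπ.pow_le (min_le_right _ _)) b
  rw [Finset.sum_const, Finset.card_univ, Fintype.card_fin, Fin.sum_univ_succ, Fin.cons_zero] at k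
  simp only [Fin.cons_succ] at k
  rw [Finset.sum_const, Finset.card_univ, Fintype.card_fin] at k
  have e3 : (h + π ^ n • fun r => (π ^ n)⁻¹ * x r) = h + x := by
    funext r
    rw [Pi.add_apply, Pi.add_apply, Pi.smul_apply, smul_eq_mul, u2 r]
  have e4 : (h + ((L.p : Ω) * π ^ n) • fun r => (π ^ n)⁻¹ * x r) = h + (L.p : Ω) • x := by
    funext r
    rw [Pi.add_apply, Pi.add_apply, Pi.smul_apply, Pi.smul_apply, smul_eq_mul, smul_eq_mul,
      mul_assoc, u2 r]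
  have e5 : (h + (0 : Ω) • fun r => (π ^ n)⁻¹ * x r) = h := by
    rw [zero_smul, add_zero]
  rw [e3, e4, e5] at k
  have i1 : Iv L M (h + x) := fun r =>
    ⟨add_mem (hh r).1 (hx r).1, (L.add _ _).trans (max_le (hh r).2 (hx r).2)⟩
  have i2 : Iv L M (h + (L.p : Ω) • x) := fun r => by
    rw [Pi.add_apply, Pi.smul_apply, smul_eq_mul]
    refine ⟨add_mem (hh r).1 (mul_mem hpM (hx r).1), (L.add _ _).trans (max_le (hh r).2 ?_)⟩
    rw [L.mul]
    exact mul_le_one₀ (L.nat_le L.p) (L.nonneg _) (hx r).2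
  have e6 : ((m + 1) • Finsupp.single (P b (h + x)) 1 -
      (Finsupp.single (P b (h + (L.p : Ω) • x)) 1 + m • Finsupp.single (P b h) 1) :
        V.pt Ω →₀ ℤ) =
      L.p • (Finsupp.single (P b (h + x)) 1 - Finsupp.single (P b h) 1) -
        (Finsupp.single (P b (h + (L.p : Ω) • x)) 1 - Finsupp.single (P b h) 1) := by
    rw [hm, smul_sub, succ_nsmul (Finsupp.single (P b h) (1 : ℤ)) m]
    abel
  rw [e6] at k
  have hf : Fx M (L.p • (Finsupp.single (P b (h + x)) 1 - Finsupp.single (P b h) 1) -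
      (Finsupp.single (P b (h + (L.p : Ω) • x)) 1 - Finsupp.single (P b h) 1) :
        V.pt Ω →₀ ℤ) :=
    (((fx_single (hB.fp i1) 1).sub (fx_single (hB.fp hh) 1)).nsmul _).sub
      ((fx_single (hB.fp i2) 1).sub (fx_single (hB.fp hh) 1))
  have hk := vb_sup hM k hf
  rw [cb_nsub, nm_nsmul bot_le] at hk
  exact hk

end GX
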