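import Pool.Agent.Lib.MP_f80667_ag.Ep.B
import Pool.Agent.Lib.MP_f80667_ag.Lv.Tr
import Pool.Agent.Lib.MP_f80667_ag.Gy.TN

/-! Relations between the displacements inside a branch: (TR). -/

open ZC BE PE CV IntermediateField Polynomial

namespace GX

variable {F : Type} [Field F] {K Ω : Type} [Field K] [CharZero K] [Field Ω] [Algebra K Ω]
  [Algebra F K] [Algebra F Ω] [IsScalarTower F K Ω] [IsAlgClosure K Ω] {L : Ld K Ω} {V : Vr F}
  [Hf V] {σ B : Type} {P : B → (σ → Ω) → V.pt Ω} {π : Ω} {M M' M₀ : IntermediateField K Ω}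

/-- **TR.** Proof: as `cyv_norm` (`Lv/Tc.lean`). -/
theorem dv_norm (hB : Bs L P) (hπ : Uf L π) (hM : Um L M) (hM' : Um L M') (hle : M ≤ M')
    {b : B} {h y : σ → Ω} (hh : Iv L M h) (hy : Iv L M y) {a : Ω} (ha : a ∈ M') {n : ℕ}
    (hn : n ≠ 0) (h1 : L.nm a ≤ L.nm π ^ n) :
    dvb P M' b h (h + a • y) - dvb P M b h (h + Nm M M' a • y) ∈ Vb L P π (2 * n) := by
  have hfd : FiniteDimensional K M := hM.fd
  have hfd' : FiniteDimensional K M' := hM'.fd
  have hs1 : L.nm π ^ n < 1 := hπ.pow_lt hn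
  have hNaM : Nm M M' a ∈ M := fx_mem.1 (nm_fx hle (fx_mem.2 ha))
  have hNa : L.nm (Nm M M' a) ≤ L.nm π ^ n := by
    obtain ⟨s', -, -, -, h₃⟩ := nm_rep hle
    rw [h₃ Ω a]
    refine L.sum_le _ _ (pow_nonneg (L.nonneg _) _) fun γ _ => ?_
    change L.nm (γ a) ≤ _
    rw [L.act]
    exact h1
  have hiv : ∀ {M₁ : IntermediateField K Ω}, M ≤ M₁ → ∀ {z : Ω}, z ∈ M₁ → L.nm z ≤ 1 →
      Iv L M₁ (h + z • y) := by
    intro M₁ hM₁ z hz hz1 i
    rw [Pi.add_apply, Pi.smul_apply, smul_eq_mul]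
    refine ⟨add_mem (hM₁ (hh i).1) (mul_mem hz (hM₁ (hy i).1)),
      (L.add _ _).trans (max_le (hh i).2 ?_)⟩
    rw [L.mul]
    exact mul_le_one₀ hz1 (L.nonneg _) (hy i).2
  -- the arc
  obtain ⟨β, hβ⟩ : ∃ β : σ → Polynomial Ω, β = fun i => C (y i) * X + C (h i) := ⟨_, rfl⟩
  have hev : ∀ z, (fun i => (β i).eval z) = h + z • y := fun z => by
    funext i
    rw [hβ]
    simp only [eval_add, eval_mul, eval_C, eval_X, Pi.add_apply, Pi.smul_apply, smul_eq_mul]
    ring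
  have hArc : Arc L M β := by
    intro i j
    rw [hβ]
    simp only [coeff_add, coeff_C_mul, coeff_X, coeff_C]
    rcases j with _ | _ | j
    · simp only [if_neg (show ¬ (1 = 0) by omega), if_true, mul_zero, zero_add]
      exact hh i
    · simp only [zero_add, if_true, if_neg (show ¬ (1 = 0) by omega), mul_one, add_zero]
      exact hy i
    · rw [if_neg (by omega), if_neg (by omega), mul_zero, add_zero]
      exact ⟨zero_mem M, by rw [L.zero]; exact zero_le_one⟩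
  obtain ⟨Q, hQ⟩ : ∃ Q : Ω → V.pt Ω, Q = fun c => P b fun i => (β i).eval c := ⟨_, rfl⟩
  have hQe : ∀ c, Q c = P b (h + c • y) := fun c => by
    rw [hQ]
    show P b (fun i => (β i).eval c) = _
    rw [hev]
  have hQa : ∀ γ ∈ M.fixingSubgroup, ∀ c, L.nm c < 1 → V.act γ (Q c) = Q (γ c) := by
    intro γ hγ c hc
    have hfix := (IntermediateField.mem_fixingSubgroup_iff M γ).1 hγ
    rw [hQe, hQe, hB.act γ b (h + c • y) fun i =>
      (L.add _ _).trans (max_le (hh i).2 (by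
        rw [Pi.smul_apply, smul_eq_mul, L.mul]
        exact mul_le_one₀ hc.le (L.nonneg _) (hy i).2))]
    congr 1
    funext i
    rw [Pi.add_apply, Pi.smul_apply, smul_eq_mul, Pi.add_apply, Pi.smul_apply, smul_eq_mul,
      map_add, map_mul, hfix _ (hh i).1, hfix _ (hy i).1]
  obtain ⟨q, q', hq, hq', hqd, hqq, hr⟩ := exists_cj (L := L) hle ha h1 hs1
  obtain ⟨hr1, hr2⟩ := hr Q hQa
  obtain ⟨z, hz, hz'⟩ := hB.la M π (hπ.mem M) hπ.pos hπ.lt (hπ.um_val hM) β hArc b q q' hq hq'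
    hqd 1 0 (2 * n) (Or.inl ⟨rfl, rfl, by omega⟩) (fun i => by
      refine (hqq i).trans_eq ?_
      rw [add_zero, ← pow_mul, mul_comm])
  rw [← hQ, one_smul, hr1, hr2] at hz'
  have e0 : Q 0 = P b h := by rw [hQe, zero_smul, add_zero]
  rw [e0, hQe, hQe] at hz'
  have hla : Nm M M' (Finsupp.single (P b (h + a • y)) 1 - Finsupp.single (P b h) 1 :
      V.pt Ω →₀ ℤ) - (Finsupp.single (P b (h + Nm M M' a • y)) 1 - Finsupp.single (P b h) 1) ∈
      Dsp L V (nb L P (L.nm π ^ (2 * n))) M ⊔ V.ratEq M Ω := by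
    have e1 : Nm M M' (Finsupp.single (P b (h + a • y)) 1 - Finsupp.single (P b h) 1 :
        V.pt Ω →₀ ℤ) - (Finsupp.single (P b (h + Nm M M' a • y)) 1 -
          Finsupp.single (P b h) 1) =
        z + (Nm M M' (Finsupp.single (P b (h + a • y)) 1) -
          (Nm M M' (Finsupp.single (P b h) 1) +
            (Finsupp.single (P b (h + Nm M M' a • y)) 1 - Finsupp.single (P b h) 1)) - z) := by
      rw [nm_sub' hle]
      abel
    rw [e1]
    exact AddSubgroup.add_mem_sup hz hz'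
  have f0 : Fx M (Finsupp.single (P b h) 1 : V.pt Ω →₀ ℤ) := fx_single (hB.fp hh) 1
  have f1 : Fx M' (Finsupp.single (P b (h + a • y)) 1 - Finsupp.single (P b h) 1 :
      V.pt Ω →₀ ℤ) :=
    (fx_single (hB.fp (hiv hle ha (h1.trans hs1.le))) 1).sub (f0.mono hle)
  have f2 : Fx M (Finsupp.single (P b (h + Nm M M' a • y)) 1 - Finsupp.single (P b h) 1 :
      V.pt Ω →₀ ℤ) :=
    (fx_single (hB.fp (hiv le_rfl hNaM (hNa.trans hs1.le))) 1).sub f0
  have h2 := vb_sup hM hla ((nm_fx hle f1).sub f2)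
  rw [nm_sub' bot_le, ← nm_tr bot_le hle f1] at h2
  exact h2

end GX
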