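import Pool.Agent.Lib.MP_f80667_ag.Lv.D

/-!
Branches (EP).

* `nb L P t x y`: the points `x`, `y` are in one branch, their parameters are congruent modulo the numbers of norm `≤ t`.
* `Bs L P`: the branches `P b` (points with parameters in the integers of `Ω`) are equivariant and the moving lemma (LA) holds in every
  branch.
* `dvb P M b h h'`: the trace to `K` of `[P b h'] - [P b h]`.
* `Vb L P π n`: the traces of displacements of level `n` inside the branches over unramified extensions, modulo rational equivalence.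
-/

open ZC BE PE CV IntermediateField

namespace GX

variable {F : Type} [Field F] {K Ω : Type} [Field K] [Field Ω] [Algebra K Ω] [Algebra F K]
  [Algebra F Ω] [IsScalarTower F K Ω] (L : Ld K Ω) {V : Vr F} [Hf V] {σ B : Type}

/-- The points are in one branch, the parameters are congruent modulo the numbers of norm `≤ t`. -/
def nb (P : B → (σ → Ω) → V.pt Ω) (t : ℝ) (x y : V.pt Ω) : Prop :=
  ∃ (b : B) (h h' : σ → Ω), (∀ i, L.nm (h i) ≤ 1) ∧ (∀ i, L.nm (h' i) ≤ 1) ∧ x = P b h ∧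
    y = P b h' ∧ ∀ i, L.nm (h i - h' i) ≤ t

/-- Branches with the moving lemma. -/
structure Bs (P : B → (σ → Ω) → V.pt Ω) : Prop where
  act : ∀ (γ : Ω ≃ₐ[K] Ω) (b : B) (h : σ → Ω), (∀ i, L.nm (h i) ≤ 1) →
    V.act γ (P b h) = P b fun i => γ (h i)
  rat : ∀ (M : IntermediateField K Ω) [FiniteDimensional K M] (t : ℝ) (x y : V.pt Ω), 0 ≤ t →
    nb L P t x y → Fp V M x → Fp V M y → ∃ (b : B) (h h' : σ → Ω), Iv L M h ∧ Iv L M h' ∧
      x = P b h ∧ y = P b h' ∧ ∀ i, L.nm (h i - h' i) ≤ t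
  la : ∀ (M : IntermediateField K Ω) [FiniteDimensional K M] (π : Ω), π ∈ M → 0 < L.nm π →
    L.nm π < 1 → (∀ x ∈ M, x ≠ 0 → ∃ k : ℤ, L.nm x = L.nm π ^ k) →
      ∀ β : σ → Polynomial Ω, Arc L M β → ∀ (b : B) (q q' : Polynomial Ω), Dpo L M q →
        Dpo L M q' → q.natDegree = q'.natDegree → ∀ l u s : ℕ, ((l = 1 ∧ u = 0 ∧ s ≠ 0) ∨
          (l.Prime ∧ L.nm (l : Ω) = L.nm π ^ u ∧ u < (l - 1) * s)) →
            (∀ i, L.nm (q.coeff i - q'.coeff i) ≤ L.nm π ^ (s + u)) →
              ∃ z ∈ Dsp L V (nb L P (L.nm π ^ s)) M,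
                rcy (fun c => P b fun i => (β i).eval c) q -
                  rcy (fun c => P b fun i => (β i).eval c) q' - l • z ∈ V.ratEq M Ω

/-- The trace to `K` of `[P b h'] - [P b h]`. -/
noncomputable def dvb (P : B → (σ → Ω) → V.pt Ω) (M : IntermediateField K Ω) (b : B)
    (h h' : σ → Ω) : V.pt Ω →₀ ℤ :=
  Nm (⊥ : IntermediateField K Ω) M
    (Finsupp.single (P b h') 1 - Finsupp.single (P b h) 1 : V.pt Ω →₀ ℤ)

/-- The displacements of level `n` inside the branches, modulo rational equivalence. -/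
noncomputable def Vb (P : B → (σ → Ω) → V.pt Ω) (π : Ω) (n : ℕ) : AddSubgroup (V.pt Ω →₀ ℤ) :=
  Dsp L V (nb L P (L.nm π ^ n)) ⊥ ⊔ V.ratEq K Ω

end GX
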