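import Pool.Agent.Lib.MP_f80667_ag.Ep.B

/-! Divisibility of the displacements inside the branches (DIV). -/

open ZC BE PE CV IntermediateField Polynomial

namespace GX

variable {F : Type} [Field F] {K Ω : Type} [Field K] [CharZero K] [Field Ω] [Algebra K Ω]
  [Algebra F K] [Algebra F Ω] [IsScalarTower F K Ω] [IsAlgClosure K Ω] {L : Ld K Ω} {V : Vr F}
  [Hf V] {σ B : Type} {P : B → (σ → Ω) → V.pt Ω} {π : Ω} {M M' M₀ : IntermediateField K Ω}

/-- **DIV** over any finite extension `M` with the uniformizer `ϖ`: `[P h'] - [P h] = l z`. Proof: `Bs.la` for `X - ϖ ^ (s + u)` and `X` on the line through `h` and `h'` (as `Uf.d1_two`, `Lv/D1.lean`). -/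
theorem Bs.d_two (hB : Bs L P) [FiniteDimensional K M] {ϖ : Ω} (hϖ : ϖ ∈ M) (h0 : 0 < L.nm ϖ)
    (h1 : L.nm ϖ < 1) (hval : ∀ x ∈ M, x ≠ 0 → ∃ k : ℤ, L.nm x = L.nm ϖ ^ k) {b : B}
    {h h' : σ → Ω} (hh : Iv L M h) (hh' : Iv L M h') {l u s : ℕ} (hl : l.Prime)
    (hu : L.nm (l : Ω) = L.nm ϖ ^ u) (hus : u < (l - 1) * s)
    (hn : ∀ i, L.nm (h' i - h i) ≤ L.nm ϖ ^ (s + u)) :
    ∃ z ∈ Dsp L V (nb L P (L.nm ϖ ^ s)) M,
      (Finsupp.single (P b h') 1 - Finsupp.single (P b h) 1 : V.pt Ω →₀ ℤ) - l • z ∈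
        V.ratEq M Ω := by
  have h00 : L.nm (0 : Ω) < 1 := by rw [L.zero]; exact zero_lt_one
  have hs0 : s ≠ 0 := by
    rintro rfl
    omega
  obtain ⟨e, he⟩ : ∃ e : Ω, e = ϖ ^ (s + u) := ⟨_, rfl⟩
  have heM : e ∈ M := by
    rw [he]
    exact pow_mem hϖ _
  have hen : L.nm e = L.nm ϖ ^ (s + u) := by rw [he, L.pow]
  have hepos : 0 < L.nm e := by
    rw [hen]
    exact pow_pos h0 _
  have he0 : e ≠ 0 := L.ne_zero hepos
  have he1 : L.nm e < 1 := by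
    rw [hen]
    exact pow_lt_one₀ h0.le h1 (by omega)
  have hArc : Arc L M fun i => C ((h' i - h i) / e) * X + C (h i) := by
    intro i j
    have k1 : (h' i - h i) / e ∈ M ∧ L.nm ((h' i - h i) / e) ≤ 1 := by
      refine ⟨div_mem (sub_mem (hh' i).1 (hh i).1) heM, ?_⟩
      rw [L.div, div_le_one hepos, hen]
      exact hn i
    rw [coeff_add, coeff_C_mul, coeff_X, coeff_C]
    rcases j with _ | _ | j
    · simp only [if_neg (show ¬ (1 = 0) by omega), if_true, mul_zero, zero_add]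
      exact hh i
    · simp only [if_true, mul_one, zero_add, if_neg (show ¬ (1 = 0) by omega), add_zero]
      exact k1
    · simp only [if_neg (show ¬ (1 = j + 1 + 1) by omega), if_neg (show ¬ (j + 1 + 1 = 0) by omega),
        mul_zero, add_zero]
      exact ⟨zero_mem M, by rw [L.zero]; exact zero_le_one⟩
  obtain ⟨z, hz, hz'⟩ := hB.la M ϖ hϖ h0 h1 hval _ hArc b _ _ (lin_dpo heM he1)
    (lin_dpo (zero_mem M) h00) (by rw [natDegree_X_sub_C, natDegree_X_sub_C]) l u s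
    (Or.inr ⟨hl, hu, hus⟩)
    (fun i => by
      rw [coeff_sub, coeff_sub, coeff_C, coeff_C]
      by_cases hi : i = 0
      · rw [if_pos hi, if_pos hi, ← hen]
        have h5 : (X : Polynomial Ω).coeff i - e - ((X : Polynomial Ω).coeff i - 0) = -e := by ring
        rw [h5, L.neg]
      · rw [if_neg hi, if_neg hi, sub_self, L.zero]
        exact pow_nonneg h0.le _)
  rw [rcy_X_sub, rcy_X_sub] at hz'
  have e1 : (fun i => (C ((h' i - h i) / e) * X + C (h i) : Polynomial Ω).eval e) = h' :=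
    funext fun i => by
      rw [eval_add, eval_mul, eval_C, eval_X, eval_C, div_mul_cancel₀ _ he0, sub_add_cancel]
  have e2 : (fun i => (C ((h' i - h i) / e) * X + C (h i) : Polynomial Ω).eval 0) = h :=
    funext fun i => by
      rw [eval_add, eval_mul, eval_C, eval_X, eval_C, mul_zero, zero_add]
  rw [e1, e2] at hz'
  exact ⟨z, hz, hz'⟩

/-- The cycles which are `l` times a cycle of level `n` modulo rational equivalence. -/
private theorem mem_lV {l n : ℕ} {z : V.pt Ω →₀ ℤ} :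
    z ∈ (Vb L P π n).map (nsmulAddMonoidHom l) ⊔ V.ratEq K Ω ↔
      ∃ w ∈ Vb L P π n, z - l • w ∈ V.ratEq K Ω := by
  rw [AddSubgroup.mem_sup]
  constructor
  · rintro ⟨_, ⟨y, hy, rfl⟩, r, hr, rfl⟩
    refine ⟨y, hy, ?_⟩
    change l • y + r - l • y ∈ _
    rwa [add_sub_cancel_left]
  · rintro ⟨z', hz', h⟩
    exact ⟨l • z', ⟨z', hz', rfl⟩, _, h, add_sub_cancel _ _⟩

/-- **DIV.** Proof: `vb_ind`-like induction, `Bs.d_two` over unramified `M`, `GM.nm_div` (as `Uf.x_d1`, `Lv/D1.lean`). -/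
theorem vb_div (hB : Bs L P) (hπ : Uf L π) {l u n : ℕ} (hl : l.Prime)
    (hu : L.nm (l : Ω) = L.nm π ^ u) (hn : u < (l - 1) * n) {z : V.pt Ω →₀ ℤ}
    (hz : z ∈ Vb L P π (n + u)) : ∃ w ∈ Vb L P π n, z - l • w ∈ V.ratEq K Ω := by
  rw [← mem_lV]
  refine vb_ind hB hπ.pos.le (H := (Vb L P π n).map (nsmulAddMonoidHom l) ⊔ V.ratEq K Ω)
    le_sup_right (fun M b h h' hM hh hh' hd => ?_) hz
  have hfd : FiniteDimensional K M := hM.fd
  obtain ⟨z₁, hz₁, h7⟩ := hB.d_two (hπ.mem M) hπ.pos hπ.lt (hπ.um_val hM) (b := b) hh hh' hl hu hn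
    hd
  obtain ⟨z₂, hz₂, h9⟩ := GM.nm_div (V := V) hM (l := l)
    (z := (Finsupp.single (P b h') 1 - Finsupp.single (P b h) 1 : V.pt Ω →₀ ℤ)) ⟨z₁, hz₁, h7⟩
    ((fx_single (hB.fp hh') 1).sub (fx_single (hB.fp hh) 1))
  exact mem_lV.2 ⟨z₂, AddSubgroup.mem_sup_left hz₂, h9⟩

/-- `V n = l V n` for `l ≠ p`. Proof: `vb_div` with `u = 0` (`L.nat_unit`), as `vl_div_l`. -/
theorem vb_div_l (hB : Bs L P) (hπ : Uf L π) {l n : ℕ} (hl : l.Prime) (hlp : l ≠ L.p)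
    (hn : n ≠ 0) {z : V.pt Ω →₀ ℤ} (hz : z ∈ Vb L P π n) :
    ∃ w ∈ Vb L P π n, z - l • w ∈ V.ratEq K Ω := by
  have h1 : ¬ L.p ∣ l := fun h => hlp ((Nat.prime_dvd_prime_iff_eq L.pp hl).1 h).symm
  exact vb_div hB hπ hl (u := 0) (n := n) (by rw [pow_zero]; exact L.nat_unit h1)
    (Nat.mul_pos (Nat.sub_pos_of_lt hl.one_lt) (Nat.pos_of_ne_zero hn)) hz

end GX
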