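import Pool.Agent.Lib.MP_f80667_ag.Ep.Cb
import Pool.Agent.Lib.MP_f80667_ag.Lv.Vn

/-! Multiplication by `p` of the displacements inside the branches. -/

open ZC BE PE CV IntermediateField Polynomial

namespace GX

variable {F : Type} [Field F] {K Ω : Type} [Field K] [CharZero K] [Field Ω] [Algebra K Ω]
  [Algebra F K] [Algebra F Ω] [IsScalarTower F K Ω] [IsAlgClosure K Ω] {L : Ld K Ω} {V : Vr F}
  [Hf V] {σ B : Type} {P : B → (σ → Ω) → V.pt Ω} {π : Ω} {M M' M₀ : IntermediateField K Ω}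

/-- `p V n ≤ V t` for `t ≤ n + e`, `t ≤ p n`. Proof: `vb_ind`, `dv_mul`, `dv_mem`. -/
theorem vb_mul (hB : Bs L P) (hπ : Uf L π) {e : ℕ} (he : L.nm (L.p : Ω) = L.nm π ^ e) {n t : ℕ}
    (hn : n ≠ 0) (h1 : t ≤ n + e) (h2 : t ≤ L.p * n) {z : V.pt Ω →₀ ℤ}
    (hz : z ∈ Vb L P π n) : L.p • z ∈ Vb L P π t := by
  have hπ0 : 0 ≤ L.nm π := hπ.pos.le
  have hπ1 : L.nm π ≤ 1 := hπ.lt.le
  have key : Vb L P π n ≤ (Vb L P π t).comap (nsmulAddMonoidHom L.p) := by
    refine vb_ind hB hπ0 (fun w hw => ?_) (fun M b h h' hM hh hh' hn' => ?_)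
    · show L.p • w ∈ Vb L P π t
      exact vb_rat t (nsmul_mem hw _)
    · show L.p • dvb P M b h h' ∈ Vb L P π t
      have hx : Iv L M (h' - h) := fun i =>
        ⟨sub_mem (hh' i).1 (hh i).1, (L.sub _ _).trans (max_le (hh' i).2 (hh i).2)⟩
      have e1 : h + (h' - h) = h' := by abel
      have h3 := dv_mul (b := b) hB hπ hM hh hx he hn hn'
      rw [e1] at h3
      have hpx : ∀ i, L.nm ((L.p : Ω) * (h' i - h i)) ≤ L.nm π ^ t := by
        intro i
        rw [L.mul, he]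
        calc L.nm π ^ e * L.nm (h' i - h i) ≤ L.nm π ^ e * L.nm π ^ n :=
              mul_le_mul_of_nonneg_left (hn' i) (pow_nonneg hπ0 e)
          _ = L.nm π ^ (n + e) := by rw [← pow_add, add_comm]
          _ ≤ L.nm π ^ t := pow_le_pow_of_le_one hπ0 hπ1 h1
      have h4 : dvb P M b h (h + (L.p : Ω) • (h' - h)) ∈ Vb L P π t := by
        refine dv_mem hB hM hh (fun i => ⟨?_, ?_⟩) (fun i => ?_)
        · exact add_mem (hh i).1 (mul_mem (_root_.natCast_mem M L.p) (hx i).1)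
        · refine (L.add _ _).trans (max_le (hh i).2 ?_)
          exact (hpx i).trans (pow_le_one₀ hπ0 hπ1)
        · have e2 : (h + (L.p : Ω) • (h' - h)) i - h i = (L.p : Ω) * (h' i - h i) := by
            rw [Pi.add_apply, Pi.smul_apply, Pi.sub_apply, smul_eq_mul, add_sub_cancel_left]
          rw [e2]
          exact hpx i
      have h6 : t ≤ min (e + 2 * n) (L.p * n) := le_min (by omega) h2
      have h5 := add_mem (vb_anti hπ h6 h3) h4
      rwa [sub_add_cancel] at h5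
  exact key hz

/-- `p V n ≤ V (n + 1)`. Proof: as `vl_mul_one`. -/
theorem vb_mul_one (hB : Bs L P) (hπ : Uf L π) {n : ℕ} (hn : n ≠ 0) {z : V.pt Ω →₀ ℤ}
    (hz : z ∈ Vb L P π n) : L.p • z ∈ Vb L P π (n + 1) := by
  obtain ⟨e, he0, he⟩ := exists_e hπ
  have h2 := L.pp.two_le
  refine vb_mul hB hπ he hn (by omega) ?_ hz
  calc n + 1 ≤ n + n := by omega
    _ = 2 * n := (two_mul n).symm
    _ ≤ L.p * n := Nat.mul_le_mul_right n h2

end GX
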