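import Pool.Agent.Lib.MP_f80667_ag.Ep.B
import Pool.Agent.Lib.MP_f80667_ag.Lv.Rm

/-! Points of the branches over totally ramified extensions. -/

open ZC BE PE CV IntermediateField Polynomial

namespace GX

variable {F : Type} [Field F] {K Ω : Type} [Field K] [CharZero K] [Field Ω] [Algebra K Ω]
  [Algebra F K] [Algebra F Ω] [IsScalarTower F K Ω] [IsAlgClosure K Ω] {L : Ld K Ω} {V : Vr F}
  [Hf V] {σ B : Type} {P : B → (σ → Ω) → V.pt Ω} {π : Ω} {M M' M₀ : IntermediateField K Ω}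

omit [CharZero K] [IsAlgClosure K Ω] in
private theorem epf_lt {r : Polynomial Ω} (h : Ipo L M r) {w : Ω} (hw : L.nm w < 1) :
    L.nm (r.eval w) < 1 := by
  have h0 : L.nm (0 : Ω) ≤ 1 := by
    rw [L.zero]
    exact zero_le_one
  have h1 := L.eval_close h.le hw.le h0
  rw [sub_zero, ← coeff_zero_eq_eval_zero] at h1
  have h2 : r.eval w = (r.eval w - r.coeff 0) + r.coeff 0 := by ring
  rw [h2]
  exact (L.add _ _).trans_lt (max_lt (h1.trans_lt hw) h.lt)

omit [CharZero K] [IsAlgClosure K Ω] in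
private theorem epf_act {r : Polynomial Ω} (h : Ipo L M r) {γ : Ω ≃ₐ[K] Ω}
    (hγ : γ ∈ M.fixingSubgroup) (w : Ω) : γ (r.eval w) = r.eval (γ w) := by
  rw [eval_eq_sum_range, eval_eq_sum_range, map_sum]
  refine Finset.sum_congr rfl fun i _ => ?_
  rw [map_mul, map_pow, (IntermediateField.mem_fixingSubgroup_iff M γ).1 hγ _ (h.mem i)]

omit [CharZero K] [IsAlgClosure K Ω] in
private theorem epf_mem {r : Polynomial Ω} (h : Ipo L M r) {w : Ω} (hw : w ∈ M) :
    r.eval w ∈ M := by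
  rw [eval_eq_sum_range]
  exact sum_mem fun i _ => mul_mem (h.mem i) (pow_mem hw i)

/-- **RAM** over a totally ramified extension. Proof: as `Uf.ram_good` (`Lv/Rm.lean`), shorter: the arc `h₀ + q (z)` with `q (z) = h - h₀`, `z` the uniformizer, `e` its minimal polynomial, `Bs.la` for `e` and `X ^ deg e` with `l = 1`, `s = 1`,
and `β (0)` is congruent to `h₀` modulo `π`. -/
theorem Bs.ram (hB : Bs L P) (hπ : Uf L π) [FiniteDimensional K M] (hle : M₀ ≤ M)
    (h₀ : Um L M₀) (hr : ∀ b ∈ M, L.nm b ≤ 1 → ∃ a ∈ M₀, L.nm (b - a) < 1) {b : B}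
    {h h' : σ → Ω} (hh : Iv L M h) (hh' : Iv L M₀ h') (hn : ∀ i, L.nm (h i - h' i) < 1) :
    Nm M₀ M (Finsupp.single (P b h) 1 - Finsupp.single (P b h') 1 : V.pt Ω →₀ ℤ) ∈
      Dsp L V (nb L P (L.nm π ^ 1)) M₀ ⊔ V.ratEq M₀ Ω := by
  classical
  have hM₀ : FiniteDimensional K M₀ := fin_le hle
  have hp0 : 0 < L.nm π := hπ.pos
  have h00 : L.nm (0 : Ω) < 1 := by rw [L.zero]; exact zero_lt_one
  obtain ⟨z, hz, hz1, e, he, hes, her, hez, hpol⟩ := eis (L := L) hle hr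
  -- the arc
  have hrx : ∀ i, ∃ q, Ipo L M₀ q ∧ q.eval z = h i - h' i := fun i =>
    hpol _ (sub_mem (hh i).1 (hle (hh' i).1)) (hn i)
  choose q hq1 hq2 using hrx
  obtain ⟨β, hβ⟩ : ∃ β : σ → Polynomial Ω, β = fun i => C (h' i) + q i := ⟨_, rfl⟩
  have hev : ∀ i c, (β i).eval c = h' i + (q i).eval c := fun i c => by
    rw [hβ]
    simp only [eval_add, eval_C]
  have harc : Arc L M₀ β := by
    intro i j
    rw [hβ]
    simp only [coeff_add, coeff_C]
    split_ifs with hj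
    · refine ⟨add_mem (hh' i).1 ((hq1 i).mem j), ?_⟩
      exact (L.add _ _).trans (max_le (hh' i).2 ((hq1 i).le j))
    · rw [zero_add]
      exact ⟨(hq1 i).mem j, (hq1 i).le j⟩
  have hle1 : ∀ i c, L.nm c < 1 → L.nm ((β i).eval c) ≤ 1 := fun i c hc => by
    rw [hev]
    exact (L.add _ _).trans (max_le (hh' i).2 (epf_lt (hq1 i) hc).le)
  obtain ⟨Q, hQ⟩ : ∃ Q : Ω → V.pt Ω, Q = fun c => P b fun i => (β i).eval c := ⟨_, rfl⟩
  have hQa : ∀ γ ∈ M₀.fixingSubgroup, ∀ c, L.nm c < 1 → V.act γ (Q c) = Q (γ c) := by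
    intro γ hγ c hc
    rw [hQ]
    change V.act γ (P b fun i => (β i).eval c) = P b fun i => (β i).eval (γ c)
    rw [hB.act γ b _ fun i => hle1 i c hc]
    congr 1
    funext i
    rw [hev, hev, map_add, epf_act (hq1 i) hγ,
      (IntermediateField.mem_fixingSubgroup_iff M₀ γ).1 hγ _ (hh' i).1]
  have hQz : Q z = P b h := by
    rw [hQ]
    change P b (fun i => (β i).eval z) = P b h
    congr 1
    funext i
    rw [hev, hq2, add_sub_cancel]
  have hF : Nm M₀ M (Finsupp.single (P b h) 1 : V.pt Ω →₀ ℤ) = rcy Q e := by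
    rw [← hQz]
    exact nm_rcy hle hes her hez Q fun γ hγ => hQa γ hγ z hz1
  have hP₀M : Fp V M₀ (P b h') := hB.fp hh'
  have hF0 : Nm M₀ M (Finsupp.single (P b h') 1 : V.pt Ω →₀ ℤ) =
      rcy (fun _ => P b h') e :=
    nm_rcy hle hes her hez (fun _ => P b h') fun γ hγ => hP₀M γ hγ
  have hac : IsAlgClosed Ω := IsAlgClosure.isAlgClosed K
  have hcard : Multiset.card e.roots = e.natDegree :=
    (IsAlgClosed.splits e).natDegree_eq_card_roots.symm
  have hF1 : rcy (fun _ => P b h') e = (Finsupp.single (P b h') (e.natDegree : ℤ) :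
      V.pt Ω →₀ ℤ) := by
    rw [rcy, Multiset.map_const', Multiset.sum_replicate, hcard, Finsupp.smul_single,
      nsmul_eq_mul, mul_one]
  -- the comparison
  have hg : Dpo L M₀ (X ^ e.natDegree : Polynomial Ω) := by
    refine ⟨monic_X_pow _, fun i => ?_, fun i hi => ?_⟩
    · rw [coeff_X_pow]
      split_ifs
      · exact one_mem _
      · exact zero_mem _
    · rw [natDegree_X_pow] at hi
      rw [coeff_X_pow, if_neg hi.ne, L.zero]
      exact zero_lt_one
  have hfg : ∀ i, L.nm (e.coeff i - (X ^ e.natDegree : Polynomial Ω).coeff i) ≤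
      L.nm π ^ (1 + 0) := by
    intro i
    rw [add_zero, coeff_X_pow]
    rcases lt_trichotomy i e.natDegree with hi | hi | hi
    · rw [if_neg hi.ne, sub_zero, pow_one]
      exact hπ.um_lt h₀ (he.mem i) (he.lt i hi)
    · rw [if_pos hi, hi, he.monic.coeff_natDegree, sub_self, L.zero]
      exact pow_nonneg hp0.le _
    · rw [if_neg hi.ne', coeff_eq_zero_of_natDegree_lt hi, sub_self, L.zero]
      exact pow_nonneg hp0.le _
  obtain ⟨D, hd, hd1⟩ := hB.la M₀ π (hπ.mem M₀) hp0 hπ.lt (hπ.um_val h₀) β harc b e _ he hg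
    (natDegree_X_pow _).symm 1 0 1 (Or.inl ⟨rfl, rfl, one_ne_zero⟩) hfg
  rw [← hQ, one_smul, rcy_X_pow] at hd1
  -- the point above `0`
  have hQ0 : Q 0 = P b fun i => (β i).eval 0 := by rw [hQ]
  have hiv0 : Iv L M₀ fun i => (β i).eval 0 := fun i => by
    refine ⟨?_, hle1 i 0 h00⟩
    change (β i).eval 0 ∈ M₀
    rw [hev]
    exact add_mem (hh' i).1 (epf_mem (hq1 i) (zero_mem M₀))
  have hDp : (Finsupp.single (Q 0) 1 - Finsupp.single (P b h') 1 : V.pt Ω →₀ ℤ) ∈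
      Dsp L V (nb L P (L.nm π ^ 1)) M₀ := by
    rw [hQ0]
    refine hB.pt_dsp hh' hiv0 fun i => ?_
    change L.nm ((β i).eval 0 - h' i) ≤ L.nm π ^ 1
    rw [hev, add_sub_cancel_left, pow_one]
    exact hπ.um_lt h₀ (epf_mem (hq1 i) (zero_mem M₀)) (epf_lt (hq1 i) h00)
  -- the sum
  have hsub : Nm M₀ M (Finsupp.single (P b h) 1 - Finsupp.single (P b h') 1 : V.pt Ω →₀ ℤ) =
      Nm M₀ M (Finsupp.single (P b h) 1 : V.pt Ω →₀ ℤ) -
        Nm M₀ M (Finsupp.single (P b h') 1 : V.pt Ω →₀ ℤ) := by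
    have h1 := nm_add hle (Finsupp.single (P b h) 1 - Finsupp.single (P b h') 1 : V.pt Ω →₀ ℤ)
      (Finsupp.single (P b h') 1)
    rw [sub_add_cancel] at h1
    rw [h1, add_sub_cancel_right]
  have hfin : Nm M₀ M (Finsupp.single (P b h) 1 - Finsupp.single (P b h') 1 : V.pt Ω →₀ ℤ) =
      (D + e.natDegree • (Finsupp.single (Q 0) 1 - Finsupp.single (P b h') 1 : V.pt Ω →₀ ℤ)) +
        (rcy Q e - Finsupp.single (Q 0) (e.natDegree : ℤ) - D) := by
    rw [hsub, hF, hF0, hF1, smul_sub, Finsupp.smul_single, Finsupp.smul_single,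
      nsmul_eq_mul, mul_one]
    abel
  rw [hfin]
  refine add_mem (AddSubgroup.mem_sup_left (add_mem ?_ (nsmul_mem hDp _)))
    (AddSubgroup.mem_sup_right hd1)
  exact hd

end GX
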