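import Pool.Agent.Lib.MP_f80667_ag.Ep.F

/-! Points of the branches over ramified extensions. -/

open ZC BE PE CV IntermediateField Polynomial

namespace GX

variable {F : Type} [Field F] {K Ω : Type} [Field K] [CharZero K] [Field Ω] [Algebra K Ω]
  [Algebra F K] [Algebra F Ω] [IsScalarTower F K Ω] [IsAlgClosure K Ω] {L : Ld K Ω} {V : Vr F}
  [Hf V] {σ B : Type} {P : B → (σ → Ω) → V.pt Ω} {π : Ω} {M M' M₀ : IntermediateField K Ω}

/-- **RAM.** Proof: the maximal unramified subextension `M₀` (as `Uf.ram_near`, `Lv/Rm.lean`), `Bs.ram` for `h'`, `h₀` and `h`, `h₀`, `h₀` over `M₀` congruent to `h` and `h'`; `nm_tr`, `vb_sup`. -/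
theorem dv_ram (hB : Bs L P) (hπ : Uf L π) [FiniteDimensional K M] {b : B} {h h' : σ → Ω}
    (hh : Iv L M h) (hh' : Iv L M h') (hn : ∀ i, L.nm (h' i - h i) < 1) :
    dvb P M b h h' ∈ Vb L P π 1 := by
  obtain ⟨k, hk0, hk⟩ := exists_ur (L := L) M
  have hle : L.Ur ⊥ k ≤ M := hk.le
  have hum : Um L (L.Ur ⊥ k) := ⟨k, hk.ne, le_rfl⟩
  have hres : ∀ b ∈ M, L.nm b ≤ 1 → ∃ a ∈ L.Ur ⊥ k, L.nm (b - a) < 1 := by
    intro b hb hb1
    obtain ⟨τ, hτ, h2⟩ := hk.res b hb hb1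
    exact ⟨τ, Ld.te_ur hτ, h2⟩
  have hex : ∀ i, ∃ a ∈ L.Ur ⊥ k, L.nm (h i - a) < 1 := fun i => hres _ (hh i).1 (hh i).2
  choose h₀ hm₀ hn₀ using hex
  have hh₀ : Iv L (L.Ur ⊥ k) h₀ := by
    intro i
    refine ⟨hm₀ i, ?_⟩
    have e : h₀ i = h i - (h i - h₀ i) := by ring
    rw [e, L.sub_comm]
    have h2 := L.add (h i - h₀ i) (-(h i))
    rw [← sub_eq_add_neg] at h2
    refine h2.trans (max_le (hn₀ i).le ?_)
    rw [L.neg]
    exact (hh i).2
  have key : ∀ g : σ → Ω, Iv L M g → (∀ i, L.nm (g i - h₀ i) < 1) →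
      dvb P M b h₀ g ∈ Vb L P π 1 := by
    intro g hg hgn
    have h3 := hB.ram hπ hle hum hres (b := b) hg hh₀ hgn
    have hfx : Fx M (Finsupp.single (P b g) 1 - Finsupp.single (P b h₀) 1 : V.pt Ω →₀ ℤ) :=
      (fx_single (hB.fp hg) 1).sub ((fx_single (hB.fp hh₀) 1).mono hle)
    unfold dvb
    rw [nm_tr bot_le hle hfx]
    exact vb_sup hum h3 (nm_fx hle hfx)
  have e : dvb P M b h h' = dvb P M b h₀ h' - dvb P M b h₀ h := by
    have h1 := dv_add (K := K) (M := M) (P := P) b h₀ h h'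
    rw [← h1]
    abel
  rw [e]
  refine sub_mem (key h' hh' fun i => ?_) (key h hh hn₀)
  have e2 : h' i - h₀ i = (h' i - h i) + (h i - h₀ i) := by ring
  rw [e2]
  exact (L.add _ _).trans_lt (max_lt (hn i) (hn₀ i))

end GX
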