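import Pool.Agent.Lib.MP_f80667_ag.Ep.E
import Pool.Agent.Lib.MP_f80667_ag.Cv.Sml
import Pool.Agent.Lib.MP_f80667_ag.Cv.MdL

/-! Displacements of level `≥ 2` in powers of `p` over any extension. -/

open ZC BE PE CV IntermediateField Polynomial

namespace GX

variable {F : Type} [Field F] {K Ω : Type} [Field K] [CharZero K] [Field Ω] [Algebra K Ω]
  [Algebra F K] [Algebra F Ω] [IsScalarTower F K Ω] [IsAlgClosure K Ω] {L : Ld K Ω} {V : Vr F}
  [Hf V] {σ B : Type} {P : B → (σ → Ω) → V.pt Ω} {π : Ω} {M M' M₀ : IntermediateField K Ω}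

/-- The relative trace of a cycle rationally equivalent to `0`. -/
private theorem fb_rat {M M' : IntermediateField K Ω} (h : M ≤ M') [FiniteDimensional K M']
    {z : V.pt Ω →₀ ℤ} (hz : z ∈ V.ratEq M' Ω) (hf : Fx M' z) :
    Nm M M' z ∈ V.ratEq M Ω := by
  classical
  have iA : IsAlgClosure M Ω := algClM M
  have iC : CharZero M := charM M
  let E : IntermediateField M Ω := IntermediateField.extendScalars h
  have i0 : FiniteDimensional K E := inferInstanceAs (FiniteDimensional K M')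
  have i1 : FiniteDimensional M E := FiniteDimensional.right K M E
  have h1 : z ∈ V.ratEq E Ω := hz
  have h2 : Fx E z := by
    intro γ hγ
    have h3 : γ.restrictScalars K ∈ M'.fixingSubgroup := by
      rw [IntermediateField.mem_fixingSubgroup_iff]
      intro x hx
      exact (IntermediateField.mem_fixingSubgroup_iff E γ).1 hγ x hx
    exact hf _ h3
  have h4 := nm_ratEq (K := M) (M := E) h1 h2
  obtain ⟨s, -, -, s2, s3⟩ := nm_rep (K := M) (Ω := Ω) (M := ⊥) (N := E) bot_le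
  rw [s3] at h4
  have hinj : Function.Injective fun γ : Ω ≃ₐ[M] Ω => γ.restrictScalars K := fun γ δ hγ =>
    AlgEquiv.ext fun x => DFunLike.congr_fun hγ x
  have h5 := nm_eq h (s.map ⟨_, hinj⟩) (P := z) (fun γ hγ => ?_) (fun γ hγ => ?_) hf
  · rw [h5, Finset.sum_map]
    exact h4
  · obtain ⟨δ, -, rfl⟩ := Finset.mem_map.1 hγ
    rw [IntermediateField.mem_fixingSubgroup_iff]
    exact fun x hx => δ.commutes ⟨x, hx⟩
  · obtain ⟨δ₀, hδ₀⟩ : ∃ δ₀ : Ω ≃ₐ[M] Ω, δ₀.restrictScalars K = γ :=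
      ⟨IntermediateField.fixingSubgroupEquiv M ⟨γ, hγ⟩, AlgEquiv.ext fun x => rfl⟩
    have hiff : ∀ δ : Ω ≃ₐ[M] Ω, (δ.restrictScalars K)⁻¹ * γ ∈ M'.fixingSubgroup ↔
        δ⁻¹ * δ₀ ∈ E.fixingSubgroup := by
      intro δ
      rw [← hδ₀, IntermediateField.mem_fixingSubgroup_iff, IntermediateField.mem_fixingSubgroup_iff]
      exact Iff.rfl
    obtain ⟨δ, ⟨hδ, hδ'⟩, huniq⟩ := s2 δ₀ (by
      rw [IntermediateField.fixingSubgroup_bot]
      exact Subgroup.mem_top _)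
    refine ⟨δ.restrictScalars K, ⟨Finset.mem_map.2 ⟨δ, hδ, rfl⟩, (hiff δ).2 hδ'⟩, ?_⟩
    rintro y ⟨hy, hy'⟩
    obtain ⟨δ', hδ'', rfl⟩ := Finset.mem_map.1 hy
    exact congrArg (fun γ : Ω ≃ₐ[M] Ω => γ.restrictScalars K) (huniq δ' ⟨hδ'', (hiff δ').1 hy'⟩)

/-- The relative trace of a displacement. -/
private theorem fb_dsp {nr : V.pt Ω → V.pt Ω → Prop} [FiniteDimensional K M] (hM : Em L M M')
    {z : V.pt Ω →₀ ℤ} (hz : z ∈ Dsp L V nr M') : Nm M M' z ∈ Dsp L V nr M := by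
  have hfd : FiniteDimensional K M' := hM.fd
  rw [dsp_gen] at hz
  obtain ⟨s, -, -, -, s3⟩ := nm_rep hM.1
  induction hz using AddSubgroup.closure_induction with
  | mem z hz =>
    obtain ⟨M₁, y, y', he, h4, h5, h6, rfl⟩ := hz
    have hfd₁ : FiniteDimensional K M₁ := he.fd
    have hfx : Fx M₁ (Finsupp.single y 1 - Finsupp.single y' 1 : V.pt Ω →₀ ℤ) :=
      (fx_single h4 1).sub (fx_single h5 1)
    rw [← nm_tr hM.1 he.1 hfx, dsp_gen]
    exact AddSubgroup.subset_closure ⟨M₁, y, y', hM.trans he, h4, h5, h6, rfl⟩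
  | zero =>
    rw [s3, Finset.sum_eq_zero fun γ _ => smul_zero γ]
    exact zero_mem _
  | add a b _ _ ha hb =>
    rw [nm_add hM.1]
    exact add_mem ha hb
  | neg a _ ha =>
    rw [s3, Finset.sum_congr rfl fun γ _ => smul_neg γ a, Finset.sum_neg_distrib, ← s3]
    exact neg_mem ha

private theorem fb_nm (h : M ≤ M') [FiniteDimensional K M'] (a b : V.pt Ω →₀ ℤ) (l : ℕ) :
    Nm M M' (a - l • b) = Nm M M' a - l • Nm M M' b := by
  obtain ⟨s, -, -, -, s3⟩ := nm_rep h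
  rw [s3, s3, s3, Finset.smul_sum, ← Finset.sum_sub_distrib]
  exact Finset.sum_congr rfl fun γ _ => by rw [smul_sub, smul_comm γ l b]

/-- One step. -/
private theorem fb_step (hB : Bs L P) [FiniteDimensional K M] {ϖ : Ω} (hϖ : ϖ ∈ M)
    (h0 : 0 < L.nm ϖ) (h1 : L.nm ϖ < 1)
    (hval : ∀ x ∈ M, x ≠ 0 → ∃ k : ℤ, L.nm x = L.nm ϖ ^ k) {u : ℕ}
    (hu : L.nm (L.p : Ω) = L.nm ϖ ^ u) (hu0 : u ≠ 0) {s : ℕ} (hs : 2 ≤ s)
    {z : V.pt Ω →₀ ℤ} (hz : z ∈ Dsp L V (nb L P (L.nm (L.p : Ω) ^ (s + 1))) M) :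
    ∃ w ∈ Dsp L V (nb L P (L.nm (L.p : Ω) ^ s)) M, z - L.p • w ∈ V.ratEq M Ω := by
  rw [dsp_gen] at hz
  induction hz using AddSubgroup.closure_induction with
  | mem z hz =>
    obtain ⟨M', y, y', he, h4, h5, h6, rfl⟩ := hz
    have hfd : FiniteDimensional K M' := he.fd
    obtain ⟨b, h, h', k1, k2, rfl, rfl, k3⟩ := hB.rat M' _ y y' (pow_nonneg (L.nonneg _) _) h6
      h4 h5
    have e1 : L.nm ϖ ^ (s * u) = L.nm (L.p : Ω) ^ s := by
      rw [hu, ← pow_mul, Nat.mul_comm]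
    obtain ⟨z₁, hz₁, h7⟩ := hB.d_two (M := M') (he.1 hϖ) h0 h1 (fun x hx hx0 => by
      obtain ⟨y, hy, hyx⟩ := sml_val he hx
      obtain ⟨k, hk⟩ := hval y hy fun hy0 => by
        rw [hy0, L.zero] at hyx
        exact (L.pos hx0).ne hyx
      exact ⟨k, by rw [← hyx, hk]⟩) (b := b) k2 k1 L.pp hu (s := s * u) (by
        have h8 := L.pp.two_le
        have h9 : 1 ≤ L.p - 1 := by omega
        calc u < s * u := by nlinarith [Nat.pos_of_ne_zero hu0]
          _ = 1 * (s * u) := (one_mul _).symm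
          _ ≤ (L.p - 1) * (s * u) := Nat.mul_le_mul_right _ h9) (fun i => by
        rw [pow_add, e1, ← hu, ← pow_succ]
        exact k3 i)
    rw [e1] at hz₁
    refine ⟨Nm M M' z₁, fb_dsp he hz₁, ?_⟩
    rw [← fb_nm he.1]
    exact fb_rat he.1 h7 (((fx_single h4 1).sub (fx_single h5 1)).sub ((dsp_fx hz₁).nsmul _))
  | zero => exact ⟨0, zero_mem _, by rw [smul_zero, sub_zero]; exact zero_mem _⟩
  | add a b _ _ ha hb =>
    obtain ⟨w, hw, h2⟩ := ha
    obtain ⟨w', hw', h2'⟩ := hb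
    refine ⟨w + w', add_mem hw hw', ?_⟩
    have e : a + b - L.p • (w + w') = (a - L.p • w) + (b - L.p • w') := by
      rw [smul_add]
      abel
    rw [e]
    exact add_mem h2 h2'
  | neg a _ ha =>
    obtain ⟨w, hw, h2⟩ := ha
    refine ⟨-w, neg_mem hw, ?_⟩
    have e : -a - L.p • -w = -(a - L.p • w) := by
      rw [smul_neg]
      abel
    rw [e]
    exact neg_mem h2

/-- Displacements over any extension `M` of level `s` in powers of `p` (`s ≥ 2`) are `p ^ (s - 2)` times displacements of level `2`, modulo rational equivalence. Proof: `ϖ` a uniformizer of `M` (`L.unif`), `nm p = nm ϖ ^ u`; induction on `s`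
with `DIV` over `M` for `Dsp`: an element of `Dsp L V (nb L P (nm ϖ ^ (s u))) M` is `p` times one of level `(s - 1) u` for `s ≥ 3`, because `u < (p - 1) (s - 1) u`: generators `dsp_gen`, `Bs.rat`, `Bs.d_two` over `M'` unramified over `M` (same values), trace to `M` (as `Uf.x_d1`). -/
theorem Bs.all (hB : Bs L P) [FiniteDimensional K M] {b : B} {h h' : σ → Ω}
    (hh : Iv L M h) (hh' : Iv L M h') {s : ℕ} (hs : 2 ≤ s)
    (hn : ∀ i, L.nm (h' i - h i) ≤ L.nm (L.p : Ω) ^ s) :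
    ∃ z ∈ Dsp L V (nb L P (L.nm (L.p : Ω) ^ 2)) M,
      (Finsupp.single (P b h') 1 - Finsupp.single (P b h) 1 : V.pt Ω →₀ ℤ) - L.p ^ (s - 2) • z ∈
        V.ratEq M Ω := by
  have hfd : FiniteDimensional K M := inferInstance
  obtain ⟨ϖ, hϖ, h0, h1, hval⟩ := L.unif M hfd
  have hpM : (L.p : Ω) ∈ M := IntermediateField.natCast_mem M L.p
  have hp0 : (L.p : Ω) ≠ 0 := L.ne_zero L.p_pos
  obtain ⟨u, hu0, hu⟩ : ∃ u : ℕ, u ≠ 0 ∧ L.nm (L.p : Ω) = L.nm ϖ ^ u := by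
    obtain ⟨k, hk⟩ := hval _ hpM hp0
    have h2 := L.lt
    rw [hk] at h2
    have h3 : (0 : ℤ) < k := by
      by_contra h3
      exact absurd h2 (not_lt.2 (one_le_zpow_of_nonpos₀ h0 h1.le (not_lt.1 h3)))
    obtain ⟨u, rfl⟩ := Int.eq_ofNat_of_zero_le h3.le
    exact ⟨u, by omega, by rw [hk, zpow_natCast]⟩
  have key : ∀ k : ℕ, ∀ z ∈ Dsp L V (nb L P (L.nm (L.p : Ω) ^ (2 + k))) M,
      ∃ w ∈ Dsp L V (nb L P (L.nm (L.p : Ω) ^ 2)) M, z - L.p ^ k • w ∈ V.ratEq M Ω := by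
    intro k
    induction k with
    | zero =>
      intro z hz
      exact ⟨z, hz, by rw [pow_zero, one_smul, sub_self]; exact zero_mem _⟩
    | succ k ih =>
      intro z hz
      obtain ⟨w, hw, h2⟩ := fb_step hB hϖ h0 h1 hval hu hu0 (s := 2 + k) (by omega) hz
      obtain ⟨w', hw', h2'⟩ := ih w hw
      refine ⟨w', hw', ?_⟩
      have e : z - L.p ^ (k + 1) • w' = (z - L.p • w) + L.p • (w - L.p ^ k • w') := by
        rw [smul_sub, smul_smul, ← pow_succ']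
        abel
      rw [e]
      exact add_mem h2 (nsmul_mem h2' _)
  obtain ⟨k, rfl⟩ := Nat.exists_eq_add_of_le hs
  rw [Nat.add_sub_cancel_left]
  exact key k _ (hB.pt_dsp hh hh' hn)

end GX
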