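import Pool.Agent.Lib.MP_f80667_ag.Ep.Fa
import Pool.Agent.Lib.MP_f80667_ag.Ep.Fb
import Pool.Agent.Lib.MP_f80667_ag.Ep.Ea
import Pool.Agent.Lib.MP_f80667_ag.Lv.Tr

/-! Displacements of level `≥ 2` in powers of `p` over any extension. -/

open ZC BE PE CV IntermediateField Polynomial

namespace GX

variable {F : Type} [Field F] {K Ω : Type} [Field K] [CharZero K] [Field Ω] [Algebra K Ω]
  [Algebra F K] [Algebra F Ω] [IsScalarTower F K Ω] [IsAlgClosure K Ω] {L : Ld K Ω} {V : Vr F}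
  [Hf V] {σ B : Type} {P : B → (σ → Ω) → V.pt Ω} {π : Ω} {M M' M₀ : IntermediateField K Ω}

/-- **ALL.** Proof: `Bs.all`, `dsp_gen`, `Bs.rat`, `dv_ram`, `vb_mul_one`. -/
theorem dv_all (hB : Bs L P) (hπ : Uf L π) [FiniteDimensional K M] {b : B} {h h' : σ → Ω}
    (hh : Iv L M h) (hh' : Iv L M h') {s : ℕ} (hs : 2 ≤ s)
    (hn : ∀ i, L.nm (h' i - h i) ≤ L.nm (L.p : Ω) ^ s) : dvb P M b h h' ∈ Vb L P π (s - 1) := by
  obtain ⟨z, hz, h1⟩ := hB.all (b := b) hh hh' hs hn
  have h2 : Nm (K := K) ⊥ M z ∈ Vb L P π 1 := by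
    have hz' := hz
    rw [dsp_gen] at hz'
    clear h1 hz
    induction hz' using AddSubgroup.closure_induction with
    | mem z hz =>
      obtain ⟨M', y, y', he, h4, h5, h6, rfl⟩ := hz
      have hfd : FiniteDimensional K M' := he.fd
      obtain ⟨c, g, g', k1, k2, rfl, rfl, k3⟩ := hB.rat M' _ y y' (pow_nonneg (L.nonneg _) _) h6
        h4 h5
      have hfx : Fx M' (Finsupp.single (P c g) 1 - Finsupp.single (P c g') 1 : V.pt Ω →₀ ℤ) :=
        (fx_single h4 1).sub (fx_single h5 1)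
      rw [← nm_tr bot_le he.1 hfx]
      exact dv_ram hB hπ k2 k1 fun i =>
        (k3 i).trans_lt (pow_lt_one₀ (L.nonneg _) L.lt two_ne_zero)
    | zero =>
      rw [nm_zero' bot_le]
      exact zero_mem _
    | add x y _ _ hx hy =>
      rw [nm_add bot_le]
      exact add_mem hx hy
    | neg x _ hx =>
      rw [nm_neg' bot_le]
      exact neg_mem hx
  have h3 : ∀ k : ℕ, L.p ^ k • Nm (K := K) ⊥ M z ∈ Vb L P π (1 + k) := by
    intro k
    induction k with
    | zero =>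
      rw [pow_zero, one_smul]
      exact h2
    | succ k ih =>
      rw [pow_succ', mul_smul]
      exact vb_mul_one hB hπ (by omega : (1 + k) ≠ 0) ih
  have hfx : Fx M ((Finsupp.single (P b h') 1 - Finsupp.single (P b h) 1 : V.pt Ω →₀ ℤ) -
      L.p ^ (s - 2) • z) :=
    ((fx_single (hB.fp hh') 1).sub (fx_single (hB.fp hh) 1)).sub ((dsp_fx hz).nsmul _)
  have h4 := nm_ratEq h1 hfx
  rw [nm_sub' bot_le, nm_nsmul bot_le] at h4
  have h5 := h3 (s - 2)
  rw [show 1 + (s - 2) = s - 1 by omega] at h5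
  have h6 := add_mem (vb_rat (P := P) (π := π) (L := L) (s - 1) h4) h5
  rwa [sub_add_cancel] at h6

end GX
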