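import Pool.Agent.Lib.MP_f80667_ag.Sb.E

/-!
The group variety near the point `0`, no hypothesis on the reduction.

* `ep_tay`, `ep_tays`: Taylor's formula with a constant for polynomials on a bounded set.
* `Gcc L A C`: for `C t ≤ 1` the points of distance `≤ t` from `0` form a group, and the difference is the difference of the normalized coordinates up to `C t ^ 2`.
* `exists_gcc`: there is such a constant.
-/

open ZC BE PE CV IntermediateField MvPolynomial

namespace GX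

section tay

variable {F K Ω : Type} [Field F] [Field K] [Field Ω] [Algebra K Ω] [Algebra F Ω]

/-- Taylor's formula on a bounded set: the estimates. -/
structure Tyb (L : Ld K Ω) {σ : Type} [Fintype σ] (B C : ℝ) (G : MvPolynomial σ F) : Prop where
  val : ∀ x : σ → Ω, (∀ i, L.nm (x i) ≤ B) → L.nm (aeval x G) ≤ C
  der : ∀ x : σ → Ω, (∀ i, L.nm (x i) ≤ B) → ∀ i, L.nm (aeval x (pderiv i G)) ≤ C
  lip : ∀ (x y : σ → Ω) (t : ℝ), (∀ i, L.nm (x i) ≤ B) → (∀ i, L.nm (y i) ≤ B) → 0 ≤ t →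
    (∀ i, L.nm (x i - y i) ≤ t) → L.nm (aeval x G - aeval y G) ≤ C * t
  tay : ∀ (x y : σ → Ω) (t : ℝ), (∀ i, L.nm (x i) ≤ B) → (∀ i, L.nm (y i) ≤ B) → 0 ≤ t →
    (∀ i, L.nm (x i - y i) ≤ t) →
      L.nm (aeval x G - aeval y G - ∑ i, aeval y (pderiv i G) * (x i - y i)) ≤ C * (t * t)

variable {L : Ld K Ω} {σ : Type} [Fintype σ] {B C C' : ℝ} {G : MvPolynomial σ F}

theorem Tyb.mono (h : Tyb L B C G) (hC : C ≤ C') : Tyb L B C' G where
  val x hx := (h.val x hx).trans hC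
  der x hx i := (h.der x hx i).trans hC
  lip x y t hx hy ht hxy := (h.lip x y t hx hy ht hxy).trans (mul_le_mul_of_nonneg_right hC ht)
  tay x y t hx hy ht hxy := (h.tay x y t hx hy ht hxy).trans
    (mul_le_mul_of_nonneg_right hC (mul_nonneg ht ht))

theorem ep_tay (L : Ld K Ω) (hB : 1 ≤ B) (G : MvPolynomial σ F) :
    ∃ C, 1 ≤ C ∧ Tyb L B C G := by
  classical
  induction G using MvPolynomial.induction_on with
  | C a =>
    refine ⟨max 1 (L.nm (algebraMap F Ω a)), le_max_left _ _, ?_⟩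
    have h0 : 0 ≤ max 1 (L.nm (algebraMap F Ω a)) := zero_le_one.trans (le_max_left _ _)
    refine ⟨fun x _ => ?_, fun x _ i => ?_, fun x y t _ _ ht _ => ?_, fun x y t _ _ ht _ => ?_⟩
    · rw [aeval_C]
      exact le_max_right _ _
    · rw [pderiv_C, map_zero, L.zero]
      exact h0
    · rw [aeval_C, aeval_C, sub_self, L.zero]
      exact mul_nonneg h0 ht
    · have e : ∑ i, aeval y (pderiv i (C a : MvPolynomial σ F)) * (x i - y i) = 0 :=
        Finset.sum_eq_zero fun i _ => by rw [pderiv_C, map_zero, zero_mul]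
      rw [e, aeval_C, aeval_C, sub_self, sub_zero, L.zero]
      exact mul_nonneg h0 (mul_nonneg ht ht)
  | add p q hp hq =>
    obtain ⟨C₁, h1, hp⟩ := hp
    obtain ⟨C₂, h2, hq⟩ := hq
    refine ⟨max C₁ C₂, h1.trans (le_max_left _ _), ?_⟩
    have hp := hp.mono (le_max_left C₁ C₂)
    have hq := hq.mono (le_max_right C₁ C₂)
    refine ⟨fun x hx => ?_, fun x hx i => ?_, fun x y t hx hy ht hxy => ?_,
      fun x y t hx hy ht hxy => ?_⟩
    · rw [map_add]
      exact (L.add _ _).trans (max_le (hp.val x hx) (hq.val x hx))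
    · rw [map_add, map_add]
      exact (L.add _ _).trans (max_le (hp.der x hx i) (hq.der x hx i))
    · rw [map_add, map_add, add_sub_add_comm]
      exact (L.add _ _).trans (max_le (hp.lip x y t hx hy ht hxy) (hq.lip x y t hx hy ht hxy))
    · have e : ∑ i, aeval y (pderiv i (p + q)) * (x i - y i) =
          ∑ i, aeval y (pderiv i p) * (x i - y i) + ∑ i, aeval y (pderiv i q) * (x i - y i) := by
        rw [← Finset.sum_add_distrib]
        exact Finset.sum_congr rfl fun i _ => by rw [map_add, map_add, add_mul]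
      rw [e, map_add, map_add, add_sub_add_comm, add_sub_add_comm]
      exact (L.add _ _).trans (max_le (hp.tay x y t hx hy ht hxy) (hq.tay x y t hx hy ht hxy))
  | mul_X p i hp =>
    obtain ⟨C₁, h1, hp⟩ := hp
    have hB0 : 0 ≤ B := zero_le_one.trans hB
    have hC0 : 0 ≤ C₁ := zero_le_one.trans h1
    have hCB : C₁ ≤ C₁ * B := le_mul_of_one_le_right hC0 hB
    refine ⟨C₁ * B, h1.trans hCB, ?_⟩
    refine ⟨fun x hx => ?_, fun x hx j => ?_, fun x y t hx hy ht hxy => ?_,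
      fun x y t hx hy ht hxy => ?_⟩
    · rw [map_mul, aeval_X, L.mul]
      exact mul_le_mul (hp.val x hx) (hx i) (L.nonneg _) hC0
    · rw [pderiv_mul, map_add, map_mul, map_mul, aeval_X]
      refine (L.add _ _).trans (max_le ?_ ?_)
      · rw [L.mul]
        exact mul_le_mul (hp.der x hx j) (hx i) (L.nonneg _) hC0
      · refine le_trans ?_ hCB
        rw [L.mul]
        refine (mul_le_of_le_one_right (L.nonneg _) ?_).trans (hp.val x hx)
        rcases eq_or_ne i j with rfl | hij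
        · rw [pderiv_X_self, map_one, L.one]
        · rw [pderiv_X_of_ne hij, map_zero, L.zero]
          exact zero_le_one
    · rw [map_mul, map_mul, aeval_X, aeval_X]
      have e : aeval x p * x i - aeval y p * y i =
          aeval x p * (x i - y i) + (aeval x p - aeval y p) * y i := by ring
      rw [e]
      refine (L.add _ _).trans (max_le ?_ ?_)
      · rw [L.mul]
        exact (mul_le_mul (hp.val x hx) (hxy i) (L.nonneg _) hC0).trans
          (mul_le_mul_of_nonneg_right hCB ht)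
      · rw [L.mul]
        refine (mul_le_mul (hp.lip x y t hx hy ht hxy) (hy i) (L.nonneg _)
          (mul_nonneg hC0 ht)).trans (le_of_eq ?_)
        ring
    · have e : ∑ j, aeval y (pderiv j (p * X i)) * (x j - y j) =
          (∑ j, aeval y (pderiv j p) * (x j - y j)) * y i + aeval y p * (x i - y i) := by
        rw [Finset.sum_mul]
        have e2 : aeval y p * (x i - y i) =
            ∑ j, aeval y p * aeval y (pderiv j (X i : MvPolynomial σ F)) * (x j - y j) := by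
          rw [Finset.sum_eq_single i]
          · rw [pderiv_X_self, map_one, mul_one]
          · intro j _ hj
            rw [pderiv_X_of_ne hj.symm, map_zero, mul_zero, zero_mul]
          · exact fun hi => absurd (Finset.mem_univ i) hi
        rw [e2, ← Finset.sum_add_distrib]
        refine Finset.sum_congr rfl fun j _ => ?_
        rw [pderiv_mul, map_add, map_mul, map_mul, aeval_X]
        ring
      rw [e, map_mul, map_mul, aeval_X, aeval_X]
      have e3 : aeval x p * x i - aeval y p * y i -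
          ((∑ j, aeval y (pderiv j p) * (x j - y j)) * y i + aeval y p * (x i - y i)) =
          (aeval x p - aeval y p - ∑ j, aeval y (pderiv j p) * (x j - y j)) * y i +
            (aeval x p - aeval y p) * (x i - y i) := by ring
      rw [e3]
      refine (L.add _ _).trans (max_le ?_ ?_)
      · rw [L.mul]
        refine (mul_le_mul (hp.tay x y t hx hy ht hxy) (hy i) (L.nonneg _)
          (mul_nonneg hC0 (mul_nonneg ht ht))).trans (le_of_eq ?_)
        ring
      · rw [L.mul]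
        refine (mul_le_mul (hp.lip x y t hx hy ht hxy) (hxy i) (L.nonneg _)
          (mul_nonneg hC0 ht)).trans ?_
        rw [mul_assoc]
        exact mul_le_mul_of_nonneg_right hCB (mul_nonneg ht ht)

/-- A finite family. -/
theorem ep_tays (L : Ld K Ω) (hB : 1 ≤ B) {α : Type} [Finite α] (G : α → MvPolynomial σ F) :
    ∃ C, 1 ≤ C ∧ ∀ a, Tyb L B C (G a) := by
  have _ := Fintype.ofFinite α
  choose C hC h using fun a => ep_tay L hB (G a)
  refine ⟨1 + ∑ a, C a, ?_, fun a => (h a).mono ?_⟩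
  · exact le_add_of_nonneg_right (Finset.sum_nonneg fun a _ => zero_le_one.trans (hC a))
  · refine (Finset.single_le_sum (f := C) (fun a _ => zero_le_one.trans (hC a))
      (Finset.mem_univ a)).trans (le_add_of_nonneg_left zero_le_one)

/-- The second difference. -/
theorem Tyb.dd {σ τ : Type} [Fintype σ] [Fintype τ] {G : MvPolynomial (σ ⊕ τ) F}
    (h : Tyb L B C G) {x x₀ : σ → Ω} {y y₀ : τ → Ω} (hx : ∀ i, L.nm (x i) ≤ B)
    (hx₀ : ∀ i, L.nm (x₀ i) ≤ B) (hy : ∀ i, L.nm (y i) ≤ B) (hy₀ : ∀ i, L.nm (y₀ i) ≤ B)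
    {t : ℝ} (ht : 0 ≤ t) (h1 : ∀ i, L.nm (x i - x₀ i) ≤ t) (h2 : ∀ i, L.nm (y i - y₀ i) ≤ t) :
    L.nm (aeval (Sum.elim x y) G - aeval (Sum.elim x y₀) G - aeval (Sum.elim x₀ y) G +
      aeval (Sum.elim x₀ y₀) G) ≤ C * (t * t) := by
  have hb : ∀ (u : σ → Ω) (v : τ → Ω), (∀ i, L.nm (u i) ≤ B) → (∀ i, L.nm (v i) ≤ B) →
      ∀ i, L.nm (Sum.elim u v i) ≤ B := by
    intro u v hu hv i
    rcases i with i | i
    · exact hu i
    · exact hv i
  have hc : ∀ (u : σ → Ω) (v : τ → Ω), (∀ i, L.nm (u i - x₀ i) ≤ t) →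
      (∀ i, L.nm (v i - y₀ i) ≤ t) →
      ∀ i, L.nm (Sum.elim u v i - Sum.elim x₀ y₀ i) ≤ t := by
    intro u v hu hv i
    rcases i with i | i
    · exact hu i
    · exact hv i
  have hz1 : ∀ i, L.nm (x₀ i - x₀ i) ≤ t := fun i => by rw [sub_self, L.zero]; exact ht
  have hz2 : ∀ i, L.nm (y₀ i - y₀ i) ≤ t := fun i => by rw [sub_self, L.zero]; exact ht
  have k1 := h.tay (Sum.elim x y) (Sum.elim x₀ y₀) t (hb _ _ hx hy) (hb _ _ hx₀ hy₀) ht
    (hc _ _ h1 h2)
  have k2 := h.tay (Sum.elim x y₀) (Sum.elim x₀ y₀) t (hb _ _ hx hy₀) (hb _ _ hx₀ hy₀) ht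
    (hc _ _ h1 hz2)
  have k3 := h.tay (Sum.elim x₀ y) (Sum.elim x₀ y₀) t (hb _ _ hx₀ hy) (hb _ _ hx₀ hy₀) ht
    (hc _ _ hz1 h2)
  rw [Fintype.sum_sum_type] at k1 k2 k3
  simp only [Sum.elim_inl, Sum.elim_inr, sub_self, mul_zero, Finset.sum_const_zero, add_zero,
    zero_add] at k1 k2 k3
  generalize (∑ i, aeval (Sum.elim x₀ y₀) (pderiv (Sum.inl i) G) * (x i - x₀ i)) = D at k1 k2
  generalize (∑ i, aeval (Sum.elim x₀ y₀) (pderiv (Sum.inr i) G) * (y i - y₀ i)) = D' at k1 k3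
  have e : aeval (Sum.elim x y) G - aeval (Sum.elim x y₀) G - aeval (Sum.elim x₀ y) G +
      aeval (Sum.elim x₀ y₀) G =
      (aeval (Sum.elim x y) G - aeval (Sum.elim x₀ y₀) G - (D + D')) -
        (aeval (Sum.elim x y₀) G - aeval (Sum.elim x₀ y₀) G - D) -
          (aeval (Sum.elim x₀ y) G - aeval (Sum.elim x₀ y₀) G - D') := by ring
  rw [e]
  exact (L.sub _ _).trans (max_le ((L.sub _ _).trans (max_le k1 k2)) k3)

end tay

section gv

variable {F : Type} [Field F] {N' k' : ℕ} {ι' : Type} {A : Gv F N' k' ι'}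
  {K Ω : Type} [Field K] [Field Ω] [Algebra K Ω] [Algebra F Ω] {L : Ld K Ω}

/-- The constant of the group variety near the point `0`. -/
structure Gcc (L : Ld K Ω) (A : Gv F N' k' ι') (C : ℝ) : Prop where
  one : 1 ≤ C
  sub : ∀ t : ℝ, 0 ≤ t → C * t ≤ 1 → ∀ (R R' R'' : (Xf A.a).pt Ω) (z z' : Fin N' → Ω),
    Nc L A t R z → Nc L A t R' z' → (A.G.grp Ω).add R'' R' = R →
      ∃ z'' : Fin N' → Ω, Nc L A t R'' z'' ∧
        ∀ j, L.nm (z'' j - algebraMap F Ω (A.o j) - (z j - z' j)) ≤ C * (t * t)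

theorem Gcc.mono {C C' : ℝ} (h : Gcc L A C) (hC : C ≤ C') : Gcc L A C' where
  one := h.one.trans hC
  sub t ht hCt R R' R'' z z' hz hz' hR := by
    obtain ⟨z'', h1, h2⟩ := h.sub t ht ((mul_le_mul_of_nonneg_right hC ht).trans hCt)
      R R' R'' z z' hz hz' hR
    exact ⟨z'', h1, fun j => (h2 j).trans
      (mul_le_mul_of_nonneg_right hC (mul_nonneg ht ht))⟩

/-- **The group near the point `0`.** -/
theorem exists_gcc (L : Ld K Ω) (hA : A.Ok) : ∃ C, Gcc L A C := by
  let _ : AddCommGroup ((Xf A.a).pt Ω) := A.G.grp Ω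
  set o : Fin N' → Ω := fun j => algebraMap F Ω (A.o j) with ho
  have hzo' : Nc L A 0 (0 : (Xf A.a).pt Ω) o := nc_zero hA le_rfl
  obtain ⟨B, hB, hoB⟩ : ∃ B : ℝ, 1 ≤ B ∧ ∀ j, L.nm (o j) ≤ B := by
    refine ⟨1 + ∑ j, L.nm (o j), le_add_of_nonneg_right
      (Finset.sum_nonneg fun j _ => L.nonneg _), fun j => ?_⟩
    exact (Finset.single_le_sum (f := fun j => L.nm (o j)) (fun j _ => L.nonneg _)
      (Finset.mem_univ j)).trans (le_add_of_nonneg_left zero_le_one)
  have hB0 : 0 ≤ B := zero_le_one.trans hB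
  obtain ⟨i, hi0⟩ := hA.ne Ω (0 : (Xf A.a).pt Ω) 0 o o hzo'.1 hzo'.1
  obtain ⟨C₀, hC₀, hT⟩ := ep_tays L hB (fun j => A.m i j)
  have hC0 : 0 ≤ C₀ := zero_le_one.trans hC₀
  -- the value at `(o, o)`
  set μ₀ : Ω := A.mv i o o A.j₀ with hμ₀d
  have e1 := fun j => hA.mv_eq (R := (0 : (Xf A.a).pt Ω)) hzo'.1 hzo'.1 (zero_add _) hi0
    hzo'.1 hzo'.2.1 j
  have hμ0 : μ₀ ≠ 0 := by
    intro h0
    apply hi0
    funext j
    rw [e1 j, ← hμ₀d, h0, zero_mul, Pi.zero_apply]
  set m₀ : ℝ := L.nm μ₀ with hm₀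
  have hm0 : 0 < m₀ := L.pos hμ0
  -- the constant
  obtain ⟨C, hCd⟩ : ∃ C : ℝ, C = 1 + C₀ * B / m₀ + 2 * (C₀ / m₀) := ⟨_, rfl⟩
  have hq1 : 0 ≤ C₀ * B / m₀ := div_nonneg (mul_nonneg hC0 hB0) hm0.le
  have hq2 : 0 ≤ C₀ / m₀ := div_nonneg hC0 hm0.le
  refine ⟨C, by rw [hCd]; linarith, fun t ht hCt R R' R'' z z' hz hz' hR => ?_⟩
  have ht1 : t ≤ 1 := by
    refine le_trans ?_ hCt
    refine le_mul_of_one_le_left ht ?_
    rw [hCd]
    linarith
  have hCt' : C₀ * t < m₀ := by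
    rcases eq_or_lt_of_le ht with h | h
    · rw [← h, mul_zero]
      exact hm0
    · have h2 : 2 * (C₀ / m₀) * t ≤ 1 := by
        refine le_trans (mul_le_mul_of_nonneg_right ?_ ht) hCt
        rw [hCd]
        linarith
      have h3 : 2 * (C₀ / m₀) * t = 2 * (C₀ * t) / m₀ := by ring
      rw [h3, div_le_one hm0] at h2
      have h4 : 0 < C₀ * t := mul_pos (zero_lt_one.trans_le hC₀) h
      linarith
  have hzo : Nc L A t (0 : (Xf A.a).pt Ω) o := nc_zero hA ht
  have hbd : ∀ {y : Fin N' → Ω}, (∀ j, L.nm (y j - o j) ≤ t) → ∀ j, L.nm (y j) ≤ B := by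
    intro y hy j
    have e : y j = (y j - o j) + o j := by ring
    rw [e]
    exact (L.add _ _).trans (max_le (((hy j).trans ht1).trans hB) (hoB j))
  have hbz := hbd hz.2.2
  have hbz' := hbd hz'.2.2
  have hcl : ∀ (y y' : Fin N' → Ω), (∀ j, L.nm (y j - o j) ≤ t) → (∀ j, L.nm (y' j - o j) ≤ t) →
      ∀ j, L.nm (A.mv i y y' j - A.mv i o o j) ≤ C₀ * t := by
    intro y y' hy hy' j
    refine (hT j).lip _ _ t (fun s => ?_) (fun s => ?_) ht fun s => ?_
    · rcases s with s | s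
      · exact hbd hy s
      · exact hbd hy' s
    · rcases s with s | s
      · exact hoB s
      · exact hoB s
    · rcases s with s | s
      · exact hy s
      · exact hy' s
  have hoo : ∀ j, L.nm (o j - o j) ≤ t := fun j => by rw [sub_self, L.zero]; exact ht
  have hval : ∀ (y y' : Fin N' → Ω), (∀ j, L.nm (y j - o j) ≤ t) →
      (∀ j, L.nm (y' j - o j) ≤ t) → L.nm (A.mv i y y' A.j₀) = m₀ := by
    intro y y' hy hy'
    have h1 : L.nm (A.mv i y y' A.j₀ - μ₀) < L.nm μ₀ := (hcl y y' hy hy' A.j₀).trans_lt hCt'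
    rw [L.eq_of_close h1]
  have hne : ∀ (y y' : Fin N' → Ω), (∀ j, L.nm (y j - o j) ≤ t) →
      (∀ j, L.nm (y' j - o j) ≤ t) → A.mv i y y' ≠ 0 := by
    intro y y' hy hy' h0
    have h1 := hval y y' hy hy'
    rw [h0, Pi.zero_apply, L.zero] at h1
    exact hm0.ne h1
  have e2 := fun j => hA.mv_eq (R := R) hz.1 hzo.1 (add_zero _) (hne _ _ hz.2.2 hoo) hz.1
    hz.2.1 j
  have e3 := fun j => hA.mv_eq (R := R') hz'.1 hzo.1 (add_zero _) (hne _ _ hz'.2.2 hoo) hz'.1
    hz'.2.1 j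
  have e4 := fun j => hA.mv_eq (R := (0 : (Xf A.a).pt Ω)) hz'.1 hz'.1 (zero_add _)
    (hne _ _ hz'.2.2 hz'.2.2) hzo.1 hzo.2.1 j
  have hcw : Co R'' (A.mv i z z') :=
    hA.sub Ω R R' R'' z z' i hz.1 hz'.1 hR (hne _ _ hz.2.2 hz'.2.2)
  have d2 := hval z z' hz.2.2 hz'.2.2
  have k1 := hcl z o hz.2.2 hoo A.j₀
  have k2 := hcl z' o hz'.2.2 hoo A.j₀
  have k4 := hcl z z' hz.2.2 hz'.2.2 A.j₀
  set w : Fin N' → Ω := A.mv i z z' with hw
  set lam : Ω := A.mv i z o A.j₀ with hlam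
  set lam' : Ω := A.mv i z' o A.j₀ with hlam'
  set μ : Ω := A.mv i z' z' A.j₀ with hμ
  have hν0 : w A.j₀ ≠ 0 := L.ne_zero (by rw [d2]; exact hm0)
  have htt : 0 ≤ t * t := mul_nonneg ht ht
  have hCtt : 0 ≤ C₀ * (t * t) := mul_nonneg hC0 htt
  have hdd : ∀ j, L.nm (w j - lam * z j - μ * o j + lam' * z' j) ≤ C₀ * (t * t) := by
    intro j
    have h1 := (hT j).dd hbz hbz' hbz' hoB ht (x := z) (x₀ := z') (y := z') (y₀ := o)
      (fun j => by
        have e : z j - z' j = (z j - o j) - (z' j - o j) := by ring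
        rw [e]
        exact (L.sub _ _).trans (max_le (hz.2.2 j) (hz'.2.2 j))) hz'.2.2
    have h2 : w j - lam * z j - μ * o j + lam' * z' j =
        w j - A.mv i z o j - A.mv i z' z' j + A.mv i z' o j := by
      rw [e2 j, e3 j, e4 j]
    rw [h2]
    exact h1
  have hBC : C₀ * (t * t) ≤ C₀ * B * (t * t) :=
    mul_le_mul_of_nonneg_right (le_mul_of_one_le_right hC0 hB) htt
  have key : ∀ j, L.nm (w j - w A.j₀ * o j - w A.j₀ * (z j - z' j)) ≤ C₀ * B * (t * t) := by
    intro j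
    have e : w j - w A.j₀ * o j - w A.j₀ * (z j - z' j) =
        (w j - lam * z j - μ * o j + lam' * z' j) -
          o j * (w A.j₀ - lam * z A.j₀ - μ * o A.j₀ + lam' * z' A.j₀) +
          (((lam - μ₀) - (w A.j₀ - μ₀)) * (z j - o j) -
          ((lam' - μ₀) - (w A.j₀ - μ₀)) * (z' j - o j)) := by
      rw [hz.2.1, hz'.2.1, hzo.2.1]
      ring
    rw [e]
    have hmm : ∀ a x : Ω, L.nm a ≤ C₀ * t → L.nm x ≤ t → L.nm (a * x) ≤ C₀ * B * (t * t) := by
      intro a x ha hx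
      rw [L.mul]
      refine (mul_le_mul ha hx (L.nonneg _) (mul_nonneg hC0 ht)).trans ?_
      rw [mul_assoc]
      exact hBC
    refine (L.add _ _).trans (max_le ((L.sub _ _).trans (max_le ((hdd j).trans hBC) ?_))
      ((L.sub _ _).trans (max_le ?_ ?_)))
    · rw [L.mul]
      refine (mul_le_mul (hoB j) (hdd A.j₀) (L.nonneg _) hB0).trans (le_of_eq ?_)
      ring
    · exact hmm _ _ ((L.sub _ _).trans (max_le k1 k4)) (hz.2.2 j)
    · exact hmm _ _ ((L.sub _ _).trans (max_le k2 k4)) (hz'.2.2 j)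
  have key2 : ∀ j, L.nm ((w A.j₀)⁻¹ * w j - o j - (z j - z' j)) ≤ C * (t * t) := by
    intro j
    have e : (w A.j₀)⁻¹ * w j - o j - (z j - z' j) =
        (w A.j₀)⁻¹ * (w j - w A.j₀ * o j - w A.j₀ * (z j - z' j)) := by
      field_simp
    rw [e, L.mul, L.inv, d2]
    refine (mul_le_mul_of_nonneg_left (key j) (inv_nonneg.2 hm0.le)).trans ?_
    have h1 : m₀⁻¹ * (C₀ * B * (t * t)) = C₀ * B / m₀ * (t * t) := by ring
    rw [h1]
    refine mul_le_mul_of_nonneg_right ?_ htt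
    rw [hCd]
    linarith
  refine ⟨fun j => (w A.j₀)⁻¹ * w j, ⟨co_smul hA.hm hcw (inv_ne_zero hν0),
    inv_mul_cancel₀ hν0, fun j => ?_⟩, key2⟩
  have e : (w A.j₀)⁻¹ * w j - algebraMap F Ω (A.o j) =
      ((w A.j₀)⁻¹ * w j - o j - (z j - z' j)) + ((z j - o j) - (z' j - o j)) := by
    change (w A.j₀)⁻¹ * w j - o j = _
    ring
  rw [e]
  refine (L.add _ _).trans (max_le ((key2 j).trans ?_) ((L.sub _ _).trans
    (max_le (hz.2.2 j) (hz'.2.2 j))))
  rw [← mul_assoc]
  exact mul_le_of_le_one_left ht hCt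

end gv

end GX
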