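import Pool.Agent.Lib.MP_f80667_ag.Ep.Ga

/-!
The morphism to the group variety to first order, with constants.

* `Mcc L M B κ C`: for `C t ≤ 1` and points of distance `≤ t` with coordinates of norm `≤ B` at which a denominator of the forms has norm `≥ κ`: the difference of the images is given by the values of the forms up to `C t ^ 2`.
* `exists_mcc`: there is such a constant.
-/

open ZC BE PE CV IntermediateField MvPolynomial

namespace GX

variable {F : Type} [Field F] {N N' k k' : ℕ} {ι ι' : Type} {f : ι → MvPolynomial (Fin N) F}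
  {A : Gv F N' k' ι'} {M : Mf f A k}
  {K Ω : Type} [Field K] [Field Ω] [Algebra K Ω] [Algebra F Ω] {L : Ld K Ω}

/-- The constant of the morphism. -/
structure Mcc (L : Ld K Ω) (M : Mf f A k) (B κ C : ℝ) : Prop where
  one : 1 ≤ C
  sub : ∀ t : ℝ, 0 ≤ t → C * t ≤ 1 → ∀ (P P' : (Xf f).pt Ω) (x x' τ : Fin N → Ω)
    (j : Fin (k * N' * k')) (b : Fin N' → Ω) (R : (Xf A.a).pt Ω), Co P x → Co P' x' →
    (∀ n, L.nm (x n) ≤ B) → (∀ n, L.nm (x' n) ≤ B) → (∀ n, L.nm (x' n - x n) ≤ t) →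
    (∀ n, L.nm (x' n - x n - τ n) ≤ t * t) → κ ≤ L.nm (aeval x (M.om.c j)) →
    (∀ l, aeval x (M.om.c j) * b l = ∑ n, aeval x (M.om.q j l n) * τ n) →
    (A.G.grp Ω).add R (M.φ Ω P) = M.φ Ω P' →
      ∃ z, Nc L A (C * t) R z ∧ ∀ l, L.nm (z l - algebraMap F Ω (A.o l) - b l) ≤ C * (t * t)

/-- **The morphism to first order.** -/
theorem exists_mcc (L : Ld K Ω) (hA : A.Ok) (hM : M.Ok) {B κ : ℝ} (hB : 1 ≤ B) (hκ : 0 < κ) :
    ∃ C, Mcc L M B κ C := by
  let _ : AddCommGroup ((Xf A.a).pt Ω) := A.G.grp Ω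
  obtain ⟨Bo, hBo, hoB⟩ : ∃ Bo : ℝ, 1 ≤ Bo ∧ ∀ j, L.nm (algebraMap F Ω (A.o j)) ≤ Bo := by
    refine ⟨1 + ∑ j, L.nm (algebraMap F Ω (A.o j)), le_add_of_nonneg_right
      (Finset.sum_nonneg fun j _ => L.nonneg _), fun j => ?_⟩
    exact (Finset.single_le_sum (f := fun j => L.nm (algebraMap F Ω (A.o j)))
      (fun j _ => L.nonneg _) (Finset.mem_univ j)).trans (le_add_of_nonneg_left zero_le_one)
  obtain ⟨C₁, hC₁, hΦ⟩ := ep_tays L hB (fun a : Fin k × Fin N' => M.Φ a.1 a.2)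
  obtain ⟨C₂, hC₂, hm⟩ := ep_tays L hC₁ (fun a : Fin k' × Fin N' => A.m a.1 a.2)
  obtain ⟨C₃, hC₃, hq⟩ := ep_tays L hB
    (fun a : Fin (k * N' * k') × Fin N' × Fin N => M.om.q a.1 a.2.1 a.2.2)
  have hBo0 : 0 ≤ Bo := zero_le_one.trans hBo
  have hC10 : 0 ≤ C₁ := zero_le_one.trans hC₁
  have hC20 : 0 ≤ C₂ := zero_le_one.trans hC₂
  have hC30 : 0 ≤ C₃ := zero_le_one.trans hC₃
  obtain ⟨a, ha⟩ : ∃ a : ℝ, a = C₂ * (C₁ * C₁) := ⟨_, rfl⟩
  have hC11 : C₁ ≤ C₁ * C₁ := le_mul_of_one_le_left hC10 hC₁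
  have h11 : 1 ≤ C₁ * C₁ := hC₁.trans hC11
  have ha1 : 1 ≤ a := by
    rw [ha]
    exact h11.trans (le_mul_of_one_le_left (mul_nonneg hC10 hC10) hC₂)
  have ha0 : 0 ≤ a := zero_le_one.trans ha1
  have h12 : C₂ * C₁ ≤ a := by
    rw [ha]
    exact mul_le_mul_of_nonneg_left hC11 hC20
  have h120 : 0 ≤ C₂ * C₁ := mul_nonneg hC20 hC10
  obtain ⟨E₁, hE₁⟩ : ∃ E₁ : ℝ, E₁ = Bo * a := ⟨_, rfl⟩
  have hE10 : 0 ≤ E₁ := by rw [hE₁]; exact mul_nonneg hBo0 ha0
  have haE : a ≤ E₁ := by rw [hE₁]; exact le_mul_of_one_le_left ha0 hBo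
  obtain ⟨E₂, hE₂⟩ : ∃ E₂ : ℝ, E₂ = C₁ * E₁ / κ := ⟨_, rfl⟩
  have hE20 : 0 ≤ E₂ := by rw [hE₂]; exact div_nonneg (mul_nonneg hC10 hE10) hκ.le
  obtain ⟨E₃, hE₃⟩ : ∃ E₃ : ℝ, E₃ = C₁ * (E₁ + a * E₂) := ⟨_, rfl⟩
  have hE30 : 0 ≤ E₃ := by
    rw [hE₃]
    exact mul_nonneg hC10 (add_nonneg hE10 (mul_nonneg ha0 hE20))
  have hq1 : 0 ≤ a / κ := div_nonneg ha0 hκ.le
  have hq2 : 0 ≤ (E₃ + C₃) / κ := div_nonneg (add_nonneg hE30 hC30) hκ.le
  refine ⟨1 + 2 * (a / κ) + E₂ + (E₃ + C₃) / κ, by linarith,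
    fun t ht hCt P P' x x' τ j b R hx hx' hxB hxB' h hτ hj hb hR => ?_⟩
  set C : ℝ := 1 + 2 * (a / κ) + E₂ + (E₃ + C₃) / κ with hC
  have ht1 : t ≤ 1 := (le_mul_of_one_le_left ht (by rw [hC]; linarith)).trans hCt
  have htt : 0 ≤ t * t := mul_nonneg ht ht
  have htt1 : t * t ≤ t := mul_le_of_le_one_left ht ht1
  have hat : a * t < κ := by
    rcases eq_or_lt_of_le ht with h0 | h0
    · rw [← h0, mul_zero]
      exact hκ
    · have h2 : 2 * (a / κ) * t ≤ 1 := by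
        refine le_trans (mul_le_mul_of_nonneg_right ?_ ht) hCt
        rw [hC]
        linarith
      have h3 : 2 * (a / κ) * t = 2 * (a * t) / κ := by ring
      rw [h3, div_le_one hκ] at h2
      have h4 : 0 < a * t := mul_pos (zero_lt_one.trans_le ha1) h0
      linarith
  have hj' := hj
  rw [om_c_eq] at hj
  set i := (dec3 j).1 with hi
  set n := (dec3 j).2.1 with hn
  set i' := (dec3 j).2.2 with hi'
  set y : Fin N' → Ω := M.pv i x with hy
  set y' : Fin N' → Ω := M.pv i x' with hy'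
  set o : Fin N' → Ω := fun j => algebraMap F Ω (A.o j) with ho
  have hyB : ∀ s, L.nm (y s) ≤ C₁ := fun s => (hΦ (i, s)).val x hxB
  have hyB' : ∀ s, L.nm (y' s) ≤ C₁ := fun s => (hΦ (i, s)).val x' hxB'
  have hyy : ∀ s, L.nm (y' s - y s) ≤ C₁ * t := fun s => (hΦ (i, s)).lip x' x t hxB' hxB ht h
  have hc1t : 0 ≤ C₁ * t := mul_nonneg hC10 ht
  have hel : ∀ (u v : Fin N' → Ω), (∀ s, L.nm (u s) ≤ C₁) → (∀ s, L.nm (v s) ≤ C₁) →
      ∀ s, L.nm (Sum.elim u v s) ≤ C₁ := by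
    intro u v hu hv s
    rcases s with s | s
    · exact hu s
    · exact hv s
  have hmy : L.nm (A.mv i' y y A.j₀) ≤ C₂ := (hm (i', A.j₀)).val _ (hel _ _ hyB hyB)
  set m₀ : ℝ := L.nm (A.mv i' y y A.j₀) with hm₀
  rw [L.mul, ← hm₀] at hj
  have hm0κ : κ ≤ C₁ * m₀ := hj.trans (mul_le_mul_of_nonneg_right (hyB n) (L.nonneg _))
  have hynκ : κ ≤ L.nm (y n) * C₂ := hj.trans (mul_le_mul_of_nonneg_left hmy (L.nonneg _))
  have hm0 : 0 < m₀ := by
    rcases eq_or_lt_of_le (L.nonneg (A.mv i' y y A.j₀)) with h0 | h0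
    · rw [← hm₀] at h0
      rw [← h0, mul_zero] at hm0κ
      exact absurd hκ (not_lt.2 hm0κ)
    · exact h0
  -- the vectors `y`, `y'`
  have hyn : C₁ * t < L.nm (y n) := by
    by_contra h0
    have h1 := hynκ.trans (mul_le_mul_of_nonneg_right (not_lt.1 h0) hC20)
    have h2 : C₁ * t * C₂ ≤ a * t := by
      have : C₁ * t * C₂ = C₂ * C₁ * t := by ring
      rw [this]
      exact mul_le_mul_of_nonneg_right h12 ht
    linarith
  have hy0 : y ≠ 0 := by
    intro h0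
    rw [h0, Pi.zero_apply, L.zero] at hyn
    exact absurd hc1t (not_le.2 hyn)
  have hy0' : y' ≠ 0 := by
    intro h0
    have h1 := hyy n
    rw [h0, Pi.zero_apply, zero_sub, L.neg] at h1
    exact absurd h1 (not_le.2 hyn)
  have hcy : Co (M.φ Ω P) y := hM.co Ω P x i hx hy0
  have hcy' : Co (M.φ Ω P') y' := hM.co Ω P' x' i hx' hy0'
  set w : Fin N' → Ω := A.mv i' y' y with hw
  have hwc : ∀ j, L.nm (w j - A.mv i' y y j) ≤ C₂ * (C₁ * t) := by
    intro j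
    refine (hm (i', j)).lip _ _ _ (hel _ _ hyB' hyB) (hel _ _ hyB hyB) hc1t fun s => ?_
    rcases s with s | s
    · exact hyy s
    · change L.nm (y s - y s) ≤ _
      rw [sub_self, L.zero]
      exact hc1t
  have hsm : C₂ * (C₁ * t) < m₀ := by
    by_contra h0
    have h1 := hm0κ.trans (mul_le_mul_of_nonneg_left (not_lt.1 h0) hC10)
    have h2 : C₁ * (C₂ * (C₁ * t)) = a * t := by rw [ha]; ring
    rw [h2] at h1
    exact absurd hat (not_lt.2 h1)
  have hw1 : L.nm (w A.j₀) = m₀ := by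
    have h1 : L.nm (w A.j₀ - A.mv i' y y A.j₀) < L.nm (A.mv i' y y A.j₀) :=
      (hwc A.j₀).trans_lt hsm
    rw [L.eq_of_close h1]
  have hw0 : w A.j₀ ≠ 0 := L.ne_zero (by rw [hw1]; exact hm0)
  have hwn : w ≠ 0 := fun h0 => hw0 (congrFun h0 A.j₀)
  have hcw : Co R w := hA.sub Ω (M.φ Ω P') (M.φ Ω P) R y' y i' hcy' hcy hR hwn
  have hmn : A.mv i' y y ≠ 0 := by
    intro h0
    rw [h0, Pi.zero_apply, L.zero] at hm₀
    exact hm0.ne' hm₀
  obtain ⟨hz1, hz2, -⟩ := nc_zero (L := L) hA le_rfl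
  have e1 := fun j => hA.mv_eq (R := (0 : (Xf A.a).pt Ω)) hcy hcy (zero_add _) hmn hz1 hz2 j
  -- the derivatives
  set D : Fin N' → Ω := A.dm i' y (M.dv i x fun n => x' n - x n) with hD
  have hder : ∀ j s, L.nm (aeval (Sum.elim y y) (pderiv (Sum.inl s) (A.m i' j))) ≤ C₂ :=
    fun j s => (hm (i', j)).der _ (hel _ _ hyB hyB) _
  have hderΦ : ∀ j s, L.nm (aeval x (pderiv s (M.Φ i j))) ≤ C₁ :=
    fun j s => (hΦ (i, j)).der x hxB s
  have hdv : ∀ s, L.nm (M.dv i x (fun n => x' n - x n) s) ≤ C₁ * t := by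
    intro s
    refine L.sum_le _ _ hc1t fun n _ => ?_
    rw [L.mul]
    exact mul_le_mul (hderΦ s n) (h n) (L.nonneg _) hC10
  have hDt : ∀ j, L.nm (D j) ≤ C₂ * (C₁ * t) := by
    intro j
    refine L.sum_le _ _ (mul_nonneg hC20 hc1t) fun n _ => ?_
    rw [L.mul]
    exact mul_le_mul (hder j n) (hdv n) (L.nonneg _) hC20
  have hatt : 0 ≤ a * (t * t) := mul_nonneg ha0 htt
  have htay : ∀ j, L.nm (w j - A.mv i' y y j - D j) ≤ a * (t * t) := by
    intro j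
    have h1 := (hm (i', j)).tay (Sum.elim y' y) (Sum.elim y y) (C₁ * t) (hel _ _ hyB' hyB)
      (hel _ _ hyB hyB) hc1t (fun s => by
        rcases s with s | s
        · exact hyy s
        · change L.nm (y s - y s) ≤ _
          rw [sub_self, L.zero]
          exact hc1t)
    rw [Fintype.sum_sum_type] at h1
    simp only [Sum.elim_inl, Sum.elim_inr, sub_self, mul_zero, Finset.sum_const_zero,
      add_zero] at h1
    have h2 : ∀ s, L.nm (y' s - y s - M.dv i x (fun n => x' n - x n) s) ≤ C₁ * (t * t) :=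
      fun s => (hΦ (i, s)).tay x' x t hxB' hxB ht h
    have e : w j - A.mv i' y y j - D j = (w j - A.mv i' y y j -
        ∑ s, aeval (Sum.elim y y) (pderiv (Sum.inl s) (A.m i' j)) * (y' s - y s)) +
        ∑ s, aeval (Sum.elim y y) (pderiv (Sum.inl s) (A.m i' j)) *
          (y' s - y s - M.dv i x (fun n => x' n - x n) s) := by
      have e2 : D j = ∑ s, aeval (Sum.elim y y) (pderiv (Sum.inl s) (A.m i' j)) *
          M.dv i x (fun n => x' n - x n) s := rfl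
      rw [e2]
      simp only [mul_sub, Finset.sum_sub_distrib]
      ring
    rw [e]
    refine (L.add _ _).trans (max_le (h1.trans (le_of_eq ?_)) (L.sum_le _ _ hatt fun s _ => ?_))
    · rw [ha]
      ring
    · rw [L.mul]
      refine (mul_le_mul (hder j s) (h2 s) (L.nonneg _) hC20).trans ?_
      rw [← mul_assoc]
      exact mul_le_mul_of_nonneg_right h12 htt
  -- the coordinates
  have key : ∀ l, L.nm (w l - w A.j₀ * o l - (D l - o l * D A.j₀)) ≤ E₁ * (t * t) := by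
    intro l
    have e : w l - w A.j₀ * o l - (D l - o l * D A.j₀) =
        (w l - A.mv i' y y l - D l) - o l * (w A.j₀ - A.mv i' y y A.j₀ - D A.j₀) := by
      rw [e1 l]
      ring
    rw [e]
    refine (L.sub _ _).trans (max_le ((htay l).trans (mul_le_mul_of_nonneg_right haE htt)) ?_)
    rw [L.mul, hE₁, mul_assoc]
    exact mul_le_mul (hoB l) (htay A.j₀) (L.nonneg _) hBo0
  have hinv : m₀⁻¹ ≤ C₁ / κ := by
    rw [inv_le_comm₀ hm0 (div_pos (zero_lt_one.trans_le hC₁) hκ), inv_div, div_le_iff₀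
      (zero_lt_one.trans_le hC₁), mul_comm]
    exact hm0κ
  have hzl : ∀ l, L.nm ((w A.j₀)⁻¹ * w l - o l) ≤ E₂ * t := by
    intro l
    have e : (w A.j₀)⁻¹ * w l - o l = (w A.j₀)⁻¹ *
        ((w l - w A.j₀ * o l - (D l - o l * D A.j₀)) + (D l - o l * D A.j₀)) := by
      field_simp
      ring
    have h3 : L.nm ((w l - w A.j₀ * o l - (D l - o l * D A.j₀)) + (D l - o l * D A.j₀)) ≤
        E₁ * t := by
      refine (L.add _ _).trans (max_le ((key l).trans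
        (mul_le_mul_of_nonneg_left htt1 hE10)) ((L.sub _ _).trans (max_le ?_ ?_)))
      · refine (hDt l).trans ?_
        rw [← mul_assoc]
        exact mul_le_mul_of_nonneg_right (h12.trans haE) ht
      · rw [L.mul]
        refine (mul_le_mul (hoB l) (hDt A.j₀) (L.nonneg _) hBo0).trans ?_
        rw [hE₁, mul_assoc Bo a t]
        refine mul_le_mul_of_nonneg_left ?_ hBo0
        rw [← mul_assoc]
        exact mul_le_mul_of_nonneg_right h12 ht
    rw [e, L.mul, L.inv, hw1]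
    refine (mul_le_mul hinv h3 (L.nonneg _) (div_nonneg hC10 hκ.le)).trans (le_of_eq ?_)
    rw [hE₂]
    ring
  have hlast : ∀ l, L.nm (aeval x (M.om.c j) * ((w A.j₀)⁻¹ * w l - o l) -
      ∑ n, aeval x (M.om.q j l n) * (x' n - x n)) ≤ E₃ * (t * t) := by
    intro l
    rw [om_c_eq, om_q_eq]
    change L.nm (y n * A.mv i' y y A.j₀ * ((w A.j₀)⁻¹ * w l - o l) -
      y n * (D l - o l * D A.j₀)) ≤ E₃ * (t * t)
    have e : y n * A.mv i' y y A.j₀ * ((w A.j₀)⁻¹ * w l - o l) - y n * (D l - o l * D A.j₀) =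
        y n * ((w l - w A.j₀ * o l - (D l - o l * D A.j₀)) -
          (w A.j₀ - A.mv i' y y A.j₀) * ((w A.j₀)⁻¹ * w l - o l)) := by
      have : (w A.j₀) * ((w A.j₀)⁻¹ * w l) = w l := by
        rw [← mul_assoc, mul_inv_cancel₀ hw0, one_mul]
      linear_combination y n * this
    rw [e, L.mul, hE₃, mul_assoc C₁]
    refine mul_le_mul (hyB n) ((L.sub _ _).trans (max_le ((key l).trans ?_) ?_)) (L.nonneg _) hC10
    · exact mul_le_mul_of_nonneg_right (le_add_of_nonneg_right (mul_nonneg ha0 hE20)) htt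
    · rw [L.mul]
      refine (mul_le_mul (hwc A.j₀) (hzl l) (L.nonneg _) (mul_nonneg hC20 hc1t)).trans ?_
      have e3 : C₂ * (C₁ * t) * (E₂ * t) = C₂ * C₁ * (E₂ * (t * t)) := by ring
      have e4 : (E₁ + a * E₂) * (t * t) = E₁ * (t * t) + a * (E₂ * (t * t)) := by ring
      rw [e3, e4]
      refine le_trans (mul_le_mul_of_nonneg_right h12 (mul_nonneg hE20 htt))
        (le_add_of_nonneg_left (mul_nonneg hE10 htt))
  refine ⟨fun l => (w A.j₀)⁻¹ * w l, ⟨co_smul hA.hm hcw (inv_ne_zero hw0),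
    inv_mul_cancel₀ hw0, fun l => (hzl l).trans ?_⟩, fun l => ?_⟩
  · refine mul_le_mul_of_nonneg_right ?_ ht
    rw [hC]
    linarith
  · change L.nm ((w A.j₀)⁻¹ * w l - o l - b l) ≤ C * (t * t)
    have hc0 : aeval x (M.om.c j) ≠ 0 := L.ne_zero (hκ.trans_le hj')
    have e : (w A.j₀)⁻¹ * w l - o l - b l =
        ((aeval x (M.om.c j) * ((w A.j₀)⁻¹ * w l - o l) -
          ∑ n, aeval x (M.om.q j l n) * (x' n - x n)) +
            ∑ n, aeval x (M.om.q j l n) * (x' n - x n - τ n)) / aeval x (M.om.c j) := by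
      rw [eq_div_iff hc0]
      have h1 : ∑ n, aeval x (M.om.q j l n) * (x' n - x n - τ n) =
          ∑ n, aeval x (M.om.q j l n) * (x' n - x n) - ∑ n, aeval x (M.om.q j l n) * τ n := by
        rw [← Finset.sum_sub_distrib]
        exact Finset.sum_congr rfl fun n _ => by ring
      rw [h1, ← hb l]
      ring
    rw [e, L.div, div_le_iff₀ (hκ.trans_le hj')]
    have h5 : (E₃ + C₃) * (t * t) ≤ C * (t * t) * L.nm (aeval x (M.om.c j)) := by
      have h6 : (E₃ + C₃) / κ * (t * t) ≤ C * (t * t) := by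
        refine mul_le_mul_of_nonneg_right ?_ htt
        rw [hC]
        linarith
      have h7 : (E₃ + C₃) * (t * t) = (E₃ + C₃) / κ * (t * t) * κ := by
        field_simp
      rw [h7]
      exact mul_le_mul h6 hj' hκ.le (mul_nonneg (by rw [hC]; linarith) htt)
    refine le_trans ((L.add _ _).trans (max_le ((hlast l).trans ?_) ?_)) h5
    · exact mul_le_mul_of_nonneg_right (le_add_of_nonneg_right hC30) htt
    · refine L.sum_le _ _ (mul_nonneg (add_nonneg hE30 hC30) htt) fun n _ => ?_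
      rw [L.mul]
      refine (mul_le_mul ((hq (j, l, n)).val x hxB) (hτ n) (L.nonneg _) hC30).trans ?_
      exact mul_le_mul_of_nonneg_right (le_add_of_nonneg_left hE30) htt

/-- A part on which the forms are given near `x₀`. -/
theorem exists_partc (hA : A.Ok) (hM : M.Ok) {P : (Xf f).pt Ω} {x₀ : Fin N → Ω}
    (hx : Co P x₀) : ∃ (j : Fin (k * N' * k')) (δ : ℝ), 0 < δ ∧
      0 < L.nm (aeval x₀ (M.om.c j)) ∧ ∀ x : Fin N → Ω, (∀ n, L.nm (x n - x₀ n) ≤ δ) →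
        L.nm (aeval x (M.om.c j)) = L.nm (aeval x₀ (M.om.c j)) := by
  let _ : AddCommGroup ((Xf A.a).pt Ω) := A.G.grp Ω
  obtain ⟨i, hi⟩ := hM.ne Ω P x₀ hx
  have hcy : Co (M.φ Ω P) (M.pv i x₀) := hM.co Ω P x₀ i hx hi
  obtain ⟨n, hn⟩ : ∃ n, M.pv i x₀ n ≠ 0 := by
    by_contra h0
    push Not at h0
    exact hi (funext h0)
  obtain ⟨i', hi'⟩ := hA.ne Ω _ _ _ _ hcy hcy
  obtain ⟨hz1, hz2, -⟩ := nc_zero (L := L) hA le_rfl
  have e1 := fun j => hA.mv_eq (R := (0 : (Xf A.a).pt Ω)) hcy hcy (zero_add _) hi' hz1 hz2 j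
  have hm0 : A.mv i' (M.pv i x₀) (M.pv i x₀) A.j₀ ≠ 0 := by
    intro h0
    apply hi'
    funext j
    rw [e1 j, h0, zero_mul, Pi.zero_apply]
  obtain ⟨j, hj⟩ := dec3_surj i n i'
  have hc : aeval x₀ (M.om.c j) ≠ 0 := by
    rw [om_c_eq, hj]
    exact mul_ne_zero hn hm0
  obtain ⟨B, hB, hxB⟩ : ∃ B : ℝ, 1 ≤ B ∧ ∀ n, L.nm (x₀ n) ≤ B := by
    refine ⟨1 + ∑ n, L.nm (x₀ n), le_add_of_nonneg_right
      (Finset.sum_nonneg fun j _ => L.nonneg _), fun j => ?_⟩
    exact (Finset.single_le_sum (f := fun n => L.nm (x₀ n)) (fun j _ => L.nonneg _)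
      (Finset.mem_univ j)).trans (le_add_of_nonneg_left zero_le_one)
  obtain ⟨C, hC, hT⟩ := ep_tay L hB (M.om.c j)
  have hC0 : 0 < C := zero_lt_one.trans_le hC
  have hp : 0 < L.nm (aeval x₀ (M.om.c j)) := L.pos hc
  refine ⟨j, min 1 (L.nm (aeval x₀ (M.om.c j)) / (2 * C)), lt_min zero_lt_one
    (div_pos hp (mul_pos two_pos hC0)), hp, fun x hx => ?_⟩
  set δ : ℝ := min 1 (L.nm (aeval x₀ (M.om.c j)) / (2 * C)) with hδ
  have hδ0 : 0 ≤ δ := (lt_min zero_lt_one (div_pos hp (mul_pos two_pos hC0))).le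
  have hxB' : ∀ n, L.nm (x n) ≤ B := by
    intro n
    have e : x n = (x n - x₀ n) + x₀ n := by ring
    rw [e]
    exact (L.add _ _).trans (max_le (((hx n).trans (min_le_left _ _)).trans hB) (hxB n))
  have h1 := hT.lip x x₀ δ hxB' hxB hδ0 hx
  have h2 : L.nm (aeval x (M.om.c j) - aeval x₀ (M.om.c j)) < L.nm (aeval x₀ (M.om.c j)) := by
    refine h1.trans_lt ?_
    have h3 : C * δ ≤ C * (L.nm (aeval x₀ (M.om.c j)) / (2 * C)) :=
      mul_le_mul_of_nonneg_left (min_le_right _ _) hC0.le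
    have h4 : C * (L.nm (aeval x₀ (M.om.c j)) / (2 * C)) =
        L.nm (aeval x₀ (M.om.c j)) / 2 := by
      field_simp
    rw [h4] at h3
    exact h3.trans_lt (half_lt_self hp)
  exact L.eq_of_close h2

end GX
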