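import Pool.Agent.Lib.MP_f80667_ag.Ep.Gb
import Pool.Agent.Lib.MP_f80667_ag.Lv.Gb

/-!
The group variety near the point `0`, with constants: the coordinates of the sum of a cycle up to second order.

* `Ltc L A t D R b`: in normalized coordinates the point `R` is at distance `≤ t` of `o` and it is `o + b` up to numbers of norm `≤ D`.
* `Smc L M B κ C`, `exists_smc`: the sum of a cycle `∑ e_i Nm (P_i' - P_i)`, the points of distance `≤ t`.
* `Smc.small`: if the sum is `0` the sum of the traces of the values of the forms has norm `≤ C t ^ 2`.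
* `exists_tor`: there is no torsion near `0`.
-/

open ZC BE PE CV IntermediateField MvPolynomial

namespace GX

section lt

variable {F : Type} [Field F] {N' k' : ℕ} {ι' : Type} {A : Gv F N' k' ι'}
  {K Ω : Type} [Field K] [Field Ω] [Algebra K Ω] [Algebra F Ω] {L : Ld K Ω} {C t D : ℝ}

/-- The point `R` is at distance `≤ t` of `o`, and it is `o + b` up to `D`. -/
def Ltc (L : Ld K Ω) (A : Gv F N' k' ι') (t D : ℝ) (R : (Xf A.a).pt Ω) (b : Fin N' → Ω) : Prop :=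
  ∃ z : Fin N' → Ω, Nc L A t R z ∧ ∀ j, L.nm (z j - algebraMap F Ω (A.o j) - b j) ≤ D

theorem ltc_zero (hA : A.Ok) (ht : 0 ≤ t) (hD : 0 ≤ D) : Ltc L A t D (A.G.grp Ω).zero 0 := by
  refine ⟨_, nc_zero hA ht, fun j => ?_⟩
  rw [sub_self, Pi.zero_apply, sub_zero, L.zero]
  exact hD

theorem ltc_uniq {R : (Xf A.a).pt Ω} {b b' : Fin N' → Ω} (h : Ltc L A t D R b)
    (h' : Ltc L A t D R b') (j : Fin N') : L.nm (b j - b' j) ≤ D := by
  obtain ⟨z, hz, hb⟩ := h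
  obtain ⟨z', hz', hb'⟩ := h'
  obtain rfl := hz.uniq hz'
  have e : b j - b' j = (z j - algebraMap F Ω (A.o j) - b' j) -
      (z j - algebraMap F Ω (A.o j) - b j) := by ring
  rw [e]
  exact (L.sub _ _).trans (max_le (hb' j) (hb j))

theorem Ltc.mono {t' D' : ℝ} {R : (Xf A.a).pt Ω} {b : Fin N' → Ω} (h : Ltc L A t D R b)
    (ht : t ≤ t') (hD : D ≤ D') : Ltc L A t' D' R b := by
  obtain ⟨z, ⟨h1, h2, h3⟩, hb⟩ := h
  exact ⟨z, ⟨h1, h2, fun j => (h3 j).trans ht⟩, fun j => (hb j).trans hD⟩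

/-- The hypotheses for the calculations with `Ltc`. -/
structure Gct (L : Ld K Ω) (A : Gv F N' k' ι') (C t D : ℝ) : Prop where
  cc : Gcc L A C
  t0 : 0 ≤ t
  ct : C * t ≤ 1
  le : C * (t * t) ≤ D

theorem Gct.D0 (hG : Gct L A C t D) : 0 ≤ D :=
  (mul_nonneg (zero_le_one.trans hG.cc.one) (mul_nonneg hG.t0 hG.t0)).trans hG.le

theorem ltc_sub (hG : Gct L A C t D) {R R' : (Xf A.a).pt Ω} {b b' : Fin N' → Ω}
    (h : Ltc L A t D R b) (h' : Ltc L A t D R' b') :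
    letI := A.G.grp Ω; Ltc L A t D (R - R') (b - b') := by
  let _ : AddCommGroup ((Xf A.a).pt Ω) := A.G.grp Ω
  change Ltc L A t D (R - R') (b - b')
  obtain ⟨z, hz, hb⟩ := h
  obtain ⟨z', hz', hb'⟩ := h'
  obtain ⟨z'', hz'', h3⟩ := hG.cc.sub t hG.t0 hG.ct R R' (R - R') z z' hz hz'
    (sub_add_cancel _ _)
  refine ⟨z'', hz'', fun j => ?_⟩
  have e : z'' j - algebraMap F Ω (A.o j) - (b - b') j =
      ((z'' j - algebraMap F Ω (A.o j) - (z j - z' j)) +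
        (z j - algebraMap F Ω (A.o j) - b j)) - (z' j - algebraMap F Ω (A.o j) - b' j) := by
    rw [Pi.sub_apply]
    ring
  rw [e]
  exact (L.sub _ _).trans (max_le ((L.add _ _).trans (max_le ((h3 j).trans hG.le) (hb j)))
    (hb' j))

theorem ltc_neg (hA : A.Ok) (hG : Gct L A C t D) {R : (Xf A.a).pt Ω} {b : Fin N' → Ω}
    (h : Ltc L A t D R b) : letI := A.G.grp Ω; Ltc L A t D (-R) (-b) := by
  let _ : AddCommGroup ((Xf A.a).pt Ω) := A.G.grp Ω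
  change Ltc L A t D (-R) (-b)
  have h1 : Ltc L A t D ((0 : (Xf A.a).pt Ω) - R) (0 - b) :=
    ltc_sub hG (ltc_zero hA hG.t0 hG.D0) h
  rwa [zero_sub, zero_sub] at h1

theorem ltc_add (hA : A.Ok) (hG : Gct L A C t D) {R R' : (Xf A.a).pt Ω} {b b' : Fin N' → Ω}
    (h : Ltc L A t D R b) (h' : Ltc L A t D R' b') :
    letI := A.G.grp Ω; Ltc L A t D (R + R') (b + b') := by
  let _ : AddCommGroup ((Xf A.a).pt Ω) := A.G.grp Ω
  change Ltc L A t D (R + R') (b + b')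
  have h1 : Ltc L A t D (R - -R') (b - -b') := ltc_sub hG h (ltc_neg hA hG h')
  rwa [sub_neg_eq_add, sub_neg_eq_add] at h1

theorem ltc_sum (hA : A.Ok) (hG : Gct L A C t D) {I : Type} (s : Finset I)
    (R : I → (Xf A.a).pt Ω) (b : I → Fin N' → Ω) (h : ∀ i ∈ s, Ltc L A t D (R i) (b i)) :
    letI := A.G.grp Ω; Ltc L A t D (∑ i ∈ s, R i) (∑ i ∈ s, b i) := by
  classical
  let _ : AddCommGroup ((Xf A.a).pt Ω) := A.G.grp Ω
  change Ltc L A t D (∑ i ∈ s, R i) (∑ i ∈ s, b i)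
  induction s using Finset.induction_on with
  | empty =>
    rw [Finset.sum_empty, Finset.sum_empty]
    exact ltc_zero hA hG.t0 hG.D0
  | insert i s hi ih =>
    rw [Finset.sum_insert hi, Finset.sum_insert hi]
    exact ltc_add hA hG (h i (Finset.mem_insert_self _ _))
      (ih fun i' hi' => h i' (Finset.mem_insert_of_mem hi'))

theorem ltc_zsmul (hA : A.Ok) (hG : Gct L A C t D) {R : (Xf A.a).pt Ω} {b : Fin N' → Ω}
    (h : Ltc L A t D R b) (n : ℤ) : letI := A.G.grp Ω; Ltc L A t D (n • R) (n • b) := by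
  let _ : AddCommGroup ((Xf A.a).pt Ω) := A.G.grp Ω
  change Ltc L A t D (n • R) (n • b)
  induction n using Int.induction_on with
  | zero =>
    rw [zero_smul, zero_smul]
    exact ltc_zero hA hG.t0 hG.D0
  | succ n ih =>
    rw [add_smul, add_smul, one_smul, one_smul]
    exact ltc_add hA hG ih h
  | pred n ih =>
    rw [sub_smul, sub_smul, one_smul, one_smul]
    exact ltc_sub hG ih h

/-- **No torsion near `0`.** -/
theorem exists_tor (L : Ld K Ω) (hA : A.Ok) {q : ℤ} (hq : (q : Ω) ≠ 0) :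
    letI := A.G.grp Ω
    ∃ t₀ : ℝ, 0 < t₀ ∧ ∀ (R : (Xf A.a).pt Ω) (z : Fin N' → Ω), Nc L A t₀ R z →
      q • R = 0 → R = 0 := by
  let _ : AddCommGroup ((Xf A.a).pt Ω) := A.G.grp Ω
  change ∃ t₀ : ℝ, 0 < t₀ ∧ ∀ (R : (Xf A.a).pt Ω) (z : Fin N' → Ω), Nc L A t₀ R z →
      q • R = 0 → R = 0
  obtain ⟨C, hC⟩ := exists_gcc L hA
  have hC1 := hC.one
  have hC0 : 0 < C := zero_lt_one.trans_le hC1
  have hqp : 0 < L.nm (q : Ω) := L.pos hq
  refine ⟨min (1 / C) (L.nm (q : Ω) / (2 * C)), lt_min (div_pos zero_lt_one hC0)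
    (div_pos hqp (mul_pos two_pos hC0)), fun R z hz hR => ?_⟩
  obtain ⟨t₀, ht₀⟩ : ∃ t₀, t₀ = min (1 / C) (L.nm (q : Ω) / (2 * C)) := ⟨_, rfl⟩
  rw [← ht₀] at hz
  have h1 : t₀ ≤ 1 / C := by rw [ht₀]; exact min_le_left _ _
  have h2 : t₀ ≤ L.nm (q : Ω) / (2 * C) := by rw [ht₀]; exact min_le_right _ _
  have h2' : C * t₀ < L.nm (q : Ω) := by
    have h3 := mul_le_mul_of_nonneg_left h2 hC0.le
    have h4 : C * (L.nm (q : Ω) / (2 * C)) = L.nm (q : Ω) / 2 := by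
      field_simp
    rw [h4] at h3
    exact h3.trans_lt (half_lt_self hqp)
  obtain ⟨t, ht0, htz, htmax⟩ : ∃ t : ℝ, 0 ≤ t ∧
      (∀ j, L.nm (z j - algebraMap F Ω (A.o j)) ≤ t) ∧
        (t ≠ 0 → ∃ j, L.nm (z j - algebraMap F Ω (A.o j)) = t) := by
    rcases isEmpty_or_nonempty (Fin N') with h | h
    · exact ⟨0, le_rfl, fun j => h.elim j, fun h => absurd rfl h⟩
    · obtain ⟨j, -, hj⟩ := Finset.exists_max_image Finset.univ
        (fun j => L.nm (z j - algebraMap F Ω (A.o j))) Finset.univ_nonempty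
      exact ⟨_, L.nonneg _, fun i => hj i (Finset.mem_univ _), fun _ => ⟨j, rfl⟩⟩
  have htt₀ : t ≤ t₀ := by
    rcases eq_or_ne t 0 with h | h
    · rw [h, ht₀]
      exact (lt_min (div_pos zero_lt_one hC0) (div_pos hqp (mul_pos two_pos hC0))).le
    · obtain ⟨j, hj⟩ := htmax h
      rw [← hj]
      exact hz.2.2 j
  have hCt : C * t ≤ 1 := by
    have h3 := mul_le_mul_of_nonneg_left (htt₀.trans h1) hC0.le
    rwa [mul_one_div_cancel hC0.ne'] at h3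
  have hG : Gct L A C t (C * (t * t)) := ⟨hC, ht0, hCt, le_rfl⟩
  have h3 : Ltc L A t (C * (t * t)) R fun j => z j - algebraMap F Ω (A.o j) :=
    ⟨z, ⟨hz.1, hz.2.1, htz⟩, fun j => by
      rw [sub_self, L.zero]
      exact hG.D0⟩
  have h4 : Ltc L A t (C * (t * t)) (q • R) (q • fun j => z j - algebraMap F Ω (A.o j)) :=
    ltc_zsmul hA hG h3 q
  rw [hR] at h4
  have h5 := fun j => ltc_uniq h4 (ltc_zero hA hG.t0 hG.D0) j
  have ht : t = 0 := by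
    by_contra h
    obtain ⟨j, hj⟩ := htmax h
    have h6 := h5 j
    rw [Pi.zero_apply, sub_zero, Pi.smul_apply, zsmul_eq_mul, L.mul, hj] at h6
    have h7 : L.nm (q : Ω) ≤ C * t := by
      refine le_of_mul_le_mul_right (h6.trans (le_of_eq ?_)) (lt_of_le_of_ne ht0 (Ne.symm h))
      ring
    exact absurd h7 (not_le.2 ((mul_le_mul_of_nonneg_left htt₀ hC0.le).trans_lt h2'))
  exact nc_eq (z := z) (L := L) hA ⟨hz.1, hz.2.1, fun j => by rw [← ht]; exact htz j⟩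

end lt

section mf

variable {F : Type} [Field F] {N N' k k' : ℕ} {ι ι' : Type} {f : ι → MvPolynomial (Fin N) F}
  {A : Gv F N' k' ι'} {M : Mf f A k}
  {K Ω : Type} [Field K] [CharZero K] [Field Ω] [Algebra K Ω] [Algebra F K] [Algebra F Ω]
  [IsScalarTower F K Ω] [IsAlgClosure K Ω] {L : Ld K Ω} {C C' t D B κ : ℝ}

omit [CharZero K] [IsAlgClosure K Ω] in
/-- Automorphisms. -/
theorem ltc_act {R : (Xf A.a).pt Ω} {b : Fin N' → Ω} (h : Ltc L A t D R b)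
    (γ : Ω ≃ₐ[K] Ω) : Ltc L A t D ((Xf A.a).act γ R) fun j => γ (b j) := by
  obtain ⟨z, ⟨h1, h2, h3⟩, hb⟩ := h
  have ho : ∀ j, γ (algebraMap F Ω (A.o j)) = algebraMap F Ω (A.o j) := by
    intro j
    rw [IsScalarTower.algebraMap_apply F K Ω, AlgEquiv.commutes]
  refine ⟨fun j => γ (z j), ⟨co_act γ h1, ?_, fun j => ?_⟩, fun j => ?_⟩
  · change γ (z A.j₀) = 1
    rw [h2, map_one]
  · have e : γ (z j) - algebraMap F Ω (A.o j) = γ (z j - algebraMap F Ω (A.o j)) := by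
      rw [map_sub, ho]
    rw [e, L.act]
    exact h3 j
  · have e : γ (z j) - algebraMap F Ω (A.o j) - γ (b j) =
        γ (z j - algebraMap F Ω (A.o j) - b j) := by
      rw [map_sub, map_sub, ho]
    rw [e, L.act]
    exact hb j

/-- The norm of a cycle. -/
theorem ltc_nm (hA : A.Ok) (hM : M.Ok) (hG : Gct L A C t D) {E : IntermediateField K Ω}
    [FiniteDimensional K E] {z : (Xf f).pt Ω →₀ ℤ} {b : Fin N' → Ω}
    (h : letI := A.G.grp Ω; Ltc L A t D (M.S Ω z) b) :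
    letI := A.G.grp Ω
    Ltc L A t D (M.S Ω (Nm (K := K) ⊥ E z)) fun l => Nm (K := K) ⊥ E (b l) := by
  let _ : AddCommGroup ((Xf A.a).pt Ω) := A.G.grp Ω
  change Ltc L A t D (M.S Ω (Nm (K := K) ⊥ E z)) fun l => Nm (K := K) ⊥ E (b l)
  obtain ⟨s, -, -, -, h₃⟩ := nm_rep (K := K) (Ω := Ω) (bot_le : (⊥ : IntermediateField K Ω) ≤ E)
  rw [h₃ _ z]
  have e : (fun l => Nm (K := K) ⊥ E (b l)) = ∑ γ ∈ s, fun l => γ (b l) := by
    funext l
    rw [h₃ _ (b l), Finset.sum_apply]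
    rfl
  rw [e, map_sum]
  refine ltc_sum hA hG s _ _ fun γ _ => ?_
  have e2 : M.S Ω (γ • z) = (Xf A.a).act γ (M.S Ω z) := mfS_act hM γ z
  rw [e2]
  exact ltc_act h γ

/-- The constant for the sums of cycles: the points have coordinates of norm `≤ B`, the denominators have norm `≥ κ`. -/
structure Smc (L : Ld K Ω) (M : Mf f A k) (B κ C : ℝ) : Prop where
  one : 1 ≤ C
  sum : letI := A.G.grp Ω
    ∀ t : ℝ, 0 ≤ t → C * t ≤ 1 → ∀ (I : Type) (s : Finset I) (e : I → ℤ)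
    (E : I → IntermediateField K Ω), (∀ i ∈ s, FiniteDimensional K (E i)) →
    ∀ (P P' : I → (Xf f).pt Ω) (x x' τ : I → Fin N → Ω), (∀ i ∈ s, Co (P i) (x i)) →
    (∀ i ∈ s, Co (P' i) (x' i)) → (∀ i ∈ s, ∀ n, L.nm (x i n) ≤ B) →
    (∀ i ∈ s, ∀ n, L.nm (x' i n) ≤ B) → (∀ i ∈ s, ∀ n, L.nm (x' i n - x i n) ≤ t) →
    (∀ i ∈ s, ∀ n, L.nm (x' i n - x i n - τ i n) ≤ t * t) →
    ∀ (j : I → Fin (k * N' * k')), (∀ i ∈ s, κ ≤ L.nm (aeval (x i) (M.om.c (j i)))) →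
    ∀ (b : I → Fin N' → Ω), (∀ i ∈ s, ∀ l, aeval (x i) (M.om.c (j i)) * b i l =
      ∑ n, aeval (x i) (M.om.q (j i) l n) * τ i n) →
    Ltc L A (C * t) (C * (t * t)) (M.S Ω (∑ i ∈ s, e i • Nm (K := K) ⊥ (E i)
      (Finsupp.single (P' i) 1 - Finsupp.single (P i) 1 : (Xf f).pt Ω →₀ ℤ)))
      (∑ i ∈ s, e i • fun l => Nm (K := K) ⊥ (E i) (b i l))

/-- **The sum of a cycle.** -/
theorem exists_smc (L : Ld K Ω) (hA : A.Ok) (hM : M.Ok) (hB : 1 ≤ B) (hκ : 0 < κ) :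
    ∃ C, Smc L M B κ C := by
  let _ : AddCommGroup ((Xf A.a).pt Ω) := A.G.grp Ω
  obtain ⟨C₁, h1⟩ := exists_gcc L hA
  obtain ⟨C₂, h2⟩ := exists_mcc L hA hM hB hκ
  have h11 := h1.one
  have h21 := h2.one
  have hC1 : 0 ≤ C₁ := zero_le_one.trans h11
  have hC2 : 0 ≤ C₂ := zero_le_one.trans h21
  have h22 : C₂ ≤ C₂ * C₂ := le_mul_of_one_le_left hC2 h21
  have h221 : 1 ≤ C₂ * C₂ := h21.trans h22
  have hC22 : 0 ≤ C₂ * C₂ := mul_nonneg hC2 hC2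
  have hge2 : C₂ ≤ C₁ * (C₂ * C₂) := h22.trans (le_mul_of_one_le_left hC22 h11)
  have hge12 : C₁ * C₂ ≤ C₁ * (C₂ * C₂) := mul_le_mul_of_nonneg_left h22 hC1
  refine ⟨C₁ * (C₂ * C₂), h21.trans hge2, ?_⟩
  change ∀ t : ℝ, 0 ≤ t → _
  intro t ht hCt I s e E hE P P' x x' τ hx hx' hxB hxB' h hτ j hj b hb
  change Ltc L A (C₁ * (C₂ * C₂) * t) (C₁ * (C₂ * C₂) * (t * t))
    (M.S Ω (∑ i ∈ s, e i • Nm (K := K) ⊥ (E i)
      (Finsupp.single (P' i) 1 - Finsupp.single (P i) 1 : (Xf f).pt Ω →₀ ℤ)))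
      (∑ i ∈ s, e i • fun l => Nm (K := K) ⊥ (E i) (b i l))
  have htt : 0 ≤ t * t := mul_nonneg ht ht
  have hC2t : C₂ * t ≤ 1 := (mul_le_mul_of_nonneg_right hge2 ht).trans hCt
  have hG : Gct L A C₁ (C₂ * t) (C₁ * (C₂ * C₂) * (t * t)) := by
    refine ⟨h1, mul_nonneg hC2 ht, ?_, le_of_eq (by ring)⟩
    rw [← mul_assoc]
    exact (mul_le_mul_of_nonneg_right hge12 ht).trans hCt
  refine Ltc.mono (t := C₂ * t) (D := C₁ * (C₂ * C₂) * (t * t)) ?_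
    (mul_le_mul_of_nonneg_right hge2 ht) le_rfl
  rw [map_sum]
  refine ltc_sum hA hG s _ _ fun i hi => ?_
  rw [map_zsmul]
  refine ltc_zsmul hA hG ?_ _
  have := hE i hi
  refine ltc_nm hA hM hG ?_
  change Ltc L A (C₂ * t) (C₁ * (C₂ * C₂) * (t * t))
    (M.S Ω (Finsupp.single (P' i) 1 - Finsupp.single (P i) 1)) (b i)
  rw [mfS_dif]
  obtain ⟨z, hz, hzb⟩ := h2.sub t ht hC2t (P i) (P' i) (x i) (x' i) (τ i) (j i) (b i)
    (M.φ Ω (P' i) - M.φ Ω (P i)) (hx i hi) (hx' i hi) (hxB i hi) (hxB' i hi) (h i hi)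
    (hτ i hi) (hj i hi) (hb i hi) (sub_add_cancel _ _)
  exact ⟨z, hz, fun l => (hzb l).trans (mul_le_mul_of_nonneg_right hge2 htt)⟩

/-- **If the sum is `0` the traces of the values of the forms are small.** -/
theorem Smc.small (hA : A.Ok) (hS : Smc L M B κ C) {t : ℝ} (ht : 0 ≤ t) (hCt : C * t ≤ 1)
    {I : Type} (s : Finset I) (e : I → ℤ) (E : I → IntermediateField K Ω)
    (hE : ∀ i ∈ s, FiniteDimensional K (E i)) (P P' : I → (Xf f).pt Ω)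
    (x x' τ : I → Fin N → Ω) (hx : ∀ i ∈ s, Co (P i) (x i))
    (hx' : ∀ i ∈ s, Co (P' i) (x' i)) (hxB : ∀ i ∈ s, ∀ n, L.nm (x i n) ≤ B)
    (hxB' : ∀ i ∈ s, ∀ n, L.nm (x' i n) ≤ B) (h : ∀ i ∈ s, ∀ n, L.nm (x' i n - x i n) ≤ t)
    (hτ : ∀ i ∈ s, ∀ n, L.nm (x' i n - x i n - τ i n) ≤ t * t) (j : I → Fin (k * N' * k'))
    (hj : ∀ i ∈ s, κ ≤ L.nm (aeval (x i) (M.om.c (j i)))) (b : I → Fin N' → Ω)
    (hb : ∀ i ∈ s, ∀ l, aeval (x i) (M.om.c (j i)) * b i l =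
      ∑ n, aeval (x i) (M.om.q (j i) l n) * τ i n)
    (h0 : letI := A.G.grp Ω; M.S Ω (∑ i ∈ s, e i • Nm (K := K) ⊥ (E i)
      (Finsupp.single (P' i) 1 - Finsupp.single (P i) 1 : (Xf f).pt Ω →₀ ℤ)) = 0)
    (l : Fin N') : L.nm (∑ i ∈ s, e i • Nm (K := K) ⊥ (E i) (b i l)) ≤ C * (t * t) := by
  let _ : AddCommGroup ((Xf A.a).pt Ω) := A.G.grp Ω
  have hC : 0 ≤ C := zero_le_one.trans hS.one
  have h1 : Ltc L A (C * t) (C * (t * t)) (M.S Ω (∑ i ∈ s, e i • Nm (K := K) ⊥ (E i)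
      (Finsupp.single (P' i) 1 - Finsupp.single (P i) 1 : (Xf f).pt Ω →₀ ℤ)))
      (∑ i ∈ s, e i • fun l => Nm (K := K) ⊥ (E i) (b i l)) :=
    hS.sum t ht hCt I s e E hE P P' x x' τ hx hx' hxB hxB' h hτ j hj b hb
  rw [h0] at h1
  have h2 := ltc_uniq h1 (ltc_zero hA (mul_nonneg hC ht)
    (mul_nonneg hC (mul_nonneg ht ht))) l
  rw [Pi.zero_apply, sub_zero, Finset.sum_apply] at h2
  exact h2

end mf

end GX
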