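import Pool.Agent.Lib.MP_f80667_ag.Ep.Gc

/-!
Uniform bounds for the denominators of the invariant forms (Nullstellensatz).

* `exists_nul`: polynomials `c_j` without a common zero on the cone over `f = 0` outside `0` are bounded below on the points of bounded norm.
* `exists_den`: the same for the denominators `M.om.c`.
-/

open ZC BE PE CV IntermediateField MvPolynomial

namespace GX

section nul

variable {F : Type} [Field F] {N n : ℕ} {ι : Type} {f : ι → MvPolynomial (Fin N) F}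
  {K Ω : Type} [Field K] [Field Ω] [Algebra K Ω] [Algebra F Ω]

/-- Polynomials without a common zero. -/
theorem exists_nul [IsAlgClosed Ω] (L : Ld K Ω) (c : Fin n → MvPolynomial (Fin N) F)
    (hc : ∀ x : Fin N → Ω, x ≠ 0 → (∀ i, aeval x (f i) = 0) → ∃ j, aeval x (c j) ≠ 0)
    {B ρ : ℝ} (hB : 1 ≤ B) (hρ : 0 < ρ) :
    ∃ κ : ℝ, 0 < κ ∧ ∀ x : Fin N → Ω, (∀ i, aeval x (f i) = 0) → (∀ i, L.nm (x i) ≤ B) →
      (∃ i, ρ ≤ L.nm (x i)) → ∃ j, κ ≤ L.nm (aeval x (c j)) := by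
  classical
  -- the ideal
  obtain ⟨J, hJ⟩ : ∃ J : Ideal (MvPolynomial (Fin N) F),
      J = Ideal.span (Set.range f ∪ Set.range c) := ⟨_, rfl⟩
  have hfJ : ∀ i, f i ∈ J := fun i => by
    rw [hJ]
    exact Ideal.subset_span (Or.inl ⟨i, rfl⟩)
  have hcJ : ∀ j, c j ∈ J := fun j => by
    rw [hJ]
    exact Ideal.subset_span (Or.inr ⟨j, rfl⟩)
  have hX : ∀ i : Fin N, ∃ e : ℕ, (X i : MvPolynomial (Fin N) F) ^ e ∈ J := by
    intro i
    have h1 : (X i : MvPolynomial (Fin N) F) ∈ vanishingIdeal F (zeroLocus Ω J) := by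
      intro x hx
      rw [aeval_X]
      by_contra h0
      obtain ⟨j, hj⟩ := hc x (fun h => h0 (by rw [h]; rfl)) fun i => hx _ (hfJ i)
      exact hj (hx _ (hcJ j))
    rw [vanishingIdeal_zeroLocus_eq_radical] at h1
    exact h1
  choose e he using hX
  -- the estimate
  have hest : ∀ G ∈ J, ∃ C : ℝ, 0 ≤ C ∧ ∀ (x : Fin N → Ω) (κ : ℝ), 0 ≤ κ →
      (∀ i, aeval x (f i) = 0) → (∀ i, L.nm (x i) ≤ B) →
        (∀ j, L.nm (aeval x (c j)) ≤ κ) → L.nm (aeval x G) ≤ C * κ := by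
    intro G hG
    rw [hJ] at hG
    refine Submodule.span_induction (p := fun G _ => ∃ C : ℝ, 0 ≤ C ∧
      ∀ (x : Fin N → Ω) (κ : ℝ), 0 ≤ κ →
      (∀ i, aeval x (f i) = 0) → (∀ i, L.nm (x i) ≤ B) →
        (∀ j, L.nm (aeval x (c j)) ≤ κ) → L.nm (aeval x G) ≤ C * κ) ?_ ?_ ?_ ?_ hG
    · rintro G (⟨i, rfl⟩ | ⟨j, rfl⟩)
      · refine ⟨0, le_rfl, fun x κ _ h0 _ _ => ?_⟩
        rw [h0 i, L.zero, zero_mul]
      · refine ⟨1, zero_le_one, fun x κ _ _ _ h => ?_⟩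
        rw [one_mul]
        exact h j
    · refine ⟨0, le_rfl, fun x κ _ _ _ _ => ?_⟩
      rw [map_zero, L.zero, zero_mul]
    · rintro G G' - - ⟨C, hC, h⟩ ⟨C', hC', h'⟩
      refine ⟨max C C', hC.trans (le_max_left _ _), fun x κ hκ h0 h1 h2 => ?_⟩
      rw [map_add]
      refine (L.add _ _).trans (max_le ?_ ?_)
      · exact (h x κ hκ h0 h1 h2).trans (mul_le_mul_of_nonneg_right (le_max_left _ _) hκ)
      · exact (h' x κ hκ h0 h1 h2).trans (mul_le_mul_of_nonneg_right (le_max_right _ _) hκ)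
    · rintro H G - ⟨C, hC, h⟩
      obtain ⟨D, hD, hT⟩ := ep_tay L hB H
      have hD0 : 0 ≤ D := zero_le_one.trans hD
      refine ⟨D * C, mul_nonneg hD0 hC, fun x κ hκ h0 h1 h2 => ?_⟩
      rw [smul_eq_mul, map_mul, L.mul, mul_assoc]
      exact mul_le_mul (hT.val x h1) (h x κ hκ h0 h1 h2) (L.nonneg _) hD0
  choose C hC hest using fun i => hest _ (he i)
  obtain ⟨S, hS⟩ : ∃ S : ℝ, S = 1 + ∑ i, C i / ρ ^ e i := ⟨_, rfl⟩
  have hq : ∀ i, 0 ≤ C i / ρ ^ e i := fun i => div_nonneg (hC i) (pow_pos hρ _).le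
  have hS1 : ∀ i, C i / ρ ^ e i < S := by
    intro i
    have h1 : C i / ρ ^ e i ≤ ∑ i, C i / ρ ^ e i :=
      Finset.single_le_sum (f := fun i => C i / ρ ^ e i) (fun i _ => hq i) (Finset.mem_univ i)
    rw [hS]
    linarith
  have hS0 : 0 < S := by
    have h1 : 0 ≤ ∑ i, C i / ρ ^ e i := Finset.sum_nonneg fun i _ => hq i
    rw [hS]
    linarith
  refine ⟨S⁻¹, inv_pos.2 hS0, fun x h0 h1 h2 => ?_⟩
  by_contra hcon
  push Not at hcon
  obtain ⟨i, hi⟩ := h2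
  have h3 := hest i x S⁻¹ (inv_pos.2 hS0).le h0 h1 fun j => (hcon j).le
  rw [map_pow, aeval_X, L.pow] at h3
  have h4 : ρ ^ e i ≤ C i * S⁻¹ := (pow_le_pow_left₀ hρ.le hi _).trans h3
  have h5 : S ≤ C i / ρ ^ e i := by
    rw [le_div_iff₀ (pow_pos hρ _)]
    have h6 := mul_le_mul_of_nonneg_left h4 hS0.le
    have h7 : S * (C i * S⁻¹) = C i := by
      field_simp
    rwa [h7] at h6
  exact absurd h5 (not_le.2 (hS1 i))

end nul

section mf

variable {F : Type} [Field F] {N N' k k' : ℕ} {ι ι' : Type} {f : ι → MvPolynomial (Fin N) F}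
  {A : Gv F N' k' ι'} {M : Mf f A k}
  {K Ω : Type} [Field K] [Field Ω] [Algebra K Ω] [Algebra F Ω]

/-- One of the denominators is not `0`. -/
theorem exists_om_ne (L : Ld K Ω) (hA : A.Ok) (hM : M.Ok) {P : (Xf f).pt Ω} {x : Fin N → Ω}
    (hx : Co P x) : ∃ j : Fin (k * N' * k'), aeval x (M.om.c j) ≠ 0 := by
  obtain ⟨j, δ, -, h, -⟩ := exists_partc (L := L) hA hM hx
  exact ⟨j, L.ne_zero h⟩

/-- **Uniform denominators.** -/
theorem exists_den [IsAlgClosed Ω] (L : Ld K Ω) (hA : A.Ok) (hM : M.Ok) {B ρ : ℝ}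
    (hB : 1 ≤ B) (hρ : 0 < ρ) :
    ∃ κ : ℝ, 0 < κ ∧ ∀ (P : (Xf f).pt Ω) (x : Fin N → Ω), Co P x →
      (∀ i, L.nm (x i) ≤ B) → (∃ i, ρ ≤ L.nm (x i)) →
        ∃ j : Fin (k * N' * k'), κ ≤ L.nm (aeval x (M.om.c j)) := by
  obtain ⟨κ, hκ, h⟩ := exists_nul (f := f) L (fun j : Fin (k * N' * k') => M.om.c j)
    (fun x hx h0 => by
      obtain ⟨P, hP⟩ := co_mk hx h0
      exact exists_om_ne L hA hM hP) hB hρ
  exact ⟨κ, hκ, fun P x hx h1 h2 => h x (co_zero hx) h1 h2⟩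

end mf

end GX
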