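import Pool.Agent.Lib.MP_f80667_ag.Ep.A

/-!
Displacements as finite sums over the unramified extensions.

* `um_ur`: the unramified extensions of `K` are the fields `Ur ⊥ n`.
* `dsp_sum`: a displacement in the branches as a finite sum of traces.
-/

open ZC BE PE CV IntermediateField

namespace GX

section um

variable {K Ω : Type} [Field K] [CharZero K] [Field Ω] [Algebra K Ω] [IsAlgClosure K Ω]
  {L : Ld K Ω}

omit [CharZero K] [IsAlgClosure K Ω] in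
private theorem um_pw {φ φ' : Ω ≃ₐ[K] Ω} {S : Set Ω} (h : ∀ z ∈ S, φ z = φ' z)
    (hS : ∀ z ∈ S, φ' z ∈ S) : ∀ i : ℕ, ∀ z ∈ S, (φ ^ i) z = (φ' ^ i) z := by
  intro i
  induction i with
  | zero =>
    intro z _
    rfl
  | succ i ih =>
    intro z hz
    rw [pow_succ, pow_succ, AlgEquiv.mul_apply, AlgEquiv.mul_apply, h z hz, ih _ (hS z hz)]

private theorem um_dvd {p r R : ℕ} (hp : 1 < p) (h : p ^ r - 1 ∣ p ^ R - 1) : r ∣ R := by
  have h1 := Nat.pow_sub_one_gcd_pow_sub_one p r R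
  rw [Nat.gcd_eq_left h] at h1
  have h2 : 0 < p ^ r := pow_pos (by omega) r
  have h3 : 0 < p ^ Nat.gcd r R := pow_pos (by omega) _
  have h4 : p ^ r = p ^ Nat.gcd r R := by omega
  rw [Nat.pow_right_injective hp h4]
  exact Nat.gcd_dvd_right r R

/-- `Te r` is contained in `Te R` only if `r ∣ R`. -/
private theorem um_te {r : ℕ} (hr : r ≠ 0) {R : ℕ} (hR : R ≠ 0)
    (h : ∀ z ∈ L.Te r, z ∈ L.Te R) : r ∣ R := by
  have ha : IsAlgClosed Ω := IsAlgClosure.isAlgClosed K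
  have hc : CharZero Ω := charZero_of_injective_algebraMap (algebraMap K Ω).injective
  have h1 : 1 < L.p ^ r := Nat.one_lt_pow hr L.pp.one_lt
  have h2 : 1 < L.p ^ R := Nat.one_lt_pow hR L.pp.one_lt
  have hne : NeZero ((L.p ^ r - 1 : ℕ) : Ω) := ⟨Nat.cast_ne_zero.2 (by omega)⟩
  obtain ⟨z, hz⟩ := HasEnoughRootsOfUnity.exists_primitiveRoot Ω (L.p ^ r - 1)
  have hz1 : z ∈ L.Te r := by
    change z ^ L.p ^ r = z
    have h3 : L.p ^ r = (L.p ^ r - 1) + 1 := by omega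
    rw [h3, pow_succ, hz.pow_eq_one, one_mul]
  have hz2 : z ^ L.p ^ R = z := h z hz1
  have hz0 : z ≠ 0 := hz.ne_zero (by omega)
  have h3 : z ^ (L.p ^ R - 1) = 1 := by
    have h4 : L.p ^ R = (L.p ^ R - 1) + 1 := by omega
    rw [h4, pow_succ] at hz2
    exact mul_right_cancel₀ hz0 (by rw [hz2, one_mul])
  exact um_dvd L.pp.one_lt (hz.dvd_of_pow_eq_one _ h3)

/-- The unramified extensions of `K` are the fields `Ur ⊥ n` (as `um_eq`, for every `K`). -/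
theorem um_ur {r : ℕ} (hr : L.Rf ⊥ r) {M : IntermediateField K Ω} (hM : Um L M) :
    ∃ n, n ≠ 0 ∧ r ∣ n ∧ M = L.Ur ⊥ n := by
  have hfM : FiniteDimensional K M := hM.fd
  obtain ⟨n₀, hn₀, hMn⟩ := hM
  obtain ⟨R, hR, hRf⟩ := exists_ur (L := L) M
  obtain ⟨φ, q, hφ⟩ := exists_frob L.toLf M
  rw [Ld.rf_frob hRf hφ] at hφ
  obtain ⟨-, -, -, hq⟩ := Ld.frob_q hφ
  have hfix := (IntermediateField.mem_fixingSubgroup_iff M φ).1 hφ.mem
  have hrR : r ∣ R := by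
    refine um_te (L := L) hr.ne hR fun z hz => ?_
    have h1 : z ∈ M := (hr.le.trans bot_le) (Ld.te_ur hz)
    have h2 := hq r hr.ne z hz
    rw [hfix z h1] at h2
    exact h2.symm
  refine ⟨R, hR, hrR, le_antisymm ?_ hRf.le⟩
  have hfU : FiniteDimensional K (L.Ur ⊥ R) := Ld.ur_fin ⊥ R hR
  obtain ⟨ψ, q', hψ⟩ := exists_frob L.toLf (L.Ur ⊥ R)
  have hRR : L.Rf (L.Ur ⊥ R) R := by
    obtain ⟨e, rfl⟩ := hrR
    exact Ld.rf_ur hr (right_ne_zero_of_mul hR)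
  rw [Ld.rf_frob hRR hψ] at hψ
  obtain ⟨-, -, -, hq'⟩ := Ld.frob_q hψ
  have hN : R * n₀ ≠ 0 := mul_ne_zero hR hn₀
  have hpw := um_pw (S := L.Te (R * n₀)) (fun z hz => by rw [hq _ hN z hz, hq' _ hN z hz])
    (fun z hz => Ld.te_act ψ hz)
  intro x hx
  refine mem_of_fix _ fun γ hγ => ?_
  obtain ⟨i, -, hi⟩ := (Ld.ur_cyc hψ hR hn₀).2 γ hγ
  have hγb : ∀ δ : Ω ≃ₐ[K] Ω, δ ∈ (⊥ : IntermediateField K Ω).fixingSubgroup := fun δ => by
    rw [IntermediateField.fixingSubgroup_bot]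
    trivial
  have h1 : (φ ^ i)⁻¹ * γ ∈ (L.Ur ⊥ (R * n₀)).fixingSubgroup := by
    rw [Ld.ur_fix (hγb _)]
    intro z hz
    have h2 := (IntermediateField.mem_fixingSubgroup_iff _ _).1 hi z (Ld.te_ur hz)
    have h3 : γ z = (ψ ^ i) z := by
      have h4 : γ = ψ ^ i * ((ψ ^ i)⁻¹ * γ) := by rw [mul_inv_cancel_left]
      rw [h4, AlgEquiv.mul_apply, h2]
    rw [AlgEquiv.mul_apply, h3, ← hpw i z hz, ← AlgEquiv.mul_apply, inv_mul_cancel,
      AlgEquiv.one_apply]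
  have h5 := (IntermediateField.mem_fixingSubgroup_iff _ _).1 h1 x
    ((hMn.trans (Ld.ur_dvd ⊥ (Nat.dvd_mul_left n₀ R))) hx)
  have h6 : (φ ^ i) x = x := (IntermediateField.mem_fixingSubgroup_iff M _).1
    (Subgroup.pow_mem _ hφ.mem i) x hx
  have h7 : γ = φ ^ i * ((φ ^ i)⁻¹ * γ) := by rw [mul_inv_cancel_left]
  rw [h7, AlgEquiv.mul_apply, h5, h6]

end um

variable {F : Type} [Field F] {K Ω : Type} [Field K] [CharZero K] [Field Ω] [Algebra K Ω]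
  [Algebra F K] [Algebra F Ω] [IsScalarTower F K Ω] [IsAlgClosure K Ω] {L : Ld K Ω} {V : Vr F}
  [Hf V] {σ B : Type} {P : B → (σ → Ω) → V.pt Ω} {π : Ω} {M M' : IntermediateField K Ω}

/-- **A displacement in the branches as a finite sum.** -/
theorem dsp_sum (hB : Bs L P) {k : ℕ} (hk : L.Rf (⊥ : IntermediateField K Ω) k) {t : ℝ}
    (ht : 0 ≤ t) {z : V.pt Ω →₀ ℤ} (hz : z ∈ Dsp L V (nb L P t) (⊥ : IntermediateField K Ω)) :
    ∃ (I : Type) (S : Finset I) (e : I → ℤ) (n : I → ℕ) (b : I → B) (h h' : I → σ → Ω),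
      (∀ a, n a ≠ 0 ∧ k ∣ n a ∧ Iv L (L.Ur ⊥ (n a)) (h a) ∧ Iv L (L.Ur ⊥ (n a)) (h' a) ∧
        ∀ r, L.nm (h' a r - h a r) ≤ t) ∧
      z = ∑ a ∈ S, e a • dvb P (L.Ur ⊥ (n a)) (b a) (h a) (h' a) := by
  classical
  rw [dsp_gen] at hz
  induction hz using AddSubgroup.closure_induction with
  | mem z hz =>
    obtain ⟨M', y, y', h1, h2, h3, h4, rfl⟩ := hz
    have hfd : FiniteDimensional K M' := h1.fd
    have hum : Um L M' := ⟨h1.2.choose, h1.2.choose_spec.1, h1.2.choose_spec.2⟩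
    obtain ⟨b, h, h', k1, k2, rfl, rfl, k3⟩ := hB.rat M' t _ _ ht h4 h2 h3
    obtain ⟨n, hn, hkn, rfl⟩ := um_ur hk hum
    refine ⟨Unit, {()}, fun _ => 1, fun _ => n, fun _ => b, fun _ => h', fun _ => h,
      fun _ => ⟨hn, hkn, k2, k1, k3⟩, ?_⟩
    rw [Finset.sum_singleton, one_smul]
    rfl
  | zero =>
    refine ⟨Empty, ∅, fun _ => 1, fun i => i.elim, fun i => i.elim, fun i => i.elim,
      fun i => i.elim, fun i => i.elim, ?_⟩
    rw [Finset.sum_empty]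
  | add z z' _ _ h h' =>
    obtain ⟨I, S, e, n, b, h, g, h1, rfl⟩ := h
    obtain ⟨I', S', e', n', b', h', g', h1', rfl⟩ := h'
    refine ⟨I ⊕ I', S.disjSum S', Sum.elim e e', Sum.elim n n', Sum.elim b b', Sum.elim h h',
      Sum.elim g g', ?_, ?_⟩
    · rintro (a | a)
      · exact h1 a
      · exact h1' a
    · rw [Finset.sum_disjSum]
      rfl
  | neg z _ h =>
    obtain ⟨I, S, e, n, b, h, g, h1, rfl⟩ := h
    refine ⟨I, S, fun i => - e i, n, b, h, g, h1, ?_⟩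
    rw [← Finset.sum_neg_distrib]
    exact Finset.sum_congr rfl fun a _ => by rw [neg_smul]

end GX
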