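import Pool.Agent.Lib.MP_f80667_ag.Ep.Gd
import Pool.Agent.Lib.MP_f80667_ag.Ep.Ge
import Pool.Agent.Lib.MP_f80667_ag.Ep.Gu
import Pool.Agent.Lib.MP_f80667_ag.Lc.G

/-!
The sums of the displacements in the branches (EP, 2.6).

* `Grp L X M w C`: `w b h x` are the values of the pull-backs of the invariant forms at the tangent vector `tt b h x` (`Grp.wv`); for `C t ≤ 1` the sum of a combination of displacements in the branches of size `t` is at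
  distance `≤ C t` of `0`, and it is `o +` the sum of the traces of the `w` up to `C t ^ 2` (`Grp.sum`).
* `exists_grp`: there are `w` and `C`.
* `Grp.small`: if the sum is `0`, the sum of the traces of the `w` has norm `≤ C t ^ 2`.
* `Grp.nc`: the sum of a displacement of size `t`. `vb_sum_zero`: a cycle of every level has the sum `0`.
-/

open ZC BE PE CV IntermediateField MvPolynomial

namespace GX

variable {F : Type} [Field F] {N N' k k' d m : ℕ} {ι ι' : Type} {f : ι → MvPolynomial (Fin N) F}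
  {A : Gv F N' k' ι'} {M : Mf f A k}
  {K Ω : Type} [Field K] [CharZero K] [Field Ω] [Algebra K Ω] [Algebra F K] [Algebra F Ω]
  [IsScalarTower F K Ω] [IsAlgClosure K Ω] {L : Ld K Ω} {X : Bd f K Ω d m} {π : Ω}
  {w : X.B → (Fin (d + 1) → Ω) → (Fin (d + 1) → Ω) → Fin N' → Ω} {C : ℝ}

/-- The constant for the sums of displacements in the branches; `w` are the values of the invariant forms. -/
structure Grp (L : Ld K Ω) (X : Bd f K Ω d m) (M : Mf f A k)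
    (w : X.B → (Fin (d + 1) → Ω) → (Fin (d + 1) → Ω) → Fin N' → Ω) (C : ℝ) : Prop where
  one : 1 ≤ C
  wv : ∀ (b : X.B) (h x : Fin (d + 1) → Ω), (∀ r, L.nm (h r) ≤ 1) →
    Wv M (X.xx L b h) (X.tt L b h x) (w b h x)
  sum : letI := A.G.grp Ω
    ∀ t : ℝ, 0 ≤ t → C * t ≤ 1 → ∀ (I : Type) (s : Finset I) (e : I → ℤ)
    (E : I → IntermediateField K Ω), (∀ i ∈ s, FiniteDimensional K (E i)) →
    ∀ (b : I → X.B) (h h' : I → Fin (d + 1) → Ω), (∀ i ∈ s, ∀ r, L.nm (h i r) ≤ 1) →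
    (∀ i ∈ s, ∀ r, L.nm (h' i r) ≤ 1) → (∀ i ∈ s, ∀ r, L.nm (h' i r - h i r) ≤ t) →
    Ltc L A (C * t) (C * (t * t)) (M.S Ω (∑ i ∈ s, e i • dvb X.P (E i) (b i) (h i) (h' i)))
      (∑ i ∈ s, e i • fun l => Nm (K := K) ⊥ (E i) (w (b i) (h i) (fun r => h' i r - h i r) l))

/-- **The sums of the displacements in the branches.** -/
theorem exists_grp (hX : X.Ok L) (hA : A.Ok) (hM : M.Ok) : ∃ w C, Grp L X M w C := by
  classical
  have hal : IsAlgClosed Ω := IsAlgClosure.isAlgClosed K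
  let _ : AddCommGroup ((Xf A.a).pt Ω) := A.G.grp Ω
  have hB : 1 ≤ X.ε⁻¹ := (one_le_inv₀ hX.ε0).2 hX.ε1.le
  obtain ⟨κ, hκ, hden⟩ := exists_den (M := M) L hA hM hB (pow_pos hX.ε0 2)
  obtain ⟨C, hC⟩ := exists_smc L hA hM hB hκ
  have h1 : ∀ (b : X.B) (h : Fin (d + 1) → Ω), ∃ j : Fin (k * N' * k'),
      (∀ r, L.nm (h r) ≤ 1) → κ ≤ L.nm (aeval (X.xx L b h) (M.om.c j)) := by
    intro b h
    by_cases hh : ∀ r, L.nm (h r) ≤ 1
    · obtain ⟨j, hj⟩ := hden (X.P b h) (X.xx L b h) (hX.xx_co b hh) (hX.xx_le b hh)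
        (hX.xx_ge b hh)
      exact ⟨j, fun _ => hj⟩
    · obtain ⟨P, hP⟩ : ∃ P : (Xf f).pt Ω, P = X.P b fun _ => 0 := ⟨_, rfl⟩
      obtain ⟨x, hx⟩ := exists_co P
      obtain ⟨j, -⟩ := exists_om_ne L hA hM hx
      exact ⟨j, fun h2 => absurd h2 hh⟩
  choose j hj using h1
  refine ⟨fun b h x l => (∑ n, aeval (X.xx L b h) (M.om.q (j b h) l n) * X.tt L b h x n) /
    aeval (X.xx L b h) (M.om.c (j b h)), C, hC.one, fun b h x hh => ?_, ?_⟩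
  · have hc : aeval (X.xx L b h) (M.om.c (j b h)) ≠ 0 := L.ne_zero (hκ.trans_le (hj b h hh))
    exact ⟨j b h, hc, fun l => mul_div_cancel₀ _ hc⟩
  · change ∀ t : ℝ, 0 ≤ t → _
    intro t ht hCt I s e E hE b h h' hh hh' hd
    have ht1 : t ≤ 1 := (le_mul_of_one_le_left ht hC.one).trans hCt
    exact hC.sum t ht hCt I s e E hE (fun i => X.P (b i) (h i)) (fun i => X.P (b i) (h' i))
      (fun i => X.xx L (b i) (h i)) (fun i => X.xx L (b i) (h' i))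
      (fun i => X.tt L (b i) (h i) fun r => h' i r - h i r)
      (fun i hi => hX.xx_co _ (hh i hi)) (fun i hi => hX.xx_co _ (hh' i hi))
      (fun i hi => hX.xx_le _ (hh i hi)) (fun i hi => hX.xx_le _ (hh' i hi))
      (fun i hi n => (hX.tan (b i) (hh i hi) (hh' i hi) ht ht1 (hd i hi) n).1)
      (fun i hi n => (hX.tan (b i) (hh i hi) (hh' i hi) ht ht1 (hd i hi) n).2)
      (fun i => j (b i) (h i)) (fun i hi => hj _ _ (hh i hi)) _
      (fun i hi l => mul_div_cancel₀ _ (L.ne_zero (hκ.trans_le (hj _ _ (hh i hi)))))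

/-- **If the sum is `0`, the sum of the traces of the values of the forms is small.** -/
theorem Grp.small (hA : A.Ok) (hG : Grp L X M w C) {t : ℝ} (ht : 0 ≤ t) (hCt : C * t ≤ 1)
    {I : Type} (s : Finset I) (e : I → ℤ) (E : I → IntermediateField K Ω)
    (hE : ∀ i ∈ s, FiniteDimensional K (E i)) (b : I → X.B) (h h' : I → Fin (d + 1) → Ω)
    (hh : ∀ i ∈ s, ∀ r, L.nm (h i r) ≤ 1) (hh' : ∀ i ∈ s, ∀ r, L.nm (h' i r) ≤ 1)
    (hd : ∀ i ∈ s, ∀ r, L.nm (h' i r - h i r) ≤ t)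
    (h0 : letI := A.G.grp Ω
      M.S Ω (∑ i ∈ s, e i • dvb X.P (E i) (b i) (h i) (h' i)) = 0) (l : Fin N') :
    L.nm (∑ i ∈ s, e i • Nm (K := K) ⊥ (E i)
      (w (b i) (h i) (fun r => h' i r - h i r) l)) ≤ C * (t * t) := by
  let _ : AddCommGroup ((Xf A.a).pt Ω) := A.G.grp Ω
  have hC : 0 ≤ C := zero_le_one.trans hG.one
  have h1 : Ltc L A (C * t) (C * (t * t))
      (M.S Ω (∑ i ∈ s, e i • dvb X.P (E i) (b i) (h i) (h' i)))
      (∑ i ∈ s, e i • fun l => Nm (K := K) ⊥ (E i)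
        (w (b i) (h i) (fun r => h' i r - h i r) l)) :=
    hG.sum t ht hCt I s e E hE b h h' hh hh' hd
  rw [h0] at h1
  have h2 := ltc_uniq h1 (ltc_zero hA (mul_nonneg hC ht)
    (mul_nonneg hC (mul_nonneg ht ht))) l
  rw [Pi.zero_apply, sub_zero, Finset.sum_apply] at h2
  exact h2

/-- The sum of a displacement in the branches of size `t`. -/
theorem Grp.nc (hB : Bs L X.P) (hG : Grp L X M w C) {t : ℝ} (ht : 0 ≤ t) (hCt : C * t ≤ 1)
    {z : (Xf f).pt Ω →₀ ℤ} (hz : z ∈ Dsp L (Xf f) (nb L X.P t) (⊥ : IntermediateField K Ω)) :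
    letI := A.G.grp Ω; ∃ y, Nc L A (C * t) (M.S Ω z) y := by
  let _ : AddCommGroup ((Xf A.a).pt Ω) := A.G.grp Ω
  change ∃ y, Nc L A (C * t) (M.S Ω z) y
  obtain ⟨φ, q, hφ⟩ := exists_frob L.toLf (⊥ : IntermediateField K Ω)
  obtain ⟨r₀, hr0, hrq, -⟩ := Ld.frob_q hφ
  rw [hrq] at hφ
  obtain ⟨hr1, hr2⟩ := Ld.frob_te hφ
  have hr₀ : L.Rf ⊥ r₀ := ⟨hr0, sup_le le_rfl (adjoin_le_iff.2 fun z hz => hr2 z hz), hr1⟩
  obtain ⟨I, S, e, n, b, h, h', h1, rfl⟩ := dsp_sum hB hr₀ ht hz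
  obtain ⟨y, hy, -⟩ := hG.sum t ht hCt I S e (fun a => L.Ur ⊥ (n a))
    (fun a _ => Ld.ur_fin ⊥ (n a) (h1 a).1) b h h' (fun a _ r => ((h1 a).2.2.1 r).2)
    (fun a _ r => ((h1 a).2.2.2.1 r).2) (fun a _ => (h1 a).2.2.2.2)
  exact ⟨y, hy⟩

/-- The sum of a cycle of level `n`. -/
theorem Grp.vb (hf : Hm f) (hB : Bs L X.P) (hA : A.Ok) (hM : M.Ok) (hG : Grp L X M w C)
    {n : ℕ} (hn : C * L.nm π ^ n ≤ 1) {z : (Xf f).pt Ω →₀ ℤ} (hz : z ∈ Vb L X.P π n) :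
    letI := A.G.grp Ω; ∃ y, Nc L A (C * L.nm π ^ n) (M.S Ω z) y := by
  let _ : AddCommGroup ((Xf A.a).pt Ω) := A.G.grp Ω
  change ∃ y, Nc L A (C * L.nm π ^ n) (M.S Ω z) y
  obtain ⟨a, ha, r, hr, rfl⟩ := AddSubgroup.mem_sup.1 hz
  obtain ⟨y, hy⟩ := hG.nc hB (pow_nonneg (L.nonneg _) n) hn ha
  refine ⟨y, ?_⟩
  rw [map_add, RS.rs (K := K) hf hA hM hr, add_zero]
  exact hy

/-- **A cycle of every level has the sum `0`.** -/
theorem vb_sum_zero (hf : Hm f) (hX : X.Ok L) (hB : Bs L X.P) (hA : A.Ok) (hM : M.Ok)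
    (hπ : Uf L π) {z : (Xf f).pt Ω →₀ ℤ} (hz : ∀ n, z ∈ Vb L X.P π n) :
    letI := A.G.grp Ω; M.S Ω z = 0 := by
  let _ : AddCommGroup ((Xf A.a).pt Ω) := A.G.grp Ω
  change M.S Ω z = 0
  obtain ⟨w, C, hG⟩ := exists_grp (M := M) hX hA hM
  have hC0 : 0 < C := zero_lt_one.trans_le hG.one
  have hsm : ∀ ε : ℝ, 0 < ε → ∃ n : ℕ, C * L.nm π ^ n ≤ ε := by
    intro ε hε
    obtain ⟨n, hn⟩ := exists_pow_lt_of_lt_one (div_pos hε hC0) hπ.lt
    refine ⟨n, ?_⟩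
    rw [lt_div_iff₀ hC0, mul_comm] at hn
    exact hn.le
  obtain ⟨n₁, hn₁⟩ := hsm 1 zero_lt_one
  obtain ⟨y, hy⟩ := hG.vb hf hB hA hM hn₁ (hz n₁)
  refine nc_eq (z := y) (L := L) hA ⟨hy.1, hy.2.1, fun j => ?_⟩
  refine le_of_forall_pos_le_add fun ε hε => ?_
  rw [zero_add]
  obtain ⟨n₂, hn₂⟩ := hsm ε hε
  have hmono : ∀ {a b : ℕ}, a ≤ b → C * L.nm π ^ b ≤ C * L.nm π ^ a := fun h =>
    mul_le_mul_of_nonneg_left (hπ.pow_le h) hC0.le
  obtain ⟨y', hy'⟩ := hG.vb hf hB hA hM ((hmono (le_max_left n₁ n₂)).trans hn₁)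
    (hz (max n₁ n₂))
  obtain rfl := hy.uniq hy'
  exact (hy'.2.2 j).trans ((hmono (le_max_right n₁ n₂)).trans hn₂)

/-- **Torsion**: if a multiple of a cycle of a high level has the sum `0`, so has the cycle. -/
theorem exists_vb_tor (hf : Hm f) (hX : X.Ok L) (hB : Bs L X.P) (hA : A.Ok) (hM : M.Ok)
    (hπ : Uf L π) {q : ℤ} (hq : q ≠ 0) :
    letI := A.G.grp Ω
    ∃ n₀ : ℕ, ∀ (n : ℕ) (z : (Xf f).pt Ω →₀ ℤ), n₀ ≤ n → z ∈ Vb L X.P π n →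
      q • M.S Ω z = 0 → M.S Ω z = 0 := by
  let _ : AddCommGroup ((Xf A.a).pt Ω) := A.G.grp Ω
  have hc : CharZero Ω := charZero_of_injective_algebraMap (algebraMap K Ω).injective
  change ∃ n₀ : ℕ, ∀ (n : ℕ) (z : (Xf f).pt Ω →₀ ℤ), n₀ ≤ n → z ∈ Vb L X.P π n →
      q • M.S Ω z = 0 → M.S Ω z = 0
  obtain ⟨w, C, hG⟩ := exists_grp (M := M) hX hA hM
  have hC0 : 0 < C := zero_lt_one.trans_le hG.one
  obtain ⟨t₀, ht₀, htor⟩ := exists_tor L hA (q := q) (Int.cast_ne_zero.2 hq)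
  obtain ⟨n₀, hn₀⟩ := exists_pow_lt_of_lt_one (div_pos (lt_min zero_lt_one ht₀) hC0) hπ.lt
  rw [lt_div_iff₀ hC0, mul_comm] at hn₀
  refine ⟨n₀, fun n z hn hz h => ?_⟩
  have h1 : C * L.nm π ^ n ≤ min 1 t₀ :=
    (mul_le_mul_of_nonneg_left (hπ.pow_le hn) hC0.le).trans hn₀.le
  obtain ⟨y, hy⟩ := hG.vb hf hB hA hM (h1.trans (min_le_left _ _)) hz
  exact htor _ y ⟨hy.1, hy.2.1, fun j => (hy.2.2 j).trans (h1.trans (min_le_right _ _))⟩ h

end GX
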