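import Pool.Agent.Lib.MP_f80667_ag.Ep.Cc
import Pool.Agent.Lib.MP_f80667_ag.Ep.Ca
import Pool.Agent.Lib.MP_f80667_ag.Ep.C
import Pool.Agent.Lib.MP_f80667_ag.Cv.EtV

/-!
The finiteness of `V n / V (n + 1)` without functionals (EP, section 4): definitions.

* `Kp P π n W M b h x`: all traces of `[P (h + π ^ n τ x)] - [P h]`, `τ` in the integers of `M`, are in `W`. `Ko`: for all unramified `M` over which `h`, `x` are.
* `gd P π n M b h w x`: the difference of the displacements by `π ^ n x` at `h + π w` and at `h`.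
* `Qg`: all `gd h (e_s) (τ e_t)` are in `W`.
* `Us L S`: the elements of `S` are unit separated. `Crm`: the relation of the curves modulo `V (n + 1)`, in each branch alone.
* `Gq L D t Q`: the property `Q` of points depends only on the residues and extends along arcs in the direction `e_t`.
-/

open ZC BE PE CV IntermediateField Polynomial

namespace GX

variable {F : Type} [Field F] {K Ω : Type} [Field K] [Field Ω] [Algebra K Ω] [Algebra F K]
  [Algebra F Ω] [IsScalarTower F K Ω] (L : Ld K Ω) {V : Vr F} [Hf V] {σ B : Type}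
  (P : B → (σ → Ω) → V.pt Ω) (π : Ω) (n : ℕ) (W : AddSubgroup (V.pt Ω →₀ ℤ))

/-- All traces of `[P (h + π ^ n τ x)] - [P h]` over `M` are in `W`. -/
def Kp (M : IntermediateField K Ω) (b : B) (h x : σ → Ω) : Prop :=
  ∀ τ ∈ M, L.nm τ ≤ 1 → dvb P M b h (h + (π ^ n * τ) • x) ∈ W

/-- The same for all unramified `M`. -/
def Ko (b : B) (h x : σ → Ω) : Prop :=
  ∀ M : IntermediateField K Ω, Um L M → Iv L M h → Iv L M x → Kp L P π n W M b h x

/-- The difference of the displacements by `π ^ n x` at `h + π w` and at `h`. -/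
noncomputable def gd (M : IntermediateField K Ω) (b : B) (h w x : σ → Ω) : V.pt Ω →₀ ℤ :=
  dvb P M b (h + π • w) (h + π • w + π ^ n • x) - dvb P M b h (h + π ^ n • x)

/-- All `gd h (e_s) (τ e_t)` are in `W`. -/
def Qg [DecidableEq σ] (b : B) (s t : σ) (h : σ → Ω) : Prop :=
  ∀ M : IntermediateField K Ω, Um L M → Iv L M h → ∀ τ ∈ M, L.nm τ ≤ 1 →
    gd P π n M b h (Pi.single s 1) (Pi.single t τ) ∈ W

/-- The elements of `S` are unit separated. -/
def Us (S : Finset Ω) : Prop := ∀ c ∈ S, ∀ c' ∈ S, c ≠ c' → L.nm (c - c') = 1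

/-- The relation of the curves modulo `V (n + 1)`. -/
def Crm (D ρ : ℕ) : Prop :=
  ∀ M : IntermediateField K Ω, Um L M → ∀ β : σ → Polynomial Ω, Arc L M β →
    (∀ i, (β i).natDegree ≤ ρ) → ∀ (b : B) (S : Finset Ω), (∀ c ∈ S, c ∈ M ∧ L.nm c ≤ 1) →
      Us L S → D * ρ < S.card → ∀ τ ∈ M, L.nm τ ≤ 1 →
        ∑ c ∈ S, dvb P M b (fun i => (β i).eval c) (fun i => (β i).eval c +
          π ^ n * (τ / (derivative (∏ c ∈ S, (X - C c))).eval c) *
            (derivative (β i)).eval c) ∈ Vb L P π (n + 1)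

/-- The property `Q` depends only on the residues and extends along arcs in the direction `e_t`. -/
structure Gq [DecidableEq σ] (D : ℕ) (t : σ) (Q : (σ → Ω) → Prop) : Prop where
  near : ∀ M : IntermediateField K Ω, Um L M → ∀ h h' : σ → Ω, Iv L M h → Iv L M h' →
    (∀ i, L.nm (h i - h' i) < 1) → Q h → Q h'
  arc : ∀ M : IntermediateField K Ω, Um L M → ∀ β : σ → Polynomial Ω, Arc L M β →
    (∀ i, (β i).natDegree ≤ L.p) → (∀ z : Ω, L.nm z ≤ 1 → ∀ i,
      L.nm ((derivative (β i)).eval z - (Pi.single t 1 : σ → Ω) i) < 1) →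
        ∀ S : Finset Ω, (∀ c ∈ S, c ∈ M ∧ L.nm c ≤ 1) → Us L S → D ≤ S.card →
          (∀ c ∈ S, Q fun i => (β i).eval c) → ∀ z ∈ M, L.nm z ≤ 1 → Q fun i => (β i).eval z

end GX
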