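import Pool.Agent.Lib.MP_f80667_ag.Ep.K

/-! `Ko` does not depend on the field; sums and multiples. -/

open ZC BE PE CV IntermediateField Polynomial

namespace GX

variable {F : Type} [Field F] {K Ω : Type} [Field K] [CharZero K] [Field Ω] [Algebra K Ω]
  [Algebra F K] [Algebra F Ω] [IsScalarTower F K Ω] [IsAlgClosure K Ω] {L : Ld K Ω} {V : Vr F}
  [Hf V] {σ B : Type} {P : B → (σ → Ω) → V.pt Ω} {π : Ω} {M M' : IntermediateField K Ω}
  {b : B} {h h' x x' : σ → Ω} {n v : ℕ} {W : AddSubgroup (V.pt Ω →₀ ℤ)}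

/-- The composite of unramified fields (`Um`). Proof: `Ur ⊥ N`, `Ur ⊥ N'` are in `Ur ⊥ (N N')` (`Ld.ur_dvd`). -/
theorem um_sup (h : Um L M) (h' : Um L M') : Um L (M ⊔ M') := by
  obtain ⟨N, hN, hM⟩ := h
  obtain ⟨N', hN', hM'⟩ := h'
  exact ⟨N * N', Nat.mul_ne_zero hN hN', sup_le (hM.trans (Ld.ur_dvd _ (Nat.dvd_mul_right N N')))
    (hM'.trans (Ld.ur_dvd _ (Nat.dvd_mul_left N' N)))⟩

/-- A Galois-invariant form: `M ≤ M'` unramified over `K`. Proof: `Em` from `Um` (`Ld.ur_mono`), `Em.tr`: the trace from the integers of `M'` to the integers of `M` is onto. -/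
theorem um_tr (hM : Um L M) (hM' : Um L M') (hle : M ≤ M') {τ : Ω} (hτ : τ ∈ M)
    (hτ1 : L.nm τ ≤ 1) : ∃ a ∈ M', L.nm a ≤ 1 ∧ Nm M M' a = τ := by
  have hfd : FiniteDimensional K M := hM.fd
  obtain ⟨N, hN, hN'⟩ := hM'
  obtain ⟨a, h1, h2, h3⟩ := (show Em L M M' from
    ⟨hle, N, hN, hN'.trans (Ld.ur_mono bot_le N)⟩).tr hτ
  exact ⟨a, h1, h2.trans hτ1, h3⟩

/-- The trace of an integer of `M'` is an integer of `M`. -/
theorem um_nm (hM' : Um L M') (hle : M ≤ M') {a : Ω} (ha : a ∈ M') (ha1 : L.nm a ≤ 1) :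
    Nm M M' a ∈ M ∧ L.nm (Nm M M' a) ≤ 1 := by
  have hfd' : FiniteDimensional K M' := hM'.fd
  refine ⟨fx_mem.1 (nm_fx hle (fx_mem.2 ha)), ?_⟩
  obtain ⟨s', -, -, -, h₃⟩ := nm_rep hle
  rw [h₃ Ω a]
  refine L.sum_le _ _ zero_le_one fun γ _ => ?_
  change L.nm (γ a) ≤ _
  rw [L.act]
  exact ha1

/-- The trace is linear over `M`. -/
private theorem ka_mul (hM' : Um L M') (hle : M ≤ M') {c a : Ω} (hc : c ∈ M) :
    Nm M M' (c * a) = c * Nm M M' a := by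
  have hfd' : FiniteDimensional K M' := hM'.fd
  obtain ⟨s', -, h₁, -, h₃⟩ := nm_rep hle
  rw [h₃ Ω (c * a), h₃ Ω a, Finset.mul_sum]
  refine Finset.sum_congr rfl fun γ hγ => ?_
  change γ (c * a) = c * γ a
  rw [map_mul, (IntermediateField.mem_fixingSubgroup_iff M γ).1 (h₁ γ hγ) c hc]

/-- **K1.** Proof: `M'' = M ⊔ M'`. From `M` to `M''`: `dv_norm` with `a = π ^ n τ` (the trace of `π ^ n τ` is `π ^ n` times the trace of `τ`), `um_nm`. From `M''` to `M'`: `dv_norm` and `um_tr`. -/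
theorem ko_of (hB : Bs L P) (hπ : Uf L π) (hn : n ≠ 0) (hW : Vb L P π (n + 1) ≤ W)
    (hM : Um L M) (hh : Iv L M h) (hx : Iv L M x) (hk : Kp L P π n W M b h x) :
    Ko L P π n W b h x := by
  intro M' hM' hh' hx' τ hτ hτ1
  have hM'' : Um L (M ⊔ M') := um_sup hM hM'
  have hvb : Vb L P π (2 * n) ≤ W := (vb_anti hπ (by omega)).trans hW
  have hcM : π ^ n ∈ M := pow_mem (hπ.mem M) n
  have hcM' : π ^ n ∈ M' := pow_mem (hπ.mem M') n
  obtain ⟨a, ha, ha1, haτ⟩ := um_tr hM' hM'' le_sup_right hτ hτ1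
  obtain ⟨hb, hb1⟩ := um_nm hM'' (le_sup_left : M ≤ M ⊔ M') ha ha1
  have hca : π ^ n * a ∈ M ⊔ M' := mul_mem (pow_mem (hπ.mem _) n) ha
  have hca1 : L.nm (π ^ n * a) ≤ L.nm π ^ n := by
    rw [L.mul, L.pow]
    exact mul_le_of_le_one_right (pow_nonneg (L.nonneg _) _) ha1
  have k1 := hvb (dv_norm hB hπ hM hM'' le_sup_left (b := b) hh hx hca hn hca1)
  have k2 := hvb (dv_norm hB hπ hM' hM'' le_sup_right (b := b) hh' hx' hca hn hca1)
  rw [ka_mul hM'' le_sup_left hcM] at k1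
  rw [ka_mul hM'' le_sup_right hcM', haτ] at k2
  have k3 := hk _ hb hb1
  have k4 := sub_mem (add_mem k1 k3) k2
  rw [sub_add_cancel, sub_sub_cancel] at k4
  exact k4

end GX
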