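import Pool.Agent.Lib.MP_f80667_ag.Ep.Ka

/-! `Ko` does not depend on the field; sums and multiples. -/

open ZC BE PE CV IntermediateField Polynomial

namespace GX

variable {F : Type} [Field F] {K Ω : Type} [Field K] [CharZero K] [Field Ω] [Algebra K Ω]
  [Algebra F K] [Algebra F Ω] [IsScalarTower F K Ω] [IsAlgClosure K Ω] {L : Ld K Ω} {V : Vr F}
  [Hf V] {σ B : Type} {P : B → (σ → Ω) → V.pt Ω} {π : Ω} {M M' : IntermediateField K Ω}
  {b : B} {h h' x x' : σ → Ω} {n v : ℕ} {W : AddSubgroup (V.pt Ω →₀ ℤ)}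

omit [CharZero K] [IsAlgClosure K Ω] in
private theorem ka1_iv (hπ : Uf L π) (hx : Iv L M x) {τ : Ω} (hτ : τ ∈ M) (hτ1 : L.nm τ ≤ 1) :
    Iv L M ((π ^ n * τ) • x) ∧ ∀ i, L.nm (((π ^ n * τ) • x) i) ≤ L.nm π ^ n := by
  have h1 : ∀ i, L.nm (((π ^ n * τ) • x) i) ≤ L.nm π ^ n := by
    intro i
    rw [Pi.smul_apply, smul_eq_mul, L.mul, L.mul, L.pow]
    exact (mul_le_of_le_one_right (mul_nonneg (pow_nonneg (L.nonneg _) _) (L.nonneg _))
      (hx i).2).trans (mul_le_of_le_one_right (pow_nonneg (L.nonneg _) _) hτ1)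
  exact ⟨fun i => ⟨mul_mem (mul_mem (pow_mem (hπ.mem M) n) hτ) (hx i).1,
    (h1 i).trans (pow_le_one₀ (L.nonneg _) hπ.lt.le)⟩, h1⟩

private theorem ka1_add (hx : Iv L M x) (hx' : Iv L M x') : Iv L M (x + x') := fun i =>
  ⟨add_mem (hx i).1 (hx' i).1, (L.add _ _).trans (max_le (hx i).2 (hx' i).2)⟩

private theorem ka1_zero (hB : Bs L P) (hπ : Uf L π) (hn : n ≠ 0)
    (hW : Vb L P π (n + 1) ≤ W) (hM : Um L M) (hh : Iv L M h) : Ko L P π n W b h 0 := by
  refine ko_of hB hπ hn hW hM hh (fun i => ⟨zero_mem M, ?_⟩) fun τ hτ hτ1 => ?_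
  · rw [Pi.zero_apply, L.zero]
    exact zero_le_one
  · rw [smul_zero, add_zero, dv_self]
    exact zero_mem W

/-- Proof: `dv_four` with `π ^ n τ x`, `π ^ n τ x'` (level `2 (n - v) ≥ n + 1`), `ko_of`. -/
theorem ko_add (hB : Bs L P) (hπ : Uf L π) (hv : L.nm (2 : Ω) = L.nm π ^ v)
    (hn : 2 * v + 1 ≤ n) (hW : Vb L P π (n + 1) ≤ W) (hM : Um L M) (hh : Iv L M h)
    (hx : Iv L M x) (hx' : Iv L M x') (h1 : Ko L P π n W b h x) (h2 : Ko L P π n W b h x') :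
    Ko L P π n W b h (x + x') := by
  refine ko_of hB hπ (by omega) hW hM hh (ka1_add hx hx') fun τ hτ hτ1 => ?_
  obtain ⟨u1, u2⟩ := ka1_iv (n := n) hπ hx hτ hτ1
  obtain ⟨u1', u2'⟩ := ka1_iv (n := n) hπ hx' hτ hτ1
  have k := hW (vb_anti hπ (by omega : n + 1 ≤ 2 * (n - v))
    (dv_four hB hπ hM (b := b) hh u1 u1' hv (by omega) u2 u2'))
  have k1 := h1 M hM hh hx τ hτ hτ1
  have k2 := h2 M hM hh hx' τ hτ hτ1
  have k3 := add_mem (add_mem k k2) k1
  rw [sub_add_cancel, sub_add_cancel, add_assoc, ← smul_add] at k3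
  exact k3

theorem ko_smul (hB : Bs L P) (hπ : Uf L π) (hn : n ≠ 0) (hW : Vb L P π (n + 1) ≤ W)
    (hM : Um L M) (hh : Iv L M h) (hx : Iv L M x) {a : Ω} (ha : a ∈ M) (ha1 : L.nm a ≤ 1)
    (h1 : Ko L P π n W b h x) : Ko L P π n W b h (a • x) := by
  refine ko_of hB hπ hn hW hM hh (fun i => ⟨mul_mem ha (hx i).1, ?_⟩) fun τ hτ hτ1 => ?_
  · rw [Pi.smul_apply, smul_eq_mul, L.mul]
    exact mul_le_one₀ ha1 (L.nonneg _) (hx i).2
  · have k := h1 M hM hh hx (τ * a) (mul_mem hτ ha) (by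
      rw [L.mul]
      exact mul_le_one₀ hτ1 (L.nonneg _) ha1)
    rw [← mul_assoc, mul_smul] at k
    exact k

/-- Directions which are congruent modulo `π`. Proof: `dv_add`, `dv_mem` (the difference is `π ^ n τ (x' - x)`, of level `n + 1`: `Uf.um_lt`). -/
theorem ko_close (hB : Bs L P) (hπ : Uf L π) (hn : n ≠ 0) (hW : Vb L P π (n + 1) ≤ W)
    (hM : Um L M) (hh : Iv L M h) (hx : Iv L M x) (hx' : Iv L M x')
    (hc : ∀ i, L.nm (x i - x' i) < 1) (h1 : Ko L P π n W b h x) : Ko L P π n W b h x' := by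
  have hfd : FiniteDimensional K M := hM.fd
  refine ko_of hB hπ hn hW hM hh hx' fun τ hτ hτ1 => ?_
  obtain ⟨u1, -⟩ := ka1_iv (n := n) hπ hx hτ hτ1
  obtain ⟨u1', -⟩ := ka1_iv (n := n) hπ hx' hτ hτ1
  rw [← dv_add b h (h + (π ^ n * τ) • x) (h + (π ^ n * τ) • x')]
  refine add_mem (h1 M hM hh hx τ hτ hτ1) (hW (dv_mem hB hM (ka1_add hh u1) (ka1_add hh u1')
    fun i => ?_))
  have e : (h + (π ^ n * τ) • x') i - (h + (π ^ n * τ) • x) i =
      π ^ n * τ * (x' i - x i) := by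
    simp only [Pi.add_apply, Pi.smul_apply, smul_eq_mul]
    ring
  rw [e, L.mul, L.mul, L.pow, pow_succ]
  refine mul_le_mul (mul_le_of_le_one_right (pow_nonneg (L.nonneg _) _) hτ1) ?_ (L.nonneg _)
    (pow_nonneg (L.nonneg _) _)
  rw [L.sub_comm]
  exact hπ.um_lt hM (sub_mem (hx i).1 (hx' i).1) (hc i)

/-- Proof: `ko_add`, `ko_smul`, `ko_close` by induction over the finitely many coordinates; `x = ∑ x_t e_t`. -/
theorem ko_basis [Finite σ] [DecidableEq σ] (hB : Bs L P) (hπ : Uf L π)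
    (hv : L.nm (2 : Ω) = L.nm π ^ v) (hn : 2 * v + 1 ≤ n) (hW : Vb L P π (n + 1) ≤ W)
    (hM : Um L M) (hh : Iv L M h) (hx : Iv L M x)
    (h1 : ∀ t, Ko L P π n W b h (Pi.single t 1)) : Ko L P π n W b h x := by
  have := Fintype.ofFinite σ
  have hn0 : n ≠ 0 := by omega
  have he : ∀ t, Iv L M (Pi.single t 1 : σ → Ω) := by
    intro t i
    by_cases hi : i = t
    · subst hi
      rw [Pi.single_eq_same, L.one]
      exact ⟨one_mem M, le_rfl⟩
    · rw [Pi.single_eq_of_ne hi, L.zero]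
      exact ⟨zero_mem M, zero_le_one⟩
  have hs : ∀ t, Iv L M (x t • (Pi.single t 1 : σ → Ω)) := by
    intro t i
    rw [Pi.smul_apply, smul_eq_mul, L.mul]
    exact ⟨mul_mem (hx t).1 (he t i).1, mul_le_one₀ (hx t).2 (L.nonneg _) (he t i).2⟩
  have key : ∀ s : Finset σ, Iv L M (∑ t ∈ s, x t • (Pi.single t 1 : σ → Ω)) ∧
      Ko L P π n W b h (∑ t ∈ s, x t • (Pi.single t 1 : σ → Ω)) := by
    intro s
    induction s using Finset.induction_on with
    | empty =>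
      rw [Finset.sum_empty]
      refine ⟨fun i => ⟨zero_mem M, ?_⟩, ka1_zero hB hπ hn0 hW hM hh⟩
      rw [Pi.zero_apply, L.zero]
      exact zero_le_one
    | insert a s ha ih =>
      rw [Finset.sum_insert ha]
      exact ⟨ka1_add (hs a) ih.1, ko_add hB hπ hv hn hW hM hh (hs a) ih.1
        (ko_smul hB hπ hn0 hW hM hh (he a) (hx a).1 (hx a).2 (h1 a)) ih.2⟩
  have e : ∑ t, x t • (Pi.single t 1 : σ → Ω) = x := by
    funext i
    rw [Finset.sum_apply, Finset.sum_eq_single i]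
    · rw [Pi.smul_apply, Pi.single_eq_same, smul_eq_mul, mul_one]
    · intro t _ hti
      rw [Pi.smul_apply, Pi.single_eq_of_ne hti.symm, smul_zero]
    · intro hi
      exact absurd (Finset.mem_univ i) hi
  have := (key Finset.univ).2
  rwa [e] at this

end GX
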