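import Pool.Agent.Lib.MP_f80667_ag.Ep.K
import Pool.Agent.Lib.MP_f80667_ag.Lv.Kf
import Pool.Agent.Lib.MP_f80667_ag.Gm.GlF

/-! The difference `gd` modulo `V (n + 1)`. -/

open ZC BE PE CV IntermediateField Polynomial

namespace GX

variable {F : Type} [Field F] {K Ω : Type} [Field K] [CharZero K] [Field Ω] [Algebra K Ω]
  [Algebra F K] [Algebra F Ω] [IsScalarTower F K Ω] [IsAlgClosure K Ω] {L : Ld K Ω} {V : Vr F}
  [Hf V] {σ B : Type} {P : B → (σ → Ω) → V.pt Ω} {π : Ω} {M M' : IntermediateField K Ω}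
  {b : B} {h h' x x' : σ → Ω} {n v : ℕ} {W : AddSubgroup (V.pt Ω →₀ ℤ)}

/-- The displacements at the points congruent to `h` modulo `π`, as a function on the integral vectors, satisfy `Dfc`. Proof: `dv_four` (level `2 (n - v) ≥ n + 1`), `dv_par` (levels `1` and `n`). -/
theorem Bs.dfc (hB : Bs L P) (hπ : Uf L π) (hv : L.nm (2 : Ω) = L.nm π ^ v)
    (hn : 2 * v + 1 ≤ n) (hM : Um L M) (hh : Iv L M h) (b : B) :
    Dfc (OM L M) fun w g : σ → OM L M =>
      (QuotientAddGroup.mk (dvb P M b (fun i => h i + π * GM.om L M (w i)) fun i =>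
        h i + π * GM.om L M (w i) + π ^ n * GM.om L M (g i)) :
          (V.pt Ω →₀ ℤ) ⧸ Vb L P π (n + 1)) := by
  have hle : Vb L P π (2 * (n - v)) ≤ Vb L P π (n + 1) := vb_anti hπ (by omega)
  have hle' : Vb L P π (1 + n) ≤ Vb L P π (n + 1) := by rw [add_comm]
  have hw : ∀ w : σ → OM L M, Iv L M fun i => h i + π * GM.om L M (w i) := by
    intro w i
    refine ⟨add_mem (hh i).1 (mul_mem (hπ.mem M) (GM.om_mem _)),
      (L.add _ _).trans (max_le (hh i).2 ?_)⟩
    rw [L.mul]
    exact mul_le_one₀ hπ.lt.le (L.nonneg _) (GM.om_le _)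
  have hg1 : ∀ (g : σ → OM L M) i, L.nm (π ^ n * GM.om L M (g i)) ≤ L.nm π ^ n := by
    intro g i
    rw [L.mul, L.pow]
    exact mul_le_of_le_one_right (pow_nonneg (L.nonneg _) _) (GM.om_le _)
  have hg : ∀ g : σ → OM L M, Iv L M fun i => π ^ n * GM.om L M (g i) := fun g i =>
    ⟨mul_mem (pow_mem (hπ.mem M) n) (GM.om_mem _),
      (hg1 g i).trans (pow_le_one₀ (L.nonneg _) hπ.lt.le)⟩
  refine ⟨fun w g g' => ?_, fun w g c => ?_⟩
  · have k := hle (dv_four hB hπ hM (b := b) (hw w) (hg g) (hg g') hv (by omega) (hg1 g) (hg1 g'))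
    have e1 : (fun i => h i + π * GM.om L M (w i) + π ^ n * GM.om L M ((g + g') i)) =
        (fun i => h i + π * GM.om L M (w i)) + (fun i => π ^ n * GM.om L M (g i)) +
          fun i => π ^ n * GM.om L M (g' i) := by
      funext i
      simp only [Pi.add_apply, map_add]
      ring
    have e2 : ∀ g : σ → OM L M, (fun i => h i + π * GM.om L M (w i) + π ^ n * GM.om L M (g i)) =
        (fun i => h i + π * GM.om L M (w i)) + fun i => π ^ n * GM.om L M (g i) := fun _ => rfl
    beta_reduce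
    rw [e1, e2 g, e2 g', ← QuotientAddGroup.mk_add, eq_comm, QuotientAddGroup.eq]
    rw [sub_sub] at k
    rwa [neg_add_eq_sub]
  · have k := hle' (dv_par hB hπ hM (b := b) (hw w)
      (y := fun i => GM.om L M (g i)) (fun i => ⟨GM.om_mem _, GM.om_le _⟩)
      (a := π * GM.om L M c) (a' := π ^ n) (mul_mem (hπ.mem M) (GM.om_mem _))
      (pow_mem (hπ.mem M) n) one_ne_zero (by omega)
      (by
        rw [L.mul, pow_one]
        exact mul_le_of_le_one_right (L.nonneg _) (GM.om_le _)) (L.pow _ _).le)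
    have e1 : (fun i => h i + π * GM.om L M ((w + c • g) i)) =
        (fun i => h i + π * GM.om L M (w i)) + (π * GM.om L M c) • fun i => GM.om L M (g i) := by
      funext i
      simp only [Pi.add_apply, Pi.smul_apply, smul_eq_mul, map_add, map_mul]
      ring
    have e2 : (fun i => h i + π * GM.om L M ((w + c • g) i) + π ^ n * GM.om L M (g i)) =
        (fun i => h i + π * GM.om L M (w i)) +
          (π * GM.om L M c + π ^ n) • fun i => GM.om L M (g i) := by
      funext i
      simp only [Pi.add_apply, Pi.smul_apply, smul_eq_mul, map_add, map_mul]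
      ring
    have e3 : (fun i => h i + π * GM.om L M (w i) + π ^ n * GM.om L M (g i)) =
        (fun i => h i + π * GM.om L M (w i)) + π ^ n • fun i => GM.om L M (g i) := rfl
    beta_reduce
    rw [e1, e2, e3, eq_comm, QuotientAddGroup.eq]
    rwa [neg_add_eq_sub]

end GX
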