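import Pool.Agent.Lib.MP_f80667_ag.Ep.Kb

/-! The difference `gd` modulo `V (n + 1)`. -/

open ZC BE PE CV IntermediateField Polynomial

namespace GX

variable {F : Type} [Field F] {K Ω : Type} [Field K] [CharZero K] [Field Ω] [Algebra K Ω]
  [Algebra F K] [Algebra F Ω] [IsScalarTower F K Ω] [IsAlgClosure K Ω] {L : Ld K Ω} {V : Vr F}
  [Hf V] {σ B : Type} {P : B → (σ → Ω) → V.pt Ω} {π : Ω} {M M' : IntermediateField K Ω}
  {b : B} {h h' x x' : σ → Ω} {n v : ℕ} {W : AddSubgroup (V.pt Ω →₀ ℤ)}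

/-- The lift of an integral vector. -/
private noncomputable def kb1_l (u : σ → Ω) (hu : Iv L M u) : σ → OM L M :=
  fun i => ⟨⟨u i, (hu i).1⟩, (hu i).2⟩

omit [CharZero K] [IsAlgClosure K Ω] in
private theorem kb1_om (u : σ → Ω) (hu : Iv L M u) (i : σ) : GM.om L M (kb1_l u hu i) = u i := rfl

omit [CharZero K] [IsAlgClosure K Ω] in
private theorem kb1_iv (hπ : Uf L π) (hh : Iv L M h) (hx : Iv L M x) (m : ℕ) :
    Iv L M (h + π ^ m • x) := by
  intro i
  rw [Pi.add_apply, Pi.smul_apply, smul_eq_mul]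
  refine ⟨add_mem (hh i).1 (mul_mem (pow_mem (hπ.mem M) m) (hx i).1),
    (L.add _ _).trans (max_le (hh i).2 ?_)⟩
  rw [L.mul, L.pow]
  exact mul_le_one₀ (pow_le_one₀ hπ.pos.le hπ.lt.le) (L.nonneg _) (hx i).2

/-- `gd` depends only on the residue of `h`. Proof: `Dfc.add_left`, `Dfc.swap` and `dv_mem`: `G (h; w, x) = T (h + π w; x) - T (h; x)` is additive in `w`, so `G (h + π w'; w, x) = G (h; w, x)`; `h' - h = π w'` (`Uf.um_lt`). -/
theorem gd_near (hB : Bs L P) (hπ : Uf L π) (hv : L.nm (2 : Ω) = L.nm π ^ v)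
    (hn : 2 * v + 1 ≤ n) (hM : Um L M) (hh : Iv L M h) (hh' : Iv L M h')
    (hc : ∀ i, L.nm (h i - h' i) < 1) {w : σ → Ω} (hw : Iv L M w) (hx : Iv L M x) :
    gd P π n M b h w x - gd P π n M b h' w x ∈ Vb L P π (n + 1) := by
  have h0 := hπ.ne
  obtain ⟨w', hw'⟩ : ∃ w' : σ → Ω, w' = fun i => π⁻¹ * (h' i - h i) := ⟨_, rfl⟩
  have hπw : h' = h + π • w' := by
    funext i
    rw [hw', Pi.add_apply, Pi.smul_apply, smul_eq_mul, mul_inv_cancel_left₀ h0]
    ring
  have hw1 : Iv L M w' := by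
    intro i
    rw [hw']
    have h1 : h' i - h i ∈ M := sub_mem (hh' i).1 (hh i).1
    refine ⟨mul_mem (inv_mem (hπ.mem M)) h1, ?_⟩
    have h2 : L.nm (h' i - h i) ≤ L.nm π := by
      refine hπ.um_lt hM h1 ?_
      rw [L.sub_comm]
      exact hc i
    show L.nm (π⁻¹ * (h' i - h i)) ≤ 1
    rw [L.mul, L.inv, inv_mul_le_iff₀ hπ.pos, mul_one]
    exact h2
  have hz : Iv L M (0 : σ → Ω) := fun i => ⟨zero_mem M, by
    rw [Pi.zero_apply, L.zero]
    exact zero_le_one⟩
  have hT : ∀ (a g : σ → OM L M) (u y : σ → Ω), (∀ i, GM.om L M (a i) = u i) →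
      (∀ i, GM.om L M (g i) = y i) →
      (dvb P M b (fun i => h i + π * GM.om L M (a i)) fun i =>
        h i + π * GM.om L M (a i) + π ^ n * GM.om L M (g i)) =
        dvb P M b (h + π • u) (h + π • u + π ^ n • y) := by
    intro a g u y ha hg
    congr 1
    · funext i
      rw [ha i]
      rfl
    · funext i
      rw [ha i, hg i]
      rfl
  have k := (hB.dfc hπ hv hn hM hh b).add_left 0 (kb1_l w' hw1) (kb1_l w hw) (kb1_l x hx)
  beta_reduce at k
  rw [hT _ _ (w' + w) x (fun i => by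
      rw [Pi.add_apply, Pi.add_apply, Pi.zero_apply, zero_add, map_add, kb1_om, kb1_om,
        Pi.add_apply]) (fun i => kb1_om x hx i),
    hT _ _ 0 x (fun i => by rw [Pi.zero_apply, Pi.zero_apply, map_zero]) (fun i => kb1_om x hx i),
    hT _ _ w' x (fun i => by rw [Pi.add_apply, Pi.zero_apply, zero_add, kb1_om])
      (fun i => kb1_om x hx i),
    hT _ _ w x (fun i => by rw [Pi.add_apply, Pi.zero_apply, zero_add, kb1_om])
      (fun i => kb1_om x hx i), smul_zero, add_zero] at k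
  rw [← QuotientAddGroup.eq_zero_iff]
  unfold gd
  have e1 : h' + π • w = h + π • (w' + w) := by
    rw [hπw, smul_add]
    abel
  rw [e1, hπw, QuotientAddGroup.mk_sub, QuotientAddGroup.mk_sub, QuotientAddGroup.mk_sub]
  have e2 : ∀ a c d e : (V.pt Ω →₀ ℤ) ⧸ Vb L P π (n + 1), c + d = e + a →
      a - d - (c - e) = 0 := by
    intro a c d e h1
    have h2 : a - d - (c - e) = (e + a) - (c + d) := by abel
    rw [h2, h1, sub_self]
  exact e2 _ _ _ _ k

/-- `gd` depends only on the residue of `x`. Proof: `dv_add`, `dv_mem` for both terms. -/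
theorem gd_close (hB : Bs L P) (hπ : Uf L π) (hn : n ≠ 0) (hM : Um L M) (hh : Iv L M h)
    {w : σ → Ω} (hw : Iv L M w) (hx : Iv L M x) (hx' : Iv L M x')
    (hc : ∀ i, L.nm (x i - x' i) < 1) :
    gd P π n M b h w x - gd P π n M b h w x' ∈ Vb L P π (n + 1) := by
  have _ := hn
  have hfd : FiniteDimensional K M := hM.fd
  have h1 : ∀ {m : σ → Ω}, Iv L M m → dvb P M b m (m + π ^ n • x) -
      dvb P M b m (m + π ^ n • x') ∈ Vb L P π (n + 1) := by
    intro m hm
    have h2 := dv_add (P := P) (M := M) b m (m + π ^ n • x') (m + π ^ n • x)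
    have h3 : dvb P M b m (m + π ^ n • x) - dvb P M b m (m + π ^ n • x') =
        dvb P M b (m + π ^ n • x') (m + π ^ n • x) := by
      rw [← h2]
      abel
    rw [h3]
    refine dv_mem hB hM (kb1_iv hπ hm hx' n) (kb1_iv hπ hm hx n) fun i => ?_
    have h4 : (m + π ^ n • x) i - (m + π ^ n • x') i = π ^ n * (x i - x' i) := by
      rw [Pi.add_apply, Pi.add_apply, Pi.smul_apply, Pi.smul_apply, smul_eq_mul, smul_eq_mul]
      ring
    rw [h4, L.mul, L.pow, pow_succ]
    exact mul_le_mul_of_nonneg_left (hπ.um_lt hM (sub_mem (hx i).1 (hx' i).1) (hc i))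
      (pow_nonneg (L.nonneg _) _)
  have h2 : Iv L M (h + π • w) := by
    have h3 := kb1_iv hπ hh hw 1
    rwa [pow_one] at h3
  have h3 := sub_mem (h1 h2) (h1 hh)
  unfold gd
  have e1 : dvb P M b (h + π • w) (h + π • w + π ^ n • x) - dvb P M b h (h + π ^ n • x) -
      (dvb P M b (h + π • w) (h + π • w + π ^ n • x') - dvb P M b h (h + π ^ n • x')) =
      dvb P M b (h + π • w) (h + π • w + π ^ n • x) -
        dvb P M b (h + π • w) (h + π • w + π ^ n • x') -
      (dvb P M b h (h + π ^ n • x) - dvb P M b h (h + π ^ n • x')) := by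
    abel
  rw [e1]
  exact h3

end GX
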