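import Pool.Agent.Lib.MP_f80667_ag.Ep.Kb1

/-! The difference `gd` modulo `V (n + 1)`. -/

open ZC BE PE CV IntermediateField Polynomial

namespace GX

section alg

variable {O A ι : Type} [CommRing O] [AddCommGroup A]

/-- The algebra: a biadditive balanced difference is determined by the basis vectors. -/
private theorem kb2_alg [Finite ι] [DecidableEq ι] {T : (ι → O) → (ι → O) → A} (h : Dfc O T)
    (S : AddSubgroup A)
    (h1 : ∀ (s t : ι) (τ : O), T (Pi.single s 1) (Pi.single t τ) - T 0 (Pi.single t τ) ∈ S)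
    (w x : ι → O) : T w x - T 0 x ∈ S := by
  have _ := Fintype.ofFinite ι
  obtain ⟨G, hG⟩ : ∃ G : (ι → O) → (ι → O) → A, ∀ a b, G a b = T a b - T 0 b :=
    ⟨_, fun _ _ => rfl⟩
  have hr : ∀ a b c, G a (b + c) = G a b + G a c := by
    intro a b c
    rw [hG, hG, hG, h.add, h.add]
    abel
  have hl : ∀ a b c, G (a + b) c = G a c + G b c := by
    intro a b c
    have h2 := h.add_left 0 a b c
    rw [zero_add, zero_add, zero_add] at h2
    have e1 : T (a + b) c = (T a c + T b c) - T 0 c := by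
      rw [← h2]
      abel
    rw [hG, hG, hG, e1]
    abel
  have hb : ∀ (r : O) (a b : ι → O), G (r • a) b = G a (r • b) := by
    intro r a b
    have h2 := h.bal 0 a b r
    rw [zero_add, zero_add] at h2
    rw [hG, hG, h2]
  have hsr : ∀ (a : ι → O) (f : ι → (ι → O)), G a (∑ t, f t) = ∑ t, G a (f t) := fun a f =>
    map_sum (AddMonoidHom.mk' (G a) (hr a)) f Finset.univ
  have hsl : ∀ (b : ι → O) (f : ι → (ι → O)), G (∑ t, f t) b = ∑ t, G (f t) b := fun b f =>
    map_sum (AddMonoidHom.mk' (fun a => G a b) (fun a a' => hl a a' b)) f Finset.univ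
  have h2 : ∀ (s : ι) (y : ι → O), G (Pi.single s 1) y ∈ S := by
    intro s y
    have e1 : y = ∑ t, Pi.single t (y t) := (Finset.univ_sum_single y).symm
    rw [e1, hsr]
    refine sum_mem fun t _ => ?_
    rw [hG]
    exact h1 s t (y t)
  have h3 : w = ∑ s, (w s) • (Pi.single s 1 : ι → O) := by
    conv_lhs => rw [← Finset.univ_sum_single w]
    refine Finset.sum_congr rfl fun s _ => ?_
    rw [← Pi.single_smul, smul_eq_mul, mul_one]
  have h4 : G w x ∈ S := by
    rw [h3, hsl]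
    refine sum_mem fun s _ => ?_
    rw [hb]
    exact h2 s _
  rw [hG] at h4
  exact h4

end alg

variable {F : Type} [Field F] {K Ω : Type} [Field K] [CharZero K] [Field Ω] [Algebra K Ω]
  [Algebra F K] [Algebra F Ω] [IsScalarTower F K Ω] [IsAlgClosure K Ω] {L : Ld K Ω} {V : Vr F}
  [Hf V] {σ B : Type} {P : B → (σ → Ω) → V.pt Ω} {π : Ω} {M M' : IntermediateField K Ω}
  {b : B} {h h' x x' : σ → Ω} {n v : ℕ} {W : AddSubgroup (V.pt Ω →₀ ℤ)}

/-- The lift of an integral vector. -/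
private noncomputable def kb2_l (u : σ → Ω) (hu : Iv L M u) : σ → OM L M :=
  fun i => ⟨⟨u i, (hu i).1⟩, (hu i).2⟩

omit [CharZero K] [IsAlgClosure K Ω] in
private theorem kb2_om (u : σ → Ω) (hu : Iv L M u) (i : σ) : GM.om L M (kb2_l u hu i) = u i := rfl

/-- **`gd` is bilinear.** Proof: `Dfc.add_left`, `Dfc.add`, `Dfc.bal`: `w = ∑ w_s e_s`, `x = ∑ x_t e_t` (modulo `V (n + 1)`): `gd (w, x) = ∑ gd (e_s, w_s x_t e_t)`. -/
theorem gd_basis [Finite σ] [DecidableEq σ] (hB : Bs L P) (hπ : Uf L π)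
    (hv : L.nm (2 : Ω) = L.nm π ^ v) (hn : 2 * v + 1 ≤ n) (hW : Vb L P π (n + 1) ≤ W)
    (hM : Um L M) (hh : Iv L M h) {w : σ → Ω} (hw : Iv L M w) (hx : Iv L M x)
    (h1 : ∀ s t, ∀ τ ∈ M, L.nm τ ≤ 1 →
      gd P π n M b h (Pi.single s 1) (Pi.single t τ) ∈ W) : gd P π n M b h w x ∈ W := by
  obtain ⟨T, hT0⟩ : ∃ T : (σ → OM L M) → (σ → OM L M) → (V.pt Ω →₀ ℤ) ⧸ Vb L P π (n + 1),
      T = fun w g : σ → OM L M =>
        (QuotientAddGroup.mk (dvb P M b (fun i => h i + π * GM.om L M (w i)) fun i =>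
          h i + π * GM.om L M (w i) + π ^ n * GM.om L M (g i)) :
            (V.pt Ω →₀ ℤ) ⧸ Vb L P π (n + 1)) := ⟨_, rfl⟩
  have hD : Dfc (OM L M) T := by
    rw [hT0]
    exact hB.dfc hπ hv hn hM hh b
  have hT : ∀ (a g : σ → OM L M) (u y : σ → Ω), (∀ i, GM.om L M (a i) = u i) →
      (∀ i, GM.om L M (g i) = y i) →
      T a g = QuotientAddGroup.mk (dvb P M b (h + π • u) (h + π • u + π ^ n • y)) := by
    intro a g u y ha hg
    rw [hT0]
    beta_reduce
    congr 1
    congr 1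
    · funext i
      rw [ha i]
      rfl
    · funext i
      rw [ha i, hg i]
      rfl
  have hmem : ∀ z : V.pt Ω →₀ ℤ, (QuotientAddGroup.mk z : (V.pt Ω →₀ ℤ) ⧸ Vb L P π (n + 1)) ∈
      AddSubgroup.map (QuotientAddGroup.mk' (Vb L P π (n + 1))) W ↔ z ∈ W := by
    intro z
    rw [AddSubgroup.mem_map]
    constructor
    · rintro ⟨y, hy, hyz⟩
      rw [QuotientAddGroup.mk'_apply, QuotientAddGroup.eq] at hyz
      have h2 := add_mem hy (hW hyz)
      rwa [add_neg_cancel_left] at h2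
    · exact fun hz => ⟨z, hz, rfl⟩
  have hg : ∀ (a g : σ → OM L M) (u y : σ → Ω), (∀ i, GM.om L M (a i) = u i) →
      (∀ i, GM.om L M (g i) = y i) →
      T a g - T 0 g = QuotientAddGroup.mk (gd P π n M b h u y) := by
    intro a g u y ha hg
    rw [hT a g u y ha hg, hT 0 g 0 y (fun i => by rw [Pi.zero_apply, Pi.zero_apply, map_zero]) hg,
      smul_zero, add_zero]
    unfold gd
    rw [QuotientAddGroup.mk_sub]
  rw [← hmem, ← hg (kb2_l w hw) (kb2_l x hx) w x (kb2_om w hw) (kb2_om x hx)]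
  refine kb2_alg hD _ ?_ _ _
  intro s t τ
  rw [hg (Pi.single s 1) (Pi.single t τ) (Pi.single s 1) (Pi.single t (GM.om L M τ)) ?_ ?_, hmem]
  · exact h1 s t _ (GM.om_mem τ) (GM.om_le τ)
  · intro i
    by_cases hi : i = s
    · subst hi
      rw [Pi.single_eq_same, Pi.single_eq_same, map_one]
    · rw [Pi.single_eq_of_ne hi, Pi.single_eq_of_ne hi, map_zero]
  · intro i
    by_cases hi : i = t
    · subst hi
      rw [Pi.single_eq_same, Pi.single_eq_same]
    · rw [Pi.single_eq_of_ne hi, Pi.single_eq_of_ne hi, map_zero]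

end GX
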