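import Pool.Agent.Lib.MP_f80667_ag.Ep.K

/-! Vanishing extension along an arc. -/

open ZC BE PE CV IntermediateField Polynomial

namespace GX

variable {F : Type} [Field F] {K Ω : Type} [Field K] [CharZero K] [Field Ω] [Algebra K Ω]
  [Algebra F K] [Algebra F Ω] [IsScalarTower F K Ω] [IsAlgClosure K Ω] {L : Ld K Ω} {V : Vr F}
  [Hf V] {σ B : Type} {P : B → (σ → Ω) → V.pt Ω} {π : Ω} {M M' : IntermediateField K Ω}
  {b : B} {h h' x x' : σ → Ω} {n v : ℕ} {W : AddSubgroup (V.pt Ω →₀ ℤ)}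

private theorem kc_pow {K₁ Ω₁ : Type} [Field K₁] [Field Ω₁] [Algebra K₁ Ω₁] (L₁ : Ld K₁ Ω₁)
    {N : ℕ} {ζ : Ω₁} (hζ : ζ ^ (L₁.p ^ N - 1) = 1) (i : ℕ) : ζ ^ i ∈ L₁.Te N := by
  have h1 : 0 < L₁.p ^ N := pow_pos L₁.pp.pos N
  have h2 : L₁.p ^ N - 1 + 1 = L₁.p ^ N := by omega
  change (ζ ^ i) ^ L₁.p ^ N = ζ ^ i
  rw [← h2, pow_succ, ← pow_mul, mul_comm i, pow_mul, hζ, one_pow, one_mul]

/-- Unit separated elements over a larger unramified field. Proof: the Teichmüller representatives `L.Te N` (`Ld.te_ur`, `Ld.te_inj`, their number tends to infinity): a new element which is not congruent to the finitely many given ones. -/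
theorem exists_us (hM : Um L M) (S : Finset Ω) (hS : ∀ c ∈ S, c ∈ M ∧ L.nm c ≤ 1) :
    ∃ (M' : IntermediateField K Ω) (c₁ : Ω), Um L M' ∧ M ≤ M' ∧ c₁ ∈ M' ∧ L.nm c₁ ≤ 1 ∧
      ∀ c ∈ S, L.nm (c₁ - c) = 1 := by
  classical
  obtain ⟨N, hN, hMN⟩ := hM
  have hcz : CharZero Ω := charZero_of_injective_algebraMap (algebraMap K Ω).injective
  have hcl : IsAlgClosed Ω := IsAlgClosure.isAlgClosed K
  have hN' : N * (S.card + 1) ≠ 0 := mul_ne_zero hN (Nat.succ_ne_zero _)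
  have h1 : N * (S.card + 1) < L.p ^ (N * (S.card + 1)) := Nat.lt_pow_self L.pp.one_lt
  have h2 : S.card + 1 ≤ N * (S.card + 1) := Nat.le_mul_of_pos_left _ (Nat.pos_of_ne_zero hN)
  have h3 : NeZero ((L.p ^ (N * (S.card + 1)) - 1 : ℕ) : Ω) := ⟨Nat.cast_ne_zero.2 (by omega)⟩
  obtain ⟨ζ, hζ⟩ := HasEnoughRootsOfUnity.exists_primitiveRoot Ω (L.p ^ (N * (S.card + 1)) - 1)
  have hte := kc_pow L hζ.pow_eq_one
  by_contra hcon
  push Not at hcon
  have h4 : ∀ i : ℕ, ∃ c ∈ S, L.nm (ζ ^ i - c) < 1 := by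
    intro i
    obtain ⟨c, hc, hne⟩ := hcon (L.Ur ⊥ (N * (S.card + 1))) (ζ ^ i) ⟨_, hN', le_rfl⟩
      (hMN.trans (Ld.ur_dvd _ (Nat.dvd_mul_right N (S.card + 1)))) (Ld.te_ur (hte i))
      (Ld.te_int hN' (hte i))
    exact ⟨c, hc, lt_of_le_of_ne ((L.sub _ _).trans (max_le (Ld.te_int hN' (hte i))
      (hS c hc).2)) hne⟩
  choose c hc hlt using h4
  obtain ⟨i, hi, j, hj, hij, he⟩ := Finset.exists_ne_map_eq_of_card_lt_of_maps_to
    (s := Finset.range (L.p ^ (N * (S.card + 1)) - 1)) (t := S) (f := c)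
    (by rw [Finset.card_range]; omega) fun i _ => hc i
  refine hij (hζ.pow_inj (Finset.mem_range.1 hi) (Finset.mem_range.1 hj)
    (Ld.te_inj hN' (hte i) (hte j) ?_))
  have h5 : ζ ^ i - ζ ^ j = (ζ ^ i - c i) - (ζ ^ j - c j) := by
    rw [he]
    ring
  rw [h5]
  exact (L.sub _ _).trans_lt (max_lt (hlt i) (hlt j))

end GX
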