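import Pool.Agent.Lib.MP_f80667_ag.Ep.K

/-! Vanishing extension along an arc. -/

open ZC BE PE CV IntermediateField Polynomial

namespace GX

variable {F : Type} [Field F] {K Ω : Type} [Field K] [CharZero K] [Field Ω] [Algebra K Ω]
  [Algebra F K] [Algebra F Ω] [IsScalarTower F K Ω] [IsAlgClosure K Ω] {L : Ld K Ω} {V : Vr F}
  [Hf V] {σ B : Type} {P : B → (σ → Ω) → V.pt Ω} {π : Ω} {M M' : IntermediateField K Ω}
  {b : B} {h h' x x' : σ → Ω} {n v : ℕ} {W : AddSubgroup (V.pt Ω →₀ ℤ)}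

omit [CharZero K] [IsAlgClosure K Ω] in
private theorem vo_mem {f : Polynomial Ω} (hf : ∀ j, f.coeff j ∈ M) {x : Ω} (hx : x ∈ M) :
    f.eval x ∈ M := by
  rw [Polynomial.eval_eq_sum_range]
  exact sum_mem fun i _ => mul_mem (hf i) (pow_mem hx i)

omit [CharZero K] [IsAlgClosure K Ω] in
private theorem vo_iv {β : σ → Polynomial Ω} (hβ : Arc L M β) {c : Ω} (hc : c ∈ M)
    (hc1 : L.nm c ≤ 1) : Iv L M fun i => (β i).eval c := fun i =>
  ⟨vo_mem (fun j => (hβ i j).1) hc, L.eval_le (fun j => (hβ i j).2) hc1⟩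

omit [CharZero K] [IsAlgClosure K Ω] in
private theorem vo_der {β : σ → Polynomial Ω} (hβ : Arc L M β) :
    Arc L M fun i => derivative (β i) := by
  intro i j
  have h1 : ((j : Ω) + 1) = ((j + 1 : ℕ) : Ω) := by
    push_cast
    rfl
  rw [coeff_derivative, h1]
  refine ⟨mul_mem (hβ i (j + 1)).1 (_root_.natCast_mem M (j + 1)), ?_⟩
  rw [L.mul]
  exact mul_le_one₀ (hβ i (j + 1)).2 (L.nonneg _) (L.nat_le _)

omit [CharZero K] [IsAlgClosure K Ω] in
private theorem vo_unit {S : Finset Ω} (hS : ∀ c ∈ S, c ∈ M ∧ L.nm c ≤ 1) (hU : Us L S) {c : Ω}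
    (hc : c ∈ S) : (derivative (∏ c ∈ S, (X - C c))).eval c ∈ M ∧
      L.nm ((derivative (∏ c ∈ S, (X - C c))).eval c) = 1 := by
  classical
  have h1 : (derivative (∏ c ∈ S, (X - C c))).eval c = ∏ c' ∈ S.erase c, (c - c') := by
    have h2 := Lagrange.eval_nodal_derivative_eval_node_eq (v := (id : Ω → Ω)) (s := S) hc
    simp only [Lagrange.nodal, id, eval_prod, eval_sub, eval_X, eval_C] at h2
    exact h2
  rw [h1]
  refine Finset.prod_induction _ (fun x => x ∈ M ∧ L.nm x = 1) (fun a b ha hb => ?_)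
    ⟨one_mem M, L.one⟩ fun c' hc' => ?_
  · refine ⟨mul_mem ha.1 hb.1, ?_⟩
    rw [L.mul, ha.2, hb.2, one_mul]
  · have h3 := Finset.mem_of_mem_erase hc'
    exact ⟨sub_mem (hS c hc).1 (hS c' h3).1, hU c hc c' h3 (Finset.ne_of_mem_erase hc').symm⟩

/-- **VE**, first form: `z` is unit separated from `S`. Proof: `Crm` for `insert z S` with `τ m' (z)` in the place of `τ` (`m = ∏ (X - c)`; `m' (c)` are units); all summands except the one of `z` are in `W` (`Ko` for `β (c)`). -/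
theorem ve_one (hW : Vb L P π (n + 1) ≤ W) {D ρ : ℕ} (hC : Crm L P π n D ρ) (hM : Um L M)
    {β : σ → Polynomial Ω} (hβ : Arc L M β) (hρ : ∀ i, (β i).natDegree ≤ ρ) {S : Finset Ω}
    (hS : ∀ c ∈ S, c ∈ M ∧ L.nm c ≤ 1) (hU : Us L S) (hc : D * ρ ≤ S.card)
    (hk : ∀ c ∈ S, Ko L P π n W b (fun i => (β i).eval c) fun i => (derivative (β i)).eval c)
    {z : Ω} (hz : z ∈ M) (hz1 : L.nm z ≤ 1) (hzS : ∀ c ∈ S, L.nm (z - c) = 1) :
    Kp L P π n W M b (fun i => (β i).eval z) fun i => (derivative (β i)).eval z := by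
  classical
  intro τ hτ hτ1
  have hzn : z ∉ S := by
    intro h
    have h1 := hzS z h
    rw [sub_self, L.zero] at h1
    exact zero_ne_one h1
  have hS' : ∀ c ∈ insert z S, c ∈ M ∧ L.nm c ≤ 1 := by
    intro c hc
    rcases Finset.mem_insert.1 hc with rfl | hc
    · exact ⟨hz, hz1⟩
    · exact hS c hc
  have hU' : Us L (insert z S) := by
    intro c hc c' hc' hne
    rcases Finset.mem_insert.1 hc with h1 | h1
    · rcases Finset.mem_insert.1 hc' with h2 | h2
      · exact absurd (h1.trans h2.symm) hne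
      · rw [h1]
        exact hzS c' h2
    · rcases Finset.mem_insert.1 hc' with h2 | h2
      · rw [h2, L.sub_comm]
        exact hzS c h1
      · exact hU c h1 c' h2 hne
  have hcard : D * ρ < (insert z S).card := by
    rw [Finset.card_insert_of_notMem hzn]
    omega
  obtain ⟨d, hd⟩ : ∃ d : Ω → Ω, ∀ c, d c = (derivative (∏ c ∈ insert z S, (X - C c))).eval c :=
    ⟨_, fun _ => rfl⟩
  have hdu : ∀ c ∈ insert z S, d c ∈ M ∧ L.nm (d c) = 1 := by
    intro c hc
    rw [hd]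
    exact vo_unit hS' hU' hc
  have hzd := hdu z (Finset.mem_insert_self z S)
  have hz0 : d z ≠ 0 := L.ne_zero (by rw [hzd.2]; exact zero_lt_one)
  have h1 := hC M hM β hβ hρ b (insert z S) hS' hU' hcard (τ * d z) (mul_mem hτ hzd.1)
    (by rw [L.mul, hzd.2, mul_one]; exact hτ1)
  rw [Finset.sum_insert hzn] at h1
  simp only [← hd] at h1
  have h2 : ∑ c ∈ S, dvb P M b (fun i => (β i).eval c) (fun i => (β i).eval c +
      π ^ n * (τ * d z / d c) * (derivative (β i)).eval c) ∈ W := by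
    refine sum_mem fun c hc => ?_
    have hcd := hdu c (Finset.mem_insert_of_mem hc)
    refine hk c hc M hM (vo_iv hβ (hS c hc).1 (hS c hc).2)
      (vo_iv (vo_der hβ) (hS c hc).1 (hS c hc).2) (τ * d z / d c)
      (div_mem (mul_mem hτ hzd.1) hcd.1) ?_
    rw [L.div, L.mul, hzd.2, hcd.2, mul_one, div_one]
    exact hτ1
  have h3 := (AddSubgroup.add_mem_cancel_right W h2).1 (hW h1)
  rw [mul_div_cancel_right₀ _ hz0] at h3
  exact h3

end GX
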