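import Pool.Agent.Lib.MP_f80667_ag.Ep.Ka
import Pool.Agent.Lib.MP_f80667_ag.Ep.Kc
import Pool.Agent.Lib.MP_f80667_ag.Ep.Kc1

/-! Vanishing extension along an arc. -/

open ZC BE PE CV IntermediateField Polynomial

namespace GX

variable {F : Type} [Field F] {K Ω : Type} [Field K] [CharZero K] [Field Ω] [Algebra K Ω]
  [Algebra F K] [Algebra F Ω] [IsScalarTower F K Ω] [IsAlgClosure K Ω] {L : Ld K Ω} {V : Vr F}
  [Hf V] {σ B : Type} {P : B → (σ → Ω) → V.pt Ω} {π : Ω} {M M' : IntermediateField K Ω}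
  {b : B} {h h' x x' : σ → Ω} {n v : ℕ} {W : AddSubgroup (V.pt Ω →₀ ℤ)}

omit [CharZero K] [IsAlgClosure K Ω] in
private theorem kc2_ev {q : Polynomial Ω} (hq : ∀ j, q.coeff j ∈ M ∧ L.nm (q.coeff j) ≤ 1)
    {z : Ω} (hz : z ∈ M) (hz1 : L.nm z ≤ 1) : q.eval z ∈ M ∧ L.nm (q.eval z) ≤ 1 := by
  rw [Polynomial.eval_eq_sum_range]
  refine ⟨sum_mem fun i _ => mul_mem (hq i).1 (pow_mem hz i),
    L.sum_le _ _ zero_le_one fun i _ => ?_⟩
  rw [L.mul, L.pow]
  exact mul_le_one₀ (hq i).2 (pow_nonneg (L.nonneg _) _) (pow_le_one₀ (L.nonneg _) hz1)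

omit [CharZero K] [IsAlgClosure K Ω] in
private theorem kc2_der {q : Polynomial Ω} (hq : ∀ j, q.coeff j ∈ M ∧ L.nm (q.coeff j) ≤ 1)
    (j : ℕ) : (derivative q).coeff j ∈ M ∧ L.nm ((derivative q).coeff j) ≤ 1 := by
  rw [coeff_derivative]
  have h1 : ((j : Ω) + 1) = ((j + 1 : ℕ) : Ω) := by push_cast; rfl
  rw [h1]
  refine ⟨mul_mem (hq _).1 (_root_.natCast_mem _ _), ?_⟩
  rw [L.mul]
  exact mul_le_one₀ (hq _).2 (L.nonneg _) (L.nat_le _)

/-- **VE.** Proof: `ve_one` if `z` is unit separated from `S`; if `z` is congruent to `z₀ ∈ S`: a new element `c₁` (`exists_us`, over `M'`), `ve_one` for `S` and `c₁`, then for `insert c₁ (S.erase z₀)` and `z`; `ko_of`. -/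
theorem ve (hB : Bs L P) (hπ : Uf L π) (hn : n ≠ 0) (hW : Vb L P π (n + 1) ≤ W) {D ρ : ℕ}
    (hC : Crm L P π n D ρ) (hM : Um L M)
    {β : σ → Polynomial Ω} (hβ : Arc L M β) (hρ : ∀ i, (β i).natDegree ≤ ρ) {S : Finset Ω}
    (hS : ∀ c ∈ S, c ∈ M ∧ L.nm c ≤ 1) (hU : Us L S) (hc : D * ρ ≤ S.card)
    (hk : ∀ c ∈ S, Ko L P π n W b (fun i => (β i).eval c) fun i => (derivative (β i)).eval c)
    {z : Ω} (hz : z ∈ M) (hz1 : L.nm z ≤ 1) :
    Ko L P π n W b (fun i => (β i).eval z) fun i => (derivative (β i)).eval z := by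
  classical
  have key : ∀ N : IntermediateField K Ω, Um L N → Arc L N β → ∀ T : Finset Ω,
      (∀ c ∈ T, c ∈ N ∧ L.nm c ≤ 1) → Us L T → D * ρ ≤ T.card →
        (∀ c ∈ T, Ko L P π n W b (fun i => (β i).eval c) fun i => (derivative (β i)).eval c) →
          ∀ w ∈ N, L.nm w ≤ 1 → (∀ c ∈ T, L.nm (w - c) = 1) →
            Ko L P π n W b (fun i => (β i).eval w) fun i => (derivative (β i)).eval w :=
    fun N hN hβN T hT hUT hcT hkT w hw hw1 hwT =>
      ko_of hB hπ hn hW hN (fun i => kc2_ev (hβN i) hw hw1)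
        (fun i => kc2_ev (kc2_der (hβN i)) hw hw1)
        (ve_one hW hC hN hβN hρ hT hUT hcT hkT hw hw1 hwT)
  by_cases hzS : ∀ c ∈ S, L.nm (z - c) = 1
  · exact key M hM hβ S hS hU hc hk z hz hz1 hzS
  · push Not at hzS
    obtain ⟨z₀, hz₀, hne⟩ := hzS
    have hlt : L.nm (z - z₀) < 1 :=
      lt_of_le_of_ne ((L.sub _ _).trans (max_le hz1 (hS z₀ hz₀).2)) hne
    obtain ⟨M', c₁, hM', hle, hc₁, hc₁1, hc₁S⟩ := exists_us hM S hS
    have hβ' : Arc L M' β := fun i j => ⟨hle (hβ i j).1, (hβ i j).2⟩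
    have hS' : ∀ c ∈ S, c ∈ M' ∧ L.nm c ≤ 1 := fun c hc => ⟨hle (hS c hc).1, (hS c hc).2⟩
    have hk₁ := key M' hM' hβ' S hS' hU hc hk c₁ hc₁ hc₁1 hc₁S
    have hnot : c₁ ∉ S := fun hmem => by
      have h1 := hc₁S c₁ hmem
      rw [sub_self, L.zero] at h1
      exact zero_ne_one h1
    have hnot' : c₁ ∉ S.erase z₀ := fun hmem => hnot (Finset.mem_of_mem_erase hmem)
    refine key M' hM' hβ' (insert c₁ (S.erase z₀)) (fun c hc' => ?_) (fun c hc' c' hc'' hcc => ?_)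
      ?_ (fun c hc' => ?_) z (hle hz) hz1 fun c hc' => ?_
    · rcases Finset.mem_insert.1 hc' with rfl | h1
      · exact ⟨hc₁, hc₁1⟩
      · exact hS' c (Finset.mem_of_mem_erase h1)
    · rcases Finset.mem_insert.1 hc' with rfl | h1
      · rcases Finset.mem_insert.1 hc'' with h2 | h2
        · exact absurd h2.symm hcc
        · exact hc₁S c' (Finset.mem_of_mem_erase h2)
      · rcases Finset.mem_insert.1 hc'' with rfl | h2
        · rw [L.sub_comm]
          exact hc₁S c (Finset.mem_of_mem_erase h1)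
        · exact hU c (Finset.mem_of_mem_erase h1) c' (Finset.mem_of_mem_erase h2) hcc
    · rw [Finset.card_insert_of_notMem hnot', Finset.card_erase_of_mem hz₀]
      have h1 : 0 < S.card := Finset.card_pos.2 ⟨z₀, hz₀⟩
      omega
    · rcases Finset.mem_insert.1 hc' with rfl | h1
      · exact hk₁
      · exact hk c (Finset.mem_of_mem_erase h1)
    · have h3 : L.nm (z₀ - c) = 1 := by
        rcases Finset.mem_insert.1 hc' with rfl | h1
        · rw [L.sub_comm]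
          exact hc₁S z₀ hz₀
        · exact hU z₀ hz₀ c (Finset.mem_of_mem_erase h1) (Finset.ne_of_mem_erase h1).symm
      have h4 : z - c = (z - z₀) + (z₀ - c) := by ring
      rw [h4, L.add_eq (by rw [h3]; exact hlt), h3]

end GX
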