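import Pool.Agent.Lib.MP_f80667_ag.Ep.K

/-! The grid. -/

open ZC BE PE CV IntermediateField Polynomial

namespace GX

variable {F : Type} [Field F] {K Ω : Type} [Field K] [CharZero K] [Field Ω] [Algebra K Ω]
  [Algebra F K] [Algebra F Ω] [IsScalarTower F K Ω] [IsAlgClosure K Ω] {L : Ld K Ω} {V : Vr F}
  [Hf V] {σ B : Type} {P : B → (σ → Ω) → V.pt Ω} {π : Ω} {M M' : IntermediateField K Ω}
  {b : B} {h h' x x' : σ → Ω} {n v : ℕ} {W : AddSubgroup (V.pt Ω →₀ ℤ)}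

private theorem kd_sup (h : Um L M) (h' : Um L M') : Um L (M ⊔ M') := by
  obtain ⟨N, hN, hM⟩ := h
  obtain ⟨N', hN', hM'⟩ := h'
  exact ⟨N * N', Nat.mul_ne_zero hN hN', sup_le (hM.trans (Ld.ur_dvd _ (Nat.dvd_mul_right N N')))
    (hM'.trans (Ld.ur_dvd _ (Nat.dvd_mul_left N' N)))⟩

/-- `p`-th roots modulo the maximal ideal. Proof: `M ≤ Ur ⊥ N`; a Teichmüller representative `z ∈ L.Te N'` of `τ` (`Ld.te_rep`), `y = z ^ (p ^ (N' - 1))`, `y ^ p = z`. `y` is in `Ur ⊥ N'`; take `M' = M ⊔ Ur ⊥ N'`. -/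
theorem exists_rt (hM : Um L M) {τ : Ω} (hτ : τ ∈ M) (hτ1 : L.nm τ ≤ 1) :
    ∃ (M' : IntermediateField K Ω) (y : Ω), Um L M' ∧ M ≤ M' ∧ y ∈ M' ∧ L.nm y ≤ 1 ∧
      L.nm (y ^ L.p - τ) < 1 := by
  obtain ⟨N, hN, z, hz, hzτ⟩ := Ld.te_rep (L := L) hτ1
  have hy : z ^ (L.p ^ (N - 1)) ∈ L.Te N := by
    change (z ^ (L.p ^ (N - 1))) ^ L.p ^ N = z ^ (L.p ^ (N - 1))
    rw [← pow_mul, mul_comm, pow_mul]
    exact congrArg (fun w => w ^ (L.p ^ (N - 1))) hz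
  have hyp : (z ^ (L.p ^ (N - 1))) ^ L.p = z := by
    rw [← pow_mul, ← pow_succ, Nat.sub_add_cancel (Nat.pos_of_ne_zero hN)]
    exact hz
  refine ⟨M ⊔ L.Ur ⊥ N, z ^ (L.p ^ (N - 1)), kd_sup hM ⟨N, hN, le_rfl⟩, le_sup_left,
    (le_sup_right : L.Ur ⊥ N ≤ M ⊔ L.Ur ⊥ N) (Ld.te_ur hy), Ld.te_int hN hy, ?_⟩
  rw [hyp, L.sub_comm]
  exact hzτ

/-- **The grid**: first the direction `t`: lines. `Q` holds at all points whose coordinates, except the one with the number `t`, are congruent to elements of `S`. Proof: `Gq.near`, `Gq.arc` for the line `X` in the coordinate `t`. -/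
theorem grid_t [DecidableEq σ] {D : ℕ} {t : σ} {Q : (σ → Ω) → Prop} (hQ : Gq L D t Q)
    {M₀ : IntermediateField K Ω} (hM₀ : Um L M₀) {S : Finset Ω}
    (hS : ∀ c ∈ S, c ∈ M₀ ∧ L.nm c ≤ 1) (hU : Us L S) (hc : D ≤ S.card)
    (hg : ∀ h : σ → Ω, (∀ i, h i ∈ S) → Q h) (hM : Um L M) (hh : Iv L M h)
    (hn : ∀ i, i ≠ t → ∃ c ∈ S, L.nm (h i - c) < 1) : Q h := by
  classical
  have hM1 : Um L (M ⊔ M₀) := kd_sup hM hM₀
  have hle : M ≤ M ⊔ M₀ := le_sup_left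
  have hle₀ : M₀ ≤ M ⊔ M₀ := le_sup_right
  obtain ⟨c, hc1⟩ : ∃ c : σ → Ω, ∀ i, i ≠ t → c i ∈ S ∧ L.nm (h i - c i) < 1 := by
    refine ⟨fun i => if hi : i = t then 0 else (hn i hi).choose, fun i hi => ?_⟩
    beta_reduce
    rw [dif_neg hi]
    exact (hn i hi).choose_spec
  obtain ⟨β, hβ⟩ : ∃ β : σ → Polynomial Ω, β = fun i => if i = t then X else C (c i) := ⟨_, rfl⟩
  have hβt : β t = X := by
    rw [hβ]
    exact if_pos rfl
  have hβi : ∀ i, i ≠ t → β i = C (c i) := fun i hi => by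
    rw [hβ]
    exact if_neg hi
  have harc : Arc L (M ⊔ M₀) β := by
    intro i j
    by_cases hi : i = t
    · rw [hi, hβt, coeff_X]
      split_ifs
      · exact ⟨one_mem _, by rw [L.one]⟩
      · exact ⟨zero_mem _, by rw [L.zero]; exact zero_le_one⟩
    · rw [hβi i hi, coeff_C]
      split_ifs
      · exact ⟨hle₀ (hS _ (hc1 i hi).1).1, (hS _ (hc1 i hi).1).2⟩
      · exact ⟨zero_mem _, by rw [L.zero]; exact zero_le_one⟩
  have hdeg : ∀ i, (β i).natDegree ≤ L.p := by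
    intro i
    by_cases hi : i = t
    · rw [hi, hβt, natDegree_X]
      exact L.pp.one_lt.le
    · rw [hβi i hi, natDegree_C]
      exact Nat.zero_le _
  have hder : ∀ z : Ω, L.nm z ≤ 1 → ∀ i,
      L.nm ((derivative (β i)).eval z - (Pi.single t 1 : σ → Ω) i) < 1 := by
    intro z _ i
    by_cases hi : i = t
    · rw [hi, hβt, derivative_X, eval_one, Pi.single_eq_same, sub_self, L.zero]
      exact zero_lt_one
    · rw [hβi i hi, derivative_C, eval_zero, Pi.single_eq_of_ne hi, sub_self, L.zero]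
      exact zero_lt_one
  have hQ1 := hQ.arc (M ⊔ M₀) hM1 β harc hdeg hder S (fun c hc => ⟨hle₀ (hS c hc).1, (hS c hc).2⟩)
    hU hc (fun z hz => hg _ fun i => by
      by_cases hi : i = t
      · rw [hi, hβt, eval_X]
        exact hz
      · rw [hβi i hi, eval_C]
        exact (hc1 i hi).1) (h t) (hle (hh t).1) (hh t).2
  refine hQ.near (M ⊔ M₀) hM1 _ h (fun i => ?_) (fun i => ⟨hle (hh i).1, (hh i).2⟩)
    (fun i => ?_) hQ1
  · change (β i).eval (h t) ∈ M ⊔ M₀ ∧ L.nm ((β i).eval (h t)) ≤ 1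
    by_cases hi : i = t
    · rw [hi, hβt, eval_X]
      exact ⟨hle (hh t).1, (hh t).2⟩
    · rw [hβi i hi, eval_C]
      exact ⟨hle₀ (hS _ (hc1 i hi).1).1, (hS _ (hc1 i hi).1).2⟩
  · change L.nm ((β i).eval (h t) - h i) < 1
    by_cases hi : i = t
    · rw [hi, hβt, eval_X, sub_self, L.zero]
      exact zero_lt_one
    · rw [hβi i hi, eval_C, L.sub_comm]
      exact (hc1 i hi).2

end GX
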