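import Pool.Agent.Lib.MP_f80667_ag.Ep.Kd
import Pool.Agent.Lib.MP_f80667_ag.Ep.Ka

/-! The grid. -/

open ZC BE PE CV IntermediateField Polynomial

namespace GX

variable {F : Type} [Field F] {K Ω : Type} [Field K] [CharZero K] [Field Ω] [Algebra K Ω]
  [Algebra F K] [Algebra F Ω] [IsScalarTower F K Ω] [IsAlgClosure K Ω] {L : Ld K Ω} {V : Vr F}
  [Hf V] {σ B : Type} {P : B → (σ → Ω) → V.pt Ω} {π : Ω} {M M' : IntermediateField K Ω}
  {b : B} {h h' x x' : σ → Ω} {n v : ℕ} {W : AddSubgroup (V.pt Ω →₀ ℤ)}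

omit [Algebra F K] [Algebra F Ω] [IsScalarTower F K Ω] [Field F] in
private theorem kd_fin (hM : Um L M) (f : Ω → IntermediateField K Ω) (S : Finset Ω)
    (hf : ∀ ν ∈ S, Um L (f ν)) :
    ∃ N : IntermediateField K Ω, Um L N ∧ M ≤ N ∧ ∀ ν ∈ S, f ν ≤ N := by
  classical
  induction S using Finset.induction_on with
  | empty => exact ⟨M, hM, le_rfl, fun ν hν => absurd hν (Finset.notMem_empty ν)⟩
  | insert ν S hν ih =>
    obtain ⟨N, h1, h2, h3⟩ := ih fun ν' hν' => hf ν' (Finset.mem_insert_of_mem hν')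
    refine ⟨N ⊔ f ν, um_sup h1 (hf ν (Finset.mem_insert_self ν S)), h2.trans le_sup_left,
      fun ν' hν' => ?_⟩
    rcases Finset.mem_insert.1 hν' with h4 | h4
    · rw [h4]
      exact le_sup_right
    · exact (h3 ν' h4).trans le_sup_left

omit [Algebra F K] [Algebra F Ω] [IsScalarTower F K Ω] [Field F] [CharZero K]
  [IsAlgClosure K Ω] in
private theorem kd_C (M : IntermediateField K Ω) {a : Ω} (ha : a ∈ M) (ha1 : L.nm a ≤ 1) (j : ℕ) :
    (C a : Polynomial Ω).coeff j ∈ M ∧ L.nm ((C a : Polynomial Ω).coeff j) ≤ 1 := by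
  rw [coeff_C]
  split_ifs
  · exact ⟨ha, ha1⟩
  · rw [L.zero]
    exact ⟨zero_mem M, zero_le_one⟩

omit [Algebra F K] [Algebra F Ω] [IsScalarTower F K Ω] [Field F] [CharZero K]
  [IsAlgClosure K Ω] in
private theorem kd_X (M : IntermediateField K Ω) {a : Ω} (ha : a ∈ M) (ha1 : L.nm a ≤ 1)
    (k j : ℕ) : (X ^ k + C a : Polynomial Ω).coeff j ∈ M ∧ L.nm ((X ^ k + C a : Polynomial Ω).coeff j) ≤ 1 := by
  have h1 : (X ^ k : Polynomial Ω).coeff j ∈ M ∧ L.nm ((X ^ k : Polynomial Ω).coeff j) ≤ 1 := by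
    rw [coeff_X_pow]
    split_ifs
    · rw [L.one]
      exact ⟨one_mem M, le_rfl⟩
    · rw [L.zero]
      exact ⟨zero_mem M, zero_le_one⟩
  have h2 := kd_C M ha ha1 j
  rw [coeff_add]
  exact ⟨add_mem h1.1 h2.1, (L.add _ _).trans (max_le h1.2 h2.2)⟩

omit [Algebra F K] [Algebra F Ω] [IsScalarTower F K Ω] [Field F] [CharZero K]
  [IsAlgClosure K Ω] in
private theorem kd_pow {a b : Ω} (ha : L.nm a ≤ 1) (hb : L.nm b ≤ 1) (h : L.nm (a - b) < 1)
    (k : ℕ) : L.nm (a ^ k - b ^ k) < 1 := by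
  induction k with
  | zero =>
    rw [pow_zero, pow_zero, sub_self, L.zero]
    exact zero_lt_one
  | succ k ih =>
    have e1 : a ^ (k + 1) - b ^ (k + 1) = a * (a ^ k - b ^ k) + (a - b) * b ^ k := by ring
    rw [e1]
    refine (L.add _ _).trans_lt (max_lt ?_ ?_)
    · rw [L.mul]
      exact (mul_le_of_le_one_left (L.nonneg _) ha).trans_lt ih
    · rw [L.mul, L.pow]
      exact (mul_le_of_le_one_right (L.nonneg _) (pow_le_one₀ (L.nonneg _) hb)).trans_lt h

/-- **The grid**, one more coordinate: `T` = the coordinates which are arbitrary, `t ∈ T`, `s ∉ T`. Proof: `z` with `z ^ p ≡ h_s` and, for `ν ∈ S`, `z_ν` with `z_ν ^ p ≡ ν` modulo the maximal ideal (`exists_rt`, over a larger `M'`);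
the arc `X ^ p + (h_s - z ^ p)` in the coordinate `s`, `X + (h_t - z)` in the coordinate `t`, constants in the others; its derivative is `e_t` modulo `p`; the `z_ν` are unit separated because the `ν` are. -/
theorem grid_s [DecidableEq σ] {D : ℕ} {t : σ} {Q : (σ → Ω) → Prop} (hQ : Gq L D t Q)
    {M₀ : IntermediateField K Ω} (hM₀ : Um L M₀) {S : Finset Ω}
    (hS : ∀ c ∈ S, c ∈ M₀ ∧ L.nm c ≤ 1) (hU : Us L S) (hc : D ≤ S.card) {T : Set σ} {s : σ}
    (ht : t ∈ T) (hs : s ∉ T)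
    (hT : ∀ M : IntermediateField K Ω, Um L M → ∀ h : σ → Ω, Iv L M h →
      (∀ i, i ∉ T → ∃ c ∈ S, L.nm (h i - c) < 1) → Q h) (hM : Um L M) (hh : Iv L M h)
    (hn : ∀ i, i ∉ insert s T → ∃ c ∈ S, L.nm (h i - c) < 1) : Q h := by
  classical
  have hst : s ≠ t := fun h0 => hs (h0 ▸ ht)
  obtain ⟨M', z, hM', hMM', hz, hz1, hzp⟩ := exists_rt hM (hh s).1 (hh s).2
  have hr : ∀ ν : Ω, ∃ (N : IntermediateField K Ω) (y : Ω), ν ∈ S →
      Um L N ∧ M₀ ≤ N ∧ y ∈ N ∧ L.nm y ≤ 1 ∧ L.nm (y ^ L.p - ν) < 1 := by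
    intro ν
    by_cases hν : ν ∈ S
    · obtain ⟨N, y, h1⟩ := exists_rt hM₀ (hS ν hν).1 (hS ν hν).2
      exact ⟨N, y, fun _ => h1⟩
    · exact ⟨⊥, 0, fun h0 => absurd h0 hν⟩
  choose Nf y hy using hr
  obtain ⟨N, hN, hN1, hN2⟩ := kd_fin hM' Nf S fun ν hν => (hy ν hν).1
  have hzN : z ∈ N := hN1 hz
  have hhN : ∀ i, h i ∈ N := fun i => hN1 (hMM' (hh i).1)
  have hyN : ∀ ν ∈ S, y ν ∈ N := fun ν hν => hN2 ν hν (hy ν hν).2.2.1
  have hzp1 : L.nm (z ^ L.p) ≤ 1 := by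
    rw [L.pow]
    exact pow_le_one₀ (L.nonneg _) hz1
  -- the arc
  obtain ⟨β, hβ⟩ : ∃ β : σ → Polynomial Ω, β = fun i => if i = s then X ^ L.p + C (h s - z ^ L.p)
      else if i = t then X ^ 1 + C (h t - z) else C (h i) := ⟨_, rfl⟩
  have hβs : β s = X ^ L.p + C (h s - z ^ L.p) := by
    rw [hβ]
    exact if_pos rfl
  have hβt : β t = X ^ 1 + C (h t - z) := by
    rw [hβ]
    exact (if_neg hst.symm).trans (if_pos rfl)
  have hβi : ∀ i, i ≠ s → i ≠ t → β i = C (h i) := fun i h1 h2 => by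
    rw [hβ]
    exact (if_neg h1).trans (if_neg h2)
  have hcas : ∀ i, i = s ∨ i = t ∨ (i ≠ s ∧ i ≠ t) := fun i => by
    by_cases h1 : i = s
    · exact Or.inl h1
    · by_cases h2 : i = t
      · exact Or.inr (Or.inl h2)
      · exact Or.inr (Or.inr ⟨h1, h2⟩)
  have ha : ∀ i, h i ∈ N ∧ L.nm (h i) ≤ 1 := fun i => ⟨hhN i, (hh i).2⟩
  have has : h s - z ^ L.p ∈ N ∧ L.nm (h s - z ^ L.p) ≤ 1 :=
    ⟨sub_mem (hhN s) (pow_mem hzN _), (L.sub _ _).trans (max_le (hh s).2 hzp1)⟩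
  have hat : h t - z ∈ N ∧ L.nm (h t - z) ≤ 1 :=
    ⟨sub_mem (hhN t) hzN, (L.sub _ _).trans (max_le (hh t).2 hz1)⟩
  have hArc : Arc L N β := by
    intro i j
    rcases hcas i with rfl | rfl | ⟨h1, h2⟩
    · rw [hβs]
      exact kd_X N has.1 has.2 _ _
    · rw [hβt]
      exact kd_X N hat.1 hat.2 _ _
    · rw [hβi i h1 h2]
      exact kd_C N (ha i).1 (ha i).2 _
  have hdeg : ∀ i, (β i).natDegree ≤ L.p := by
    intro i
    rcases hcas i with rfl | rfl | ⟨h1, h2⟩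
    · rw [hβs, natDegree_X_pow_add_C]
    · rw [hβt, natDegree_X_pow_add_C]
      exact L.pp.one_lt.le
    · rw [hβi i h1 h2, natDegree_C]
      exact Nat.zero_le _
  have hder : ∀ w : Ω, L.nm w ≤ 1 → ∀ i,
      L.nm ((derivative (β i)).eval w - (Pi.single t 1 : σ → Ω) i) < 1 := by
    intro w hw i
    rcases hcas i with rfl | rfl | ⟨h1, h2⟩
    · rw [hβs, Pi.single_eq_of_ne hst, sub_zero, derivative_add, derivative_C, add_zero,
        derivative_X_pow, eval_mul, eval_pow, eval_X, eval_C, L.mul, L.pow]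
      exact (mul_le_of_le_one_right (L.nonneg _) (pow_le_one₀ (L.nonneg _) hw)).trans_lt L.lt
    · rw [hβt, Pi.single_eq_same, derivative_add, derivative_C, add_zero, pow_one, derivative_X,
        eval_one, sub_self, L.zero]
      exact zero_lt_one
    · rw [hβi i h1 h2, Pi.single_eq_of_ne h2, derivative_C, eval_zero, sub_self, L.zero]
      exact zero_lt_one
  -- separation of the `y ν`
  have hsep : ∀ ν ∈ S, ∀ ν' ∈ S, ν ≠ ν' → L.nm (y ν - y ν') = 1 := by
    intro ν hν ν' hν' hne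
    obtain ⟨-, -, -, h1, h2⟩ := hy ν hν
    obtain ⟨-, -, -, h1', h2'⟩ := hy ν' hν'
    refine le_antisymm ((L.sub _ _).trans (max_le h1 h1')) ?_
    by_contra hcon
    push Not at hcon
    have h3 := kd_pow h1 h1' hcon L.p
    have h4 := hU ν hν ν' hν' hne
    have e1 : ν - ν' = (y ν ^ L.p - y ν' ^ L.p) - ((y ν ^ L.p - ν) - (y ν' ^ L.p - ν')) := by ring
    have h5 : L.nm (ν - ν') < 1 := by
      rw [e1]
      exact (L.sub _ _).trans_lt (max_lt h3 ((L.sub _ _).trans_lt (max_lt h2 h2')))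
    exact absurd h4 h5.ne
  have hinj : Set.InjOn y (S : Set Ω) := by
    intro ν hν ν' hν' he
    by_contra hne
    have h1 := hsep ν hν ν' hν' hne
    rw [he, sub_self, L.zero] at h1
    exact zero_ne_one h1
  have key := hQ.arc N hN β hArc hdeg hder (S.image y) (by
    intro c hc'
    obtain ⟨ν, hν, rfl⟩ := Finset.mem_image.1 hc'
    exact ⟨hyN ν hν, (hy ν hν).2.2.2.1⟩) (by
    intro c hc' c' hc'' hne
    obtain ⟨ν, hν, rfl⟩ := Finset.mem_image.1 hc'
    obtain ⟨ν', hν', rfl⟩ := Finset.mem_image.1 hc''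
    exact hsep ν hν ν' hν' fun h0 => hne (by rw [h0])) (by
    rwa [Finset.card_image_of_injOn hinj]) (by
    intro c hc'
    obtain ⟨ν, hν, rfl⟩ := Finset.mem_image.1 hc'
    refine hT N hN _ (fun i => ?_) fun i hi => ?_
    · have h1 : (β i).eval (y ν) ∈ N ∧ L.nm ((β i).eval (y ν)) ≤ 1 := by
        rcases hcas i with rfl | rfl | ⟨h1, h2⟩
        · rw [hβs, eval_add, eval_pow, eval_X, eval_C]
          refine ⟨add_mem (pow_mem (hyN ν hν) _) has.1, (L.add _ _).trans (max_le ?_ has.2)⟩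
          rw [L.pow]
          exact pow_le_one₀ (L.nonneg _) (hy ν hν).2.2.2.1
        · rw [hβt, eval_add, eval_pow, eval_X, eval_C, pow_one]
          exact ⟨add_mem (hyN ν hν) hat.1,
            (L.add _ _).trans (max_le (hy ν hν).2.2.2.1 hat.2)⟩
        · rw [hβi i h1 h2, eval_C]
          exact ha i
      exact h1
    · by_cases h1 : i = s
      · subst h1
        refine ⟨ν, hν, ?_⟩
        have e1 : (β i).eval (y ν) - ν = (y ν ^ L.p - ν) - (z ^ L.p - h i) := by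
          rw [hβs, eval_add, eval_pow, eval_X, eval_C]
          ring
        rw [e1]
        exact (L.sub _ _).trans_lt (max_lt (hy ν hν).2.2.2.2 hzp)
      · have h2 : i ≠ t := fun h0 => hi (h0 ▸ ht)
        have h3 := hn i (fun h0 => (Set.mem_insert_iff.1 h0).elim h1 hi)
        rw [hβi i h1 h2, eval_C]
        exact h3) z hzN hz1
  have he : (fun i => (β i).eval z) = h := by
    funext i
    rcases hcas i with rfl | rfl | ⟨h1, h2⟩
    · rw [hβs, eval_add, eval_pow, eval_X, eval_C]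
      ring
    · rw [hβt, eval_add, eval_pow, eval_X, eval_C]
      ring
    · rw [hβi i h1 h2, eval_C]
  rwa [he] at key

end GX
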