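import Pool.Agent.Lib.MP_f80667_ag.Ep.Kd1

/-! The grid. -/

open ZC BE PE CV IntermediateField Polynomial

namespace GX

variable {F : Type} [Field F] {K Ω : Type} [Field K] [CharZero K] [Field Ω] [Algebra K Ω]
  [Algebra F K] [Algebra F Ω] [IsScalarTower F K Ω] [IsAlgClosure K Ω] {L : Ld K Ω} {V : Vr F}
  [Hf V] {σ B : Type} {P : B → (σ → Ω) → V.pt Ω} {π : Ω} {M M' : IntermediateField K Ω}
  {b : B} {h h' x x' : σ → Ω} {n v : ℕ} {W : AddSubgroup (V.pt Ω →₀ ℤ)}

/-- **The grid.** Proof: `grid_t`, `grid_s` by induction over the finitely many coordinates. -/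
theorem grid [Finite σ] [DecidableEq σ] {D : ℕ} {t : σ} {Q : (σ → Ω) → Prop} (hQ : Gq L D t Q)
    {M₀ : IntermediateField K Ω} (hM₀ : Um L M₀) {S : Finset Ω}
    (hS : ∀ c ∈ S, c ∈ M₀ ∧ L.nm c ≤ 1) (hU : Us L S) (hc : D ≤ S.card)
    (hg : ∀ h : σ → Ω, (∀ i, h i ∈ S) → Q h) (hM : Um L M) (hh : Iv L M h) : Q h := by
  have key : ∀ U : Finset σ, ∀ M : IntermediateField K Ω, Um L M → ∀ h : σ → Ω, Iv L M h →
      (∀ i, i ∉ insert t (U : Set σ) → ∃ c ∈ S, L.nm (h i - c) < 1) → Q h := by
    intro U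
    induction U using Finset.induction_on with
    | empty =>
      intro M hM h hh hn
      refine grid_t hQ hM₀ hS hU hc hg hM hh fun i hi => hn i fun h0 => ?_
      rcases Set.mem_insert_iff.1 h0 with h1 | h1
      · exact hi h1
      · exact absurd h1 (by simp)
    | insert s U hs ih =>
      intro M hM h hh hn
      by_cases hsT : s ∈ insert t (U : Set σ)
      · refine ih M hM h hh fun i hi => hn i fun h0 => hi ?_
        rcases Set.mem_insert_iff.1 h0 with h1 | h1
        · exact Set.mem_insert_iff.2 (Or.inl h1)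
        · rcases Finset.mem_insert.1 (Finset.mem_coe.1 h1) with h2 | h2
          · exact h2 ▸ hsT
          · exact Set.mem_insert_of_mem t h2
      · refine grid_s hQ hM₀ hS hU hc (Set.mem_insert t (U : Set σ)) hsT ih hM hh
          fun i hi => hn i fun h0 => hi ?_
        rcases Set.mem_insert_iff.1 h0 with h1 | h1
        · exact Set.mem_insert_of_mem s (Set.mem_insert_iff.2 (Or.inl h1))
        · rcases Finset.mem_insert.1 (Finset.mem_coe.1 h1) with h2 | h2
          · exact Set.mem_insert_iff.2 (Or.inl h2)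
          · exact Set.mem_insert_of_mem s (Set.mem_insert_of_mem t h2)
  cases nonempty_fintype σ
  exact key Finset.univ M hM h hh fun i hi =>
    absurd (Set.mem_insert_of_mem t (Finset.mem_coe.2 (Finset.mem_univ i))) hi

end GX
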