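import Pool.Agent.Lib.MP_f80667_ag.Ep.Ka

/-! The property `Qg` extends along arcs. -/

open ZC BE PE CV IntermediateField Polynomial

namespace GX

variable {F : Type} [Field F] {K Ω : Type} [Field K] [CharZero K] [Field Ω] [Algebra K Ω]
  [Algebra F K] [Algebra F Ω] [IsScalarTower F K Ω] [IsAlgClosure K Ω] {L : Ld K Ω} {V : Vr F}
  [Hf V] {σ B : Type} {P : B → (σ → Ω) → V.pt Ω} {π : Ω} {M M' : IntermediateField K Ω}
  {b : B} {h h' x x' : σ → Ω} {n v : ℕ} {W : AddSubgroup (V.pt Ω →₀ ℤ)}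

omit [Algebra F K] [Algebra F Ω] [IsScalarTower F K Ω] in
private theorem ke_nm (hM' : Um L M') (hle : M ≤ M') {c a : Ω} (hc : c ∈ M) :
    Nm M M' (c * a) = c * Nm M M' a := by
  have := hM'.fd
  obtain ⟨s, -, h₂, -, h₃⟩ := nm_rep hle
  rw [h₃ Ω (c * a), h₃ Ω a, Finset.mul_sum]
  refine Finset.sum_congr rfl fun γ hγ => ?_
  change γ (c * a) = c * γ a
  rw [map_mul, (IntermediateField.mem_fixingSubgroup_iff M γ).1 (h₂ γ hγ) c hc]

omit [CharZero K] [Algebra F K] [Algebra F Ω] [IsScalarTower F K Ω] [IsAlgClosure K Ω] in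
private theorem ke_iv [DecidableEq σ] (t : σ) : Iv L M (Pi.single t (1 : Ω)) := by
  intro i
  rw [Pi.single_apply]
  split_ifs
  · exact ⟨one_mem M, L.one.le⟩
  · exact ⟨zero_mem M, by rw [L.zero]; exact zero_le_one⟩

private theorem ke_dv [DecidableEq σ] (hB : Bs L P) (hπ : Uf L π) (hn : n ≠ 0)
    (hW : Vb L P π (n + 1) ≤ W) (hM : Um L M) (hM' : Um L M') (hle : M ≤ M') (hh : Iv L M h)
    {t : σ} {a : Ω} (ha : a ∈ M') (ha1 : L.nm a ≤ 1) :
    dvb P M' b h (h + π ^ n • Pi.single t a) - dvb P M b h (h + π ^ n • Pi.single t (Nm M M' a)) ∈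
      W := by
  have h1 := dv_norm (b := b) hB hπ hM hM' hle hh (ke_iv t)
    (mul_mem (pow_mem (hπ.mem M') n) ha) hn (by
      rw [L.mul, L.pow]
      exact mul_le_of_le_one_right (pow_nonneg (L.nonneg _) _) ha1)
  rw [ke_nm hM' hle (pow_mem (hπ.mem M) n)] at h1
  have e : ∀ c : Ω, (π ^ n * c) • (Pi.single t 1 : σ → Ω) = π ^ n • Pi.single t c := by
    intro c
    funext i
    rw [Pi.smul_apply, Pi.smul_apply, Pi.single_apply, Pi.single_apply]
    split_ifs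
    · simp only [smul_eq_mul, mul_one]
    · simp only [smul_zero]
  rw [e, e] at h1
  exact hW (vb_anti hπ (by omega : n + 1 ≤ 2 * n) h1)

private theorem ke_gd [DecidableEq σ] (hB : Bs L P) (hπ : Uf L π) (hn : n ≠ 0)
    (hW : Vb L P π (n + 1) ≤ W) (hM : Um L M) (hM' : Um L M') (hle : M ≤ M') (hh : Iv L M h)
    {s t : σ} {a : Ω} (ha : a ∈ M') (ha1 : L.nm a ≤ 1) :
    gd P π n M' b h (Pi.single s 1) (Pi.single t a) -
      gd P π n M b h (Pi.single s 1) (Pi.single t (Nm M M' a)) ∈ W := by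
  have hh' : Iv L M (h + π • Pi.single s (1 : Ω)) := by
    intro i
    rw [Pi.add_apply, Pi.smul_apply, smul_eq_mul]
    refine ⟨add_mem (hh i).1 (mul_mem (hπ.mem M) (ke_iv (L := L) s i).1),
      (L.add _ _).trans (max_le (hh i).2 ?_)⟩
    rw [L.mul]
    exact mul_le_one₀ hπ.lt.le (L.nonneg _) (ke_iv (M := M) s i).2
  have h1 := ke_dv (b := b) hB hπ hn hW hM hM' hle hh (t := t) ha ha1
  have h2 := ke_dv (b := b) hB hπ hn hW hM hM' hle hh' (t := t) ha ha1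
  have h3 := W.sub_mem h2 h1
  unfold gd
  have e : ∀ a b c d : V.pt Ω →₀ ℤ, a - b - (c - d) = a - c - (b - d) := fun _ _ _ _ => by abel
  rw [e] at h3
  exact h3

/-- **K1** for `gd`. Proof: as `ko_of`: `dv_norm` for both terms of `gd` (`x = τ e_t`), `um_tr`, `um_nm`. -/
theorem qg_of [DecidableEq σ] (hB : Bs L P) (hπ : Uf L π) (hn : n ≠ 0)
    (hW : Vb L P π (n + 1) ≤ W) (hM : Um L M) (hh : Iv L M h) {s t : σ}
    (hk : ∀ τ ∈ M, L.nm τ ≤ 1 → gd P π n M b h (Pi.single s 1) (Pi.single t τ) ∈ W) :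
    Qg L P π n W b s t h := by
  intro M' hM' hh' τ hτ hτ1
  have hM'' : Um L (M ⊔ M') := um_sup hM hM'
  -- the composite
  have h1 : ∀ a ∈ M ⊔ M', L.nm a ≤ 1 →
      gd P π n (M ⊔ M') b h (Pi.single s 1) (Pi.single t a) ∈ W := by
    intro a ha ha1
    have h2 := ke_gd (b := b) hB hπ hn hW hM hM'' le_sup_left hh (s := s) (t := t) ha ha1
    obtain ⟨h3, h4⟩ := um_nm hM'' (le_sup_left : M ≤ M ⊔ M') ha ha1
    have h5 := W.add_mem h2 (hk _ h3 h4)
    rwa [sub_add_cancel] at h5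
  obtain ⟨a, ha, ha1, hNa⟩ := um_tr hM' hM'' (le_sup_right : M' ≤ M ⊔ M') hτ hτ1
  have h2 := ke_gd (b := b) hB hπ hn hW hM' hM'' le_sup_right hh' (s := s) (t := t) ha ha1
  rw [hNa] at h2
  have h3 := W.sub_mem (h1 a ha ha1) h2
  rwa [sub_sub_cancel] at h3

end GX
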