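import Pool.Agent.Lib.MP_f80667_ag.Ep.Kb1

/-! The property `Qg` extends along arcs. -/

open ZC BE PE CV IntermediateField Polynomial

namespace GX

variable {F : Type} [Field F] {K Ω : Type} [Field K] [CharZero K] [Field Ω] [Algebra K Ω]
  [Algebra F K] [Algebra F Ω] [IsScalarTower F K Ω] [IsAlgClosure K Ω] {L : Ld K Ω} {V : Vr F}
  [Hf V] {σ B : Type} {P : B → (σ → Ω) → V.pt Ω} {π : Ω} {M M' : IntermediateField K Ω}
  {b : B} {h h' x x' : σ → Ω} {n v : ℕ} {W : AddSubgroup (V.pt Ω →₀ ℤ)}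

private theorem ke1_ev {f : Polynomial Ω} (hf : ∀ j, f.coeff j ∈ M ∧ L.nm (f.coeff j) ≤ 1)
    {x : Ω} (hx : x ∈ M) (hx1 : L.nm x ≤ 1) : f.eval x ∈ M ∧ L.nm (f.eval x) ≤ 1 := by
  rw [Polynomial.eval_eq_sum_range]
  refine ⟨sum_mem fun i _ => mul_mem (hf i).1 (pow_mem hx i),
    L.sum_le _ _ zero_le_one fun i _ => ?_⟩
  rw [L.mul, L.pow]
  exact mul_le_one₀ (hf i).2 (pow_nonneg (L.nonneg _) _) (pow_le_one₀ (L.nonneg _) hx1)

private theorem ke1_der {f : Polynomial Ω} (hf : ∀ j, f.coeff j ∈ M ∧ L.nm (f.coeff j) ≤ 1)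
    (j : ℕ) : (derivative f).coeff j ∈ M ∧ L.nm ((derivative f).coeff j) ≤ 1 := by
  rw [coeff_derivative]
  have h1 : ((j : Ω) + 1) = ((j + 1 : ℕ) : Ω) := by push_cast; rfl
  rw [h1]
  refine ⟨mul_mem (hf _).1 (_root_.natCast_mem _ _), ?_⟩
  rw [L.mul]
  exact mul_le_one₀ (hf _).2 (L.nonneg _) (L.nat_le _)

private theorem ke1_prod (S : Finset Ω) (g : Ω → Ω) (h : ∀ c ∈ S, g c ∈ M ∧ L.nm (g c) = 1) :
    (∏ c ∈ S, g c) ∈ M ∧ L.nm (∏ c ∈ S, g c) = 1 := by
  refine ⟨prod_mem fun c hc => (h c hc).1, ?_⟩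
  classical
  induction S using Finset.induction_on with
  | empty => rw [Finset.prod_empty, L.one]
  | insert a S ha ih =>
    rw [Finset.prod_insert ha, L.mul, (h a (Finset.mem_insert_self _ _)).2,
      ih fun c hc => h c (Finset.mem_insert_of_mem hc), one_mul]

private theorem ke1_unit {S : Finset Ω} (hS : ∀ c ∈ S, c ∈ M ∧ L.nm c ≤ 1) (hU : Us L S) {c : Ω}
    (hc : c ∈ S) : (derivative (∏ c ∈ S, (X - C c))).eval c ∈ M ∧
      L.nm ((derivative (∏ c ∈ S, (X - C c))).eval c) = 1 := by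
  classical
  have h1 := Lagrange.eval_nodal_derivative_eval_node_eq (v := (id : Ω → Ω)) hc
  rw [Lagrange.eval_nodal] at h1
  have h2 : Lagrange.nodal S (id : Ω → Ω) = ∏ c ∈ S, (X - C c) := rfl
  rw [h2] at h1
  rw [show (derivative (∏ c ∈ S, (X - C c))).eval c = ∏ c' ∈ S.erase c, (c - c') from h1]
  refine ke1_prod _ _ fun c' hc' => ⟨sub_mem (hS c hc).1 (hS c' (Finset.mem_of_mem_erase hc')).1,
    hU c hc c' (Finset.mem_of_mem_erase hc') (Finset.ne_of_mem_erase hc').symm⟩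

/-- **VE** for `gd`, `z` unit separated from `S`. Proof: `Crm` for `β + π e_s` minus `Crm` for `β`, `insert z S`, `τ m' (z)`; the derivative of `β` is `e_t` modulo the maximal ideal (`gd_close`). -/
theorem qg_one [DecidableEq σ] (hB : Bs L P) (hπ : Uf L π) (hn : n ≠ 0)
    (hW : Vb L P π (n + 1) ≤ W) {D : ℕ} (hC : Crm L P π n D L.p) (hM : Um L M)
    {β : σ → Polynomial Ω} (hβ : Arc L M β) (hρ : ∀ i, (β i).natDegree ≤ L.p) {s t : σ}
    (hd : ∀ z : Ω, L.nm z ≤ 1 → ∀ i,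
      L.nm ((derivative (β i)).eval z - (Pi.single t 1 : σ → Ω) i) < 1) {S : Finset Ω}
    (hS : ∀ c ∈ S, c ∈ M ∧ L.nm c ≤ 1) (hU : Us L S) (hc : D * L.p ≤ S.card)
    (hk : ∀ c ∈ S, Qg L P π n W b s t fun i => (β i).eval c)
    {z : Ω} (hz : z ∈ M) (hz1 : L.nm z ≤ 1) (hzS : ∀ c ∈ S, L.nm (z - c) = 1) {τ : Ω}
    (hτ : τ ∈ M) (hτ1 : L.nm τ ≤ 1) :
    gd P π n M b (fun i => (β i).eval z) (Pi.single s 1) (Pi.single t τ) ∈ W := by
  classical
  have hzS' : z ∉ S := fun h => by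
    have h1 := hzS z h
    rw [sub_self, L.zero] at h1
    exact zero_ne_one h1
  obtain ⟨S', hS'⟩ : ∃ S' : Finset Ω, S' = insert z S := ⟨_, rfl⟩
  have hzm : z ∈ S' := by
    rw [hS']
    exact Finset.mem_insert_self _ _
  have hSm : ∀ c ∈ S, c ∈ S' := fun c hc => by
    rw [hS']
    exact Finset.mem_insert_of_mem hc
  have hcard : D * L.p < S'.card := by
    rw [hS', Finset.card_insert_of_notMem hzS']
    omega
  have hS'm : ∀ c ∈ S', c ∈ M ∧ L.nm c ≤ 1 := by
    intro c hc'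
    rw [hS', Finset.mem_insert] at hc'
    rcases hc' with rfl | hc'
    · exact ⟨hz, hz1⟩
    · exact hS c hc'
  have hU' : Us L S' := by
    intro c hc c' hc' hne
    rw [hS', Finset.mem_insert] at hc hc'
    rcases hc with rfl | hc
    · rcases hc' with rfl | hc'
      · exact absurd rfl hne
      · exact hzS c' hc'
    · rcases hc' with rfl | hc'
      · rw [L.sub_comm]
        exact hzS c hc
      · exact hU c hc c' hc' hne
  obtain ⟨m, hm⟩ : ∃ m : Polynomial Ω, m = ∏ c ∈ S', (X - C c) := ⟨_, rfl⟩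
  have hmc : ∀ c ∈ S', (derivative m).eval c ∈ M ∧ L.nm ((derivative m).eval c) = 1 := by
    intro c hc'
    rw [hm]
    exact ke1_unit hS'm hU' hc'
  obtain ⟨τ', hτ'⟩ : ∃ τ' : Ω, τ' = τ * (derivative m).eval z := ⟨_, rfl⟩
  have hτ'M : τ' ∈ M := by
    rw [hτ']
    exact mul_mem hτ (hmc z hzm).1
  have hτ'1 : L.nm τ' ≤ 1 := by
    rw [hτ', L.mul, (hmc z hzm).2, mul_one]
    exact hτ1
  obtain ⟨w, hw⟩ : ∃ w : σ → Ω, w = Pi.single s 1 := ⟨_, rfl⟩
  have hwI : Iv L M w := by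
    intro i
    rw [hw, Pi.single_apply]
    split_ifs
    · exact ⟨one_mem _, L.one.le⟩
    · exact ⟨zero_mem _, by rw [L.zero]; exact zero_le_one⟩
  have hβ'a : Arc L M fun i => β i + C (π * w i) := by
    intro i j
    rw [coeff_add, coeff_C]
    have h1 : π * w i ∈ M := mul_mem (hπ.mem M) (hwI i).1
    have h2 : L.nm (π * w i) ≤ 1 := by
      rw [L.mul]
      exact mul_le_one₀ hπ.lt.le (L.nonneg _) (hwI i).2
    split_ifs
    · exact ⟨add_mem (hβ i j).1 h1, (L.add _ _).trans (max_le (hβ i j).2 h2)⟩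
    · rw [add_zero]
      exact hβ i j
  have hβ'd : ∀ i, (β i + C (π * w i)).natDegree ≤ L.p := fun i =>
    (natDegree_add_le _ _).trans (max_le (hρ i) (by rw [natDegree_C]; exact Nat.zero_le _))
  have h1 := hC M hM β hβ hρ b S' hS'm hU' hcard τ' hτ'M hτ'1
  have h2 := hC M hM _ hβ'a hβ'd b S' hS'm hU' hcard τ' hτ'M hτ'1
  rw [← hm] at h1 h2
  have h3 := hW (sub_mem h2 h1)
  rw [← Finset.sum_sub_distrib] at h3
  obtain ⟨G, hG⟩ : ∃ G : Ω → V.pt Ω →₀ ℤ, G = fun c => gd P π n M b (fun i => (β i).eval c) w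
      fun i => τ' / (derivative m).eval c * (derivative (β i)).eval c := ⟨_, rfl⟩
  have h4 : ∀ c, dvb P M b (fun i => (β i + C (π * w i)).eval c) (fun i =>
      (β i + C (π * w i)).eval c + π ^ n * (τ' / (derivative m).eval c) *
        (derivative (β i + C (π * w i))).eval c) - dvb P M b (fun i => (β i).eval c) (fun i =>
      (β i).eval c + π ^ n * (τ' / (derivative m).eval c) * (derivative (β i)).eval c) = G c := by
    intro c
    rw [hG]
    unfold gd
    have e1 : (fun i => (β i + C (π * w i)).eval c) = (fun i => (β i).eval c) + π • w := by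
      funext i
      rw [eval_add, eval_C]
      rfl
    have e2 : (fun i => (β i + C (π * w i)).eval c + π ^ n * (τ' / (derivative m).eval c) *
        (derivative (β i + C (π * w i))).eval c) = (fun i => (β i).eval c) + π • w +
          π ^ n • fun i => τ' / (derivative m).eval c * (derivative (β i)).eval c := by
      funext i
      rw [eval_add, eval_C, derivative_add, derivative_C, add_zero, mul_assoc (π ^ n)]
      rfl
    have e3 : (fun i => (β i).eval c + π ^ n * (τ' / (derivative m).eval c) *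
        (derivative (β i)).eval c) = (fun i => (β i).eval c) +
          π ^ n • fun i => τ' / (derivative m).eval c * (derivative (β i)).eval c := by
      funext i
      rw [mul_assoc (π ^ n)]
      rfl
    rw [e1, e2, e3]
  rw [Finset.sum_congr rfl fun c _ => h4 c] at h3
  have ha : ∀ c ∈ S', τ' / (derivative m).eval c ∈ M ∧ L.nm (τ' / (derivative m).eval c) ≤ 1 := by
    intro c hc'
    refine ⟨div_mem hτ'M (hmc c hc').1, ?_⟩
    rw [L.div, (hmc c hc').2, div_one]
    exact hτ'1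
  have hsng : ∀ (a : Ω) (i : σ), (Pi.single t a : σ → Ω) i = a * (Pi.single t 1 : σ → Ω) i := by
    intro a i
    rw [Pi.single_apply, Pi.single_apply]
    split_ifs
    · rw [mul_one]
    · rw [mul_zero]
  have hIs : ∀ a ∈ M, L.nm a ≤ 1 → Iv L M (Pi.single t a : σ → Ω) := by
    intro a ha' ha1 i
    rw [Pi.single_apply]
    split_ifs
    · exact ⟨ha', ha1⟩
    · exact ⟨zero_mem _, by rw [L.zero]; exact zero_le_one⟩
  have hGc : ∀ c ∈ S', G c - gd P π n M b (fun i => (β i).eval c) w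
      (Pi.single t (τ' / (derivative m).eval c)) ∈ W := by
    intro c hc'
    rw [hG]
    have hcI : Iv L M fun i => (β i).eval c := fun i => ke1_ev (hβ i) (hS'm c hc').1 (hS'm c hc').2
    refine hW (gd_close hB hπ hn hM hcI hwI ?_ (hIs _ (ha c hc').1 (ha c hc').2) ?_)
    · intro i
      have h5 := ke1_ev (ke1_der (hβ i)) (hS'm c hc').1 (hS'm c hc').2
      refine ⟨mul_mem (ha c hc').1 h5.1, ?_⟩
      rw [L.mul]
      exact mul_le_one₀ (ha c hc').2 (L.nonneg _) h5.2
    · intro i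
      rw [hsng, ← mul_sub, L.mul]
      exact (mul_le_of_le_one_left (L.nonneg _) (ha c hc').2).trans_lt (hd c (hS'm c hc').2 i)
  have hGS : ∀ c ∈ S, G c ∈ W := by
    intro c hc'
    have h5 := hk c hc' M hM (fun i => ke1_ev (hβ i) (hS c hc').1 (hS c hc').2)
      (τ' / (derivative m).eval c) (ha c (hSm c hc')).1 (ha c (hSm c hc')).2
    rw [← hw] at h5
    have h6 := add_mem (hGc c (hSm c hc')) h5
    rwa [sub_add_cancel] at h6
  rw [hS', Finset.sum_insert hzS'] at h3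
  have hGz : G z ∈ W := by
    have h6 := sub_mem h3 (sum_mem hGS)
    rwa [add_sub_cancel_right] at h6
  have h7 := sub_mem hGz (hGc z hzm)
  rw [sub_sub_cancel] at h7
  have h8 : τ' / (derivative m).eval z = τ := by
    rw [hτ']
    exact mul_div_cancel_right₀ _ (L.ne_zero (by rw [(hmc z hzm).2]; exact one_pos))
  rw [h8, hw] at h7
  exact h7

end GX
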