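import Pool.Agent.Lib.MP_f80667_ag.Ep.Ke
import Pool.Agent.Lib.MP_f80667_ag.Ep.Ke1
import Pool.Agent.Lib.MP_f80667_ag.Ep.Kc

/-! The property `Qg` extends along arcs. -/

open ZC BE PE CV IntermediateField Polynomial

namespace GX

variable {F : Type} [Field F] {K Ω : Type} [Field K] [CharZero K] [Field Ω] [Algebra K Ω]
  [Algebra F K] [Algebra F Ω] [IsScalarTower F K Ω] [IsAlgClosure K Ω] {L : Ld K Ω} {V : Vr F}
  [Hf V] {σ B : Type} {P : B → (σ → Ω) → V.pt Ω} {π : Ω} {M M' : IntermediateField K Ω}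
  {b : B} {h h' x x' : σ → Ω} {n v : ℕ} {W : AddSubgroup (V.pt Ω →₀ ℤ)}

omit [CharZero K] [IsAlgClosure K Ω] in
private theorem kb_iv [DecidableEq σ] {s : σ} {τ : Ω} (hτ : τ ∈ M) (hτ1 : L.nm τ ≤ 1) :
    Iv L M (Pi.single s τ) := by
  intro i
  by_cases h : i = s
  · subst h
    rw [Pi.single_eq_same]
    exact ⟨hτ, hτ1⟩
  · rw [Pi.single_eq_of_ne h]
    exact ⟨M.zero_mem, by rw [(L.zero_iff 0).2 rfl]; exact zero_le_one⟩

/-- Proof: `near`: `gd_near`; `arc`: `near` if `z` is congruent to an element of `S`, otherwise `qg_one`. -/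
theorem qg_gq [DecidableEq σ] (hB : Bs L P) (hπ : Uf L π) (hv : L.nm (2 : Ω) = L.nm π ^ v)
    (hn : 2 * v + 1 ≤ n) (hW : Vb L P π (n + 1) ≤ W) {D : ℕ} (hC : Crm L P π n D L.p) (b : B)
    (s t : σ) : Gq L (D * L.p) t (Qg L P π n W b s t) := by
  have hn0 : n ≠ 0 := by omega
  have near : ∀ M : IntermediateField K Ω, Um L M → ∀ h h' : σ → Ω, Iv L M h → Iv L M h' →
      (∀ i, L.nm (h i - h' i) < 1) → Qg L P π n W b s t h → Qg L P π n W b s t h' := by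
    intro M hM h h' hh hh' hc hQ
    refine qg_of hB hπ hn0 hW hM hh' fun τ hτ hτ1 => ?_
    have h1 := hW (gd_near (b := b) hB hπ hv hn hM hh hh' hc
      (kb_iv (s := s) M.one_mem L.one.le) (kb_iv (s := t) hτ hτ1))
    have h2 := W.sub_mem (hQ M hM hh τ hτ hτ1) h1
    rwa [sub_sub_cancel] at h2
  refine ⟨near, ?_⟩
  intro M hM β hβ hρ hd S hS hU hcard hk z hz hz1
  have hiv : ∀ c ∈ M, L.nm c ≤ 1 → Iv L M fun i => (β i).eval c := by
    intro c hc hc1 i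
    refine ⟨?_, L.eval_le (fun j => (hβ i j).2) hc1⟩
    show (β i).eval c ∈ M
    rw [eval_eq_sum_range]
    exact M.sum_mem fun j _ => M.mul_mem (hβ i j).1 (pow_mem hc j)
  by_cases hcl : ∃ c ∈ S, L.nm (z - c) < 1
  · obtain ⟨c, hc, hzc⟩ := hcl
    refine near M hM _ _ (hiv c (hS c hc).1 (hS c hc).2) (hiv z hz hz1) (fun i => ?_) (hk c hc)
    refine (L.eval_close (fun j => (hβ i j).2) (hS c hc).2 hz1).trans_lt ?_
    rwa [L.sub_comm]
  · refine qg_of hB hπ hn0 hW hM (hiv z hz hz1) fun τ hτ hτ1 =>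
      qg_one hB hπ hn0 hW hC hM hβ hρ hd hS hU hcard hk hz hz1 (fun c hc => ?_) hτ hτ1
    refine le_antisymm ((L.sub z c).trans (max_le hz1 (hS c hc).2)) ?_
    by_contra hlt
    exact hcl ⟨c, hc, not_le.1 hlt⟩

end GX
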