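import Pool.Agent.Lib.MP_f80667_ag.Ep.Ka1
import Pool.Agent.Lib.MP_f80667_ag.Ep.Kc2

/-! If all `gd` are in `W`, the property `Ko` depends only on the residues and extends along arcs. -/

open ZC BE PE CV IntermediateField Polynomial

namespace GX

variable {F : Type} [Field F] {K Ω : Type} [Field K] [CharZero K] [Field Ω] [Algebra K Ω]
  [Algebra F K] [Algebra F Ω] [IsScalarTower F K Ω] [IsAlgClosure K Ω] {L : Ld K Ω} {V : Vr F}
  [Hf V] {σ B : Type} {P : B → (σ → Ω) → V.pt Ω} {π : Ω} {M M' : IntermediateField K Ω}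
  {b : B} {h h' x x' : σ → Ω} {n v : ℕ} {W : AddSubgroup (V.pt Ω →₀ ℤ)}

omit [CharZero K] [IsAlgClosure K Ω] in
private theorem kg_ev {q : Polynomial Ω} (hq : ∀ j, q.coeff j ∈ M ∧ L.nm (q.coeff j) ≤ 1)
    {z : Ω} (hz : z ∈ M) (hz1 : L.nm z ≤ 1) : q.eval z ∈ M ∧ L.nm (q.eval z) ≤ 1 := by
  refine ⟨?_, L.eval_le (fun j => (hq j).2) hz1⟩
  rw [Polynomial.eval_eq_sum_range]
  exact sum_mem fun i _ => mul_mem (hq i).1 (pow_mem hz i)

omit [CharZero K] [IsAlgClosure K Ω] in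
private theorem kg_der {q : Polynomial Ω} (hq : ∀ j, q.coeff j ∈ M ∧ L.nm (q.coeff j) ≤ 1)
    (j : ℕ) : (derivative q).coeff j ∈ M ∧ L.nm ((derivative q).coeff j) ≤ 1 := by
  rw [coeff_derivative]
  have h1 : ((j : Ω) + 1) = ((j + 1 : ℕ) : Ω) := by push_cast; rfl
  rw [h1]
  refine ⟨mul_mem (hq _).1 (IntermediateField.natCast_mem _ _), ?_⟩
  rw [L.mul]
  exact mul_le_one₀ (hq _).2 (L.nonneg _) (L.nat_le _)

/-- Proof: `near`: `h' - h = π w`, `gd` and `dv_add`: `Ko h x` and `Ko h' x` are equivalent if `gd h w (τ x) ∈ W`; `arc`: `ve`, `ko_close`. -/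
theorem ko_gq [DecidableEq σ] (hB : Bs L P) (hπ : Uf L π) (hn : n ≠ 0)
    (hW : Vb L P π (n + 1) ≤ W) {D : ℕ} (hC : Crm L P π n D L.p) (b : B) (t : σ)
    (hG : ∀ M : IntermediateField K Ω, Um L M → ∀ h w x : σ → Ω, Iv L M h → Iv L M w →
      Iv L M x → gd P π n M b h w x ∈ W) :
    Gq L (D * L.p) t fun h => Ko L P π n W b h (Pi.single t 1) := by
  have hst : ∀ M : IntermediateField K Ω, Iv L M (Pi.single t 1 : σ → Ω) := fun M i => by
    by_cases h : i = t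
    · rw [h, Pi.single_eq_same]
      exact ⟨one_mem M, L.one.le⟩
    · rw [Pi.single_eq_of_ne h]
      exact ⟨zero_mem M, by rw [L.zero]; exact zero_le_one⟩
  refine ⟨fun M hM h h' hh hh' hc hk => ?_, fun M hM β hβ hρ hd S hS hU hc hk z hz hz1 => ?_⟩
  · refine ko_of hB hπ hn hW hM hh' (hst M) fun τ hτ hτ1 => ?_
    have hw : Iv L M (π⁻¹ • (h' - h)) := fun i => by
      have h1 : (h' - h) i ∈ M := sub_mem (hh' i).1 (hh i).1
      refine ⟨mul_mem (inv_mem (hπ.mem M)) h1, ?_⟩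
      have h2 : L.nm ((h' - h) i) ≤ L.nm π := hπ.um_lt hM h1 (by
        rw [Pi.sub_apply, L.sub_comm]
        exact hc i)
      have h3 : π * (π⁻¹ • (h' - h)) i = (h' - h) i := by
        rw [Pi.smul_apply, smul_eq_mul, mul_inv_cancel_left₀ hπ.ne]
      have h4 : L.nm π * L.nm ((π⁻¹ • (h' - h)) i) ≤ L.nm π * 1 := by
        rw [← L.mul, h3, mul_one]
        exact h2
      exact le_of_mul_le_mul_left h4 hπ.pos
    have hx : Iv L M (τ • (Pi.single t 1 : σ → Ω)) := fun i =>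
      ⟨mul_mem hτ (hst M i).1, by
        rw [Pi.smul_apply, smul_eq_mul, L.mul]
        exact mul_le_one₀ hτ1 (L.nonneg _) (hst M i).2⟩
    have h1 := hG M hM h _ _ hh hw hx
    have h2 := hk M hM hh (hst M) τ hτ hτ1
    have h3 : h + π • π⁻¹ • (h' - h) = h' := by
      rw [smul_smul, mul_inv_cancel₀ hπ.ne, one_smul, add_sub_cancel]
    unfold gd at h1
    rw [h3, smul_smul] at h1
    have h4 := W.add_mem h1 h2
    rwa [sub_add_cancel] at h4
  · have hev : ∀ z ∈ M, L.nm z ≤ 1 → Iv L M fun i => (β i).eval z := fun z hz hz1 i =>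
      kg_ev (hβ i) hz hz1
    have hdv : ∀ z ∈ M, L.nm z ≤ 1 → Iv L M fun i => (derivative (β i)).eval z :=
      fun z hz hz1 i => kg_ev (kg_der (hβ i)) hz hz1
    refine ko_close hB hπ hn hW hM (hev z hz hz1) (hdv z hz hz1) (hst M) (hd z hz1) ?_
    refine ve hB hπ hn hW hC hM hβ hρ hS hU hc (fun c hc' => ?_) hz hz1
    refine ko_close hB hπ hn hW hM (hev c (hS c hc').1 (hS c hc').2) (hst M)
      (hdv c (hS c hc').1 (hS c hc').2) (fun i => ?_) (hk c hc')
    rw [L.sub_comm]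
    exact hd c (hS c hc').2 i

end GX
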