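import Pool.Agent.Lib.MP_f80667_ag.Ep.K

/-! `V n` is generated by `V (n + 1)` and finitely many cycles. -/

open ZC BE PE CV IntermediateField Polynomial

namespace GX

variable {F : Type} [Field F] {K Ω : Type} [Field K] [CharZero K] [Field Ω] [Algebra K Ω]
  [Algebra F K] [Algebra F Ω] [IsScalarTower F K Ω] [IsAlgClosure K Ω] {L : Ld K Ω} {V : Vr F}
  [Hf V] {σ B : Type} {P : B → (σ → Ω) → V.pt Ω} {π : Ω} {M M' : IntermediateField K Ω}
  {b : B} {h h' x x' : σ → Ω} {n v : ℕ} {W : AddSubgroup (V.pt Ω →₀ ℤ)}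

/-- Representatives of the residues of the integers of an unramified field. Proof: `L.Te N` is finite (roots of `X ^ (p ^ N) - X`), `Ld.te_rep`-like. -/
theorem exists_rep (hM : Um L M) : ∃ R : Finset Ω, (∀ c ∈ R, L.nm c ≤ 1) ∧
    ∃ M' : IntermediateField K Ω, Um L M' ∧ M ≤ M' ∧ (∀ c ∈ R, c ∈ M') ∧
      ∀ τ ∈ M', L.nm τ ≤ 1 → ∃ c ∈ R, L.nm (τ - c) < 1 := by
  classical
  obtain ⟨N, hN, hMN⟩ := hM
  obtain ⟨k, hk, hkk⟩ := Ld.exists_rf (L := L) (⊥ : IntermediateField K Ω)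
  have hN' : k * N ≠ 0 := Nat.mul_ne_zero hk hN
  have hR := hkk (k * N) hN' (dvd_mul_right k N)
  have hq : 1 < L.p ^ (k * N) := Nat.one_lt_pow hN' L.pp.one_lt
  have hne : (Polynomial.X ^ L.p ^ (k * N) - Polynomial.X : Polynomial Ω) ≠ 0 :=
    FiniteField.X_pow_card_sub_X_ne_zero Ω hq
  have hmem : ∀ c : Ω, c ∈ (Polynomial.X ^ L.p ^ (k * N) -
      Polynomial.X : Polynomial Ω).roots.toFinset ↔ c ∈ L.Te (k * N) := by
    intro c
    rw [Multiset.mem_toFinset, Polynomial.mem_roots hne, Polynomial.IsRoot.def,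
      Polynomial.eval_sub, Polynomial.eval_pow, Polynomial.eval_X, sub_eq_zero]
    exact Iff.rfl
  refine ⟨(Polynomial.X ^ L.p ^ (k * N) - Polynomial.X : Polynomial Ω).roots.toFinset,
    fun c hc => Ld.te_int hN' ((hmem c).1 hc), L.Ur ⊥ (k * N), ⟨k * N, hN', le_rfl⟩,
    hMN.trans (Ld.ur_dvd ⊥ (dvd_mul_left N k)), fun c hc => Ld.te_ur ((hmem c).1 hc),
    fun τ hτ hτ1 => ?_⟩
  obtain ⟨z, hz, hz1⟩ := hR.res τ hτ hτ1
  exact ⟨z, (hmem z).2 hz, hz1⟩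

end GX
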