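import Pool.Agent.Lib.MP_f80667_ag.Ep.Kd2
import Pool.Agent.Lib.MP_f80667_ag.Ep.Ke2
import Pool.Agent.Lib.MP_f80667_ag.Ep.Kg
import Pool.Agent.Lib.MP_f80667_ag.Ep.Kb2
import Pool.Agent.Lib.MP_f80667_ag.Ep.Kh

/-! `V n` is generated by `V (n + 1)` and finitely many cycles. -/

open ZC BE PE CV IntermediateField Polynomial

namespace GX

variable {F : Type} [Field F] {K Ω : Type} [Field K] [CharZero K] [Field Ω] [Algebra K Ω]
  [Algebra F K] [Algebra F Ω] [IsScalarTower F K Ω] [IsAlgClosure K Ω] {L : Ld K Ω} {V : Vr F}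
  [Hf V] {σ B : Type} {P : B → (σ → Ω) → V.pt Ω} {π : Ω} {M M' : IntermediateField K Ω}
  {b : B} {h h' x x' : σ → Ω} {n v : ℕ} {W : AddSubgroup (V.pt Ω →₀ ℤ)}

omit [Algebra F K] [Algebra F Ω] [IsScalarTower F K Ω] [Field F] in
/-- Unit separated sets of every size. -/
private theorem kh1_us (L : Ld K Ω) (k : ℕ) : ∃ (M : IntermediateField K Ω) (S : Finset Ω),
    Um L M ∧ (∀ c ∈ S, c ∈ M ∧ L.nm c ≤ 1) ∧ Us L S ∧ S.card = k := by
  classical
  induction k with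
  | zero =>
    refine ⟨⊥, ∅, ⟨1, one_ne_zero, bot_le⟩, fun c hc => absurd hc (Finset.notMem_empty c),
      fun c hc => absurd hc (Finset.notMem_empty c), Finset.card_empty⟩
  | succ k ih =>
    obtain ⟨M, S, hM, hS, hU, hk⟩ := ih
    obtain ⟨M', c₁, hM', hle, hc₁, hc₁1, hu⟩ := exists_us hM S hS
    have hn : c₁ ∉ S := by
      intro h
      have h1 := hu c₁ h
      rw [sub_self, L.zero] at h1
      exact zero_ne_one h1
    refine ⟨M', insert c₁ S, hM', fun c hc => ?_, fun c hc c' hc' hne => ?_, ?_⟩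
    · rcases Finset.mem_insert.1 hc with rfl | hc
      · exact ⟨hc₁, hc₁1⟩
      · exact ⟨hle (hS c hc).1, (hS c hc).2⟩
    · rcases Finset.mem_insert.1 hc with h1 | h1
      · rcases Finset.mem_insert.1 hc' with h2 | h2
        · exact absurd (h1.trans h2.symm) hne
        · rw [h1]
          exact hu c' h2
      · rcases Finset.mem_insert.1 hc' with h2 | h2
        · rw [h2, L.sub_comm]
          exact hu c h1
        · exact hU c h1 c' h2 hne
    · rw [Finset.card_insert_of_notMem hn, hk]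

omit [CharZero K] [IsAlgClosure K Ω] [Algebra F K] [Algebra F Ω] [IsScalarTower F K Ω] [Field F] in
private theorem kh1_iv [DecidableEq σ] {s : σ} {τ : Ω} (hτ : τ ∈ M) (hτ1 : L.nm τ ≤ 1) :
    Iv L M (Pi.single s τ) := by
  intro i
  by_cases h : i = s
  · subst h
    rw [Pi.single_eq_same]
    exact ⟨hτ, hτ1⟩
  · rw [Pi.single_eq_of_ne h]
    exact ⟨M.zero_mem, by rw [(L.zero_iff 0).2 rfl]; exact zero_le_one⟩

omit [CharZero K] [IsAlgClosure K Ω] [Algebra F K] [Algebra F Ω] [IsScalarTower F K Ω] [Field F] in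
private theorem kh1_add (hπ : Uf L π) (hh : Iv L M h) (hx : Iv L M x) (m : ℕ) :
    Iv L M (h + π ^ m • x) ∧ ∀ i, L.nm ((h + π ^ m • x) i - h i) ≤ L.nm π ^ m := by
  have h1 : ∀ i, L.nm ((π ^ m • x) i) ≤ L.nm π ^ m := fun i => by
    rw [Pi.smul_apply, smul_eq_mul, L.mul, L.pow]
    exact mul_le_of_le_one_right (pow_nonneg hπ.pos.le _) (hx i).2
  refine ⟨fun i => ⟨M.add_mem (hh i).1 (M.mul_mem (pow_mem (hπ.mem M) m) (hx i).1), ?_⟩,
    fun i => ?_⟩
  · exact (L.add _ _).trans (max_le (hh i).2 ((h1 i).trans (pow_le_one₀ hπ.pos.le hπ.lt.le)))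
  · rw [Pi.add_apply, add_sub_cancel_left]
    exact h1 i

/-- Proof: `W = V (n + 1) ⊔ closure F`, `F` = all `dvb M' b c (c + π ^ n τ e_t)`, `dvb M' b (c + π e_s) (c + π e_s + π ^ n τ e_t)`, `c` in the grid `S ^ σ` (`S` unit separated over `M'`, `D p ≤ card S`: `exists_us`), `τ ∈ R`
(`exists_rep`), `b`, `s`, `t`. `Qg` on the grid (`gd_close`, `qg_of`), everywhere (`qg_gq`, `grid`), all `gd` are in `W` (`gd_basis`); `Ko` on the grid (`ko_of`), everywhere (`ko_gq`, `grid`), all directions (`ko_basis`); `vb_ind`. -/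
theorem Bs.fin_step [Finite σ] [Finite B] (hB : Bs L P) (hπ : Uf L π)
    (hv : L.nm (2 : Ω) = L.nm π ^ v) (hn : 2 * v + 1 ≤ n) {D : ℕ}
    (hC : Crm L P π n D L.p) : ∃ F : Finset (V.pt Ω →₀ ℤ),
      (∀ z ∈ F, z ∈ Vb L P π n) ∧ Vb L P π n ≤ Vb L P π (n + 1) ⊔ AddSubgroup.closure F := by
  classical
  have hn0 : n ≠ 0 := by omega
  obtain ⟨M₁, S, hM₁, hS, hU, hcard⟩ := kh1_us L (D * L.p)
  obtain ⟨R, hR1, M₂, hM₂, hle, hR2, hR3⟩ := exists_rep hM₁
  have hG : {c : σ → Ω | ∀ i, c i ∈ S}.Finite := Set.Finite.pi' fun _ => S.finite_toSet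
  obtain ⟨F₁, hF₁⟩ : ∃ F₁ : Set (V.pt Ω →₀ ℤ), F₁ =
    (fun q : B × (σ → Ω) × σ × Ω => dvb P M₂ q.1 q.2.1
      (q.2.1 + π ^ n • (Pi.single q.2.2.1 q.2.2.2 : σ → Ω))) ''
      ((Set.univ : Set B) ×ˢ {c : σ → Ω | ∀ i, c i ∈ S} ×ˢ (Set.univ : Set σ) ×ˢ
        (R : Set Ω)) := ⟨_, rfl⟩
  obtain ⟨F₂, hF₂⟩ : ∃ F₂ : Set (V.pt Ω →₀ ℤ), F₂ =
    (fun q : B × (σ → Ω) × σ × σ × Ω => dvb P M₂ q.1
      (q.2.1 + π • (Pi.single q.2.2.1 1 : σ → Ω))
      (q.2.1 + π • (Pi.single q.2.2.1 1 : σ → Ω) +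
        π ^ n • (Pi.single q.2.2.2.1 q.2.2.2.2 : σ → Ω))) ''
      ((Set.univ : Set B) ×ˢ {c : σ → Ω | ∀ i, c i ∈ S} ×ˢ (Set.univ : Set σ) ×ˢ
        (Set.univ : Set σ) ×ˢ (R : Set Ω)) := ⟨_, rfl⟩
  have hf1 : F₁.Finite := by
    rw [hF₁]
    exact (Set.finite_univ.prod (hG.prod (Set.finite_univ.prod R.finite_toSet))).image _
  have hf2 : F₂.Finite := by
    rw [hF₂]
    exact (Set.finite_univ.prod (hG.prod (Set.finite_univ.prod
      (Set.finite_univ.prod R.finite_toSet)))).image _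
  have hciv : ∀ c : σ → Ω, (∀ i, c i ∈ S) → Iv L M₂ c := fun c hc i =>
    ⟨hle (hS _ (hc i)).1, (hS _ (hc i)).2⟩
  have hRiv : ∀ (t : σ), ∀ τ ∈ R, Iv L M₂ (Pi.single t τ) := fun t τ hτ =>
    kh1_iv (hR2 τ hτ) (hR1 τ hτ)
  have h1iv : ∀ (M : IntermediateField K Ω) (t : σ), Iv L M (Pi.single t (1 : Ω)) := fun M t =>
    kh1_iv M.one_mem L.one.le
  have hπ1 : ∀ (M : IntermediateField K Ω) (h x : σ → Ω), Iv L M h → Iv L M x →
      Iv L M (h + π • x) := fun M h x hh hx => by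
    have h1 := (kh1_add hπ hh hx 1).1
    rwa [pow_one] at h1
  refine ⟨(hf1.union hf2).toFinset, fun z hz => ?_, ?_⟩
  · rcases (Set.Finite.mem_toFinset _).1 hz with hz | hz
    · rw [hF₁] at hz
      obtain ⟨⟨b, c, t, τ⟩, ⟨-, hc, -, hτ⟩, rfl⟩ := hz
      obtain ⟨g1, g2⟩ := kh1_add hπ (hciv c hc) (hRiv t τ hτ) n
      exact dv_mem hB hM₂ (hciv c hc) g1 g2
    · rw [hF₂] at hz
      obtain ⟨⟨b, c, s, t, τ⟩, ⟨-, hc, -, -, hτ⟩, rfl⟩ := hz
      have g0 := hπ1 M₂ c _ (hciv c hc) (h1iv M₂ s)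
      obtain ⟨g1, g2⟩ := kh1_add hπ g0 (hRiv t τ hτ) n
      exact dv_mem hB hM₂ g0 g1 g2
  · rw [Set.Finite.coe_toFinset]
    obtain ⟨W, hWd⟩ : ∃ W, W = Vb L P π (n + 1) ⊔ AddSubgroup.closure (F₁ ∪ F₂) := ⟨_, rfl⟩
    rw [← hWd]
    have hW : Vb L P π (n + 1) ≤ W := by
      rw [hWd]
      exact le_sup_left
    have hW1 : ∀ (b : B) (c : σ → Ω) (t : σ), (∀ i, c i ∈ S) → ∀ τ ∈ R,
        dvb P M₂ b c (c + π ^ n • (Pi.single t τ : σ → Ω)) ∈ W := by
      intro b c t hc τ hτ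
      rw [hWd]
      refine (le_sup_right : AddSubgroup.closure (F₁ ∪ F₂) ≤ _)
        (AddSubgroup.subset_closure (Or.inl ?_))
      rw [hF₁]
      exact ⟨(b, c, t, τ), ⟨Set.mem_univ _, hc, Set.mem_univ _, hτ⟩, rfl⟩
    have hW2 : ∀ (b : B) (c : σ → Ω) (s t : σ), (∀ i, c i ∈ S) → ∀ τ ∈ R,
        dvb P M₂ b (c + π • (Pi.single s 1 : σ → Ω))
          (c + π • (Pi.single s 1 : σ → Ω) + π ^ n • (Pi.single t τ : σ → Ω)) ∈ W := by
      intro b c s t hc τ hτ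
      rw [hWd]
      refine (le_sup_right : AddSubgroup.closure (F₁ ∪ F₂) ≤ _)
        (AddSubgroup.subset_closure (Or.inr ?_))
      rw [hF₂]
      exact ⟨(b, c, s, t, τ), ⟨Set.mem_univ _, hc, Set.mem_univ _, Set.mem_univ _, hτ⟩, rfl⟩
    have hQg : ∀ (b : B) (s t : σ) (M : IntermediateField K Ω), Um L M → ∀ h : σ → Ω,
        Iv L M h → Qg L P π n W b s t h := by
      intro b s t M hM h hh
      refine grid (qg_gq hB hπ hv hn hW hC b s t) hM₁ hS hU hcard.ge (fun c hc => ?_) hM hh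
      refine qg_of hB hπ hn0 hW hM₂ (hciv c hc) fun τ hτ hτ1 => ?_
      obtain ⟨ρ, hρ, hτρ⟩ := hR3 τ hτ hτ1
      have e1 : gd P π n M₂ b c (Pi.single s 1) (Pi.single t ρ) ∈ W :=
        W.sub_mem (hW2 b c s t hc ρ hρ) (hW1 b c t hc ρ hρ)
      have e2 := hW (gd_close (b := b) hB hπ hn0 hM₂ (hciv c hc) (h1iv M₂ s)
        (kh1_iv (s := t) hτ hτ1) (hRiv t ρ hρ) fun i => by
          by_cases h : i = t
          · subst h
            rw [Pi.single_eq_same, Pi.single_eq_same]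
            exact hτρ
          · rw [Pi.single_eq_of_ne h, Pi.single_eq_of_ne h, sub_self, L.zero]
            exact zero_lt_one)
      have e3 := W.add_mem e2 e1
      rwa [sub_add_cancel] at e3
    have hgd : ∀ b : B, ∀ M : IntermediateField K Ω, Um L M → ∀ h w x : σ → Ω, Iv L M h →
        Iv L M w → Iv L M x → gd P π n M b h w x ∈ W := fun b M hM h w x hh hw hx =>
      gd_basis hB hπ hv hn hW hM hh hw hx fun s t τ hτ hτ1 =>
        hQg b s t M hM h hh M hM hh τ hτ hτ1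
    have hKo : ∀ (b : B) (t : σ) (M : IntermediateField K Ω), Um L M → ∀ h : σ → Ω,
        Iv L M h → Ko L P π n W b h (Pi.single t 1) := by
      intro b t M hM h hh
      refine grid (Q := fun h => Ko L P π n W b h (Pi.single t 1))
        (ko_gq hB hπ hn0 hW hC b t (hgd b)) hM₁ hS hU hcard.ge (fun c hc => ?_) hM hh
      refine ko_of hB hπ hn0 hW hM₂ (hciv c hc) (h1iv M₂ t) fun τ hτ hτ1 => ?_
      obtain ⟨ρ, hρ, hτρ⟩ := hR3 τ hτ hτ1
      have hfd : FiniteDimensional K M₂ := hM₂.fd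
      have e0 : (π ^ n * τ) • (Pi.single t 1 : σ → Ω) = π ^ n • (Pi.single t τ : σ → Ω) := by
        rw [mul_smul]
        congr 1
        rw [← Pi.single_smul, smul_eq_mul, mul_one]
      rw [e0, ← dv_add b c (c + π ^ n • (Pi.single t ρ : σ → Ω)) _]
      refine W.add_mem (hW1 b c t hc ρ hρ) (hW (dv_mem hB hM₂
        (kh1_add hπ (hciv c hc) (hRiv t ρ hρ) n).1
        (kh1_add hπ (hciv c hc) (kh1_iv (s := t) hτ hτ1) n).1 fun i => ?_))
      have e1 : (c + π ^ n • (Pi.single t τ : σ → Ω)) i -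
          (c + π ^ n • (Pi.single t ρ : σ → Ω)) i =
          π ^ n * ((Pi.single t τ : σ → Ω) i - (Pi.single t ρ : σ → Ω) i) := by
        rw [Pi.add_apply, Pi.add_apply, Pi.smul_apply, Pi.smul_apply, smul_eq_mul, smul_eq_mul]
        ring
      rw [e1, L.mul, L.pow, pow_succ]
      refine mul_le_mul_of_nonneg_left ?_ (pow_nonneg hπ.pos.le _)
      by_cases h : i = t
      · subst h
        rw [Pi.single_eq_same, Pi.single_eq_same]
        exact hπ.um_lt hM₂ (M₂.sub_mem hτ (hR2 ρ hρ)) hτρ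
      · rw [Pi.single_eq_of_ne h, Pi.single_eq_of_ne h, sub_self, L.zero]
        exact hπ.pos.le
    refine vb_ind hB hπ.pos.le ((vb_rat (n + 1)).trans hW) fun M b h h' hM hh hh' hd => ?_
    have hπn : π ^ n ≠ 0 := pow_ne_zero _ hπ.ne
    have hx : Iv L M fun i => (π ^ n)⁻¹ * (h' i - h i) := fun i => by
      refine ⟨M.mul_mem (M.inv_mem (pow_mem (hπ.mem M) n)) (M.sub_mem (hh' i).1 (hh i).1), ?_⟩
      have e1 : L.nm (π ^ n) * L.nm ((π ^ n)⁻¹ * (h' i - h i)) ≤ L.nm (π ^ n) * 1 := by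
        rw [← L.mul, mul_inv_cancel_left₀ hπn, mul_one, L.pow]
        exact hd i
      exact le_of_mul_le_mul_left e1 (L.pos hπn)
    have e1 := ko_basis (b := b) hB hπ hv hn hW hM hh hx (fun t => hKo b t M hM h hh) M hM hh hx
      1 M.one_mem L.one.le
    have e2 : h + (π ^ n * 1) • (fun i => (π ^ n)⁻¹ * (h' i - h i)) = h' := by
      funext i
      rw [Pi.add_apply, Pi.smul_apply, smul_eq_mul, mul_one, mul_inv_cancel_left₀ hπn]
      ring
    rwa [e2] at e1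

end GX
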