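import Pool.Agent.Lib.MP_f80667_ag.Ep.Kh1

/-! `V n` is generated by `V (n + 1)` and finitely many cycles. -/

open ZC BE PE CV IntermediateField Polynomial

namespace GX

private theorem kh2_term {A : Type} [AddCommGroup A] {p : ℕ} (hp : p ≠ 0) (c : ℤ) (f : A) :
    c • f = (c % (p : ℤ)).toNat • f + p • ((c / (p : ℤ)) • f) := by
  have h0 : 0 ≤ c % (p : ℤ) := Int.emod_nonneg _ (by exact_mod_cast hp)
  have h1 : (c % (p : ℤ)).toNat • f = (c % (p : ℤ)) • f := by
    rw [← natCast_zsmul, Int.toNat_of_nonneg h0]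
  have h2 : p • ((c / (p : ℤ)) • f) = ((p : ℤ) * (c / (p : ℤ))) • f := by
    rw [← natCast_zsmul, smul_smul]
  rw [h1, h2, ← add_smul, Int.emod_add_mul_ediv]

/-- A finitely generated quotient killed by `p` is finite. -/
private theorem kh2_fin {A : Type} [AddCommGroup A] {G H : AddSubgroup A} {p : ℕ} (hp : p ≠ 0)
    (hk : ∀ z ∈ H, p • z ∈ G) {S : Finset A} (hS : ∀ z ∈ S, z ∈ H)
    (hle : H ≤ G ⊔ AddSubgroup.closure (S : Set A)) : G.relIndex H ≠ 0 := by
  classical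
  have hfin : Finite (H ⧸ G.addSubgroupOf H) := by
    have hmem : ∀ c : S → Fin p, ∑ f : S, ((c f : Fin p) : ℕ) • (f : A) ∈ H := fun c =>
      sum_mem fun f _ => nsmul_mem (hS f f.2) _
    refine Finite.of_surjective (fun c : S → Fin p =>
      (QuotientAddGroup.mk (⟨_, hmem c⟩ : H) : H ⧸ G.addSubgroupOf H)) ?_
    intro q
    obtain ⟨⟨z, hz⟩, rfl⟩ := QuotientAddGroup.mk_surjective q
    obtain ⟨g, hg, w, hw, hgw⟩ := AddSubgroup.mem_sup.1 (hle hz)
    obtain ⟨c, hc⟩ : ∃ c : S → ℤ, ∑ f : S, c f • (f : A) = w := by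
      have h1 : AddSubgroup.closure (S : Set A) ≤
          (Submodule.span ℤ (Set.range (Subtype.val : S → A))).toAddSubgroup :=
        (AddSubgroup.closure_le _).2 fun x hx => Submodule.subset_span ⟨⟨x, hx⟩, rfl⟩
      exact (Submodule.mem_span_range_iff_exists_fun ℤ).1 (h1 hw)
    have hlt : ∀ f : S, (c f % (p : ℤ)).toNat < p := by
      intro f
      have h0 : 0 ≤ c f % (p : ℤ) := Int.emod_nonneg _ (by exact_mod_cast hp)
      have h1 : c f % (p : ℤ) < p := Int.emod_lt_of_pos _ (by exact_mod_cast Nat.pos_of_ne_zero hp)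
      omega
    refine ⟨fun f => ⟨(c f % (p : ℤ)).toNat, hlt f⟩, ?_⟩
    refine QuotientAddGroup.eq.2 ?_
    rw [AddSubgroup.mem_addSubgroupOf]
    change -(∑ f : S, (c f % (p : ℤ)).toNat • (f : A)) + z ∈ G
    have h2 : ∑ f : S, c f • (f : A) = ∑ f : S, (c f % (p : ℤ)).toNat • (f : A) +
        p • ∑ f : S, (c f / (p : ℤ)) • (f : A) := by
      rw [Finset.smul_sum, ← Finset.sum_add_distrib]
      exact Finset.sum_congr rfl fun f _ => kh2_term hp (c f) (f : A)
    have h3 : -(∑ f : S, (c f % (p : ℤ)).toNat • (f : A)) + z =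
        g + p • ∑ f : S, (c f / (p : ℤ)) • (f : A) := by
      rw [← hgw, ← hc, h2]
      abel
    rw [h3]
    exact add_mem hg (hk _ (sum_mem fun f _ => zsmul_mem (hS f f.2) _))
  exact AddSubgroup.index_ne_zero_of_finite

variable {F : Type} [Field F] {K Ω : Type} [Field K] [CharZero K] [Field Ω] [Algebra K Ω]
  [Algebra F K] [Algebra F Ω] [IsScalarTower F K Ω] [IsAlgClosure K Ω] {L : Ld K Ω} {V : Vr F}
  [Hf V] {σ B : Type} {P : B → (σ → Ω) → V.pt Ω} {π : Ω} {M M' : IntermediateField K Ω}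
  {b : B} {h h' x x' : σ → Ω} {n v : ℕ} {W : AddSubgroup (V.pt Ω →₀ ℤ)}

/-- **FIN.** Proof: `fin_step`, `vb_mul_one`: the quotient is finitely generated and killed by `p`. -/
theorem Bs.fin_rel [Finite σ] [Finite B] (hB : Bs L P) (hπ : Uf L π)
    (hv : L.nm (2 : Ω) = L.nm π ^ v) (hn : 2 * v + 1 ≤ n) {D : ℕ}
    (hC : Crm L P π n D L.p) (hp : ∀ z ∈ Vb L P π n, L.p • z ∈ Vb L P π (n + 1)) :
    (Vb L P π (n + 1)).relIndex (Vb L P π n) ≠ 0 := by
  obtain ⟨S, hS, hle⟩ := hB.fin_step hπ hv hn hC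
  exact kh2_fin L.pp.ne_zero hp hS hle

end GX
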