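import Pool.Agent.Lib.MP_f80667_ag.Ep.B
import Pool.Agent.Lib.MP_f80667_ag.Ep.C
import Pool.Agent.Lib.MP_f80667_ag.Lc.TX

/-!
The derivative of a functional inside the branches (EP, section 6): existence.

* `Lame P L π na lam s₀ C`: `lam` is `0` on the cycles rationally equivalent to `0` and small on the displacements of high level inside the branches.
* `Dte P L π na r lam T s₀ C`: `T n b h x` is the derivative of `lam` at the point with the parameter `h` of the branch `b` in the direction `x`, over `Ur ⊥ n`.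
-/

open ZC BE PE CV IntermediateField

namespace GX

variable {F : Type} [Field F] {K Ω : Type} [Field K] [CharZero K] [Field Ω] [Algebra K Ω]
  [Algebra F K] [Algebra F Ω] [IsScalarTower F K Ω] [IsAlgClosure K Ω] {L : Ld K Ω} {V : Vr F}
  [Hf V] {σ Br : Type} {P : Br → (σ → Ω) → V.pt Ω} {π : Ω} {r n : ℕ}
  {B : Type} [AddCommGroup B] [Module ℚ B] {na : B → ℝ}
  {lam : (V.pt Ω →₀ ℤ) →+ B} {s₀ : ℕ} {C : ℝ}

/-- `lam` is `0` on the cycles rationally equivalent to `0` and small on the displacements of high level. -/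
structure Lame (P : Br → (σ → Ω) → V.pt Ω) (L : Ld K Ω) (π : Ω) (na : B → ℝ)
    (lam : (V.pt Ω →₀ ℤ) →+ B) (s₀ : ℕ) (C : ℝ) : Prop where
  nonneg : 0 ≤ C
  rat : ∀ z ∈ V.ratEq K Ω, lam z = 0
  lev : ∀ s, s₀ ≤ s → ∀ z ∈ Vb L P π s, na (lam z) ≤ C * L.nm π ^ s

/-- `T n b h x` is the derivative of `lam`. -/
structure Dte (P : Br → (σ → Ω) → V.pt Ω) (L : Ld K Ω) (π : Ω) (na : B → ℝ) (r : ℕ)
    (lam : (V.pt Ω →₀ ℤ) →+ B) (T : ℕ → Br → (σ → Ω) → (σ → Ω) → B) (s₀ : ℕ) (C : ℝ) :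
    Prop where
  nonneg : 0 ≤ C
  add : ∀ n b h x x', N0 r n → Iv L (L.Ur ⊥ n) h → (∀ i, x i ∈ L.Ur ⊥ n) →
    (∀ i, x' i ∈ L.Ur ⊥ n) → T n b h (x + x') = T n b h x + T n b h x'
  app : ∀ n b h x s, N0 r n → Iv L (L.Ur ⊥ n) h → (∀ i, x i ∈ L.Ur ⊥ n) → s₀ ≤ s → s ≠ 0 →
    (∀ i, L.nm (x i) ≤ L.nm π ^ s) →
      na (lam (dvb P (L.Ur ⊥ n) b h (h + x)) - T n b h x) ≤ C * L.nm π ^ (2 * s)

/-- The multiples of a small vector. Proof: induction on `k`: `dv_four` for `k • x` and `x`, `Lame.lev` (level `2 (s - v) ≥ s₀`), `Bn.add`. -/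
theorem lam_mul (hP : Bs L P) (hπ : Uf L π) (hB : Bn L.p (L.nm (L.p : Ω)) na)
    (hl : Lame P L π na lam s₀ C) (hn : n ≠ 0) {v : ℕ} (hv : L.nm (2 : Ω) = L.nm π ^ v) {s : ℕ}
    (hs : s₀ + v < s) {b : Br} {h x : σ → Ω} (hh : Iv L (L.Ur ⊥ n) h)
    (hx : ∀ i, x i ∈ L.Ur ⊥ n) (h1 : ∀ i, L.nm (x i) ≤ L.nm π ^ s) (k : ℕ) :
    na (lam (dvb P (L.Ur ⊥ n) b h (h + (k : Ω) • x)) - k • lam (dvb P (L.Ur ⊥ n) b h (h + x))) ≤
      C * L.nm π ^ (2 * (s - v)) := by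
  have hM : Um L (L.Ur ⊥ n) := ⟨n, hn, le_rfl⟩
  have hle : ∀ j, L.nm π ^ j ≤ 1 := fun j => pow_le_one₀ hπ.pos.le hπ.lt.le
  have hx1 : Iv L (L.Ur ⊥ n) x := fun i => ⟨hx i, (h1 i).trans (hle s)⟩
  induction k with
  | zero =>
    rw [Nat.cast_zero, zero_smul, add_zero, dv_self, map_zero, zero_smul, sub_zero,
      (hB.zero_iff 0).2 rfl]
    exact mul_nonneg hl.nonneg (pow_nonneg hπ.pos.le _)
  | succ k ih =>
    have hk1 : ∀ i, L.nm (((k : Ω) • x) i) ≤ L.nm π ^ s := by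
      intro i
      rw [Pi.smul_apply, smul_eq_mul, L.mul]
      exact (mul_le_of_le_one_left (L.nonneg _) (L.nat_le k)).trans (h1 i)
    have hkx : Iv L (L.Ur ⊥ n) ((k : Ω) • x) := fun i =>
      ⟨(L.Ur ⊥ n).mul_mem (IntermediateField.natCast_mem _ k) (hx i), (hk1 i).trans (hle s)⟩
    have h2 := hl.lev (2 * (s - v)) (by omega) _
      (dv_four hP hπ hM hh hkx hx1 (b := b) hv (by omega : v < s) hk1 h1)
    have e1 : h + ((k + 1 : ℕ) : Ω) • x = h + (k : Ω) • x + x := by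
      rw [Nat.cast_succ, add_smul, one_smul, add_assoc]
    have e2 : lam (dvb P (L.Ur ⊥ n) b h (h + ((k + 1 : ℕ) : Ω) • x)) -
        (k + 1) • lam (dvb P (L.Ur ⊥ n) b h (h + x)) =
        lam (dvb P (L.Ur ⊥ n) b h (h + (k : Ω) • x + x) -
          dvb P (L.Ur ⊥ n) b h (h + (k : Ω) • x) - dvb P (L.Ur ⊥ n) b h (h + x)) +
        (lam (dvb P (L.Ur ⊥ n) b h (h + (k : Ω) • x)) -
          k • lam (dvb P (L.Ur ⊥ n) b h (h + x))) := by
      rw [e1, map_sub, map_sub, add_smul, one_smul]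
      abel
    rw [e2]
    exact (hB.add _ _).trans (max_le h2 ih)

omit [IsAlgClosure K Ω] in
private theorem lb_v (hπ : Uf L π) : ∃ v : ℕ, L.nm (2 : Ω) = L.nm π ^ v := by
  obtain ⟨n, hn⟩ := hπ.val (2 : K) two_ne_zero
  rw [map_ofNat] at hn
  have h1 : 0 ≤ n := by
    by_contra h
    rw [not_le] at h
    have h2 : 1 < L.nm π ^ n := one_lt_zpow_of_neg₀ hπ.pos hπ.lt h
    rw [← hn] at h2
    have h3 := L.nat_le 2
    rw [Nat.cast_ofNat] at h3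
    exact absurd h3 (not_le.2 h2)
  lift n to ℕ using h1
  exact ⟨n, by rw [hn, zpow_natCast]⟩

omit [CharZero K] [IsAlgClosure K Ω] in
private theorem lb_k [Finite σ] (x : σ → Ω) {ε : ℝ} (hε : 0 < ε) :
    ∃ k₀ : ℕ, ∀ k, k₀ ≤ k → ∀ i, L.nm ((L.p : Ω) ^ k * x i) ≤ ε := by
  have := Fintype.ofFinite σ
  have hM : 0 ≤ ∑ i, L.nm (x i) := Finset.sum_nonneg fun i _ => L.nonneg _
  obtain ⟨k₀, hk₀⟩ := exists_pow_lt_of_lt_one (div_pos hε (by linarith : 0 <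
    ∑ i, L.nm (x i) + 1)) L.lt
  refine ⟨k₀, fun k hk i => ?_⟩
  have h1 : L.nm (x i) ≤ ∑ i, L.nm (x i) :=
    Finset.single_le_sum (f := fun i => L.nm (x i)) (fun i _ => L.nonneg _) (Finset.mem_univ i)
  rw [L.mul, L.pow]
  have h2 : L.nm (L.p : Ω) ^ k ≤ ε / (∑ i, L.nm (x i) + 1) :=
    (pow_le_pow_of_le_one (L.nonneg _) L.lt.le hk).trans hk₀.le
  have h3 : L.nm (x i) ≤ ∑ i, L.nm (x i) + 1 := by linarith
  calc L.nm (L.p : Ω) ^ k * L.nm (x i)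
      ≤ ε / (∑ i, L.nm (x i) + 1) * (∑ i, L.nm (x i) + 1) :=
        mul_le_mul h2 h3 (L.nonneg _) (div_nonneg hε.le (by linarith))
    _ = ε := div_mul_cancel₀ _ (by linarith)

omit [CharZero K] [IsAlgClosure K Ω] in
private theorem lb_up {x : σ → Ω} {e k s : ℕ} (he : L.nm (L.p : Ω) = L.nm π ^ e)
    (h : ∀ i, L.nm ((L.p : Ω) ^ k * x i) ≤ L.nm π ^ s) (j : ℕ) (i : σ) :
    L.nm ((L.p : Ω) ^ (k + j) * x i) ≤ L.nm π ^ (s + e * j) := by
  have h1 : (L.p : Ω) ^ (k + j) * x i = (L.p : Ω) ^ j * ((L.p : Ω) ^ k * x i) := by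
    rw [pow_add]
    ring
  rw [h1, L.mul, L.pow, he, ← pow_mul, add_comm s, pow_add]
  exact mul_le_mul_of_nonneg_left (h i) (pow_nonneg (L.nonneg _) _)

/-- The value of the derivative. -/
private theorem lb_T [Finite σ] (hP : Bs L P) (hπ : Uf L π)
    (hB : Bn L.p (L.nm (L.p : Ω)) na) (hl : Lame P L π na lam s₀ C) (hn : n ≠ 0) {v : ℕ}
    (hv : L.nm (2 : Ω) = L.nm π ^ v) {b : Br} {h x : σ → Ω} (hh : Iv L (L.Ur ⊥ n) h)
    (hx : ∀ i, x i ∈ L.Ur ⊥ n) :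
    ∃ t : B, ∀ k s, s₀ + v < s → (∀ i, L.nm ((L.p : Ω) ^ k * x i) ≤ L.nm π ^ s) →
      na (lam (dvb P (L.Ur ⊥ n) b h (h + (L.p : Ω) ^ k • x)) - L.p ^ k • t) ≤
        C * (L.nm π ^ (2 * v))⁻¹ / L.nm (L.p : Ω) * L.nm π ^ (2 * s) := by
  obtain ⟨e, he⟩ := tx_e hπ
  have hC : 0 ≤ C * (L.nm π ^ (2 * v))⁻¹ :=
    mul_nonneg hl.nonneg (inv_nonneg.2 (pow_nonneg hπ.pos.le _))
  obtain ⟨t, ht⟩ := tx_abs hB hπ.pos hπ.lt.le he hC
    (R := fun k s w => s₀ + v < s ∧ (∀ i, L.nm ((L.p : Ω) ^ k * x i) ≤ L.nm π ^ s) ∧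
      w = lam (dvb P (L.Ur ⊥ n) b h (h + (L.p : Ω) ^ k • x))) (by
      obtain ⟨k, hk⟩ := lb_k (L := L) x (pow_pos hπ.pos (s₀ + v + 1))
      exact ⟨k, s₀ + v + 1, _, by omega, hk k le_rfl, rfl⟩) (by
      rintro k s w ⟨h1, h2, -⟩
      refine ⟨_, by omega, fun i => ?_, rfl⟩
      have h3 := lb_up he h2 1 i
      rwa [mul_one] at h3) (by
      rintro k s w w' ⟨h1, h2, rfl⟩ ⟨-, -, rfl⟩
      have h3 := lam_mul hP hπ hB hl hn hv h1 (b := b) hh (x := (L.p : Ω) ^ k • x)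
        (fun i => mul_mem (pow_mem (IntermediateField.natCast_mem _ L.p) k) (hx i)) h2 L.p
      rw [smul_smul, ← pow_succ'] at h3
      refine h3.trans (le_of_eq ?_)
      have h4 : 2 * s = 2 * v + 2 * (s - v) := by omega
      rw [h4, pow_add, mul_assoc, inv_mul_cancel_left₀ (pow_pos hπ.pos _).ne']) (by
      rintro k s s' w w' ⟨-, -, rfl⟩ ⟨-, -, rfl⟩
      rw [sub_self, (hB.zero_iff 0).2 rfl]
      exact mul_nonneg hC (le_max_of_le_left (pow_nonneg hπ.pos.le _)))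
  exact ⟨t, fun k s h1 h2 => ht k s _ ⟨h1, h2, rfl⟩⟩

/-- **The derivative.** Proof: `nm p = nm π ^ e` (`tx_e`), `nm 2 = nm π ^ v`. For fixed `n`, `b`, `h`, `x` apply `tx_abs` (Lc/TX) to the relation `R k s w`: `s₀ + v < s`, `nm (p ^ k x i) ≤ nm π ^ s` for all `i`, `w = lam (dvb .. h (h + p ^ k x))`, with the constant `C nm π ^ (-2 v)` (`lam_mul`
for the multiplier `p`); `T n b h x` is the number `b` of `tx_abs`. `add`: `dv_four` for `p ^ k x`, `p ^ k x'`, limit (`tx_zero`). -/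
theorem exists_dte [Finite σ] (hP : Bs L P) (hπ : Uf L π) (hB : Bn L.p (L.nm (L.p : Ω)) na)
    (hl : Lame P L π na lam s₀ C) : ∃ T s₁ C', Dte P L π na r lam T s₁ C' := by
  classical
  obtain ⟨v, hv⟩ := lb_v hπ
  obtain ⟨e, he⟩ := tx_e hπ
  have hq0 := hπ.pos
  have hpp := hB.q0
  have key : ∀ (n : ℕ) (b : Br) (h x : σ → Ω), ∃ t : B, n ≠ 0 → Iv L (L.Ur ⊥ n) h →
      (∀ i, x i ∈ L.Ur ⊥ n) → ∀ k s, s₀ + v < s →
        (∀ i, L.nm ((L.p : Ω) ^ k * x i) ≤ L.nm π ^ s) →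
          na (lam (dvb P (L.Ur ⊥ n) b h (h + (L.p : Ω) ^ k • x)) - L.p ^ k • t) ≤
            C * (L.nm π ^ (2 * v))⁻¹ / L.nm (L.p : Ω) * L.nm π ^ (2 * s) := by
    intro n b h x
    by_cases h0 : n ≠ 0 ∧ Iv L (L.Ur ⊥ n) h ∧ ∀ i, x i ∈ L.Ur ⊥ n
    · obtain ⟨t, ht⟩ := lb_T hP hπ hB hl h0.1 hv (b := b) h0.2.1 h0.2.2
      exact ⟨t, fun _ _ _ => ht⟩
    · exact ⟨0, fun h1 h2 h3 => absurd ⟨h1, h2, h3⟩ h0⟩
  choose T hT using key
  obtain ⟨D, hD⟩ : ∃ D, D = C * (L.nm π ^ (2 * v))⁻¹ := ⟨_, rfl⟩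
  rw [← hD] at hT
  have hD0 : 0 ≤ D := by
    rw [hD]
    exact mul_nonneg hl.nonneg (inv_nonneg.2 (pow_nonneg hq0.le _))
  refine ⟨T, s₀ + v + 1, D / L.nm (L.p : Ω), div_nonneg hD0 hpp.le, ?_, ?_⟩
  · intro n b h x x' hN hh hx hx'
    have hn := hN.1
    obtain ⟨s, hs⟩ : ∃ s, s = s₀ + v + 1 := ⟨_, rfl⟩
    obtain ⟨k₁, hk₁⟩ := lb_k (L := L) x (pow_pos hq0 s)
    obtain ⟨k₂, hk₂⟩ := lb_k (L := L) x' (pow_pos hq0 s)
    obtain ⟨k, hk⟩ : ∃ k, k = max k₁ k₂ := ⟨_, rfl⟩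
    have hb : ∀ m i, L.nm ((L.p : Ω) ^ (k + m) * x i) ≤ L.nm π ^ (s + e * m) :=
      fun m => lb_up he (hk₁ k (hk ▸ le_max_left _ _)) m
    have hb' : ∀ m i, L.nm ((L.p : Ω) ^ (k + m) * x' i) ≤ L.nm π ^ (s + e * m) :=
      fun m => lb_up he (hk₂ k (hk ▸ le_max_right _ _)) m
    obtain ⟨T₁, hT₁⟩ : ∃ t, t = T n b h x := ⟨_, rfl⟩
    obtain ⟨T₂, hT₂⟩ : ∃ t, t = T n b h x' := ⟨_, rfl⟩
    obtain ⟨T₃, hT₃⟩ : ∃ t, t = T n b h (x + x') := ⟨_, rfl⟩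
    rw [← hT₁, ← hT₂, ← hT₃]
    have hz : T₃ - (T₁ + T₂) = 0 := by
      refine tx_zero hB (D := D / L.nm (L.p : Ω) * L.nm π ^ (2 * s) *
        (L.nm (L.p : Ω) ^ k)⁻¹) fun m => ?_
      have hpm : (L.p : Ω) ^ (k + m) ∈ L.Ur ⊥ n :=
        pow_mem (IntermediateField.natCast_mem _ L.p) _
      have hb'' : ∀ i, L.nm ((L.p : Ω) ^ (k + m) * (x + x') i) ≤ L.nm π ^ (s + e * m) := by
        intro i
        rw [Pi.add_apply, mul_add]
        exact (L.add _ _).trans (max_le (hb m i) (hb' m i))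
      have hsm : s₀ + v < s + e * m := by omega
      have a1 := hT n b h x hn hh hx (k + m) (s + e * m) hsm (hb m)
      have a2 := hT n b h x' hn hh hx' (k + m) (s + e * m) hsm (hb' m)
      have a3 := hT n b h (x + x') hn hh (fun i => add_mem (hx i) (hx' i)) (k + m) (s + e * m)
        hsm hb''
      rw [← hT₁] at a1
      rw [← hT₂] at a2
      rw [← hT₃] at a3
      have hle1 : L.nm π ^ (s + e * m) ≤ 1 := pow_le_one₀ hq0.le hπ.lt.le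
      have a0 := hl.lev (2 * (s + e * m - v)) (by omega) _
        (dv_four hP hπ ⟨n, hn, le_rfl⟩ (b := b) (n := s + e * m) hh
          (x := (L.p : Ω) ^ (k + m) • x) (x' := (L.p : Ω) ^ (k + m) • x')
          (fun i => ⟨mul_mem hpm (hx i), (hb m i).trans hle1⟩)
          (fun i => ⟨mul_mem hpm (hx' i), (hb' m i).trans hle1⟩) hv (by omega) (hb m) (hb' m))
      rw [map_sub, map_sub, add_assoc, ← smul_add] at a0
      have a0' : C * L.nm π ^ (2 * (s + e * m - v)) ≤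
          D / L.nm (L.p : Ω) * L.nm π ^ (2 * (s + e * m)) := by
        have h4 : 2 * (s + e * m) = 2 * v + 2 * (s + e * m - v) := by omega
        have h5 : D * L.nm π ^ (2 * (s + e * m)) = C * L.nm π ^ (2 * (s + e * m - v)) := by
          rw [h4, hD, pow_add, mul_assoc, inv_mul_cancel_left₀ (pow_pos hq0 _).ne']
        rw [← h5]
        refine mul_le_mul_of_nonneg_right ?_ (pow_nonneg hq0.le _)
        rw [le_div_iff₀ hpp]
        exact mul_le_of_le_one_right hD0 hB.q1.le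
      have a0'' := a0.trans a0'
      obtain ⟨w₁, hw₁⟩ : ∃ w, w = lam (dvb P (L.Ur ⊥ n) b h (h + (L.p : Ω) ^ (k + m) • x)) :=
        ⟨_, rfl⟩
      obtain ⟨w₂, hw₂⟩ : ∃ w, w = lam (dvb P (L.Ur ⊥ n) b h (h + (L.p : Ω) ^ (k + m) • x')) :=
        ⟨_, rfl⟩
      obtain ⟨w₃, hw₃⟩ : ∃ w, w = lam (dvb P (L.Ur ⊥ n) b h
        (h + (L.p : Ω) ^ (k + m) • (x + x'))) := ⟨_, rfl⟩
      rw [← hw₁] at a1 a0''
      rw [← hw₂] at a2 a0''
      rw [← hw₃] at a3 a0''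
      have h6 : L.p ^ (k + m) • (T₃ - (T₁ + T₂)) =
          ((w₁ - L.p ^ (k + m) • T₁) + (w₂ - L.p ^ (k + m) • T₂)) -
          ((w₃ - L.p ^ (k + m) • T₃) - (w₃ - w₁ - w₂)) := by
        rw [smul_sub, smul_add]
        abel
      have h7 : na (L.p ^ (k + m) • (T₃ - (T₁ + T₂))) ≤
          D / L.nm (L.p : Ω) * L.nm π ^ (2 * (s + e * m)) := by
        rw [h6]
        exact (tx_sub hB _ _).trans (max_le ((hB.add _ _).trans (max_le a1 a2))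
          ((tx_sub hB _ _).trans (max_le a3 a0'')))
      rw [tx_nsm hB] at h7
      have h8 : L.nm π ^ (2 * (s + e * m)) =
          L.nm π ^ (2 * s) * (L.nm (L.p : Ω) ^ m * L.nm (L.p : Ω) ^ m) := by
        rw [he, ← pow_mul, ← pow_add, ← pow_add]
        congr 1
        ring
      rw [h8, pow_add, mul_assoc, ← le_div_iff₀' (pow_pos hpp k),
        ← le_div_iff₀' (pow_pos hpp m)] at h7
      refine h7.trans (le_of_eq ?_)
      have h10 := (pow_pos hpp m).ne'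
      have h11 := (pow_pos hpp k).ne'
      field_simp
    exact sub_eq_zero.1 hz
  · intro n b h x s hN hh hx hs _ h1
    have h2 := hT n b h x hN.1 hh hx 0 s (by omega) (fun i => by
      rw [pow_zero, one_mul]
      exact h1 i)
    rwa [pow_zero, pow_zero, one_smul, one_smul] at h2

end GX
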