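import Pool.Agent.Lib.MP_f80667_ag.Ep.La

/-!
The derivative of a functional inside the branches (EP, section 6): properties.
-/

open ZC BE PE CV IntermediateField

namespace GX

variable {F : Type} [Field F] {K Ω : Type} [Field K] [CharZero K] [Field Ω] [Algebra K Ω]
  [Algebra F K] [Algebra F Ω] [IsScalarTower F K Ω] [IsAlgClosure K Ω] {L : Ld K Ω} {V : Vr F}
  [Hf V] {σ Br : Type} [Finite σ] {P : Br → (σ → Ω) → V.pt Ω} {π : Ω} {r n : ℕ}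
  {B : Type} [AddCommGroup B] [Module ℚ B] {na : B → ℝ}
  {lam : (V.pt Ω →₀ ℤ) →+ B} {s₀ s₁ : ℕ} {C C' : ℝ}
  {T : ℕ → Br → (σ → Ω) → (σ → Ω) → B}

/-- The exponent of `p` and the size of a vector. -/
private theorem lb_exp (hπ : Uf L π) (x : σ → Ω) (D : ℝ) :
    ∃ e c : ℕ, e ≠ 0 ∧ L.nm (L.p : Ω) = L.nm π ^ e ∧ (∀ i, L.nm (x i) * L.nm π ^ c ≤ 1) ∧
      D * L.nm π ^ (2 * c) ≤ 1 := by
  obtain ⟨z, hz⟩ := hπ.val (L.p : K) (Nat.cast_ne_zero.2 L.pp.ne_zero)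
  rw [map_natCast] at hz
  have hz0 : 0 < z := by
    have h1 := L.lt
    rw [hz, ← zpow_zero (L.nm π)] at h1
    exact (zpow_lt_zpow_iff_right_of_lt_one₀ hπ.pos hπ.lt).1 h1
  obtain ⟨e, he⟩ := Int.eq_ofNat_of_zero_le hz0.le
  subst he
  have he0 : e ≠ 0 := by
    rintro rfl
    exact lt_irrefl _ hz0
  rw [zpow_natCast] at hz
  obtain ⟨M, hM⟩ : ∃ M : ℝ, ∀ i, L.nm (x i) ≤ M := by
    obtain ⟨M, hM⟩ := (Set.finite_range fun i => L.nm (x i)).bddAbove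
    exact ⟨M, fun i => hM ⟨i, rfl⟩⟩
  obtain ⟨c, hc⟩ := exists_pow_lt_of_lt_one (show (0 : ℝ) < (max (max M D) 1)⁻¹ by positivity) hπ.lt
  have h1 : (0 : ℝ) < max (max M D) 1 := by positivity
  have h2 : max (max M D) 1 * L.nm π ^ c ≤ 1 := by
    have h3 := mul_le_mul_of_nonneg_left hc.le h1.le
    rwa [mul_inv_cancel₀ h1.ne'] at h3
  have h4 : 0 ≤ L.nm π ^ c := pow_nonneg hπ.pos.le _
  refine ⟨e, c, he0, hz, fun i => ?_, ?_⟩
  · refine (mul_le_mul_of_nonneg_right ?_ h4).trans h2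
    exact (hM i).trans ((le_max_left _ _).trans (le_max_left _ _))
  · have h5 : D * L.nm π ^ c ≤ 1 :=
      (mul_le_mul_of_nonneg_right ((le_max_right _ _).trans (le_max_left _ _)) h4).trans h2
    have h6 : L.nm π ^ (2 * c) = L.nm π ^ c * L.nm π ^ c := by
      rw [two_mul, pow_add]
    rw [h6, ← mul_assoc]
    exact mul_le_one₀ h5 h4 (pow_le_one₀ hπ.pos.le hπ.lt.le)

theorem Dte.nsmul (hT : Dte P L π na r lam T s₀ C) (hn : N0 r n) {b : Br} {h x : σ → Ω}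
    (hh : Iv L (L.Ur ⊥ n) h) (hx : ∀ i, x i ∈ L.Ur ⊥ n) (k : ℕ) :
    T n b h ((k : Ω) • x) = k • T n b h x := by
  have h0 : T n b h 0 = 0 := by
    have h1 := hT.add n b h 0 0 hn hh (fun _ => zero_mem _) fun _ => zero_mem _
    rw [add_zero] at h1
    exact left_eq_add.1 h1
  induction k with
  | zero => rw [Nat.cast_zero, zero_smul, zero_smul, h0]
  | succ k ih =>
    have h1 : ∀ i, ((k : Ω) • x) i ∈ L.Ur ⊥ n := fun i =>
      mul_mem (IntermediateField.natCast_mem _ k) (hx i)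
    rw [Nat.cast_succ, add_smul, one_smul, add_smul, one_smul,
      hT.add n b h ((k : Ω) • x) x hn hh h1 hx, ih]

/-- Proof: `dv_add`, `dv_mem`, `Lame.lev`. -/
theorem lam_close (hP : Bs L P) (hl : Lame P L π na lam s₀ C) (hn : n ≠ 0) {s : ℕ}
    (hs : s₀ ≤ s) {b : Br} {h h' : σ → Ω} (hh : Iv L (L.Ur ⊥ n) h) (hh' : Iv L (L.Ur ⊥ n) h')
    (h1 : ∀ i, L.nm (h' i - h i) ≤ L.nm π ^ s) :
    na (lam (dvb P (L.Ur ⊥ n) b h h')) ≤ C * L.nm π ^ s := by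
  have hM : Um L (L.Ur ⊥ n) := ⟨n, hn, le_rfl⟩
  exact hl.lev s hs _ (dv_mem hP hM hh hh' h1)

/-- The value as a limit. Proof: for large `k`: `Dte.app` for `p ^ k x` (level `s = e k - const`), `Dte.nsmul`, `lam_close` for `h + p ^ k x` and `h'` (`dv_add`), so `na (p ^ k (T n b h x - β)) ≤ D' (nm p ^ k) ^ 2`, `tx_nsm`, `tx_zero`. -/
theorem Dte.lim (hP : Bs L P) (hπ : Uf L π) (hB : Bn L.p (L.nm (L.p : Ω)) na)
    (hl : Lame P L π na lam s₁ C') (hT : Dte P L π na r lam T s₀ C) (hn : N0 r n) {b : Br}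
    {h x : σ → Ω} (hh : Iv L (L.Ur ⊥ n) h) (hx : ∀ i, x i ∈ L.Ur ⊥ n) {D : ℝ} {k₀ : ℕ} {β : B}
    (hβ : ∀ k, k₀ ≤ k → ∃ h' : σ → Ω, Iv L (L.Ur ⊥ n) h' ∧
      (∀ i, L.nm (h' i - (h i + (L.p : Ω) ^ k * x i)) ≤ D * (L.nm (L.p : Ω) ^ k) ^ 2) ∧
      na (lam (dvb P (L.Ur ⊥ n) b h h') - L.p ^ k • β) ≤ D * (L.nm (L.p : Ω) ^ k) ^ 2) :
    T n b h x = β := by
  obtain ⟨e, c, he, hp, hxc, hDc⟩ := lb_exp hπ x D
  have hρ := hπ.pos
  have hρ1 := hπ.lt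
  have hM : Um L (L.Ur ⊥ n) := ⟨n, hn.1, le_rfl⟩
  have hfd : FiniteDimensional K (L.Ur ⊥ n) := hM.fd
  have hC := hT.nonneg
  obtain ⟨E, hE⟩ : ∃ E, E = max (max C C') 1 := ⟨_, rfl⟩
  have hE1 : C ≤ E := by rw [hE]; exact (le_max_left _ _).trans (le_max_left _ _)
  have hE2 : C' ≤ E := by rw [hE]; exact (le_max_right _ _).trans (le_max_left _ _)
  have hE3 : 1 ≤ E := by rw [hE]; exact le_max_right _ _
  have key : ∀ k : ℕ, c + s₀ + s₁ + 1 ≤ e * k → k₀ ≤ k →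
      na (T n b h x - β) * L.nm π ^ (2 * c) ≤ E * L.nm (L.p : Ω) ^ k := by
    intro k hk hk0
    obtain ⟨s, hs⟩ : ∃ s, e * k = c + s := ⟨e * k - c, by omega⟩
    have hq : L.nm (L.p : Ω) ^ k = L.nm π ^ (c + s) := by
      rw [hp, ← pow_mul, hs]
    have hqc : L.nm π ^ (2 * c) * L.nm π ^ (2 * s) = (L.nm (L.p : Ω) ^ k) ^ 2 := by
      rw [hq]
      ring
    have hD2 : D * (L.nm (L.p : Ω) ^ k) ^ 2 ≤ L.nm π ^ (2 * s) := by
      rw [← hqc, ← mul_assoc]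
      exact mul_le_of_le_one_left (pow_nonneg hρ.le _) hDc
    obtain ⟨h', hh', h1, h2⟩ := hβ k hk0
    have hcast : ((L.p ^ k : ℕ) : Ω) = (L.p : Ω) ^ k := by push_cast; rfl
    obtain ⟨y, hy⟩ : ∃ y : σ → Ω, y = ((L.p ^ k : ℕ) : Ω) • x := ⟨_, rfl⟩
    have hyi : ∀ i, y i = (L.p : Ω) ^ k * x i := fun i => by
      rw [hy, Pi.smul_apply, smul_eq_mul, hcast]
    have hym : ∀ i, y i ∈ L.Ur ⊥ n := fun i => by
      rw [hyi]
      exact mul_mem (pow_mem (IntermediateField.natCast_mem _ _) _) (hx i)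
    have hys : ∀ i, L.nm (y i) ≤ L.nm π ^ s := fun i => by
      rw [hyi, L.mul, L.pow, hq, pow_add, mul_comm, ← mul_assoc]
      exact mul_le_of_le_one_left (pow_nonneg hρ.le _) (hxc i)
    have hs1 : L.nm π ^ s ≤ 1 := pow_le_one₀ hρ.le hρ1.le
    have hhy : Iv L (L.Ur ⊥ n) (h + y) := fun i =>
      ⟨add_mem (hh i).1 (hym i), (L.add _ _).trans (max_le (hh i).2 ((hys i).trans hs1))⟩
    have h3 := hT.app n b h y s hn hh hym (by omega) (by omega) hys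
    have h4 : T n b h y = L.p ^ k • T n b h x := by
      rw [hy]
      exact hT.nsmul hn hh hx _
    rw [h4] at h3
    have h5 := lam_close hP hl hn.1 (s := 2 * s) (b := b) (by omega) hhy hh' fun i => by
      rw [Pi.add_apply, hyi]
      exact (h1 i).trans hD2
    have h6 : lam (dvb P (L.Ur ⊥ n) b h h') = lam (dvb P (L.Ur ⊥ n) b h (h + y)) +
        lam (dvb P (L.Ur ⊥ n) b (h + y) h') := by
      rw [← map_add, dv_add]
    have h7 : L.p ^ k • (T n b h x - β) =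
        -(lam (dvb P (L.Ur ⊥ n) b h (h + y)) - L.p ^ k • T n b h x) +
          (-(lam (dvb P (L.Ur ⊥ n) b (h + y) h')) +
            (lam (dvb P (L.Ur ⊥ n) b h h') - L.p ^ k • β)) := by
      rw [h6, smul_sub]
      abel
    have hπs : 0 ≤ L.nm π ^ (2 * s) := pow_nonneg hρ.le _
    have h8 : na (L.p ^ k • (T n b h x - β)) ≤ E * L.nm π ^ (2 * s) := by
      rw [h7]
      refine (hB.add _ _).trans (max_le ?_ ((hB.add _ _).trans (max_le ?_ ?_)))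
      · rw [hB.neg]
        exact h3.trans (mul_le_mul_of_nonneg_right hE1 hπs)
      · rw [hB.neg]
        exact h5.trans (mul_le_mul_of_nonneg_right hE2 hπs)
      · exact (h2.trans hD2).trans (le_mul_of_one_le_left hπs hE3)
    rw [tx_nsm hB] at h8
    have hqpos : 0 < L.nm (L.p : Ω) ^ k := pow_pos hB.q0 _
    have h9 : L.nm (L.p : Ω) ^ k * (na (T n b h x - β) * L.nm π ^ (2 * c))
        ≤ L.nm (L.p : Ω) ^ k * (E * L.nm (L.p : Ω) ^ k) := by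
      calc L.nm (L.p : Ω) ^ k * (na (T n b h x - β) * L.nm π ^ (2 * c))
          = L.nm (L.p : Ω) ^ k * na (T n b h x - β) * L.nm π ^ (2 * c) := by ring
        _ ≤ E * L.nm π ^ (2 * s) * L.nm π ^ (2 * c) :=
            mul_le_mul_of_nonneg_right h8 (pow_nonneg hρ.le _)
        _ = E * (L.nm π ^ (2 * c) * L.nm π ^ (2 * s)) := by ring
        _ = L.nm (L.p : Ω) ^ k * (E * L.nm (L.p : Ω) ^ k) := by
            rw [hqc]
            ring
    exact le_of_mul_le_mul_left h9 hqpos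
  have hc0 : 0 < L.nm π ^ (2 * c) := pow_pos hρ _
  have hz : T n b h x - β = 0 := by
    refine tx_zero hB (D := E * L.nm (L.p : Ω) ^ (k₀ + (c + s₀ + s₁ + 1)) / L.nm π ^ (2 * c))
      fun i => ?_
    obtain ⟨k, hk⟩ : ∃ k, k = k₀ + (c + s₀ + s₁ + 1) + i := ⟨_, rfl⟩
    have h1 : c + s₀ + s₁ + 1 ≤ e * k := by
      have h2 : 1 * k ≤ e * k := Nat.mul_le_mul_right _ (Nat.one_le_iff_ne_zero.2 he)
      omega
    have h3 := key k h1 (by omega)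
    rw [hk, pow_add, ← mul_assoc] at h3
    rw [div_mul_eq_mul_div, le_div_iff₀ hc0]
    exact h3
  exact sub_eq_zero.1 hz

/-- Proof: `Dte.app` for `p ^ k x`, `Dte.nsmul`. -/
theorem Dte.pts (hπ : Uf L π) (hT : Dte P L π na r lam T s₀ C) (hn : N0 r n) {b : Br}
    {h x : σ → Ω} (hh : Iv L (L.Ur ⊥ n) h) (hx : ∀ i, x i ∈ L.Ur ⊥ n) :
    ∃ (D : ℝ) (k₀ : ℕ), 0 ≤ D ∧ ∀ k, k₀ ≤ k →
      Iv L (L.Ur ⊥ n) (fun i => h i + (L.p : Ω) ^ k * x i) ∧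
      na (lam (dvb P (L.Ur ⊥ n) b h fun i => h i + (L.p : Ω) ^ k * x i) -
        L.p ^ k • T n b h x) ≤ D * (L.nm (L.p : Ω) ^ k) ^ 2 := by
  obtain ⟨e, c, he, hp, hxc, -⟩ := lb_exp hπ x 0
  have hρ := hπ.pos
  have hρ1 := hπ.lt
  have hc0 : 0 < L.nm π ^ (2 * c) := pow_pos hρ _
  refine ⟨C / L.nm π ^ (2 * c), c + s₀ + 1, div_nonneg hT.nonneg hc0.le, fun k hk => ?_⟩
  have h1 : c + s₀ + 1 ≤ e * k := by
    have h2 : 1 * k ≤ e * k := Nat.mul_le_mul_right _ (Nat.one_le_iff_ne_zero.2 he)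
    omega
  obtain ⟨s, hs⟩ : ∃ s, e * k = c + s := ⟨e * k - c, by omega⟩
  have hq : L.nm (L.p : Ω) ^ k = L.nm π ^ (c + s) := by
    rw [hp, ← pow_mul, hs]
  have hqc : L.nm π ^ (2 * c) * L.nm π ^ (2 * s) = (L.nm (L.p : Ω) ^ k) ^ 2 := by
    rw [hq]
    ring
  have hcast : ((L.p ^ k : ℕ) : Ω) = (L.p : Ω) ^ k := by push_cast; rfl
  obtain ⟨y, hy⟩ : ∃ y : σ → Ω, y = ((L.p ^ k : ℕ) : Ω) • x := ⟨_, rfl⟩
  have hyi : ∀ i, y i = (L.p : Ω) ^ k * x i := fun i => by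
    rw [hy, Pi.smul_apply, smul_eq_mul, hcast]
  have hym : ∀ i, y i ∈ L.Ur ⊥ n := fun i => by
    rw [hyi]
    exact mul_mem (pow_mem (IntermediateField.natCast_mem _ _) _) (hx i)
  have hys : ∀ i, L.nm (y i) ≤ L.nm π ^ s := fun i => by
    rw [hyi, L.mul, L.pow, hq, pow_add, mul_comm, ← mul_assoc]
    exact mul_le_of_le_one_left (pow_nonneg hρ.le _) (hxc i)
  have hs1 : L.nm π ^ s ≤ 1 := pow_le_one₀ hρ.le hρ1.le
  have hhy : Iv L (L.Ur ⊥ n) (h + y) := fun i =>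
    ⟨add_mem (hh i).1 (hym i), (L.add _ _).trans (max_le (hh i).2 ((hys i).trans hs1))⟩
  have he1 : (fun i => h i + (L.p : Ω) ^ k * x i) = h + y := funext fun i => by
    rw [Pi.add_apply, hyi]
  rw [he1]
  refine ⟨hhy, ?_⟩
  have h3 := hT.app n b h y s hn hh hym (by omega) (by omega) hys
  have h4 : T n b h y = L.p ^ k • T n b h x := by
    rw [hy]
    exact hT.nsmul hn hh hx _
  rw [h4] at h3
  refine h3.trans (le_of_eq ?_)
  rw [← hqc]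
  field_simp

omit [Algebra F Ω] [Algebra F K] [IsScalarTower F K Ω] [CharZero K] [IsAlgClosure K Ω] in
private theorem lb_map (L : Ld K Ω) (n : ℕ) (φ : Ω ≃ₐ[K] Ω) {x : Ω} (hx : x ∈ L.Ur ⊥ n) :
    φ x ∈ L.Ur ⊥ n := by
  have h1 : (L.Ur ⊥ n).map (φ : Ω →ₐ[K] Ω) ≤ L.Ur ⊥ n := by
    unfold Ld.Ur
    rw [IntermediateField.map_sup, IntermediateField.adjoin_map, IntermediateField.map_bot]
    refine sup_le_sup le_rfl (IntermediateField.adjoin.mono K _ _ ?_)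
    rintro _ ⟨x, hx, rfl⟩
    exact Ld.te_act φ hx
  exact h1 ⟨x, hx, rfl⟩

/-- Proof: `Dte.pts`, `dv_act`, `Dte.lim`. -/
theorem Dte.act (hP : Bs L P) (hπ : Uf L π) (hB : Bn L.p (L.nm (L.p : Ω)) na)
    (hl : Lame P L π na lam s₁ C') (hT : Dte P L π na r lam T s₀ C) (hn : N0 r n) {b : Br}
    {h x : σ → Ω} (hh : Iv L (L.Ur ⊥ n) h) (hx : ∀ i, x i ∈ L.Ur ⊥ n) (γ : Ω ≃ₐ[K] Ω) :
    T n b (fun i => γ (h i)) (fun i => γ (x i)) = T n b h x := by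
  obtain ⟨D, k₀, -, hD⟩ := hT.pts hπ hn (b := b) hh hx
  refine hT.lim hP hπ hB hl hn (dv_act hP hn.1 (b := b) hh hh γ).1 (fun i => lb_map L n γ (hx i))
    (D := D) (k₀ := k₀) fun k hk => ?_
  obtain ⟨h1, h2⟩ := hD k hk
  obtain ⟨-, h3, h4⟩ := dv_act hP hn.1 (b := b) hh h1 γ
  refine ⟨_, h3, fun i => ?_, ?_⟩
  · have h5 : γ (h i + (L.p : Ω) ^ k * x i) - (γ (h i) + (L.p : Ω) ^ k * γ (x i)) = 0 := by
      rw [map_add, map_mul, map_pow, map_natCast, sub_self]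
    rw [h5, L.zero]
    exact (hB.nonneg _).trans h2
  · rw [h4]
    exact h2

private theorem lb_nat {p : ℕ} {q : ℝ} (hB : Bn p q na) (k : ℕ) (y : B) :
    na (k • y) ≤ na y := by
  induction k with
  | zero =>
    rw [zero_smul, (hB.zero_iff 0).2 rfl]
    exact hB.nonneg y
  | succ k ih =>
    rw [succ_nsmul]
    exact (hB.add _ _).trans (max_le ih le_rfl)

/-- The trace from a larger field. -/
private theorem lb_dv (hr : L.Rf ⊥ r) (hP : Bs L P) (hn : N0 r n) {b : Br} {h h' : σ → Ω}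
    (hh : Iv L (L.Ur ⊥ n) h) (hh' : Iv L (L.Ur ⊥ n) h') {k : ℕ} (hk : k ≠ 0) :
    dvb P (L.Ur ⊥ (n * k)) b h h' = k • dvb P (L.Ur ⊥ n) b h h' := by
  obtain ⟨s, rfl⟩ := hn.2
  have hr0 : r ≠ 0 := hr.ne
  have hs0 : s ≠ 0 := by
    rintro rfl
    exact hn.1 (mul_zero r)
  have hz : Fx (L.Ur ⊥ (r * s)) (Finsupp.single (P b h') 1 - Finsupp.single (P b h) 1 :
      V.pt Ω →₀ ℤ) := (fx_single (hP.fp hh') 1).sub (fx_single (hP.fp hh) 1)
  have hfd : FiniteDimensional K (L.Ur ⊥ (r * s * k)) :=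
    Ld.ur_fin ⊥ _ (Nat.mul_ne_zero hn.1 hk)
  have hfd' : FiniteDimensional K (L.Ur ⊥ (r * s)) := Ld.ur_fin ⊥ _ hn.1
  have hM : Um L (⊥ : IntermediateField K Ω) := ⟨1, one_ne_zero, bot_le⟩
  have hd : Module.finrank K (L.Ur ⊥ (r * s * k)) = k * Module.finrank K (L.Ur ⊥ (r * s)) := by
    have h1 := GM.mu_rank hM hr hs0
    have h2 := GM.mu_rank hM hr (Nat.mul_ne_zero hs0 hk)
    rw [mul_assoc]
    change Module.finrank K (GM.Mu L ⊥ r (s * k)) = k * Module.finrank K (GM.Mu L ⊥ r s)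
    rw [h1, h2]
    ring
  unfold dvb
  rw [← rtr_eq bot_le, ← rtr_eq bot_le]
  exact GM.rtr_mul (Ld.ur_dvd ⊥ (Dvd.intro k rfl)) hd hz

/-- Proof: `dvb P (Ur ⊥ (n k)) b h h' = k • dvb P (Ur ⊥ n) b h h'` (as `vx_up` in Lc/V), `Dte.pts`, `Dte.lim`. -/
theorem Dte.up (hr : L.Rf ⊥ r) (hP : Bs L P) (hπ : Uf L π) (hB : Bn L.p (L.nm (L.p : Ω)) na)
    (hl : Lame P L π na lam s₁ C') (hT : Dte P L π na r lam T s₀ C) (hn : N0 r n) {b : Br}
    {h x : σ → Ω} (hh : Iv L (L.Ur ⊥ n) h) (hx : ∀ i, x i ∈ L.Ur ⊥ n) {k : ℕ} (hk : k ≠ 0) :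
    T (n * k) b h x = k • T n b h x := by
  obtain ⟨D, k₀, -, hD⟩ := hT.pts hπ hn (b := b) hh hx
  have hle : L.Ur ⊥ n ≤ L.Ur ⊥ (n * k) := Ld.ur_dvd ⊥ (Dvd.intro k rfl)
  have hup : ∀ {v : σ → Ω}, Iv L (L.Ur ⊥ n) v → Iv L (L.Ur ⊥ (n * k)) v := fun hv i =>
    ⟨hle (hv i).1, (hv i).2⟩
  refine hT.lim hP hπ hB hl (hn.mul hk) (hup hh) (fun i => hle (hx i)) (D := D) (k₀ := k₀)
    fun j hj => ?_
  obtain ⟨h1, h2⟩ := hD j hj
  refine ⟨_, hup h1, fun i => ?_, ?_⟩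
  · rw [sub_self, L.zero]
    exact (hB.nonneg _).trans h2
  · rw [lb_dv hr hP hn hh h1 hk, map_nsmul]
    have h3 : k • lam (dvb P (L.Ur ⊥ n) b h fun i => h i + (L.p : Ω) ^ j * x i) -
        L.p ^ j • k • T n b h x =
        k • (lam (dvb P (L.Ur ⊥ n) b h fun i => h i + (L.p : Ω) ^ j * x i) -
          L.p ^ j • T n b h x) := by
      rw [smul_sub, smul_comm]
    rw [h3]
    exact (lb_nat hB k _).trans h2

/-- A bound. Proof: for large `k`: `na (T n b h (p ^ k x)) ≤ max C C' * (the maximum of the nm (p ^ k x i))` (`Dte.app`, `lam_close` with the exact power of `nm π`, `Uf.um_val`), `Dte.nsmul`, `tx_nsm`. -/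
theorem Dte.bd (hP : Bs L P) (hπ : Uf L π) (hB : Bn L.p (L.nm (L.p : Ω)) na)
    (hl : Lame P L π na lam s₁ C') (hT : Dte P L π na r lam T s₀ C) :
    ∃ D : ℝ, 0 ≤ D ∧ ∀ n b h x ρ, N0 r n → Iv L (L.Ur ⊥ n) h → (∀ i, x i ∈ L.Ur ⊥ n) →
      (∀ i, L.nm (x i) ≤ ρ) → 0 ≤ ρ → na (T n b h x) ≤ D * ρ := by
  have hq0 := hπ.pos
  have hq1 := hπ.lt
  have hC₂ : 0 ≤ max C C' := hT.nonneg.trans (le_max_left _ _)
  have hn0 : na 0 = 0 := (hB.zero_iff 0).2 rfl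
  -- small vectors
  have hsm : ∀ n b h x s, N0 r n → Iv L (L.Ur ⊥ n) h → (∀ i, x i ∈ L.Ur ⊥ n) → s₀ ≤ s →
      s₁ ≤ s → s ≠ 0 → (∀ i, L.nm (x i) ≤ L.nm π ^ s) →
        na (T n b h x) ≤ max C C' * L.nm π ^ s := by
    intro n b h x s hn hh hx hs₀ hs₁ hs hxs
    have hqs0 : 0 < L.nm π ^ s := pow_pos hq0 s
    have hqs1 : L.nm π ^ s ≤ 1 := pow_le_one₀ hq0.le hq1.le
    have h3 : L.nm π ^ (2 * s) ≤ L.nm π ^ s :=
      pow_le_pow_of_le_one hq0.le hq1.le (by omega)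
    have hhx : Iv L (L.Ur ⊥ n) (h + x) := fun i =>
      ⟨add_mem (hh i).1 (hx i), (L.add _ _).trans (max_le (hh i).2 ((hxs i).trans hqs1))⟩
    have h5 := lam_close hP hl hn.1 (b := b) hs₁ hh hhx fun i => by
      rw [Pi.add_apply, add_sub_cancel_left]
      exact hxs i
    have h6 := hT.app n b h x s hn hh hx hs₀ hs hxs
    have h7 := tx_sub hB (lam (dvb P (L.Ur ⊥ n) b h (h + x)))
      (lam (dvb P (L.Ur ⊥ n) b h (h + x)) - T n b h x)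
    rw [sub_sub_cancel] at h7
    refine h7.trans (max_le (h5.trans ?_) (h6.trans ?_))
    · exact mul_le_mul_of_nonneg_right (le_max_right _ _) hqs0.le
    · exact mul_le_mul (le_max_left _ _) h3 (pow_pos hq0 _).le hC₂
  refine ⟨max C C' / L.nm π, div_nonneg hC₂ hq0.le, fun n b h x ρ hn hh hx hρ hρ0 => ?_⟩
  rcases hρ0.eq_or_lt with hρ1 | hρ1
  · have h1 : T n b h (((0 : ℕ) : Ω) • x) = 0 • T n b h x := hT.nsmul hn hh hx 0
    have h2 : ((0 : ℕ) : Ω) • x = x := by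
      funext i
      have h3 : x i = 0 := (L.zero_iff _).1 (le_antisymm ((hρ i).trans hρ1.ge) (L.nonneg _))
      rw [Pi.smul_apply, h3, smul_zero]
    rw [h2, zero_smul] at h1
    rw [h1, hn0, ← hρ1, mul_zero]
  · have hp0 : 0 < L.nm (L.p : Ω) := hB.q0
    obtain ⟨k, hk⟩ := exists_pow_lt_of_lt_one
      (show 0 < L.nm π ^ (max (max s₀ s₁) 1) / ρ from div_pos (pow_pos hq0 _) hρ1) hB.q1
    have hk' : ρ * L.nm (L.p : Ω) ^ k ≤ L.nm π ^ (max (max s₀ s₁) 1) := by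
      rw [lt_div_iff₀ hρ1] at hk
      linarith
    have hy0 : 0 < ρ * L.nm (L.p : Ω) ^ k := mul_pos hρ1 (pow_pos hp0 k)
    have hy1 : ρ * L.nm (L.p : Ω) ^ k ≤ 1 := hk'.trans (pow_le_one₀ hq0.le hq1.le)
    obtain ⟨s, hs1, hs2⟩ := exists_nat_pow_near_of_lt_one hy0 hy1 hq0 hq1
    have hs : max (max s₀ s₁) 1 ≤ s := by
      by_contra hcon
      push Not at hcon
      have h1 : L.nm π ^ (max (max s₀ s₁) 1) ≤ L.nm π ^ (s + 1) :=
        pow_le_pow_of_le_one hq0.le hq1.le hcon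
      exact absurd (hs1.trans_le (hk'.trans h1)) (lt_irrefl _)
    have hcast : ((L.p ^ k : ℕ) : Ω) = (L.p : Ω) ^ k := by push_cast; rfl
    have h1 := hsm n b h (((L.p ^ k : ℕ) : Ω) • x) s hn hh
      (fun i => by
        rw [Pi.smul_apply, smul_eq_mul]
        exact mul_mem (IntermediateField.natCast_mem _ _) (hx i))
      (((le_max_left _ _).trans (le_max_left _ _)).trans hs)
      (((le_max_right _ _).trans (le_max_left _ _)).trans hs)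
      (Nat.pos_iff_ne_zero.1 ((le_max_right _ _).trans hs)) fun i => by
        rw [Pi.smul_apply, smul_eq_mul, hcast, L.mul, L.pow]
        refine le_trans ?_ hs2
        rw [mul_comm]
        exact mul_le_mul_of_nonneg_right (hρ i) (pow_pos hp0 k).le
    rw [hT.nsmul hn hh hx, tx_nsm hB] at h1
    have h2 : L.nm π ^ s ≤ ρ * L.nm (L.p : Ω) ^ k / L.nm π := by
      rw [le_div_iff₀ hq0, ← pow_succ]
      exact hs1.le
    have h3 : L.nm (L.p : Ω) ^ k * na (T n b h x) ≤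
        L.nm (L.p : Ω) ^ k * (max C C' / L.nm π * ρ) := by
      refine h1.trans ((mul_le_mul_of_nonneg_left h2 hC₂).trans (le_of_eq ?_))
      ring
    exact le_of_mul_le_mul_left h3 (pow_pos hp0 k)

end GX
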