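import Pool.Agent.Lib.MP_f80667_ag.Ep.Sc

/-! The branches: Galois action, rational parameters, the distance of the points. -/

open ZC BE PE CV IntermediateField

namespace GX

variable {F : Type} [Field F] {N d m : ℕ} {ι : Type} {f : ι → MvPolynomial (Fin N) F}
  {K Ω : Type} [Field K] [CharZero K] [Field Ω] [Algebra K Ω] [Algebra F K] [Algebra F Ω]
  [IsScalarTower F K Ω] [IsAlgClosure K Ω] {L : Ld K Ω} {X : Bd f K Ω d m}
  {M : IntermediateField K Ω} {b b' : X.B} {h h' : Fin (d + 1) → Ω} {t : ℝ}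

private theorem sd_near (X : Bd f K Ω d m) (b : X.B) {h : Fin (d + 1) → Ω}
    (hh : ∀ r, L.nm (h r) ≤ 1) (r : Fin (d + 1)) :
    L.nm (X.cc b h r - X.γ b r) ≤ L.nm X.ϖ := by
  have e : X.cc b h r - X.γ b r = X.ϖ * h r := by
    rw [Bd.cc]
    ring
  rw [e, L.mul]
  exact mul_le_of_le_one_right (L.nonneg _) (hh r)

private theorem sd_close (X : Bd f K Ω d m) (b : X.B) {h h' : Fin (d + 1) → Ω} {t : ℝ}
    (ht : ∀ r, L.nm (h' r - h r) ≤ t) (r : Fin (d + 1)) :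
    L.nm (X.cc b h' r - X.cc b h r) ≤ L.nm X.ϖ * t := by
  have e : X.cc b h' r - X.cc b h r = X.ϖ * (h' r - h r) := by
    rw [Bd.cc, Bd.cc]
    ring
  rw [e, L.mul]
  exact mul_le_mul_of_nonneg_left (ht r) (L.nonneg _)

private theorem sd_m (hX : X.Ok L) {n : ℕ} (hn : n ≤ 12) : L.nm X.ϖ < X.ε ^ n :=
  hX.sm.trans_le (pow_le_pow_of_le_one hX.ε0.le hX.ε1.le hn)

private theorem sd_m1 (hX : X.Ok L) : L.nm X.ϖ < X.ε := by
  have h := sd_m hX (n := 1) (by norm_num)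
  rwa [pow_one] at h

private theorem sd_le (hX : X.Ok L) (b : X.B) {h : Fin (d + 1) → Ω}
    (hh : ∀ r, L.nm (h r) ≤ 1) (r : Fin (d + 1)) : L.nm (X.cc b h r) ≤ 1 := by
  have e : X.cc b h r = (X.cc b h r - X.γ b r) + X.γ b r := by ring
  rw [e]
  exact (L.add _ _).trans (max_le ((sd_near X b hh r).trans
    ((sd_m1 hX).trans hX.ε1).le) (hX.iv b r).2)

private theorem sd_D (hX : X.Ok L) (b : X.B) {h : Fin (d + 1) → Ω}
    (hh : ∀ r, L.nm (h r) ≤ 1) :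
    X.ε ≤ L.nm (MvPolynomial.aeval (X.cc b h) (X.ψ (X.i b)).D) := by
  rw [hX.D_cc b hh]
  exact hX.D b

private theorem sd_Dne (hX : X.Ok L) (b : X.B) {h : Fin (d + 1) → Ω}
    (hh : ∀ r, L.nm (h r) ≤ 1) : MvPolynomial.aeval (X.cc b h) (X.ψ (X.i b)).D ≠ 0 :=
  L.ne_zero (hX.ε0.trans_le (sd_D hX b hh))

private theorem sd_rt (hX : X.Ok L) (b : X.B) {h : Fin (d + 1) → Ω}
    (hh : ∀ r, L.nm (h r) ≤ 1) : L.nm (X.rt L b h - X.w b) < X.ε := by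
  by_contra h1
  rw [not_lt] at h1
  have h2 := (mul_le_mul_of_nonneg_right h1 hX.ε0.le).trans (hX.rt_le b hh)
  rw [← sq] at h2
  exact absurd (sd_m hX (n := 2) (by norm_num)) (not_lt.2 h2)

private theorem sd_fix (hX : X.Ok L) (γ : Ω ≃ₐ[K] Ω) (b : X.B) (h : Fin (d + 1) → Ω) :
    (fun r => γ (X.cc b h r)) = X.cc b fun r => γ (h r) := by
  have hfix : ∀ y ∈ (⊥ : IntermediateField K Ω), γ y = y := by
    intro y hy
    obtain ⟨a, rfl⟩ := IntermediateField.mem_bot.1 hy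
    exact γ.commutes a
  funext r
  rw [Bd.cc, Bd.cc, map_add, map_mul, hfix _ (hX.iv b r).1, hfix _ hX.ϖm]

/-- The coordinates of the greatest norm. -/
private theorem sd_mx (hX : X.Ok L) (b : X.B) : ∃ j, (∀ r, L.nm (X.γ b r) ≤ L.nm (X.γ b j)) ∧
    X.ε ≤ L.nm (X.γ b j) := by
  obtain ⟨j, -, hj⟩ := Finset.exists_max_image Finset.univ (fun r => L.nm (X.γ b r))
    ⟨0, Finset.mem_univ 0⟩
  obtain ⟨r, hr⟩ := (hX.pk (X.i b)).D_le (fun r => (hX.iv b r).2)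
  exact ⟨j, fun r => hj r (Finset.mem_univ r),
    (hX.D b).trans (hr.trans (hj r (Finset.mem_univ r)))⟩

private theorem sd_nj (hX : X.Ok L) {b : X.B} {j : Fin (d + 1)} (hj : X.ε ≤ L.nm (X.γ b j))
    {h : Fin (d + 1) → Ω} (hh : ∀ r, L.nm (h r) ≤ 1) :
    L.nm (X.cc b h j) = L.nm (X.γ b j) :=
  L.eq_of_close ((sd_near X b hh j).trans_lt ((sd_m1 hX).trans_le hj))

private theorem sd_nr (hX : X.Ok L) {b : X.B} {j : Fin (d + 1)}
    (hm : ∀ r, L.nm (X.γ b r) ≤ L.nm (X.γ b j)) (hj : X.ε ≤ L.nm (X.γ b j))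
    {h : Fin (d + 1) → Ω} (hh : ∀ r, L.nm (h r) ≤ 1) (r : Fin (d + 1)) :
    L.nm (X.cc b h r) ≤ L.nm (X.γ b j) := by
  have e : X.cc b h r = (X.cc b h r - X.γ b r) + X.γ b r := by ring
  rw [e]
  exact (L.add _ _).trans (max_le ((sd_near X b hh r).trans ((sd_m1 hX).le.trans hj)) (hm r))

private theorem sd_ϖ (hX : X.Ok L) : X.ϖ ≠ 0 := L.ne_zero hX.ϖ0

/-- The new parameters. -/
private theorem sd_new (hX : X.Ok L) {b : X.B} {j : Fin (d + 1)} {h h₁ : Fin (d + 1) → Ω}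
    (h0 : X.cc b h j ≠ 0) (h1 : ∀ r, X.cc b h₁ r = X.γ b j / X.cc b h j * X.cc b h r)
    (r : Fin (d + 1)) : h₁ r * X.cc b h j = X.γ b j * h r - X.γ b r * h j := by
  have h2 := h1 r
  rw [div_mul_eq_mul_div, eq_div_iff h0] at h2
  refine mul_left_cancel₀ (sd_ϖ hX) ?_
  have h3 : X.cc b h₁ r = X.γ b r + X.ϖ * h₁ r := rfl
  have h4 : X.cc b h r = X.γ b r + X.ϖ * h r := rfl
  have h5 : X.cc b h j = X.γ b j + X.ϖ * h j := rfl
  rw [h3, h4] at h2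
  rw [h5] at h2 ⊢
  linear_combination h2

private theorem sd_one (hX : X.Ok L) {b : X.B} {j : Fin (d + 1)}
    (hm : ∀ r, L.nm (X.γ b r) ≤ L.nm (X.γ b j)) (hj : X.ε ≤ L.nm (X.γ b j))
    {h h₁ : Fin (d + 1) → Ω} (hh : ∀ r, L.nm (h r) ≤ 1)
    (h1 : ∀ r, X.cc b h₁ r = X.γ b j / X.cc b h j * X.cc b h r) (r : Fin (d + 1)) :
    L.nm (h₁ r) ≤ 1 := by
  have hc := sd_nj hX hj hh
  have hpos : 0 < L.nm (X.γ b j) := hX.ε0.trans_le hj
  have h0 : X.cc b h j ≠ 0 := L.ne_zero (by rw [hc]; exact hpos)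
  have h2 := congrArg L.nm (sd_new hX h0 h1 r)
  rw [L.mul, hc] at h2
  have h3 : L.nm (X.γ b j * h r - X.γ b r * h j) ≤ L.nm (X.γ b j) := by
    refine (L.sub _ _).trans (max_le ?_ ?_)
    · rw [L.mul]
      exact mul_le_of_le_one_right (L.nonneg _) (hh r)
    · rw [L.mul]
      exact (mul_le_of_le_one_right (L.nonneg _) (hh j)).trans (hm r)
  rw [← h2] at h3
  exact (mul_le_iff_le_one_left hpos).1 h3

private theorem sd_eq (hX : X.Ok L) {b : X.B} {j : Fin (d + 1)}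
    (hm : ∀ r, L.nm (X.γ b r) ≤ L.nm (X.γ b j)) (hj : X.ε ≤ L.nm (X.γ b j))
    {h h₁ : Fin (d + 1) → Ω} (hh : ∀ r, L.nm (h r) ≤ 1)
    (h1 : ∀ r, X.cc b h₁ r = X.γ b j / X.cc b h j * X.cc b h r) : X.P b h₁ = X.P b h := by
  have hψ := hX.pk (X.i b)
  have hc := sd_nj hX hj hh
  have hpos : 0 < L.nm (X.γ b j) := hX.ε0.trans_le hj
  have h0 : X.cc b h j ≠ 0 := L.ne_zero (by rw [hc]; exact hpos)
  have hγ0 : X.γ b j ≠ 0 := L.ne_zero hpos
  have hh1 : ∀ r, L.nm (h₁ r) ≤ 1 := sd_one hX hm hj hh h1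
  have hG := hX.rt_root b hh
  have hD := sd_Dne hX b hh
  have hτ : X.γ b j / X.cc b h j ≠ 0 := div_ne_zero hγ0 h0
  obtain ⟨h2, -, -, -⟩ := hψ.ok.pt_smul (om_hom hψ.hom) (c := X.cc b h) (w := X.rt L b h)
    (by rw [om_G]; exact hG) (by rw [om_D]; exact hD) hτ
  rw [om_G] at h2
  have h3 : X.cc b h₁ = (X.γ b j / X.cc b h j) • X.cc b h := funext h1
  rw [← h3] at h2
  have h4 : L.nm (X.γ b j / X.cc b h j * X.rt L b h - X.w b) < X.ε := by
    have e : X.γ b j / X.cc b h j * X.rt L b h - X.w b =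
        (X.γ b j / X.cc b h j - 1) * X.rt L b h + (X.rt L b h - X.w b) := by ring
    rw [e]
    refine (L.add _ _).trans_lt (max_lt ?_ (sd_rt hX b hh))
    rw [L.mul]
    refine (mul_le_of_le_one_right (L.nonneg _) (hψ.wl (sd_le hX b hh) hG)).trans_lt ?_
    have e2 : X.γ b j / X.cc b h j - 1 = (X.γ b j - X.cc b h j) / X.cc b h j := by
      rw [sub_div, div_self h0]
    rw [e2, L.div, hc, div_lt_iff₀ hpos, L.sub_comm]
    refine (sd_near X b hh j).trans_lt ((sd_m hX (n := 2) (by norm_num)).trans_le ?_)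
    rw [sq]
    exact mul_le_mul_of_nonneg_left hj hX.ε0.le
  have h5 := hX.rt_uniq b hh1 h2 h4
  have h6 := hX.cop b hh1
  rw [← h5, h3] at h6
  exact (hψ.prop hD hG hτ (hX.cop b hh) h6).symm

private theorem sd_iv (hX : X.Ok L) {b : X.B} {j : Fin (d + 1)}
    (hm : ∀ r, L.nm (X.γ b r) ≤ L.nm (X.γ b j)) (hj : X.ε ≤ L.nm (X.γ b j))
    {h h₁ : Fin (d + 1) → Ω} (hh : ∀ r, L.nm (h r) ≤ 1)
    (h1 : ∀ r, X.cc b h₁ r = X.γ b j / X.cc b h j * X.cc b h r) (M : IntermediateField K Ω)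
    (hM : Fp (Xf f) M (X.P b h)) : Iv L M h₁ := by
  have hψ := hX.pk (X.i b)
  have hc := sd_nj hX hj hh
  have hpos : 0 < L.nm (X.γ b j) := hX.ε0.trans_le hj
  have h0 : X.cc b h j ≠ 0 := L.ne_zero (by rw [hc]; exact hpos)
  obtain ⟨x, i, hx, hi, -⟩ := exists_nco (L := L) hψ.hom (X.P b h)
  have hxM : ∀ k, x k ∈ M := fp_mem hM hx hi
  obtain ⟨t, ht, h2, -⟩ := hψ.uv (sd_Dne hX b hh) (hX.rt_root b hh) (hX.cop b hh) hx
  have h3 : ∀ r, t * X.cc b h r ∈ M := by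
    intro r
    rw [← h2 r]
    exact lv_mem _ hxM
  intro r
  refine ⟨?_, sd_one hX hm hj hh h1 r⟩
  have h4 : X.cc b h₁ r ∈ M := by
    have e : X.cc b h₁ r = X.γ b j * (t * X.cc b h r) / (t * X.cc b h j) := by
      rw [h1 r]
      field_simp
    rw [e]
    exact div_mem (mul_mem ((bot_le : ⊥ ≤ M) (hX.iv b j).1) (h3 r)) (h3 j)
  have e : h₁ r = (X.cc b h₁ r - X.γ b r) / X.ϖ := by
    rw [eq_div_iff (sd_ϖ hX)]
    have h5 : X.cc b h₁ r = X.γ b r + X.ϖ * h₁ r := rfl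
    rw [h5]
    ring
  rw [e]
  exact div_mem (sub_mem h4 ((bot_le : ⊥ ≤ M) (hX.iv b r).1)) ((bot_le : ⊥ ≤ M) hX.ϖm)

/-- Proof: `rt_act`, uniqueness of the point with given coordinates (`co_eq`, `co_act`). -/
theorem Bd.Ok.act (hX : X.Ok L) (γ : Ω ≃ₐ[K] Ω) (b : X.B) (hh : ∀ r, L.nm (h r) ≤ 1) :
    (Xf f).act γ (X.P b h) = X.P b fun r => γ (h r) := by
  have h1 := co_act γ (hX.cop b hh)
  have h2 := hX.cop b (h := fun r => γ (h r)) (fun r => by rw [L.act]; exact hh r)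
  have e : (fun j => γ (pe (X.cc b h) (X.rt L b h) ((X.ψ (X.i b)).A j))) =
      fun j => pe (X.cc b fun r => γ (h r)) (X.rt L b fun r => γ (h r))
        ((X.ψ (X.i b)).A j) := by
    funext j
    rw [pe_act, hX.rt_act b hh γ, sd_fix hX γ b h]
  rw [e] at h1
  exact co_eq h1 h2

/-- **The distance of the points.** Proof: coordinates `A (c, w)`, `A (c', w')` (`cop`), one of them has norm `≥ ε ^ 2` (`Pk.am`, the coordinate `j` of maximal norm); divide by `A_j (c, w)` and `A_j (c', w')`: the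
difference is at most `nm ϖ t ε ^ (-1) ε ^ (-4) ≤ t`. -/
theorem Bd.Ok.nrh (hX : X.Ok L) (b : X.B) (hh : ∀ r, L.nm (h r) ≤ 1)
    (hh' : ∀ r, L.nm (h' r) ≤ 1) (ht1 : t ≤ 1) (ht : ∀ r, L.nm (h' r - h r) ≤ t) :
    Nrh f L t (X.P b h) (X.P b h') := by
  have hψ := hX.pk (X.i b)
  have h0 : 0 ≤ t := (L.nonneg _).trans (ht 0)
  have hG := hX.rt_root b hh
  have hG' := hX.rt_root b hh'
  have hle := sd_le hX b hh
  have hle' := sd_le hX b hh'
  have hε1 := hX.ε1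
  have hε0 := hX.ε0
  obtain ⟨j₁, hj₁⟩ := hψ.am hle hG (sd_Dne hX b hh)
  obtain ⟨j, -, hj⟩ := Finset.exists_max_image Finset.univ
    (fun j => L.nm (pe (X.cc b h) (X.rt L b h) ((X.ψ (X.i b)).A j))) ⟨j₁, Finset.mem_univ j₁⟩
  have hj' : ∀ k, L.nm (pe (X.cc b h) (X.rt L b h) ((X.ψ (X.i b)).A k)) ≤
      L.nm (pe (X.cc b h) (X.rt L b h) ((X.ψ (X.i b)).A j)) := fun k => hj k (Finset.mem_univ k)
  have hA : X.ε ^ 2 ≤ L.nm (pe (X.cc b h) (X.rt L b h) ((X.ψ (X.i b)).A j)) :=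
    ((pow_le_pow_left₀ hε0.le (sd_D hX b hh) 2).trans hj₁).trans (hj' j₁)
  have hpos : 0 < L.nm (pe (X.cc b h) (X.rt L b h) ((X.ψ (X.i b)).A j)) :=
    (pow_pos hε0 2).trans_le hA
  have hne : pe (X.cc b h) (X.rt L b h) ((X.ψ (X.i b)).A j) ≠ 0 := L.ne_zero hpos
  have hd : ∀ k, L.nm (pe (X.cc b h) (X.rt L b h) ((X.ψ (X.i b)).A k) -
      pe (X.cc b h') (X.rt L b h') ((X.ψ (X.i b)).A k)) ≤ X.ε ^ 11 * t := by
    intro k
    refine pe_close (hψ.iA k) hle (hψ.wl hle hG) hle' (hψ.wl hle' hG')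
      (mul_nonneg (pow_nonneg hε0.le _) h0) (fun r => ?_) ?_
    · rw [L.sub_comm]
      exact (sd_close X b ht r).trans
        (mul_le_mul_of_nonneg_right (sd_m hX (n := 11) (by norm_num)).le h0)
    · rw [L.sub_comm]
      have h1 := hX.rt_near b hh hh' h0 ht
      have h2 : L.nm (X.rt L b h' - X.rt L b h) * X.ε ≤ X.ε ^ 11 * t * X.ε := by
        refine h1.trans ?_
        have e : X.ε ^ 11 * t * X.ε = X.ε ^ 12 * t := by ring
        rw [e]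
        exact mul_le_mul_of_nonneg_right hX.sm.le h0
      exact le_of_mul_le_mul_right h2 hε0
  have hsm : X.ε ^ 9 * t < 1 :=
    mul_lt_one_of_nonneg_of_lt_one_left (pow_nonneg hε0.le _)
      (pow_lt_one₀ hε0.le hε1 (by norm_num)) ht1
  have hdv : ∀ k, L.nm ((pe (X.cc b h) (X.rt L b h) ((X.ψ (X.i b)).A j))⁻¹ *
      pe (X.cc b h) (X.rt L b h) ((X.ψ (X.i b)).A k) -
      (pe (X.cc b h) (X.rt L b h) ((X.ψ (X.i b)).A j))⁻¹ *
      pe (X.cc b h') (X.rt L b h') ((X.ψ (X.i b)).A k)) ≤ X.ε ^ 9 * t := by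
    intro k
    rw [← mul_sub, L.mul, L.inv, inv_mul_le_iff₀ hpos]
    refine (hd k).trans ?_
    have e : X.ε ^ 11 * t = X.ε ^ 2 * (X.ε ^ 9 * t) := by ring
    rw [e]
    exact mul_le_mul_of_nonneg_right hA (mul_nonneg (pow_nonneg hε0.le _) h0)
  have hx : ∀ k, L.nm ((pe (X.cc b h) (X.rt L b h) ((X.ψ (X.i b)).A j))⁻¹ *
      pe (X.cc b h) (X.rt L b h) ((X.ψ (X.i b)).A k)) ≤ 1 := by
    intro k
    rw [L.mul, L.inv, inv_mul_le_iff₀ hpos, mul_one]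
    exact hj' k
  refine nrh_mono (r := X.ε ^ 9 * t)
    (mul_le_of_le_one_left h0 (pow_le_one₀ hε0.le hε1.le))
    (nrh_mk hsm (co_smul hψ.hom (hX.cop b hh) (inv_ne_zero hne))
      (co_smul hψ.hom (hX.cop b hh') (inv_ne_zero hne)) hx (fun k => ?_)
      ⟨j, by rw [inv_mul_cancel₀ hne, L.one]⟩ hdv)
  have h1 := hdv k
  rw [L.sub_comm] at h1
  have e : ∀ a c : Ω, a = (a - c) + c := fun a c => by ring
  rw [e ((pe (X.cc b h) (X.rt L b h) ((X.ψ (X.i b)).A j))⁻¹ *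
      pe (X.cc b h') (X.rt L b h') ((X.ψ (X.i b)).A k))
    ((pe (X.cc b h) (X.rt L b h) ((X.ψ (X.i b)).A j))⁻¹ *
      pe (X.cc b h) (X.rt L b h) ((X.ψ (X.i b)).A k))]
  exact (L.add _ _).trans (max_le (h1.trans hsm.le) (hx k))

/-- **Rational parameters**, one point. Let `j` be such that `nm (γ b j)` is maximal. The point `c = γ b + ϖ h` is replaced by `c (γ b j / c_j)`: the point of the variety is the same (`Pk.prop`), the root is near `w b`, and it is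
rational over `M` if `P b h` is (`Pk.uv`: the coordinates `u` of the point are proportional to `c`). -/
theorem Bd.Ok.rat_one (hX : X.Ok L) (b : X.B) : ∃ j, (∀ r, L.nm (X.γ b r) ≤ L.nm (X.γ b j)) ∧
    ∀ h : Fin (d + 1) → Ω, (∀ r, L.nm (h r) ≤ 1) → X.cc b h j ≠ 0 ∧ ∀ h₁ : Fin (d + 1) → Ω,
      (∀ r, X.cc b h₁ r = X.γ b j / X.cc b h j * X.cc b h r) →
        (∀ r, L.nm (h₁ r) ≤ 1) ∧ X.P b h₁ = X.P b h ∧
          ∀ (M : IntermediateField K Ω), Fp (Xf f) M (X.P b h) → Iv L M h₁ := by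
  obtain ⟨j, hm, hj⟩ := sd_mx hX b
  refine ⟨j, hm, fun h hh => ⟨?_, fun h₁ h1 => ⟨sd_one hX hm hj hh h1,
    sd_eq hX hm hj hh h1, fun M hM => sd_iv hX hm hj hh h1 M hM⟩⟩⟩
  exact L.ne_zero (by rw [sd_nj hX hj hh]; exact hX.ε0.trans_le hj)

/-- **Rational parameters.** Proof: `rat_one` for both points and the same `j`; `nm (c_r c'_j - c'_r c_j) ≤ nm ϖ t nm (γ b j)`. -/
theorem Bd.Ok.rat (hX : X.Ok L) (M : IntermediateField K Ω) (x y : (Xf f).pt Ω) (ht : 0 ≤ t)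
    (hn : nb L X.P t x y) (hx : Fp (Xf f) M x) (hy : Fp (Xf f) M y) :
    ∃ (b : X.B) (h h' : Fin (d + 1) → Ω), Iv L M h ∧ Iv L M h' ∧ x = X.P b h ∧ y = X.P b h' ∧
      ∀ i, L.nm (h i - h' i) ≤ t := by
  obtain ⟨b, h, h', hh, hh', rfl, rfl, hd⟩ := hn
  obtain ⟨j, hm, h1⟩ := hX.rat_one b
  obtain ⟨h0, h2⟩ := h1 h hh
  obtain ⟨h0', h2'⟩ := h1 h' hh'
  have hϖ := sd_ϖ hX
  have hcc : ∀ g : Fin (d + 1) → Ω, ∀ r, X.cc b (fun r => (g r - X.γ b r) / X.ϖ) r = g r := by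
    intro g r
    change X.γ b r + X.ϖ * ((g r - X.γ b r) / X.ϖ) = g r
    rw [mul_div_cancel₀ _ hϖ]
    ring
  have k1 := hcc fun r => X.γ b j / X.cc b h j * X.cc b h r
  have k2 := hcc fun r => X.γ b j / X.cc b h' j * X.cc b h' r
  obtain ⟨-, p2, p3⟩ := h2 _ k1
  obtain ⟨-, q2, q3⟩ := h2' _ k2
  refine ⟨b, _, _, p3 M hx, q3 M hy, p2.symm, q2.symm, fun r => ?_⟩
  obtain ⟨j', hm', hj'⟩ := sd_mx hX b
  have hj : X.ε ≤ L.nm (X.γ b j) := hj'.trans (hm j')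
  have hpos : 0 < L.nm (X.γ b j) := hX.ε0.trans_le hj
  have hc := sd_nj hX hj hh
  have hc' := sd_nj hX hj hh'
  have e1 : X.cc b h r = X.γ b r + X.ϖ * h r := rfl
  have e2 : X.cc b h' r = X.γ b r + X.ϖ * h' r := rfl
  have e3 : X.cc b h j = X.γ b j + X.ϖ * h j := rfl
  have e4 : X.cc b h' j = X.γ b j + X.ϖ * h' j := rfl
  have e : (X.γ b j / X.cc b h j * X.cc b h r - X.γ b r) / X.ϖ -
      (X.γ b j / X.cc b h' j * X.cc b h' r - X.γ b r) / X.ϖ =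
      X.γ b j * (X.cc b h j * (h r - h' r) - X.cc b h r * (h j - h' j)) /
        (X.cc b h j * X.cc b h' j) := by
    rw [div_sub_div_same, div_eq_div_iff hϖ (mul_ne_zero h0 h0'), sub_mul, sub_mul, sub_mul]
    have f1 : X.γ b j / X.cc b h j * X.cc b h r * (X.cc b h j * X.cc b h' j) =
        X.γ b j * X.cc b h r * X.cc b h' j := by
      field_simp
    have f2 : X.γ b j / X.cc b h' j * X.cc b h' r * (X.cc b h j * X.cc b h' j) =
        X.γ b j * X.cc b h' r * X.cc b h j := by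
      field_simp
    rw [f1, f2, e1, e2, e3, e4]
    ring
  rw [e, L.div, L.mul, L.mul, hc, hc', div_le_iff₀ (mul_pos hpos hpos)]
  have h3 : L.nm (X.cc b h j * (h r - h' r) - X.cc b h r * (h j - h' j)) ≤
      L.nm (X.γ b j) * t := by
    refine (L.sub _ _).trans (max_le ?_ ?_)
    · rw [L.mul, hc]
      exact mul_le_mul_of_nonneg_left (hd r) hpos.le
    · rw [L.mul]
      exact mul_le_mul (sd_nr hX hm hj hh r) (hd j) (L.nonneg _) hpos.le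
  calc L.nm (X.γ b j) * L.nm (X.cc b h j * (h r - h' r) - X.cc b h r * (h j - h' j)) ≤
      L.nm (X.γ b j) * (L.nm (X.γ b j) * t) := mul_le_mul_of_nonneg_left h3 hpos.le
    _ = t * (L.nm (X.γ b j) * L.nm (X.γ b j)) := by ring

end GX
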