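import Pool.Agent.Lib.MP_f80667_ag.Ep.Gd
import Pool.Agent.Lib.MP_f80667_ag.Ep.Sd
import Pool.Agent.Lib.MP_f80667_ag.Lc.B

/-!
The coordinates of the points of the branches and the tangent vectors: Galois action, near points, the good points `Ge`.

* `Xe L X n x`: `x` are the coordinates `xx b h` of a point of a branch over `Ur ⊥ n`.
* `Ge L X i n c`: `c` is over `Ur ⊥ n` in a polydisc of the projection number `i`.
-/

open ZC BE PE CV IntermediateField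

namespace GX

variable {F : Type} [Field F] {N d m : ℕ} {ι : Type} {f : ι → MvPolynomial (Fin N) F}
  {K Ω : Type} [Field K] [CharZero K] [Field Ω] [Algebra K Ω] [Algebra F K] [Algebra F Ω]
  [IsScalarTower F K Ω] [IsAlgClosure K Ω] {L : Ld K Ω} {X : Bd f K Ω d m}
  {M : IntermediateField K Ω} {b b' : X.B} {h h' : Fin (d + 1) → Ω} {n : ℕ}

/-- The coordinates `xx b h` of a point of a branch over `Ur ⊥ n`. -/
def Xe (L : Ld K Ω) (X : Bd f K Ω d m) (n : ℕ) (x : Fin N → Ω) : Prop :=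
  ∃ (b : X.B) (h : Fin (d + 1) → Ω), Iv L (L.Ur ⊥ n) h ∧ X.xx L b h = x

/-- `c` is over `Ur ⊥ n` in a polydisc of the projection number `i`. -/
def Ge (L : Ld K Ω) (X : Bd f K Ω d m) (i : Fin m) (n : ℕ) (c : Fin (d + 1) → Ω) : Prop :=
  ∃ (b : X.B) (h : Fin (d + 1) → Ω), X.i b = i ∧ Iv L (L.Ur ⊥ n) h ∧ X.cc b h = c

omit [CharZero K] [IsAlgClosure K Ω] in
private theorem lc_fix (γ : Ω ≃ₐ[K] Ω) {y : Ω} (hy : y ∈ (⊥ : IntermediateField K Ω)) :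
    γ y = y := by
  obtain ⟨a, rfl⟩ := IntermediateField.mem_bot.1 hy
  exact γ.commutes a

omit [CharZero K] [IsAlgClosure K Ω] in
private theorem lc_ae (γ : Ω ≃ₐ[K] Ω) {σ : Type} (P : MvPolynomial σ K) (c : σ → Ω) :
    γ (MvPolynomial.aeval c P) = MvPolynomial.aeval (fun r => γ (c r)) P :=
  MvPolynomial.comp_aeval_apply c (γ : Ω →ₐ[K] Ω) P

omit [CharZero K] [IsAlgClosure K Ω] in
private theorem lc_cc (hX : X.Ok L) (b : X.B) (γ : Ω ≃ₐ[K] Ω) (h : Fin (d + 1) → Ω) :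
    (fun r => γ (X.cc b h r)) = X.cc b fun r => γ (h r) := by
  funext r
  rw [Bd.cc, Bd.cc, map_add, map_mul, lc_fix γ (hX.iv b r).1, lc_fix γ hX.ϖm]

/-- Proof: `xx_zp`, `om_zp`. -/
theorem Xe.zp (hX : X.Ok L) {x : Fin N → Ω} (hx : Xe L X n x) : Zp (fo f Ω) x := by
  obtain ⟨b, h, hh, rfl⟩ := hx
  obtain ⟨h1, h2, -⟩ := hX.xx_zp b fun r => (hh r).2
  exact om_zp.2 ⟨h1, h2⟩

theorem Xe.mem (hX : X.Ok L) {x : Fin N → Ω} (hx : Xe L X n x) (j : Fin N) :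
    x j ∈ L.Ur ⊥ n := by
  obtain ⟨b, h, hh, rfl⟩ := hx
  exact hX.xx_mem b hh j

/-- Proof: `Ld.ur_dvd`. -/
theorem Xe.mono {n' : ℕ} {x : Fin N → Ω} (hx : Xe L X n x) (hn : n ∣ n') : Xe L X n' x := by
  obtain ⟨b, h, hh, rfl⟩ := hx
  exact ⟨b, h, fun r => ⟨Ld.ur_dvd ⊥ hn (hh r).1, (hh r).2⟩, rfl⟩

/-- Proof: `rt_act`, the coefficients of the projections are in `K`, the centres are over `K`. -/
theorem Bd.Ok.xx_act (hX : X.Ok L) (b : X.B) (hh : ∀ r, L.nm (h r) ≤ 1) (γ : Ω ≃ₐ[K] Ω)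
    (j : Fin N) : γ (X.xx L b h j) = X.xx L b (fun r => γ (h r)) j := by
  rw [Bd.xx, om_pt, Bd.xx, om_pt, map_div₀, pe_act, lc_ae, lc_cc hX, hX.rt_act b hh]

theorem Bd.Ok.tt_act (hX : X.Ok L) (b : X.B) (hh : ∀ r, L.nm (h r) ≤ 1) (γ : Ω ≃ₐ[K] Ω)
    (x : Fin (d + 1) → Ω) (j : Fin N) :
    γ (X.tt L b h x j) = X.tt L b (fun r => γ (h r)) (fun r => γ (x r)) j := by
  rw [Bd.tt, lt_form, Bd.tt, lt_form, map_div₀, map_mul, map_pow, map_sum, pe_act, lc_ae,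
    lc_cc hX, hX.rt_act b hh]
  congr 1
  refine Finset.sum_congr rfl fun r _ => ?_
  rw [map_mul, map_mul, pe_act, lc_cc hX, hX.rt_act b hh, lc_fix γ hX.ϖm]

/-- A tangent vector over `Ur ⊥ n`. Proof: `tt_tg`, `tt_mem`. -/
theorem Bd.Ok.tt_tn (hX : X.Ok L) (b : X.B) (hh : Iv L (L.Ur ⊥ n) h) {x : Fin (d + 1) → Ω}
    (hx : ∀ r, x r ∈ L.Ur ⊥ n) : Tn' f L n (X.xx L b h) (X.tt L b h x) := by
  exact ⟨(hX.tt_tg b (fun r => (hh r).2) x).1, hX.tt_mem b hh hx⟩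

/-- Every tangent vector is of this form. Proof: `Prj.Ok.lt_eq` (`Pk.ok`), `om_uv`; the coefficients of the linear forms are integral elements of `K`. -/
theorem Bd.Ok.tt_eq (hX : X.Ok L) (b : X.B) (hh : Iv L (L.Ur ⊥ n) h) {t : Fin N → Ω}
    (ht : Tn' f L n (X.xx L b h) t) :
    X.tt L b h (fun r => X.ϖ⁻¹ * (X.ψ (X.i b)).uv t r) = t ∧
      (∀ r, X.ϖ⁻¹ * (X.ψ (X.i b)).uv t r ∈ L.Ur ⊥ n) ∧
      ∀ ρ : ℝ, (∀ i, L.nm (t i) ≤ ρ) → 0 ≤ ρ →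
        ∀ r, L.nm (X.ϖ⁻¹ * (X.ψ (X.i b)).uv t r) ≤ (L.nm X.ϖ)⁻¹ * ρ := by
  have hh1 : ∀ r, L.nm (h r) ≤ 1 := fun r => (hh r).2
  have hϖ0 : X.ϖ ≠ 0 := L.ne_zero hX.ϖ0
  obtain ⟨-, -, hu, hy⟩ := hX.xx_zp b hh1
  have h1 := (hX.pk (X.i b)).ok.lt_eq ht.tg (by
    change MvPolynomial.eval (((X.ψ (X.i b)).om Ω).uv (X.xx L b h)) ((X.ψ (X.i b)).om Ω).D ≠ 0
    rw [om_uv, om_D, hu]
    exact hX.dcc_ne b hh1)
  have h2 : ((X.ψ (X.i b)).om Ω).lt (((X.ψ (X.i b)).om Ω).uv (X.xx L b h))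
      (((X.ψ (X.i b)).om Ω).yv (X.xx L b h)) (((X.ψ (X.i b)).om Ω).uv t) = t := h1
  rw [om_uv, om_uv, om_yv, hu, hy] at h2
  refine ⟨?_, fun r => ?_, fun ρ hρ h0 r => ?_⟩
  · have h3 : (fun r => X.ϖ * (X.ϖ⁻¹ * (X.ψ (X.i b)).uv t r)) = (X.ψ (X.i b)).uv t :=
      funext fun r => mul_inv_cancel_left₀ hϖ0 _
    rw [Bd.tt, h3]
    exact h2
  · refine (L.Ur ⊥ n).mul_mem ((L.Ur ⊥ n).inv_mem (bot_le (a := L.Ur ⊥ n) hX.ϖm)) ?_
    change lv ((X.ψ (X.i b)).u r) t ∈ L.Ur ⊥ n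
    rw [lv]
    exact sum_mem fun j _ => (L.Ur ⊥ n).mul_mem ((L.Ur ⊥ n).algebraMap_mem _) (ht.mem j)
  · rw [← div_eq_inv_mul, L.div, ← div_eq_inv_mul]
    refine div_le_div_of_nonneg_right ?_ (L.nonneg _)
    change L.nm (lv ((X.ψ (X.i b)).u r) t) ≤ ρ
    rw [lv]
    refine L.sum_le _ _ h0 fun j _ => ?_
    rw [L.mul]
    exact (mul_le_of_le_one_left (L.nonneg _) ((hX.pk (X.i b)).iu r j)).trans (hρ j)

/-- **The points near `xx b h` are in the branch.** Proof: let `c' = u (z)`, `h' = (c' - γ b) / ϖ`: for large `k` it is integral, and the difference of `h'` and `h + p ^ k x` is at most `D q ^ (2 k) / nm ϖ` (`tt_tg`). `y (z)` is a root of `G (c', Y)` (`Prj.Ok.pt_eq`, `D_cc`) near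
`rt b h`, so near `w b`: `y (z) = rt b h'` (`rt_uniq`); `Prj.Ok.pt_eq`: `xx b h' = z`. -/
theorem Bd.Ok.near (hX : X.Ok L) (b : X.B) (hh : Iv L (L.Ur ⊥ n) h) {x : Fin (d + 1) → Ω}
    (hx : ∀ r, x r ∈ L.Ur ⊥ n) (D : ℝ) : ∃ (D' : ℝ) (k₀ : ℕ), 0 ≤ D' ∧ ∀ k, k₀ ≤ k →
      ∀ z : Fin N → Ω, Zp (fo f Ω) z → (∀ j, z j ∈ L.Ur ⊥ n) →
        (∀ j, L.nm (z j - (X.xx L b h j + (L.p : Ω) ^ k * X.tt L b h x j)) ≤
          D * (L.nm (L.p : Ω) ^ k) ^ 2) →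
            ∃ h' : Fin (d + 1) → Ω, Iv L (L.Ur ⊥ n) h' ∧ X.xx L b h' = z ∧
              ∀ r, L.nm (h' r - (h r + (L.p : Ω) ^ k * x r)) ≤
                D' * (L.nm (L.p : Ω) ^ k) ^ 2 := by
  have hh1 : ∀ r, L.nm (h r) ≤ 1 := fun r => (hh r).2
  have hε := hX.ε0
  have hε1 := hX.ε1
  have hϖ := hX.ϖ0
  have hϖne : X.ϖ ≠ 0 := L.ne_zero hϖ
  have hpk := hX.pk (X.i b)
  obtain ⟨-, -, hu, hy⟩ := hX.xx_zp b hh1
  obtain ⟨-, ht2⟩ := hX.tt_tg b hh1 x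
  have hq0 : 0 < L.nm (L.p : Ω) := L.p_pos
  have hq1 : L.nm (L.p : Ω) < 1 := L.lt
  obtain ⟨D₁, hD₁⟩ : ∃ D₁, D₁ = max D 0 := ⟨_, rfl⟩
  have hD0 : 0 ≤ D₁ := by rw [hD₁]; exact le_max_right _ _
  have hDD : D ≤ D₁ := by rw [hD₁]; exact le_max_left _ _
  obtain ⟨D', hD'⟩ : ∃ D', D' = D₁ / L.nm X.ϖ := ⟨_, rfl⟩
  have hD'0 : 0 ≤ D' := by rw [hD']; exact div_nonneg hD0 hϖ.le
  obtain ⟨S, hS⟩ : ∃ S, S = ∑ r, L.nm (x r) := ⟨_, rfl⟩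
  have hS0 : 0 ≤ S := by rw [hS]; exact Finset.sum_nonneg fun r _ => L.nonneg _
  have hSx : ∀ r, L.nm (x r) ≤ S := fun r => by
    rw [hS]
    exact Finset.single_le_sum (f := fun r => L.nm (x r)) (fun i _ => L.nonneg _)
      (Finset.mem_univ r)
  obtain ⟨Y, hY⟩ : ∃ Y, Y = L.nm ((X.ψ (X.i b)).yv (X.tt L b h x)) := ⟨_, rfl⟩
  have hY0 : 0 ≤ Y := by rw [hY]; exact L.nonneg _
  obtain ⟨T, hT⟩ : ∃ T, T = D₁ + D' + S + Y + 1 := ⟨_, rfl⟩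
  have hT0 : 0 < T := by linarith
  obtain ⟨k₀, hk₀⟩ := exists_pow_lt_of_lt_one (div_pos hε hT0) hq1
  refine ⟨D', k₀, hD'0, fun k hk z hz hzm hzd => ?_⟩
  obtain ⟨q, hq⟩ : ∃ q, q = L.nm (L.p : Ω) ^ k := ⟨_, rfl⟩
  rw [← hq] at hzd ⊢
  have hqp : 0 < q := by rw [hq]; exact pow_pos hq0 k
  have hqle : q ≤ 1 := by rw [hq]; exact pow_le_one₀ hq0.le hq1.le
  have hqT : q * T < X.ε := by
    have h1 := (pow_le_pow_of_le_one hq0.le hq1.le hk).trans_lt hk₀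
    rw [lt_div_iff₀ hT0] at h1
    rw [hq]
    exact h1
  have key : ∀ A, A ≤ T → q * A < X.ε := fun A hA =>
    (mul_le_mul_of_nonneg_left hA hqp.le).trans_lt hqT
  have key2 : ∀ A, 0 ≤ A → A ≤ T → A * q ^ 2 < X.ε := fun A hA0 hA => by
    refine lt_of_le_of_lt ?_ (key A hA)
    calc A * q ^ 2 = q * (A * q) := by ring
      _ ≤ q * A := mul_le_mul_of_nonneg_left (mul_le_of_le_one_right hA0 hqle) hqp.le
  have hpn : L.nm ((L.p : Ω) ^ k) = q := by rw [L.pow, hq]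
  have hDq : 0 ≤ D₁ * q ^ 2 := mul_nonneg hD0 (sq_nonneg _)
  have hzd' : ∀ j, L.nm (z j - (X.xx L b h + (L.p : Ω) ^ k • X.tt L b h x) j) ≤
      D₁ * q ^ 2 := by
    intro j
    rw [Pi.add_apply, Pi.smul_apply, smul_eq_mul]
    exact (hzd j).trans (mul_le_mul_of_nonneg_right hDD (sq_nonneg _))
  have hu' : ∀ r, L.nm ((X.ψ (X.i b)).uv z r -
      (X.cc b h r + (L.p : Ω) ^ k * (X.ϖ * x r))) ≤ D₁ * q ^ 2 := by
    intro r
    have h1 := lv_close (L := L) (hpk.iu r) hDq hzd'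
    rw [lv_add, lv_smul] at h1
    have h2 : lv ((X.ψ (X.i b)).u r) (X.xx L b h) = X.cc b h r := congrFun hu r
    have h3 : lv ((X.ψ (X.i b)).u r) (X.tt L b h x) = X.ϖ * x r := ht2 r
    rw [h2, h3] at h1
    exact h1
  have hy' : L.nm ((X.ψ (X.i b)).yv z - (X.rt L b h +
      (L.p : Ω) ^ k * (X.ψ (X.i b)).yv (X.tt L b h x))) ≤ D₁ * q ^ 2 := by
    have h1 := lv_close (L := L) hpk.iy hDq hzd'
    rw [lv_add, lv_smul] at h1
    have h2 : lv (X.ψ (X.i b)).y (X.xx L b h) = X.rt L b h := hy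
    rw [h2] at h1
    exact h1
  obtain ⟨h', hh'⟩ : ∃ h' : Fin (d + 1) → Ω,
      h' = fun r => ((X.ψ (X.i b)).uv z r - X.γ b r) / X.ϖ := ⟨_, rfl⟩
  have hcc : X.cc b h' = (X.ψ (X.i b)).uv z := by
    funext r
    rw [Bd.cc, hh', mul_div_cancel₀ _ hϖne]
    ring
  have hnear : ∀ r, L.nm (h' r - (h r + (L.p : Ω) ^ k * x r)) ≤ D' * q ^ 2 := by
    intro r
    have e1 : h' r - (h r + (L.p : Ω) ^ k * x r) = ((X.ψ (X.i b)).uv z r -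
        (X.cc b h r + (L.p : Ω) ^ k * (X.ϖ * x r))) / X.ϖ := by
      rw [hh', Bd.cc, eq_div_iff hϖne, sub_mul, div_mul_cancel₀ _ hϖne]
      ring
    rw [e1, L.div, hD', div_mul_eq_mul_div]
    exact div_le_div_of_nonneg_right (hu' r) hϖ.le
  have hle : ∀ r, L.nm (h' r) ≤ 1 := by
    intro r
    have e1 : h' r = (h' r - (h r + (L.p : Ω) ^ k * x r)) +
        (h r + (L.p : Ω) ^ k * x r) := by ring
    rw [e1]
    refine (L.add _ _).trans (max_le ?_ ((L.add _ _).trans (max_le (hh1 r) ?_)))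
    · exact (hnear r).trans ((key2 D' hD'0 (by linarith)).le.trans hε1.le)
    · rw [L.mul, hpn]
      exact (key _ ((hSx r).trans (by linarith))).le.trans hε1.le
  have hmem : ∀ r, h' r ∈ L.Ur ⊥ n := by
    intro r
    rw [hh']
    exact (L.Ur ⊥ n).div_mem ((L.Ur ⊥ n).sub_mem (lv_mem _ hzm)
      (bot_le (a := L.Ur ⊥ n) (hX.iv b r).1)) (bot_le (a := L.Ur ⊥ n) hX.ϖm)
  have hDne := hX.dcc_ne b hle
  have hp := hpk.ok.pt_eq (x := z) hz (by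
    change MvPolynomial.eval ((((X.ψ (X.i b)).om Ω)).uv z) ((X.ψ (X.i b)).om Ω).D ≠ 0
    rw [om_D, om_uv, ← hcc]
    exact hDne)
  have hp1 : pe ((X.ψ (X.i b)).uv z) ((X.ψ (X.i b)).yv z) (X.ψ (X.i b)).G = 0 := by
    have h1 := hp.1
    change pe (((X.ψ (X.i b)).om Ω).uv z) (((X.ψ (X.i b)).om Ω).yv z)
      ((X.ψ (X.i b)).om Ω).G = 0 at h1
    rw [om_G, om_uv, om_yv] at h1
    exact h1
  have hp2 : ((X.ψ (X.i b)).om Ω).pt ((X.ψ (X.i b)).uv z) ((X.ψ (X.i b)).yv z) = z := by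
    have h1 := hp.2
    change ((X.ψ (X.i b)).om Ω).pt (((X.ψ (X.i b)).om Ω).uv z)
      (((X.ψ (X.i b)).om Ω).yv z) = z at h1
    rw [om_uv, om_yv] at h1
    exact h1
  have hrt : (X.ψ (X.i b)).yv z = X.rt L b h' := by
    refine hX.rt_uniq b hle (by rw [hcc]; exact hp1) ?_
    have e1 : (X.ψ (X.i b)).yv z - X.w b = ((X.ψ (X.i b)).yv z - (X.rt L b h +
        (L.p : Ω) ^ k * (X.ψ (X.i b)).yv (X.tt L b h x))) +
        ((X.rt L b h - X.w b) + (L.p : Ω) ^ k * (X.ψ (X.i b)).yv (X.tt L b h x)) := by ring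
    rw [e1]
    refine (L.add _ _).trans_lt (max_lt (hy'.trans_lt (key2 D₁ hD0 (by linarith)))
      ((L.add _ _).trans_lt (max_lt ?_ ?_)))
    · have h1 := hX.rt_le b hh1
      have h2 : L.nm X.ϖ < X.ε * X.ε := by
        refine hX.sm.trans_le ?_
        rw [← sq]
        exact pow_le_pow_of_le_one hε.le hε1.le (by norm_num)
      exact lt_of_mul_lt_mul_right (h1.trans_lt h2) hε.le
    · rw [L.mul, hpn, ← hY]
      exact key Y (by linarith)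
  refine ⟨h', fun r => ⟨hmem r, hle r⟩, ?_, hnear⟩
  rw [Bd.xx, hcc, ← hrt]
  exact hp2

/-- The coordinates of the moved points. Proof: `Bd.Ok.tan` for `t = D q ^ k` (`x` may be not integral), `tt_smul`. -/
theorem Bd.Ok.tan_pow (hX : X.Ok L) (b : X.B) (hh : Iv L (L.Ur ⊥ n) h)
    {x : Fin (d + 1) → Ω} (hx : ∀ r, x r ∈ L.Ur ⊥ n) : ∃ (D : ℝ) (k₀ : ℕ), 0 ≤ D ∧
      ∀ k, k₀ ≤ k → Iv L (L.Ur ⊥ n) (fun r => h r + (L.p : Ω) ^ k * x r) ∧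
        ∀ j, L.nm (X.xx L b (fun r => h r + (L.p : Ω) ^ k * x r) j -
          (X.xx L b h j + (L.p : Ω) ^ k * X.tt L b h x j)) ≤ D * (L.nm (L.p : Ω) ^ k) ^ 2 := by
  have hM : 0 ≤ ∑ i, L.nm (x i) := Finset.sum_nonneg fun i _ => L.nonneg _
  obtain ⟨M, hMd⟩ : ∃ M, M = ∑ i, L.nm (x i) + 1 := ⟨_, rfl⟩
  have hM1 : 0 < M := by rw [hMd]; linarith
  have hxM : ∀ i, L.nm (x i) ≤ M := by
    intro i
    have h1 : L.nm (x i) ≤ ∑ i, L.nm (x i) :=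
      Finset.single_le_sum (f := fun i => L.nm (x i)) (fun i _ => L.nonneg _)
        (Finset.mem_univ i)
    rw [hMd]
    linarith
  obtain ⟨k₀, hk₀⟩ := exists_pow_lt_of_lt_one (inv_pos.2 hM1) L.lt
  refine ⟨M ^ 2, k₀, sq_nonneg M, fun k hk => ?_⟩
  obtain ⟨q, hq⟩ : ∃ q, q = L.nm (L.p : Ω) ^ k := ⟨_, rfl⟩
  have hq0 : 0 ≤ q := by rw [hq]; exact pow_nonneg (L.nonneg _) k
  have hq1 : q * M ≤ 1 := by
    have h2 : q ≤ M⁻¹ := by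
      rw [hq]
      exact (pow_le_pow_of_le_one (L.nonneg _) L.lt.le hk).trans hk₀.le
    calc q * M ≤ M⁻¹ * M := mul_le_mul_of_nonneg_right h2 hM1.le
      _ = 1 := inv_mul_cancel₀ hM1.ne'
  have hpx : ∀ r, L.nm ((L.p : Ω) ^ k * x r) ≤ q * M := by
    intro r
    rw [L.mul, L.pow, ← hq]
    exact mul_le_mul_of_nonneg_left (hxM r) hq0
  have hiv : Iv L (L.Ur ⊥ n) (fun r => h r + (L.p : Ω) ^ k * x r) := fun r =>
    ⟨add_mem (hh r).1 (mul_mem (pow_mem (IntermediateField.natCast_mem _ _) _) (hx r)),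
      (L.add _ _).trans (max_le (hh r).2 ((hpx r).trans hq1))⟩
  refine ⟨hiv, fun j => ?_⟩
  have h3 := (hX.tan b (fun r => (hh r).2) (fun r => (hiv r).2) (mul_nonneg hq0 hM1.le) hq1
    (fun r => by
      rw [add_sub_cancel_left]
      exact hpx r) j).2
  have h4 : (fun r => h r + (L.p : Ω) ^ k * x r - h r) = ((L.p : Ω) ^ k) • x :=
    funext fun r => add_sub_cancel_left _ _
  rw [h4, Bd.tt_smul, Pi.smul_apply, smul_eq_mul, sub_sub] at h3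
  refine h3.trans (le_of_eq ?_)
  rw [← hq]
  ring

/-- Points with proportional coordinates are equal. Proof: `xx_co`, `co_smul`, `co_eq`. -/
theorem Bd.Ok.xx_eq (hX : X.Ok L) (hh : ∀ r, L.nm (h r) ≤ 1) (hh' : ∀ r, L.nm (h' r) ≤ 1)
    {s : Ω} (h1 : s • X.xx L b h = X.xx L b' h') : X.P b h = X.P b' h' := by
  have hs : s ≠ 0 := by
    rintro rfl
    rw [zero_smul] at h1
    exact (hX.xx_zp b' hh').1 h1.symm
  have h2 := co_smul (hX.pk (X.i b)).hom (hX.xx_co b hh) hs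
  have h3 : (fun i => s * X.xx L b h i) = X.xx L b' h' := h1
  rw [h3] at h2
  exact co_eq h2 (hX.xx_co b' hh')

end GX
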