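import Pool.Agent.Lib.MP_f80667_ag.Ep.Lc

/-! The good points and the points over them. -/

open ZC BE PE CV IntermediateField

namespace GX

variable {F : Type} [Field F] {N d m : ℕ} {ι : Type} {f : ι → MvPolynomial (Fin N) F}
  {K Ω : Type} [Field K] [CharZero K] [Field Ω] [Algebra K Ω] [Algebra F K] [Algebra F Ω]
  [IsScalarTower F K Ω] [IsAlgClosure K Ω] {L : Ld K Ω} {X : Bd f K Ω d m}
  {M : IntermediateField K Ω} {b b' : X.B} {h h' : Fin (d + 1) → Ω} {n : ℕ} {i : Fin m}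
  {c : Fin (d + 1) → Ω}

/-- Proof: `Ld.ur_dvd`. -/
theorem Ge.mono {n' : ℕ} (hc : Ge L X i n c) (hn : n ∣ n') : Ge L X i n' c := by
  obtain ⟨b, h, h1, h2, h3⟩ := hc
  exact ⟨b, h, h1, fun r => ⟨Ld.ur_dvd _ hn (h2 r).1, (h2 r).2⟩, h3⟩

theorem Ge.iv (hX : X.Ok L) (hc : Ge L X i n c) : Iv L (L.Ur ⊥ n) c := by
  obtain ⟨b, h, -, h2, rfl⟩ := hc
  exact hX.cc_iv h2

/-- A polydisc. Proof: `c = γ b + ϖ h`, `c' = γ b + ϖ (h + (c' - c) / ϖ)`. -/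
theorem Ge.disc (hX : X.Ok L) (hc : Ge L X i n c) {c' : Fin (d + 1) → Ω}
    (h1 : ∀ r, c' r ∈ L.Ur ⊥ n) (h2 : ∀ r, L.nm (c' r - c r) ≤ L.nm X.ϖ) : Ge L X i n c' := by
  obtain ⟨b, h, hi, hh, rfl⟩ := hc
  have hϖ : X.ϖ ≠ 0 := L.ne_zero hX.ϖ0
  have hM : X.ϖ ∈ L.Ur ⊥ n := (bot_le : (⊥ : IntermediateField K Ω) ≤ L.Ur ⊥ n) hX.ϖm
  have hcM : ∀ r, X.cc b h r ∈ L.Ur ⊥ n := fun r => (hX.cc_iv hh r).1
  refine ⟨b, fun r => h r + (c' r - X.cc b h r) / X.ϖ, hi, fun r => ⟨?_, ?_⟩, ?_⟩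
  · exact add_mem (hh r).1 (div_mem (sub_mem (h1 r) (hcM r)) hM)
  · refine (L.add _ _).trans (max_le (hh r).2 ?_)
    rw [L.div]
    exact div_le_one_of_le₀ (h2 r) (L.nonneg _)
  · funext r
    have h3 : X.ϖ * ((c' r - X.cc b h r) / X.ϖ) = c' r - X.cc b h r := mul_div_cancel₀ _ hϖ
    change X.γ b r + X.ϖ * (h r + (c' r - X.cc b h r) / X.ϖ) = c' r
    rw [mul_add, h3]
    change X.γ b r + (X.ϖ * h r + (c' r - (X.γ b r + X.ϖ * h r))) = c' r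
    ring

theorem Ge.dne (hX : X.Ok L) (hc : Ge L X i n c) :
    MvPolynomial.eval c ((X.ψ i).om Ω).D ≠ 0 := by
  obtain ⟨b, h, rfl, hh, rfl⟩ := hc
  rw [om_D]
  exact hX.dcc_ne b fun r => (hh r).2

/-- Membership. Proof: `Prj.Ok.mem_gc` (`Pk.ok`), `om_G`, as `mem_rt`. -/
theorem mem_rte (hX : X.Ok L) {c : Fin (d + 1) → Ω} {w : Ω} :
    w ∈ rt (X.ψ i) c ↔ pe c w (X.ψ i).G = 0 := by
  classical
  rw [rt]
  exact Multiset.mem_toFinset.trans ((hX.pk i).ok.mem_gc.trans (by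
    change pe c w ((X.ψ i).om Ω).G = 0 ↔ _
    rw [om_G]))

/-- The points over a good point. Proof: `rt_all`. -/
theorem Ge.w (hX : X.Ok L) (hc : Ge L X i n c) {w : Ω} (hw : w ∈ rt (X.ψ i) c) :
    w ∈ L.Ur ⊥ n ∧ L.nm w ≤ 1 ∧ ∃ (b : X.B) (h : Fin (d + 1) → Ω), X.i b = i ∧
      Iv L (L.Ur ⊥ n) h ∧ X.cc b h = c ∧ X.rt L b h = w ∧
        X.xx L b h = ((X.ψ i).om Ω).pt c w ∧
          ∀ x : Fin (d + 1) → Ω, X.tt L b h x = ((X.ψ i).om Ω).lt c w fun r => X.ϖ * x r := by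
  obtain ⟨b, h, rfl, hh, rfl⟩ := hc
  have hh1 : ∀ r, L.nm (h r) ≤ 1 := fun r => (hh r).2
  obtain ⟨b', hi, hγ, rfl⟩ := hX.rt_all b hh1 ((mem_rte hX).1 hw)
  obtain ⟨k1, k2⟩ := hX.rt_mem b' hh
  have hcc : X.cc b' h = X.cc b h := by
    funext r
    change X.γ b' r + X.ϖ * h r = X.γ b r + X.ϖ * h r
    rw [hγ]
  refine ⟨k1, k2, b', h, hi, hh, hcc, rfl, ?_, fun x => ?_⟩
  · rw [Bd.xx, hcc, hi]
  · rw [Bd.tt, hcc, hi]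

theorem Ge.xe (hX : X.Ok L) (hc : Ge L X i n c) {w : Ω} (hw : w ∈ rt (X.ψ i) c) :
    Xe L X n (((X.ψ i).om Ω).pt c w) := by
  obtain ⟨-, -, b, h, -, hh, -, -, hxx, -⟩ := hc.w hX hw
  exact ⟨b, h, hh, hxx⟩

private theorem lcc_dr {P : Polynomial (MvPolynomial (Fin (d + 1)) K)}
    (hP : ∀ k e, L.nm (algebraMap K Ω ((P.coeff k).coeff e)) ≤ 1) {w : Ω}
    (hc : ∀ r, L.nm (c r) ≤ 1) (hw : L.nm w ≤ 1) (r : Fin (d + 1)) :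
    L.nm (pe c w (dr r P)) ≤ 1 := by
  rw [dr, Polynomial.sum_def, map_sum]
  refine L.sum_le _ _ zero_le_one fun j _ => ?_
  rw [map_mul, map_pow, pe_C, pe_X, L.mul, L.pow]
  exact mul_le_one₀ (GM.ae_le (F := K) (K := K) (GM.pd_int (F := K) (K := K) (hP j) r) hc)
    (pow_nonneg (L.nonneg _) _) (pow_le_one₀ (L.nonneg _) hw)

private theorem lcc_d {P : Polynomial (MvPolynomial (Fin (d + 1)) K)}
    (hP : ∀ k e, L.nm (algebraMap K Ω ((P.coeff k).coeff e)) ≤ 1) {w : Ω}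
    (hc : ∀ r, L.nm (c r) ≤ 1) (hw : L.nm w ≤ 1) :
    L.nm (pe c w (Polynomial.derivative P)) ≤ 1 := by
  refine pe_le (fun k e => ?_) hc hw
  rw [Polynomial.coeff_derivative]
  have h1 : ((k : MvPolynomial (Fin (d + 1)) K) + 1) = MvPolynomial.C (((k + 1 : ℕ) : K)) := by
    rw [map_natCast, Nat.cast_add, Nat.cast_one]
  rw [h1, mul_comm, MvPolynomial.coeff_C_mul, map_mul, map_natCast, L.mul]
  exact mul_le_one₀ (L.nat_le _) (L.nonneg _) (hP _ _)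

private theorem lcc_m {a b : Ω} (ha : L.nm a ≤ 1) (hb : L.nm b ≤ 1) : L.nm (a * b) ≤ 1 := by
  rw [L.mul]
  exact mul_le_one₀ ha (L.nonneg _) hb

private theorem lcc_s {a b : Ω} (ha : L.nm a ≤ 1) (hb : L.nm b ≤ 1) : L.nm (a - b) ≤ 1 :=
  (L.sub _ _).trans (max_le ha hb)

private theorem lcc_tp {ψ : Prj K N d} (hψ : Pk f L ψ) {w : Ω}
    (hc : ∀ r, L.nm (c r) ≤ 1) (hw : L.nm w ≤ 1) (r : Fin (d + 1)) (j : Fin N) :
    L.nm (pe c w (ψ.tp r j)) ≤ 1 := by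
  rw [Prj.tp, map_sub, map_mul, map_sub, map_mul, map_mul, map_mul, map_mul, pe_C, pe_C]
  have hD : L.nm (MvPolynomial.aeval c ψ.D) ≤ 1 := GM.ae_le (F := K) (K := K) hψ.iD hc
  have hD' : L.nm (MvPolynomial.aeval c (MvPolynomial.pderiv r ψ.D)) ≤ 1 :=
    GM.ae_le (F := K) (K := K) (GM.pd_int (F := K) (K := K) hψ.iD r) hc
  exact lcc_s (lcc_m hD (lcc_s (lcc_m (lcc_dr (hψ.iA j) hc hw r) (lcc_d hψ.iG hc hw))
    (lcc_m (lcc_d (hψ.iA j) hc hw) (lcc_dr hψ.iG hc hw r))))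
    (lcc_m (lcc_m (pe_le (hψ.iA j) hc hw) hD') (lcc_d hψ.iG hc hw))

/-- Proof: `Ge.w`, `tt_tn` for `ϖ⁻¹ ξ`, `Tn'.smul`. -/
theorem Ge.tn (hX : X.Ok L) (hc : Ge L X i n c) {w : Ω} (hw : w ∈ rt (X.ψ i) c)
    {ξ : Fin (d + 1) → Ω} (hξ : ∀ r, ξ r ∈ L.Ur ⊥ n) (j : ℕ) :
    Tn' f L n (((X.ψ i).om Ω).pt c w) (w ^ j • ((X.ψ i).om Ω).lt c w ξ) := by
  obtain ⟨h1, -, b, h, -, hh, -, -, hxx, htt⟩ := hc.w hX hw
  have hϖ : X.ϖ ≠ 0 := L.ne_zero hX.ϖ0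
  have hM : X.ϖ ∈ L.Ur ⊥ n := (bot_le : (⊥ : IntermediateField K Ω) ≤ L.Ur ⊥ n) hX.ϖm
  have h3 := hX.tt_tn b hh (x := fun r => X.ϖ⁻¹ * ξ r) fun r => mul_mem (inv_mem hM) (hξ r)
  have e : (fun r => X.ϖ * (X.ϖ⁻¹ * ξ r)) = ξ := by
    funext r
    exact mul_inv_cancel_left₀ hϖ (ξ r)
  rw [hxx, htt, e] at h3
  exact h3.smul (pow_mem h1 j)

/-- The values of the tangent vectors are bounded. Proof: the formula for `lt` (`Prj.lt`): `L.nm (D (c))` and `L.nm (G_Y (c, w))` are at least `ε` (`dcc`, `Pk.gy`), the other values are integral (as `Pj.lt_le`, `Pj.iT` for `Pk`; see `Pk.second` in Ep/Gd). -/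
theorem Ge.lt_bd (hX : X.Ok L) : ∃ D : ℝ, 0 ≤ D ∧ ∀ (n : ℕ) (i : Fin m)
    (c : Fin (d + 1) → Ω) (w : Ω), Ge L X i n c → w ∈ rt (X.ψ i) c →
      ∀ ξ : Fin (d + 1) → Ω, (∀ r, L.nm (ξ r) ≤ 1) →
        ∀ j, L.nm (((X.ψ i).om Ω).lt c w ξ j) ≤ D := by
  have hε := hX.ε0
  refine ⟨(X.ε ^ 2 * X.ε)⁻¹, inv_nonneg.2 (mul_nonneg (sq_nonneg _) hε.le), ?_⟩
  intro n i c w hc hw ξ hξ j
  have hw1 : L.nm w ≤ 1 := (hc.w hX hw).2.1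
  have hc1 : ∀ r, L.nm (c r) ≤ 1 := fun r => (hc.iv hX r).2
  have hG : pe c w (X.ψ i).G = 0 := (mem_rte hX).1 hw
  have hD : X.ε ≤ L.nm (MvPolynomial.aeval c (X.ψ i).D) := by
    obtain ⟨b, h, rfl, hh, rfl⟩ := hc
    exact hX.dcc b fun r => (hh r).2
  have hgy := hD.trans ((hX.pk i).gy hc1 hG)
  have hn : L.nm (∑ r, ξ r * pe c w ((X.ψ i).tp r j)) ≤ 1 :=
    L.sum_le _ _ zero_le_one fun r _ => lcc_m (hξ r) (lcc_tp (hX.pk i) hc1 hw1 r j)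
  have hd : X.ε ^ 2 * X.ε ≤ L.nm (MvPolynomial.aeval c (X.ψ i).D ^ 2 *
      pe c w (Polynomial.derivative (X.ψ i).G)) := by
    rw [L.mul, L.pow]
    exact mul_le_mul (pow_le_pow_left₀ hε.le hD 2) hgy hε.le (pow_nonneg (L.nonneg _) 2)
  have h0 : 0 < X.ε ^ 2 * X.ε := mul_pos (pow_pos hε 2) hε
  rw [lt_form, L.div, div_eq_mul_inv]
  refine (mul_le_of_le_one_left (inv_nonneg.2 (L.nonneg _)) hn).trans ?_
  exact inv_anti₀ h0 hd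

/-- Homogeneity: `μ` near `1`. Proof: `Ge.disc`; `Prj.Ok.gc_smul` / `Prj.Ok.pt_smul` for `(X.ψ i).om Ω` (as `rt_smul` in Lc/R). -/
theorem Ge.smul (hX : X.Ok L) (hc : Ge L X i n c) {s : Ω} (hs : s ∈ L.Ur ⊥ n)
    (hs1 : L.nm (s - 1) ≤ L.nm X.ϖ) : s ≠ 0 ∧ Ge L X i n (s • c) ∧
      rt (X.ψ i) (s • c) = open Classical in (rt (X.ψ i) c).image fun w => s * w := by
  classical
  have hϖ1 : L.nm X.ϖ < 1 := by
    refine hX.sm.trans_le (pow_le_one₀ hX.ε0.le ?_)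
    exact hX.εp.trans L.lt.le
  have hs0 : s ≠ 0 := by
    rintro rfl
    rw [zero_sub, L.neg, L.one] at hs1
    exact absurd hs1 (not_le.2 hϖ1)
  refine ⟨hs0, hc.disc hX (fun r => ?_) fun r => ?_, ?_⟩
  · exact mul_mem hs (hc.iv hX r).1
  · have e : (s • c) r - c r = (s - 1) * c r := by
      rw [Pi.smul_apply, smul_eq_mul, sub_mul, one_mul]
    rw [e, L.mul]
    exact (mul_le_of_le_one_right (L.nonneg _) (hc.iv hX r).2).trans hs1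
  · have h1 := (hX.pk i).ok.gc_smul (c := c) (hc.dne hX) hs0
    unfold rt
    rw [h1, Multiset.toFinset_map]

/-- The point `x` is over a good point. Proof: `Prj.Ok.pt_eq`, `Prj.Ok.lt_eq`, `om_uv`, `om_yv`; `Ge.w` for `y (x)`. -/
theorem Ge.uv (hX : X.Ok L) {x : Fin N → Ω} (hx : Zp (fo f Ω) x)
    (hc : Ge L X i n ((X.ψ i).uv x)) :
    (X.ψ i).yv x ∈ rt (X.ψ i) ((X.ψ i).uv x) ∧
      ((X.ψ i).om Ω).pt ((X.ψ i).uv x) ((X.ψ i).yv x) = x ∧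
        ∀ t, Tg (fo f Ω) x t →
          ((X.ψ i).om Ω).lt ((X.ψ i).uv x) ((X.ψ i).yv x) ((X.ψ i).uv t) = t := by
  have hD : MvPolynomial.eval (((X.ψ i).om Ω).uv x) ((X.ψ i).om Ω).D ≠ 0 := by
    rw [om_uv]
    exact hc.dne hX
  have h1 : pe (((X.ψ i).om Ω).uv x) (((X.ψ i).om Ω).yv x) ((X.ψ i).om Ω).G = 0 ∧
      ((X.ψ i).om Ω).pt (((X.ψ i).om Ω).uv x) (((X.ψ i).om Ω).yv x) = x :=
    (hX.pk i).ok.pt_eq hx hD
  rw [om_uv, om_yv, om_G] at h1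
  refine ⟨(mem_rte hX).2 h1.1, h1.2, fun t ht => ?_⟩
  have h2 : ((X.ψ i).om Ω).lt (((X.ψ i).om Ω).uv x) (((X.ψ i).om Ω).yv x)
      (((X.ψ i).om Ω).uv t) = t := (hX.pk i).ok.lt_eq ht hD
  rwa [om_uv, om_yv, om_uv] at h2

end GX
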