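import Pool.Agent.Lib.MP_f80667_ag.Ep.Lb
import Pool.Agent.Lib.MP_f80667_ag.Ep.Lcc

/-!
The derivative as a function of the coordinates of the point and of the tangent vector.

* `Bd.ti L X T n x t`: the derivative at the point with the coordinates `x`, in the direction of the tangent vector `t`.
* `Tpe`: the properties.
* `Crl X L π e`: the relation of the curves (2.5 of the text).
-/

open ZC BE PE CV IntermediateField

namespace GX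

variable {F : Type} [Field F] {N d m : ℕ} {ι : Type} {f : ι → MvPolynomial (Fin N) F}
  {K Ω : Type} [Field K] [CharZero K] [Field Ω] [Algebra K Ω] [Algebra F K] [Algebra F Ω]
  [IsScalarTower F K Ω] [IsAlgClosure K Ω] {L : Ld K Ω} {X : Bd f K Ω d m} {π : Ω} {r n : ℕ}
  {B : Type} [AddCommGroup B] [Module ℚ B] {na : B → ℝ}
  {lam : ((Xf f).pt Ω →₀ ℤ) →+ B} {s₀ s₁ : ℕ} {C C' : ℝ}
  {T : ℕ → X.B → (Fin (d + 1) → Ω) → (Fin (d + 1) → Ω) → B}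

omit [CharZero K] [IsAlgClosure K Ω] in
private theorem ld_small (a : Ω) : ∃ k₀ : ℕ, ∀ k, k₀ ≤ k → L.nm ((L.p : Ω) ^ k * a) < 1 := by
  have h0 : 0 < (L.nm a + 1)⁻¹ := inv_pos.2 (by have := L.nonneg a; linarith)
  obtain ⟨k₀, hk₀⟩ := exists_pow_lt_of_lt_one h0 L.lt
  refine ⟨k₀, fun k hk => ?_⟩
  rw [L.mul, L.pow]
  have h1 : L.nm (L.p : Ω) ^ k < (L.nm a + 1)⁻¹ :=
    (pow_le_pow_of_le_one (L.nonneg _) L.lt.le hk).trans_lt hk₀
  have h2 : 0 < L.nm a + 1 := inv_pos.1 h0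
  calc L.nm (L.p : Ω) ^ k * L.nm a ≤ L.nm (L.p : Ω) ^ k * (L.nm a + 1) :=
        mul_le_mul_of_nonneg_left (by linarith) (pow_nonneg (L.nonneg _) _)
    _ < (L.nm a + 1)⁻¹ * (L.nm a + 1) := mul_lt_mul_of_pos_right h1 h2
    _ = 1 := inv_mul_cancel₀ h2.ne'

omit [CharZero K] [IsAlgClosure K Ω] in
private theorem ld_one {u : Ω} (hu : L.nm u < 1) : L.nm (1 + u) = 1 := by
  refine le_antisymm ((L.add _ _).trans (max_le L.one.le hu.le)) ?_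
  by_contra h
  rw [not_le] at h
  have h1 := L.sub (1 + u) u
  rw [add_sub_cancel_right, L.one] at h1
  exact absurd (h1.trans_lt (max_lt h hu)) (lt_irrefl _)

/-- **Change of chart.** Proof: the points `z k = (s * (1 + p ^ k * a)) • xx b (h + p ^ k x)` (`tan_pow`) are near `xx b' h' + p ^ k tt b' h' x'` up to `D q ^ (2 k)`; by `Bd.Ok.near` `z k = xx b' h''` with `h''` near `h' + p ^ k x'`.
So `P b' h'' = P b (h + p ^ k x)`, `P b' h' = P b h` (`xx_eq`), and `dvb b' h' h'' = dvb b h (h + p ^ k x)` (the definition); `Dte.pts` for `b`, `h`, `x` and `Dte.lim` for `b'`, `h'`, `x'`. -/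
theorem dte_chart (hX : X.Ok L) (hP : Bs L X.P) (hf : Hm f) (hπ : Uf L π)
    (hB : Bn L.p (L.nm (L.p : Ω)) na) (hl : Lame X.P L π na lam s₁ C')
    (hT : Dte X.P L π na r lam T s₀ C) (hn : N0 r n) {b b' : X.B}
    {h h' x x' : Fin (d + 1) → Ω} (hh : Iv L (L.Ur ⊥ n) h) (hh' : Iv L (L.Ur ⊥ n) h')
    (hx : ∀ i, x i ∈ L.Ur ⊥ n) (hx' : ∀ i, x' i ∈ L.Ur ⊥ n) {s a : Ω} (hs : s ∈ L.Ur ⊥ n)
    (ha : a ∈ L.Ur ⊥ n) (h1 : s • X.xx L b h = X.xx L b' h')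
    (h2 : X.tt L b' h' x' = s • X.tt L b h x + a • X.xx L b' h') :
    T n b' h' x' = T n b h x := by
  have hhl : ∀ r, L.nm (h r) ≤ 1 := fun r => (hh r).2
  have hhl' : ∀ r, L.nm (h' r) ≤ 1 := fun r => (hh' r).2
  have hq0 := hB.q0
  have hq1 := L.lt
  have hs0 : s ≠ 0 := by
    rintro rfl
    rw [zero_smul] at h1
    exact (hX.xx_zp b' hhl').1 h1.symm
  obtain ⟨D₁, k₁, hD₁, H₁⟩ := hX.tan_pow b hh hx
  obtain ⟨D₂, k₂, hD₂, H₂⟩ := hT.pts hπ hn (b := b) hh hx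
  obtain ⟨A, hA⟩ : ∃ A : ℝ, ∀ j, L.nm (X.tt L b h x j) ≤ A := by
    obtain ⟨A, hA⟩ := (Set.finite_range fun j => L.nm (X.tt L b h x j)).bddAbove
    exact ⟨A, fun j => hA ⟨j, rfl⟩⟩
  obtain ⟨D₃, hD₃⟩ : ∃ D₃, D₃ = max (L.nm a * L.nm s * A) (L.nm s * D₁) := ⟨_, rfl⟩
  obtain ⟨D₄, k₄, hD₄, H₄⟩ := hX.near b' hh' hx' D₃
  obtain ⟨k₅, hk₅⟩ := ld_small (L := L) a
  refine hT.lim hP hπ hB hl hn hh' hx' (D := max D₄ D₂) (k₀ := k₁ + k₂ + k₄ + k₅) ?_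
  intro k hk
  obtain ⟨i1, e1⟩ := H₁ k (by omega)
  obtain ⟨-, e2⟩ := H₂ k (by omega)
  obtain ⟨c, hc⟩ : ∃ c, c = s * (1 + (L.p : Ω) ^ k * a) := ⟨_, rfl⟩
  have ha1 : L.nm ((L.p : Ω) ^ k * a) < 1 := hk₅ k (by omega)
  have hu : L.nm (1 + (L.p : Ω) ^ k * a) = 1 := ld_one ha1
  have hc0 : c ≠ 0 := by
    rw [hc]
    exact mul_ne_zero hs0 (L.ne_zero (by rw [hu]; exact one_pos))
  have hcm : c ∈ L.Ur ⊥ n := by
    rw [hc]
    exact mul_mem hs (add_mem (one_mem _)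
      (mul_mem (pow_mem (IntermediateField.natCast_mem _ L.p) k) ha))
  obtain ⟨y, hy⟩ : ∃ y : Fin (d + 1) → Ω, y = fun r => h r + (L.p : Ω) ^ k * x r := ⟨_, rfl⟩
  rw [← hy] at i1 e1 e2
  have hyl : ∀ r, L.nm (y r) ≤ 1 := fun r => (i1 r).2
  have hz := hX.xx_zp b hyl
  obtain ⟨h'', j1, j2, j3⟩ := H₄ k (by omega) (c • X.xx L b y)
    (zp_smul (om_hom hf) (om_zp.2 ⟨hz.1, hz.2.1⟩) hc0)
    (fun j => mul_mem hcm (hX.xx_mem b i1 j)) (by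
      intro j
      have g1 := congrFun h1 j
      have g2 := congrFun h2 j
      rw [Pi.smul_apply, smul_eq_mul] at g1
      rw [Pi.add_apply, Pi.smul_apply, Pi.smul_apply, smul_eq_mul, smul_eq_mul] at g2
      have g3 : (c • X.xx L b y) j - (X.xx L b' h' j + (L.p : Ω) ^ k * X.tt L b' h' x' j) =
          (L.p : Ω) ^ k * (L.p : Ω) ^ k * (a * s * X.tt L b h x j) +
            c * (X.xx L b y j - (X.xx L b h j + (L.p : Ω) ^ k * X.tt L b h x j)) := by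
        rw [Pi.smul_apply, smul_eq_mul, g2, ← g1, hc]
        ring
      rw [g3]
      have hq2 : 0 ≤ (L.nm (L.p : Ω) ^ k) ^ 2 := sq_nonneg _
      refine (L.add _ _).trans (max_le ?_ ?_)
      · have g4 : L.nm a * L.nm s * L.nm (X.tt L b h x j) ≤ D₃ := by
          rw [hD₃]
          exact (mul_le_mul_of_nonneg_left (hA j)
            (mul_nonneg (L.nonneg _) (L.nonneg _))).trans (le_max_left _ _)
        rw [L.mul, L.mul, L.mul, L.mul, L.pow, ← pow_two, mul_comm]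
        exact mul_le_mul_of_nonneg_right g4 hq2
      · rw [L.mul, hc, L.mul, hu, mul_one]
        refine (mul_le_mul_of_nonneg_left (e1 j) (L.nonneg s)).trans ?_
        rw [← mul_assoc]
        refine mul_le_mul_of_nonneg_right ?_ hq2
        rw [hD₃]
        exact le_max_right _ _)
  have hq2 : 0 ≤ (L.nm (L.p : Ω) ^ k) ^ 2 := sq_nonneg _
  refine ⟨h'', j1, fun i => (j3 i).trans (mul_le_mul_of_nonneg_right (le_max_left _ _) hq2), ?_⟩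
  have p1 : X.P b h = X.P b' h' := hX.xx_eq hhl hhl' h1
  have p2 : X.P b y = X.P b' h'' := hX.xx_eq hyl (fun r => (j1 r).2) j2.symm
  have p3 : dvb X.P (L.Ur ⊥ n) b' h' h'' = dvb X.P (L.Ur ⊥ n) b h y := by
    rw [dvb, dvb, p1, p2]
  rw [p3]
  exact e2.trans (mul_le_mul_of_nonneg_right (le_max_right _ _) hq2)

open Classical in
/-- The derivative as a function of the coordinates of the point and of the tangent vector. -/
noncomputable def Bd.ti (L : Ld K Ω) (X : Bd f K Ω d m)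
    (T : ℕ → X.B → (Fin (d + 1) → Ω) → (Fin (d + 1) → Ω) → B) (n : ℕ)
    (x t : Fin N → Ω) : B :=
  if hx : ∃ (b : X.B) (h : Fin (d + 1) → Ω), Iv L (L.Ur ⊥ n) h ∧ X.xx L b h = x then
    T n hx.choose hx.choose_spec.choose
      fun r => X.ϖ⁻¹ * (X.ψ (X.i hx.choose)).uv t r
  else 0

/-- Proof: `tt_eq` and `dte_chart` for `s = 1`, `a = 0`. -/
theorem ti_eq (hX : X.Ok L) (hP : Bs L X.P) (hf : Hm f) (hπ : Uf L π)
    (hB : Bn L.p (L.nm (L.p : Ω)) na) (hl : Lame X.P L π na lam s₁ C')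
    (hT : Dte X.P L π na r lam T s₀ C) (hn : N0 r n) {b : X.B} {h x : Fin (d + 1) → Ω}
    (hh : Iv L (L.Ur ⊥ n) h) (hx : ∀ i, x i ∈ L.Ur ⊥ n) :
    X.ti L T n (X.xx L b h) (X.tt L b h x) = T n b h x := by
  have hx0 : ∃ (b' : X.B) (h' : Fin (d + 1) → Ω), Iv L (L.Ur ⊥ n) h' ∧
      X.xx L b' h' = X.xx L b h := ⟨b, h, hh, rfl⟩
  obtain ⟨hh', he⟩ := hx0.choose_spec.choose_spec
  have ht := hX.tt_tn b hh hx
  rw [← he] at ht
  obtain ⟨t1, t2, -⟩ := hX.tt_eq hx0.choose hh' ht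
  rw [Bd.ti, dif_pos hx0]
  refine dte_chart hX hP hf hπ hB hl hT hn hh hh' hx t2 (one_mem _) (zero_mem _) ?_ ?_
  · rw [one_smul]
    exact he.symm
  · rw [one_smul, zero_smul, add_zero]
    exact t1

open Classical in
/-- The relation of the curves. -/
def Crl (L : Ld K Ω) (X : Bd f K Ω d m) (π : Ω) (e : ℕ) : Prop :=
  ∀ (M : IntermediateField K Ω), Um L M → ∀ (i : Fin m) (c v : Fin (d + 1) → Ω), Iv L M c →
    Iv L M v → ∀ (S : Finset Ω), (∀ z ∈ S, z ∈ M ∧ L.nm z ≤ 1) → ∀ (η : Ω → Fin (d + 1) → Ω)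
      (β : Ω → Ω → X.B), (∀ z ∈ S, Iv L M (η z) ∧ ∀ w ∈ rt (X.ψ i) (c + z • v),
        X.i (β z w) = i ∧ X.cc (β z w) (η z) = c + z • v ∧ X.rt L (β z w) (η z) = w) →
          ∀ j < S.card, ∀ a ∈ M, L.nm a ≤ 1 → ∃ C : ℕ, ∀ k, C ≤ k →
            ∑ z ∈ S, ∑ w ∈ rt (X.ψ i) (c + z • v), dvb X.P M (β z w) (η z)
              (η z + (((L.p : Ω) ^ k * (a * w ^ j * (∏ z' ∈ S.erase z, (z - z'))⁻¹)) * X.ϖ⁻¹) • v) ∈
                Vb L X.P π (2 * k * e - C)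

open Classical in
/-- The properties of the derivative. -/
structure Tpe (L : Ld K Ω) (X : Bd f K Ω d m) (r : ℕ) (na : B → ℝ)
    (T : ℕ → (Fin N → Ω) → (Fin N → Ω) → B) (C : ℝ) : Prop where
  add : ∀ n x t t', N0 r n → Xe L X n x → Tn' f L n x t → Tn' f L n x t' →
    T n x (t + t') = T n x t + T n x t'
  act : ∀ n x t (γ : Ω ≃ₐ[K] Ω), N0 r n → Xe L X n x → Tn' f L n x t →
    T n (fun i => γ (x i)) (fun i => γ (t i)) = T n x t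
  up : ∀ n x t k, N0 r n → Xe L X n x → Tn' f L n x t → k ≠ 0 → T (n * k) x t = k • T n x t
  smul : ∀ n x t c, N0 r n → Xe L X n x → Xe L X n (c • x) → Tn' f L n x t → c ∈ L.Ur ⊥ n →
    T n (c • x) (c • t) = T n x t
  rad : ∀ n x c, N0 r n → Xe L X n x → c ∈ L.Ur ⊥ n → T n x (c • x) = 0
  bd : ∀ n x t ρ, N0 r n → Xe L X n x → Tn' f L n x t → (∀ i, L.nm (t i) ≤ ρ) → 0 ≤ ρ →
    na (T n x t) ≤ C * ρ
  cr : ∀ n i (c v : Fin (d + 1) → Ω) (S : Finset Ω) (j : ℕ) (a : Ω), N0 r n →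
    Iv L (L.Ur ⊥ n) c → Iv L (L.Ur ⊥ n) v →
      (∀ z ∈ S, z ∈ L.Ur ⊥ n ∧ L.nm z ≤ 1 ∧ Ge L X i n (c + z • v)) → j < S.card →
        a ∈ L.Ur ⊥ n → ∑ z ∈ S, ∑ w ∈ rt (X.ψ i) (c + z • v),
          T n (((X.ψ i).om Ω).pt (c + z • v) w)
            ((a * w ^ j * (∏ z' ∈ S.erase z, (z - z'))⁻¹) •
              ((X.ψ i).om Ω).lt (c + z • v) w v) = 0
  nonneg : 0 ≤ C

/-- All properties except `cr`. Proof: `Xe`: `x = xx b h`; `tt_eq`: `t = tt b h ξ`; `ti_eq`, `Dte.add`, `Dte.act` with `xx_act`, `tt_act`, `Dte.up`; `smul`, `rad`: `dte_chart` (`rad`: the vectors `x = 0` and `x'` with `tt b h x' = c • xx b h` by `tt_eq`, `Xp.rad`-like `tg_rad`;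
`T n b h 0 = 0`); `bd`: `Dte.bd`, `tt_eq`. -/
theorem ti_props (hX : X.Ok L) (hP : Bs L X.P) (hf : Hm f) (hr : L.Rf ⊥ r) (hπ : Uf L π)
    (hB : Bn L.p (L.nm (L.p : Ω)) na) (hl : Lame X.P L π na lam s₁ C')
    (hT : Dte X.P L π na r lam T s₀ C) : ∃ D : ℝ, 0 ≤ D ∧
      (∀ n x t t', N0 r n → Xe L X n x → Tn' f L n x t → Tn' f L n x t' →
        X.ti L T n x (t + t') = X.ti L T n x t + X.ti L T n x t') ∧
      (∀ n x t (γ : Ω ≃ₐ[K] Ω), N0 r n → Xe L X n x → Tn' f L n x t →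
        X.ti L T n (fun i => γ (x i)) (fun i => γ (t i)) = X.ti L T n x t) ∧
      (∀ n x t k, N0 r n → Xe L X n x → Tn' f L n x t → k ≠ 0 →
        X.ti L T (n * k) x t = k • X.ti L T n x t) ∧
      (∀ n x t c, N0 r n → Xe L X n x → Xe L X n (c • x) → Tn' f L n x t → c ∈ L.Ur ⊥ n →
        X.ti L T n (c • x) (c • t) = X.ti L T n x t) ∧
      (∀ n x c, N0 r n → Xe L X n x → c ∈ L.Ur ⊥ n → X.ti L T n x (c • x) = 0) ∧
      ∀ n x t ρ, N0 r n → Xe L X n x → Tn' f L n x t → (∀ i, L.nm (t i) ≤ ρ) → 0 ≤ ρ →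
        na (X.ti L T n x t) ≤ D * ρ := by
  obtain ⟨D, hD, hbd⟩ := Dte.bd hP hπ hB hl hT
  have hq : ∀ {n : ℕ} {b : X.B} {h : Fin (d + 1) → Ω} {t : Fin N → Ω}, Iv L (L.Ur ⊥ n) h →
      Tn' f L n (X.xx L b h) t → ∃ ξ : Fin (d + 1) → Ω, (∀ r, ξ r ∈ L.Ur ⊥ n) ∧
        X.tt L b h ξ = t ∧ ∀ ρ : ℝ, (∀ i, L.nm (t i) ≤ ρ) → 0 ≤ ρ →
          ∀ r, L.nm (ξ r) ≤ (L.nm X.ϖ)⁻¹ * ρ := by
    intro n b h t hh ht
    obtain ⟨h1, h2, h3⟩ := hX.tt_eq b hh ht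
    exact ⟨_, h2, h1, h3⟩
  have hz : ∀ {n : ℕ} {b : X.B} {h : Fin (d + 1) → Ω}, N0 r n → Iv L (L.Ur ⊥ n) h →
      T n b h 0 = 0 := by
    intro n b h hn hh
    have h1 := hT.add n b h 0 0 hn hh (fun _ => zero_mem _) fun _ => zero_mem _
    rw [add_zero] at h1
    exact left_eq_add.1 h1
  refine ⟨D * (L.nm X.ϖ)⁻¹, mul_nonneg hD (inv_nonneg.2 (L.nonneg _)), ?_, ?_, ?_, ?_, ?_, ?_⟩
  · rintro n _ t t' hn ⟨b, h, hh, rfl⟩ ht ht'
    obtain ⟨ξ, m1, rfl, -⟩ := hq hh ht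
    obtain ⟨ξ', m2, rfl, -⟩ := hq hh ht'
    have m3 : ∀ i, (ξ + ξ') i ∈ L.Ur ⊥ n := fun i => add_mem (m1 i) (m2 i)
    rw [← Bd.tt_add, ti_eq hX hP hf hπ hB hl hT hn hh m1, ti_eq hX hP hf hπ hB hl hT hn hh m2,
      ti_eq hX hP hf hπ hB hl hT hn hh m3]
    exact hT.add n b h ξ ξ' hn hh m1 m2
  · rintro n _ t γ hn ⟨b, h, hh, rfl⟩ ht
    obtain ⟨ξ, m1, rfl, -⟩ := hq hh ht
    have hγ : Iv L (L.Ur ⊥ n) fun r => γ (h r) := fun i =>
      ⟨act_ur γ (hh i).1, by rw [L.act]; exact (hh i).2⟩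
    have e1 : (fun i => γ (X.xx L b h i)) = X.xx L b fun r => γ (h r) :=
      funext fun j => hX.xx_act b (fun i => (hh i).2) γ j
    have e2 : (fun i => γ (X.tt L b h ξ i)) = X.tt L b (fun r => γ (h r)) fun r => γ (ξ r) :=
      funext fun j => hX.tt_act b (fun i => (hh i).2) γ ξ j
    rw [e1, e2, ti_eq hX hP hf hπ hB hl hT hn hγ fun i => act_ur γ (m1 i),
      ti_eq hX hP hf hπ hB hl hT hn hh m1]
    exact Dte.act hP hπ hB hl hT hn hh m1 γ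
  · rintro n _ t k hn ⟨b, h, hh, rfl⟩ ht hk
    obtain ⟨ξ, m1, rfl, -⟩ := hq hh ht
    have hu : n ∣ n * k := Nat.dvd_mul_right _ _
    rw [ti_eq hX hP hf hπ hB hl hT (hn.mul hk) (fun i => ⟨Ld.ur_dvd ⊥ hu (hh i).1, (hh i).2⟩)
        fun i => Ld.ur_dvd ⊥ hu (m1 i), ti_eq hX hP hf hπ hB hl hT hn hh m1]
    exact Dte.up hr hP hπ hB hl hT hn hh m1 hk
  · rintro n _ t c hn ⟨b, h, hh, rfl⟩ ⟨b', h', hh', hx'⟩ ht hc
    have hc0 : c ≠ 0 := by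
      rintro rfl
      refine (hX.xx_zp b' fun i => (hh' i).2).1 ?_
      rw [hx', zero_smul]
    have ht' : Tn' f L n (X.xx L b' h') (c • t) := by
      rw [hx']
      exact ht.hom hf hc hc0
    obtain ⟨ξ', m2, e2, -⟩ := hq hh' ht'
    obtain ⟨ξ, m1, rfl, -⟩ := hq hh ht
    rw [← hx', ← e2, ti_eq hX hP hf hπ hB hl hT hn hh' m2, ti_eq hX hP hf hπ hB hl hT hn hh m1]
    refine dte_chart hX hP hf hπ hB hl hT hn hh hh' m1 m2 hc (zero_mem _) hx'.symm ?_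
    rw [e2, zero_smul, add_zero]
  · rintro n _ c hn ⟨b, h, hh, rfl⟩ hc
    have ht : Tn' f L n (X.xx L b h) (c • X.xx L b h) := by
      have hx : Xe L X n (X.xx L b h) := ⟨b, h, hh, rfl⟩
      exact ⟨tg_rad (om_hom hf) (hx.zp hX) c, fun i => mul_mem hc (hx.mem hX i)⟩
    obtain ⟨ξ, m1, e1, -⟩ := hq hh ht
    have e0 : X.tt L b h 0 = 0 := by
      have h1 := X.tt_smul (L := L) b h 0 0
      rwa [smul_zero, zero_smul] at h1
    rw [← e1, ti_eq hX hP hf hπ hB hl hT hn hh m1, ← hz hn hh (b := b)]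
    refine dte_chart hX hP hf hπ hB hl hT hn hh hh (fun _ => zero_mem _) m1 (one_mem _) hc
      (one_smul _ _) ?_
    rw [e1, e0, smul_zero, zero_add]
  · rintro n _ t ρ hn ⟨b, h, hh, rfl⟩ ht hρ h0
    obtain ⟨ξ, m1, rfl, m3⟩ := hq hh ht
    rw [ti_eq hX hP hf hπ hB hl hT hn hh m1, mul_assoc]
    exact hbd n b h ξ _ hn hh m1 (m3 ρ hρ h0) (mul_nonneg (inv_nonneg.2 (L.nonneg _)) h0)

/-- Finite sums. -/
private theorem ld_sum {κ : Type} {p : ℕ} {q : ℝ} (hB : Bn p q na) (s : Finset κ)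
    {g : κ → ℕ → B} (h : ∀ i ∈ s, ∃ (D : ℝ) (k₀ : ℕ), 0 ≤ D ∧
      ∀ k, k₀ ≤ k → na (g i k) ≤ D * (q ^ k) ^ 2) :
    ∃ (D : ℝ) (k₀ : ℕ), 0 ≤ D ∧ ∀ k, k₀ ≤ k → na (∑ i ∈ s, g i k) ≤ D * (q ^ k) ^ 2 := by
  classical
  induction s using Finset.induction_on with
  | empty =>
    refine ⟨0, 0, le_rfl, fun k _ => ?_⟩
    rw [Finset.sum_empty, (hB.zero_iff 0).2 rfl, zero_mul]
  | insert i s hi ih =>
    obtain ⟨D, k₀, hD, h1⟩ := ih fun i' hi' => h i' (Finset.mem_insert_of_mem hi')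
    obtain ⟨D', k₁, hD', h2⟩ := h i (Finset.mem_insert_self _ _)
    refine ⟨max D D', max k₀ k₁, le_max_of_le_left hD, fun k hk => ?_⟩
    rw [Finset.sum_insert hi]
    have h3 : 0 ≤ (q ^ k) ^ 2 := sq_nonneg _
    exact (hB.add _ _).trans (max_le
      ((h2 k ((le_max_right _ _).trans hk)).trans
        (mul_le_mul_of_nonneg_right (le_max_right _ _) h3))
      ((h1 k ((le_max_left _ _).trans hk)).trans
        (mul_le_mul_of_nonneg_right (le_max_left _ _) h3)))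

open Classical in
/-- **The relation of the curves is exact.** Proof: multiply `a` by a power of `p` (`Dte.nsmul`, `B` has no torsion) so that `nm a ≤ 1`. For `z ∈ S` choose `b`, `h` with `cc b h = c + z • v` (`Ge`), `η z = h`; for a root `w` the branch `β z w` over the same centre with
`rt = w` (`Ge.w`, `Bd.Ok.rt_all` for this `b`, `h`). `Crl`; `Lame.lev`: `na (lam (sum)) ≤ C' nm π ^ (2 k e - C)`; `Dte.pts` for the vectors `(a w ^ j / m'(z) / ϖ) • v`: `lam (dvb ..) = p ^ k • T n b h x` up to `D q ^ (2 k)`, and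
`T n b h x = ti (pt ..) (tt b h x)` (`ti_eq`), `tt b h x = (a w ^ j / m'(z)) • lt .. v` (`Ge.w`, `Prj.lt_smul`); so `na (p ^ k • sum) ≤ D q ^ (2 k)` for all large `k`, `tx_nsm`, `tx_zero`. -/
theorem ti_cr (hX : X.Ok L) (hP : Bs L X.P) (hf : Hm f) (hπ : Uf L π)
    (hB : Bn L.p (L.nm (L.p : Ω)) na) (hl : Lame X.P L π na lam s₁ C')
    (hT : Dte X.P L π na r lam T s₀ C) {e : ℕ} (he : L.nm (L.p : Ω) = L.nm π ^ e)
    (hcr : Crl L X π e) (hn : N0 r n) {i : Fin m} {c v : Fin (d + 1) → Ω} {S : Finset Ω}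
    {j : ℕ} {a : Ω} (hc : Iv L (L.Ur ⊥ n) c) (hv : Iv L (L.Ur ⊥ n) v)
    (hS : ∀ z ∈ S, z ∈ L.Ur ⊥ n ∧ L.nm z ≤ 1 ∧ Ge L X i n (c + z • v)) (hj : j < S.card)
    (ha : a ∈ L.Ur ⊥ n) :
    ∑ z ∈ S, ∑ w ∈ rt (X.ψ i) (c + z • v),
      X.ti L T n (((X.ψ i).om Ω).pt (c + z • v) w)
        ((a * w ^ j * (∏ z' ∈ S.erase z, (z - z'))⁻¹) •
          ((X.ψ i).om Ω).lt (c + z • v) w v) = 0 := by
  have hM : Um L (L.Ur ⊥ n) := ⟨n, hn.1, le_rfl⟩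
  have hϖ0 : X.ϖ ≠ 0 := L.ne_zero hX.ϖ0
  -- the branches
  have hex : ∀ z : Ω, ∃ h : Fin (d + 1) → Ω, z ∈ S → Iv L (L.Ur ⊥ n) h ∧
      ∀ w ∈ rt (X.ψ i) (c + z • v), ∃ b : X.B, X.i b = i ∧ X.cc b h = c + z • v ∧
        X.rt L b h = w := by
    intro z
    by_cases hz : z ∈ S
    · obtain ⟨-, -, b, h, hb, hh, hcc⟩ := hS z hz
      refine ⟨h, fun _ => ⟨hh, fun w hw => ?_⟩⟩
      have hh1 : ∀ r, L.nm (h r) ≤ 1 := fun r => (hh r).2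
      have h1 : pe (X.cc b h) w (X.ψ (X.i b)).G = 0 := by
        rw [hcc, hb]
        exact (mem_rte hX).1 hw
      obtain ⟨b', hi', hγ', hw'⟩ := hX.rt_all b hh1 h1
      refine ⟨b', hi'.trans hb, ?_, hw'.symm⟩
      rw [← hcc]
      funext r
      rw [Bd.cc, Bd.cc, hγ']
    · exact ⟨0, fun h => absurd h hz⟩
  choose η hη using hex
  obtain ⟨z₀, hz₀⟩ := Finset.card_pos.1 ((Nat.zero_le j).trans_lt hj)
  obtain ⟨-, -, b₀, -⟩ := hS z₀ hz₀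
  have hex2 : ∀ z w : Ω, ∃ b : X.B, z ∈ S → w ∈ rt (X.ψ i) (c + z • v) →
      X.i b = i ∧ X.cc b (η z) = c + z • v ∧ X.rt L b (η z) = w := by
    intro z w
    by_cases h1 : z ∈ S ∧ w ∈ rt (X.ψ i) (c + z • v)
    · obtain ⟨b, hb⟩ := (hη z h1.1).2 w h1.2
      exact ⟨b, fun _ _ => hb⟩
    · exact ⟨b₀, fun h2 h3 => absurd ⟨h2, h3⟩ h1⟩
  choose β hβ using hex2
  obtain ⟨τ, hτ⟩ : ∃ τ : Ω → Ω → Ω, ∀ z w,
      τ z w = a * w ^ j * (∏ z' ∈ S.erase z, (z - z'))⁻¹ := ⟨_, fun _ _ => rfl⟩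
  obtain ⟨x, hx⟩ : ∃ x : Ω → Ω → Fin (d + 1) → Ω, ∀ z w r,
      x z w r = τ z w * X.ϖ⁻¹ * v r := ⟨_, fun _ _ _ => rfl⟩
  have hxm : ∀ z ∈ S, ∀ w ∈ rt (X.ψ i) (c + z • v), ∀ r, x z w r ∈ L.Ur ⊥ n := by
    intro z hz w hw r
    have hw1 : w ∈ L.Ur ⊥ n := ((hS z hz).2.2.w hX hw).1
    rw [hx, hτ]
    refine mul_mem (mul_mem (mul_mem (mul_mem ha (pow_mem hw1 _)) (inv_mem (prod_mem
      fun z' hz' => sub_mem (hS z hz).1 (hS z' (Finset.mem_of_mem_erase hz')).1)))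
      (inv_mem ((bot_le : ⊥ ≤ L.Ur ⊥ n) hX.ϖm))) (hv r).1
  -- the values of `T`
  have hTi : ∀ z ∈ S, ∀ w ∈ rt (X.ψ i) (c + z • v),
      X.ti L T n (((X.ψ i).om Ω).pt (c + z • v) w)
        ((a * w ^ j * (∏ z' ∈ S.erase z, (z - z'))⁻¹) •
          ((X.ψ i).om Ω).lt (c + z • v) w v) = T n (β z w) (η z) (x z w) := by
    intro z hz w hw
    obtain ⟨h1, h2, h3⟩ := hβ z w hz hw
    have e1 : X.xx L (β z w) (η z) = ((X.ψ i).om Ω).pt (c + z • v) w := by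
      rw [Bd.xx, h1, h2, h3]
    have e2 : X.tt L (β z w) (η z) (x z w) =
        τ z w • ((X.ψ i).om Ω).lt (c + z • v) w v := by
      rw [Bd.tt, h1, h2, h3, ← Prj.lt_smul]
      congr 1
      funext r
      rw [hx, Pi.smul_apply, smul_eq_mul]
      field_simp
    rw [← ti_eq hX hP hf hπ hB hl hT hn (hη z hz).1 (hxm z hz w hw), e1, e2, hτ]
  rw [Finset.sum_congr rfl fun z hz => Finset.sum_congr rfl fun w hw => hTi z hz w hw]
  -- the relation of the curves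
  obtain ⟨t, ht⟩ : ∃ t : ℕ, L.nm ((L.p : Ω) ^ t * a) ≤ 1 := by
    have h1 : 0 < L.nm a + 1 := by linarith [L.nonneg a]
    obtain ⟨t, ht⟩ := exists_pow_lt_of_lt_one (inv_pos.2 h1) L.lt
    refine ⟨t, ?_⟩
    rw [L.mul, L.pow]
    have h2 := mul_lt_mul_of_pos_right ht h1
    rw [inv_mul_cancel₀ h1.ne'] at h2
    refine le_trans (mul_le_mul_of_nonneg_left (by linarith) (pow_nonneg (L.nonneg _) _)) h2.le
  obtain ⟨C₁, hC₁⟩ := hcr (L.Ur ⊥ n) hM i c v hc hv S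
    (fun z hz => ⟨(hS z hz).1, (hS z hz).2.1⟩) η β
    (fun z hz => ⟨(hη z hz).1, fun w hw => hβ z w hz hw⟩) j hj ((L.p : Ω) ^ t * a)
    (mul_mem (pow_mem (IntermediateField.natCast_mem _ _) _) ha) ht
  obtain ⟨Z, hZ⟩ : ∃ Z : ℕ → ((Xf f).pt Ω →₀ ℤ), ∀ k, Z k =
      ∑ z ∈ S, ∑ w ∈ rt (X.ψ i) (c + z • v), dvb X.P (L.Ur ⊥ n) (β z w) (η z)
        fun r => η z r + (L.p : Ω) ^ k * x z w r := ⟨_, fun _ => rfl⟩
  have hZ1 : ∀ k, C₁ ≤ k → Z (k + t) ∈ Vb L X.P π (2 * k * e - C₁) := by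
    intro k hk
    have h1 := hC₁ k hk
    rw [hZ]
    have e1 : ∀ z ∈ S, ∀ w ∈ rt (X.ψ i) (c + z • v),
        (fun r => η z r + (L.p : Ω) ^ (k + t) * x z w r) = η z + (((L.p : Ω) ^ k *
          ((L.p : Ω) ^ t * a * w ^ j * (∏ z' ∈ S.erase z, (z - z'))⁻¹)) * X.ϖ⁻¹) • v := by
      intro z _ w _
      funext r
      rw [hx, hτ, Pi.add_apply, Pi.smul_apply, smul_eq_mul, pow_add]
      ring
    rw [Finset.sum_congr rfl fun z hz => Finset.sum_congr rfl fun w hw => by rw [e1 z hz w hw]]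
    exact h1
  have hq : 0 < L.nm (L.p : Ω) := hB.q0
  have hρ := hπ.pos
  have he0 : e ≠ 0 := by
    rintro rfl
    rw [pow_zero] at he
    exact absurd L.lt (by rw [he]; exact lt_irrefl _)
  obtain ⟨Y, hY⟩ : ∃ Y : B, Y = ∑ z ∈ S, ∑ w ∈ rt (X.ψ i) (c + z • v),
    T n (β z w) (η z) (x z w) := ⟨_, rfl⟩
  obtain ⟨D, k₀, hD, hsum⟩ := ld_sum hB S (g := fun z k => ∑ w ∈ rt (X.ψ i) (c + z • v),
      (lam (dvb X.P (L.Ur ⊥ n) (β z w) (η z) fun r => η z r + (L.p : Ω) ^ k * x z w r) -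
        L.p ^ k • T n (β z w) (η z) (x z w))) fun z hz => ld_sum hB _ fun w hw => by
    obtain ⟨D, k₀, hD, h1⟩ := hT.pts hπ hn (b := β z w) (hη z hz).1 (hxm z hz w hw)
    exact ⟨D, k₀, hD, fun k hk => (h1 k hk).2⟩
  have hE : ∀ k, ∑ z ∈ S, ∑ w ∈ rt (X.ψ i) (c + z • v),
      (lam (dvb X.P (L.Ur ⊥ n) (β z w) (η z) fun r => η z r + (L.p : Ω) ^ k * x z w r) -
        L.p ^ k • T n (β z w) (η z) (x z w)) = lam (Z k) - L.p ^ k • Y := by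
    intro k
    rw [hZ, hY, map_sum, Finset.smul_sum, ← Finset.sum_sub_distrib]
    refine Finset.sum_congr rfl fun z _ => ?_
    rw [map_sum, Finset.smul_sum, ← Finset.sum_sub_distrib]
  rw [← hY]
  obtain ⟨A, hA⟩ : ∃ A : ℝ, A = L.nm π ^ (C₁ + 2 * t * e) := ⟨_, rfl⟩
  have hA0 : 0 < A := by rw [hA]; exact pow_pos hρ _
  obtain ⟨D₂, hD₂⟩ : ∃ D₂ : ℝ, D₂ = max D (C' / A) := ⟨_, rfl⟩
  have key : ∀ k', C₁ + s₁ + k₀ ≤ k' → na Y ≤ D₂ * L.nm (L.p : Ω) ^ (k' + t) := by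
    intro k' hk'
    have h1 : k' ≤ 2 * k' * e := by
      have h2 : 2 * k' * 1 ≤ 2 * k' * e := Nat.mul_le_mul_left _ (Nat.one_le_iff_ne_zero.2 he0)
      omega
    have h2 := hl.lev (2 * k' * e - C₁) (by omega) _ (hZ1 k' (by omega))
    have h3 : L.nm π ^ (2 * k' * e - C₁) * A = (L.nm (L.p : Ω) ^ (k' + t)) ^ 2 := by
      rw [hA, he, ← pow_add, ← pow_mul, ← pow_mul]
      congr 1
      have h4 : C₁ ≤ 2 * k' * e := by omega
      have h5 : e * ((k' + t) * 2) = 2 * k' * e + 2 * t * e := by ring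
      omega
    have h4 : na (lam (Z (k' + t))) ≤ C' / A * (L.nm (L.p : Ω) ^ (k' + t)) ^ 2 := by
      rw [← h3]
      refine h2.trans (le_of_eq ?_)
      field_simp
    have h5 := hsum (k' + t) (by omega)
    rw [hE] at h5
    have h6 : L.p ^ (k' + t) • Y = -(lam (Z (k' + t)) - L.p ^ (k' + t) • Y) +
        lam (Z (k' + t)) := by abel
    have h7 : na (L.p ^ (k' + t) • Y) ≤ D₂ * (L.nm (L.p : Ω) ^ (k' + t)) ^ 2 := by
      rw [h6]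
      refine (hB.add _ _).trans (max_le ?_ ?_)
      · rw [hB.neg]
        refine h5.trans (mul_le_mul_of_nonneg_right ?_ (sq_nonneg _))
        rw [hD₂]
        exact le_max_left _ _
      · refine h4.trans (mul_le_mul_of_nonneg_right ?_ (sq_nonneg _))
        rw [hD₂]
        exact le_max_right _ _
    rw [tx_nsm hB] at h7
    refine le_of_mul_le_mul_left ?_ (pow_pos hq (k' + t))
    refine h7.trans (le_of_eq ?_)
    ring
  refine tx_zero hB (D := D₂ * L.nm (L.p : Ω) ^ (C₁ + s₁ + k₀ + t)) fun m => ?_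
  have h1 := key (C₁ + s₁ + k₀ + m) (by omega)
  refine h1.trans (le_of_eq ?_)
  rw [mul_assoc, ← pow_add]
  congr 2
  omega

theorem ti_tpe (hX : X.Ok L) (hP : Bs L X.P) (hf : Hm f) (hr : L.Rf ⊥ r) (hπ : Uf L π)
    (hB : Bn L.p (L.nm (L.p : Ω)) na) (hl : Lame X.P L π na lam s₁ C')
    (hT : Dte X.P L π na r lam T s₀ C) {e : ℕ} (he : L.nm (L.p : Ω) = L.nm π ^ e)
    (hcr : Crl L X π e) : ∃ D, Tpe L X r na (X.ti L T) D := by
  obtain ⟨D, h0, h1, h2, h3, h4, h5, h6⟩ := ti_props hX hP hf hr hπ hB hl hT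
  exact ⟨D, h1, h2, h3, h4, h5, h6, fun n i c v S j a hn hc hv hS hj ha =>
    ti_cr hX hP hf hπ hB hl hT he hcr hn hc hv hS hj ha, h0⟩

end GX
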