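import Pool.Agent.Lib.MP_f80667_ag.Ep.S
import Pool.Agent.Lib.MP_f80667_ag.Cv.NfD
import Pool.Agent.Lib.MP_f80667_ag.Gx.PjP

/-!
The system of branches over a finite Galois extension of `K` (EP, section 1).

* `Bg f L ψ E L' X`: `ψ` are projections over `K` with integral coefficients, `X` is a system of branches over `E` for them (`L'` is the
  absolute value over `E`), the branches are permuted by the Galois group of `K`, the centres are in good position.
-/

open ZC BE PE CV IntermediateField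

namespace GX

variable {F : Type} [Field F] {N d m : ℕ} {ι : Type} (f : ι → MvPolynomial (Fin N) F)
  {K Ω : Type} [Field K] [Field Ω] [Algebra K Ω] [Algebra F K] [Algebra F Ω]
  [IsScalarTower F K Ω] (L : Ld K Ω)

/-- The system of branches over the finite Galois extension `E` for projections over `K`. -/
structure Bg (ψ : Fin m → Prj K N d) (E : IntermediateField K Ω) (L' : Ld E Ω)
    (X : Bd f E Ω d m) : Prop where
  fd : FiniteDimensional K E
  gal : IsGalois K E
  p : L'.p = L.p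
  nm : ∀ x, L'.nm x = L.nm x
  ok : X.Ok L'
  hψ : ∀ i, X.ψ i = (ψ i).map (algebraMap K E)
  pk : ∀ i, Pk f L (ψ i)
  hϖ : ∃ r : ℕ, X.ϖ = (L.p : Ω) ^ r
  /-- the Galois group permutes the branches -/
  act : ∀ (γ : Ω ≃ₐ[K] Ω) (b : X.B), ∃ b', X.i b' = X.i b ∧ (∀ r, X.γ b' r = γ (X.γ b r)) ∧
    X.w b' = γ (X.w b)
  /-- the projections cover the variety -/
  cov : ∀ x : Fin N → Ω, (∀ j, L.nm (x j) ≤ 1) → (∃ k, L.nm (x k) = 1) →
    (∀ j, MvPolynomial.aeval x (f j) = 0) →
      ∃ i, X.ε ≤ L.nm (MvPolynomial.aeval ((ψ i).uv x) (ψ i).D)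
  /-- centres over `K` such that the points over them are, in all projections, over centres -/
  cen : ∀ i, ∃ γ : Fin (d + 1) → Ω, (∀ r, γ r ∈ (⊥ : IntermediateField K Ω)) ∧
    (∀ r, L.nm (γ r) ≤ 1) ∧ X.ε ≤ L.nm (MvPolynomial.aeval γ (ψ i).D) ∧
      ∀ w, pe γ w (ψ i).G = 0 → (∃ b, X.i b = i ∧ X.γ b = γ ∧ X.w b = w) ∧
        ∀ i', ∃ b, X.i b = i' ∧ (∀ r, X.γ b r = (ψ i').uv (((ψ i).om Ω).pt γ w) r) ∧
          X.w b = (ψ i').yv (((ψ i).om Ω).pt γ w)

end GX
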