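import Pool.Agent.Lib.MP_f80667_ag.Ep.Lk
import Pool.Agent.Lib.MP_f80667_ag.Ep.X
import Pool.Agent.Lib.MP_f80667_ag.Pl.Dm

/-!
The hypotheses of the block LAMBDA over the field of the branches.

* `dnk_ext`: the density over a finite extension.
* `Bg.gl`: glue. `Bg.hcov`: the projections cover the variety.
-/

open ZC BE PE CV IntermediateField

namespace PL

/-- The elements which are algebraic over `ℚ` are dense in a finite extension. -/
theorem dnk_ext {K Ω : Type} [Field K] [CharZero K] [Field Ω] [Algebra K Ω] [IsAlgClosure K Ω]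
    {L : Ld K Ω} (hK : DnK L) {E : IntermediateField K Ω} (hE : FiniteDimensional K E)
    {L' : Ld E Ω} (hnm : ∀ x, L'.nm x = L.nm x) : DnK L' := by
  have : CharZero Ω := charZero_of_injective_algebraMap (algebraMap K Ω).injective
  intro x ε hε
  obtain ⟨y, hy, hya, hyx⟩ := dm_ex hK hE x.2 hε
  have hinj : Function.Injective ((algebraMap E Ω : E →+* Ω).toRatAlgHom) :=
    (algebraMap E Ω).injective
  refine ⟨⟨y, hy⟩, (isAlgebraic_algHom_iff ((algebraMap E Ω : E →+* Ω).toRatAlgHom) hinj).1 hya,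
    ?_⟩
  rw [hnm, map_sub]
  exact hyx

end PL

namespace GX

variable {F : Type} [Field F] {N d m : ℕ} {ι : Type} {f : ι → MvPolynomial (Fin N) F}
  {K Ω : Type} [Field K] [CharZero K] [Field Ω] [Algebra K Ω] [Algebra F K] [Algebra F Ω]
  [IsScalarTower F K Ω] [IsAlgClosure K Ω] {L : Ld K Ω} {ψ : Fin m → Prj K N d}
  {E : IntermediateField K Ω} {L' : Ld E Ω} {X : Bd f E Ω d m}

/-- The projections over `Ω`. -/
theorem Bg.om (hX : Bg f L ψ E L' X) (i : Fin m) : (X.ψ i).om Ω = (ψ i).om Ω := by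
  change (X.ψ i).map (algebraMap E Ω) = (ψ i).map (algebraMap K Ω)
  rw [hX.hψ i, Prj.map_map, ← IsScalarTower.algebraMap_eq K E Ω]

theorem Bg.uv (hX : Bg f L ψ E L' X) (i : Fin m) (x : Fin N → Ω) :
    (X.ψ i).uv x = (ψ i).uv x := by
  rw [← om_uv, hX.om, om_uv]

/-- The projections cover the variety. -/
theorem Bg.hcov (hX : Bg f L ψ E L' X) (hf : Hm f) {x : Fin N → Ω} (hx : Zp (fo f Ω) x) :
    ∃ i, MvPolynomial.eval (((X.ψ i).om Ω).uv x) ((X.ψ i).om Ω).D ≠ 0 := by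
  obtain ⟨j₀, hj₀⟩ : ∃ j, x j ≠ 0 := by
    by_contra hcon
    push Not at hcon
    exact hx.1 (funext hcon)
  obtain ⟨j, -, hj⟩ := Finset.exists_max_image Finset.univ (fun j => L.nm (x j))
    ⟨j₀, Finset.mem_univ _⟩
  have hxj : x j ≠ 0 := by
    intro h0
    have h1 := hj j₀ (Finset.mem_univ _)
    rw [h0, L.zero] at h1
    exact hj₀ ((L.zero_iff _).1 (le_antisymm h1 (L.nonneg _)))
  have hinv : L.nm (x j)⁻¹ * L.nm (x j) = 1 := by
    rw [← L.mul, inv_mul_cancel₀ hxj, L.one]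
  have hz := om_zp.1 (zp_smul (om_hom hf) hx (inv_ne_zero hxj))
  obtain ⟨i, hi⟩ := hX.cov ((x j)⁻¹ • x) (fun l => by
      rw [Pi.smul_apply, smul_eq_mul, L.mul, ← hinv]
      exact mul_le_mul_of_nonneg_left (hj l (Finset.mem_univ _)) (L.nonneg _))
    ⟨j, by rw [Pi.smul_apply, smul_eq_mul, L.mul, hinv]⟩ hz.2
  refine ⟨i, fun h0 => ?_⟩
  rw [hX.om, om_uv, om_D] at h0
  obtain ⟨e, -, he⟩ := (hX.pk i).homD
  have h1 : (ψ i).uv ((x j)⁻¹ • x) = (x j)⁻¹ • (ψ i).uv x := uv_smul (ψ i) x _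
  have h2 : MvPolynomial.aeval ((x j)⁻¹ • (ψ i).uv x) (ψ i).D =
      (x j)⁻¹ ^ e * MvPolynomial.aeval ((ψ i).uv x) (ψ i).D := aeval_smul_hom he _ _
  rw [h1, h2, h0, mul_zero, L.zero] at hi
  exact absurd hX.ok.ε0 (not_lt.2 hi)

/-- Glue. -/
theorem Bg.gl [IsAlgClosure E Ω] (hX : Bg f L ψ E L' X) {x : Fin N → Ω} (hx : Zp (fo f Ω) x) :
    X.Gl L' := by
  have hac : IsAlgClosed Ω := IsAlgClosure.isAlgClosed K
  intro i
  obtain ⟨γ, hγ, hγ1, hD, hw⟩ := hX.cen i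
  -- a root over `γ`
  obtain ⟨w, hw0⟩ : ∃ w, pe γ w (ψ i).G = 0 := by
    have h1 := (hX.pk i).onX x hx.1 (om_zp.1 hx).2
    have hdeg : ((ψ i).G.map (MvPolynomial.aeval γ : MvPolynomial (Fin (d + 1)) K →ₐ[K] Ω).toRingHom).degree ≠ 0 := by
      intro h0
      have hm := (hX.pk i).mon
      have h2 : ((ψ i).G.map (MvPolynomial.aeval γ :
          MvPolynomial (Fin (d + 1)) K →ₐ[K] Ω).toRingHom).natDegree = (ψ i).G.natDegree :=
        hm.natDegree_map _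
      have h3 : (ψ i).G.natDegree = 0 := by
        rw [← h2]
        exact Polynomial.natDegree_eq_of_degree_eq_some h0
      have h4 : (ψ i).G = 1 := hm.natDegree_eq_zero.1 h3
      have h5 := h1.1
      rw [h4, map_one] at h5
      exact one_ne_zero h5
    obtain ⟨w, hw⟩ := IsAlgClosed.exists_root _ hdeg
    refine ⟨w, ?_⟩
    rw [Polynomial.IsRoot.def, Polynomial.eval_map] at hw
    exact hw
  obtain ⟨⟨b, hb1, hb2, hb3⟩, -⟩ := hw w hw0
  refine ⟨b, hb1, fun b' h1 h2 i' => ?_⟩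
  rw [hb1] at h1
  have h3 : pe γ (X.w b') (ψ i).G = 0 := by
    have h4 := hX.ok.root b'
    rw [h1, h2, hb2, ← om_G, hX.om, om_G] at h4
    exact h4
  obtain ⟨-, h4⟩ := hw _ h3
  obtain ⟨b'', hb1'', hb2'', -⟩ := h4 i'
  refine ⟨b'', fun _ => 0, 1, hb1'', fun _ => ⟨zero_mem _, by rw [L'.zero]; exact zero_le_one⟩,
    one_mem _, one_ne_zero, ?_⟩
  rw [hX.uv, hX.om, one_smul, h2, hb2]
  funext r
  rw [← hb2'' r, Bd.cc, mul_zero, add_zero]

end GX
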