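import Pool.Agent.Lib.MP_f80667_ag.Ep.Lcc

/-!
Glue: for every projection there is a centre such that all points over it are over polydiscs of all projections.
-/

open ZC BE PE CV IntermediateField

namespace GX

variable {F : Type} [Field F] {N d m : ℕ} {ι : Type} {f : ι → MvPolynomial (Fin N) F}
  {K Ω : Type} [Field K] [CharZero K] [Field Ω] [Algebra K Ω] [Algebra F K] [Algebra F Ω]
  [IsScalarTower F K Ω] [IsAlgClosure K Ω] {L : Ld K Ω} {X : Bd f K Ω d m}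

omit [CharZero K] [IsAlgClosure K Ω] in
/-- For every projection there is a centre such that all points over it are over polydiscs of all projections (coordinates up to a factor). -/
def Bd.Gl (L : Ld K Ω) (X : Bd f K Ω d m) : Prop :=
  ∀ i, ∃ b, X.i b = i ∧ ∀ b', X.i b' = X.i b → X.γ b' = X.γ b → ∀ i',
    ∃ (b'' : X.B) (h : Fin (d + 1) → Ω) (s : Ω), X.i b'' = i' ∧
      Iv L (⊥ : IntermediateField K Ω) h ∧ s ∈ (⊥ : IntermediateField K Ω) ∧ s ≠ 0 ∧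
        (X.ψ i').uv (((X.ψ i).om Ω).pt (X.γ b') (X.w b')) = s • X.cc b'' h

omit [CharZero K] [IsAlgClosure K Ω] in
/-- The exponent. -/
private theorem lk_key (hX : X.Ok L) (hG : X.Gl L) : ∃ k : ℕ, L.nm (L.p : Ω) ^ k ≤ L.nm X.ϖ ∧
    ∀ i, ∃ b, X.i b = i ∧ ∀ b', X.i b' = X.i b → X.γ b' = X.γ b → ∀ i',
      ∃ (b'' : X.B) (h : Fin (d + 1) → Ω) (s : Ω), X.i b'' = i' ∧
        Iv L (⊥ : IntermediateField K Ω) h ∧ s ∈ (⊥ : IntermediateField K Ω) ∧ s ≠ 0 ∧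
          (X.ψ i').uv (((X.ψ i).om Ω).pt (X.γ b') (X.w b')) = s • X.cc b'' h ∧
            L.nm (L.p : Ω) ^ k ≤ L.nm X.ϖ * (L.nm X.ϖ * L.nm s) := by
  have hfin := hX.fin
  have hϖ := hX.ϖ0
  choose β hβ hG using hG
  have h1 : ∀ (i : Fin m) (b' : X.B) (i' : Fin m), ∃ κ : ℕ, ∀ k, κ ≤ k →
      X.i b' = X.i (β i) → X.γ b' = X.γ (β i) →
        ∃ (b'' : X.B) (h : Fin (d + 1) → Ω) (s : Ω), X.i b'' = i' ∧
          Iv L (⊥ : IntermediateField K Ω) h ∧ s ∈ (⊥ : IntermediateField K Ω) ∧ s ≠ 0 ∧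
            (X.ψ i').uv (((X.ψ i).om Ω).pt (X.γ b') (X.w b')) = s • X.cc b'' h ∧
              L.nm (L.p : Ω) ^ k ≤ L.nm X.ϖ * (L.nm X.ϖ * L.nm s) := by
    intro i b' i'
    by_cases hc : X.i b' = X.i (β i) ∧ X.γ b' = X.γ (β i)
    · obtain ⟨b'', h, s, h1, h2, h3, h4, h5⟩ := hG i b' hc.1 hc.2 i'
      obtain ⟨κ, hκ⟩ := exists_pow_lt_of_lt_one (mul_pos hϖ (mul_pos hϖ (L.pos h4))) L.lt
      exact ⟨κ, fun k hk _ _ => ⟨b'', h, s, h1, h2, h3, h4, h5,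
        (pow_le_pow_of_le_one (L.nonneg _) L.lt.le hk).trans hκ.le⟩⟩
    · exact ⟨0, fun k _ h1 h2 => absurd ⟨h1, h2⟩ hc⟩
  choose κ hκ using h1
  obtain ⟨k₀, hk₀⟩ := exists_pow_lt_of_lt_one hϖ L.lt
  obtain ⟨k₁, hk₁⟩ :=
    (Set.finite_range fun t : Fin m × X.B × Fin m => κ t.1 t.2.1 t.2.2).bddAbove
  exact ⟨max k₀ k₁,
    (pow_le_pow_of_le_one (L.nonneg _) L.lt.le (le_max_left _ _)).trans hk₀.le,
    fun i => ⟨β i, hβ i, fun b' h1 h2 i' =>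
      hκ i b' i' _ ((hk₁ ⟨(i, b', i'), rfl⟩).trans (le_max_right _ _)) h1 h2⟩⟩

/-- **Glue near the centre.** Proof: `γ i = X.γ b` for the `b` of `Gl`. Let `k` be such that `nm p ^ k ≤ nm ϖ * nm ϖ * nm s` for the finitely many (`X.B` and `Fin m` are finite) numbers `s` of `Gl`. For `c'` near `γ i` over `Ur ⊥ n`: `c' = cc b h'`, `nm (h' r) ≤ nm ϖ * nm s`; a root over `c'` is
`rt b' h'` for a branch `b'` over the same centre (`Bd.Ok.rt_all`), `pt c' w = xx b' h'`, `xx b' 0 = pt (γ b') (w b')` (`rt_uniq` for `h = 0`: `rt b' 0 = w b'`), `Bd.Ok.tan` for `t = nm ϖ * nm s`: `u_i' (pt c' w) = s • c''` with `c'' r - cc b'' h r` of norm at most `nm ϖ`; `Ge.disc`, `Ge.mono`. -/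
theorem Bd.Gl.near (hX : X.Ok L) (hG : X.Gl L) : ∃ k : ℕ, ∀ i, ∃ γ : Fin (d + 1) → Ω,
    Iv L (⊥ : IntermediateField K Ω) γ ∧ ∀ n, n ≠ 0 → ∀ c' : Fin (d + 1) → Ω,
      (∀ l, c' l ∈ L.Ur ⊥ n) → (∀ l, L.nm (c' l - γ l) ≤ L.nm (L.p : Ω) ^ k) →
        Ge L X i n c' ∧ ∀ w ∈ GX.rt (X.ψ i) c', ∀ i', ∃ (s : Ω) (c'' : Fin (d + 1) → Ω),
          s ∈ L.Ur ⊥ n ∧ s ≠ 0 ∧ Ge L X i' n c'' ∧
            (X.ψ i').uv (((X.ψ i).om Ω).pt c' w) = s • c'' := by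
  obtain ⟨k, hk, key⟩ := lk_key hX hG
  refine ⟨k, fun i => ?_⟩
  obtain ⟨b, rfl, hb⟩ := key i
  refine ⟨X.γ b, hX.iv b, fun n hn c' hc' hd => ?_⟩
  have hϖ : X.ϖ ≠ 0 := L.ne_zero hX.ϖ0
  have hM : ∀ y : Ω, y ∈ (⊥ : IntermediateField K Ω) → y ∈ L.Ur ⊥ n := fun y hy =>
    (bot_le : (⊥ : IntermediateField K Ω) ≤ L.Ur ⊥ n) hy
  obtain ⟨h', hhd⟩ : ∃ h' : Fin (d + 1) → Ω, ∀ r, h' r = (c' r - X.γ b r) / X.ϖ :=
    ⟨_, fun _ => rfl⟩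
  have hcc : X.cc b h' = c' := by
    funext r
    rw [Bd.cc, hhd, mul_div_cancel₀ _ hϖ]
    ring
  have hh' : Iv L (L.Ur ⊥ n) h' := by
    intro r
    rw [hhd]
    refine ⟨div_mem (sub_mem (hc' r) (hM _ (hX.iv b r).1)) (hM _ hX.ϖm), ?_⟩
    rw [L.div]
    exact div_le_one_of_le₀ ((hd r).trans hk) (L.nonneg _)
  have hh1 : ∀ r, L.nm (h' r) ≤ 1 := fun r => (hh' r).2
  refine ⟨⟨b, h', rfl, hh', hcc⟩, fun w hw i' => ?_⟩
  have h1 := (mem_rte hX).1 hw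
  rw [← hcc] at h1
  obtain ⟨b', hi, hγ, rfl⟩ := hX.rt_all b hh1 h1
  obtain ⟨b'', h, s, rfl, hh, hs, hs0, huv, hks⟩ := hb b' hi hγ i'
  have hcc1 : X.cc b' h' = c' := by
    rw [← hcc]
    funext r
    rw [Bd.cc, Bd.cc, hγ]
  have hz : ∀ r, L.nm ((0 : Fin (d + 1) → Ω) r) ≤ 1 := fun r => by
    rw [Pi.zero_apply, L.zero]
    exact zero_le_one
  have hcc0 : X.cc b' 0 = X.γ b' := by
    funext r
    rw [Bd.cc, Pi.zero_apply, mul_zero, add_zero]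
  have hr0 : X.w b' = X.rt L b' 0 := by
    refine hX.rt_uniq b' hz ?_ ?_
    · rw [hcc0]
      exact hX.root b'
    · rw [sub_self, L.zero]
      exact hX.ε0
  have hx0 : X.xx L b' 0 = ((X.ψ (X.i b)).om Ω).pt (X.γ b') (X.w b') := by
    rw [Bd.xx, hcc0, ← hr0, hi]
  have hx1 : X.xx L b' h' = ((X.ψ (X.i b)).om Ω).pt c' (X.rt L b' h') := by
    rw [Bd.xx, hcc1, hi]
  have hns : 0 < L.nm s := L.pos hs0
  obtain ⟨t, ht⟩ : ∃ t, t = min 1 (L.nm X.ϖ * L.nm s) := ⟨_, rfl⟩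
  have ht0 : 0 ≤ t := by
    rw [ht]
    exact le_min zero_le_one (mul_nonneg (L.nonneg _) (L.nonneg _))
  have ht1 : t ≤ 1 := by
    rw [ht]
    exact min_le_left _ _
  have ht2 : t ≤ L.nm X.ϖ * L.nm s := by
    rw [ht]
    exact min_le_right _ _
  have htn : ∀ r, L.nm (h' r - (0 : Fin (d + 1) → Ω) r) ≤ t := by
    intro r
    rw [Pi.zero_apply, sub_zero, ht]
    refine le_min (hh1 r) ?_
    rw [hhd, L.div, div_le_iff₀ hX.ϖ0, mul_comm]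
    exact (hd r).trans hks
  have hT : ∀ j, L.nm (X.xx L b' h' j - X.xx L b' 0 j) ≤ t := fun j =>
    (hX.tan b' hz hh1 ht0 ht1 htn j).1
  obtain ⟨c'', hcd⟩ : ∃ c'' : Fin (d + 1) → Ω,
      ∀ r, c'' r = (X.ψ (X.i b'')).uv (X.xx L b' h') r / s := ⟨_, fun _ => rfl⟩
  refine ⟨s, c'', hM _ hs, hs0, ?_, ?_⟩
  · refine Ge.disc hX (c := X.cc b'' h)
      ⟨b'', h, rfl, fun r => ⟨hM _ (hh r).1, (hh r).2⟩, rfl⟩ (fun r => ?_) fun r => ?_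
    · rw [hcd]
      refine div_mem ?_ (hM _ hs)
      change lv ((X.ψ (X.i b'')).u r) (X.xx L b' h') ∈ L.Ur ⊥ n
      exact lv_mem _ fun j => hX.xx_mem b' hh' j
    · have e : c'' r - X.cc b'' h r = ((X.ψ (X.i b'')).uv (X.xx L b' h') r -
          (X.ψ (X.i b'')).uv (X.xx L b' 0) r) / s := by
        rw [hcd, hx0, huv, Pi.smul_apply, smul_eq_mul, sub_div, mul_div_cancel_left₀ _ hs0]
      rw [e, L.div, div_le_iff₀ hns]
      refine le_trans ?_ ht2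
      change L.nm (lv ((X.ψ (X.i b'')).u r) (X.xx L b' h') -
        lv ((X.ψ (X.i b'')).u r) (X.xx L b' 0)) ≤ t
      exact lv_close ((hX.pk (X.i b'')).iu r) ht0 hT
  · rw [← hx1]
    funext r
    rw [Pi.smul_apply, smul_eq_mul, hcd, mul_div_cancel₀ _ hs0]

end GX
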