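import Pool.Agent.Lib.MP_f80667_ag.Ep.Lq
import Pool.Agent.Lib.MP_f80667_ag.Ep.Lk
import Pool.Agent.Lib.MP_f80667_ag.Lc.Eb

/-!
Linear forms of the functionals are global forms.
-/

open ZC BE PE CV IntermediateField

namespace GX

variable {F : Type} [Field F] {N d m : ℕ} {ι : Type} {f : ι → MvPolynomial (Fin N) F}
  {K Ω : Type} [Field K] [CharZero K] [Field Ω] [Algebra K Ω] [Algebra F K] [Algebra F Ω]
  [IsScalarTower F K Ω] [IsAlgClosure K Ω] {L : Ld K Ω} {X : Bd f K Ω d m} {π : Ω} {r n : ℕ}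
  {B : Type} [AddCommGroup B] [Module ℚ B] {na : B → ℝ}
  {C : ℝ} {T : ℕ → (Fin N → Ω) → (Fin N → Ω) → B} {hB : Bn L.p (L.nm (L.p : Ω)) na}

omit [CharZero K] [IsAlgClosure K Ω] in
private theorem lf_bt {ψ : Prj K N d} {M : IntermediateField K Ω} {c : Fin (d + 1) → Ω} {w : Ω}
    (hc : ∀ r, c r ∈ M) (hw : w ∈ M) (j : ℕ) : pe c w ((ψ.om Ω).bt j) ∈ M := by
  rw [Prj.bt, map_sum]
  refine sum_mem fun k _ => ?_
  rw [map_mul, map_pow, pe_C, pe_X]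
  refine mul_mem ?_ (pow_mem hw k)
  change MvPolynomial.aeval c
    ((ψ.G.map (MvPolynomial.map (algebraMap K Ω))).coeff (j + 1 + k)) ∈ M
  rw [Polynomial.coeff_map, MvPolynomial.aeval_map_algebraMap]
  exact aev_mem _ hc

/-- The polynomials of a linear form. Proof: `pq_poly`: `P i j l = ∑ e ∈ E, C (θ (w l e)) * monomial e` for `0 < j < natDegree`, `0` otherwise; `pq_zero` for `j = 0`. As `exists_pv` in Lc/F. -/
theorem exists_pq (hX : X.Ok L) (hT : Tpe L X r na T C) (hK : PL.DnK L) (hn : N0 r n)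
    (θ : Hn L hB n →ₗ[↥(L.Ur ⊥ n)] ↥(L.Ur ⊥ n)) :
    ∃ P : Pv Ω m d, (∀ i l, P i 0 l = 0) ∧
      (∀ i j l, ((X.ψ i).om Ω).G.natDegree ≤ j → P i j l = 0) ∧
      ∀ i j, j < ((X.ψ i).om Ω).G.natDegree → ∀ c ξ, Ge L X i n c →
        (∀ l, ξ l ∈ L.Ur ⊥ n) →
          ∑ l, MvPolynomial.eval c (P i j l) * ξ l = (θ (Pq hB T (X.ψ i) n j c ξ) : Ω) := by
  have H := fun (i : Fin m) (j : ℕ) => pq_poly (hB := hB) hX hT hK hn i j
  choose E w hw using H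
  refine ⟨fun i j l => if 0 < j ∧ j < ((X.ψ i).om Ω).G.natDegree then
    ∑ e ∈ E i j, MvPolynomial.monomial e ((θ (w i j l e) : ↥(L.Ur ⊥ n)) : Ω) else 0,
    fun i l => if_neg fun h => lt_irrefl _ h.1, fun i j l hj => if_neg fun h => by omega, ?_⟩
  intro i j hj c ξ hc hξ
  rcases Nat.eq_zero_or_pos j with rfl | hj0
  · rw [pq_zero hX hT hn hc hξ, map_zero, ZeroMemClass.coe_zero]
    refine Finset.sum_eq_zero fun l _ => ?_
    beta_reduce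
    rw [if_neg fun h => lt_irrefl _ h.1, map_zero, zero_mul]
  · have h1 : Pq hB T (X.ψ i) n j c ξ = ∑ l, ∑ e ∈ E i j,
        ((⟨ξ l, hξ l⟩ : ↥(L.Ur ⊥ n)) * ∏ k, (⟨c k, (hc.iv hX k).1⟩ : ↥(L.Ur ⊥ n)) ^ e k) •
          w i j l e := hw i j (fun l => ⟨c l, (hc.iv hX l).1⟩) (fun l => ⟨ξ l, hξ l⟩) hc
    rw [h1, map_sum, AddSubmonoidClass.coe_finsetSum]
    refine Finset.sum_congr rfl fun l _ => ?_
    beta_reduce
    rw [if_pos ⟨hj0, hj⟩, map_sum, Finset.sum_mul, map_sum, AddSubmonoidClass.coe_finsetSum]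
    refine Finset.sum_congr rfl fun e _ => ?_
    rw [MvPolynomial.eval_monomial, map_smul, smul_eq_mul, MulMemClass.coe_mul,
      MulMemClass.coe_mul, SubmonoidClass.coe_finsetProd,
      Finsupp.prod_fintype _ _ fun k => pow_zero _]
    simp only [SubmonoidClass.coe_pow]
    ring

/-- The value of the form. Proof: `Ge.uv`, `pq_rec` for `c = u (x)`, `w₀ = y (x)`, `ξ = u (t)`; `θ` is linear; `om_uv`, `om_yv`. As `pv_ev` in Lc/F. -/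
theorem pq_ev (hX : X.Ok L) (hT : Tpe L X r na T C) (hn : N0 r n)
    (θ : Hn L hB n →ₗ[↥(L.Ur ⊥ n)] ↥(L.Ur ⊥ n)) {P : Pv Ω m d}
    (hP : ∀ i j, j < ((X.ψ i).om Ω).G.natDegree → ∀ c ξ, Ge L X i n c →
      (∀ l, ξ l ∈ L.Ur ⊥ n) →
        ∑ l, MvPolynomial.eval c (P i j l) * ξ l = (θ (Pq hB T (X.ψ i) n j c ξ) : Ω))
    {x t : Fin N → Ω} (ht : Tn' f L n x t) {i : Fin m} (hc : Ge L X i n ((X.ψ i).uv x)) :
    ((X.ψ i).om Ω).ev (P i) x t = ((X.ψ i).om Ω).gy x * (θ (ph hB T n x t) : Ω) := by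
  obtain ⟨h1, h2, h3⟩ := hc.uv hX ht.tg.1
  have hcM : ∀ r, (X.ψ i).uv x r ∈ L.Ur ⊥ n := fun r => (hc.iv hX r).1
  have hyM : (X.ψ i).yv x ∈ L.Ur ⊥ n := (hc.w hX h1).1
  have hξ : ∀ r, (X.ψ i).uv t r ∈ L.Ur ⊥ n := fun r => by
    rw [Prj.uv, lv]
    exact sum_mem fun j _ => mul_mem (IntermediateField.algebraMap_mem _ _) (ht.mem j)
  have hgm : pe ((X.ψ i).uv x) ((X.ψ i).yv x)
      (Polynomial.derivative ((X.ψ i).om Ω).G) ∈ L.Ur ⊥ n := by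
    rw [om_dG]
    exact pe_mem _ hcM hyM
  have hrec := pq_rec (hB := hB) hX hT hn hc hξ ((mem_rte hX).1 h1)
    (β := fun j => ⟨pe ((X.ψ i).uv x) ((X.ψ i).yv x) (((X.ψ i).om Ω).bt j),
      lf_bt hcM hyM j⟩) (fun j => rfl) (g := ⟨_, hgm⟩) rfl
  rw [h2, h3 t ht.tg] at hrec
  have h7 := congrArg (fun φ => ((θ φ : ↥(L.Ur ⊥ n)) : Ω)) hrec
  simp only [map_sum, map_smul, smul_eq_mul, MulMemClass.coe_mul,
    AddSubmonoidClass.coe_finsetSum] at h7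
  rw [Prj.ev, Prj.gy, om_uv, om_yv, om_uv, ← h7]
  refine Finset.sum_congr rfl fun j hj => ?_
  rw [hP i j (Finset.mem_range.1 hj) _ _ hc hξ]

omit [IsAlgClosure K Ω] in
/-- The powers of `p` are different. -/
private theorem lfe_pow (L : Ld K Ω) {k l : ℕ} (h : (L.p : Ω) ^ k = (L.p : Ω) ^ l) : k = l := by
  have h1 : L.nm (L.p : Ω) ^ k = L.nm (L.p : Ω) ^ l := by
    rw [← L.pow, ← L.pow, h]
  exact pow_right_injective₀ L.p_pos L.lt.ne h1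

omit [CharZero K] [IsAlgClosure K Ω] in
private theorem lfe_pm (L : Ld K Ω) (n k : ℕ) :
    (L.p : Ω) ^ k ∈ L.Ur (⊥ : IntermediateField K Ω) n :=
  pow_mem (_root_.natCast_mem (L.Ur (⊥ : IntermediateField K Ω) n) L.p) k

omit [CharZero K] [IsAlgClosure K Ω] in
private theorem lfe_le (L : Ld K Ω) (k l : ℕ) :
    L.nm ((L.p : Ω) ^ (k + l)) ≤ L.nm (L.p : Ω) ^ k := by
  rw [L.pow]
  exact pow_le_pow_of_le_one (L.nonneg _) L.lt.le (Nat.le_add_right k l)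

/-- The points over `Ur ⊥ n` near `γ`. -/
private def lfe_z (L : Ld K Ω) (n k : ℕ) (γ : Fin (d + 1) → Ω) : Set (Fin (d + 1) → Ω) :=
  {c' | (∀ l, c' l ∈ L.Ur ⊥ n) ∧ ∀ l, L.nm (c' l - γ l) ≤ L.nm (L.p : Ω) ^ k}

omit [IsAlgClosure K Ω] in
/-- A polynomial which is `0` at the points near `γ` is `0`. -/
private theorem lfe_dens {k : ℕ} {γ : Fin (d + 1) → Ω} (hγ : ∀ l, γ l ∈ L.Ur ⊥ n)
    (q : MvPolynomial (Fin (d + 1)) Ω)
    (h : ∀ c' ∈ lfe_z L n k γ, MvPolynomial.eval c' q = 0) : q = 0 := by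
  refine MvPolynomial.funext_set
    (fun l => {a : Ω | a ∈ L.Ur ⊥ n ∧ L.nm (a - γ l) ≤ L.nm (L.p : Ω) ^ k}) (fun l => ?_)
    fun x hx => ?_
  · have hinj : Function.Injective fun k' : ℕ => γ l + (L.p : Ω) ^ (k + k') := by
      intro k₁ k₂ hk
      have h1 := lfe_pow L (add_left_cancel hk)
      omega
    refine (Set.infinite_range_of_injective hinj).mono ?_
    rintro _ ⟨k', rfl⟩
    refine ⟨add_mem (hγ l) (lfe_pm L n (k + k')), ?_⟩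
    rw [add_sub_cancel_left]
    exact lfe_le L k k'
  · rw [map_zero]
    refine h x ⟨fun l => ?_, fun l => ?_⟩
    · exact (hx l (Set.mem_univ l)).1
    · exact (hx l (Set.mem_univ l)).2

/-- The polynomials of the form are homogeneous. Proof: `hom_of` (Lc/Eb) for `Z` the polydisc around `c₀` (density as `lcf_dens` in Lc/F), `U` the `s ∈ Ur ⊥ n` with `nm (s - 1) ≤ nm ϖ` (infinite: `1 + p ^ (k₀ + k)`), `pq_hom`; `0` for `j = 0` and for `natDegree ≤ j`. -/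
theorem pq_homg (hX : X.Ok L) (hf : Hm f) (hT : Tpe L X r na T C) (hn : N0 r n)
    (θ : Hn L hB n →ₗ[↥(L.Ur ⊥ n)] ↥(L.Ur ⊥ n)) {P : Pv Ω m d} (h4 : ∀ i l, P i 0 l = 0)
    (h5 : ∀ i j l, ((X.ψ i).om Ω).G.natDegree ≤ j → P i j l = 0)
    (hP : ∀ i j, j < ((X.ψ i).om Ω).G.natDegree → ∀ c ξ, Ge L X i n c →
      (∀ l, ξ l ∈ L.Ur ⊥ n) →
        ∑ l, MvPolynomial.eval c (P i j l) * ξ l = (θ (Pq hB T (X.ψ i) n j c ξ) : Ω))
    {i : Fin m} {c₀ : Fin (d + 1) → Ω} (hc₀ : Ge L X i n c₀) (j : ℕ) (l : Fin (d + 1)) :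
    (P i j l).IsHomogeneous (j - 1) := by
  rcases Nat.eq_zero_or_pos j with rfl | hj0
  · rw [h4 i l]
    exact MvPolynomial.isHomogeneous_zero _ _ _
  rcases Nat.lt_or_ge j ((X.ψ i).om Ω).G.natDegree with hj | hj
  swap
  · rw [h5 i j l hj]
    exact MvPolynomial.isHomogeneous_zero _ _ _
  obtain ⟨k₀, hk₀⟩ := exists_pow_lt_of_lt_one hX.ϖ0 L.lt
  have hU : {s : Ω | s ∈ L.Ur ⊥ n ∧ L.nm (s - 1) ≤ L.nm X.ϖ}.Infinite := by
    have hinj : Function.Injective fun k' : ℕ => 1 + (L.p : Ω) ^ (k₀ + k') := by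
      intro k₁ k₂ hk
      have h1 := lfe_pow L (add_left_cancel hk)
      omega
    refine (Set.infinite_range_of_injective hinj).mono ?_
    rintro _ ⟨k', rfl⟩
    refine ⟨add_mem (one_mem _) (lfe_pm L n (k₀ + k')), ?_⟩
    rw [add_sub_cancel_left]
    exact (lfe_le L k₀ k').trans hk₀.le
  refine hom_of (Z := lfe_z L n k₀ c₀)
    (fun q hq => lfe_dens (fun l => (hc₀.iv hX l).1) q hq) hU fun c hcZ s hs => ?_
  have hg : Ge L X i n c := hc₀.disc hX hcZ.1 fun r => (hcZ.2 r).trans hk₀.le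
  have hξ : ∀ l', (Pi.single l 1 : Fin (d + 1) → Ω) l' ∈ L.Ur ⊥ n := fun l' => by
    by_cases hl : l' = l
    · rw [hl, Pi.single_eq_same]
      exact one_mem _
    · rw [Pi.single_eq_of_ne hl]
      exact zero_mem _
  have e1 := hP i j hj c (Pi.single l 1) hg hξ
  have e2 := hP i j hj (s • c) (s • (Pi.single l 1 : Fin (d + 1) → Ω))
    (hg.smul hX hs.1 hs.2).2.1 fun l' => mul_mem hs.1 (hξ l')
  have e3 := pq_hom (hB := hB) hX hf hT hn hg hξ ⟨s, hs.1⟩ hs.2 j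
  have e4 : Pq hB T (X.ψ i) n j (s • c) (s • (Pi.single l 1 : Fin (d + 1) → Ω)) =
      (⟨s, hs.1⟩ : ↥(L.Ur ⊥ n)) ^ j • Pq hB T (X.ψ i) n j c (Pi.single l 1) := e3
  rw [e4, map_smul, smul_eq_mul, MulMemClass.coe_mul, SubmonoidClass.coe_pow, ← e1] at e2
  rw [Finset.sum_eq_single l, Finset.sum_eq_single l] at e2
  · rw [Pi.smul_apply, Pi.single_eq_same, mul_one, smul_eq_mul, mul_one] at e2
    rw [e2, Nat.sub_add_cancel hj0]
  · intro l' _ hl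
    rw [Pi.single_eq_of_ne hl, mul_zero]
  · intro hl
    exact absurd (Finset.mem_univ l) hl
  · intro l' _ hl
    rw [Pi.smul_apply, Pi.single_eq_of_ne hl, smul_zero, mul_zero]
  · intro hl
    exact absurd (Finset.mem_univ l) hl

/-- The value of the form, coordinates up to a factor. Proof: `x' = s⁻¹ • x`, `t' = s⁻¹ • t`, `u (x') = c`; `Ge.uv`, `Ge.xe` for `x'`; `pq_ev` for `x'`, `t'`; `Prj.ev_hom`, `gy_smul`, `phe_hom`. -/
theorem pq_evs (hX : X.Ok L) (hf : Hm f) (hT : Tpe L X r na T C) (hn : N0 r n)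
    (θ : Hn L hB n →ₗ[↥(L.Ur ⊥ n)] ↥(L.Ur ⊥ n)) {P : Pv Ω m d} (h4 : ∀ i l, P i 0 l = 0)
    (h5 : ∀ i j l, ((X.ψ i).om Ω).G.natDegree ≤ j → P i j l = 0)
    (hP : ∀ i j, j < ((X.ψ i).om Ω).G.natDegree → ∀ c ξ, Ge L X i n c →
      (∀ l, ξ l ∈ L.Ur ⊥ n) →
        ∑ l, MvPolynomial.eval c (P i j l) * ξ l = (θ (Pq hB T (X.ψ i) n j c ξ) : Ω))
    {x t : Fin N → Ω} (hx : Xe L X n x) (ht : Tn' f L n x t) {i : Fin m}
    {c : Fin (d + 1) → Ω} (hc : Ge L X i n c) {s : Ω} (hs : s ∈ L.Ur ⊥ n) (hs0 : s ≠ 0)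
    (hu : (X.ψ i).uv x = s • c) :
    MvPolynomial.eval (((X.ψ i).om Ω).uv x) ((X.ψ i).om Ω).D ≠ 0 ∧
      ((X.ψ i).om Ω).ev (P i) x t = ((X.ψ i).om Ω).gy x * (θ (ph hB T n x t) : Ω) := by
  have hsi : s⁻¹ ∈ L.Ur ⊥ n := inv_mem hs
  have hsi0 : s⁻¹ ≠ 0 := inv_ne_zero hs0
  have hux : (X.ψ i).uv (s⁻¹ • x) = c := by
    rw [uv_smul, hu, smul_smul, inv_mul_cancel₀ hs0, one_smul]
  have hc' : Ge L X i n ((X.ψ i).uv (s⁻¹ • x)) := by
    rw [hux]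
    exact hc
  obtain ⟨g1, g2, g3⟩ := hc'.uv hX (zp_smul (om_hom hf) (hx.zp hX) hsi0)
  have hx' : Xe L X n (s⁻¹ • x) := by
    have h1 := hc'.xe hX g1
    rwa [g2] at h1
  have e1 := pq_ev (hB := hB) hX hT hn θ hP (ht.hom hf hsi hsi0) hc'
  rw [phe_hom hB hX hf hT hn hx ht hsi hx', Prj.ev_hom (hX.pk i).ok
    (fun j r => pq_homg hX hf hT hn θ h4 h5 hP hc j r) (h4 i) x t s⁻¹] at e1
  have e2 : ((X.ψ i).om Ω).gy (s⁻¹ • x) = s⁻¹ ^ (((X.ψ i).om Ω).G.natDegree - 1) *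
      ((X.ψ i).om Ω).gy x := by
    rw [Prj.gy, Prj.gy, uv_smul, yv_smul, gy_smul ((X.ψ i).om Ω) (hX.pk i).ok.homG]
  rw [e2, mul_assoc] at e1
  refine ⟨?_, mul_left_cancel₀ (pow_ne_zero _ hsi0) e1⟩
  obtain ⟨e, -, he⟩ := (hX.pk i).ok.homD
  rw [om_uv, hu]
  have h1 : MvPolynomial.eval (s • c) ((X.ψ i).om Ω).D =
      s ^ e * MvPolynomial.eval c ((X.ψ i).om Ω).D := aeval_smul_hom he c s
  rw [h1]
  exact mul_ne_zero (pow_ne_zero _ hs0) (hc.dne hX)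

/-- **Linear forms of the functionals are global forms.** Proof: `exists_pq`; `frm_of` for the equations `fo f Ω`, the projections `(X.ψ i).om Ω` (`Pk.ok`), `Z i` = the `c'` over `Ur ⊥ n` with `nm (c' l - γ l) ≤ nm p ^ k` (`Bd.Gl.near`; dense as `lcf_dens` in Lc/F), `Φ x t = θ (ph n x t)`; `h1`: `Ge.xe`,
`Ge.tn` (`j = 0`), `Bd.Gl.near`, `pq_evs`; `h2`: `pq_ev` with `u (pt c w) = c`, `phe_rad`; `U` = the `s ∈ Ur ⊥ n` with `nm (s - 1) ≤ nm ϖ`; `h3`: `pq_homg` (or `pq_hom`). Then for `x = xx b h`: `c = cc b h = u (x)`, `i = X.i b`, `pq_ev`, `gy ≠ 0`. As `frm_th` in Lc/F. -/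
theorem frm_e (hX : X.Ok L) (hf : Hm f)
    (hcov : ∀ x, Zp (fo f Ω) x → ∃ i, MvPolynomial.eval (((X.ψ i).om Ω).uv x) ((X.ψ i).om Ω).D ≠ 0)
    (hG : X.Gl L) (hT : Tpe L X r na T C) (hK : PL.DnK L) (hn : N0 r n)
    (θ : Hn L hB n →ₗ[↥(L.Ur ⊥ n)] ↥(L.Ur ⊥ n)) :
    ∃ ℓ, Frm (fo f Ω) ℓ ∧ ∀ x t, Xe L X n x → Tn' f L n x t →
      ℓ x t = (θ (ph hB T n x t) : Ω) := by
  classical
  have hac : IsAlgClosed Ω := IsAlgClosure.isAlgClosed K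
  obtain ⟨P, h4, h5, hP⟩ := exists_pq hX hT hK hn θ
  obtain ⟨k, hk⟩ := Bd.Gl.near hX hG
  choose γ hγ hnr using hk
  have hγn : ∀ i l, γ i l ∈ L.Ur ⊥ n := fun i l =>
    (bot_le : (⊥ : IntermediateField K Ω) ≤ L.Ur ⊥ n) (hγ i l).1
  have hge : ∀ i, ∀ c ∈ lfe_z L n k (γ i), Ge L X i n c := fun i c hcZ =>
    (hnr i n hn.1 c hcZ.1 hcZ.2).1
  have hrt : ∀ i, ∀ c ∈ lfe_z L n k (γ i), ∀ w, pe c w ((X.ψ i).om Ω).G = 0 →
      w ∈ GX.rt (X.ψ i) c := by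
    intro i c hcZ w hw
    rw [om_G] at hw
    exact (mem_rte hX).2 hw
  have hev : ∀ i i', ∀ c ∈ lfe_z L n k (γ i), ∀ w, pe c w ((X.ψ i).om Ω).G = 0 →
      ∀ t, Tn' f L n (((X.ψ i).om Ω).pt c w) t →
        MvPolynomial.eval (((X.ψ i').om Ω).uv (((X.ψ i).om Ω).pt c w)) ((X.ψ i').om Ω).D ≠ 0 ∧
          ((X.ψ i').om Ω).ev (P i') (((X.ψ i).om Ω).pt c w) t =
            ((X.ψ i').om Ω).gy (((X.ψ i).om Ω).pt c w) *
              (θ (ph hB T n (((X.ψ i).om Ω).pt c w) t) : Ω) := by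
    intro i i' c hcZ w hw t ht
    have hwm := hrt i c hcZ w hw
    obtain ⟨s, c'', hs, hs0, hge', hu⟩ := (hnr i n hn.1 c hcZ.1 hcZ.2).2 w hwm i'
    exact pq_evs hX hf hT hn θ h4 h5 hP ((hge i c hcZ).xe hX hwm) ht hge' hs hs0 hu
  have hU : {s : Ω | s ∈ L.Ur ⊥ n ∧ L.nm (s - 1) ≤ L.nm X.ϖ}.Infinite := by
    obtain ⟨k₀, hk₀⟩ := exists_pow_lt_of_lt_one hX.ϖ0 L.lt
    have hinj : Function.Injective fun k' : ℕ => 1 + (L.p : Ω) ^ (k₀ + k') := by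
      intro k₁ k₂ hk
      have h1 := lfe_pow L (add_left_cancel hk)
      omega
    refine (Set.infinite_range_of_injective hinj).mono ?_
    rintro _ ⟨k', rfl⟩
    refine ⟨add_mem (one_mem _) (lfe_pm L n (k₀ + k')), ?_⟩
    rw [add_sub_cancel_left]
    exact (lfe_le L k₀ k').trans hk₀.le
  obtain ⟨ℓ, hℓ, hev'⟩ := frm_of (f := fo f Ω) (ψ := fun i => (X.ψ i).om Ω) (P := P)
    (Z := fun i => lfe_z L n k (γ i)) (Φ := fun x t => (θ (ph hB T n x t) : Ω)) (om_hom hf)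
    (fun i => (hX.pk i).ok) hcov
    (fun i q hq => lfe_dens (hγn i) q hq)
    (fun i c hcZ => (hge i c hcZ).dne hX)
    (fun i i' c hcZ w hw => by
      have hwm := hrt i c hcZ w hw
      have hx : Xe L X n (((X.ψ i).om Ω).pt c w) := (hge i c hcZ).xe hX hwm
      have h6 := hx.rad hX hf (one_mem (L.Ur ⊥ n))
      refine ⟨(hev i i' c hcZ w hw _ h6).1, fun l => ?_⟩
      have hξ : ∀ l', (Pi.single l 1 : Fin (d + 1) → Ω) l' ∈ L.Ur ⊥ n := fun l' => by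
        by_cases hl : l' = l
        · rw [hl, Pi.single_eq_same]
          exact one_mem _
        · rw [Pi.single_eq_of_ne hl]
          exact zero_mem _
      have h7 := (hge i c hcZ).tn hX hwm hξ 0
      rw [pow_zero, one_smul] at h7
      exact (hev i i' c hcZ w hw _ h7).2)
    (fun i c hcZ w hw => by
      have hwm := hrt i c hcZ w hw
      have hx : Xe L X n (((X.ψ i).om Ω).pt c w) := (hge i c hcZ).xe hX hwm
      have h6 := hx.rad hX hf (one_mem (L.Ur ⊥ n))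
      have h7 := phe_rad hB hX hf hT hn hx (one_mem (L.Ur ⊥ n))
      rw [one_smul] at h6 h7
      rw [(hev i i c hcZ w hw _ h6).2, h7, map_zero, ZeroMemClass.coe_zero, mul_zero])
    hU
    (fun i j l c hcZ s hs => by
      rcases Nat.eq_zero_or_pos j with rfl | hj
      · rw [h4 i l, map_zero, map_zero, zero_mul, mul_zero]
      · have h6 := pq_homg hX hf hT hn θ h4 h5 hP (hge i c hcZ) j l
        have h7 : MvPolynomial.eval (s • c) (P i j l) =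
            s ^ (j - 1) * MvPolynomial.eval c (P i j l) := aeval_smul_hom h6 c s
        obtain ⟨j', rfl⟩ : ∃ j', j = j' + 1 := ⟨j - 1, by omega⟩
        rw [h7, Nat.add_sub_cancel, pow_succ]
        ring)
    h4 h5
  refine ⟨ℓ, hℓ, fun x t hx ht => ?_⟩
  obtain ⟨b, h, hh, rfl⟩ := hx
  obtain ⟨e1, e2, e3, e4⟩ := hX.xx_zp b fun r => (hh r).2
  have hc : Ge L X (X.i b) n ((X.ψ (X.i b)).uv (X.xx L b h)) := by
    rw [e3]
    exact ⟨b, h, rfl, hh, rfl⟩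
  have hD1 : MvPolynomial.eval (((X.ψ (X.i b)).om Ω).uv (X.xx L b h))
      ((X.ψ (X.i b)).om Ω).D ≠ 0 := by
    rw [om_uv]
    exact hc.dne hX
  have h6 := hev' (X.i b) (X.xx L b h) t ht.tg hD1
  have h7 := pq_ev hX hT hn θ hP ht hc
  have hgy : ((X.ψ (X.i b)).om Ω).gy (X.xx L b h) ≠ 0 := (hX.pk (X.i b)).ok.gy_ne (by
    change pe (((X.ψ (X.i b)).om Ω).uv (X.xx L b h)) (((X.ψ (X.i b)).om Ω).yv (X.xx L b h))
      ((X.ψ (X.i b)).om Ω).G = 0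
    rw [om_uv, om_yv, om_G, e3, e4]
    exact hX.rt_root b fun r => (hh r).2) hD1
  exact mul_left_cancel₀ hgy (h6.symm.trans h7)

end GX
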