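import Pool.Agent.Lib.MP_f80667_ag.Ep.Lf
import Pool.Agent.Lib.MP_f80667_ag.Lc.G
import Pool.Agent.Lib.MP_f80667_ag.Lc.Sb

/-!
The functionals are linear in the values of the forms; a basis of the values of the forms; the derivative and the traces.

* `Bse M X n g x t b Bm`: `b α` are the values of the forms at the points `x α`, `t α` over `Ur ⊥ n`, and `b' = ∑ α, (Bm b') α • b α` for all values `b'` over the fields `Ur ⊥ n'`, `n ∣ n'`.
-/

open ZC BE PE CV IntermediateField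

namespace GX

variable {F : Type} [Field F] {N N' k k' d m : ℕ} {ι ι' : Type} {f : ι → MvPolynomial (Fin N) F}
  {A : Gv F N' k' ι'} {M : Mf f A k}
  {K Ω : Type} [Field K] [CharZero K] [Field Ω] [Algebra K Ω] [Algebra F K] [Algebra F Ω]
  [IsScalarTower F K Ω] [IsAlgClosure K Ω] {L : Ld K Ω} {X : Bd f K Ω d m} {π : Ω} {r n : ℕ}
  {B : Type} [AddCommGroup B] [Module ℚ B] {na : B → ℝ}
  {C : ℝ} {T : ℕ → (Fin N → Ω) → (Fin N → Ω) → B} {hB : Bn L.p (L.nm (L.p : Ω)) na}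

/-- Proof: as `wv_ex` in Lc/G (only `x ≠ 0` and the equations are used there; here `om_zp`). -/
theorem wve_ex (hA : A.Ok) (hM : M.Ok) {x : Fin N → Ω} (hx : Zp (fo f Ω) x)
    (t : Fin N → Ω) : ∃ b, Wv M x t b := by
  let _ : AddCommGroup ((Xf A.a).pt Ω) := A.G.grp Ω
  obtain ⟨hx0, hxz⟩ := om_zp.1 hx
  obtain ⟨P, hP⟩ : ∃ P : (Xf f).pt Ω, Co P x := co_mk hx0 hxz
  obtain ⟨i, hi⟩ := hM.ne Ω P x hP
  have hy := hM.co Ω P x i hP hi
  obtain ⟨s, hs⟩ : ∃ s, M.pv i x s ≠ 0 := by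
    by_contra hc
    push Not at hc
    exact hi (funext hc)
  obtain ⟨i', hi'⟩ := hA.ne Ω _ _ _ _ hy hy
  have h1 : algebraMap F Ω (A.o A.j₀) = 1 := by rw [hA.o1, map_one]
  have e1 := hA.mv_eq (R := (0 : (Xf A.a).pt Ω)) hy hy (zero_add _) hi' (hA.co_zero Ω) h1
  have hc : A.mv i' (M.pv i x) (M.pv i x) A.j₀ ≠ 0 := by
    intro h0
    refine hi' (funext fun j => ?_)
    rw [e1 j, h0, zero_mul, Pi.zero_apply]
  obtain ⟨j, hj⟩ := dec3_surj i s i'
  have hcj : MvPolynomial.aeval x (M.om.c j) ≠ 0 := by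
    rw [om_c_eq, hj]
    exact mul_ne_zero hs hc
  exact ⟨fun l => (∑ s, MvPolynomial.aeval x (M.om.q j l s) * t s) /
    MvPolynomial.aeval x (M.om.c j), j, hcj, fun l => mul_div_cancel₀ _ hcj⟩

omit [CharZero K] [IsAlgClosure K Ω] in
private theorem wve_aev {M : IntermediateField K Ω} (P : MvPolynomial (Fin N) F) {x : Fin N → Ω}
    (hc : ∀ r, x r ∈ M) : MvPolynomial.aeval x P ∈ M := by
  rw [MvPolynomial.aeval_def, MvPolynomial.eval₂_eq]
  refine sum_mem fun e _ => mul_mem ?_ (prod_mem fun i _ => pow_mem (hc i) _)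
  rw [IsScalarTower.algebraMap_apply F K Ω]
  exact IntermediateField.algebraMap_mem M _

/-- Proof: the coefficients are in `F`; as `wv_mem`. -/
theorem wve_mem {x t : Fin N → Ω} {b : Fin N' → Ω} (hx : ∀ s, x s ∈ L.Ur ⊥ n)
    (ht : ∀ s, t s ∈ L.Ur ⊥ n) (h : Wv M x t b) : ∀ l, b l ∈ L.Ur ⊥ n := by
  obtain ⟨j, hj, hl⟩ := h
  have hm : ∀ P : MvPolynomial (Fin N) F,
      MvPolynomial.aeval x P ∈ L.Ur (⊥ : IntermediateField K Ω) n :=
    fun P => wve_aev P hx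
  intro l
  have e : b l = (∑ s, MvPolynomial.aeval x (M.om.q j l s) * t s) /
      MvPolynomial.aeval x (M.om.c j) := by
    rw [eq_div_iff hj, ← hl l, mul_comm]
  rw [e]
  exact div_mem (sum_mem fun s _ => mul_mem (hm _) (ht s)) (hm _)

private theorem ge_lin0 {E H W I : Type} [Field E] [AddCommGroup H] [Module E H]
    [AddCommGroup W] [Module E W] (b : I → W) (h : I → H)
    (hr : ∀ c : I →₀ E, Finsupp.linearCombination E b c = 0 →
      Finsupp.linearCombination E h c = 0) :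
    ∃ g : W →ₗ[E] H, ∀ i, h i = g (b i) := by
  obtain ⟨s, hs⟩ := (Finsupp.linearCombination E b).rangeRestrict.exists_rightInverse_of_surjective
    (LinearMap.range_rangeRestrict _)
  obtain ⟨g, hg⟩ := LinearMap.exists_extend ((Finsupp.linearCombination E h).comp s)
  refine ⟨g, fun i => ?_⟩
  have h0 : Finsupp.linearCombination E b (Finsupp.single i 1) = b i := by
    rw [Finsupp.linearCombination_single, one_smul]
  have hm : b i ∈ LinearMap.range (Finsupp.linearCombination E b) := ⟨_, h0⟩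
  have h1 : g (b i) = Finsupp.linearCombination E h (s ⟨b i, hm⟩) := by
    have := LinearMap.congr_fun hg ⟨b i, hm⟩
    exact this
  have h2 : Finsupp.linearCombination E b (s ⟨b i, hm⟩) = b i := by
    have := LinearMap.congr_fun hs ⟨b i, hm⟩
    exact congrArg Subtype.val this
  have h3 := hr (Finsupp.single i 1 - s ⟨b i, hm⟩) (by rw [map_sub, h0, h2, sub_self])
  rw [map_sub, Finsupp.linearCombination_single, one_smul, sub_eq_zero] at h3
  rw [h1, h3]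

private theorem ge_lin {E H Ω I : Type} [Field E] [Field Ω] [AddCommGroup H] [Module E H] {N' : ℕ}
    (j : E →+* Ω) (b : I → Fin N' → E) (h : I → H)
    (hθ : ∀ θ : H →ₗ[E] E, ∃ η : Fin N' → Ω, ∀ i, j (θ (h i)) = ∑ l, η l * j (b i l)) :
    ∃ g : (Fin N' → E) →ₗ[E] H, ∀ i, h i = g (b i) := by
  refine ge_lin0 b h fun c hc => ?_
  rw [← Module.forall_dual_apply_eq_zero_iff E]
  intro θ
  obtain ⟨η, hη⟩ := hθ θ
  refine j.injective ?_
  rw [map_zero, Finsupp.linearCombination_apply, Finsupp.sum, map_sum, map_sum]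
  rw [Finsupp.linearCombination_apply, Finsupp.sum] at hc
  have h1 : ∀ i ∈ c.support, j (θ (c i • h i)) = ∑ l, η l * j (c i * b i l) := by
    intro i _
    rw [map_smul, smul_eq_mul, map_mul, hη, Finset.mul_sum]
    refine Finset.sum_congr rfl fun l _ => ?_
    rw [map_mul]
    ring
  rw [Finset.sum_congr rfl h1, Finset.sum_comm]
  refine Finset.sum_eq_zero fun l _ => ?_
  rw [← Finset.mul_sum, ← map_sum]
  have h2 := congrFun hc l
  rw [Finset.sum_apply] at h2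
  have h3 : ∑ i ∈ c.support, c i * b i l = 0 := h2
  rw [h3, map_zero, mul_zero]

/-- **The functionals are linear in the values of the forms.** Proof: copy of `exists_g` in Lc/G (`g_lin0`, `g_lin` are private there: copy them). -/
theorem exists_ge (hAl : M.Alb Ω) (hfrm : ∀ θ : Hn L hB n →ₗ[↥(L.Ur ⊥ n)] ↥(L.Ur ⊥ n),
      ∃ ℓ, Frm (fo f Ω) ℓ ∧ ∀ x t, Xe L X n x → Tn' f L n x t →
        ℓ x t = (θ (ph hB T n x t) : Ω)) :
    ∃ g : (Fin N' → ↥(L.Ur ⊥ n)) →ₗ[↥(L.Ur ⊥ n)] Hn L hB n,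
      ∀ x t (b : Fin N' → ↥(L.Ur ⊥ n)), Xe L X n x → Tn' f L n x t →
        Wv M x t (fun l => (b l : Ω)) → ph hB T n x t = g b := by
  have key := ge_lin (I := {p : (Fin N → Ω) × (Fin N → Ω) × (Fin N' → ↥(L.Ur ⊥ n)) //
      Xe L X n p.1 ∧ Tn' f L n p.1 p.2.1 ∧ Wv M p.1 p.2.1 (fun l => (p.2.2 l : Ω))})
    (algebraMap ↥(L.Ur ⊥ n) Ω) (fun p => p.1.2.2) (fun p => ph hB T n p.1.1 p.1.2.1) (fun θ => by
      obtain ⟨ℓ, hℓ, h1⟩ := hfrm θ
      obtain ⟨η, hη⟩ := alb_wv hAl hℓ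
      exact ⟨η, fun p => (h1 _ _ p.2.1 p.2.2.1).symm.trans (hη _ _ _ p.2.2.1.tg p.2.2.2)⟩)
  obtain ⟨g, hg⟩ := key
  exact ⟨g, fun x t b hx ht hw => hg ⟨(x, t, b), hx, ht, hw⟩⟩

/-- A basis of the values of the forms. -/
structure Bse (M : Mf f A k) (L : Ld K Ω) (X : Bd f K Ω d m) (n g : ℕ)
    (x t : Fin g → Fin N → Ω) (b : Fin g → Fin N' → Ω) (Bm : Fin g → Fin N' → Ω) : Prop where
  hx : ∀ α, Xe L X n (x α)
  ht : ∀ α, Tn' f L n (x α) (t α)
  hb : ∀ α, Wv M (x α) (t α) (b α)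
  mem : ∀ α l, Bm α l ∈ L.Ur ⊥ n
  bas : ∀ n' x' t' b', n ∣ n' → n' ≠ 0 → Xe L X n' x' → Tn' f L n' x' t' → Wv M x' t' b' →
    b' = ∑ α, (∑ l, Bm α l * b' l) • b α

private theorem bse_lin {Ω : Type} [Field Ω] {N' : ℕ} (W : Set (Fin N' → Ω)) :
    ∃ (g : ℕ) (b : Fin g → Fin N' → Ω), (∀ α, b α ∈ W) ∧ LinearIndependent Ω b ∧
      ∀ w ∈ W, w ∈ Submodule.span Ω (Set.range b) := by
  obtain ⟨s, hs, hsp, hli⟩ := exists_linearIndependent Ω W
  have : Finite s := hli.finite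
  obtain ⟨g, ⟨e⟩⟩ := Finite.exists_equiv_fin s
  refine ⟨g, fun α => ((e.symm α : s) : Fin N' → Ω), fun α => hs (e.symm α).2,
    hli.comp _ e.symm.injective, fun w hw => ?_⟩
  have h1 : w ∈ Submodule.span Ω s := by
    rw [hsp]
    exact Submodule.subset_span hw
  have h2 : Set.range (fun α => ((e.symm α : s) : Fin N' → Ω)) = s := by
    ext v
    constructor
    · rintro ⟨α, rfl⟩
      exact (e.symm α).2
    · intro hv
      exact ⟨e ⟨v, hv⟩, by
        change ((e.symm (e ⟨v, hv⟩) : s) : Fin N' → Ω) = v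
        rw [e.symm_apply_apply]⟩
  rw [h2]
  exact h1

private theorem bse_dual {E Ω : Type} [Field E] [Field Ω] {N' g : ℕ} (j : E →+* Ω)
    (b₀ : Fin g → Fin N' → E) (hli : LinearIndependent Ω fun α l => j (b₀ α l)) :
    ∃ Bm : Fin g → Fin N' → E, ∀ α β, ∑ l, Bm α l * b₀ β l = if α = β then 1 else 0 := by
  classical
  have h0 : LinearIndependent E b₀ := by
    rw [Fintype.linearIndependent_iff] at hli ⊢
    intro c hc α
    have h1 := hli (fun α => j (c α)) (by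
      ext l
      have h2 := congrFun hc l
      rw [Finset.sum_apply] at h2 ⊢
      have h3 := congrArg j h2
      rw [map_sum] at h3
      refine (Finset.sum_congr rfl fun β _ => ?_).trans (h3.trans (map_zero j))
      change j (c β) * j (b₀ β l) = j (c β * b₀ β l)
      rw [map_mul]) α
    exact (map_eq_zero j).1 h1
  have h1 : LinearMap.ker (Fintype.linearCombination E b₀) = ⊥ := by
    refine LinearMap.ker_eq_bot'.2 fun c hc => ?_
    rw [Fintype.linearCombination_apply] at hc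
    exact funext (Fintype.linearIndependent_iff.1 h0 c hc)
  obtain ⟨s, hs⟩ := (Fintype.linearCombination E b₀).exists_leftInverse_of_injective h1
  refine ⟨fun α l => s (Pi.single l 1) α, fun α β => ?_⟩
  have h2 : s (b₀ β) = Pi.single β 1 := by
    have h3 := LinearMap.congr_fun hs (Pi.single β 1)
    have h4 : Fintype.linearCombination E b₀ (Pi.single β 1) = b₀ β := by
      rw [Fintype.linearCombination_apply, Finset.sum_eq_single β]
      · rw [Pi.single_eq_same, one_smul]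
      · intro γ _ hγ
        rw [Pi.single_eq_of_ne hγ, zero_smul]
      · intro h
        exact absurd (Finset.mem_univ _) h
    have h5 : s (Fintype.linearCombination E b₀ (Pi.single β 1)) = Pi.single β 1 := h3
    rw [h4] at h5
    exact h5
  have h3 : b₀ β = ∑ l, b₀ β l • (Pi.single l 1 : Fin N' → E) := by
    ext i
    rw [Finset.sum_apply, Finset.sum_eq_single i]
    · rw [Pi.smul_apply, Pi.single_eq_same, smul_eq_mul, mul_one]
    · intro l _ hl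
      rw [Pi.smul_apply, Pi.single_eq_of_ne hl.symm, smul_zero]
    · intro h
      exact absurd (Finset.mem_univ _) h
  have h4 : s (b₀ β) α = ∑ l, s (Pi.single l 1) α * b₀ β l := by
    conv_lhs => rw [h3]
    rw [map_sum, Finset.sum_apply]
    refine Finset.sum_congr rfl fun l _ => ?_
    rw [map_smul, Pi.smul_apply, smul_eq_mul, mul_comm]
  rw [← h4, h2, Pi.single_apply]

private theorem bse_exp {Ω : Type} [Field Ω] {N' g : ℕ} {b Bm : Fin g → Fin N' → Ω}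
    (h : ∀ α β, ∑ l, Bm α l * b β l = if α = β then 1 else 0) {w : Fin N' → Ω}
    (hw : w ∈ Submodule.span Ω (Set.range b)) : w = ∑ α, (∑ l, Bm α l * w l) • b α := by
  obtain ⟨c, hc⟩ := (Submodule.mem_span_range_iff_exists_fun Ω).1 hw
  have h1 : ∀ α, ∑ l, Bm α l * w l = c α := by
    intro α
    rw [← hc]
    have h2 : ∀ l, Bm α l * (∑ β, c β • b β) l = ∑ β, c β * (Bm α l * b β l) := by
      intro l
      rw [Finset.sum_apply, Finset.mul_sum]
      refine Finset.sum_congr rfl fun β _ => ?_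
      rw [Pi.smul_apply, smul_eq_mul]
      ring
    rw [Finset.sum_congr rfl fun l _ => h2 l, Finset.sum_comm]
    have h3 : ∀ β, ∑ l, c β * (Bm α l * b β l) = c β * if α = β then 1 else 0 := by
      intro β
      rw [← Finset.mul_sum, h]
    rw [Finset.sum_congr rfl fun β _ => h3 β]
    simp
  rw [Finset.sum_congr rfl fun α _ => by rw [h1 α], hc]

/-- Proof: copy of `exists_bs` in Lc/Sa (with its private lemmas `bs_lin`, `bs_dual`, `bs_exp`; do not import Lc/Sa: name clash `Bs`). -/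
theorem exists_bse (hX : X.Ok L) (M : Mf f A k) {n₀ : ℕ} (hn : N0 r n₀) :
    ∃ n, N0 r n ∧ n₀ ∣ n ∧ ∃ (g : ℕ) (x t : Fin g → Fin N → Ω) (b Bm : Fin g → Fin N' → Ω),
      Bse M L X n g x t b Bm := by
  classical
  obtain ⟨g, b, hb, hli, hsp⟩ := bse_lin {b' : Fin N' → Ω | ∃ (n' : ℕ) (x' t' : Fin N → Ω),
    n₀ ∣ n' ∧ n' ≠ 0 ∧ Xe L X n' x' ∧ Tn' f L n' x' t' ∧ Wv M x' t' b'}
  choose ν x t h1 h2 h3 h4 h5 using hb
  have hn0 : n₀ * ∏ α, ν α ≠ 0 := mul_ne_zero hn.1 (Finset.prod_ne_zero_iff.2 fun α _ => h2 α)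
  have hd : n₀ ∣ n₀ * ∏ α, ν α := dvd_mul_right _ _
  have hν : ∀ α, ν α ∣ n₀ * ∏ α, ν α := fun α =>
    (Finset.dvd_prod_of_mem ν (Finset.mem_univ α)).trans (dvd_mul_left _ _)
  have hmem : ∀ α l, b α l ∈ L.Ur ⊥ (n₀ * ∏ α, ν α) := fun α =>
    wve_mem (((h3 α).mono (hν α)).mem hX) ((h4 α).mono (hν α)).mem (h5 α)
  obtain ⟨Bm, hBm⟩ := bse_dual (algebraMap ↥(L.Ur ⊥ (n₀ * ∏ α, ν α)) Ω)
    (fun α l => ⟨b α l, hmem α l⟩) hli
  have hBm' : ∀ α β, ∑ l, (Bm α l : Ω) * b β l = if α = β then 1 else 0 := by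
    intro α β
    have h6 := congrArg (algebraMap ↥(L.Ur ⊥ (n₀ * ∏ α, ν α)) Ω) (hBm α β)
    rw [map_sum] at h6
    refine (Finset.sum_congr rfl fun l _ => ?_).trans (h6.trans ?_)
    · rw [map_mul]
      rfl
    · split_ifs
      · exact map_one _
      · exact map_zero _
  refine ⟨n₀ * ∏ α, ν α, ⟨hn0, hn.2.trans hd⟩, hd, g, x, t, b, fun α l => (Bm α l : Ω),
    ⟨fun α => (h3 α).mono (hν α), fun α => (h4 α).mono (hν α), h5, fun α l => (Bm α l).2,
      fun n' x' t' b' hnn hn' hx' ht' hb' => ?_⟩⟩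
  exact bse_exp hBm' (hsp b' ⟨n', x', t', hd.trans hnn, hn', hx', ht', hb'⟩)

/-- Proof: copy of `bs_val` in Lc/Sa. -/
theorem bse_val (hX : X.Ok L) {g : ℕ} {x t : Fin g → Fin N → Ω} {b Bm : Fin g → Fin N' → Ω}
    (hs : Bse M L X n g x t b Bm) (hT : Tpe L X r na T C) (hn : N0 r n) {n' : ℕ}
    (hnn : n ∣ n') (hn' : n' ≠ 0)
    (hg : ∃ G : (Fin N' → ↥(L.Ur ⊥ n')) →ₗ[↥(L.Ur ⊥ n')] Hn L hB n',
      ∀ x t (b : Fin N' → ↥(L.Ur ⊥ n')), Xe L X n' x → Tn' f L n' x t →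
        Wv M x t (fun l => (b l : Ω)) → ph hB T n' x t = G b)
    {x' t' : Fin N → Ω} {b' : Fin N' → Ω} (hx' : Xe L X n' x') (ht' : Tn' f L n' x' t')
    (hb' : Wv M x' t' b') :
    T n' x' t' = ∑ α, T n' (x α) ((∑ l, Bm α l * b' l) • t α) := by
  have hN : N0 r n' := ⟨hn', hn.2.trans hnn⟩
  obtain ⟨G, hG⟩ := hg
  have hxα : ∀ α, Xe L X n' (x α) := fun α => (hs.hx α).mono hnn
  have htα : ∀ α, Tn' f L n' (x α) (t α) := fun α => (hs.ht α).mono hnn
  have hbα : ∀ α l, b α l ∈ L.Ur ⊥ n' := fun α => wve_mem ((hxα α).mem hX) (htα α).mem (hs.hb α)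
  have hb'm : ∀ l, b' l ∈ L.Ur ⊥ n' := wve_mem (hx'.mem hX) ht'.mem hb'
  have hBm : ∀ α l, Bm α l ∈ L.Ur ⊥ n' := fun α l => Ld.ur_dvd ⊥ hnn (hs.mem α l)
  have hκ : ∀ α, (∑ l, Bm α l * b' l) ∈ L.Ur ⊥ n' := fun α =>
    sum_mem fun l _ => mul_mem (hBm α l) (hb'm l)
  obtain ⟨κ, hκ1⟩ : ∃ κ : Fin g → ↥(L.Ur ⊥ n'), ∀ α, (κ α : Ω) = ∑ l, Bm α l * b' l :=
    ⟨fun α => ⟨_, hκ α⟩, fun α => rfl⟩
  obtain ⟨β, hβ⟩ : ∃ β : Fin g → Fin N' → ↥(L.Ur ⊥ n'), ∀ α l, (β α l : Ω) = b α l :=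
    ⟨fun α l => ⟨b α l, hbα α l⟩, fun α l => rfl⟩
  obtain ⟨β', hβ'⟩ : ∃ β' : Fin N' → ↥(L.Ur ⊥ n'), ∀ l, (β' l : Ω) = b' l :=
    ⟨fun l => ⟨b' l, hb'm l⟩, fun l => rfl⟩
  have e1 : β' = ∑ α, κ α • β α := by
    funext l
    apply Subtype.ext
    have h1 := congrFun (hs.bas n' x' t' b' hnn hn' hx' ht' hb') l
    rw [Finset.sum_apply] at h1
    rw [Finset.sum_apply, AddSubmonoidClass.coe_finsetSum, hβ', h1]
    refine Finset.sum_congr rfl fun α _ => ?_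
    rw [Pi.smul_apply, Pi.smul_apply, smul_eq_mul, smul_eq_mul, MulMemClass.coe_mul, hκ1, hβ]
  have e2 : ph hB T n' x' t' = G β' := hG x' t' β' hx' ht' (by
    have : (fun l => (β' l : Ω)) = b' := funext hβ'
    rw [this]
    exact hb')
  have e3 : ∀ α, ph hB T n' (x α) (t α) = G (β α) := fun α =>
    hG (x α) (t α) (β α) (hxα α) (htα α) (by
      have : (fun l => (β α l : Ω)) = b α := funext (hβ α)
      rw [this]
      exact hs.hb α)
  have e4 : ph hB T n' x' t' = ∑ α, κ α • ph hB T n' (x α) (t α) := by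
    rw [e2, e1, map_sum]
    refine Finset.sum_congr rfl fun α _ => ?_
    rw [map_smul, e3]
  have e5 : T n' x' t' = (ph hB T n' x' t').f 1 := by
    rw [phe_f hB hT hN hx' ht' 1, OneMemClass.coe_one, one_smul]
  rw [e5, e4, HM.sum_f]
  refine Finset.sum_congr rfl fun α _ => ?_
  rw [HM.smul_f, mul_one, phe_f hB hT hN (hxα α) (htα α), hκ1]

private theorem lg_rank (hr : L.Rf ⊥ r) {s : ℕ} (hs : s ≠ 0) :
    Module.finrank K (L.Ur ⊥ (r * s)) = s := by
  have h0 : Um L (⊥ : IntermediateField K Ω) := ⟨1, one_ne_zero, bot_le⟩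
  have h1 := GM.mu_rank h0 hr hs
  rw [IntermediateField.finrank_bot, mul_one] at h1
  exact h1

/-- The degree of `Ur ⊥ (n k)` over `Ur ⊥ n`. -/
private theorem lg_idx (hr : L.Rf ⊥ r) (hn : N0 r n) {k : ℕ} (hk : k ≠ 0) :
    (L.Ur (⊥ : IntermediateField K Ω) (n * k)).fixingSubgroup.relIndex
      (L.Ur (⊥ : IntermediateField K Ω) n).fixingSubgroup = k := by
  obtain ⟨hn0, s, rfl⟩ := hn
  have hs : s ≠ 0 := by
    rintro rfl
    exact hn0 (mul_zero _)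
  have hfd : FiniteDimensional K (L.Ur ⊥ (r * s * k)) :=
    Ld.ur_fin ⊥ _ (Nat.mul_ne_zero hn0 hk)
  have h1 := relIndex_fix (K := K) (Ω := Ω) (M := L.Ur ⊥ (r * s)) (N := L.Ur ⊥ (r * s * k))
    (Ld.ur_dvd ⊥ (dvd_mul_right _ _))
  have h2 : Module.finrank K (L.Ur ⊥ (r * s * k)) = s * k := by
    rw [mul_assoc]
    exact lg_rank hr (Nat.mul_ne_zero hs hk)
  rw [lg_rank hr hs, h2] at h1
  refine Nat.eq_of_mul_eq_mul_right (Nat.pos_of_ne_zero hs) ?_
  rw [h1, mul_comm]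

private theorem lg_sum (hT : Tpe L X r na T C) (hn : N0 r n) {x t : Fin N → Ω}
    (hx : Xe L X n x) (ht : Tn' f L n x t) {α : Type} (S : Finset α) (g : α → Ω)
    (hg : ∀ a ∈ S, g a ∈ L.Ur ⊥ n) :
    T n x ((∑ a ∈ S, g a) • t) = ∑ a ∈ S, T n x (g a • t) := by
  classical
  induction S using Finset.induction_on with
  | empty =>
    rw [Finset.sum_empty, Finset.sum_empty]
    have h0 := hT.add n x ((0 : Ω) • t) ((0 : Ω) • t) hn hx (ht.smul (zero_mem _))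
      (ht.smul (zero_mem _))
    rw [zero_smul, add_zero] at h0
    rw [zero_smul]
    exact left_eq_add.1 h0
  | insert a S ha ih =>
    rw [Finset.sum_insert ha, Finset.sum_insert ha, add_smul,
      hT.add n x _ _ hn hx (ht.smul (hg a (Finset.mem_insert_self a S)))
        (ht.smul (sum_mem fun b hb => hg b (Finset.mem_insert_of_mem hb))),
      ih fun b hb => hg b (Finset.mem_insert_of_mem hb)]

/-- **The derivative and the trace to `Ur ⊥ n₁`.** Proof: copy of `tp_tr` in Lc/Sb. -/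
theorem tpe_tr (hX : X.Ok L) (hr : L.Rf ⊥ r) (hT : Tpe L X r na T C) {n₁ : ℕ}
    (hn₁ : N0 r n₁) (hnn : n₁ ∣ n) (hn : n ≠ 0) {x t : Fin N → Ω} (hx : Xe L X n₁ x)
    (ht : Tn' f L n₁ x t) {a : Ω} (ha : a ∈ L.Ur ⊥ n) :
    T n x (a • t) = T n₁ x (Nm (L.Ur ⊥ n₁) (L.Ur ⊥ n) a • t) := by
  obtain ⟨k, rfl⟩ := hnn
  have hk : k ≠ 0 := by
    rintro rfl
    exact hn (mul_zero _)
  have hn' : N0 r (n₁ * k) := hn₁.mul hk
  have hfd : FiniteDimensional K (L.Ur ⊥ (n₁ * k)) := Ld.ur_fin ⊥ _ hn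
  have hle : L.Ur (⊥ : IntermediateField K Ω) n₁ ≤ L.Ur ⊥ (n₁ * k) :=
    Ld.ur_dvd ⊥ (dvd_mul_right n₁ k)
  have hx' := hx.mono (dvd_mul_right n₁ k)
  have ht' := ht.mono (dvd_mul_right n₁ k)
  have hNm := nmu_mem (L := L) (dvd_mul_right n₁ k) hn ha
  obtain ⟨s, hs, h1, -, h3⟩ := nm_rep hle
  have h4 : T (n₁ * k) x (Nm (L.Ur ⊥ n₁) (L.Ur ⊥ (n₁ * k)) a • t) =
      k • T (n₁ * k) x (a • t) := by
    have e1 : Nm (L.Ur ⊥ n₁) (L.Ur ⊥ (n₁ * k)) a = ∑ γ ∈ s, γ a := h3 Ω a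
    rw [e1, lg_sum hT hn' hx' ht' s (fun γ : Ω ≃ₐ[K] Ω => γ a) fun γ _ => act_ur γ ha]
    rw [lg_idx hr hn₁ hk] at hs
    have e0 : ∑ γ ∈ s, T (n₁ * k) x (γ a • t) = ∑ γ ∈ s, T (n₁ * k) x (a • t) := by
      refine Finset.sum_congr rfl fun γ hγ => ?_
      have hfix := (IntermediateField.mem_fixingSubgroup_iff (L.Ur ⊥ n₁) γ).1 (h1 γ hγ)
      have h5 := hT.act (n₁ * k) x (a • t) γ hn' hx' (ht'.smul ha)
      have e2 : (fun i => γ (x i)) = x := funext fun i => hfix _ (hx.mem hX i)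
      have e3 : (fun i => γ ((a • t) i)) = γ a • t := funext fun i => by
        rw [Pi.smul_apply, Pi.smul_apply, smul_eq_mul, smul_eq_mul, map_mul, hfix _ (ht.mem i)]
      rw [e2, e3] at h5
      exact h5
    rw [e0, Finset.sum_const, hs]
  rw [hT.up n₁ x _ k hn₁ hx (ht.smul hNm) hk] at h4
  have h6 : (k : ℚ) • T n₁ x (Nm (L.Ur ⊥ n₁) (L.Ur ⊥ (n₁ * k)) a • t) =
      (k : ℚ) • T (n₁ * k) x (a • t) := by
    rw [Nat.cast_smul_eq_nsmul, Nat.cast_smul_eq_nsmul]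
    exact h4
  exact (smul_right_injective B (Nat.cast_ne_zero.2 hk : (k : ℚ) ≠ 0) h6).symm

end GX
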