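import Pool.Agent.Lib.MP_f80667_ag.Ep.Ld
import Pool.Agent.Lib.MP_f80667_ag.Lc.H

/-!
The functionals `a ↦ T n x (a t)` for the points of the branches.
-/

open ZC BE PE CV IntermediateField

namespace GX

variable {F : Type} [Field F] {N d m : ℕ} {ι : Type} {f : ι → MvPolynomial (Fin N) F}
  {K Ω : Type} [Field K] [CharZero K] [Field Ω] [Algebra K Ω] [Algebra F K] [Algebra F Ω]
  [IsScalarTower F K Ω] [IsAlgClosure K Ω] {L : Ld K Ω} {X : Bd f K Ω d m} {π : Ω} {r n : ℕ}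
  {B : Type} [AddCommGroup B] [Module ℚ B] {na : B → ℝ}
  {C : ℝ} {T : ℕ → (Fin N → Ω) → (Fin N → Ω) → B}

private theorem phe_ok (hT : Tpe L X r na T C) (hn : N0 r n)
    {x t : Fin N → Ω} (hx : Xe L X n x) (ht : Tn' f L n x t) :
    (∀ a b : ↥(L.Ur ⊥ n), T n x (((a + b : ↥(L.Ur ⊥ n)) : Ω) • t) =
      T n x ((a : Ω) • t) + T n x ((b : Ω) • t)) ∧
      ∃ C, ∀ a : ↥(L.Ur ⊥ n), na (T n x ((a : Ω) • t)) ≤ C * vn L n a := by
  constructor
  · intro a b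
    rw [AddMemClass.coe_add, add_smul]
    exact hT.add n x _ _ hn hx (ht.smul a.2) (ht.smul b.2)
  · refine ⟨C * ∑ i, L.nm (t i), fun a => ?_⟩
    refine (hT.bd n x _ (L.nm (a : Ω) * ∑ i, L.nm (t i)) hn hx (ht.smul a.2) (fun i => ?_)
      (mul_nonneg (L.nonneg _) (Finset.sum_nonneg fun i _ => L.nonneg _))).trans (le_of_eq ?_)
    · rw [Pi.smul_apply, smul_eq_mul, L.mul]
      exact mul_le_mul_of_nonneg_left
        (Finset.single_le_sum (f := fun i => L.nm (t i)) (fun j _ => L.nonneg _)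
          (Finset.mem_univ i)) (L.nonneg _)
    · unfold vn
      ring

theorem phe_f (hB : Bn L.p (L.nm (L.p : Ω)) na) (hT : Tpe L X r na T C) (hn : N0 r n)
    {x t : Fin N → Ω} (hx : Xe L X n x) (ht : Tn' f L n x t) (a : ↥(L.Ur ⊥ n)) :
    (ph hB T n x t).f a = T n x ((a : Ω) • t) := by
  unfold ph
  rw [dif_pos (phe_ok hT hn hx ht)]
  rfl

theorem phe_add (hB : Bn L.p (L.nm (L.p : Ω)) na) (hT : Tpe L X r na T C) (hn : N0 r n)
    {x t t' : Fin N → Ω} (hx : Xe L X n x) (ht : Tn' f L n x t) (ht' : Tn' f L n x t') :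
    ph hB T n x (t + t') = ph hB T n x t + ph hB T n x t' := by
  refine HM.ext' fun a => ?_
  rw [HM.add_f, phe_f hB hT hn hx (ht.add ht'), phe_f hB hT hn hx ht, phe_f hB hT hn hx ht',
    smul_add]
  exact hT.add n x _ _ hn hx (ht.smul a.2) (ht'.smul a.2)

theorem phe_smul (hB : Bn L.p (L.nm (L.p : Ω)) na) (hT : Tpe L X r na T C) (hn : N0 r n)
    {x t : Fin N → Ω} (hx : Xe L X n x) (ht : Tn' f L n x t) (a : ↥(L.Ur ⊥ n)) :
    ph hB T n x ((a : Ω) • t) = a • ph hB T n x t := by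
  refine HM.ext' fun b => ?_
  rw [HM.smul_f, phe_f hB hT hn hx (ht.smul a.2), phe_f hB hT hn hx ht, smul_smul,
    MulMemClass.coe_mul, mul_comm]

theorem phe_hom (hB : Bn L.p (L.nm (L.p : Ω)) na) (hX : X.Ok L) (hf : Hm f)
    (hT : Tpe L X r na T C) (hn : N0 r n) {x t : Fin N → Ω} (hx : Xe L X n x)
    (ht : Tn' f L n x t) {c : Ω} (hc : c ∈ L.Ur ⊥ n) (hc1 : Xe L X n (c • x)) :
    ph hB T n (c • x) (c • t) = ph hB T n x t := by
  have hc0 : c ≠ 0 := by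
    rintro rfl
    exact (hc1.zp hX).1 (zero_smul _ _)
  refine HM.ext' fun a => ?_
  rw [phe_f hB hT hn hc1 (ht.hom hf hc hc0), phe_f hB hT hn hx ht, smul_comm]
  exact hT.smul n x _ c hn hx hc1 (ht.smul a.2) hc

/-- The radial vectors. -/
theorem Xe.rad (hX : X.Ok L) (hf : Hm f) {x : Fin N → Ω} (hx : Xe L X n x) {c : Ω}
    (hc : c ∈ L.Ur ⊥ n) : Tn' f L n x (c • x) :=
  ⟨tg_rad (om_hom hf) (hx.zp hX) c, fun i => mul_mem hc (hx.mem hX i)⟩

theorem phe_rad (hB : Bn L.p (L.nm (L.p : Ω)) na) (hX : X.Ok L) (hf : Hm f)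
    (hT : Tpe L X r na T C) (hn : N0 r n) {x : Fin N → Ω} (hx : Xe L X n x) {c : Ω}
    (hc : c ∈ L.Ur ⊥ n) : ph hB T n x (c • x) = 0 := by
  refine HM.ext' fun a => ?_
  rw [phe_f hB hT hn hx (hx.rad hX hf hc), HM.zero_f, smul_smul]
  exact hT.rad n x _ hn hx (mul_mem a.2 hc)

theorem phe_bd (hB : Bn L.p (L.nm (L.p : Ω)) na) (hT : Tpe L X r na T C) (hn : N0 r n)
    {x t : Fin N → Ω} (hx : Xe L X n x) (ht : Tn' f L n x t) {ρ : ℝ} (hρ : 0 ≤ ρ)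
    (h : ∀ i, L.nm (t i) ≤ ρ) : HM.nh (ph hB T n x t) ≤ C * ρ := by
  refine HM.nh_le (mul_nonneg hT.nonneg hρ) fun a => ?_
  rw [phe_f hB hT hn hx ht]
  refine (hT.bd n x _ (L.nm (a : Ω) * ρ) hn hx (ht.smul a.2) (fun i => ?_)
    (mul_nonneg (L.nonneg _) hρ)).trans (le_of_eq ?_)
  · rw [Pi.smul_apply, smul_eq_mul, L.mul]
    exact mul_le_mul_of_nonneg_left (h i) (L.nonneg _)
  · unfold vn
    ring

end GX
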