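import Pool.Agent.Lib.MP_f80667_ag.Ep.Lh
import Pool.Agent.Lib.MP_f80667_ag.Gx.Eb

/-!
The functionals `P_j (c; ξ)` at the good points.

* `Pq hB T ψ n j c ξ`: the sum of the functionals `a ↦ T n (pt c w) ((a w ^ j) lt c w ξ)` over the roots `w`.
-/

open ZC BE PE CV IntermediateField

namespace GX

variable {F : Type} [Field F] {N d m : ℕ} {ι : Type} {f : ι → MvPolynomial (Fin N) F}
  {K Ω : Type} [Field K] [CharZero K] [Field Ω] [Algebra K Ω] [Algebra F K] [Algebra F Ω]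
  [IsScalarTower F K Ω] [IsAlgClosure K Ω] {L : Ld K Ω} {X : Bd f K Ω d m} {π : Ω} {r n : ℕ}
  {B : Type} [AddCommGroup B] [Module ℚ B] {na : B → ℝ}
  {C : ℝ} {T : ℕ → (Fin N → Ω) → (Fin N → Ω) → B} {hB : Bn L.p (L.nm (L.p : Ω)) na}

/-- The functional `P_j (c; ξ)`. -/
noncomputable def Pq (hB : Bn L.p (L.nm (L.p : Ω)) na)
    (T : ℕ → (Fin N → Ω) → (Fin N → Ω) → B) (ψ : Prj K N d) (n j : ℕ)
    (c ξ : Fin (d + 1) → Ω) : Hn L hB n :=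
  ∑ w ∈ rt ψ c, ph hB T n ((ψ.om Ω).pt c w) (w ^ j • (ψ.om Ω).lt c w ξ)

/-- Proof: `phe_add`, `Prj.lt_add`, `Ge.xe`, `Ge.tn`. -/
theorem pq_add (hX : X.Ok L) (hT : Tpe L X r na T C) (hn : N0 r n) {i : Fin m}
    {c ξ ξ' : Fin (d + 1) → Ω} (hc : Ge L X i n c) (hξ : ∀ l, ξ l ∈ L.Ur ⊥ n)
    (hξ' : ∀ l, ξ' l ∈ L.Ur ⊥ n) (j : ℕ) :
    Pq hB T (X.ψ i) n j c (ξ + ξ') = Pq hB T (X.ψ i) n j c ξ + Pq hB T (X.ψ i) n j c ξ' := by
  rw [Pq, Pq, Pq, ← Finset.sum_add_distrib]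
  refine Finset.sum_congr rfl fun w hw => ?_
  rw [Prj.lt_add, smul_add]
  exact phe_add hB hT hn (hc.xe hX hw) (hc.tn hX hw hξ j) (hc.tn hX hw hξ' j)

/-- Proof: `phe_smul`, `Prj.lt_smul`. -/
theorem pq_smul (hX : X.Ok L) (hT : Tpe L X r na T C) (hn : N0 r n) {i : Fin m}
    {c ξ : Fin (d + 1) → Ω} (hc : Ge L X i n c) (hξ : ∀ l, ξ l ∈ L.Ur ⊥ n)
    (a : ↥(L.Ur ⊥ n)) (j : ℕ) :
    Pq hB T (X.ψ i) n j c ((a : Ω) • ξ) = a • Pq hB T (X.ψ i) n j c ξ := by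
  rw [Pq, Pq, Finset.smul_sum]
  refine Finset.sum_congr rfl fun w hw => ?_
  rw [Prj.lt_smul, smul_comm]
  exact phe_smul hB hT hn (hc.xe hX hw) (hc.tn hX hw hξ j) a

omit [CharZero K] [IsAlgClosure K Ω] in
private theorem lp_sum {I : Type} (s : Finset I) {φ : I → Hn L hB n} {D : ℝ} (hD : 0 ≤ D)
    (h : ∀ i ∈ s, HM.nh (φ i) ≤ D) : HM.nh (∑ i ∈ s, φ i) ≤ D := by
  classical
  induction s using Finset.induction_on with
  | empty => rwa [Finset.sum_empty, (HM.nh_zero_iff _).2 rfl]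
  | insert a s ha ih =>
    rw [Finset.sum_insert ha]
    exact (HM.nh_add _ _).trans (max_le (h a (Finset.mem_insert_self a s))
      (ih fun i hi => h i (Finset.mem_insert_of_mem hi)))

/-- Proof: `HM.nh_add`, `phe_bd`, `Ge.lt_bd`, `Ge.w` (`nm w ≤ 1`). -/
theorem pq_bd (hX : X.Ok L) (hT : Tpe L X r na T C) (hn : N0 r n) (i : Fin m) (j : ℕ) :
    ∃ D : ℝ, ∀ c ξ : Fin (d + 1) → Ω, Ge L X i n c → Iv L (L.Ur ⊥ n) ξ →
      HM.nh (Pq hB T (X.ψ i) n j c ξ) ≤ D := by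
  obtain ⟨D, hD, h1⟩ := Ge.lt_bd (L := L) hX
  refine ⟨C * D, fun c ξ hc hξ => ?_⟩
  rw [Pq]
  refine lp_sum _ (mul_nonneg hT.nonneg hD) fun w hw => ?_
  obtain ⟨-, hw1, -⟩ := hc.w hX hw
  refine phe_bd hB hT hn (hc.xe hX hw) (hc.tn hX hw (fun l => (hξ l).1) j) hD fun l => ?_
  rw [Pi.smul_apply, smul_eq_mul, L.mul, L.pow]
  exact (mul_le_of_le_one_left (L.nonneg _) (pow_le_one₀ (L.nonneg _) hw1)).trans
    (h1 n i c w hc hw ξ (fun r => (hξ r).2) l)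

/-- Homogeneity. Proof: `Ge.smul`, `Prj.Ok.pt_smul`, `phe_hom`, `phe_smul`. -/
theorem pq_hom (hX : X.Ok L) (hf : Hm f) (hT : Tpe L X r na T C) (hn : N0 r n) {i : Fin m}
    {c ξ : Fin (d + 1) → Ω} (hc : Ge L X i n c) (hξ : ∀ l, ξ l ∈ L.Ur ⊥ n)
    (a : ↥(L.Ur ⊥ n)) (ha : L.nm ((a : Ω) - 1) ≤ L.nm X.ϖ) (j : ℕ) :
    Pq hB T (X.ψ i) n j ((a : Ω) • c) ((a : Ω) • ξ) = a ^ j • Pq hB T (X.ψ i) n j c ξ := by
  classical
  obtain ⟨ha0, hc', hrt⟩ := hc.smul hX a.2 ha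
  have hj : ((a ^ j : ↥(L.Ur ⊥ n)) : Ω) = (a : Ω) ^ j := rfl
  rw [Pq, Pq, Finset.smul_sum, hrt, Finset.sum_image fun w _ w' _ h => mul_left_cancel₀ ha0 h]
  refine Finset.sum_congr rfl fun w hw => ?_
  have hG : pe c w (X.ψ i).G = 0 := (mem_rte hX).1 hw
  obtain ⟨-, -, h3, h4⟩ := (hX.pk i).ok.pt_smul (om_hom (Ω := Ω) (hX.pk i).hom) (c := c)
    (w := w) (by
      change pe c w ((X.ψ i).om Ω).G = 0
      rw [om_G]
      exact hG) (hc.dne hX) ha0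
  have h3' : ((X.ψ i).om Ω).pt ((a : Ω) • c) ((a : Ω) * w) =
      (a : Ω) • ((X.ψ i).om Ω).pt c w := h3
  have h4' : ((X.ψ i).om Ω).lt ((a : Ω) • c) ((a : Ω) * w) ((a : Ω) • ξ) =
      (a : Ω) • ((X.ψ i).om Ω).lt c w ξ := h4 ξ
  have hx := hc.xe hX hw
  have ht := hc.tn hX hw hξ j
  have hw' : (a : Ω) * w ∈ rt (X.ψ i) ((a : Ω) • c) := by
    rw [hrt]
    exact Finset.mem_image.2 ⟨w, hw, rfl⟩
  have hx' := hc'.xe hX hw'
  rw [h3'] at hx'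
  rw [h3', h4', ← phe_smul hB hT hn hx ht (a ^ j), hj,
    ← phe_hom hB hX hf hT hn hx (ht.smul (pow_mem a.2 j)) a.2 hx']
  congr 1
  rw [mul_pow, smul_smul, smul_smul, smul_smul]
  congr 1
  ring

/-- **Recovery of `ph`.** Proof: in `Ω`: `∑ β_j w ^ j` is `0` for a root `w ≠ w₀` and `G_Y (c, w₀)` for `w = w₀` (`bt_sub`, `bt_der` for `(X.ψ i).om Ω`), `phe_smul`, `phe_add`; as `pn_rec` in Lc/Pb (there with `rs`). -/
theorem pq_rec (hX : X.Ok L) (hT : Tpe L X r na T C) (hn : N0 r n) {i : Fin m}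
    {c ξ : Fin (d + 1) → Ω} (hc : Ge L X i n c) (hξ : ∀ l, ξ l ∈ L.Ur ⊥ n) {w₀ : Ω}
    (hG : pe c w₀ (X.ψ i).G = 0) {β : ℕ → ↥(L.Ur ⊥ n)}
    (hβ : ∀ j, (β j : Ω) = pe c w₀ (((X.ψ i).om Ω).bt j)) {g : ↥(L.Ur ⊥ n)}
    (hg : (g : Ω) = pe c w₀ (Polynomial.derivative ((X.ψ i).om Ω).G)) :
    ∑ j ∈ Finset.range ((X.ψ i).om Ω).G.natDegree, β j • Pq hB T (X.ψ i) n j c ξ =
      g • ph hB T n (((X.ψ i).om Ω).pt c w₀) (((X.ψ i).om Ω).lt c w₀ ξ) := by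
  classical
  have key : ∀ w ∈ rt (X.ψ i) c, ∑ j ∈ Finset.range ((X.ψ i).om Ω).G.natDegree,
      β j • ph hB T n (((X.ψ i).om Ω).pt c w) (w ^ j • ((X.ψ i).om Ω).lt c w ξ) =
      if w = w₀ then g • ph hB T n (((X.ψ i).om Ω).pt c w₀) (((X.ψ i).om Ω).lt c w₀ ξ)
        else 0 := by
    intro w hw
    have hwG : pe c w (X.ψ i).G = 0 := (mem_rte hX).1 hw
    have hwU : w ∈ L.Ur ⊥ n := (hc.w hX hw).1
    have hx : Xe L X n (((X.ψ i).om Ω).pt c w) := hc.xe hX hw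
    have ht : Tn' f L n (((X.ψ i).om Ω).pt c w) (((X.ψ i).om Ω).lt c w ξ) := by
      have h1 := hc.tn hX hw hξ 0
      rwa [pow_zero, one_smul] at h1
    have e1 : ∀ j : ℕ, ph hB T n (((X.ψ i).om Ω).pt c w)
        (w ^ j • ((X.ψ i).om Ω).lt c w ξ) = (⟨w, hwU⟩ : ↥(L.Ur ⊥ n)) ^ j •
          ph hB T n (((X.ψ i).om Ω).pt c w) (((X.ψ i).om Ω).lt c w ξ) :=
      fun j => phe_smul hB hT hn hx ht ((⟨w, hwU⟩ : ↥(L.Ur ⊥ n)) ^ j)
    have e2 : ∑ j ∈ Finset.range ((X.ψ i).om Ω).G.natDegree,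
        β j * (⟨w, hwU⟩ : ↥(L.Ur ⊥ n)) ^ j = if w = w₀ then g else 0 := by
      have e3 : ((∑ j ∈ Finset.range ((X.ψ i).om Ω).G.natDegree,
          β j * (⟨w, hwU⟩ : ↥(L.Ur ⊥ n)) ^ j : ↥(L.Ur ⊥ n)) : Ω) =
          ∑ j ∈ Finset.range ((X.ψ i).om Ω).G.natDegree,
            pe c w₀ (((X.ψ i).om Ω).bt j) * w ^ j := by
        rw [AddSubmonoidClass.coe_finsetSum]
        refine Finset.sum_congr rfl fun j _ => ?_
        rw [MulMemClass.coe_mul, SubmonoidClass.coe_pow, hβ]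
      refine Subtype.ext ?_
      rw [e3]
      split_ifs with hww
      · subst hww
        rw [bt_der, hg]
      · have e4 := bt_sub ((X.ψ i).om Ω) c w₀ w
        rw [om_G, om_G, hwG, hG, sub_zero] at e4
        rw [ZeroMemClass.coe_zero]
        exact (mul_eq_zero.1 e4).resolve_left (sub_ne_zero.2 hww)
    have e5 : ∑ j ∈ Finset.range ((X.ψ i).om Ω).G.natDegree,
        β j • ph hB T n (((X.ψ i).om Ω).pt c w) (w ^ j • ((X.ψ i).om Ω).lt c w ξ) =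
        (∑ j ∈ Finset.range ((X.ψ i).om Ω).G.natDegree,
        β j * (⟨w, hwU⟩ : ↥(L.Ur ⊥ n)) ^ j) •
          ph hB T n (((X.ψ i).om Ω).pt c w) (((X.ψ i).om Ω).lt c w ξ) := by
      rw [Finset.sum_smul]
      refine Finset.sum_congr rfl fun j _ => ?_
      rw [e1, smul_smul]
    rw [e5, e2]
    split_ifs with hww
    · rw [hww]
    · rw [zero_smul]
  have s1 : ∀ j ∈ Finset.range ((X.ψ i).om Ω).G.natDegree, β j • Pq hB T (X.ψ i) n j c ξ =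
      ∑ w ∈ rt (X.ψ i) c, β j • ph hB T n (((X.ψ i).om Ω).pt c w)
        (w ^ j • ((X.ψ i).om Ω).lt c w ξ) := by
    intro j _
    rw [Pq, Finset.smul_sum]
  rw [Finset.sum_congr rfl s1, Finset.sum_comm, Finset.sum_congr rfl key,
    Finset.sum_ite_eq', if_pos ((mem_rte hX).2 hG)]

open Classical in
/-- **The relation of the curves for the `P_j`.** Proof: `Tpe.cr` (for the image of `S` in `Ω`), evaluated functionals (`HM.ext'`, `HM.sum_f`, `phe_f`, `HM.smul_f`). -/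
theorem pq_cr (hX : X.Ok L) (hT : Tpe L X r na T C) (hn : N0 r n) {i : Fin m}
    {c v : Fin (d + 1) → Ω} (hc : Iv L (L.Ur ⊥ n) c) (hv : Iv L (L.Ur ⊥ n) v)
    {S : Finset ↥(L.Ur ⊥ n)}
    (hS : ∀ s ∈ S, L.nm (s : Ω) ≤ 1 ∧ Ge L X i n (c + (s : Ω) • v)) {j : ℕ}
    (hj : j < S.card) :
    ∑ s ∈ S, (∏ s' ∈ S.erase s, (s - s'))⁻¹ •
      Pq hB T (X.ψ i) n j (c + (s : Ω) • v) v = 0 := by
  let e : ↥(L.Ur ⊥ n) ↪ Ω := ⟨Subtype.val, Subtype.val_injective⟩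
  refine HM.ext' fun a => ?_
  rw [HM.sum_f, HM.zero_f]
  have hcr := hT.cr n i c v (S.map e) j (a : Ω) hn hc hv (by
    intro s hs
    obtain ⟨s₁, hs₁, rfl⟩ := Finset.mem_map.1 hs
    exact ⟨s₁.2, hS s₁ hs₁⟩) (by rwa [Finset.card_map]) a.2
  rw [Finset.sum_map] at hcr
  have hterm : ∀ s ∈ S, ((∏ s' ∈ S.erase s, (s - s'))⁻¹ •
      Pq hB T (X.ψ i) n j (c + (s : Ω) • v) v).f a =
      ∑ w ∈ rt (X.ψ i) (c + e s • v),
        T n (((X.ψ i).om Ω).pt (c + e s • v) w)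
          (((a : Ω) * w ^ j * (∏ s' ∈ (S.map e).erase (e s), (e s - s'))⁻¹) •
            ((X.ψ i).om Ω).lt (c + e s • v) w v) := by
    intro s hs
    rw [HM.smul_f, Pq, HM.sum_f]
    refine Finset.sum_congr rfl fun w hw => ?_
    have hge : Ge L X i n (c + (s : Ω) • v) := (hS s hs).2
    have ht : Tn' f L n (((X.ψ i).om Ω).pt (c + (s : Ω) • v) w)
        (w ^ j • ((X.ψ i).om Ω).lt (c + (s : Ω) • v) w v) :=
      hge.tn hX hw (fun l => (hv l).1) j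
    rw [phe_f hB hT hn (hge.xe hX hw) ht, smul_smul]
    have hprod : ((∏ s' ∈ S.erase s, (s - s') : ↥(L.Ur ⊥ n)) : Ω) =
        ∏ s' ∈ (S.map e).erase (e s), (e s - s') := by
      rw [← Finset.map_erase, Finset.prod_map, SubmonoidClass.coe_finsetProd]
      rfl
    have hco : ((((∏ s' ∈ S.erase s, (s - s'))⁻¹ * a : ↥(L.Ur ⊥ n))) : Ω) * w ^ j =
        (a : Ω) * w ^ j * (∏ s' ∈ (S.map e).erase (e s), (e s - s'))⁻¹ := by
      rw [← hprod]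
      push_cast
      ring
    rw [hco]
    rfl
  rw [Finset.sum_congr rfl hterm, hcr]

/-- Proof: `pq_cr` for `S = {0}`; `pq_smul` for vectors which are not integral. -/
theorem pq_zero (hX : X.Ok L) (hT : Tpe L X r na T C) (hn : N0 r n) {i : Fin m}
    {c ξ : Fin (d + 1) → Ω} (hc : Ge L X i n c) (hξ : ∀ l, ξ l ∈ L.Ur ⊥ n) :
    Pq hB T (X.ψ i) n 0 c ξ = 0 := by
  classical
  have hM : 0 ≤ ∑ l, L.nm (ξ l) := Finset.sum_nonneg fun l _ => L.nonneg _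
  obtain ⟨k, hk⟩ := exists_pow_lt_of_lt_one (div_pos one_pos (by linarith : 0 <
    ∑ l, L.nm (ξ l) + 1)) L.lt
  have hpk : ((((L.p : ↥(L.Ur ⊥ n)) ^ k : ↥(L.Ur ⊥ n))) : Ω) = (L.p : Ω) ^ k := by
    push_cast
    rfl
  have hiv : Iv L (L.Ur ⊥ n) ((((L.p : ↥(L.Ur ⊥ n)) ^ k : ↥(L.Ur ⊥ n)) : Ω) • ξ) := by
    intro l
    refine ⟨mul_mem (Subtype.mem _) (hξ l), ?_⟩
    rw [hpk]
    change L.nm ((L.p : Ω) ^ k * ξ l) ≤ 1
    rw [L.mul, L.pow]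
    have h1 : L.nm (ξ l) ≤ ∑ l, L.nm (ξ l) :=
      Finset.single_le_sum (f := fun l => L.nm (ξ l)) (fun l _ => L.nonneg _)
        (Finset.mem_univ l)
    have h3 : L.nm (ξ l) ≤ ∑ l, L.nm (ξ l) + 1 := by linarith
    calc L.nm (L.p : Ω) ^ k * L.nm (ξ l)
        ≤ 1 / (∑ l, L.nm (ξ l) + 1) * (∑ l, L.nm (ξ l) + 1) :=
          mul_le_mul hk.le h3 (L.nonneg _) (div_nonneg zero_le_one (by linarith))
      _ = 1 := div_mul_cancel₀ _ (by linarith)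
  have key : Pq hB T (X.ψ i) n 0 c ((((L.p : ↥(L.Ur ⊥ n)) ^ k : ↥(L.Ur ⊥ n)) : Ω) • ξ) = 0 := by
    have e0 : c + ((0 : ↥(L.Ur ⊥ n)) : Ω) •
        ((((L.p : ↥(L.Ur ⊥ n)) ^ k : ↥(L.Ur ⊥ n)) : Ω) • ξ) = c := by
      rw [ZeroMemClass.coe_zero, zero_smul, add_zero]
    have h1 := pq_cr (hB := hB) hX hT hn (i := i) (hc.iv hX) hiv (S := {0}) (j := 0) (by
        intro s hs
        rw [Finset.mem_singleton] at hs
        subst hs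
        rw [e0]
        refine ⟨?_, hc⟩
        rw [ZeroMemClass.coe_zero, (L.zero_iff 0).2 rfl]
        exact zero_le_one) (by simp)
    rw [Finset.sum_singleton, e0] at h1
    have e1 : ∀ s' : Finset ↥(L.Ur ⊥ n), s' = ∅ →
        ∏ x ∈ s', ((0 : ↥(L.Ur ⊥ n)) - x) = 1 := by
      rintro _ rfl
      rfl
    rw [e1 _ (by
      refine Finset.eq_empty_of_forall_notMem fun x hx => ?_
      have := Finset.mem_erase.1 hx
      exact this.1 (Finset.mem_singleton.1 this.2)), inv_one, one_smul] at h1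
    exact h1
  rw [pq_smul hX hT hn hc hξ] at key
  have hne : ((L.p : ↥(L.Ur ⊥ n)) ^ k : ↥(L.Ur ⊥ n)) ≠ 0 := by
    intro h0
    have h1 := congrArg (fun x : ↥(L.Ur ⊥ n) => (x : Ω)) h0
    change ((((L.p : ↥(L.Ur ⊥ n)) ^ k : ↥(L.Ur ⊥ n))) : Ω) = ((0 : ↥(L.Ur ⊥ n)) : Ω) at h1
    rw [hpk, ZeroMemClass.coe_zero] at h1
    have h2 := congrArg L.nm h1
    rw [L.pow, (L.zero_iff 0).2 rfl] at h2
    exact absurd h2 (pow_pos hB.q0 k).ne'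
  have h4 := congrArg (fun x => ((L.p : ↥(L.Ur ⊥ n)) ^ k : ↥(L.Ur ⊥ n))⁻¹ • x) key
  change ((L.p : ↥(L.Ur ⊥ n)) ^ k : ↥(L.Ur ⊥ n))⁻¹ •
    (((L.p : ↥(L.Ur ⊥ n)) ^ k : ↥(L.Ur ⊥ n)) • Pq hB T (X.ψ i) n 0 c ξ) =
    ((L.p : ↥(L.Ur ⊥ n)) ^ k : ↥(L.Ur ⊥ n))⁻¹ • (0 : Hn L hB n) at h4
  rwa [smul_smul, inv_mul_cancel₀ hne, one_smul, smul_zero] at h4

end GX
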