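import Pool.Agent.Lib.MP_f80667_ag.Ep.Lp
import Pool.Agent.Lib.MP_f80667_ag.Lc.Pe
import Pool.Agent.Lib.MP_f80667_ag.Pl.F

/-!
The functionals `P_j` are polynomials.
-/

open ZC BE PE CV IntermediateField

namespace GX

variable {F : Type} [Field F] {N d m : ℕ} {ι : Type} {f : ι → MvPolynomial (Fin N) F}
  {K Ω : Type} [Field K] [CharZero K] [Field Ω] [Algebra K Ω] [Algebra F K] [Algebra F Ω]
  [IsScalarTower F K Ω] [IsAlgClosure K Ω] {L : Ld K Ω} {X : Bd f K Ω d m} {π : Ω} {r n : ℕ}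
  {B : Type} [AddCommGroup B] [Module ℚ B] {na : B → ℝ}
  {C : ℝ} {T : ℕ → (Fin N → Ω) → (Fin N → Ω) → B} {hB : Bn L.p (L.nm (L.p : Ω)) na}

open Classical in
/-- The Lagrange polynomial of the node `s`. -/
private noncomputable def lqP {M : Type} [Field M] (S : Finset M) (s : M) : Polynomial M :=
  Polynomial.C (∏ s' ∈ S.erase s, (s - s'))⁻¹ *
    ∏ s' ∈ S.erase s, (Polynomial.X - Polynomial.C s')

open Classical in
private theorem lq_deg {M : Type} [Field M] (S : Finset M) (s : M) (hs : s ∈ S) :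
    (lqP S s).natDegree < S.card + 1 := by
  unfold lqP
  have h1 : (∏ s' ∈ S.erase s, (Polynomial.X - Polynomial.C s')).natDegree ≤
      ∑ s' ∈ S.erase s, 1 := by
    refine (Polynomial.natDegree_prod_le _ _).trans (Finset.sum_le_sum fun i _ => ?_)
    rw [Polynomial.natDegree_X_sub_C]
  rw [Finset.sum_const, smul_eq_mul, mul_one, Finset.card_erase_of_mem hs] at h1
  have h2 := Polynomial.natDegree_C_mul_le (∏ s' ∈ S.erase s, (s - s'))⁻¹
    (∏ s' ∈ S.erase s, (Polynomial.X - Polynomial.C s'))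
  omega

open Classical in
private theorem lq_lag {M H : Type} [Field M] [AddCommGroup H] [Module M H] (S : Finset M)
    (P : M → H) {z : M} (hz : z ∉ S)
    (h : ∑ s ∈ insert z S, (∏ s' ∈ (insert z S).erase s, (s - s'))⁻¹ • P s = 0) :
    P z = ∑ i ∈ Finset.range (S.card + 1), z ^ i • ∑ s ∈ S, (lqP S s).coeff i • P s := by
  have hzs : ∀ s ∈ S, z - s ≠ 0 := fun s hs h0 => hz (by rwa [sub_eq_zero.1 h0])
  have hprod : (∏ s' ∈ S, (z - s')) ≠ 0 := Finset.prod_ne_zero_iff.2 hzs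
  rw [Finset.sum_insert hz, Finset.erase_insert hz] at h
  have h1 : ∀ s ∈ S, (∏ s' ∈ (insert z S).erase s, (s - s'))⁻¹ • P s =
      -((∏ s' ∈ S, (z - s'))⁻¹ • ((lqP S s).eval z • P s)) := by
    intro s hs
    have hsz : s ≠ z := fun h0 => hz (h0 ▸ hs)
    have h2 : (insert z S).erase s = insert z (S.erase s) := by
      rw [Finset.erase_insert_of_ne hsz.symm]
    have h3 : z ∉ S.erase s := fun h0 => hz (Finset.mem_of_mem_erase h0)
    rw [h2, Finset.prod_insert h3, smul_smul, ← neg_smul]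
    congr 1
    have h4 : (lqP S s).eval z =
        (∏ s' ∈ S.erase s, (s - s'))⁻¹ * ∏ s' ∈ S.erase s, (z - s') := by
      unfold lqP
      rw [Polynomial.eval_mul, Polynomial.eval_C, Polynomial.eval_prod]
      simp
    have h5 : ∏ s' ∈ S, (z - s') = (z - s) * ∏ s' ∈ S.erase s, (z - s') :=
      (Finset.mul_prod_erase S _ hs).symm
    have h6 : (∏ s' ∈ S.erase s, (z - s')) ≠ 0 :=
      Finset.prod_ne_zero_iff.2 fun a ha => hzs a (Finset.mem_of_mem_erase ha)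
    have h7 : z - s ≠ 0 := hzs s hs
    have h8 : s - z ≠ 0 := sub_ne_zero.2 hsz
    rw [h4, h5, mul_inv, mul_inv]
    have h9 : (s - z)⁻¹ = -(z - s)⁻¹ := by
      rw [← neg_sub z s, neg_inv, inv_neg, neg_inv]
    rw [h9]
    field_simp
  rw [Finset.sum_congr rfl h1, Finset.sum_neg_distrib, ← Finset.smul_sum, ← sub_eq_add_neg,
    ← smul_sub, smul_eq_zero] at h
  have h2 : P z = ∑ s ∈ S, (lqP S s).eval z • P s := by
    rcases h with h | h
    · exact absurd h (inv_ne_zero hprod)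
    · exact sub_eq_zero.1 h
  rw [h2]
  simp only [Finset.smul_sum]
  rw [Finset.sum_comm]
  refine Finset.sum_congr rfl fun s hs => ?_
  rw [Polynomial.eval_eq_sum_range' (lq_deg S s hs), Finset.sum_smul]
  refine Finset.sum_congr rfl fun i _ => ?_
  rw [smul_smul, mul_comm]

private theorem lq_lag2 {M H : Type} [Field M] [AddCommGroup H] [Module M H]
    {i1 i2 : DecidableEq M} (S : Finset M) (P : M → H) {z : M} (hz : z ∉ S)
    (h : ∑ s ∈ @insert M (Finset M) (@Finset.instInsert M i1) z S,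
      (∏ s' ∈ @Finset.erase M i2 (@insert M (Finset M) (@Finset.instInsert M i1) z S) s,
        (s - s'))⁻¹ • P s = 0) :
    P z = ∑ i ∈ Finset.range (S.card + 1), z ^ i • ∑ s ∈ S, (lqP S s).coeff i • P s := by
  have e1 : i1 = fun a b => Classical.propDecidable (a = b) := Subsingleton.elim _ _
  have e2 : i2 = fun a b => Classical.propDecidable (a = b) := Subsingleton.elim _ _
  subst e1
  subst e2
  exact lq_lag S P hz h

open Classical in
/-- The interpolation at a node. -/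
private theorem lq_int {M H : Type} [Field M] [AddCommGroup H] [Module M H] (S : Finset M)
    (P : M → H) {z : M} (hz : z ∈ S) {N : ℕ} (hN : S.card ≤ N) :
    P z = ∑ i ∈ Finset.range (N + 1), z ^ i • ∑ s ∈ S, (lqP S s).coeff i • P s := by
  have h1 : ∀ s ∈ S, (lqP S s).eval z • P s = if s = z then P z else 0 := by
    intro s hs
    have h4 : (lqP S s).eval z =
        (∏ s' ∈ S.erase s, (s - s'))⁻¹ * ∏ s' ∈ S.erase s, (z - s') := by
      unfold lqP
      rw [Polynomial.eval_mul, Polynomial.eval_C, Polynomial.eval_prod]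
      simp
    rw [h4]
    split_ifs with h
    · subst h
      have h6 : (∏ s' ∈ S.erase s, (s - s')) ≠ 0 :=
        Finset.prod_ne_zero_iff.2 fun a ha => sub_ne_zero.2 (Finset.ne_of_mem_erase ha).symm
      rw [inv_mul_cancel₀ h6, one_smul]
    · have h6 : (∏ s' ∈ S.erase s, (z - s')) = 0 :=
        Finset.prod_eq_zero (Finset.mem_erase.2 ⟨fun h0 => h h0.symm, hz⟩) (sub_self z)
      rw [h6, mul_zero, zero_smul]
  have h2 : P z = ∑ s ∈ S, (lqP S s).eval z • P s := by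
    rw [Finset.sum_congr rfl h1, Finset.sum_ite_eq', if_pos hz]
  rw [h2]
  simp only [Finset.smul_sum]
  rw [Finset.sum_comm]
  refine Finset.sum_congr rfl fun s hs => ?_
  have h3 : (lqP S s).natDegree < N + 1 := by
    have := lq_deg S s hs
    omega
  rw [Polynomial.eval_eq_sum_range' h3, Finset.sum_smul]
  refine Finset.sum_congr rfl fun i _ => ?_
  rw [smul_smul, mul_comm]

/-- Finitely many nodes. -/
private theorem lq_nodes {M : Type} (Z : M → Prop) (j : ℕ) :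
    ∃ S : Finset M, (∀ s ∈ S, Z s) ∧ S.card ≤ j ∧ ∀ z, Z z → z ∉ S → S.card = j := by
  classical
  by_cases h : {z | Z z}.Finite
  · by_cases hj : j ≤ h.toFinset.card
    · obtain ⟨S, hS, hSc⟩ := Finset.exists_subset_card_eq hj
      exact ⟨S, fun s hs => (h.mem_toFinset.1 (hS hs) : Z s), hSc.le, fun _ _ _ => hSc⟩
    · refine ⟨h.toFinset, fun s hs => (h.mem_toFinset.1 hs : Z s), by omega,
        fun z hz hzn => absurd (h.mem_toFinset.2 hz) hzn⟩
  · obtain ⟨S, hS, hSc⟩ := Set.Infinite.exists_subset_card_eq h j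
    exact ⟨S, fun s hs => hS (Finset.mem_coe.2 hs), hSc.le, fun _ _ _ => hSc⟩

/-- **The line.** Proof: let `Z` be the set of the `z` with `nm z ≤ 1` and `Ge L X i n (c + z • v)`. If `Z` has at most `j` elements: interpolation (`Lagrange.basis`, degree `< j`). If it has more: `S ⊆ Z` with `j` elements; for every other `z ∈ Z` `pq_cr` for `S ∪ {z}` (card `j + 1`) gives
`P (c + z v; v) = ∑ s ∈ S, (Lagrange.basis S id s).eval z • P (c + s v; v)` (as `pn_line` in Lc/Pc, where `pc_lag`, `pcP` are private: copy them). -/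
theorem pq_line (hX : X.Ok L) (hT : Tpe L X r na T C) (hn : N0 r n) {i : Fin m}
    {c v : Fin (d + 1) → Ω} (hc : Iv L (L.Ur ⊥ n) c) (hv : Iv L (L.Ur ⊥ n) v) (j : ℕ) :
    ∃ q : ℕ → Hn L hB n, ∀ z : ↥(L.Ur ⊥ n), L.nm (z : Ω) ≤ 1 →
      Ge L X i n (c + (z : Ω) • v) → Pq hB T (X.ψ i) n j (c + (z : Ω) • v) v = PL.pe j q z := by
  classical
  obtain ⟨S, hS1, hS2, hS3⟩ := lq_nodes (fun z : ↥(L.Ur ⊥ n) => L.nm (z : Ω) ≤ 1 ∧
    Ge L X i n (c + (z : Ω) • v)) j
  refine ⟨fun i' => ∑ s ∈ S, (lqP S s).coeff i' •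
    Pq hB T (X.ψ i) n j (c + (s : Ω) • v) v, fun z hz1 hzG => ?_⟩
  unfold PL.pe
  by_cases hzS : z ∈ S
  · exact lq_int S (fun s : ↥(L.Ur ⊥ n) => Pq hB T (X.ψ i) n j (c + (s : Ω) • v) v) hzS hS2
  · have hSc : S.card = j := hS3 z ⟨hz1, hzG⟩ hzS
    have hcr := pq_cr (hB := hB) hX hT hn (i := i) hc hv (S := insert z S) (j := j) (by
      intro s hs
      rcases Finset.mem_insert.1 hs with rfl | hs
      · exact ⟨hz1, hzG⟩
      · exact hS1 s hs) (by
      rw [Finset.card_insert_of_notMem hzS, hSc]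
      exact Nat.lt_succ_self j)
    have h2 := lq_lag2 S (fun s : ↥(L.Ur ⊥ n) =>
      Pq hB T (X.ψ i) n j (c + (s : Ω) • v) v) hzS hcr
    rw [hSc] at h2
    exact h2

omit [CharZero K] [IsAlgClosure K Ω] in
private theorem lq_cv {c b : Fin (d + 1) → ↥(L.Ur ⊥ n)} (z : ↥(L.Ur ⊥ n)) :
    cv (c + z • b) = cv c + (z : Ω) • cv b := by
  funext l
  rfl

omit [CharZero K] [IsAlgClosure K Ω] in
private theorem lq_iv {c : Fin (d + 1) → ↥(L.Ur ⊥ n)}
    (h : ∀ l, (PL.naL L (L.Ur ⊥ n)).nm (c l) ≤ 1) : Iv L (L.Ur ⊥ n) (cv c) :=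
  fun l => ⟨(c l).2, h l⟩

/-- **The `P_j` are polynomials.** Proof: `PL.Lb.polyE` for `S` the set of the `c` with `Ge L X i n (cv c)`, `ϖ` the element `X.ϖ` of `Ur ⊥ n`, `D = j`: `pq_add`, `pq_smul`, `pq_line`, `pq_bd`; `PL.dn_ur`; `Ge.disc`, `Ge.iv`. As `pn_poly` in Lc/Pe. -/
theorem pq_poly (hX : X.Ok L) (hT : Tpe L X r na T C) (hK : PL.DnK L) (hn : N0 r n)
    (i : Fin m) (j : ℕ) :
    ∃ (E : Finset (Fin (d + 1) →₀ ℕ)) (w : Fin (d + 1) → (Fin (d + 1) →₀ ℕ) → Hn L hB n),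
      ∀ c x : Fin (d + 1) → ↥(L.Ur ⊥ n), Ge L X i n (cv c) →
        Pq hB T (X.ψ i) n j (cv c) (cv x) =
          ∑ l, ∑ e ∈ E, (x l * ∏ k, c k ^ e k) • w l e := by
  classical
  have : CharZero Ω := charZero_of_injective_algebraMap (algebraMap K Ω).injective
  have hD := PL.dn_ur hK hn.1
  obtain ⟨ϖ, hϖ⟩ : ∃ ϖ : ↥(L.Ur ⊥ n), (ϖ : Ω) = X.ϖ :=
    ⟨⟨X.ϖ, (bot_le : (⊥ : IntermediateField K Ω) ≤ L.Ur ⊥ n) hX.ϖm⟩, rfl⟩
  have hϖ0 : ϖ ≠ 0 := by
    rintro rfl
    have h1 := hX.ϖ0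
    rw [← hϖ, ZeroMemClass.coe_zero, (L.zero_iff 0).2 rfl] at h1
    exact lt_irrefl _ h1
  have hϖ1 : (PL.naL L (L.Ur ⊥ n)).nm ϖ < 1 := by
    change L.nm (ϖ : Ω) < 1
    rw [hϖ]
    exact hX.sm.trans_le (pow_le_one₀ hX.ε0.le hX.ε1.le)
  have hL : PL.Lb (nhQ hB n) {c : Fin (d + 1) → ↥(L.Ur ⊥ n) | Ge L X i n (cv c)} j
      (fun c x => Pq hB T (X.ψ i) n j (cv c) (cv x)) := by
    refine ⟨fun c hc x y => ?_, fun c hc a x => ?_, fun c hc b hb => ?_, ?_⟩
    · exact pq_add hX hT hn hc (fun l => (x l).2) (fun l => (y l).2) j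
    · exact pq_smul hX hT hn hc (fun l => (x l).2) a j
    · obtain ⟨q, hq⟩ := pq_line (hB := hB) hX hT hn (i := i) (Ge.iv hX hc) (lq_iv hb) j
      refine ⟨q, fun z hz hzS => ?_⟩
      have h1 : Ge L X i n (cv (c + z • b)) := hzS
      change Pq hB T (X.ψ i) n j (cv (c + z • b)) (cv b) = PL.pe j q z
      rw [lq_cv] at h1 ⊢
      exact hq z hz h1
    · obtain ⟨D, hD'⟩ := pq_bd (hB := hB) hX hT hn i j
      exact ⟨D, fun c hc x hx => hD' (cv c) (cv x) hc (lq_iv hx)⟩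
  obtain ⟨E, w, hw⟩ := hL.polyE hD hϖ0 hϖ1 (fun c hc l => (Ge.iv hX hc l).2)
    fun c hc c' hc' => Ge.disc hX hc (fun r => (c' r).2) fun r => by
      rw [← hϖ]
      exact hc' r
  exact ⟨E, w, fun c x hc => hw c hc x⟩

end GX
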