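import Pool.Agent.Lib.MP_f80667_ag.Ep.Ls
import Pool.Agent.Lib.MP_f80667_ag.Ep.Gf
import Pool.Agent.Lib.MP_f80667_ag.Ep.Ea
import Pool.Agent.Lib.MP_f80667_ag.Lc.N
import Pool.Agent.Lib.MP_f80667_ag.Sb.K

/-!
The functionals vanish on the kernel of the sum (EP, sections 6, 7).

* `Lste M L X π e`: a functional which is `0` on the rational equivalences and small on the levels vanishes on the kernel of the sum.
-/

open ZC BE PE CV IntermediateField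

namespace GX

variable {F : Type} [Field F] {N N' k k' d m : ℕ} {ι ι' : Type} {f : ι → MvPolynomial (Fin N) F}
  {A : Gv F N' k' ι'} {M : Mf f A k}
  {K Ω : Type} [Field K] [CharZero K] [Field Ω] [Algebra K Ω] [Algebra F K] [Algebra F Ω]
  [IsScalarTower F K Ω] [IsAlgClosure K Ω] {L : Ld K Ω} {X : Bd f K Ω d m} {π : Ω} {r n : ℕ}
  {B : Type} [AddCommGroup B] [Module ℚ B] {na : B → ℝ}
  {lam : ((Xf f).pt Ω →₀ ℤ) →+ B} {s₀ s₁ : ℕ} {C C' : ℝ}
  {T : ℕ → X.B → (Fin (d + 1) → Ω) → (Fin (d + 1) → Ω) → B}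

private theorem lz_sum {p : ℕ} {q : ℝ} (hB : Bn p q na) {α : Type} (s : Finset α) {u : α → B}
    {ρ : ℝ} (hρ : 0 ≤ ρ) (h : ∀ a ∈ s, na (u a) ≤ ρ) : na (∑ a ∈ s, u a) ≤ ρ := by
  classical
  induction s using Finset.induction_on with
  | empty =>
    rw [Finset.sum_empty, (hB.zero_iff 0).2 rfl]
    exact hρ
  | insert a s ha ih =>
    rw [Finset.sum_insert ha]
    exact (hB.add _ _).trans (max_le (h a (Finset.mem_insert_self _ _))
      (ih fun b hb => h b (Finset.mem_insert_of_mem hb)))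

private theorem lz_zsmul {p : ℕ} {q : ℝ} (hB : Bn p q na) (b : B) (e : ℤ) :
    na (e • b) ≤ na b := by
  have h1 : ∀ k : ℕ, na (k • b) ≤ na b := by
    intro k
    induction k with
    | zero =>
      rw [zero_smul, (hB.zero_iff 0).2 rfl]
      exact hB.nonneg b
    | succ k ih =>
      rw [add_smul, one_smul]
      exact (hB.add _ _).trans (max_le ih le_rfl)
  rcases Int.eq_nat_or_neg e with ⟨k, rfl | rfl⟩
  · rw [natCast_zsmul]
    exact h1 k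
  · rw [neg_smul, hB.neg, natCast_zsmul]
    exact h1 k

private theorem lz_bot (hn : n ≠ 0) {a : Ω} (ha : a ∈ L.Ur (⊥ : IntermediateField K Ω) n) :
    Nm (⊥ : IntermediateField K Ω) (L.Ur ⊥ n) a ∈ (⊥ : IntermediateField K Ω) := by
  have hfd : FiniteDimensional K (L.Ur (⊥ : IntermediateField K Ω) n) := Ld.ur_fin ⊥ n hn
  have hfx : Fx (L.Ur (⊥ : IntermediateField K Ω) n) a := by
    intro γ hγ
    rw [AlgEquiv.smul_def]
    exact (IntermediateField.mem_fixingSubgroup_iff _ γ).1 hγ _ ha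
  refine mem_of_fix ⊥ fun γ hγ => ?_
  have h1 := nm_fx (K := K) bot_le hfx γ hγ
  rwa [AlgEquiv.smul_def] at h1

/-- The value of `lam` on a displacement with sum `0`. Proof: `dsp_sum` (Ep/Gu); `a` a term: `lam (dvb ..)` is `T n b h (h' - h)` up to `C nm π ^ (2 s)` (`Dte.app`), `= ti (xx b h) (tt b h (h' - h))` (`ti_eq`) `= ∑ hh l (Nm (w b h (h' - h) l))` (`Hse.val`, `Grp.wv`); so
`lam z = ∑ l, hh l (∑ a, e a • Nm (w ..))` up to `C nm π ^ (2 s)`; `Grp.small`, `Hse.bd`. As `lam_small` in Lc/Z (do not import it: name clash `Bs`). -/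
theorem lame_small (hX : X.Ok L) (hP : Bs L X.P) (hf : Hm f) (hπ : Uf L π)
    (hr : L.Rf ⊥ r) (hB : Bn L.p (L.nm (L.p : Ω)) na) (hl : Lame X.P L π na lam s₁ C')
    (hT : Dte X.P L π na r lam T s₀ C) {hh : Fin N' → Ω → B} {D : ℝ}
    (hs : Hse M L X r na (X.ti L T) hh D) (hA : A.Ok) (hM : M.Ok) :
    letI := A.G.grp Ω
    ∃ (C₂ : ℝ) (s₂ : ℕ), ∀ (s : ℕ) (z : (Xf f).pt Ω →₀ ℤ), s₂ ≤ s →
      z ∈ Dsp L (Xf f) (nb L X.P (L.nm π ^ s)) (⊥ : IntermediateField K Ω) → M.S Ω z = 0 →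
        na (lam z) ≤ C₂ * L.nm π ^ (2 * s) := by
  classical
  let _ : AddCommGroup ((Xf A.a).pt Ω) := A.G.grp Ω
  obtain ⟨w, C₀, hG⟩ := exists_grp (M := M) hX hA hM
  have hC0 : 0 < C₀ := zero_lt_one.trans_le hG.one
  obtain ⟨n₁, hn₁⟩ := exists_pow_lt_of_lt_one (inv_pos.2 hC0) hπ.lt
  refine ⟨max C (D * C₀), s₀ + n₁ + 1, fun s z hs₂ hz0 hS => ?_⟩
  change M.S Ω z = 0 at hS
  have hpos : (0 : ℝ) ≤ L.nm π ^ (2 * s) := pow_nonneg hπ.pos.le _
  have hmax : 0 ≤ max C (D * C₀) := hT.nonneg.trans (le_max_left _ _)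
  have ht0 : 0 ≤ L.nm π ^ s := pow_nonneg hπ.pos.le _
  have hCt : C₀ * L.nm π ^ s ≤ 1 := by
    have h1 : L.nm π ^ s ≤ C₀⁻¹ := (hπ.pow_le (by omega)).trans hn₁.le
    calc C₀ * L.nm π ^ s ≤ C₀ * C₀⁻¹ := mul_le_mul_of_nonneg_left h1 hC0.le
      _ = 1 := mul_inv_cancel₀ hC0.ne'
  obtain ⟨I, S, e, n, b, h, h', h1, rfl⟩ := dsp_sum hP hr ht0 hz0
  have hN0 : ∀ a, N0 r (n a) := fun a => ⟨(h1 a).1, (h1 a).2.1⟩
  have hfd : ∀ a, FiniteDimensional K (L.Ur ⊥ (n a)) := fun a => Ld.ur_fin ⊥ (n a) (h1 a).1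
  obtain ⟨x, hx⟩ : ∃ x : I → Fin (d + 1) → Ω, x = fun a r => h' a r - h a r := ⟨_, rfl⟩
  have hxa : ∀ a, x a = fun r => h' a r - h a r := fun a => congrFun hx a
  have hxm : ∀ a r, x a r ∈ L.Ur ⊥ (n a) := fun a r => by
    rw [hxa]
    exact sub_mem ((h1 a).2.2.2.1 r).1 ((h1 a).2.2.1 r).1
  have hxs : ∀ a r, L.nm (x a r) ≤ L.nm π ^ s := fun a r => by
    rw [hxa]
    exact (h1 a).2.2.2.2 r
  have hhx : ∀ a, h a + x a = h' a := fun a => by
    funext r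
    rw [Pi.add_apply, hxa]
    ring
  have hXe : ∀ a, Xe L X (n a) (X.xx L (b a) (h a)) := fun a => ⟨b a, h a, (h1 a).2.2.1, rfl⟩
  have htn : ∀ a, Tn' f L (n a) (X.xx L (b a) (h a)) (X.tt L (b a) (h a) (x a)) := fun a =>
    hX.tt_tn (b a) (h1 a).2.2.1 (hxm a)
  have hwv : ∀ a, Wv M (X.xx L (b a) (h a)) (X.tt L (b a) (h a) (x a))
      (w (b a) (h a) (x a)) := fun a => hG.wv _ _ _ fun r => ((h1 a).2.2.1 r).2
  have hbot : ∀ a l, Nm (⊥ : IntermediateField K Ω) (L.Ur ⊥ (n a)) (w (b a) (h a) (x a) l) ∈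
      (⊥ : IntermediateField K Ω) := fun a l =>
    lz_bot (h1 a).1 (wve_mem ((hXe a).mem hX) (htn a).mem (hwv a) l)
  have hval : ∀ a, na (lam (dvb X.P (L.Ur ⊥ (n a)) (b a) (h a) (h' a)) -
      ∑ l, hh l (Nm (⊥ : IntermediateField K Ω) (L.Ur ⊥ (n a)) (w (b a) (h a) (x a) l))) ≤
        max C (D * C₀) * L.nm π ^ (2 * s) := by
    intro a
    have h3 := hT.app (n a) (b a) (h a) (x a) s (hN0 a) (h1 a).2.2.1 (hxm a) (by omega)
      (by omega) (hxs a)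
    rw [hhx a, ← ti_eq hX hP hf hπ hB hl hT (hN0 a) (h1 a).2.2.1 (hxm a),
      hs.val (n a) _ _ _ (hN0 a) (hXe a) (htn a) (hwv a)] at h3
    exact h3.trans (mul_le_mul_of_nonneg_right (le_max_left _ _) hpos)
  -- the sum of the traces
  have hsm : ∀ l, L.nm (∑ a ∈ S, e a • Nm (⊥ : IntermediateField K Ω) (L.Ur ⊥ (n a))
      (w (b a) (h a) (x a) l)) ≤ C₀ * (L.nm π ^ s * L.nm π ^ s) := by
    intro l
    have h3 := hG.small hA ht0 hCt S e (fun a => L.Ur ⊥ (n a)) (fun a _ => hfd a) b h h'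
      (fun a _ r => ((h1 a).2.2.1 r).2) (fun a _ r => ((h1 a).2.2.2.1 r).2)
      (fun a _ => (h1 a).2.2.2.2) hS l
    rw [hx]
    exact h3
  have hadd : ∀ l, ∑ a ∈ S, e a • hh l (Nm (⊥ : IntermediateField K Ω) (L.Ur ⊥ (n a))
      (w (b a) (h a) (x a) l)) =
      hh l (∑ a ∈ S, e a • Nm (⊥ : IntermediateField K Ω) (L.Ur ⊥ (n a))
        (w (b a) (h a) (x a) l)) := by
    intro l
    let H : (⊥ : IntermediateField K Ω) →+ B := AddMonoidHom.mk' (fun y => hh l (y : Ω))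
      fun y y' => hs.add l y y' y.2 y'.2
    have h3 := map_sum H (fun a => e a • (⟨Nm (⊥ : IntermediateField K Ω) (L.Ur ⊥ (n a))
      (w (b a) (h a) (x a) l), hbot a l⟩ : (⊥ : IntermediateField K Ω))) S
    simp only [map_zsmul] at h3
    have h4 : ((∑ a ∈ S, e a • (⟨Nm (⊥ : IntermediateField K Ω) (L.Ur ⊥ (n a))
      (w (b a) (h a) (x a) l), hbot a l⟩ : (⊥ : IntermediateField K Ω)) :
        (⊥ : IntermediateField K Ω)) : Ω) =
      ∑ a ∈ S, e a • Nm (⊥ : IntermediateField K Ω) (L.Ur ⊥ (n a))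
        (w (b a) (h a) (x a) l) := by
      push_cast
      rfl
    change hh l _ = _ at h3
    rw [h4] at h3
    exact h3.symm
  have hYm : ∀ l, ∑ a ∈ S, e a • Nm (⊥ : IntermediateField K Ω) (L.Ur ⊥ (n a))
      (w (b a) (h a) (x a) l) ∈ (⊥ : IntermediateField K Ω) := fun l =>
    sum_mem fun a _ => zsmul_mem (hbot a l) _
  have hY : na (∑ l, hh l (∑ a ∈ S, e a • Nm (⊥ : IntermediateField K Ω) (L.Ur ⊥ (n a))
      (w (b a) (h a) (x a) l))) ≤ max C (D * C₀) * L.nm π ^ (2 * s) := by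
    refine lz_sum hB _ (mul_nonneg hmax hpos) fun l _ => ?_
    refine (hs.bd l _ (hYm l)).trans ?_
    refine (mul_le_mul_of_nonneg_left (hsm l) hs.nonneg).trans ?_
    rw [← pow_add, ← two_mul, ← mul_assoc]
    exact mul_le_mul_of_nonneg_right (le_max_right _ _) hpos
  have e1 : lam (∑ a ∈ S, e a • dvb X.P (L.Ur ⊥ (n a)) (b a) (h a) (h' a)) =
      ∑ a ∈ S, e a • (lam (dvb X.P (L.Ur ⊥ (n a)) (b a) (h a) (h' a)) -
        ∑ l, hh l (Nm (⊥ : IntermediateField K Ω) (L.Ur ⊥ (n a)) (w (b a) (h a) (x a) l))) +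
      ∑ l, hh l (∑ a ∈ S, e a • Nm (⊥ : IntermediateField K Ω) (L.Ur ⊥ (n a))
        (w (b a) (h a) (x a) l)) := by
    rw [map_sum, Finset.sum_congr rfl fun l _ => (hadd l).symm, Finset.sum_comm,
      ← Finset.sum_add_distrib]
    refine Finset.sum_congr rfl fun a _ => ?_
    rw [map_zsmul, ← Finset.smul_sum, ← smul_add, sub_add_cancel]
  rw [e1]
  exact (hB.add _ _).trans (max_le (lz_sum hB _ (mul_nonneg hmax hpos) fun a _ =>
    (lz_zsmul hB _ _).trans (hval a)) hY)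

/-- A functional which is `0` on the rational equivalences and small on the levels vanishes on the kernel of the sum. -/
def Lste (M : Mf f A k) (L : Ld K Ω) (X : Bd f K Ω d m) (π : Ω) (e : ℕ) : Prop :=
  letI := A.G.grp Ω
  ∀ (_ : Fact L.p.Prime) (r : ℕ), e ≤ r → 1 ≤ r →
    ∀ lam : ((Xf f).pt Ω →₀ ℤ) →+ ℚ_[L.p], (∀ x ∈ (Xf f).ratEq K Ω, lam x = 0) →
      (∀ k : ℕ, ∀ x ∈ Vb L X.P π (r + k * e), ‖lam x‖ ≤ (L.p : ℝ) ^ (-(k : ℤ))) →
        ∀ z ∈ Vb L X.P π r, M.S Ω z = 0 → lam z = 0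

/-- **Block LAMBDA.** Proof: as `lst_of` in Lc/Z: `exists_bn` for `q = nm p`; `Lame` with `s₀ = r` and `C = nm π ^ (-(r + e))` (`vb_anti`); `exists_frob`, `Ld.frob_q`, `Ld.frob_te` give `Rf ⊥ r₀`; `exists_dte`, `ti_tpe`, `exists_hse`, `lame_small`. For `z ∈ Vb r`, `S z = 0`: `p ^ k z ∈ Vb (r + k e)` (`vb_mul`),
`p ^ k z = z_k + r_k`, `S z_k = 0` (`RS.rs`), so `na (p ^ k lam z) ≤ C₂ nm π ^ (2 (r + k e))` for all large `k`. -/
theorem lste_of (hX : X.Ok L) (hP : Bs L X.P) (hf : Hm f) (hπ : Uf L π)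
    (hcov : ∀ x, Zp (fo f Ω) x → ∃ i, MvPolynomial.eval (((X.ψ i).om Ω).uv x) ((X.ψ i).om Ω).D ≠ 0)
    (hG : X.Gl L) (hK : PL.DnK L) (hA : A.Ok) (hM : M.Ok) (hAl : M.Alb Ω) {e : ℕ}
    (he : L.nm (L.p : Ω) = L.nm π ^ e) (hcr : Crl L X π e) : Lste M L X π e := by
  let _ : AddCommGroup ((Xf A.a).pt Ω) := A.G.grp Ω
  intro hp r h0 h1 lam hrat hlev z hz hS
  change M.S Ω z = 0 at hS
  obtain ⟨na, hB, hna⟩ := exists_bn L.p (q := L.nm (L.p : Ω)) L.p_pos L.lt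
  obtain ⟨φ, q, hφ⟩ := exists_frob L.toLf (⊥ : IntermediateField K Ω)
  obtain ⟨r₀, hr0, hrq, -⟩ := Ld.frob_q hφ
  rw [hrq] at hφ
  obtain ⟨hr1, hr2⟩ := Ld.frob_te hφ
  have hr₀ : L.Rf ⊥ r₀ := ⟨hr0, sup_le le_rfl (adjoin_le_iff.2 fun z hz => hr2 z hz), hr1⟩
  have he0 : e ≠ 0 := by
    rintro rfl
    rw [pow_zero] at he
    exact L.lt.ne he
  have hq0 := hπ.pos
  -- the estimate of `lam`
  have hl : Lame X.P L π na lam r (L.nm π ^ (r + e))⁻¹ := by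
    refine ⟨inv_nonneg.2 (pow_nonneg hq0.le _), hrat, fun s hs z hz => ?_⟩
    obtain ⟨k, hk⟩ : ∃ k, k = (s - r) / e := ⟨_, rfl⟩
    have hk1 : k * e ≤ s - r := by rw [hk]; exact Nat.div_mul_le_self _ _
    have hk2 : s - r < (k + 1) * e := by
      rw [hk, mul_comm]
      exact Nat.lt_mul_div_succ _ (Nat.pos_of_ne_zero he0)
    have h3 : z ∈ Vb L X.P π (r + k * e) := vb_anti hπ (by omega : r + k * e ≤ s) hz
    have h4 := hna _ k (hlev k z h3)
    refine h4.trans ?_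
    rw [he, ← pow_mul, inv_mul_eq_div, le_div_iff₀ (pow_pos hq0 _), ← pow_add]
    refine hπ.pow_le ?_
    have h5 : (k + 1) * e = e * k + e := by ring
    omega
  obtain ⟨T, s₁, C₁, hT⟩ := exists_dte (r := r₀) hP hπ hB hl
  obtain ⟨D, hTp⟩ := ti_tpe hX hP hf hr₀ hπ hB hl hT he hcr
  obtain ⟨hh, D', hs⟩ := exists_hse (M := M) hX hf hcov hG hr₀ hB hTp hK hAl
  obtain ⟨C', s₂, hC'⟩ := lame_small hX hP hf hπ hr₀ hB hl hT hs hA hM
  -- the powers of `p`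
  have hpk : ∀ k : ℕ, L.p ^ k • z ∈ Vb L X.P π (r + k * e) := by
    intro k
    induction k with
    | zero => simpa using hz
    | succ k ih =>
      rw [pow_succ', mul_smul, add_mul, one_mul, ← add_assoc]
      refine vb_mul hP hπ he (by omega) le_rfl ?_ ih
      have h3 : 2 * (r + k * e) ≤ L.p * (r + k * e) := Nat.mul_le_mul_right _ L.pp.two_le
      omega
  have hnpk : ∀ (k : ℕ) (b : ℚ_[L.p]), na (L.p ^ k • b) = L.nm (L.p : Ω) ^ k * na b := by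
    intro k b
    induction k with
    | zero => rw [pow_zero, pow_zero, one_smul, one_mul]
    | succ k ih => rw [pow_succ', mul_smul, hB.mulp, ih, pow_succ', mul_assoc]
  have hfin : ∀ k : ℕ, s₂ ≤ k → na (lam z) ≤ |C'| * L.nm (L.p : Ω) ^ k := by
    intro k hk
    obtain ⟨a, ha, b, hb, hab⟩ := AddSubgroup.mem_sup.1 (hpk k)
    have hS' : M.S Ω a = 0 := by
      have h3 : M.S Ω (a + b) = 0 := by rw [hab, map_nsmul, hS, smul_zero]
      rwa [map_add, RS.rs (K := K) hf hA hM hb, add_zero] at h3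
    have hke : k * 1 ≤ k * e := Nat.mul_le_mul_left _ (Nat.one_le_iff_ne_zero.2 he0)
    have h3 := hC' (r + k * e) a (by omega) ha hS'
    have h4 : lam a = L.p ^ k • lam z := by
      have h5 : lam (a + b) = L.p ^ k • lam z := by rw [hab, map_nsmul]
      rwa [map_add, hrat b hb, add_zero] at h5
    rw [h4, hnpk] at h3
    have hpp : 0 < L.nm (L.p : Ω) ^ k := pow_pos L.p_pos k
    have h6 : L.nm π ^ (2 * (r + k * e)) ≤ L.nm (L.p : Ω) ^ k * L.nm (L.p : Ω) ^ k := by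
      rw [he, ← pow_mul, ← pow_add]
      refine hπ.pow_le ?_
      have h7 : 2 * (r + k * e) = 2 * r + (e * k + e * k) := by ring
      omega
    have h7 : L.nm (L.p : Ω) ^ k * na (lam z) ≤
        L.nm (L.p : Ω) ^ k * (|C'| * L.nm (L.p : Ω) ^ k) := by
      refine h3.trans ((mul_le_mul_of_nonneg_right (le_abs_self C')
        (pow_nonneg hq0.le _)).trans ((mul_le_mul_of_nonneg_left h6 (abs_nonneg _)).trans
          (le_of_eq ?_)))
      ring
    exact le_of_mul_le_mul_left h7 hpp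
  have hlim : Filter.Tendsto (fun k : ℕ => |C'| * L.nm (L.p : Ω) ^ k) Filter.atTop
      (nhds (|C'| * 0)) :=
    (tendsto_pow_atTop_nhds_zero_of_lt_one L.p_pos.le L.lt).const_mul _
  have h9 : na (lam z) ≤ 0 := by
    have h10 := ge_of_tendsto hlim (Filter.eventually_atTop.2 ⟨s₂, hfin⟩)
    rwa [mul_zero] at h10
  exact (hB.zero_iff _).1 (le_antisymm h9 (hB.nonneg _))

end GX
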