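import Pool.Agent.Lib.MP_f80667_ag.Ep.Lz
import Pool.Agent.Lib.MP_f80667_ag.Ep.Ldn

/-!
Block LAMBDA for the system of branches over `E`.
-/

open ZC BE PE CV IntermediateField

namespace GX

variable {F : Type} [Field F] {N N' k k' d m : ℕ} {ι ι' : Type} {f : ι → MvPolynomial (Fin N) F}
  {A : Gv F N' k' ι'} {M : Mf f A k}
  {K Ω : Type} [Field K] [CharZero K] [Field Ω] [Algebra K Ω] [Algebra F K] [Algebra F Ω]
  [IsScalarTower F K Ω] [IsAlgClosure K Ω] {L : Ld K Ω} {ψ : Fin m → Prj K N d}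
  {E : IntermediateField K Ω} {L' : Ld E Ω} {X : Bd f E Ω d m} {π : Ω}

/-- **Block LAMBDA for the branches over `E`.** -/
theorem Bg.lste [IsAlgClosure E Ω] (hX : Bg f L ψ E L' X) (hP : Bs L' X.P) (hf : Hm f)
    (hπ : Uf L' π) (hK : PL.DnK L) (hA : A.Ok) (hM : M.Ok) (hAl : M.Alb Ω) {e : ℕ}
    (he : L'.nm (L'.p : Ω) = L'.nm π ^ e) (hcr : Crl L' X π e) : Lste M L' X π e := by
  by_cases h0 : ∃ x : Fin N → Ω, Zp (fo f Ω) x
  · obtain ⟨x, hx⟩ := h0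
    exact lste_of hX.ok hP hf hπ (fun y hy => hX.hcov hf hy) (hX.gl hx)
      (PL.dnk_ext hK hX.fd hX.nm) hA hM hAl he hcr
  · have hemp : IsEmpty ((Xf f).pt Ω) := by
      refine ⟨fun P => h0 ?_⟩
      obtain ⟨x, hx⟩ := exists_co P
      exact ⟨x, om_zp.2 ⟨co_ne hx, co_zero hx⟩⟩
    intro _ r _ _ lam _ _ z _ _
    rw [Subsingleton.elim z 0, map_zero]

end GX
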