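import Pool.Agent.Lib.MP_f80667_ag.Ep.S
import Pool.Agent.Lib.MP_f80667_ag.Gx.ChE
import Pool.Agent.Lib.MP_f80667_ag.Gx.XHc

/-! Projections with integral coefficients: elementary facts. -/

open ZC BE PE CV IntermediateField

namespace GX

variable {F : Type} [Field F] {N d : ℕ} {ι : Type} {f : ι → MvPolynomial (Fin N) F} {K Ω : Type}
  [Field K] [Field Ω] [Algebra K Ω] [Algebra F K] [Algebra F Ω] [IsScalarTower F K Ω]
  {L : Ld K Ω} {ψ : Prj K N d} {M : IntermediateField K Ω} {c c' : Fin (d + 1) → Ω} {w w' : Ω}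

/-- `G (c, Y)`. -/
private noncomputable def chq {K Ω : Type} [Field K] [Field Ω] [Algebra K Ω] {d : ℕ}
    (c : Fin (d + 1) → Ω) (P : Polynomial (MvPolynomial (Fin (d + 1)) K)) : Polynomial Ω :=
  P.map (MvPolynomial.aeval c : MvPolynomial (Fin (d + 1)) K →ₐ[K] Ω).toRingHom

private theorem chq_eval {K Ω : Type} [Field K] [Field Ω] [Algebra K Ω] {d : ℕ}
    (c : Fin (d + 1) → Ω) (w : Ω) (P : Polynomial (MvPolynomial (Fin (d + 1)) K)) :
    (chq c P).eval w = pe c w P := by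
  rw [chq, Polynomial.eval_map, pe, Polynomial.coe_eval₂RingHom]

private theorem chq_der {K Ω : Type} [Field K] [Field Ω] [Algebra K Ω] {d : ℕ}
    (c : Fin (d + 1) → Ω) (w : Ω) (P : Polynomial (MvPolynomial (Fin (d + 1)) K)) :
    (Polynomial.derivative (chq c P)).eval w = pe c w (Polynomial.derivative P) := by
  rw [chq, Polynomial.derivative_map]
  exact chq_eval c w (Polynomial.derivative P)

private theorem chq_le {K Ω : Type} [Field K] [Field Ω] [Algebra K Ω] {L : Ld K Ω} {d : ℕ}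
    {c : Fin (d + 1) → Ω} {P : Polynomial (MvPolynomial (Fin (d + 1)) K)}
    (hP : ∀ j e, L.nm (algebraMap K Ω ((P.coeff j).coeff e)) ≤ 1)
    (hc : ∀ r, L.nm (c r) ≤ 1) (i : ℕ) : L.nm ((chq c P).coeff i) ≤ 1 := by
  rw [chq, Polynomial.coeff_map]
  exact GM.ae_le (hP i) hc

private theorem sa_pow {K Ω : Type} [Field K] [Field Ω] [Algebra K Ω] (L : Ld K Ω) {w ω : Ω}
    (hw : L.nm w ≤ 1) (hω : L.nm ω ≤ 1) (j : ℕ) :
    ∃ z, L.nm z ≤ 1 ∧ (w + ω) ^ j = w ^ j + j * w ^ (j - 1) * ω + z * ω ^ 2 := by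
  induction j with
  | zero =>
    refine ⟨0, ?_, ?_⟩
    · rw [L.zero]
      exact zero_le_one
    · rw [Nat.cast_zero, pow_zero, pow_zero]
      ring
  | succ j ih =>
    obtain ⟨z, hz, h1⟩ := ih
    refine ⟨j * w ^ (j - 1) + (w + ω) * z, ?_, ?_⟩
    · refine (L.add _ _).trans (max_le ?_ ?_)
      · rw [L.mul, L.pow]
        exact mul_le_one₀ (L.nat_le j) (pow_nonneg (L.nonneg _) _)
          (pow_le_one₀ (L.nonneg _) hw)
      · rw [L.mul]
        exact mul_le_one₀ ((L.add _ _).trans (max_le hw hω)) (L.nonneg _) hz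
    · rcases j with _ | j
      · rw [pow_zero, pow_zero, Nat.cast_zero] at h1
        have h2 : z * ω ^ 2 = 0 := by linear_combination -h1
        rw [Nat.cast_zero, zero_add, pow_one, pow_one, Nat.cast_one, Nat.sub_self, pow_zero]
        linear_combination (-(w + ω)) * h2
      · rw [pow_succ (w + ω) (j + 1), h1, Nat.add_sub_cancel, Nat.add_sub_cancel]
        push_cast
        ring

private theorem sa_tay {K Ω : Type} [Field K] [Field Ω] [Algebra K Ω] (L : Ld K Ω)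
    {q : Polynomial Ω} (hq : ∀ i, L.nm (q.coeff i) ≤ 1) {w ω : Ω}
    (hw : L.nm w ≤ 1) (hω : L.nm ω ≤ 1) : ∃ z, L.nm z ≤ 1 ∧ q.eval (w + ω) =
      q.eval w + (Polynomial.derivative q).eval w * ω + z * ω ^ 2 := by
  choose z hz h1 using sa_pow L hw hω
  refine ⟨∑ e ∈ q.support, q.coeff e * z e, ?_, ?_⟩
  · refine L.sum_le _ _ zero_le_one fun e _ => ?_
    rw [L.mul]
    exact mul_le_one₀ (hq e) (L.nonneg _) (hz e)
  · rw [Polynomial.derivative_eval, Polynomial.eval_eq_sum, Polynomial.eval_eq_sum,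
      Polynomial.sum, Polynomial.sum, Polynomial.sum, Finset.sum_mul, Finset.sum_mul,
      ← Finset.sum_add_distrib, ← Finset.sum_add_distrib]
    refine Finset.sum_congr rfl fun e _ => ?_
    rw [h1 e]
    ring

private theorem sa_sum {t : ℝ} (ht : 0 < t) {κ : Type} (s : Finset κ) (g : κ → Ω)
    (h : ∀ i ∈ s, L.nm (g i) < t) : L.nm (∑ i ∈ s, g i) < t := by
  classical
  induction s using Finset.induction_on with
  | empty =>
    rw [Finset.sum_empty, (L.zero_iff 0).2 rfl]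
    exact ht
  | insert a s ha ih =>
    rw [Finset.sum_insert ha]
    exact (L.add _ _).trans_lt (max_lt (h a (Finset.mem_insert_self _ _))
      (ih fun i hi => h i (Finset.mem_insert_of_mem hi)))

/-- The roots are integral. Proof: `G (c, Y)` is monic with integral coefficients. -/
theorem Pk.wl (hψ : Pk f L ψ) (hc : ∀ r, L.nm (c r) ≤ 1) (hG : pe c w ψ.G = 0) :
    L.nm w ≤ 1 := by
  exact L.root_le (hψ.mon.map _) (chq_le hψ.iG hc) (by
    change (chq c ψ.G).eval w = 0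
    rw [chq_eval]
    exact hG)

/-- Proof: `B G + B' G_Y = D`. -/
theorem Pk.gy (hψ : Pk f L ψ) (hc : ∀ r, L.nm (c r) ≤ 1) (hG : pe c w ψ.G = 0) :
    L.nm (MvPolynomial.aeval c ψ.D) ≤ L.nm (pe c w (Polynomial.derivative ψ.G)) := by
  obtain ⟨B, B', hB, hB', h1⟩ := hψ.bez
  have h2 := congrArg (pe c w) h1
  rw [map_add, map_mul, map_mul, pe_C, hG, mul_zero, zero_add] at h2
  rw [← h2, L.mul]
  exact mul_le_of_le_one_left (L.nonneg _) (pe_le hB' hc (hψ.wl hc hG))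

/-- Proof: `G_Y (c, w)` is the product of the differences of `w` with the other roots. (`G (c, Y) = (Y - w) (Y - w') E (Y)` with `E` integral.) -/
theorem Pk.sep (hψ : Pk f L ψ) (hc : ∀ r, L.nm (c r) ≤ 1) (hG : pe c w ψ.G = 0)
    (hG' : pe c w' ψ.G = 0) (hne : w ≠ w') :
    L.nm (pe c w (Polynomial.derivative ψ.G)) ≤ L.nm (w - w') := by
  have hw := hψ.wl hc hG
  have hw' := hψ.wl hc hG'
  obtain ⟨z, hz, h1⟩ := sa_tay L (q := chq c ψ.G) (chq_le hψ.iG hc) (w := w) (ω := w' - w) hw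
    ((L.sub _ _).trans (max_le hw' hw))
  rw [chq_eval, chq_eval, chq_der, add_sub_cancel, hG, hG'] at h1
  have h2 : w' - w ≠ 0 := fun h0 => hne (sub_eq_zero.1 h0).symm
  have h3 : (pe c w (Polynomial.derivative ψ.G)) = -(z * (w' - w)) := by
    refine mul_right_cancel₀ h2 ?_
    linear_combination -h1
  rw [h3, L.neg, L.mul, L.sub_comm w w']
  exact mul_le_of_le_one_left (L.nonneg _) hz

/-- Proof: homogeneous of positive degree with integral coefficients. -/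
theorem Pk.D_le (hψ : Pk f L ψ) (hc : ∀ r, L.nm (c r) ≤ 1) :
    ∃ r, L.nm (MvPolynomial.aeval c ψ.D) ≤ L.nm (c r) := by
  obtain ⟨i, -, hi⟩ := Finset.exists_max_image Finset.univ (fun r => L.nm (c r))
    ⟨0, Finset.mem_univ 0⟩
  obtain ⟨e, he, h⟩ := hψ.homD
  have h0 : MvPolynomial.aeval (fun _ => (0 : Ω)) ψ.D = 0 := by
    rw [MvPolynomial.aeval_zero', MvPolynomial.constantCoeff_eq, h.coeff_eq_zero, map_zero]
    rw [map_zero]
    exact he.symm
  have h1 := GM.ae_close (L := L) (G := ψ.D) hψ.iD (x := c) (y := fun _ => 0) hc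
    (fun r => by
      rw [(L.zero_iff 0).2 rfl]
      exact zero_le_one) (L.nonneg (c i)) fun r => by
      rw [sub_zero]
      exact hi r (Finset.mem_univ r)
  rw [h0, sub_zero] at h1
  exact ⟨i, h1⟩

/-- Proof: `u (A (c, w)) = D (c) c` (`inu`), `Pk.D_le`. -/
theorem Pk.am (hψ : Pk f L ψ) (hc : ∀ r, L.nm (c r) ≤ 1) (hG : pe c w ψ.G = 0)
    (hD : MvPolynomial.aeval c ψ.D ≠ 0) :
    ∃ j, L.nm (MvPolynomial.aeval c ψ.D) ^ 2 ≤ L.nm (pe c w (ψ.A j)) := by
  obtain ⟨r, hr⟩ := hψ.D_le hc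
  have h1 := hψ.inu c w hG r
  have hpos : 0 < L.nm (MvPolynomial.aeval c ψ.D) := L.pos hD
  have h2 : L.nm (MvPolynomial.aeval c ψ.D) ^ 2 ≤
      L.nm (ψ.uv (fun j => pe c w (ψ.A j)) r) := by
    rw [h1, L.mul, pow_two]
    exact mul_le_mul_of_nonneg_left hr hpos.le
  have h3 : ψ.uv (fun j => pe c w (ψ.A j)) r =
      ∑ j, algebraMap K Ω (ψ.u r j) * pe c w (ψ.A j) := rfl
  by_contra hcon
  push Not at hcon
  have h4 : L.nm (ψ.uv (fun j => pe c w (ψ.A j)) r) < L.nm (MvPolynomial.aeval c ψ.D) ^ 2 := by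
    rw [h3]
    refine sa_sum (pow_pos hpos 2) _ _ fun j _ => ?_
    rw [L.mul]
    exact (mul_le_of_le_one_left (L.nonneg _) (hψ.iu r j)).trans_lt (hcon j)
  exact absurd h2 (not_le.2 h4)

/-- Integral polynomials at integral points: `D`. (`GM.ae_le` and a Lipschitz estimate.) -/
theorem Pk.D_near (hψ : Pk f L ψ) (hc : ∀ r, L.nm (c r) ≤ 1) (hc' : ∀ r, L.nm (c' r) ≤ 1)
    {t : ℝ} (ht : 0 ≤ t) (h : ∀ r, L.nm (c' r - c r) ≤ t) :
    L.nm (MvPolynomial.aeval c' ψ.D - MvPolynomial.aeval c ψ.D) ≤ t := by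
  exact GM.ae_close hψ.iD hc' hc ht h

private theorem sa_pt (hψ : Pk f L ψ) (hD : MvPolynomial.aeval c ψ.D ≠ 0)
    (hG : pe c w ψ.G = 0) : ∃ p : (Xf f).pt Ω, Co p ((ψ.om Ω).pt c w) := by
  have hDne : MvPolynomial.eval c (ψ.om Ω).D ≠ 0 := by
    rw [om_D]
    exact hD
  obtain ⟨hz, -, -⟩ := hψ.ok.pt_zp (om_hom hψ.hom) (c := c) (w := w)
    (by rw [om_G]; exact hG) hDne
  exact co_mk (om_zp.1 hz).1 (om_zp.1 hz).2

/-- `Co`: the point above `(c, w)`, `D (c) ≠ 0`. Proof: `inX` (as `Pj.pt_iv`, `co_mk`); not `0` by `Pk.am`. -/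
theorem Pk.co (hψ : Pk f L ψ) (hD : MvPolynomial.aeval c ψ.D ≠ 0) (hG : pe c w ψ.G = 0) :
    ∃ p : (Xf f).pt Ω, Co p fun j => pe c w (ψ.A j) := by
  obtain ⟨p, hp⟩ := sa_pt hψ hD hG
  refine ⟨p, ?_⟩
  have h1 := co_smul hψ.hom hp hD
  have h2 : (fun j => MvPolynomial.aeval c ψ.D * (ψ.om Ω).pt c w j) =
      fun j => pe c w (ψ.A j) := by
    funext j
    rw [om_pt, mul_div_cancel₀ _ hD]
  rwa [h2] at h1

/-- Two points of the variety over proportional points `(c, w)`, `(c', w')`, `D (c) ≠ 0`, are equal. Proof: `onX`: `A_j (u (x), y (x)) = D (u (x)) x_j` for the coordinates `x = A (c, w) / D (c)` with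
`u (x) = c`, `y (x) = w`, and for `t x`. -/
theorem Pk.prop (hψ : Pk f L ψ) (hD : MvPolynomial.aeval c ψ.D ≠ 0) (hG : pe c w ψ.G = 0)
    {t : Ω} (ht : t ≠ 0) {p p' : (Xf f).pt Ω} (hp : Co p fun j => pe c w (ψ.A j))
    (hp' : Co p' fun j => pe (fun r => t * c r) (t * w) (ψ.A j)) : p = p' := by
  have hDne : MvPolynomial.eval c (ψ.om Ω).D ≠ 0 := by
    rw [om_D]
    exact hD
  obtain ⟨-, h2, h3, -⟩ := hψ.ok.pt_smul (om_hom hψ.hom) (c := c) (w := w)
    (by rw [om_G]; exact hG) hDne ht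
  have hD' : MvPolynomial.aeval (fun r => t * c r) ψ.D ≠ 0 := by
    rw [← om_D]
    exact h2
  have h4 : Co p' fun j => t * (MvPolynomial.aeval (fun r => t * c r) ψ.D *
      (MvPolynomial.aeval c ψ.D)⁻¹) * pe c w (ψ.A j) := by
    have h5 : (fun j => t * (MvPolynomial.aeval (fun r => t * c r) ψ.D *
        (MvPolynomial.aeval c ψ.D)⁻¹) * pe c w (ψ.A j)) =
        fun j => pe (fun r => t * c r) (t * w) (ψ.A j) := by
      funext j
      have h6 : (ψ.om Ω).pt (fun r => t * c r) (t * w) j = t * (ψ.om Ω).pt c w j :=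
        congrFun h3 j
      rw [om_pt, om_pt, div_eq_iff hD'] at h6
      rw [h6]
      field_simp
    rw [h5]
    exact hp'
  exact co_eq (co_smul hψ.hom hp (mul_ne_zero ht (mul_ne_zero hD' (inv_ne_zero hD)))) h4

/-- If `p` has the coordinates `A (c, w)` and the coordinates `x`, then `u (x)`, `y (x)` are proportional to `c`, `w`. -/
theorem Pk.uv (hψ : Pk f L ψ) (hD : MvPolynomial.aeval c ψ.D ≠ 0) (hG : pe c w ψ.G = 0)
    {p : (Xf f).pt Ω} (hp : Co p fun j => pe c w (ψ.A j)) {x : Fin N → Ω} (hx : Co p x) :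
    ∃ t : Ω, t ≠ 0 ∧ (∀ r, ψ.uv x r = t * c r) ∧ ψ.yv x = t * w := by
  obtain ⟨s, hs, h1⟩ := co_rel hp hx
  have h2 : x = s • fun j => pe c w (ψ.A j) := funext h1
  refine ⟨s * MvPolynomial.aeval c ψ.D, mul_ne_zero hs hD, fun r => ?_, ?_⟩
  · have h3 : ψ.uv x r = s * ψ.uv (fun j => pe c w (ψ.A j)) r := by
      rw [h2]
      exact lv_smul (ψ.u r) _ s
    rw [h3, hψ.inu c w hG r, mul_assoc]
  · have h3 : ψ.yv x = s * ψ.yv (fun j => pe c w (ψ.A j)) := by
      rw [h2]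
      exact lv_smul ψ.y _ s
    rw [h3, hψ.iny c w hG, mul_assoc]

end GX
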