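import Pool.Agent.Lib.MP_f80667_ag.Ep.Y
import Pool.Agent.Lib.MP_f80667_ag.Ep.Sa

/-!
(2.3) The chart for two near points.

* `Mq L ψ M y y' ε t c c' w w'`: the points `y`, `y'` are the points over `(c, w)`, `(c', w')` in the chart `ψ`.
-/

open ZC BE PE CV IntermediateField

namespace GX

variable {F : Type} [Field F] {N d m : ℕ} {ι : Type} {f : ι → MvPolynomial (Fin N) F}
  {K Ω : Type} [Field K] [CharZero K] [Field Ω] [Algebra K Ω] [Algebra F K] [Algebra F Ω]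
  [IsScalarTower F K Ω] [IsAlgClosure K Ω] {L : Ld K Ω}

/-- The points `y`, `y'` are the points over `(c, w)`, `(c', w')`. -/
structure Mq (L : Ld K Ω) (ψ : Prj K N d) (M : IntermediateField K Ω) (y y' : (Xf f).pt Ω)
    (ε t : ℝ) (c c' : Fin (d + 1) → Ω) (w w' : Ω) : Prop where
  ic : Iv L M c
  ic' : Iv L M c'
  iw : w ∈ M ∧ L.nm w ≤ 1
  iw' : w' ∈ M ∧ L.nm w' ≤ 1
  G : pe c w ψ.G = 0
  G' : pe c' w' ψ.G = 0
  D : ε ≤ L.nm (MvPolynomial.aeval c ψ.D)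
  D' : ε ≤ L.nm (MvPolynomial.aeval c' ψ.D)
  co : Co y fun j => pe c w (ψ.A j)
  co' : Co y' fun j => pe c' w' (ψ.A j)
  cc : ∀ r, L.nm (c' r - c r) ≤ t
  ww : L.nm (w' - w) ≤ t

/-- Normalized coordinates over `M`. Proof: `nrh_nco`, `fp_mem`. -/
theorem ma_co (hf : Hm f) {M : IntermediateField K Ω} {y y' : (Xf f).pt Ω}
    (hy : Fp (Xf f) M y) (hy' : Fp (Xf f) M y') {t : ℝ} (ht : t < 1) (h : Nrh f L t y y') :
    ∃ x x' : Fin N → Ω, Co y x ∧ Co y' x' ∧ Iv L M x ∧ Iv L M x' ∧ (∃ k, x k = 1) ∧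
      ∀ j, L.nm (x' j - x j) ≤ t := by
  obtain ⟨x, x', i, h1, h2, h3, h4, h5, h6, h7⟩ := nrh_nco hf ht h
  exact ⟨x, x', h1, h2, fun j => ⟨fp_mem hy h1 h3 j, h5 j⟩, fun j => ⟨fp_mem hy' h2 h4 j, h6 j⟩,
    ⟨i, h3⟩, fun j => by rw [L.sub_comm]; exact h7 j⟩

variable {ψ : Fin m → Prj K N d} {E : IntermediateField K Ω} {L' : Ld E Ω} {X : Bd f E Ω d m}

/-- **The chart.** Proof: `ma_co`, `Bg.cov`: `i`; `c = u (x)`, `w = y (x)`, `c' = u (x')`, `w' = y (x')` (`Pk.iu`, `iy`, `lv_mem` ..); `onX` (coordinates of a point: `co_zero`, `co_ne`): `G = 0` and `A_j (c, w) = D (c) x_j`, so `Co` (`co_smul`, `D (c) ≠ 0`);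
`D_near` with `t < ε`: `nm D (c') = nm D (c)`. -/
theorem Bg.mq (hX : Bg f L ψ E L' X) {M : IntermediateField K Ω} {y y' : (Xf f).pt Ω}
    (hy : Fp (Xf f) M y) (hy' : Fp (Xf f) M y') {t : ℝ} (ht0 : 0 ≤ t) (ht : t < X.ε)
    (h : Nrh f L t y y') : ∃ i c c' w w', Mq L (ψ i) M y y' X.ε t c c' w w' := by
  have hε1 : X.ε < 1 := hX.ok.εp.trans_lt L'.lt
  have hf : Hm f := by
    obtain ⟨x, x', h1, -, h3, -, h5, -, -⟩ := h
    obtain ⟨i, -⟩ := hX.cov x h3 h5 (co_zero h1)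
    exact (hX.pk i).hom
  obtain ⟨x, x', h1, h2, h3, h4, ⟨k, hk⟩, h5⟩ := ma_co hf hy hy' (ht.trans hε1) h
  obtain ⟨i, hi⟩ := hX.cov x (fun j => (h3 j).2) ⟨k, by rw [hk, L.one]⟩ (co_zero h1)
  have hψ := hX.pk i
  have ic : Iv L M ((ψ i).uv x) := fun r =>
    ⟨lv_mem _ fun j => (h3 j).1, lv_le (hψ.iu r) fun j => (h3 j).2⟩
  have ic' : Iv L M ((ψ i).uv x') := fun r =>
    ⟨lv_mem _ fun j => (h4 j).1, lv_le (hψ.iu r) fun j => (h4 j).2⟩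
  have cc : ∀ r, L.nm ((ψ i).uv x' r - (ψ i).uv x r) ≤ t := fun r => lv_close (hψ.iu r) ht0 h5
  obtain ⟨g1, g2⟩ := hψ.onX x (co_ne h1) (co_zero h1)
  obtain ⟨g1', g2'⟩ := hψ.onX x' (co_ne h2) (co_zero h2)
  have hD' : X.ε ≤ L.nm (MvPolynomial.aeval ((ψ i).uv x') (ψ i).D) := by
    have k1 := hψ.D_near (fun r => (ic r).2) (fun r => (ic' r).2) ht0 cc
    have k2 := L.add_eq ((k1.trans_lt ht).trans_le hi)
    rw [sub_add_cancel] at k2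
    rw [k2]
    exact hi
  have n1 : MvPolynomial.aeval ((ψ i).uv x) (ψ i).D ≠ 0 :=
    L.ne_zero (hX.ok.ε0.trans_le hi)
  have n2 : MvPolynomial.aeval ((ψ i).uv x') (ψ i).D ≠ 0 :=
    L.ne_zero (hX.ok.ε0.trans_le hD')
  have c1 : Co y fun j => pe ((ψ i).uv x) ((ψ i).yv x) ((ψ i).A j) := by
    have e : (fun j => pe ((ψ i).uv x) ((ψ i).yv x) ((ψ i).A j)) =
        fun j => MvPolynomial.aeval ((ψ i).uv x) (ψ i).D * x j := funext g2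
    rw [e]
    exact co_smul hf h1 n1
  have c2 : Co y' fun j => pe ((ψ i).uv x') ((ψ i).yv x') ((ψ i).A j) := by
    have e : (fun j => pe ((ψ i).uv x') ((ψ i).yv x') ((ψ i).A j)) =
        fun j => MvPolynomial.aeval ((ψ i).uv x') (ψ i).D * x' j := funext g2'
    rw [e]
    exact co_smul hf h2 n2
  exact ⟨i, (ψ i).uv x, (ψ i).uv x', (ψ i).yv x, (ψ i).yv x', ic, ic',
    ⟨lv_mem _ fun j => (h3 j).1, lv_le hψ.iy fun j => (h3 j).2⟩,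
    ⟨lv_mem _ fun j => (h4 j).1, lv_le hψ.iy fun j => (h4 j).2⟩, g1, g1', hi, hD', c1, c2, cc,
    lv_close hψ.iy ht0 h5⟩

end GX
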