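import Pool.Agent.Lib.MP_f80667_ag.Gx.XC

/-!
(2.3) The arc through `c` (at `0`), `c + T v` (at `T`) and `γ` (at `1`).
-/

open ZC BE PE CV IntermediateField

namespace GX

variable {K Ω : Type} [Field K] [Field Ω] [Algebra K Ω] {L : Ld K Ω} {d : ℕ}
  {c v γ : Fin (d + 1) → Ω} {T : Ω}

/-- The arc `c + z (1 - z) v / (1 - T) + z (z - T) (γ - c) / (1 - T)`. -/
noncomputable def mva (c v γ : Fin (d + 1) → Ω) (T : Ω) : Fin (d + 1) → Polynomial Ω :=
  fun r => Polynomial.C (c r) +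
    Polynomial.X * (1 - Polynomial.X) * Polynomial.C ((1 - T)⁻¹ * v r) +
    Polynomial.X * (Polynomial.X - Polynomial.C T) * Polynomial.C ((1 - T)⁻¹ * (γ r - c r))

private theorem mva_form (r : Fin (d + 1)) : mva c v γ T r =
    Polynomial.C (c r) + Polynomial.C ((1 - T)⁻¹ * v r -
      T * ((1 - T)⁻¹ * (γ r - c r))) * Polynomial.X + Polynomial.C
        ((1 - T)⁻¹ * (γ r - c r) - (1 - T)⁻¹ * v r) * Polynomial.X ^ 2 := by
  simp only [mva, map_sub, map_mul]
  ring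

theorem mva_zero : (fun r => (mva c v γ T r).eval 0) = c := by
  funext r
  simp [mva]

theorem mva_T (hT : T ≠ 1) : (fun r => (mva c v γ T r).eval T) = c + T • v := by
  have h1 : (1 : Ω) - T ≠ 0 := sub_ne_zero.2 hT.symm
  funext r
  simp only [mva, Polynomial.eval_add, Polynomial.eval_mul, Polynomial.eval_sub,
    Polynomial.eval_C, Polynomial.eval_X, Polynomial.eval_one, Pi.add_apply, Pi.smul_apply,
    smul_eq_mul]
  field_simp
  ring

theorem mva_one (hT : T ≠ 1) : (fun r => (mva c v γ T r).eval 1) = γ := by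
  have h1 : (1 : Ω) - T ≠ 0 := sub_ne_zero.2 hT.symm
  funext r
  simp only [mva, Polynomial.eval_add, Polynomial.eval_mul, Polynomial.eval_sub,
    Polynomial.eval_C, Polynomial.eval_X, Polynomial.eval_one]
  field_simp
  ring

theorem mva_deg (r : Fin (d + 1)) : (mva c v γ T r).natDegree ≤ 2 := by
  rw [mva_form]
  compute_degree

/-- Proof: `1 - T` is a unit of `M`. -/
theorem mva_arc {M : IntermediateField K Ω} (hc : Iv L M c) (hv : Iv L M v) (hγ : Iv L M γ)
    (hT : T ∈ M) (hT1 : L.nm T < 1) : Arc L M (mva c v γ T) := by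
  have h1 : L.nm (1 - T) = 1 := by
    rw [sub_eq_add_neg]
    exact L.one_add (by rw [L.neg]; exact hT1)
  have hi : L.nm (1 - T)⁻¹ = 1 := by rw [L.inv, h1, inv_one]
  have hiM : (1 - T)⁻¹ ∈ M := inv_mem (sub_mem (one_mem M) hT)
  intro r j
  have hA : (1 - T)⁻¹ * v r ∈ M ∧ L.nm ((1 - T)⁻¹ * v r) ≤ 1 :=
    ⟨mul_mem hiM (hv r).1, by rw [L.mul, hi, one_mul]; exact (hv r).2⟩
  have hB : (1 - T)⁻¹ * (γ r - c r) ∈ M ∧ L.nm ((1 - T)⁻¹ * (γ r - c r)) ≤ 1 :=
    ⟨mul_mem hiM (sub_mem (hγ r).1 (hc r).1), by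
      rw [L.mul, hi, one_mul]
      exact (L.sub _ _).trans (max_le (hγ r).2 (hc r).2)⟩
  rw [mva_form]
  match j with
  | 0 =>
    have e : (Polynomial.C (c r) + Polynomial.C ((1 - T)⁻¹ * v r -
        T * ((1 - T)⁻¹ * (γ r - c r))) * Polynomial.X + Polynomial.C
          ((1 - T)⁻¹ * (γ r - c r) - (1 - T)⁻¹ * v r) * Polynomial.X ^ 2).coeff 0 = c r := by
      simp
    rw [e]
    exact hc r
  | 1 =>
    have e : (Polynomial.C (c r) + Polynomial.C ((1 - T)⁻¹ * v r -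
        T * ((1 - T)⁻¹ * (γ r - c r))) * Polynomial.X + Polynomial.C
          ((1 - T)⁻¹ * (γ r - c r) - (1 - T)⁻¹ * v r) * Polynomial.X ^ 2).coeff 1 =
        (1 - T)⁻¹ * v r - T * ((1 - T)⁻¹ * (γ r - c r)) := by
      rw [Polynomial.coeff_add, Polynomial.coeff_add, Polynomial.coeff_C_succ,
        Polynomial.coeff_C_mul, Polynomial.coeff_C_mul, Polynomial.coeff_X_one,
        Polynomial.coeff_X_pow, if_neg (by norm_num), mul_zero, add_zero, zero_add, mul_one]
    rw [e]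
    refine ⟨sub_mem hA.1 (mul_mem hT hB.1), (L.sub _ _).trans (max_le hA.2 ?_)⟩
    rw [L.mul]
    exact mul_le_one₀ hT1.le (L.nonneg _) hB.2
  | 2 =>
    have e : (Polynomial.C (c r) + Polynomial.C ((1 - T)⁻¹ * v r -
        T * ((1 - T)⁻¹ * (γ r - c r))) * Polynomial.X + Polynomial.C
          ((1 - T)⁻¹ * (γ r - c r) - (1 - T)⁻¹ * v r) * Polynomial.X ^ 2).coeff 2 =
        (1 - T)⁻¹ * (γ r - c r) - (1 - T)⁻¹ * v r := by
      rw [Polynomial.coeff_add, Polynomial.coeff_add, Polynomial.coeff_C_succ,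
        Polynomial.coeff_C_mul, Polynomial.coeff_C_mul, Polynomial.coeff_X,
        Polynomial.coeff_X_pow, if_neg (by norm_num), if_pos rfl, mul_zero, zero_add, zero_add,
        mul_one]
    rw [e]
    exact ⟨sub_mem hB.1 hA.1, (L.sub _ _).trans (max_le hB.2 hA.2)⟩
  | j + 3 =>
    have e : (Polynomial.C (c r) + Polynomial.C ((1 - T)⁻¹ * v r -
        T * ((1 - T)⁻¹ * (γ r - c r))) * Polynomial.X + Polynomial.C
          ((1 - T)⁻¹ * (γ r - c r) - (1 - T)⁻¹ * v r) * Polynomial.X ^ 2).coeff (j + 3) = 0 := by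
      rw [Polynomial.coeff_add, Polynomial.coeff_add, Polynomial.coeff_C_succ,
        Polynomial.coeff_C_mul, Polynomial.coeff_C_mul, Polynomial.coeff_X,
        Polynomial.coeff_X_pow, if_neg (by omega), if_neg (by omega), mul_zero, mul_zero,
        zero_add, zero_add]
    rw [e, (L.zero_iff 0).2 rfl]
    exact ⟨zero_mem M, zero_le_one⟩

/-- A Lipschitz estimate for arcs. -/
theorem arc_lip {M : IntermediateField K Ω} {a : Fin (d + 1) → Polynomial Ω} (ha : Arc L M a)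
    {z z' : Ω} (hz : L.nm z ≤ 1) (hz' : L.nm z' ≤ 1) (r : Fin (d + 1)) :
    L.nm ((a r).eval z' - (a r).eval z) ≤ L.nm (z' - z) := by
  exact L.eval_close (fun i => (ha r i).2) hz' hz

theorem arc_iv {M M' : IntermediateField K Ω} (hM : M ≤ M') {a : Fin (d + 1) → Polynomial Ω}
    (ha : Arc L M a) {z : Ω} (hz : z ∈ M') (hz1 : L.nm z ≤ 1) :
    Iv L M' fun r => (a r).eval z := by
  intro r
  refine ⟨?_, L.eval_le (fun i => (ha r i).2) hz1⟩
  change (a r).eval z ∈ M'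
  rw [Polynomial.eval_eq_sum_range]
  exact sum_mem fun i _ => mul_mem (hM (ha r i).1) (pow_mem hz i)

end GX
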