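import Pool.Agent.Lib.MP_f80667_ag.Gx.XC

/-!
(2.3) The nodes and the polynomial with the zeros `0` and the nodes.

* `Nod L E δ S`: `S` is a finite set of elements of `E` near `1`, stable under the Galois group of `K`, each of them generates `E`.
* `mb S`: the polynomial `z ∏ (z - s)`, `s ∈ S`.
-/

open ZC BE PE CV IntermediateField

namespace GX

variable {K Ω : Type} [Field K] [Field Ω] [Algebra K Ω] {L : Ld K Ω}
  {E : IntermediateField K Ω} {δ : ℝ} {S : Finset Ω}

/-- The nodes. -/
structure Nod (L : Ld K Ω) (E : IntermediateField K Ω) (δ : ℝ) (S : Finset Ω) : Prop where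
  mem : ∀ z ∈ S, z ∈ E
  near : ∀ z ∈ S, L.nm (z - 1) ≤ δ
  act : ∀ γ : Ω ≃ₐ[K] Ω, ∀ z ∈ S, γ z ∈ S
  gen : ∀ z ∈ S, ∀ γ : Ω ≃ₐ[K] Ω, γ z = z → γ ∈ E.fixingSubgroup

/-- The polynomial `z ∏ (z - s)`. -/
noncomputable def mb (S : Finset Ω) : Polynomial Ω :=
  Polynomial.X * ∏ s ∈ S, (Polynomial.X - Polynomial.C s)

theorem mb_monic : (mb S).Monic :=
  Polynomial.monic_X.mul (Polynomial.monic_prod_of_monic _ _ fun s _ => Polynomial.monic_X_sub_C s)

theorem mb_deg : (mb S).natDegree = S.card + 1 := by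
  have h1 : (∏ s ∈ S, (Polynomial.X - Polynomial.C s)).Monic :=
    Polynomial.monic_prod_of_monic _ _ fun s _ => Polynomial.monic_X_sub_C s
  have h2 : (∏ s ∈ S, (Polynomial.X - Polynomial.C s)).natDegree = S.card := by
    rw [Polynomial.natDegree_prod_of_monic _ _ fun s _ => Polynomial.monic_X_sub_C s]
    simp
  rw [mb, Polynomial.monic_X.natDegree_mul h1, Polynomial.natDegree_X, h2, add_comm]

private theorem mc_one (h : Nod L E δ S) (hδ : δ < 1) {s : Ω} (hs : s ∈ S) : L.nm s = 1 := by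
  have h1 : L.nm (s - 1) < L.nm (1 : Ω) := by
    rw [L.one]
    exact (h.near s hs).trans_lt hδ
  rw [L.eq_of_close h1, L.one]

private theorem mc_zero (h : Nod L E δ S) (hδ : δ < 1) : (0 : Ω) ∉ S := by
  intro h0
  have h1 := mc_one h hδ h0
  rw [L.zero] at h1
  exact zero_ne_one h1

private theorem mc_mul {P Q : Polynomial Ω} (hP : ∀ j, L.nm (P.coeff j) ≤ 1)
    (hQ : ∀ j, L.nm (Q.coeff j) ≤ 1) (j : ℕ) : L.nm ((P * Q).coeff j) ≤ 1 := by
  rw [Polynomial.coeff_mul]
  refine L.sum_le _ _ zero_le_one fun i _ => ?_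
  rw [L.mul]
  exact mul_le_one₀ (hP _) (L.nonneg _) (hQ _)

private theorem mc_X (j : ℕ) : L.nm ((Polynomial.X : Polynomial Ω).coeff j) ≤ 1 := by
  rw [Polynomial.coeff_X]
  split_ifs
  · exact L.one.le
  · rw [L.zero]
    exact zero_le_one

private theorem mc_C {s : Ω} (hs : L.nm s ≤ 1) (j : ℕ) :
    L.nm ((Polynomial.X - Polynomial.C s : Polynomial Ω).coeff j) ≤ 1 := by
  rw [Polynomial.coeff_sub]
  refine (L.sub _ _).trans (max_le (mc_X j) ?_)
  rw [Polynomial.coeff_C]
  split_ifs
  · exact hs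
  · rw [L.zero]
    exact zero_le_one

private theorem mc_int (T : Finset Ω) (hT : ∀ s ∈ T, L.nm s ≤ 1) (j : ℕ) :
    L.nm ((∏ s ∈ T, (Polynomial.X - Polynomial.C s) : Polynomial Ω).coeff j) ≤ 1 := by
  classical
  induction T using Finset.induction_on generalizing j with
  | empty =>
    rw [Finset.prod_empty, Polynomial.coeff_one]
    split_ifs
    · exact L.one.le
    · rw [L.zero]
      exact zero_le_one
  | insert a T ha ih =>
    rw [Finset.prod_insert ha]
    exact mc_mul (mc_C (hT a (Finset.mem_insert_self a T)))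
      (ih fun s hs => hT s (Finset.mem_insert_of_mem hs)) j

private theorem mc_map (h : Nod L E δ S) (γ : Ω ≃ₐ[K] Ω) :
    (GX.mb S).map (γ : Ω →+* Ω) = GX.mb S := by
  have h1 : ∏ s ∈ S, (Polynomial.X - Polynomial.C (γ s)) = ∏ s ∈ S, (Polynomial.X - Polynomial.C s) := by
    have h2 : Function.Injective γ := γ.injective
    have h3 : S.map ⟨γ, h2⟩ = S := by
      refine Finset.eq_of_subset_of_card_le (fun z hz => ?_) (Finset.card_map _).ge
      obtain ⟨w, hw, rfl⟩ := Finset.mem_map.1 hz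
      exact h.act γ w hw
    have h4 := Finset.prod_map S ⟨γ, h2⟩ (fun s => (Polynomial.X - Polynomial.C s : Polynomial Ω))
    rw [h3] at h4
    exact h4.symm
  rw [GX.mb, Polynomial.map_mul, Polynomial.map_X, Polynomial.map_prod]
  simp only [Polynomial.map_sub, Polynomial.map_X, Polynomial.map_C]
  exact congrArg (fun P => Polynomial.X * P) h1

/-- Proof: the coefficients are invariant (`Nod.act`) and integral (`nm s = 1`). -/
theorem Nod.mb [CharZero K] [IsAlgClosure K Ω] (h : Nod L E δ S) (hδ : δ < 1) (j : ℕ) :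
    (GX.mb S).coeff j ∈ (⊥ : IntermediateField K Ω) ∧ L.nm ((GX.mb S).coeff j) ≤ 1 := by
  constructor
  · have hac : Algebra.IsAlgebraic K Ω := IsAlgClosure.isAlgebraic
    have hcl : IsAlgClosed Ω := IsAlgClosure.isAlgClosed K
    have hg : IsGalois K Ω := ⟨⟩
    rw [IntermediateField.mem_bot]
    refine (InfiniteGalois.mem_range_algebraMap_iff_fixed (k := K) _).2 fun γ => ?_
    have h1 := congrArg (fun P => Polynomial.coeff P j) (mc_map h γ)
    rw [Polynomial.coeff_map] at h1
    exact h1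
  · rw [GX.mb]
    exact mc_mul mc_X (mc_int S fun s hs => (mc_one h hδ hs).le) j

/-- The roots. Proof: `0 ∉ S` is not needed. -/
theorem mb_root {z : Ω} : (mb S).eval z = 0 ↔ z = 0 ∨ z ∈ S := by
  rw [mb, Polynomial.eval_mul, Polynomial.eval_X, Polynomial.eval_prod, mul_eq_zero,
    Finset.prod_eq_zero_iff]
  refine or_congr Iff.rfl ⟨?_, fun hz => ⟨z, hz, ?_⟩⟩
  · rintro ⟨s, hs, h1⟩
    rw [Polynomial.eval_sub, Polynomial.eval_X, Polynomial.eval_C, sub_eq_zero] at h1
    rw [h1]
    exact hs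
  · rw [Polynomial.eval_sub, Polynomial.eval_X, Polynomial.eval_C, sub_self]

private theorem mc_prod (T : Finset Ω) (f : Ω → Ω) (hf : ∀ s ∈ T, L.nm (f s) = 1) :
    L.nm (∏ s ∈ T, f s) = 1 := by
  classical
  induction T using Finset.induction_on with
  | empty => rw [Finset.prod_empty, L.one]
  | insert a T ha ih =>
    rw [Finset.prod_insert ha, L.mul, hf a (Finset.mem_insert_self a T),
      ih fun s hs => hf s (Finset.mem_insert_of_mem hs), mul_one]

/-- The derivative at `0` is a unit. Proof: `∏ (- s)`, `nm s = 1`. -/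
theorem Nod.der_zero (h : Nod L E δ S) (hδ : δ < 1) :
    L.nm ((Polynomial.derivative (GX.mb S)).eval 0) = 1 := by
  rw [GX.mb, Polynomial.derivative_mul, Polynomial.derivative_X, one_mul, Polynomial.eval_add,
    Polynomial.eval_mul, Polynomial.eval_X, zero_mul, add_zero, Polynomial.eval_prod]
  refine mc_prod S _ fun s hs => ?_
  rw [Polynomial.eval_sub, Polynomial.eval_X, Polynomial.eval_C, zero_sub, L.neg, mc_one h hδ hs]

/-- The derivatives at the nodes are not `0`, so they have a positive lower bound. Proof: the roots are different (`0 ∉ S`: `nm s = 1`); a finite set. -/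
theorem Nod.der (h : Nod L E δ S) (hδ : δ < 1) : ∃ e : ℝ, 0 < e ∧ e ≤ 1 ∧
    ∀ z, (GX.mb S).eval z = 0 → e ≤ L.nm ((Polynomial.derivative (GX.mb S)).eval z) := by
  classical
  have hsep : (GX.mb S).Separable := by
    have h0 := mc_zero h hδ
    have h1 : GX.mb S = ∏ s ∈ insert 0 S, (Polynomial.X - Polynomial.C s) := by
      rw [GX.mb, Finset.prod_insert h0, Polynomial.C_0, sub_zero]
    rw [h1]
    exact Polynomial.separable_prod_X_sub_C_iff'.2 fun x _ y _ hxy => hxy
  have hne : ∀ z, (GX.mb S).eval z = 0 → (Polynomial.derivative (GX.mb S)).eval z ≠ 0 := by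
    intro z hz hz'
    obtain ⟨a, b, hab⟩ := hsep
    have h2 := congrArg (fun P => Polynomial.eval z P) hab
    simp only [Polynomial.eval_add, Polynomial.eval_mul, hz, hz', mul_zero, add_zero,
      Polynomial.eval_one] at h2
    exact zero_ne_one h2
  have hfin : ∀ T : Finset Ω, (∀ z ∈ T, (GX.mb S).eval z = 0) → ∃ e : ℝ, 0 < e ∧ e ≤ 1 ∧
      ∀ z ∈ T, e ≤ L.nm ((Polynomial.derivative (GX.mb S)).eval z) := by
    intro T
    induction T using Finset.induction_on with
    | empty => exact fun _ => ⟨1, one_pos, le_rfl, fun z hz => absurd hz (Finset.notMem_empty z)⟩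
    | insert a T ha ih =>
      intro hT
      obtain ⟨e, he, he1, h3⟩ := ih fun z hz => hT z (Finset.mem_insert_of_mem hz)
      refine ⟨min e (L.nm ((Polynomial.derivative (GX.mb S)).eval a)),
        lt_min he (L.pos (hne a (hT a (Finset.mem_insert_self a T)))), (min_le_left _ _).trans he1,
        fun z hz => ?_⟩
      rcases Finset.mem_insert.1 hz with rfl | hz
      · exact min_le_right _ _
      · exact (min_le_left _ _).trans (h3 z hz)
  obtain ⟨e, he, he1, h4⟩ := hfin (insert 0 S) fun z hz => mb_root.2 (Finset.mem_insert.1 hz)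
  exact ⟨e, he, he1, fun z hz => h4 z (Finset.mem_insert.2 (mb_root.1 hz))⟩

/-- The value at `T`, `nm T < 1`. Proof: `nm (T - s) = 1`. -/
theorem Nod.val (h : Nod L E δ S) (hδ : δ < 1) {T : Ω} (hT : L.nm T < 1) :
    L.nm ((GX.mb S).eval T) = L.nm T := by
  rw [GX.mb, Polynomial.eval_mul, Polynomial.eval_X, L.mul, Polynomial.eval_prod,
    mc_prod S _ fun s hs => ?_, mul_one]
  have h1 := mc_one h hδ hs
  have h2 : L.nm T < L.nm (-s) := by
    rw [L.neg, h1]
    exact hT
  rw [Polynomial.eval_sub, Polynomial.eval_X, Polynomial.eval_C, sub_eq_add_neg, L.add_eq h2,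
    L.neg, h1]

end GX
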