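import Pool.Agent.Lib.MP_f80667_ag.Ep.Mc

/-! (2.3) The existence of the nodes. -/

open ZC BE PE CV IntermediateField

namespace GX

variable {K Ω : Type} [Field K] [Field Ω] [Algebra K Ω]

/-- A primitive element which is not `0`. -/
private theorem mc1_prim [CharZero K] (E : IntermediateField K Ω) [FiniteDimensional K E] :
    ∃ ζ ∈ E, ζ ≠ 0 ∧ ∀ τ : Ω ≃ₐ[K] Ω, τ ζ = ζ → ∀ x ∈ E, τ x = x := by
  obtain ⟨α, hα⟩ := Field.exists_primitive_element K E
  have hE : E = IntermediateField.adjoin K {(α : Ω)} := by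
    have h1 := congrArg IntermediateField.lift hα
    rw [IntermediateField.lift_adjoin_simple, IntermediateField.lift_top] at h1
    exact h1.symm
  have key : ∀ τ : Ω ≃ₐ[K] Ω, τ (α : Ω) = α → ∀ x ∈ E, τ x = x := by
    intro τ hτ x hx
    rw [hE] at hx
    induction hx using IntermediateField.adjoin_induction with
    | mem x hx =>
      rw [Set.mem_singleton_iff] at hx
      rw [hx, hτ]
    | algebraMap x => exact τ.commutes x
    | add x y _ _ h1 h2 => rw [map_add, h1, h2]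
    | inv x _ h1 => rw [map_inv₀, h1]
    | mul x y _ _ h1 h2 => rw [map_mul, h1, h2]
  by_cases h0 : (α : Ω) = 0
  · refine ⟨1, one_mem E, one_ne_zero, fun τ _ => key τ ?_⟩
    rw [h0, map_zero]
  · exact ⟨α, α.2, h0, key⟩

/-- A Galois extension is stable. -/
private theorem mc1_stab [IsAlgClosure K Ω] (E : IntermediateField K Ω) [IsGalois K E]
    (σ : Ω ≃ₐ[K] Ω) {x : Ω} (hx : x ∈ E) : σ x ∈ E := by
  have : Normal K Ω := IsAlgClosure.normal K Ω
  have h1 := IntermediateField.normal_iff_forall_map_le.1 (inferInstance : Normal K E)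
    (σ : Ω →ₐ[K] Ω)
  exact h1 ⟨x, hx, rfl⟩

/-- **The nodes.** Proof: a primitive element `ζ` of `E / K` (`Field.exists_primitive_element`), multiplied by a power of `L.p` such that `nm ζ ≤ δ`, `ζ ≠ 0`; `S` = all `1 + p ^ j σ (ζ)`, `σ` an automorphism of `Ω` over `K` (finitely many values: `E / K` is normal, the values are in the roots of the minimal
polynomial of `ζ`), `j < J`; if `ζ = 0` (`E = ⊥`) take `ζ = p ^ k`. For different `j` the norms of the differences from `1` are different, so `J ≤ S.card`. `gen`: `γ` fixes `σ (ζ)`, which generates `E`. -/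
theorem exists_nod [CharZero K] [IsAlgClosure K Ω] (L : Ld K Ω) (E : IntermediateField K Ω)
    [FiniteDimensional K E] [IsGalois K E] {δ : ℝ} (hδ : 0 < δ) (J : ℕ) :
    ∃ S, Nod L E δ S ∧ J ≤ S.card := by
  classical
  have hc : CharZero Ω := charZero_of_injective_algebraMap (algebraMap K Ω).injective
  obtain ⟨ζ₁, hζE, hζ0, hfix⟩ := mc1_prim E
  have hp0 : (L.p : Ω) ≠ 0 := Nat.cast_ne_zero.2 L.pp.ne_zero
  have hq0 : 0 < L.nm (L.p : Ω) := L.pos hp0
  have hq1 : L.nm (L.p : Ω) < 1 := L.lt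
  have hn0 : 0 < L.nm ζ₁ := L.pos hζ0
  obtain ⟨k, hk⟩ := exists_pow_lt_of_lt_one (div_pos hδ hn0) hq1
  obtain ⟨ζ, hζ⟩ : ∃ ζ : Ω, ζ = (L.p : Ω) ^ k * ζ₁ := ⟨_, rfl⟩
  have hζm : ζ ∈ E := by
    rw [hζ]
    exact mul_mem (pow_mem (_root_.natCast_mem E L.p) k) hζE
  have hζne : ζ ≠ 0 := by
    rw [hζ]
    exact mul_ne_zero (pow_ne_zero k hp0) hζ0
  have hζn : L.nm ζ ≤ δ := by
    rw [hζ, L.mul, L.pow]
    rw [lt_div_iff₀ hn0] at hk
    exact hk.le
  have hζf : ∀ τ : Ω ≃ₐ[K] Ω, τ ζ = ζ → ∀ x ∈ E, τ x = x := by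
    intro τ hτ
    refine hfix τ ?_
    rw [hζ, map_mul, map_pow, map_natCast] at hτ
    exact mul_left_cancel₀ (pow_ne_zero k hp0) hτ
  have hfin : (Set.range fun σ : Ω ≃ₐ[K] Ω => σ ζ).Finite := by
    have : Algebra.IsAlgebraic K Ω := IsAlgClosure.isAlgebraic
    have hint : IsIntegral K ζ := (Algebra.IsAlgebraic.isAlgebraic (R := K) ζ).isIntegral
    refine (((minpoly K ζ).aroots Ω).toFinset.finite_toSet).subset ?_
    rintro _ ⟨σ, rfl⟩
    rw [Finset.mem_coe, Multiset.mem_toFinset, Polynomial.mem_aroots]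
    refine ⟨minpoly.ne_zero hint, ?_⟩
    change Polynomial.aeval (σ ζ) (minpoly K ζ) = 0
    rw [← AlgEquiv.coe_toAlgHom, Polynomial.aeval_algHom_apply, minpoly.aeval, map_zero]
  obtain ⟨S, hS⟩ : ∃ S : Finset Ω, S = (Finset.range J ×ˢ hfin.toFinset).image
      fun a => 1 + (L.p : Ω) ^ a.1 * a.2 := ⟨_, rfl⟩
  have hmem : ∀ z, z ∈ S ↔ ∃ j < J, ∃ σ : Ω ≃ₐ[K] Ω, 1 + (L.p : Ω) ^ j * σ ζ = z := by
    intro z
    rw [hS, Finset.mem_image]
    constructor
    · rintro ⟨⟨j, c⟩, hjc, rfl⟩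
      rw [Finset.mem_product, Finset.mem_range, Set.Finite.mem_toFinset] at hjc
      obtain ⟨hj, σ, hσ⟩ := hjc
      refine ⟨j, hj, σ, ?_⟩
      have hσ' : σ ζ = c := hσ
      rw [hσ']
    · rintro ⟨j, hj, σ, rfl⟩
      refine ⟨(j, σ ζ), ?_, rfl⟩
      rw [Finset.mem_product, Finset.mem_range, Set.Finite.mem_toFinset]
      exact ⟨hj, σ, rfl⟩
  refine ⟨S, ⟨?_, ?_, ?_, ?_⟩, ?_⟩
  · intro z hz
    obtain ⟨j, -, σ, rfl⟩ := (hmem z).1 hz
    exact add_mem (one_mem E) (mul_mem (pow_mem (_root_.natCast_mem E L.p) j)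
      (mc1_stab E σ hζm))
  · intro z hz
    obtain ⟨j, -, σ, rfl⟩ := (hmem z).1 hz
    rw [add_sub_cancel_left, L.mul, L.act, L.pow]
    exact (mul_le_of_le_one_left (L.nonneg _) (pow_le_one₀ hq0.le hq1.le)).trans hζn
  · intro γ z hz
    obtain ⟨j, hj, σ, rfl⟩ := (hmem z).1 hz
    refine (hmem _).2 ⟨j, hj, σ.trans γ, ?_⟩
    rw [map_add, map_one, map_mul, map_pow, map_natCast]
    rfl
  · intro z hz γ hγ
    obtain ⟨j, hj, σ, rfl⟩ := (hmem z).1 hz
    rw [map_add, map_one, map_mul, map_pow, map_natCast] at hγ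
    have h1 : γ (σ ζ) = σ ζ :=
      mul_left_cancel₀ (pow_ne_zero j hp0) (add_left_cancel hγ)
    have h2 : ((σ.trans γ).trans σ.symm) ζ = ζ := by
      change σ.symm (γ (σ ζ)) = ζ
      rw [h1, AlgEquiv.symm_apply_apply]
    rw [IntermediateField.mem_fixingSubgroup_iff]
    intro x hx
    have h3 := hζf _ h2 (σ.symm x) (mc1_stab E σ.symm hx)
    change σ.symm (γ (σ (σ.symm x))) = σ.symm x at h3
    rw [AlgEquiv.apply_symm_apply] at h3
    exact σ.symm.injective h3
  · have hinj : Function.Injective fun j : ℕ => 1 + (L.p : Ω) ^ j * ζ := by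
      intro i j hij
      have h1 : (L.p : Ω) ^ i = (L.p : Ω) ^ j :=
        mul_right_cancel₀ hζne (add_left_cancel hij)
      have h2 : (L.p : ℕ) ^ i = L.p ^ j := by exact_mod_cast h1
      exact Nat.pow_right_injective L.pp.two_le h2
    calc J = ((Finset.range J).image fun j : ℕ => 1 + (L.p : Ω) ^ j * ζ).card := by
          rw [Finset.card_image_of_injective _ hinj, Finset.card_range]
      _ ≤ S.card := by
          refine Finset.card_le_card fun z hz => ?_
          obtain ⟨j, hj, rfl⟩ := Finset.mem_image.1 hz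
          exact (hmem _).2 ⟨j, Finset.mem_range.1 hj, AlgEquiv.refl, rfl⟩

end GX
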