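import Pool.Agent.Lib.MP_f80667_ag.Gx.XC

/-! Interpolation with bounds, estimates of values and coefficients. -/

open ZC BE PE CV IntermediateField

namespace GX

variable {K Ω : Type} [Field K] [Field Ω] [Algebra K Ω] (L : Ld K Ω)

private theorem pb1_co {κ : Type} (M : IntermediateField K Ω) (w : κ → Ω) (s : Finset κ)
    (hw : ∀ k ∈ s, w k ∈ M ∧ L.nm (w k) ≤ 1) (j : ℕ) :
    (∏ k ∈ s, (Polynomial.X - Polynomial.C (w k))).coeff j ∈ M ∧
      L.nm ((∏ k ∈ s, (Polynomial.X - Polynomial.C (w k))).coeff j) ≤ 1 := by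
  classical
  induction s using Finset.induction_on generalizing j with
  | empty =>
    rw [Finset.prod_empty, Polynomial.coeff_one]
    split_ifs with h
    · exact ⟨M.one_mem, L.one.le⟩
    · refine ⟨M.zero_mem, ?_⟩
      rw [L.zero]
      exact zero_le_one
  | insert a s ha ih =>
    have ih' := ih fun k hk => hw k (Finset.mem_insert_of_mem hk)
    have h1 := hw a (Finset.mem_insert_self _ _)
    rw [Finset.prod_insert ha, sub_mul, Polynomial.coeff_sub, Polynomial.coeff_C_mul]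
    have h2 : w a * (∏ k ∈ s, (Polynomial.X - Polynomial.C (w k))).coeff j ∈ M ∧
        L.nm (w a * (∏ k ∈ s, (Polynomial.X - Polynomial.C (w k))).coeff j) ≤ 1 := by
      refine ⟨M.mul_mem h1.1 (ih' j).1, ?_⟩
      rw [L.mul]
      exact mul_le_one₀ h1.2 (L.nonneg _) (ih' j).2
    rcases j with _ | j
    · rw [Polynomial.mul_coeff_zero, Polynomial.coeff_X_zero, zero_mul, zero_sub]
      exact ⟨M.neg_mem h2.1, (L.neg _).trans_le h2.2⟩
    · rw [Polynomial.coeff_X_mul]
      exact ⟨M.sub_mem (ih' j).1 h2.1, (L.sub _ _).trans (max_le (ih' j).2 h2.2)⟩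

private theorem pb1_deg {κ : Type} (w : κ → Ω) (s : Finset κ) :
    (∏ k ∈ s, (Polynomial.X - Polynomial.C (w k))).natDegree ≤ s.card := by
  refine (Polynomial.natDegree_prod_le _ _).trans ?_
  refine (Finset.sum_le_card_nsmul s _ 1 fun k _ => ?_).trans ?_
  · exact (Polynomial.natDegree_X_sub_C (w k)).le
  · rw [smul_eq_mul, mul_one]

private theorem pb1_cp {κ : Type} (w : κ → Ω) {t : ℝ} (ht : 0 ≤ t) (s : Finset κ)
    (hw : ∀ k ∈ s, L.nm (w k) ≤ t) (j : ℕ) (hj : j ≤ s.card) :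
    L.nm ((∏ k ∈ s, (Polynomial.X - Polynomial.C (w k))).coeff j) ≤ t ^ (s.card - j) := by
  classical
  induction s using Finset.induction_on generalizing j with
  | empty =>
    rw [Finset.card_empty] at hj
    obtain rfl : j = 0 := by omega
    rw [Finset.prod_empty, Polynomial.coeff_one, if_pos rfl, L.one, Finset.card_empty,
      Nat.sub_self, pow_zero]
  | insert a s ha ih =>
    have ih' := ih fun k hk => hw k (Finset.mem_insert_of_mem hk)
    have h1 := hw a (Finset.mem_insert_self _ _)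
    rw [Finset.card_insert_of_notMem ha] at hj ⊢
    rw [Finset.prod_insert ha, sub_mul, Polynomial.coeff_sub, Polynomial.coeff_C_mul]
    have h2 : L.nm (w a * (∏ k ∈ s, (Polynomial.X - Polynomial.C (w k))).coeff j) ≤
        t ^ (s.card + 1 - j) := by
      by_cases hjs : j ≤ s.card
      · have e : s.card + 1 - j = (s.card - j) + 1 := by omega
        rw [L.mul, e, pow_succ, mul_comm]
        exact mul_le_mul (ih' j hjs) h1 (L.nonneg _) (pow_nonneg ht _)
      · have h3 : (∏ k ∈ s, (Polynomial.X - Polynomial.C (w k))).coeff j = 0 :=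
          Polynomial.coeff_eq_zero_of_natDegree_lt ((pb1_deg w s).trans_lt (by omega))
        rw [h3, mul_zero, L.zero]
        exact pow_nonneg ht _
    rcases j with _ | j
    · rw [Polynomial.mul_coeff_zero, Polynomial.coeff_X_zero, zero_mul, zero_sub, L.neg]
      exact h2
    · rw [Polynomial.coeff_X_mul]
      refine (L.sub _ _).trans (max_le ?_ h2)
      have e : s.card + 1 - (j + 1) = s.card - j := by omega
      rw [e]
      exact ih' j (by omega)

private theorem pb1_pow {w w' : Ω} (hw : L.nm w ≤ 1) (hw' : L.nm w' ≤ 1) (i : ℕ) :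
    L.nm (w' ^ i - w ^ i) ≤ L.nm (w' - w) := by
  induction i with
  | zero =>
    rw [pow_zero, pow_zero, sub_self, L.zero]
    exact L.nonneg _
  | succ i ih =>
    have h1 : w' ^ (i + 1) - w ^ (i + 1) = w' * (w' ^ i - w ^ i) + (w' - w) * w ^ i := by ring
    rw [h1]
    refine (L.add _ _).trans (max_le ?_ ?_)
    · rw [L.mul]
      exact (mul_le_of_le_one_left (L.nonneg _) hw').trans ih
    · rw [L.mul, L.pow]
      exact mul_le_of_le_one_right (L.nonneg _) (pow_le_one₀ (L.nonneg _) hw)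

/-- **Interpolation with bounds.** Proof: `Q = ∑ k, v k / ∏ (w k - w l) * ∏ (Y - w l)`. -/
theorem lg_ex {n : ℕ} {M : IntermediateField K Ω} {w v : Fin n → Ω}
    (hw : ∀ k, w k ∈ M ∧ L.nm (w k) ≤ 1) (hv : ∀ k, v k ∈ M) {B ε : ℝ} (hε : 0 < ε) (hB0 : 0 ≤ B)
    (hB : ∀ k, L.nm (v k) ≤ B)
    (h : ∀ k, ε ≤ L.nm (∏ l ∈ Finset.univ.erase k, (w k - w l))) :
    ∃ Q : Polynomial Ω, Q.natDegree ≤ n ∧ (∀ j, Q.coeff j ∈ M ∧ L.nm (Q.coeff j) ≤ B / ε) ∧
      ∀ k, Q.eval (w k) = v k := by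
  classical
  obtain ⟨c, hc⟩ : ∃ c : Fin n → Ω,
      ∀ k, c k = v k / ∏ l ∈ Finset.univ.erase k, (w k - w l) := ⟨_, fun _ => rfl⟩
  have hc1 : ∀ k, c k ∈ M ∧ L.nm (c k) ≤ B / ε := by
    intro k
    rw [hc]
    constructor
    · refine M.div_mem (hv k) (prod_mem fun l _ => M.sub_mem (hw k).1 (hw l).1)
    · rw [L.div]
      exact div_le_div₀ hB0 (hB k) hε (h k)
  have hBε : 0 ≤ B / ε := div_nonneg hB0 hε.le
  refine ⟨∑ k, Polynomial.C (c k) *
    ∏ l ∈ Finset.univ.erase k, (Polynomial.X - Polynomial.C (w l)), ?_, ?_, ?_⟩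
  · refine Polynomial.natDegree_sum_le_of_forall_le _ _ fun k _ => ?_
    refine (Polynomial.natDegree_C_mul_le _ _).trans ((pb1_deg w _).trans ?_)
    refine (Finset.card_le_univ _).trans ?_
    rw [Fintype.card_fin]
  · intro j
    rw [Polynomial.finsetSum_coeff]
    constructor
    · refine sum_mem fun k _ => ?_
      rw [Polynomial.coeff_C_mul]
      exact M.mul_mem (hc1 k).1 (pb1_co L M w _ (fun l _ => hw l) j).1
    · refine L.sum_le _ _ hBε fun k _ => ?_
      rw [Polynomial.coeff_C_mul, L.mul]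
      have h1 := mul_le_mul (hc1 k).2 (pb1_co L M w (Finset.univ.erase k) (fun l _ => hw l) j).2
        (L.nonneg _) hBε
      rwa [mul_one] at h1
  · intro k
    rw [Polynomial.eval_finsetSum, Finset.sum_eq_single k]
    · rw [Polynomial.eval_mul, Polynomial.eval_C, Polynomial.eval_prod, hc]
      have h1 : ∏ l ∈ Finset.univ.erase k,
          Polynomial.eval (w k) (Polynomial.X - Polynomial.C (w l)) =
            ∏ l ∈ Finset.univ.erase k, (w k - w l) := by
        refine Finset.prod_congr rfl fun l _ => ?_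
        rw [Polynomial.eval_sub, Polynomial.eval_X, Polynomial.eval_C]
      rw [h1]
      exact div_mul_cancel₀ _ (L.ne_zero (hε.trans_le (h k)))
    · intro l _ hl
      rw [Polynomial.eval_mul, Polynomial.eval_prod,
        Finset.prod_eq_zero (i := k) (Finset.mem_erase.2 ⟨Ne.symm hl, Finset.mem_univ _⟩), mul_zero]
      rw [Polynomial.eval_sub, Polynomial.eval_X, Polynomial.eval_C, sub_self]
    · intro hk
      exact absurd (Finset.mem_univ _) hk

/-- A Lipschitz estimate. -/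
theorem lg_lip {Q : Polynomial Ω} {C : ℝ} (hC : 0 ≤ C) (hQ : ∀ j, L.nm (Q.coeff j) ≤ C)
    {w w' : Ω} (hw : L.nm w ≤ 1) (hw' : L.nm w' ≤ 1) :
    L.nm (Q.eval w' - Q.eval w) ≤ C * L.nm (w' - w) := by
  rw [Polynomial.eval_eq_sum_range, Polynomial.eval_eq_sum_range, ← Finset.sum_sub_distrib]
  refine L.sum_le _ _ (mul_nonneg hC (L.nonneg _)) fun i _ => ?_
  rw [← mul_sub, L.mul]
  exact mul_le_mul (hQ i) (pb1_pow L hw hw' i) (L.nonneg _) hC

/-- A growth estimate. -/
theorem lg_gr {Q : Polynomial Ω} {C : ℝ} (hQ : ∀ j, L.nm (Q.coeff j) ≤ C) {n : ℕ}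
    (hn : Q.natDegree ≤ n) {t : ℝ} (ht : 1 ≤ t) {w : Ω} (hw : L.nm w ≤ t) :
    L.nm (Q.eval w) ≤ C * t ^ n := by
  have hC : 0 ≤ C := (L.nonneg _).trans (hQ 0)
  have ht0 : 0 ≤ t := zero_le_one.trans ht
  rw [Polynomial.eval_eq_sum_range]
  refine L.sum_le _ _ (mul_nonneg hC (pow_nonneg ht0 _)) fun i hi => ?_
  rw [L.mul, L.pow]
  refine mul_le_mul (hQ i) ?_ (pow_nonneg (L.nonneg _) _) hC
  refine (pow_le_pow_left₀ (L.nonneg _) hw i).trans (pow_le_pow_right₀ ht ?_)
  exact (Nat.lt_succ_iff.1 (Finset.mem_range.1 hi)).trans hn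

/-- The coefficients of a product of linear factors. Proof: `Multiset.prod_X_sub_C_coeff` (Vieta), or induction on `n`. -/
theorem cf_prod {n : ℕ} (w : Fin n → Ω) {t : ℝ} (ht : 0 ≤ t) (hw : ∀ k, L.nm (w k) ≤ t) {j : ℕ}
    (hj : j ≤ n) :
    L.nm ((∏ k, (Polynomial.X - Polynomial.C (w k))).coeff j) ≤ t ^ (n - j) := by
  have h1 := pb1_cp L w ht Finset.univ (fun k _ => hw k) j (by
    rw [Finset.card_univ, Fintype.card_fin]
    exact hj)
  rwa [Finset.card_univ, Fintype.card_fin] at h1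

end GX
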