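import Pool.Agent.Lib.MP_f80667_ag.Ep.Sa
import Pool.Agent.Lib.MP_f80667_ag.Ep.Pb1

/-!
(2.3) The polynomial `G (c, Y) / (Y - w)`.

* `mx ψ c w`: this polynomial as a polynomial in `z`, `Y`, constant in `z`.
-/

open ZC BE PE CV IntermediateField

namespace GX

variable {F : Type} [Field F] {N d : ℕ} {ι : Type} {f : ι → MvPolynomial (Fin N) F} {K Ω : Type}
  [Field K] [Field Ω] [Algebra K Ω] [Algebra F K] [Algebra F Ω] [IsScalarTower F K Ω]
  {L : Ld K Ω} {ψ : Prj K N d} {M : IntermediateField K Ω} {c : Fin (d + 1) → Ω} {w w' : Ω}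

/-- The polynomial `G (c, Y)`. -/
noncomputable def gcp (ψ : Prj K N d) (c : Fin (d + 1) → Ω) : Polynomial Ω :=
  ψ.G.map (MvPolynomial.aeval c : MvPolynomial (Fin (d + 1)) K →ₐ[K] Ω).toRingHom

theorem gcp_eval : (gcp ψ c).eval w = pe c w ψ.G := by
  rw [gcp, Polynomial.eval_map, pe, Polynomial.coe_eval₂RingHom]

private theorem md_cf (hψ : Pk f L ψ) (hc : Iv L M c) (i : ℕ) :
    (gcp ψ c).coeff i ∈ M ∧ L.nm ((gcp ψ c).coeff i) ≤ 1 := by
  rw [gcp, Polynomial.coeff_map]
  constructor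
  · change MvPolynomial.aeval c (ψ.G.coeff i) ∈ M
    rw [MvPolynomial.aeval_def, MvPolynomial.eval₂_eq]
    refine sum_mem fun e _ => M.mul_mem (M.algebraMap_mem _) (prod_mem fun j _ => ?_)
    exact pow_mem (hc j).1 _
  · exact GM.ae_le (hψ.iG i) fun r => (hc r).2

/-- The polynomial `G (c, Y) / (Y - w)`, constant in `z`. -/
noncomputable def mx (ψ : Prj K N d) (c : Fin (d + 1) → Ω) (w : Ω) :
    Polynomial (Polynomial Ω) :=
  (gcp ψ c /ₘ (Polynomial.X - Polynomial.C w)).map Polynomial.C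

/-- Proof: `G (c, Y) = (Y - w) q`, `q` monic with coefficients in the integers of `M` (`Polynomial.divByMonic` by a monic polynomial over a subring; or Horner's recursion for the coefficients of the quotient, from the top). -/
theorem mx_I₂ (hψ : Pk f L ψ) (hc : Iv L M c) (hw : w ∈ M) (hw1 : L.nm w ≤ 1) :
    I₂ L M (mx ψ c w) := by
  have key : ∀ i, (gcp ψ c /ₘ (Polynomial.X - Polynomial.C w)).coeff i ∈ M ∧
      L.nm ((gcp ψ c /ₘ (Polynomial.X - Polynomial.C w)).coeff i) ≤ 1 := by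
    intro i
    rw [Polynomial.coeff_divByMonic_X_sub_C]
    constructor
    · exact sum_mem fun e _ => M.mul_mem (pow_mem hw _) (md_cf hψ hc e).1
    · refine L.sum_le _ _ zero_le_one fun e _ => ?_
      rw [L.mul, L.pow]
      exact mul_le_one₀ (pow_le_one₀ (L.nonneg _) hw1) (L.nonneg _) (md_cf hψ hc e).2
  intro i j
  rw [mx, Polynomial.coeff_map, Polynomial.coeff_C]
  split_ifs with h
  · exact key i
  · refine ⟨M.zero_mem, ?_⟩
    rw [L.zero]
    exact zero_le_one

/-- The degrees: constant in `z`, of degree `< n` in `Y`. -/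
theorem mx_deg (hψ : Pk f L ψ) (hG : pe c w ψ.G = 0) (j : ℕ) :
    ((mx ψ c w).coeff j).natDegree = 0 ∧ (ψ.G.natDegree ≤ j → (mx ψ c w).coeff j = 0) := by
  constructor
  · rw [mx, Polynomial.coeff_map]
    exact Polynomial.natDegree_C _
  · intro hj
    have hn : ψ.G.natDegree ≠ 0 := by
      intro h0
      have h1 : ψ.G = 1 := hψ.mon.natDegree_eq_zero.1 h0
      rw [h1, map_one] at hG
      exact one_ne_zero hG
    have hd : (gcp ψ c).natDegree ≤ ψ.G.natDegree := Polynomial.natDegree_map_le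
    rw [mx, Polynomial.coeff_map, Polynomial.coeff_eq_zero_of_natDegree_lt, map_zero]
    rw [Polynomial.natDegree_divByMonic _ (Polynomial.monic_X_sub_C w),
      Polynomial.natDegree_X_sub_C]
    omega

private theorem md_ev (z w' : Ω) : GM.ev₂ (z, w') (mx ψ c w) =
    (gcp ψ c /ₘ (Polynomial.X - Polynomial.C w)).eval w' := by
  rw [GM.ev₂_eq, mx, Polynomial.evalEval, Polynomial.eval_map, Polynomial.eval₂_at_apply,
    Polynomial.eval_C]

private theorem md_mul (hG : pe c w ψ.G = 0) :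
    (Polynomial.X - Polynomial.C w) * (gcp ψ c /ₘ (Polynomial.X - Polynomial.C w)) =
      gcp ψ c :=
  Polynomial.mul_divByMonic_eq_iff_isRoot.2 (by rw [Polynomial.IsRoot.def, gcp_eval, hG])

/-- The value at another root is `0`. -/
theorem mx_root (hψ : Pk f L ψ) (hG : pe c w ψ.G = 0) (hG' : pe c w' ψ.G = 0) (hne : w' ≠ w)
    (z : Ω) : GM.ev₂ (z, w') (mx ψ c w) = 0 := by
  rw [md_ev]
  have h1 := congrArg (Polynomial.eval w') (md_mul hG)
  rw [gcp_eval, hG', Polynomial.eval_mul, Polynomial.eval_sub, Polynomial.eval_X,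
    Polynomial.eval_C] at h1
  exact (mul_eq_zero.1 h1).resolve_left (sub_ne_zero.2 hne)

/-- The value at `w` is `G_Y (c, w)`. -/
theorem mx_self (hψ : Pk f L ψ) (hG : pe c w ψ.G = 0) (z : Ω) :
    GM.ev₂ (z, w) (mx ψ c w) = pe c w (Polynomial.derivative ψ.G) := by
  rw [md_ev]
  have h1 := congrArg (fun q => Polynomial.eval w (Polynomial.derivative q)) (md_mul hG)
  have h2 : Polynomial.eval w (Polynomial.derivative (gcp ψ c)) =
      pe c w (Polynomial.derivative ψ.G) := by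
    rw [gcp, Polynomial.derivative_map, Polynomial.eval_map, pe, Polynomial.coe_eval₂RingHom]
  simp only [h2, Polynomial.derivative_mul, Polynomial.derivative_X_sub_C, one_mul,
    Polynomial.eval_add, Polynomial.eval_mul, Polynomial.eval_sub, Polynomial.eval_X,
    Polynomial.eval_C, sub_self, zero_mul, add_zero] at h1
  exact h1

/-- The value near `w`. Proof: `mx_self`, a Lipschitz estimate (`lg_lip` with `C = 1`), `Pk.gy`. -/
theorem mx_near (hψ : Pk f L ψ) (hc : Iv L M c) (hw : w ∈ M) (hw1 : L.nm w ≤ 1)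
    (hw1' : L.nm w' ≤ 1) (hG : pe c w ψ.G = 0) {ε t : ℝ}
    (hD : ε ≤ L.nm (MvPolynomial.aeval c ψ.D)) (ht : t < ε) (h : L.nm (w' - w) ≤ t) (z : Ω) :
    ε ≤ L.nm (GM.ev₂ (z, w') (mx ψ c w)) := by
  have h1 : ε ≤ L.nm ((gcp ψ c /ₘ (Polynomial.X - Polynomial.C w)).eval w) := by
    have h2 := mx_self hψ hG z
    rw [md_ev] at h2
    rw [h2]
    exact hD.trans (hψ.gy (fun r => (hc r).2) hG)
  have key : ∀ i, L.nm ((gcp ψ c /ₘ (Polynomial.X - Polynomial.C w)).coeff i) ≤ 1 := by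
    intro i
    have h3 := (mx_I₂ hψ hc hw hw1 i 0).2
    rwa [mx, Polynomial.coeff_map, Polynomial.coeff_C_zero] at h3
  have h4 := lg_lip L zero_le_one key hw1 hw1'
  rw [one_mul] at h4
  rw [md_ev]
  by_contra hcon
  push Not at hcon
  have h5 : L.nm ((gcp ψ c /ₘ (Polynomial.X - Polynomial.C w)).eval w) < ε := by
    have h6 : (gcp ψ c /ₘ (Polynomial.X - Polynomial.C w)).eval w =
        (gcp ψ c /ₘ (Polynomial.X - Polynomial.C w)).eval w' -
          ((gcp ψ c /ₘ (Polynomial.X - Polynomial.C w)).eval w' -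
            (gcp ψ c /ₘ (Polynomial.X - Polynomial.C w)).eval w) := by ring
    rw [h6]
    exact (L.sub _ _).trans_lt (max_lt hcon ((h4.trans h).trans_lt ht))
  exact absurd h1 (not_le.2 h5)

/-- The value does not depend on `z`. -/
theorem mx_val (z z' w' : Ω) : GM.ev₂ (z, w') (mx ψ c w) = GM.ev₂ (z', w') (mx ψ c w) := by
  rw [md_ev, md_ev]

end GX
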