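import Pool.Agent.Lib.MP_f80667_ag.Ep.Ma
import Pool.Agent.Lib.MP_f80667_ag.Ep.Mb
import Pool.Agent.Lib.MP_f80667_ag.Ep.Mc
import Pool.Agent.Lib.MP_f80667_ag.Ep.Md

/-!
(2.3) The conclusion of (2.2) and its consequences over `z = 0`.

* `Dzc L ψ M a b x t e T φ pt`: the conclusion of (2.2): `T` is the set of the common zeros of `b` and `G (a (z), Y)`, `φ` moves them to
  the common zeros of `b - t x` and `G (a (z), Y)`.
-/

open ZC BE PE CV IntermediateField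

namespace GX

variable {F : Type} [Field F] {N d : ℕ} {ι : Type} {f : ι → MvPolynomial (Fin N) F} {K Ω : Type}
  [Field K] [CharZero K] [Field Ω] [Algebra K Ω] [Algebra F K] [Algebra F Ω]
  [IsScalarTower F K Ω] [IsAlgClosure K Ω] {L : Ld K Ω} {ψ : Prj K N d}
  {M : IntermediateField K Ω}

/-- The conclusion of (2.2). -/
structure Dzc (L : Ld K Ω) (ψ : Prj K N d) (M : IntermediateField K Ω)
    (a : Fin (d + 1) → Polynomial Ω) (b : Polynomial Ω) (x : Polynomial (Polynomial Ω)) (t : Ω)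
    (e : ℝ) (T : Finset (Ω × Ω)) (φ : Ω × Ω → Ω × Ω) (pt : Ω × Ω → (Xf f).pt Ω) : Prop where
  mem : ∀ P, P ∈ T ↔ b.eval P.1 = 0 ∧ pe (fun r => (a r).eval P.1) P.2 ψ.G = 0
  int : ∀ P ∈ T, L.nm P.1 ≤ 1 ∧ L.nm P.2 ≤ 1
  φi : ∀ P ∈ T, L.nm (φ P).1 ≤ 1 ∧ L.nm (φ P).2 ≤ 1
  φG : ∀ P ∈ T, pe (fun r => (a r).eval (φ P).1) (φ P).2 ψ.G = 0
  φ1 : ∀ P ∈ T, L.nm ((φ P).1 - P.1) ≤ L.nm t / e
  φ2 : ∀ P ∈ T, L.nm ((φ P).2 - P.2) ≤ L.nm t / e ^ 2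
  uq : ∀ P ∈ T, ∀ Q : Ω × Ω, L.nm Q.1 ≤ 1 → L.nm Q.2 ≤ 1 →
    pe (fun r => (a r).eval Q.1) Q.2 ψ.G = 0 → b.eval Q.1 = t * GM.ev₂ Q x →
      L.nm (Q.1 - P.1) < e → L.nm (Q.2 - P.2) < e → Q = φ P
  eqv : ∀ γ ∈ M.fixingSubgroup, ∀ P ∈ T, φ (γ P.1, γ P.2) = (γ (φ P).1, γ (φ P).2)
  co : ∀ P ∈ T, Co (pt P) fun j => pe (fun r => (a r).eval P.1) P.2 (ψ.A j)
  co' : ∀ P ∈ T, Co (pt (φ P)) fun j => pe (fun r => (a r).eval (φ P).1) (φ P).2 (ψ.A j)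
  rel : ∑ P ∈ T, (Finsupp.single (pt (φ P)) 1 - Finsupp.single (pt P) 1 : (Xf f).pt Ω →₀ ℤ) ∈
    (Xf f).ratEq M Ω

variable {y y' : (Xf f).pt Ω} {ε : ℝ} {c c' γ : Fin (d + 1) → Ω} {w w' : Ω} {S : Finset Ω}
  {E : IntermediateField K Ω} {δ e : ℝ}

/-- The arc of (2.3) for two near points, `T = p ^ s`. -/
noncomputable def mar (L : Ld K Ω) (c c' γ : Fin (d + 1) → Ω) (s : ℕ) :
    Fin (d + 1) → Polynomial Ω :=
  mva c (((L.p : Ω) ^ s)⁻¹ • (c' - c)) γ ((L.p : Ω) ^ s)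

/-- The number `t'` of (2.3). -/
noncomputable def mt (L : Ld K Ω) (ψ : Prj K N d) (S : Finset Ω) (c : Fin (d + 1) → Ω)
    (w w' : Ω) (s : ℕ) : Ω :=
  (mb S).eval ((L.p : Ω) ^ s) / GM.ev₂ (0, w') (mx ψ c w)

/-- The values of polynomials over `M`. -/
private theorem me_ev {A : Polynomial (Polynomial Ω)} (hA : I₂ L M A) {z w : Ω} (hz : z ∈ M)
    (hw : w ∈ M) : GM.ev₂ (z, w) A ∈ M := by
  rw [GM.ev₂_map, Polynomial.eval_eq_sum_range]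
  refine sum_mem fun i _ => mul_mem ?_ (pow_mem hw i)
  rw [Polynomial.coeff_map]
  change (A.coeff i).eval z ∈ M
  rw [Polynomial.eval_eq_sum_range]
  exact sum_mem fun j _ => mul_mem (hA i j).1 (pow_mem hz j)

private theorem me_T (L : Ld K Ω) {s : ℕ} (hs : s ≠ 0) :
    L.nm ((L.p : Ω) ^ s) < 1 ∧ (L.p : Ω) ^ s ≠ 0 ∧ (L.p : Ω) ^ s ≠ 1 := by
  have h1 : L.nm ((L.p : Ω) ^ s) < 1 := by
    rw [L.pow]
    exact pow_lt_one₀ (L.nonneg _) L.lt hs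
  refine ⟨h1, pow_ne_zero s (L.ne_zero L.p_pos), fun h => ?_⟩
  rw [h, L.one] at h1
  exact lt_irrefl _ h1

/-- The properties of the arc. Proof: `mva_arc`, `mva_zero`, `mva_T`, `mva_one`, `mva_deg`; `Mq.cc`: `(c' - c) / p ^ s` is integral; `p ^ s` is in `M`, `nm < 1` (`s ≠ 0`). -/
theorem mar_arc {s : ℕ} (hs : s ≠ 0)
    (h : Mq L ψ M y y' ε (L.nm (L.p : Ω) ^ s) c c' w w')
    (hγ : ∀ r, γ r ∈ (⊥ : IntermediateField K Ω) ∧ L.nm (γ r) ≤ 1) :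
    Arc L M (mar L c c' γ s) ∧ (∀ r, (mar L c c' γ s r).natDegree ≤ 2) ∧
      (fun r => (mar L c c' γ s r).eval 0) = c ∧
      (fun r => (mar L c c' γ s r).eval ((L.p : Ω) ^ s)) = c' ∧
      (fun r => (mar L c c' γ s r).eval 1) = γ := by
  obtain ⟨h1, h2, h3⟩ := me_T L hs
  have hT : (L.p : Ω) ^ s ∈ M := pow_mem (_root_.natCast_mem M _) s
  have hv : Iv L M (((L.p : Ω) ^ s)⁻¹ • (c' - c)) := by
    intro r
    rw [Pi.smul_apply, Pi.sub_apply, smul_eq_mul]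
    refine ⟨mul_mem (inv_mem hT) (sub_mem (h.ic' r).1 (h.ic r).1), ?_⟩
    rw [L.mul, L.inv, L.pow]
    exact inv_mul_le_one_of_le₀ (h.cc r) (pow_nonneg (L.nonneg _) s)
  have hγ' : Iv L M γ := fun r => ⟨(bot_le : ⊥ ≤ M) (hγ r).1, (hγ r).2⟩
  refine ⟨mva_arc h.ic hv hγ' hT h1, fun r => mva_deg r, mva_zero, ?_, mva_one h3⟩
  have h4 := mva_T (c := c) (v := ((L.p : Ω) ^ s)⁻¹ • (c' - c)) (γ := γ) h3
  rw [smul_inv_smul₀ h2, add_sub_cancel] at h4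
  exact h4

/-- The number `t'`. Proof: `Nod.mb`, `Nod.val`, `mx_I₂`, `mx_near` (`nm (L.p) ^ s < ε`). -/
theorem mt_mem (hψ : Pk f L ψ) {s : ℕ} (hs : s ≠ 0) (hε : L.nm (L.p : Ω) ^ s < ε)
    (h : Mq L ψ M y y' ε (L.nm (L.p : Ω) ^ s) c c' w w') (hS : Nod L E δ S) (hδ : δ < 1) :
    mt L ψ S c w w' s ∈ M ∧ L.nm (mt L ψ S c w w' s) * ε ≤ L.nm (L.p : Ω) ^ s ∧
      GM.ev₂ (0, w') (mx ψ c w) ≠ 0 := by
  obtain ⟨h1, -, -⟩ := me_T L hs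
  have hT : (L.p : Ω) ^ s ∈ M := pow_mem (_root_.natCast_mem M _) s
  have h2 : ε ≤ L.nm (GM.ev₂ (0, w') (mx ψ c w)) :=
    mx_near hψ h.ic h.iw.1 h.iw.2 h.iw'.2 h.G h.D hε h.ww 0
  have h3 : 0 ≤ L.nm (L.p : Ω) ^ s := pow_nonneg (L.nonneg _) s
  have h4 : 0 < ε := h3.trans_lt hε
  have h5 : 0 < L.nm (GM.ev₂ (0, w') (mx ψ c w)) := h4.trans_le h2
  refine ⟨?_, ?_, L.ne_zero h5⟩
  · refine div_mem ?_ (me_ev (mx_I₂ hψ h.ic h.iw.1 h.iw.2) (zero_mem M) h.iw'.1)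
    rw [Polynomial.eval_eq_sum_range]
    exact sum_mem fun i _ => mul_mem ((bot_le : ⊥ ≤ M) (hS.mb hδ i).1) (pow_mem hT i)
  · have h6 : L.nm (mt L ψ S c w w' s) = L.nm (L.p : Ω) ^ s /
        L.nm (GM.ev₂ (0, w') (mx ψ c w)) := by
      rw [mt, div_eq_mul_inv, L.mul, L.inv, hS.val hδ h1, L.pow, ← div_eq_mul_inv]
    rw [h6, div_mul_eq_mul_div, div_le_iff₀ h5]
    exact mul_le_mul_of_nonneg_left h2 h3

open Classical in
/-- **The zeros over `z = 0`.** The sum over them is `[y'] - [y]`. Proof: the zeros over `0` are `(0, w'')`, `w''` the roots over `c`; for `w'' = w`: `φ (0, w) = (p ^ s, w')` (`Dzc.uq`, `mx_val`, the definition of `mt`), `Co`, `co_eq`: the points are `y` and `y'`; for `w'' ≠ w`: `φ (0, w'') = (0, w'')` (`mx_root`), the summand is `0`. -/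
theorem Dzc.zero (hψ : Pk f L ψ) {s : ℕ} (hs : s ≠ 0) (hε : L.nm (L.p : Ω) ^ s < ε)
    (hq : Mq L ψ M y y' ε (L.nm (L.p : Ω) ^ s) c c' w w') (hS : Nod L E δ S) (hδ : δ < 1)
    (hγ : ∀ r, γ r ∈ (⊥ : IntermediateField K Ω) ∧ L.nm (γ r) ≤ 1)
    (he0 : 0 < e) (he : L.nm (L.p : Ω) ^ s < e) {T : Finset (Ω × Ω)} {φ : Ω × Ω → Ω × Ω}
    {pt : Ω × Ω → (Xf f).pt Ω}
    (h : Dzc L ψ M (mar L c c' γ s) (mb S) (mx ψ c w) (mt L ψ S c w w' s) e T φ pt) :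
    ∑ P ∈ T with P.1 = 0, (Finsupp.single (pt (φ P)) 1 - Finsupp.single (pt P) 1 :
      (Xf f).pt Ω →₀ ℤ) = Finsupp.single y' 1 - Finsupp.single y 1 := by
  obtain ⟨h1, -, -⟩ := me_T L hs
  obtain ⟨-, -, ha0, haT, -⟩ := mar_arc hs hq hγ
  obtain ⟨-, -, hx⟩ := mt_mem hψ hs hε hq hS hδ
  have hb0 : (mb S).eval 0 = 0 := mb_root.2 (Or.inl rfl)
  have hw : ((0 : Ω), w) ∈ T := (h.mem (0, w)).2 ⟨hb0, by
    change pe (fun r => (mar L c c' γ s r).eval 0) w ψ.G = 0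
    rw [ha0]
    exact hq.G⟩
  rw [Finset.sum_eq_single ((0 : Ω), w)]
  · have hφ : ((L.p : Ω) ^ s, w') = φ (0, w) := by
      refine h.uq (0, w) hw ((L.p : Ω) ^ s, w') h1.le hq.iw'.2 ?_ ?_ ?_ ?_
      · change pe (fun r => (mar L c c' γ s r).eval ((L.p : Ω) ^ s)) w' ψ.G = 0
        rw [haT]
        exact hq.G'
      · change (mb S).eval ((L.p : Ω) ^ s) =
          mt L ψ S c w w' s * GM.ev₂ ((L.p : Ω) ^ s, w') (mx ψ c w)
        rw [mt, mx_val ((L.p : Ω) ^ s) 0 w', div_mul_cancel₀ _ hx]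
      · change L.nm ((L.p : Ω) ^ s - 0) < e
        rw [sub_zero, L.pow]
        exact he
      · exact hq.ww.trans_lt he
    have h2 := h.co' (0, w) hw
    rw [← hφ] at h2 ⊢
    have h2' : Co (pt ((L.p : Ω) ^ s, w')) fun j => pe c' w' (ψ.A j) := by
      change Co (pt ((L.p : Ω) ^ s, w'))
        fun j => pe (fun r => (mar L c c' γ s r).eval ((L.p : Ω) ^ s)) w' (ψ.A j) at h2
      rw [haT] at h2
      exact h2
    have h3 : Co (pt (0, w)) fun j => pe c w (ψ.A j) := by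
      have h3' := h.co (0, w) hw
      change Co (pt (0, w)) fun j => pe (fun r => (mar L c c' γ s r).eval 0) w (ψ.A j) at h3'
      rw [ha0] at h3'
      exact h3'
    rw [co_eq h2' hq.co', co_eq h3 hq.co]
  · rintro ⟨z, v⟩ hP hne
    obtain ⟨hP, hz⟩ := Finset.mem_filter.1 hP
    change z = 0 at hz
    subst hz
    have hv : v ≠ w := fun h0 => hne (by rw [h0])
    have hG : pe (fun r => (mar L c c' γ s r).eval 0) v ψ.G = 0 := ((h.mem (0, v)).1 hP).2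
    have hφ : ((0 : Ω), v) = φ (0, v) := by
      refine h.uq (0, v) hP (0, v) (h.int _ hP).1 (h.int _ hP).2 hG ?_ ?_ ?_
      · rw [ha0] at hG
        change (mb S).eval 0 = mt L ψ S c w w' s * GM.ev₂ (0, v) (mx ψ c w)
        rw [mx_root hψ hq.G hG hv 0, mul_zero, hb0]
      · change L.nm ((0 : Ω) - 0) < e
        rw [sub_zero, L.zero]
        exact he0
      · change L.nm (v - v) < e
        rw [sub_self, L.zero]
        exact he0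
    rw [← hφ, sub_self]
  · intro hn
    exact absurd (Finset.mem_filter.2 ⟨hw, (rfl : ((0 : Ω), w).1 = 0)⟩) hn

end GX
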