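import Pool.Agent.Lib.MP_f80667_ag.Ep.Y
import Pool.Agent.Lib.MP_f80667_ag.Ep.Sd
import Pool.Agent.Lib.MP_f80667_ag.Ep.Mb

/-!
(2.3) The points over a node and the moved points are in one branch.
-/

open ZC BE PE CV IntermediateField

namespace GX

variable {F : Type} [Field F] {N d m : ℕ} {ι : Type} {f : ι → MvPolynomial (Fin N) F}
  {K Ω : Type} [Field K] [CharZero K] [Field Ω] [Algebra K Ω] [Algebra F K] [Algebra F Ω]
  [IsScalarTower F K Ω] [IsAlgClosure K Ω] {L : Ld K Ω} {ψ : Fin m → Prj K N d}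
  {E : IntermediateField K Ω} {L' : Ld E Ω} {X : Bd f E Ω d m} {i : Fin m}
  {γ : Fin (d + 1) → Ω} {M M' : IntermediateField K Ω} {a : Fin (d + 1) → Polynomial Ω}

private theorem mf_cl (E : IntermediateField K Ω) : IsAlgClosure E Ω := by
  have h1 : IsAlgClosed Ω := IsAlgClosure.isAlgClosed K
  have h2 : Algebra.IsAlgebraic K Ω := IsAlgClosure.isAlgebraic
  exact ⟨h1, Algebra.IsAlgebraic.tower_top (K := K) E⟩

/-- **The points near a node.** Proof: `h = (a (z₀) - γ) / ϖ`, `h₁ = (a (z₁) - γ) / ϖ` (`arc_lip` with `a (1) = γ`): integral. `w₀` is a root over `γ + ϖ h`: `rt_all` (for a branch over `γ`; there is one: `G` has a root) gives the branch `b` with `w₀ = rt b h`, so `w₀ ∈ M'` (`rt_mem` over the field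
`extendScalars`, `E ≤ M'`; `X.ψ = ψ` over `E`: `Bg.hψ`, `pe_map`). `w₁` is near `w₀`, so near `w b` (`rt_le`, `nm ϖ < ε ^ 12`): `w₁ = rt b h₁` (`rt_uniq`). Points: `cop`, `co_eq`. -/
theorem Bg.near (hX : Bg f L ψ E L' X) (hγ : ∀ r, γ r ∈ (⊥ : IntermediateField K Ω))
    (hγ1 : ∀ r, L.nm (γ r) ≤ 1)
    (hb : ∀ w, pe γ w (ψ i).G = 0 → ∃ b, X.i b = i ∧ X.γ b = γ ∧ X.w b = w) (hM : M ≤ M')
    (hE : E ≤ M') (ha : Arc L M a) (ha1 : (fun r => (a r).eval 1) = γ) {z₀ z₁ w₀ w₁ : Ω} {t : ℝ}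
    (ht0 : 0 ≤ t) (ht : t ≤ 1) (hz : z₀ ∈ M') (hz0 : L.nm (z₀ - 1) ≤ L.nm X.ϖ)
    (hz1 : L.nm (z₁ - z₀) ≤ L.nm X.ϖ * t) (h0 : pe (fun r => (a r).eval z₀) w₀ (ψ i).G = 0)
    (h1 : pe (fun r => (a r).eval z₁) w₁ (ψ i).G = 0) (hw : L.nm (w₁ - w₀) < X.ε) :
    w₀ ∈ M' ∧ ∃ (b : X.B) (h h₁ : Fin (d + 1) → Ω), Iv L M' h ∧ (z₁ ∈ M' → Iv L M' h₁) ∧
      (∀ r, L.nm (h₁ r - h r) ≤ t) ∧
      (∀ p : (Xf f).pt Ω, (Co p fun j => pe (fun r => (a r).eval z₀) w₀ ((ψ i).A j)) →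
        p = X.P b h) ∧
      ∀ p : (Xf f).pt Ω, (Co p fun j => pe (fun r => (a r).eval z₁) w₁ ((ψ i).A j)) →
        p = X.P b h₁ := by
  have hcl : IsAlgClosure E Ω := mf_cl E
  have hok := hX.ok
  have hnm := hX.nm
  have hε := hok.ε0
  have hε1 : X.ε < 1 := hok.ε1
  have hϖ0 : 0 < L.nm X.ϖ := by
    rw [← hnm]
    exact hok.ϖ0
  have hϖε : L.nm X.ϖ < X.ε ^ 2 := by
    rw [← hnm]
    exact hok.sm.trans_le (pow_le_pow_of_le_one hε.le hε1.le (by norm_num))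
  have hεε : X.ε ^ 2 ≤ X.ε := by
    rw [sq]
    exact mul_le_of_le_one_left hε.le hε1.le
  have hϖ1 : L.nm X.ϖ ≤ 1 := (hϖε.le.trans hεε).trans hε1.le
  have hϖne : X.ϖ ≠ 0 := L.ne_zero hϖ0
  have hϖm : X.ϖ ∈ M' := by
    obtain ⟨k, hk⟩ := hX.hϖ
    rw [hk]
    exact pow_mem (IntermediateField.natCast_mem _ _) _
  have hz01 : L.nm z₀ ≤ 1 := by
    have e : z₀ = (z₀ - 1) + 1 := by ring
    rw [e]
    exact (L.add _ _).trans (max_le (hz0.trans hϖ1) L.one.le)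
  have hϖt : L.nm X.ϖ * t ≤ 1 := mul_le_one₀ hϖ1 ht0 ht
  have hz11 : L.nm z₁ ≤ 1 := by
    have e : z₁ = (z₁ - z₀) + z₀ := by ring
    rw [e]
    exact (L.add _ _).trans (max_le (hz1.trans hϖt) hz01)
  have hγm : ∀ r, γ r ∈ M' := fun r => (bot_le : ⊥ ≤ M') (hγ r)
  have ha1' : ∀ r, (a r).eval 1 = γ r := fun r => congrFun ha1 r
  have hc0 : ∀ r, L.nm ((a r).eval z₀ - γ r) ≤ L.nm X.ϖ := fun r => by
    rw [← ha1' r]
    exact (arc_lip ha L.one.le hz01 r).trans hz0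
  have hc1 : ∀ r, L.nm ((a r).eval z₁ - (a r).eval z₀) ≤ L.nm X.ϖ * t := fun r =>
    (arc_lip ha hz01 hz11 r).trans hz1
  have hac : ∀ r, L.nm ((a r).eval z₀) ≤ 1 := fun r => by
    have e : (a r).eval z₀ = ((a r).eval z₀ - γ r) + γ r := by ring
    rw [e]
    exact (L.add _ _).trans (max_le ((hc0 r).trans hϖ1) (hγ1 r))
  obtain ⟨h, hh⟩ : ∃ h : Fin (d + 1) → Ω, h = fun r => ((a r).eval z₀ - γ r) / X.ϖ := ⟨_, rfl⟩
  obtain ⟨h₁, hh₁⟩ : ∃ h : Fin (d + 1) → Ω, h = fun r => ((a r).eval z₁ - γ r) / X.ϖ :=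
    ⟨_, rfl⟩
  have hn : ∀ r, L.nm (h r) ≤ 1 := fun r => by
    rw [hh, L.div, div_le_one hϖ0]
    exact hc0 r
  have hd : ∀ r, L.nm (h₁ r - h r) ≤ t := fun r => by
    have e : h₁ r - h r = ((a r).eval z₁ - (a r).eval z₀) / X.ϖ := by
      rw [hh, hh₁]
      ring
    rw [e, L.div, div_le_iff₀ hϖ0, mul_comm]
    exact hc1 r
  have hn₁ : ∀ r, L.nm (h₁ r) ≤ 1 := fun r => by
    have e : h₁ r = (h₁ r - h r) + h r := by ring
    rw [e]
    exact (L.add _ _).trans (max_le ((hd r).trans ht) (hn r))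
  have hG : ∀ (c : Fin (d + 1) → Ω) (w : Ω) (b : X.B), pe c w (X.ψ (X.i b)).G = pe c w (ψ (X.i b)).G := fun c w b => by
    rw [hX.hψ]
    exact pe_map c w _
  have hA : ∀ (c : Fin (d + 1) → Ω) (w : Ω) (b : X.B) (j : Fin N),
      pe c w ((X.ψ (X.i b)).A j) = pe c w ((ψ (X.i b)).A j) :=
    fun c w b j => by
      rw [hX.hψ]
      exact pe_map c w _
  have hDD : ∀ (c : Fin (d + 1) → Ω) (b : X.B), MvPolynomial.aeval c (X.ψ (X.i b)).D =
      MvPolynomial.aeval c (ψ (X.i b)).D := fun c b => by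
    rw [hX.hψ]
    exact MvPolynomial.aeval_map_algebraMap E c _
  obtain ⟨w, hw1, hw2⟩ := (hX.pk i).root_near hγ1 hac hϖ0.le hc0 (δ := X.ε) (fun w hw => by
    obtain ⟨b, rfl, h3, h4⟩ := hb w hw
    refine le_trans ?_ ((hX.pk (X.i b)).gy hγ1 hw)
    rw [← h3, ← hDD, ← hnm]
    exact hok.D b) hε h0
  obtain ⟨b, rfl, hγb, hwb⟩ := hb w hw1
  have hw3 : L.nm (w₀ - w) < X.ε := by
    by_contra h3
    rw [not_lt] at h3
    have h4 := (mul_le_mul_of_nonneg_right h3 hε.le).trans hw2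
    rw [← sq] at h4
    exact absurd hϖε (not_lt.2 h4)
  have hcc : X.cc b h = fun r => (a r).eval z₀ := by
    funext r
    rw [Bd.cc, hγb, hh]
    field_simp
    ring
  have hcc₁ : X.cc b h₁ = fun r => (a r).eval z₁ := by
    funext r
    rw [Bd.cc, hγb, hh₁]
    field_simp
    ring
  have hn' : ∀ r, L'.nm (h r) ≤ 1 := fun r => by
    rw [hnm]
    exact hn r
  have hn₁' : ∀ r, L'.nm (h₁ r) ≤ 1 := fun r => by
    rw [hnm]
    exact hn₁ r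
  have hr0 : w₀ = X.rt L' b h := hok.rt_uniq b hn' (by rw [hG, hcc]; exact h0)
    (by rw [hnm, hwb]; exact hw3)
  have hr1 : w₁ = X.rt L' b h₁ := hok.rt_uniq b hn₁' (by rw [hG, hcc₁]; exact h1)
    (by
      rw [hnm, hwb]
      have e : w₁ - w = (w₁ - w₀) + (w₀ - w) := by ring
      rw [e]
      exact (L.add _ _).trans_lt (max_lt hw hw3))
  have hm : Iv L M' h := fun r => ⟨by
    rw [hh]
    exact div_mem (sub_mem (arc_iv hM ha hz hz01 r).1 (hγm r)) hϖm, hn r⟩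
  refine ⟨?_, b, h, h₁, hm, fun hz1' r => ⟨?_, hn₁ r⟩, hd, fun p hp => ?_, fun p hp => ?_⟩
  · have h3 := (hok.rt_mem (M := extendScalars hE) b fun r =>
      ⟨(mem_extendScalars hE).2 (hm r).1, hn' r⟩).1
    rw [← hr0] at h3
    exact (mem_extendScalars hE).1 h3
  · rw [hh₁]
    exact div_mem (sub_mem (arc_iv hM ha hz1' hz11 r).1 (hγm r)) hϖm
  · refine co_eq hp ?_
    have h3 := hok.cop b hn'
    rw [hcc, ← hr0] at h3
    simp only [hA] at h3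
    exact h3
  · refine co_eq hp ?_
    have h3 := hok.cop b hn₁'
    rw [hcc₁, ← hr1] at h3
    simp only [hA] at h3
    exact h3

/-- `D` at a node. Proof: `Pk.D_near`, `nm ϖ < ε`. -/
theorem Bg.D_node (hX : Bg f L ψ E L' X) (hγ1 : ∀ r, L.nm (γ r) ≤ 1)
    (hD : X.ε ≤ L.nm (MvPolynomial.aeval γ (ψ i).D)) (ha : Arc L M a)
    (ha1 : (fun r => (a r).eval 1) = γ) {z₀ : Ω} (hz0 : L.nm (z₀ - 1) ≤ L.nm X.ϖ) :
    X.ε ≤ L.nm (MvPolynomial.aeval (fun r => (a r).eval z₀) (ψ i).D) := by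
  have hcl : IsAlgClosure E Ω := mf_cl E
  have hok := hX.ok
  have hε := hok.ε0
  have hε1 : X.ε < 1 := hok.ε1
  have hϖε : L.nm X.ϖ < X.ε := by
    rw [← hX.nm]
    refine hok.sm.trans_le ((pow_le_pow_of_le_one hε.le hε1.le (by norm_num)).trans_eq (pow_one _))
  have hϖ1 : L.nm X.ϖ ≤ 1 := hϖε.le.trans hε1.le
  have hz01 : L.nm z₀ ≤ 1 := by
    have e : z₀ = (z₀ - 1) + 1 := by ring
    rw [e]
    exact (L.add _ _).trans (max_le (hz0.trans hϖ1) L.one.le)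
  have ha1' : ∀ r, (a r).eval 1 = γ r := fun r => congrFun ha1 r
  have hc0 : ∀ r, L.nm ((a r).eval z₀ - γ r) ≤ L.nm X.ϖ := fun r => by
    rw [← ha1' r]
    exact (arc_lip ha L.one.le hz01 r).trans hz0
  have hac : ∀ r, L.nm ((a r).eval z₀) ≤ 1 := fun r => by
    have e : (a r).eval z₀ = ((a r).eval z₀ - γ r) + γ r := by ring
    rw [e]
    exact (L.add _ _).trans (max_le ((hc0 r).trans hϖ1) (hγ1 r))
  have h1 := (hX.pk i).D_near hγ1 hac (L.nonneg X.ϖ) hc0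
  rw [L.eq_of_close (h1.trans_lt (hϖε.trans_le hD))]
  exact hD

end GX
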