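import Pool.Agent.Lib.MP_f80667_ag.Pe.NmL
import Pool.Agent.Lib.MP_f80667_ag.Cv.NfD

/-!
(2.3) Sums over orbits are traces.
-/

open ZC BE PE CV IntermediateField

namespace GX

variable {K Ω : Type} [Field K] [CharZero K] [Field Ω] [Algebra K Ω] [IsAlgClosure K Ω]

/-- **Sums over orbits.** `T` is stable under the automorphisms over `M`, the stabilizer of every `P ∈ T` is the group of `M'`, `Φ` is equivariant: the sum of the `Φ P` over `T` is the trace of a partial sum (one point of every orbit). Proof: induction on `T.card`: take `P ∈ T`, its orbit `O` (the image of the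
representatives of `nm_rep` / `nm_eq`: `γ ↦ γ P` is injective on the cosets), `∑ P ∈ O, Φ P = Nm M M' (Φ P)` (`nm_eq`; `Φ P` is fixed by `M'`), `T \ O` is stable; `nm_add`. -/
theorem orb_nm {A : Type} [AddCommGroup A] [DistribMulAction (Ω ≃ₐ[K] Ω) A]
    {M M' : IntermediateField K Ω} (hM : M ≤ M') [FiniteDimensional K M'] {T : Finset (Ω × Ω)}
    (hT : ∀ γ ∈ M.fixingSubgroup, ∀ P ∈ T, (γ P.1, γ P.2) ∈ T)
    (hs : ∀ P ∈ T, ∀ γ ∈ M.fixingSubgroup,
      (γ P.1 = P.1 ∧ γ P.2 = P.2) ↔ γ ∈ M'.fixingSubgroup)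
    {Φ : Ω × Ω → A} (hΦ : ∀ γ ∈ M.fixingSubgroup, ∀ P ∈ T, γ • Φ P = Φ (γ P.1, γ P.2)) :
    ∃ T' ⊆ T, ∑ P ∈ T, Φ P = Nm M M' (∑ P ∈ T', Φ P) := by
  classical
  obtain ⟨s, -, h1, h2, h3⟩ := nm_rep hM
  induction hn : T.card using Nat.strong_induction_on generalizing T with
  | _ n ih =>
    rcases T.eq_empty_or_nonempty with h0 | ⟨P, hP⟩
    · refine ⟨∅, Finset.empty_subset _, ?_⟩
      rw [h0, Finset.sum_empty, h3]
      exact (Finset.sum_eq_zero fun γ _ => smul_zero γ).symm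
    · set O : Finset (Ω × Ω) := s.image fun γ => (γ P.1, γ P.2) with hO
      have hOT : O ⊆ T := by
        intro Q hQ
        obtain ⟨γ, hγ, rfl⟩ := Finset.mem_image.1 hQ
        exact hT γ (h1 γ hγ) P hP
      -- the point `δ P` for any `δ` is in the orbit
      have horb : ∀ δ ∈ M.fixingSubgroup, (δ P.1, δ P.2) ∈ O := by
        intro δ hδ
        obtain ⟨ε, ⟨hε, hε'⟩, -⟩ := h2 δ hδ
        have h4 : ε⁻¹ * δ ∈ M.fixingSubgroup :=
          mul_mem (inv_mem (h1 ε hε)) hδ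
        obtain ⟨h5, h6⟩ := (hs P hP _ h4).2 hε'
        have h7 : ∀ x : Ω, (ε⁻¹ * δ) x = x → δ x = ε x := by
          intro x hx
          have h8 : ε ((ε⁻¹ * δ) x) = δ x := by
            rw [← AlgEquiv.mul_apply, mul_inv_cancel_left]
          rw [hx] at h8
          exact h8.symm
        rw [h7 _ h5, h7 _ h6]
        exact Finset.mem_image.2 ⟨ε, hε, rfl⟩
      have hPO : P ∈ O := horb 1 (one_mem _)
      have hinj : Set.InjOn (fun γ : Ω ≃ₐ[K] Ω => (γ P.1, γ P.2)) (s : Set (Ω ≃ₐ[K] Ω)) := by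
        intro γ hγ δ hδ hγδ
        have hγ' : γ ∈ s := hγ
        have hδ' : δ ∈ s := hδ
        obtain ⟨e1, e2⟩ := Prod.mk.inj hγδ
        have h4 : γ⁻¹ * δ ∈ M.fixingSubgroup := mul_mem (inv_mem (h1 γ hγ')) (h1 δ hδ')
        have h5 : ∀ x : Ω, γ x = δ x → (γ⁻¹ * δ) x = x := by
          intro x hx
          rw [AlgEquiv.mul_apply, ← hx, ← AlgEquiv.mul_apply, inv_mul_cancel]
          rfl
        have h6 := (hs P hP _ h4).1 ⟨h5 _ e1, h5 _ e2⟩
        have h7 : δ⁻¹ * δ ∈ M'.fixingSubgroup := by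
          rw [inv_mul_cancel]
          exact one_mem _
        exact (h2 δ (h1 δ hδ')).unique ⟨hγ', h6⟩ ⟨hδ', h7⟩
      have hsum : ∑ Q ∈ O, Φ Q = Nm M M' (Φ P) := by
        rw [hO, Finset.sum_image hinj, h3]
        exact Finset.sum_congr rfl fun γ hγ => (hΦ γ (h1 γ hγ) P hP).symm
      have hTO : ∀ γ ∈ M.fixingSubgroup, ∀ Q ∈ T \ O, (γ Q.1, γ Q.2) ∈ T \ O := by
        intro γ hγ Q hQ
        obtain ⟨hQT, hQO⟩ := Finset.mem_sdiff.1 hQ
        refine Finset.mem_sdiff.2 ⟨hT γ hγ Q hQT, fun h4 => hQO ?_⟩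
        obtain ⟨δ, hδ, h5⟩ := Finset.mem_image.1 h4
        obtain ⟨e1, e2⟩ := Prod.mk.inj h5
        have h6 := horb (γ⁻¹ * δ) (mul_mem (inv_mem hγ) (h1 δ hδ))
        have h7 : ∀ x y : Ω, δ x = γ y → (γ⁻¹ * δ) x = y := by
          intro x y hxy
          rw [AlgEquiv.mul_apply, hxy, ← AlgEquiv.mul_apply, inv_mul_cancel]
          rfl
        rw [h7 _ _ e1, h7 _ _ e2] at h6
        exact h6
      have hcard : (T \ O).card < n := by
        rw [← hn]
        exact Finset.card_lt_card (Finset.sdiff_ssubset hOT ⟨P, hPO⟩)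
      obtain ⟨T'', hT'', h4⟩ := ih _ hcard (T := T \ O) hTO
        (fun Q hQ => hs Q (Finset.mem_sdiff.1 hQ).1)
        (fun γ hγ Q hQ => hΦ γ hγ Q (Finset.mem_sdiff.1 hQ).1) rfl
      have hPT : P ∉ T'' := fun h5 => (Finset.mem_sdiff.1 (hT'' h5)).2 hPO
      refine ⟨insert P T'', ?_, ?_⟩
      · intro Q hQ
        rcases Finset.mem_insert.1 hQ with rfl | hQ
        · exact hP
        · exact (Finset.mem_sdiff.1 (hT'' hQ)).1
      · rw [Finset.sum_insert hPT, nm_add hM, ← hsum, ← h4, add_comm,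
          Finset.sum_sdiff hOT]

end GX
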