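import Pool.Agent.Lib.MP_f80667_ag.Pe.NmL
import Pool.Agent.Lib.MP_f80667_ag.Cv.NfD

/-! (2.3) Traces in the tower `K ≤ E ≤ M`. -/

open ZC BE PE CV IntermediateField

namespace GX

variable {K Ω : Type} [Field K] [CharZero K] [Field Ω] [Algebra K Ω] [IsAlgClosure K Ω]

/-- **Towers.** Proof: `nm_tr` for `⊥ ≤ E ≤ M`; `Nm E M z` over `K` is the trace over `E` (the groups of automorphisms over `E` are the same: `nm_eq` with representatives, or compare `u₂` in `Cv/NfD.lean`). -/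
theorem nm_tow {F : Type} [Field F] [Algebra F K] [Algebra F Ω] [IsScalarTower F K Ω]
    {V : Vr F} [Hf V] {E M : IntermediateField K Ω} (hE : E ≤ M) [FiniteDimensional K M]
    {z : V.pt Ω →₀ ℤ} (hz : Fx M z) :
    Nm (⊥ : IntermediateField K Ω) M z = Nm (⊥ : IntermediateField K Ω) E
      (Nm (⊥ : IntermediateField E Ω) (extendScalars hE) z) := by
  classical
  have iB : IsAlgClosed Ω := IsAlgClosure.isAlgClosed K (K := Ω)
  have iD : Algebra.IsAlgebraic K Ω := IsAlgClosure.isAlgebraic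
  have iA : IsAlgClosure E Ω := ⟨inferInstance, Algebra.IsAlgebraic.tower_top (K := K) E⟩
  have iC : CharZero E := charZero_of_injective_algebraMap (algebraMap K E).injective
  have hE0 : FiniteDimensional K E :=
    FiniteDimensional.of_injective (IntermediateField.inclusion hE).toLinearMap
      (IntermediateField.inclusion_injective hE)
  have i0 : FiniteDimensional K (extendScalars hE : IntermediateField E Ω) :=
    inferInstanceAs (FiniteDimensional K M)
  have i1 : FiniteDimensional E (extendScalars hE : IntermediateField E Ω) :=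
    FiniteDimensional.right K E (extendScalars hE : IntermediateField E Ω)
  rw [nm_tr bot_le hE hz]
  congr 1
  obtain ⟨s, -, -, s2, s3⟩ := nm_rep (K := E) (Ω := Ω) (M := ⊥) (N := extendScalars hE) bot_le
  rw [s3]
  have hinj : Function.Injective fun γ : Ω ≃ₐ[E] Ω => γ.restrictScalars K := fun γ δ hγ =>
    AlgEquiv.ext fun x => DFunLike.congr_fun hγ x
  have h5 := nm_eq hE (s.map ⟨_, hinj⟩) (P := z) (fun γ hγ => ?_) (fun γ hγ => ?_) hz
  · rw [h5, Finset.sum_map]
    rfl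
  · obtain ⟨δ, -, rfl⟩ := Finset.mem_map.1 hγ
    rw [IntermediateField.mem_fixingSubgroup_iff]
    exact fun x hx => δ.commutes ⟨x, hx⟩
  · obtain ⟨δ₀, hδ₀⟩ : ∃ δ₀ : Ω ≃ₐ[E] Ω, δ₀.restrictScalars K = γ :=
      ⟨IntermediateField.fixingSubgroupEquiv E ⟨γ, hγ⟩, AlgEquiv.ext fun x => rfl⟩
    have hiff : ∀ δ : Ω ≃ₐ[E] Ω, (δ.restrictScalars K)⁻¹ * γ ∈ M.fixingSubgroup ↔
        δ⁻¹ * δ₀ ∈ (extendScalars hE : IntermediateField E Ω).fixingSubgroup := by
      intro δ
      rw [← hδ₀, IntermediateField.mem_fixingSubgroup_iff, IntermediateField.mem_fixingSubgroup_iff]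
      exact Iff.rfl
    obtain ⟨δ, ⟨hδ, hδ'⟩, huniq⟩ := s2 δ₀ (by
      rw [IntermediateField.fixingSubgroup_bot]
      exact Subgroup.mem_top _)
    refine ⟨δ.restrictScalars K, ⟨Finset.mem_map.2 ⟨δ, hδ, rfl⟩, (hiff δ).2 hδ'⟩, ?_⟩
    rintro y ⟨hy, hy'⟩
    obtain ⟨δ', hδ'', rfl⟩ := Finset.mem_map.1 hy
    exact congrArg (fun γ : Ω ≃ₐ[E] Ω => γ.restrictScalars K) (huniq δ' ⟨hδ'', (hiff δ').1 hy'⟩)

end GX
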