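import Pool.Agent.Lib.MP_f80667_ag.Ep.D

/-!
The branches in the polydiscs of the projections (EP, section 1).

* `Pk f L ψ`: the projection `ψ` has integral coefficients (no condition on the reduction).
* `Bd f K Ω d m`: the data of a system of branches. `b : B` is a branch of the projection number `i b` over the polydisc with the centre `γ b` and
  the radius `nm ϖ`, the one with the value `w b` at the centre; `P b h` is the point of the branch over `γ b + ϖ h`; `ε` is a bound.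
* `Bd.cc b h`: the point `γ b + ϖ h`.
* `Bd.Ok`: the properties. All centres and all points over them are rational over `K`.
-/

open ZC BE PE CV IntermediateField

namespace GX

variable {F : Type} [Field F] {N : ℕ} {ι : Type} (f : ι → MvPolynomial (Fin N) F) {K Ω : Type}
  [Field K] [Field Ω] [Algebra K Ω] [Algebra F K] [Algebra F Ω] [IsScalarTower F K Ω]
  (L : Ld K Ω)

/-- A projection with integral coefficients. -/
structure Pk {d : ℕ} (ψ : Prj K N d) : Prop where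
  iu : ∀ r j, L.nm (algebraMap K Ω (ψ.u r j)) ≤ 1
  iy : ∀ j, L.nm (algebraMap K Ω (ψ.y j)) ≤ 1
  iG : ∀ j e, L.nm (algebraMap K Ω ((ψ.G.coeff j).coeff e)) ≤ 1
  iD : ∀ e, L.nm (algebraMap K Ω (ψ.D.coeff e)) ≤ 1
  iA : ∀ i j e, L.nm (algebraMap K Ω (((ψ.A i).coeff j).coeff e)) ≤ 1
  hom : ∀ i, ∃ e, (f i).IsHomogeneous e
  mon : ψ.G.Monic
  homG : ∀ j, (ψ.G.coeff j).IsHomogeneous (ψ.G.natDegree - j)
  homD : ∃ e, e ≠ 0 ∧ ψ.D.IsHomogeneous e
  bez : ∃ B B' : Polynomial (MvPolynomial (Fin (d + 1)) K),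
    (∀ j e, L.nm (algebraMap K Ω ((B.coeff j).coeff e)) ≤ 1) ∧
    (∀ j e, L.nm (algebraMap K Ω ((B'.coeff j).coeff e)) ≤ 1) ∧
    B * ψ.G + B' * Polynomial.derivative ψ.G = Polynomial.C ψ.D
  onX : ∀ x : Fin N → Ω, x ≠ 0 → (∀ i, MvPolynomial.aeval x (f i) = 0) →
    pe (ψ.uv x) (ψ.yv x) ψ.G = 0 ∧
      ∀ j, pe (ψ.uv x) (ψ.yv x) (ψ.A j) = MvPolynomial.aeval (ψ.uv x) ψ.D * x j
  inX : ∃ s, ∀ i, ψ.G ∣ Polynomial.C (ψ.D ^ s) * MvPolynomial.aeval ψ.A (f i)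
  inu : ∀ (c : Fin (d + 1) → Ω) (w : Ω), pe c w ψ.G = 0 →
    ∀ r, ψ.uv (fun j => pe c w (ψ.A j)) r = MvPolynomial.aeval c ψ.D * c r
  iny : ∀ (c : Fin (d + 1) → Ω) (w : Ω), pe c w ψ.G = 0 →
    ψ.yv (fun j => pe c w (ψ.A j)) = MvPolynomial.aeval c ψ.D * w
  ok : (ψ.map (algebraMap K Ω)).Ok fun i => MvPolynomial.map (algebraMap F Ω) (f i)

theorem Pj.pk {d : ℕ} {ψ : Prj K N d} (h : Pj f L ψ) : Pk f L ψ :=
  ⟨h.iu, h.iy, h.iG, h.iD, h.iA, h.hom, h.mon, h.homG, h.homD, h.bez, h.onX, h.inX, h.inu,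
    h.iny, h.ok⟩

/-- The data of a system of branches. -/
structure Bd (f : ι → MvPolynomial (Fin N) F) (K Ω : Type) [Field K] [Field Ω] [Algebra K Ω]
    [Algebra F K] [Algebra F Ω] [IsScalarTower F K Ω] (d m : ℕ) where
  /-- the projections -/
  ψ : Fin m → Prj K N d
  /-- the branches -/
  B : Type
  /-- the number of the projection -/
  i : B → Fin m
  /-- the centre -/
  γ : B → Fin (d + 1) → Ω
  /-- the value of `y` at the centre -/
  w : B → Ω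
  /-- the radius of the polydiscs -/
  ϖ : Ω
  /-- the bound -/
  ε : ℝ
  /-- the points -/
  P : B → (Fin (d + 1) → Ω) → (Xf f).pt Ω

variable {f} {d m : ℕ}

/-- The point `γ b + ϖ h`. -/
def Bd.cc (X : Bd f K Ω d m) (b : X.B) (h : Fin (d + 1) → Ω) : Fin (d + 1) → Ω :=
  fun r => X.γ b r + X.ϖ * h r

/-- The properties of a system of branches over `K`. -/
structure Bd.Ok (X : Bd f K Ω d m) : Prop where
  fin : Finite X.B
  pk : ∀ i, Pk f L (X.ψ i)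
  ϖm : X.ϖ ∈ (⊥ : IntermediateField K Ω)
  ϖ0 : 0 < L.nm X.ϖ
  ε0 : 0 < X.ε
  εp : X.ε ≤ L.nm (L.p : Ω)
  sm : L.nm X.ϖ < X.ε ^ 12
  iv : ∀ b, Iv L (⊥ : IntermediateField K Ω) (X.γ b)
  wm : ∀ b, X.w b ∈ (⊥ : IntermediateField K Ω)
  wl : ∀ b, L.nm (X.w b) ≤ 1
  root : ∀ b, pe (X.γ b) (X.w b) (X.ψ (X.i b)).G = 0
  all : ∀ b w, pe (X.γ b) w (X.ψ (X.i b)).G = 0 →
    ∃ b', X.i b' = X.i b ∧ X.γ b' = X.γ b ∧ X.w b' = w
  D : ∀ b, X.ε ≤ L.nm (MvPolynomial.aeval (X.γ b) (X.ψ (X.i b)).D)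
  co : ∀ b h, (∀ r, L.nm (h r) ≤ 1) → ∃ w, L.nm (w - X.w b) < X.ε ∧
    pe (X.cc b h) w (X.ψ (X.i b)).G = 0 ∧
      Co (X.P b h) fun j => pe (X.cc b h) w ((X.ψ (X.i b)).A j)

/-- The residue field is large: unit separated elements of `K`. -/
def Big (n : ℕ) : Prop :=
  ∃ θ : Fin n → Ω, (∀ k, θ k ∈ (⊥ : IntermediateField K Ω) ∧ L.nm (θ k) ≤ 1) ∧
    ∀ k l, k ≠ l → L.nm (θ k - θ l) = 1

end GX
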