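import Pool.Agent.Lib.MP_f80667_ag.Ep.Zd
import Pool.Agent.Lib.MP_f80667_ag.Ep.S
import Pool.Agent.Lib.MP_f80667_ag.Gx.XC
import Pool.Agent.Lib.MP_f80667_ag.Gx.Pr

/-!
**DZ + PR** (EP, 2.2) for a projection with integral coefficients and an arc.
-/

open ZC BE PE CV IntermediateField GM

namespace GX

section

variable {F : Type} [Field F] {N d : ℕ} {ι : Type} {f : ι → MvPolynomial (Fin N) F} {K Ω : Type}
  [Field K] [Field Ω] [Algebra K Ω] [Algebra F K] [Algebra F Ω] [IsScalarTower F K Ω]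
  {L : Ld K Ω} {ψ : Prj K N d} {M : IntermediateField K Ω}

private theorem ze_deg {σ : Type} (a : σ → Polynomial Ω) {ρ : ℕ}
    (ha : ∀ r, (a r).natDegree ≤ ρ) {Q : MvPolynomial σ K} {e : ℕ} (hQ : Q.IsHomogeneous e) :
    (MvPolynomial.aeval a Q : Polynomial Ω).natDegree ≤ e * ρ := by
  rw [MvPolynomial.aeval_def, MvPolynomial.eval₂_eq]
  refine Polynomial.natDegree_sum_le_of_forall_le _ _ fun D hD => ?_
  have h1 := hQ (MvPolynomial.mem_support_iff.1 hD)
  rw [Polynomial.algebraMap_apply]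
  refine (Polynomial.natDegree_C_mul_le _ _).trans ?_
  refine (Polynomial.natDegree_prod_le _ _).trans ?_
  have h2 : ∀ i ∈ D.support, (a i ^ D i).natDegree ≤ D i * ρ := fun i _ =>
    (Polynomial.natDegree_pow_le).trans (Nat.mul_le_mul_left _ (ha i))
  refine (Finset.sum_le_sum h2).trans ?_
  rw [← Finset.sum_mul]
  refine Nat.mul_le_mul_right _ (le_of_eq ?_)
  rw [← h1, Finsupp.weight_apply]
  simp [Finsupp.sum]

/-- The curve of an arc. -/
theorem Pk.mc (h : Pk f L ψ) {a : Fin (d + 1) → Polynomial Ω} {ρ : ℕ}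
    (hρ : ∀ r, (a r).natDegree ≤ ρ) : GM.Mc ρ ψ.G.natDegree (ga a ψ.G) := by
  refine ⟨h.mon.map _, h.mon.natDegree_map _, fun j => ?_⟩
  rw [ga_coeff]
  exact ze_deg a hρ (h.homG j)

theorem Pk.inXa (h : Pk f L ψ) (a : Fin (d + 1) → Polynomial Ω) : ∃ s, ∀ i,
    ga a ψ.G ∣ Polynomial.C ((MvPolynomial.aeval a ψ.D : Polynomial Ω) ^ s) *
      MvPolynomial.aeval (fun j => ga a (ψ.A j)) (f i) := by
  obtain ⟨s, hs⟩ := h.inX
  refine ⟨s, fun i => ?_⟩
  have h1 := map_dvd (ga a) (hs i)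
  rw [map_mul, ga_C, map_pow] at h1
  have h2 : ga a (MvPolynomial.aeval ψ.A (f i)) =
      MvPolynomial.aeval (fun j => ga a (ψ.A j)) (f i) := by
    generalize f i = Q
    induction Q using MvPolynomial.induction_on with
    | C c =>
      rw [MvPolynomial.aeval_C, MvPolynomial.aeval_C,
        IsScalarTower.algebraMap_apply F K (Polynomial (MvPolynomial (Fin (d + 1)) K)),
        IsScalarTower.algebraMap_apply F K (Polynomial (Polynomial Ω)),
        Polynomial.algebraMap_apply, ga_C, MvPolynomial.algebraMap_apply, MvPolynomial.aeval_C,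
        Polynomial.algebraMap_apply]
      rfl
    | add p q hp hq => rw [map_add, map_add, map_add, hp, hq]
    | mul_X p i hp =>
      rw [map_mul, map_mul, map_mul, hp, MvPolynomial.aeval_X, MvPolynomial.aeval_X]
  rwa [h2] at h1

/-- The derivative of `G` at a root. -/
theorem Pk.dG (h : Pk f L ψ) {c : Fin (d + 1) → Ω} {w : Ω} (hc : ∀ r, L.nm (c r) ≤ 1)
    (hw : L.nm w ≤ 1) (hG : pe c w ψ.G = 0) :
    L.nm (MvPolynomial.aeval c ψ.D) ≤ L.nm (pe c w (Polynomial.derivative ψ.G)) := by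
  obtain ⟨B, B', hB, hB', h1⟩ := h.bez
  have h2 := congrArg (pe c w) h1
  rw [map_add, map_mul, map_mul, hG, mul_zero, zero_add, pe_C] at h2
  rw [← h2, L.mul]
  exact mul_le_of_le_one_left (L.nonneg _) (pe_le hB' hc hw)

end

section

variable {F : Type} [Field F] {N d : ℕ} {ι : Type} {f : ι → MvPolynomial (Fin N) F} {K Ω : Type}
  [Field K] [CharZero K] [Field Ω] [Algebra K Ω] [Algebra F K] [Algebra F Ω]
  [IsScalarTower F K Ω] [IsAlgClosure K Ω] {L : Ld K Ω} {ψ : Prj K N d}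
  {M : IntermediateField K Ω} {ρ : ℕ} {a : Fin (d + 1) → Polynomial Ω} {b : Polynomial Ω}
  {x : Polynomial (Polynomial Ω)} {t : Ω} {e : ℝ}

/-- The points of the curve of an arc. -/
def Cup (f : ι → MvPolynomial (Fin N) F) (ψ : Prj K N d) (a : Fin (d + 1) → Polynomial Ω)
    (q : Ω × Ω) (P : (Xf f).pt Ω) : Prop :=
  Co P fun j => pe (fun r => (a r).eval q.1) q.2 (ψ.A j)

open Classical in
/-- **DZ + PR** for a projection with integral coefficients and an arc over the integers of `M`. -/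
theorem Pk.dz (hψ : Pk f L ψ) [FiniteDimensional K M] (ha : Arc L M a)
    (hρ : ∀ r, (a r).natDegree ≤ ρ) (bm : b.Monic)
    (ib : ∀ i, b.coeff i ∈ M ∧ L.nm (b.coeff i) ≤ 1) (ix : I₂ L M x)
    (wx : GM.Wl ρ b.natDegree x) (mt : t ∈ M) (e0 : 0 < e) (te : L.nm t < e ^ 4)
    (hb : ∀ c, b.eval c = 0 → e ≤ L.nm (b.derivative.eval c) ∧
      e ≤ L.nm (MvPolynomial.aeval (fun r => (a r).eval c) ψ.D)) :
    ∃ (T : Finset (Ω × Ω)) (φ : Ω × Ω → Ω × Ω),
      (∀ q, q ∈ T ↔ b.eval q.1 = 0 ∧ pe (fun r => (a r).eval q.1) q.2 ψ.G = 0) ∧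
      (∀ q ∈ T, Ip L q ∧ Ip L (φ q) ∧ pe (fun r => (a r).eval (φ q).1) (φ q).2 ψ.G = 0 ∧
        b.eval (φ q).1 = t * ev₂ (φ q) x ∧ L.nm ((φ q).1 - q.1) ≤ L.nm t / e ∧
        L.nm ((φ q).2 - q.2) ≤ L.nm t / e ^ 2 ∧
        L.nm ((φ q).1 - q.1 - t * ev₂ q x / b.derivative.eval q.1) ≤ L.nm t ^ 2 / e ^ 3 ∧
        e ≤ L.nm (MvPolynomial.aeval (fun r => (a r).eval (φ q).1) ψ.D)) ∧
      (∀ q ∈ T, ∀ Q : Ω × Ω, pe (fun r => (a r).eval Q.1) Q.2 ψ.G = 0 →
        b.eval Q.1 = t * ev₂ Q x → L.nm (Q.1 - q.1) < e → L.nm (Q.2 - q.2) < e → Q = φ q) ∧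
      (∀ q ∈ T, ∀ q' ∈ T, φ q = φ q' → q = q') ∧
      (∀ γ ∈ M.fixingSubgroup, ∀ q ∈ T, ((γ q.1, γ q.2) : Ω × Ω) ∈ T ∧
        φ (γ q.1, γ q.2) = (γ (φ q).1, γ (φ q).2)) ∧
      ∀ P : Ω × Ω → (Xf f).pt Ω, (∀ q ∈ T, Cup f ψ a q (P q) ∧ Cup f ψ a (φ q) (P (φ q))) →
        ∑ q ∈ T, (Finsupp.single (P (φ q)) (1 : ℤ) - Finsupp.single (P q) 1) ∈
          (Xf f).ratEq M Ω := by
  have hcl : IsAlgClosed Ω := IsAlgClosure.isAlgClosed K
  have hmc := hψ.mc (ρ := ρ) hρ
  have hig : I₂ L M (ga a ψ.G) := ga_I₂ ha hψ.iG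
  have hev : ∀ (P : Ω × Ω) (Q : Polynomial (MvPolynomial (Fin (d + 1)) K)),
      ev₂ P (ga a Q) = pe (fun r => (a r).eval P.1) P.2 Q := fun P Q => ga_ev a Q P.1 P.2
  -- the points over the roots of `b`
  obtain ⟨T, hT⟩ : ∃ T : Finset (Ω × Ω), ∀ q, q ∈ T ↔ b.eval q.1 = 0 ∧
      pe (fun r => (a r).eval q.1) q.2 ψ.G = 0 := by
    refine ⟨b.roots.toFinset.biUnion fun c =>
      (((ga a ψ.G).map (Polynomial.evalRingHom c)).roots.toFinset).image fun w => (c, w),
      fun q => ?_⟩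
    have hpe : ∀ c w : Ω, ((ga a ψ.G).map (Polynomial.evalRingHom c)).eval w =
        ev₂ (c, w) (ga a ψ.G) := by
      intro c w
      rw [ev₂_eq, Polynomial.map_evalRingHom_eval]
    rw [Finset.mem_biUnion]
    constructor
    · rintro ⟨c, hc, hq⟩
      obtain ⟨w, hw, rfl⟩ := Finset.mem_image.1 hq
      refine ⟨(Polynomial.mem_roots'.1 (Multiset.mem_toFinset.1 hc)).2, ?_⟩
      have h1 := (Polynomial.mem_roots'.1 (Multiset.mem_toFinset.1 hw)).2
      rw [Polynomial.IsRoot, hpe, hev] at h1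
      exact h1
    · rintro ⟨h1, h2⟩
      refine ⟨q.1, Multiset.mem_toFinset.2 (Polynomial.mem_roots'.2 ⟨bm.ne_zero, h1⟩), ?_⟩
      refine Finset.mem_image.2 ⟨q.2, Multiset.mem_toFinset.2 (Polynomial.mem_roots'.2
        ⟨(hmc.monic.map _).ne_zero, ?_⟩), rfl⟩
      rw [Polynomial.IsRoot, hpe, hev]
      exact h2
  have hroot : ∀ c, b.eval c = 0 → L.nm c ≤ 1 := fun c hc => L.root_le bm (fun i => (ib i).2) hc
  have hac : ∀ {c : Ω}, L.nm c ≤ 1 → ∀ r, L.nm ((a r).eval c) ≤ 1 := fun hc r =>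
    L.eval_le (fun i => (ha r i).2) hc
  have hder : ∀ P : Ω × Ω, ev₂ P (dY (ga a ψ.G)) =
      pe (fun r => (a r).eval P.1) P.2 (Polynomial.derivative ψ.G) := by
    intro P
    rw [← hev]
    congr 1
    exact ga_der a ψ.G
  have hD : Zd L M ρ ψ.G.natDegree (ga a ψ.G) b x t e T :=
    { mc := hmc
      ig := fun i j => (hig i j).2
      rg := fun i j => (hig i j).1
      bm := bm
      ib := fun i => (ib i).2
      rb := fun i => (ib i).1
      ix := fun i j => (ix i j).2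
      rx := fun i j => (ix i j).1
      wx := wx
      mt := mt
      te := te
      e0 := e0
      mT := fun q => by rw [hT q, hev]
      db := fun q hq => (hb q.1 ((hT q).1 hq).1).1
      dg := fun q hq => by
        have h1 := (hT q).1 hq
        have h2 := hroot q.1 h1.1
        rw [hder]
        refine (hb q.1 h1.1).2.trans (hψ.dG (hac h2) ?_ h1.2)
        refine w_int hmc.monic (fun i j => (hig i j).2) h2 ?_
        rw [hev]
        exact h1.2 }
  obtain ⟨φ, h1, h2, h3, h4, h5⟩ := hD.dz (F := F)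
  have e1 : ∀ q ∈ T, e ≤ 1 := fun q hq => (hD.zp hq).e1
  -- `D` at the displaced points
  have hCa : ∀ r, In₂ L (Polynomial.C (a r)) := by
    intro r i j
    rw [Polynomial.coeff_C]
    split_ifs
    · exact (ha r j).2
    · rw [Polynomial.coeff_zero, L.zero]
      exact zero_le_one
  have hDa : In₂ L (Polynomial.C (MvPolynomial.aeval a ψ.D : Polynomial Ω)) := by
    have h6 : I₂ L M (ga a (Polynomial.C ψ.D)) := ga_I₂ ha fun j e => by
      rw [Polynomial.coeff_C]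
      split_ifs
      · exact hψ.iD e
      · rw [MvPolynomial.coeff_zero, map_zero, L.zero]
        exact zero_le_one
    rw [ga_C] at h6
    exact fun i j => (h6 i j).2
  have hDe : ∀ P : Ω × Ω, ev₂ P (Polynomial.C (MvPolynomial.aeval a ψ.D : Polynomial Ω)) =
      MvPolynomial.aeval (fun r => (a r).eval P.1) ψ.D := by
    intro P
    rw [← ga_C, hev, pe_C]
  have hφD : ∀ q ∈ T, e ≤ L.nm (MvPolynomial.aeval (fun r => (a r).eval (φ q).1) ψ.D) := by
    intro q hq
    obtain ⟨k1, -, -, k4, k5, -⟩ := h1 q hq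
    have hqT := (hT q).1 hq
    have hDq := (hb q.1 hqT.1).2
    have e11 := e1 q hq
    have e41 : e ^ 4 ≤ e ^ 2 := pow_le_pow_of_le_one e0.le e11 (by norm_num)
    have k6 : L.nm t / e < e := by
      rw [div_lt_iff₀ e0]
      calc L.nm t < e ^ 2 := te.trans_le e41
        _ = e * e := by ring
    have hip := hD.ip hq
    have hip1 : Ip L ((q.1, q.2) : Ω × Ω) := hip
    have hip2 : Ip L (((φ q).1, q.2) : Ω × Ω) := ⟨k1.1, hip.2⟩
    have k7 := ev_sub_le hDa hip1 hip2 (r := L.nm t / e) k4 (by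
      rw [sub_self, L.zero]
      exact div_nonneg (L.nonneg _) e0.le)
    rw [hDe, hDe] at k7
    have k8 := L.eq_of_close ((k7.trans_lt k6).trans_le hDq)
    rw [k8]
    exact hDq
  refine ⟨T, φ, hT, fun q hq => ?_, fun q hq Q hQ => ?_, h3, h4, fun P hP => ?_⟩
  · obtain ⟨k1, k2, k3, k4, k5, k6⟩ := h1 q hq
    rw [hev] at k2
    exact ⟨hD.ip hq, k1, k2, k3, k4, k5, k6, hφD q hq⟩
  · exact h2 q hq Q (by rw [hev]; exact hQ)
  · refine h5 (Xf f) P ?_
    have hmem : ∀ Q ∈ T ∪ T.image φ, e ≤ L.nm (MvPolynomial.aeval (fun r => (a r).eval Q.1) ψ.D) ∧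
        Cup f ψ a Q (P Q) := by
      intro Q hQ
      rcases Finset.mem_union.1 hQ with hQ | hQ
      · exact ⟨(hb Q.1 ((hT Q).1 hQ).1).2, (hP Q hQ).1⟩
      · obtain ⟨q, hq, rfl⟩ := Finset.mem_image.1 hQ
        exact ⟨hφD q hq, (hP q hq).2⟩
    obtain ⟨s, hs⟩ := hψ.inXa a
    have hDm : ∀ j, (MvPolynomial.aeval a ψ.D : Polynomial Ω).coeff j ∈ M := by
      have h6 : I₂ L M (ga a (Polynomial.C ψ.D)) := ga_I₂ ha fun j e => by
        rw [Polynomial.coeff_C]
        split_ifs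
        · exact hψ.iD e
        · rw [MvPolynomial.coeff_zero, map_zero, L.zero]
          exact zero_le_one
      rw [ga_C] at h6
      intro j
      have h7 := (h6 0 j).1
      rwa [Polynomial.coeff_C_zero] at h7
    have hDs : ∀ s j, ((MvPolynomial.aeval a ψ.D : Polynomial Ω) ^ s).coeff j ∈ M := by
      intro s
      induction s with
      | zero =>
        intro j
        rw [pow_zero, Polynomial.coeff_one]
        split_ifs
        · exact M.one_mem
        · exact M.zero_mem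
      | succ s ih =>
        intro j
        rw [pow_succ, Polynomial.coeff_mul]
        exact sum_mem fun q _ => M.mul_mem (ih _) (hDm _)
    refine gpm_f (fun i j => (hig i j).1) hmc.monic
      (B := Polynomial.C ((MvPolynomial.aeval a ψ.D : Polynomial Ω) ^ s)) (fun i j => ?_)
      (fun i j k => (ga_I₂ ha (hψ.iA i) j k).1) hs (fun Q hQ => ?_) fun Q hQ => ?_
    · rw [Polynomial.coeff_C]
      split_ifs
      · exact hDs s j
      · rw [Polynomial.coeff_zero]
        exact M.zero_mem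
    · rw [map_pow, map_pow, hDe]
      exact pow_ne_zero _ (L.ne_zero (e0.trans_le (hmem Q hQ).1))
    · have h6 := (hmem Q hQ).2
      have h7 : (fun j => ev₂ Q (ga a (ψ.A j))) =
          fun j => pe (fun r => (a r).eval Q.1) Q.2 (ψ.A j) := funext fun j => hev Q _
      rw [h7]
      exact h6

end

end GX
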