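import Pool.Agent.Lib.MP_f80667_ag.Ep.Mc1
import Pool.Agent.Lib.MP_f80667_ag.Ep.Me
import Pool.Agent.Lib.MP_f80667_ag.Ep.Mf
import Pool.Agent.Lib.MP_f80667_ag.Ep.Ze

/-!
(2.3) The nodes for all charts, (2.2) for the arc of (2.3).
-/

open ZC BE PE CV IntermediateField

namespace GX

variable {F : Type} [Field F] [CharZero F] {N d m : ℕ} {ι : Type}
  {f : ι → MvPolynomial (Fin N) F} {K Ω : Type} [Field K] [CharZero K] [Field Ω] [Algebra K Ω]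
  [Algebra F K] [Algebra F Ω] [IsScalarTower F K Ω] [IsAlgClosure K Ω] {L : Ld K Ω}
  {ψ : Fin m → Prj K N d} {E : IntermediateField K Ω} {L' : Ld E Ω} {X : Bd f E Ω d m}
  {M : IntermediateField K Ω}

/-- The nodes for all charts: one set `S` with more than `2 n_i` elements for all `i`, one constant `e`. -/
structure Ndc (L : Ld K Ω) (ψ : Fin m → Prj K N d) (E : IntermediateField K Ω)
    (X : Bd f E Ω d m) (S : Finset Ω) (e : ℝ) : Prop where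
  nod : Nod L E (L.nm X.ϖ) S
  card : ∀ i, 2 * (ψ i).G.natDegree < S.card
  e0 : 0 < e
  e1 : e ≤ X.ε
  der : ∀ z, (mb S).eval z = 0 → e ≤ L.nm ((Polynomial.derivative (mb S)).eval z)

omit [CharZero F] [CharZero K] [IsAlgClosure K Ω] in
private theorem mh_ϖ (hX : Bg f L ψ E L' X) : 0 < L.nm X.ϖ ∧ L.nm X.ϖ < X.ε ^ 12 ∧
    0 < X.ε ∧ X.ε < 1 := by
  refine ⟨?_, ?_, hX.ok.ε0, hX.ok.εp.trans_lt L'.lt⟩
  · rw [← hX.nm]
    exact hX.ok.ϖ0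
  · rw [← hX.nm]
    exact hX.ok.sm

/-- Proof: `exists_nod` with `J = 2 ∑ n_i + 1`, `Nod.der`, `e = min`. -/
theorem Bg.ndc (hX : Bg f L ψ E L' X) : ∃ S e, Ndc L ψ E X S e := by
  obtain ⟨h1, h2, h3, h4⟩ := mh_ϖ hX
  have := hX.fd
  have := hX.gal
  obtain ⟨S, hS, hc⟩ := exists_nod L E h1 (2 * ∑ i, (ψ i).G.natDegree + 1)
  have h5 : L.nm X.ϖ < 1 := h2.trans_le (pow_le_one₀ h3.le h4.le)
  obtain ⟨e, he0, he1, hed⟩ := hS.der h5
  refine ⟨S, min e X.ε, hS, fun i => ?_, lt_min he0 h3, min_le_right _ _, fun z hz =>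
    (min_le_left _ _).trans (hed z hz)⟩
  have h6 : (ψ i).G.natDegree ≤ ∑ i, (ψ i).G.natDegree :=
    Finset.single_le_sum (f := fun i => (ψ i).G.natDegree) (fun _ _ => Nat.zero_le _)
      (Finset.mem_univ i)
  omega

/-- **(2.2) for the arc of (2.3).** Proof: `Pk.dz` of `Ep/Ze` (helper53) for `a = mar`, `b = mb S`, `x = mx`, `t = mt`: at `0` and at the nodes `nm b' ≥ e` (`Ndc.der`), `nm D ≥ ε` (`Mq.D`, `Bg.D_node`); `mx_deg`: the weight of `x` is at most `2 (n - 1)`, smaller than the degree of `b`;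
`nm t ≤ nm p ^ s / ε < e ^ 4`. -/
theorem Bg.dzc (hX : Bg f L ψ E L' X) {S : Finset Ω} {e : ℝ} (hS : Ndc L ψ E X S e)
    [FiniteDimensional K M] {i : Fin m} {γ : Fin (d + 1) → Ω}
    (hγ : ∀ r, γ r ∈ (⊥ : IntermediateField K Ω) ∧ L.nm (γ r) ≤ 1)
    (hD : X.ε ≤ L.nm (MvPolynomial.aeval γ (ψ i).D)) {s : ℕ} (hs0 : s ≠ 0)
    (hs : L.nm (L.p : Ω) ^ s < X.ε * e ^ 4) {y y' : (Xf f).pt Ω} {c c' : Fin (d + 1) → Ω}
    {w w' : Ω} (hq : Mq L (ψ i) M y y' X.ε (L.nm (L.p : Ω) ^ s) c c' w w') :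
    ∃ (T : Finset (Ω × Ω)) (φ : Ω × Ω → Ω × Ω) (pt : Ω × Ω → (Xf f).pt Ω),
      Dzc L (ψ i) M (mar L c c' γ s) (mb S) (mx (ψ i) c w) (mt L (ψ i) S c w w' s) e T φ pt := by
  obtain ⟨h1, h2, h3, h4⟩ := mh_ϖ hX
  have hψ := hX.pk i
  have h5 : L.nm X.ϖ < 1 := h2.trans_le (pow_le_one₀ h3.le h4.le)
  have he1 : e ≤ 1 := hS.e1.trans h4.le
  have he4 : e ^ 4 ≤ 1 := pow_le_one₀ hS.e0.le he1
  have hsε : L.nm (L.p : Ω) ^ s < X.ε :=
    hs.trans_le (mul_le_of_le_one_right h3.le he4)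
  obtain ⟨ha, hρ, ha0, -, ha1⟩ := mar_arc hs0 hq hγ
  obtain ⟨ht, hte, -⟩ := mt_mem hψ hs0 hsε hq hS.nod h5
  have hte4 : L.nm (mt L (ψ i) S c w w' s) < e ^ 4 := by
    have h6 : L.nm (mt L (ψ i) S c w w' s) * X.ε < e ^ 4 * X.ε := by
      rw [mul_comm (e ^ 4)]
      exact hte.trans_lt hs
    exact lt_of_mul_lt_mul_right h6 h3.le
  have hb : ∀ c₀, (mb S).eval c₀ = 0 →
      e ≤ L.nm ((Polynomial.derivative (mb S)).eval c₀) ∧
      e ≤ L.nm (MvPolynomial.aeval (fun r => (mar L c c' γ s r).eval c₀) (ψ i).D) := by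
    intro c₀ hc₀
    refine ⟨hS.der c₀ hc₀, hS.e1.trans ?_⟩
    rcases mb_root.1 hc₀ with h0 | h0
    · rw [h0, ha0]
      exact hq.D
    · exact hX.D_node (fun r => (hγ r).2) hD ha ha1 (hS.nod.near c₀ h0)
  have hw : GM.Wl 2 (mb S).natDegree (mx (ψ i) c w) := by
    intro j hj
    obtain ⟨h6, h7⟩ := mx_deg hψ hq.G j
    have h8 : j < (ψ i).G.natDegree := by
      by_contra hcon
      exact hj (h7 (not_lt.1 hcon))
    have h9 := hS.card i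
    rw [h6, mb_deg]
    omega
  obtain ⟨T, φ, hT, hφ, huq, -, heq, hrel⟩ := hψ.dz ha hρ mb_monic
    (fun j => ⟨(bot_le : ⊥ ≤ M) (hS.nod.mb h5 j).1, (hS.nod.mb h5 j).2⟩)
    (mx_I₂ hψ hq.ic hq.iw.1 hq.iw.2) hw ht hS.e0 hte4 hb
  have hex : ∀ q : Ω × Ω, ∃ p : (Xf f).pt Ω, (∃ p', Cup f (ψ i) (mar L c c' γ s) q p') →
      Cup f (ψ i) (mar L c c' γ s) q p := by
    intro q
    by_cases hp : ∃ p', Cup f (ψ i) (mar L c c' γ s) q p'
    · obtain ⟨p, hp⟩ := hp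
      exact ⟨p, fun _ => hp⟩
    · exact ⟨y, fun h => absurd h hp⟩
  choose pt hpt using hex
  have hne : ∀ {c₀ : Ω}, e ≤ L.nm (MvPolynomial.aeval (fun r => (mar L c c' γ s r).eval c₀)
      (ψ i).D) → MvPolynomial.aeval (fun r => (mar L c c' γ s r).eval c₀) (ψ i).D ≠ 0 :=
    fun {c₀} h => L.ne_zero (hS.e0.trans_le h)
  have hco : ∀ q ∈ T, Cup f (ψ i) (mar L c c' γ s) q (pt q) := fun q hqT =>
    hpt q (hψ.co (hne (hb q.1 ((hT q).1 hqT).1).2) ((hT q).1 hqT).2)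
  have hco' : ∀ q ∈ T, Cup f (ψ i) (mar L c c' γ s) (φ q) (pt (φ q)) := fun q hqT => by
    obtain ⟨-, -, h6, -, -, -, -, h7⟩ := hφ q hqT
    exact hpt _ (hψ.co (hne h7) h6)
  refine ⟨T, φ, pt, hT, fun q hqT => (hφ q hqT).1, fun q hqT => (hφ q hqT).2.1,
    fun q hqT => (hφ q hqT).2.2.1, fun q hqT => (hφ q hqT).2.2.2.2.1,
    fun q hqT => (hφ q hqT).2.2.2.2.2.1, fun q hqT Q _ _ h8 h9 h10 h11 =>
      huq q hqT Q h8 h9 h10 h11, fun γ' hγ' q hqT => (heq γ' hγ' q hqT).2, hco, hco',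
    hrel pt fun q hqT => ⟨hco q hqT, hco' q hqT⟩⟩

end GX
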