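import Pool.Agent.Lib.MP_f80667_ag.Ep.Mh
import Pool.Agent.Lib.MP_f80667_ag.Ep.Mg

/-! (2.3) The sum over the nodes. -/

open ZC BE PE CV IntermediateField

namespace GX

private theorem mi_ineq {P Q ε e v t : ℝ} (hP0 : 0 < P) (hP1 : P ≤ 1) (hε0 : 0 < ε)
    (hε1 : ε < 1) (he0 : 0 < e) (he1 : e ≤ ε) (hv0 : 0 < v) (hv1 : v < 1)
    (hQ : Q < ε ^ 2 * e ^ 4 * v) :
    P * Q < ε ∧ (t * ε ≤ P * Q → t / e ≤ v * P ∧ t / e ^ 2 < ε) := by
  have he2 : e < 1 := he1.trans_lt hε1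
  have e4 : e ^ 4 ≤ 1 := pow_le_one₀ he0.le he2.le
  have e42 : e ^ 4 ≤ e ^ 2 := pow_le_pow_of_le_one he0.le he2.le (by norm_num)
  have e41 : e ^ 4 ≤ e := pow_le_of_le_one he0.le he2.le (by norm_num)
  have e40 : 0 < e ^ 4 := pow_pos he0 4
  have e20 : 0 < e ^ 2 := pow_pos he0 2
  have h1 : ε ^ 2 * e ^ 4 * v ≤ ε := by
    have h2 : ε ^ 2 ≤ ε := pow_le_of_le_one hε0.le hε1.le (by norm_num)
    have h3 : ε ^ 2 * e ^ 4 ≤ ε := (mul_le_of_le_one_right (sq_nonneg _) e4).trans h2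
    exact (mul_le_of_le_one_right (mul_nonneg (sq_nonneg _) e40.le) hv1.le).trans h3
  refine ⟨?_, fun ht => ?_⟩
  · by_cases hQ0 : 0 ≤ Q
    · exact (mul_le_of_le_one_left hQ0 hP1).trans_lt (hQ.trans_le h1)
    · push Not at hQ0
      exact (mul_neg_of_pos_of_neg hP0 hQ0).trans hε0
  · have h2 : P * Q ≤ P * (ε ^ 2 * e ^ 4 * v) := mul_le_mul_of_nonneg_left hQ.le hP0.le
    have h3 : t * ε ≤ (P * ε * e ^ 4 * v) * ε := by
      refine (ht.trans h2).trans (le_of_eq ?_)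
      ring
    have h4 : t ≤ P * ε * e ^ 4 * v := le_of_mul_le_mul_right h3 hε0
    constructor
    · rw [div_le_iff₀ he0]
      refine h4.trans ?_
      have h5 : P * ε * e ^ 4 * v ≤ P * 1 * e * v := by gcongr
      refine h5.trans (le_of_eq ?_)
      ring
    · rw [div_lt_iff₀ e20]
      have h5 : P * ε * e ^ 4 * v ≤ 1 * ε * e ^ 2 * v := by gcongr
      refine (h4.trans h5).trans_lt ?_
      have h6 : 0 < ε * e ^ 2 := mul_pos hε0 e20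
      have h7 : 1 * ε * e ^ 2 * v = (ε * e ^ 2) * v := by ring
      rw [h7]
      exact mul_lt_of_lt_one_right h6 hv1

section act

variable {K Ω : Type} [Field K] [Field Ω] [Algebra K Ω] {L : Ld K Ω} {d : ℕ}
  {M : IntermediateField K Ω} {a : Fin (d + 1) → Polynomial Ω}

private theorem mi_ev (ha : Arc L M a) {γ : Ω ≃ₐ[K] Ω} (hγ : γ ∈ M.fixingSubgroup) (z : Ω)
    (r : Fin (d + 1)) : γ ((a r).eval z) = (a r).eval (γ z) := by
  rw [Polynomial.eval_eq_sum_range, Polynomial.eval_eq_sum_range, map_sum]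
  refine Finset.sum_congr rfl fun j _ => ?_
  rw [map_mul, map_pow, (IntermediateField.mem_fixingSubgroup_iff M γ).1 hγ _ (ha r j).1]

private theorem mi_pe (ha : Arc L M a) {γ : Ω ≃ₐ[K] Ω} (hγ : γ ∈ M.fixingSubgroup) (z w : Ω)
    (G : Polynomial (MvPolynomial (Fin (d + 1)) K)) :
    γ (pe (fun r => (a r).eval z) w G) = pe (fun r => (a r).eval (γ z)) (γ w) G := by
  rw [pe_act]
  have h : (fun r => γ ((a r).eval z)) = fun r => (a r).eval (γ z) :=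
    funext fun r => mi_ev ha hγ z r
  rw [h]

end act

variable {F : Type} [Field F] [CharZero F] {N d m : ℕ} {ι : Type}
  {f : ι → MvPolynomial (Fin N) F} {K Ω : Type} [Field K] [CharZero K] [Field Ω] [Algebra K Ω]
  [Algebra F K] [Algebra F Ω] [IsScalarTower F K Ω] [IsAlgClosure K Ω] {L : Ld K Ω}
  {ψ : Fin m → Prj K N d} {E : IntermediateField K Ω} {L' : Ld E Ω} {X : Bd f E Ω d m}
  {M : IntermediateField K Ω}

omit [CharZero F] [CharZero K] in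
private theorem mi_root {φ : Prj K N d} (hφ : Pk f L φ) {c c' : Fin (d + 1) → Ω} {w : Ω}
    (h : pe c w φ.G = 0) : ∃ w', pe c' w' φ.G = 0 := by
  have hΩ : IsAlgClosed Ω := IsAlgClosure.isAlgClosed K
  have h0 : φ.G.natDegree ≠ 0 := by
    intro h1
    have h2 : φ.G = 1 := Polynomial.eq_one_of_monic_natDegree_zero hφ.mon h1
    rw [h2, map_one] at h
    exact one_ne_zero h
  have h1 : (gcp φ c').degree ≠ 0 := by
    have h2 : (gcp φ c').natDegree = φ.G.natDegree := hφ.mon.natDegree_map _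
    intro h3
    rw [Polynomial.natDegree_eq_of_degree_eq_some h3] at h2
    exact h0 h2.symm
  obtain ⟨w', hw'⟩ := IsAlgClosed.exists_root (gcp φ c') h1
  refine ⟨w', ?_⟩
  rw [← gcp_eval]
  exact hw'

open Classical in
/-- **The nodes.** The sum over the zeros over the nodes is the trace from `M E` of displacements in the branches. Proof: `orb_nm` for `M' = M ⊔ E`, `T` the zeros with `P.1 ≠ 0` (so `P.1 ∈ S`: `mb_root`), `Φ P = [pt (φ P)] - [pt P]`. Stable: `Nod.act`, `Dzc.mem` (the coefficients of the arc are in `M`). Stabilizers: `Nod.gen`,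
and `P`, `φ P` are over `M'` (`Bg.near`; `Dzc.eqv`, `mem_of_fix`). Equivariance: `Dzc.eqv`, `co_act`, `co_eq`. Every `Φ P` is `[P b h₁] - [P b h]` (`Bg.near` with `t = nm p ^ (s - C)`: `nm ((φ P).1 - P.1) ≤ nm t' / e ≤ nm ϖ nm p ^ (s - C)`); a list of the summands. -/
theorem Bg.orb (hX : Bg f L ψ E L' X) {S : Finset Ω} {e : ℝ} (hS : Ndc L ψ E X S e)
    [FiniteDimensional K M] {i : Fin m} {γ : Fin (d + 1) → Ω}
    (hγ : ∀ r, γ r ∈ (⊥ : IntermediateField K Ω) ∧ L.nm (γ r) ≤ 1)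
    (hb : ∀ w, pe γ w (ψ i).G = 0 → ∃ b, X.i b = i ∧ X.γ b = γ ∧ X.w b = w) {s C : ℕ}
    (hs0 : s ≠ 0) (hC : L.nm (L.p : Ω) ^ C < X.ε ^ 2 * e ^ 4 * L.nm X.ϖ) (hs : C ≤ s)
    {y y' : (Xf f).pt Ω} {c c' : Fin (d + 1) → Ω} {w w' : Ω}
    (hq : Mq L (ψ i) M y y' X.ε (L.nm (L.p : Ω) ^ s) c c' w w') {T : Finset (Ω × Ω)}
    {φ : Ω × Ω → Ω × Ω} {pt : Ω × Ω → (Xf f).pt Ω}
    (h : Dzc L (ψ i) M (mar L c c' γ s) (mb S) (mx (ψ i) c w) (mt L (ψ i) S c w w' s) e T φ pt) :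
    ∃ (R : Finset (Ω × Ω)) (b : Ω × Ω → X.B) (g g' : Ω × Ω → Fin (d + 1) → Ω),
      (∀ P ∈ R, Iv L (M ⊔ E) (g P) ∧ Iv L (M ⊔ E) (g' P) ∧
        ∀ r, L.nm (g' P r - g P r) ≤ L.nm (L.p : Ω) ^ (s - C)) ∧
      ∑ P ∈ T with P.1 ≠ 0, (Finsupp.single (pt (φ P)) 1 - Finsupp.single (pt P) 1 :
        (Xf f).pt Ω →₀ ℤ) = Nm M (M ⊔ E) (∑ P ∈ R, (Finsupp.single (X.P (b P) (g' P)) 1 -
          Finsupp.single (X.P (b P) (g P)) 1 : (Xf f).pt Ω →₀ ℤ)) := by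
  have hfd : FiniteDimensional K E := hX.fd
  have hfd' : FiniteDimensional K (M ⊔ E : IntermediateField K Ω) :=
    IntermediateField.finiteDimensional_sup M E
  have hle : M ≤ M ⊔ E := le_sup_left
  have hle' : E ≤ M ⊔ E := le_sup_right
  have hε0 : 0 < X.ε := hX.ok.ε0
  have hε1 : X.ε < 1 := hX.ok.εp.trans_lt L'.lt
  have hv0 : 0 < L.nm X.ϖ := by
    rw [← hX.nm]
    exact hX.ok.ϖ0
  have hv1 : L.nm X.ϖ < 1 := by
    rw [← hX.nm]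
    exact hX.ok.sm.trans_le (pow_le_one₀ hε0.le hε1.le)
  have hp0 : 0 < L.nm (L.p : Ω) := L.p_pos
  have hp1 : L.nm (L.p : Ω) < 1 := L.lt
  obtain ⟨ha, -, -, -, ha1⟩ := mar_arc hs0 hq hγ
  have hP0 : 0 < L.nm (L.p : Ω) ^ (s - C) := pow_pos hp0 _
  have hP1 : L.nm (L.p : Ω) ^ (s - C) ≤ 1 := pow_le_one₀ hp0.le hp1.le
  have hsplit : L.nm (L.p : Ω) ^ s = L.nm (L.p : Ω) ^ (s - C) * L.nm (L.p : Ω) ^ C := by
    rw [← pow_add, Nat.sub_add_cancel hs]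
  have hi := fun t => mi_ineq (t := t) hP0 hP1 hε0 hε1 hS.e0 hS.e1 hv0 hv1 hC
  have hsε : L.nm (L.p : Ω) ^ s < X.ε := by
    rw [hsplit]
    exact (hi 0).1
  obtain ⟨htM, htε, -⟩ := mt_mem (hX.pk i) hs0 hsε hq hS.nod hv1
  rw [hsplit] at htε
  obtain ⟨hi1, hi2⟩ := (hi _).2 htε
  have hT0 : ∀ P ∈ T.filter (fun P => P.1 ≠ 0), P ∈ T ∧ P.1 ∈ S := by
    intro P hP
    rw [Finset.mem_filter] at hP
    exact ⟨hP.1, (mb_root.1 ((h.mem P).1 hP.1).1).resolve_left hP.2⟩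
  have hnear : ∀ P ∈ T.filter (fun P => P.1 ≠ 0), P.2 ∈ M ⊔ E ∧
      ∃ (b : X.B) (g g' : Fin (d + 1) → Ω), Iv L (M ⊔ E) g ∧ ((φ P).1 ∈ M ⊔ E → Iv L (M ⊔ E) g') ∧
      (∀ r, L.nm (g' r - g r) ≤ L.nm (L.p : Ω) ^ (s - C)) ∧ pt P = X.P b g ∧
        pt (φ P) = X.P b g' := by
    intro P hP
    obtain ⟨hPT, hPS⟩ := hT0 P hP
    obtain ⟨h1, b, g, g', h2, h3, h4, h5, h6⟩ := hX.near (fun r => (hγ r).1) (fun r => (hγ r).2)
      hb hle hle' ha ha1 hP0.le hP1 (hle' (hS.nod.mem P.1 hPS)) (hS.nod.near P.1 hPS)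
      ((h.φ1 P hPT).trans hi1) ((h.mem P).1 hPT).2 (h.φG P hPT) ((h.φ2 P hPT).trans_lt hi2)
    exact ⟨h1, b, g, g', h2, h3, h4, h5 _ (h.co P hPT), h6 _ (h.co' P hPT)⟩
  have hst : ∀ P ∈ T.filter (fun P => P.1 ≠ 0), ∀ δ ∈ M.fixingSubgroup,
      (δ P.1 = P.1 ∧ δ P.2 = P.2) ↔ δ ∈ (M ⊔ E).fixingSubgroup := by
    intro P hP δ hδ
    obtain ⟨hPT, hPS⟩ := hT0 P hP
    constructor
    · rintro ⟨h1, -⟩
      rw [IntermediateField.fixingSubgroup_sup]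
      exact ⟨hδ, hS.nod.gen P.1 hPS δ h1⟩
    · intro h1
      have h2 := (IntermediateField.mem_fixingSubgroup_iff _ δ).1 h1
      exact ⟨h2 _ (hle' (hS.nod.mem P.1 hPS)), h2 _ (hnear P hP).1⟩
  have hφM : ∀ P ∈ T.filter (fun P => P.1 ≠ 0), (φ P).1 ∈ M ⊔ E := by
    intro P hP
    obtain ⟨hPT, hPS⟩ := hT0 P hP
    refine mem_of_fix _ fun δ hδ => ?_
    have hδM : δ ∈ M.fixingSubgroup := fix_le hle hδ
    obtain ⟨h1, h2⟩ := (hst P hP δ hδM).2 hδ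
    have h3 := h.eqv δ hδM P hPT
    rw [h1, h2] at h3
    exact (congrArg Prod.fst h3).symm
  have hstab : ∀ δ ∈ M.fixingSubgroup, ∀ P ∈ T.filter (fun P => P.1 ≠ 0),
      (δ P.1, δ P.2) ∈ T.filter (fun P => P.1 ≠ 0) := by
    intro δ hδ P hP
    obtain ⟨hPT, hPS⟩ := hT0 P hP
    rw [Finset.mem_filter] at hP ⊢
    refine ⟨(h.mem _).2 ⟨mb_root.2 (Or.inr (hS.nod.act δ _ hPS)), ?_⟩, fun h0 => ?_⟩
    · have h1 := congrArg δ ((h.mem P).1 hPT).2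
      rw [mi_pe ha hδ, map_zero] at h1
      exact h1
    · exact hP.2 ((map_eq_zero δ).1 h0)
  have hequ : ∀ δ ∈ M.fixingSubgroup, ∀ P ∈ T.filter (fun P => P.1 ≠ 0),
      δ • (Finsupp.single (pt (φ P)) 1 - Finsupp.single (pt P) 1 : (Xf f).pt Ω →₀ ℤ) =
        (Finsupp.single (pt (φ (δ P.1, δ P.2))) 1 - Finsupp.single (pt (δ P.1, δ P.2)) 1 :
          (Xf f).pt Ω →₀ ℤ) := by
    intro δ hδ P hP
    obtain ⟨hPT, hPS⟩ := hT0 P hP
    have hPT' := (hT0 _ (hstab δ hδ P hP)).1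
    rw [smul_sub, smul_single, smul_single]
    have h1 : (Xf f).act δ (pt P) = pt (δ P.1, δ P.2) := by
      have h2 := co_act δ (h.co P hPT)
      have h3 : (fun j => δ (pe (fun r => (mar L c c' γ s r).eval P.1) P.2 ((ψ i).A j))) =
          fun j => pe (fun r => (mar L c c' γ s r).eval (δ P.1)) (δ P.2) ((ψ i).A j) :=
        funext fun j => mi_pe ha hδ _ _ _
      rw [h3] at h2
      exact co_eq h2 (h.co _ hPT')
    have h1' : (Xf f).act δ (pt (φ P)) = pt (φ (δ P.1, δ P.2)) := by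
      have h2 := co_act δ (h.co' P hPT)
      have h3 : (fun j => δ (pe (fun r => (mar L c c' γ s r).eval (φ P).1) (φ P).2 ((ψ i).A j))) =
          fun j => pe (fun r => (mar L c c' γ s r).eval (δ (φ P).1)) (δ (φ P).2) ((ψ i).A j) :=
        funext fun j => mi_pe ha hδ _ _ _
      rw [h3] at h2
      have h4 := h.co' _ hPT'
      rw [h.eqv δ hδ P hPT] at h4
      rw [h.eqv δ hδ P hPT]
      exact co_eq h2 h4
    rw [h1, h1']
  obtain ⟨T', hT', hsum⟩ := orb_nm hle hstab hst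
    (Φ := fun P => (Finsupp.single (pt (φ P)) 1 - Finsupp.single (pt P) 1 : (Xf f).pt Ω →₀ ℤ))
    hequ
  obtain ⟨w₁, hw₁⟩ := mi_root (hX.pk i) (c' := γ) hq.G
  obtain ⟨b₀, -⟩ := hb w₁ hw₁
  have hch : ∀ P : Ω × Ω, ∃ (b : X.B) (g g' : Fin (d + 1) → Ω), P ∈ T' →
      Iv L (M ⊔ E) g ∧ Iv L (M ⊔ E) g' ∧
        (∀ r, L.nm (g' r - g r) ≤ L.nm (L.p : Ω) ^ (s - C)) ∧ pt P = X.P b g ∧
          pt (φ P) = X.P b g' := by
    intro P
    by_cases hP : P ∈ T'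
    · obtain ⟨-, b, g, g', h1, h2, h3, h4, h5⟩ := hnear P (hT' hP)
      exact ⟨b, g, g', fun _ => ⟨h1, h2 (hφM P (hT' hP)), h3, h4, h5⟩⟩
    · exact ⟨b₀, 0, 0, fun h1 => absurd h1 hP⟩
  choose b g g' hbg using hch
  refine ⟨T', b, g, g', fun P hP => ⟨(hbg P hP).1, (hbg P hP).2.1, (hbg P hP).2.2.1⟩, ?_⟩
  rw [hsum]
  refine congrArg _ (Finset.sum_congr rfl fun P hP => ?_)
  change (Finsupp.single (pt (φ P)) 1 - Finsupp.single (pt P) 1 : (Xf f).pt Ω →₀ ℤ) = _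
  rw [(hbg P hP).2.2.2.1, (hbg P hP).2.2.2.2]

end GX
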