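import Pool.Agent.Lib.MP_f80667_ag.Ep.Y
import Pool.Agent.Lib.MP_f80667_ag.Ep.Sd
import Pool.Agent.Lib.MP_f80667_ag.Ep.Mg1

/-! (2.3) Traces of displacements in the branches. -/

open ZC BE PE CV IntermediateField

namespace GX

variable {F : Type} [Field F] [CharZero F] {N d m : ℕ} {ι : Type}
  {f : ι → MvPolynomial (Fin N) F} {K Ω : Type} [Field K] [CharZero K] [Field Ω] [Algebra K Ω]
  [Algebra F K] [Algebra F Ω] [IsScalarTower F K Ω] [IsAlgClosure K Ω] {L : Ld K Ω}
  {ψ : Fin m → Prj K N d} {E : IntermediateField K Ω} {L' : Ld E Ω} {X : Bd f E Ω d m}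
  {M : IntermediateField K Ω}

/-- The trace over `K` of a sum of displacements in the branches over `M' ≥ E` is the trace from `E` of an element of `Ub`. Proof: `nm_tow`, `nm_add` over `E`, the definitions of `Ub`, `dvb` (`L'.nm = L.nm`; `extendScalars` has the same elements); the points are fixed by `M'` (`Bd.Ok.act`). -/
theorem Bg.ub (hX : Bg f L ψ E L' X) {M' : IntermediateField K Ω} [FiniteDimensional K M']
    (hE : E ≤ M') {t : ℝ} {R : Finset (Ω × Ω)} {b : Ω × Ω → X.B}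
    {g g' : Ω × Ω → Fin (d + 1) → Ω} (hR : ∀ P ∈ R, Iv L M' (g P) ∧ Iv L M' (g' P) ∧
        ∀ r, L.nm (g' P r - g P r) ≤ t) :
    Fx M' (∑ P ∈ R, (Finsupp.single (X.P (b P) (g' P)) 1 -
      Finsupp.single (X.P (b P) (g P)) 1 : (Xf f).pt Ω →₀ ℤ)) ∧
    ∃ v ∈ Ub L' X.P t, Nm (⊥ : IntermediateField K Ω) M'
      (∑ P ∈ R, (Finsupp.single (X.P (b P) (g' P)) 1 -
        Finsupp.single (X.P (b P) (g P)) 1 : (Xf f).pt Ω →₀ ℤ)) =
          Nm (⊥ : IntermediateField K Ω) E v := by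
  have iB : IsAlgClosed Ω := IsAlgClosure.isAlgClosed K (K := Ω)
  have iD : Algebra.IsAlgebraic K Ω := IsAlgClosure.isAlgebraic
  have iA : IsAlgClosure E Ω := ⟨inferInstance, Algebra.IsAlgebraic.tower_top (K := K) E⟩
  have iC : CharZero E := charZero_of_injective_algebraMap (algebraMap K E).injective
  have hE0 : FiniteDimensional K E := hX.fd
  have i0 : FiniteDimensional K (extendScalars hE : IntermediateField E Ω) :=
    inferInstanceAs (FiniteDimensional K M')
  have i1 : FiniteDimensional E (extendScalars hE : IntermediateField E Ω) :=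
    FiniteDimensional.right K E (extendScalars hE : IntermediateField E Ω)
  have hfp : ∀ (b : X.B) (h : Fin (d + 1) → Ω), Iv L M' h → Fp (Xf f) M' (X.P b h) := by
    intro b h hh γ hγ
    have hγE : γ ∈ E.fixingSubgroup := by
      rw [IntermediateField.mem_fixingSubgroup_iff] at hγ ⊢
      exact fun x hx => hγ x (hE hx)
    obtain ⟨δ, hδ⟩ : ∃ δ : Ω ≃ₐ[E] Ω, δ.restrictScalars K = γ :=
      ⟨IntermediateField.fixingSubgroupEquiv E ⟨γ, hγE⟩, AlgEquiv.ext fun x => rfl⟩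
    have h1 := hX.ok.act δ b (h := h) fun r => by
      rw [hX.nm]
      exact (hh r).2
    have h2 : (fun r => δ (h r)) = h := by
      funext r
      have h3 : δ (h r) = γ (h r) := by
        rw [← hδ]
        rfl
      rw [h3]
      exact (IntermediateField.mem_fixingSubgroup_iff M' γ).1 hγ _ (hh r).1
    rw [h2] at h1
    rw [← hδ]
    exact h1
  have hz : ∀ P ∈ R, Fx M' (Finsupp.single (X.P (b P) (g' P)) 1 -
      Finsupp.single (X.P (b P) (g P)) 1 : (Xf f).pt Ω →₀ ℤ) := fun P hP =>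
    (fx_single (hfp _ _ (hR P hP).2.1) 1).sub (fx_single (hfp _ _ (hR P hP).1) 1)
  have hs : Fx M' (∑ P ∈ R, (Finsupp.single (X.P (b P) (g' P)) 1 -
      Finsupp.single (X.P (b P) (g P)) 1 : (Xf f).pt Ω →₀ ℤ)) := by
    intro γ hγ
    rw [Finset.smul_sum]
    exact Finset.sum_congr rfl fun P hP => hz P hP γ hγ
  refine ⟨hs, Nm (⊥ : IntermediateField E Ω) (extendScalars hE)
    (∑ P ∈ R, (Finsupp.single (X.P (b P) (g' P)) 1 -
      Finsupp.single (X.P (b P) (g P)) 1 : (Xf f).pt Ω →₀ ℤ)), ?_, nm_tow hE hs⟩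
  obtain ⟨s, -, -, -, s3⟩ := nm_rep (K := E) (Ω := Ω) (M := ⊥) (N := extendScalars hE) bot_le
  have e : Nm (⊥ : IntermediateField E Ω) (extendScalars hE)
      (∑ P ∈ R, (Finsupp.single (X.P (b P) (g' P)) 1 -
        Finsupp.single (X.P (b P) (g P)) 1 : (Xf f).pt Ω →₀ ℤ)) =
      ∑ P ∈ R, dvb X.P (extendScalars hE : IntermediateField E Ω) (b P) (g P) (g' P) := by
    rw [s3]
    have e1 : ∀ P ∈ R, dvb X.P (extendScalars hE : IntermediateField E Ω) (b P) (g P) (g' P) =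
        ∑ γ ∈ s, γ • (Finsupp.single (X.P (b P) (g' P)) 1 -
          Finsupp.single (X.P (b P) (g P)) 1 : (Xf f).pt Ω →₀ ℤ) := fun P _ => s3 _ _
    rw [Finset.sum_congr rfl e1, Finset.sum_comm]
    exact Finset.sum_congr rfl fun γ _ => Finset.smul_sum
  rw [e]
  refine AddSubgroup.sum_mem _ fun P hP => AddSubgroup.subset_closure
    ⟨extendScalars hE, i1, b P, g P, g' P, fun r => ⟨((hR P hP).1 r).1, ?_⟩,
      fun r => ⟨((hR P hP).2.1 r).1, ?_⟩, fun r => ?_, rfl⟩
  · rw [hX.nm]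
    exact ((hR P hP).1 r).2
  · rw [hX.nm]
    exact ((hR P hP).2.1 r).2
  · rw [hX.nm]
    exact (hR P hP).2.2 r

end GX
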