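import Pool.Agent.Lib.MP_f80667_ag.Ep.Mi
import Pool.Agent.Lib.MP_f80667_ag.Ep.Mj

/-! (2.3) One displacement. -/

open ZC BE PE CV IntermediateField

namespace GX

variable {F : Type} [Field F] [CharZero F] {N d m : ℕ} {ι : Type}
  {f : ι → MvPolynomial (Fin N) F} {K Ω : Type} [Field K] [CharZero K] [Field Ω] [Algebra K Ω]
  [Algebra F K] [Algebra F Ω] [IsScalarTower F K Ω] [IsAlgClosure K Ω] {L : Ld K Ω}
  {ψ : Fin m → Prj K N d} {E : IntermediateField K Ω} {L' : Ld E Ω} {X : Bd f E Ω d m}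
  {M : IntermediateField K Ω}

omit [CharZero F] in
private theorem mk_neg {A : Type} [AddCommGroup A] [DistribMulAction (Ω ≃ₐ[K] Ω) A]
    {M N : IntermediateField K Ω} (h : M ≤ N) [FiniteDimensional K N] (P : A) :
    Nm M N (-P) = -Nm M N P := by
  obtain ⟨s, -, -, -, h₃⟩ := nm_rep h
  rw [h₃, h₃, ← Finset.sum_neg_distrib]
  exact Finset.sum_congr rfl fun γ _ => smul_neg γ P

/-- **One displacement.** Proof: `Bg.mq`, `Bg.cen`, `Bg.dzc`, `Dzc.zero`, `Bg.orb`: `[y'] - [y] + Nm M M' v₀ ∈ ratEq M`; the trace from `M` to `K` (`nm_tr`, `nm_add`, the trace of `ratEq M` is in `ratEq K`: `Hf`, compare `nmh_rat` in `Lv/De.lean`), `Bg.ub`, `v := - v`. -/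
theorem Bg.move_one (hX : Bg f L ψ E L' X) {S : Finset Ω} {e : ℝ} (hS : Ndc L ψ E X S e)
    [FiniteDimensional K M] {s C : ℕ} (hs0 : s ≠ 0)
    (hC : L.nm (L.p : Ω) ^ C < X.ε ^ 2 * e ^ 4 * L.nm X.ϖ) (hs : C ≤ s) {y y' : (Xf f).pt Ω}
    (hy : Fp (Xf f) M y) (hy' : Fp (Xf f) M y') (h : Nrh f L (L.nm (L.p : Ω) ^ s) y y') :
    ∃ v ∈ Ub L' X.P (L.nm (L.p : Ω) ^ (s - C)), Nm (⊥ : IntermediateField K Ω) M
      (Finsupp.single y' 1 - Finsupp.single y 1 : (Xf f).pt Ω →₀ ℤ) -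
        Nm (⊥ : IntermediateField K Ω) E v ∈ (Xf f).ratEq K Ω := by
  classical
  have hfd : FiniteDimensional K E := hX.fd
  have hp0 : 0 ≤ L.nm (L.p : Ω) := L.nonneg _
  have hp1 : L.nm (L.p : Ω) ≤ 1 := L.lt.le
  have hε0 : 0 < X.ε := hX.ok.ε0
  have hε1 : X.ε ≤ 1 := by
    have h1 := hX.ok.εp
    rw [hX.nm, hX.p] at h1
    exact h1.trans hp1
  have hϖ1 : L.nm X.ϖ < 1 := by
    have h1 := hX.ok.sm
    rw [hX.nm] at h1
    exact h1.trans_le (pow_le_one₀ hε0.le hε1)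
  have he0 : 0 < e := hS.e0
  have he1 : e ≤ 1 := hS.e1.trans hε1
  have ht0 : 0 ≤ L.nm (L.p : Ω) ^ s := pow_nonneg hp0 s
  have hlt : L.nm (L.p : Ω) ^ s < X.ε ^ 2 * e ^ 4 * L.nm X.ϖ :=
    (pow_le_pow_of_le_one hp0 hp1 hs).trans_lt hC
  have h1 : L.nm (L.p : Ω) ^ s < X.ε * e ^ 4 := by
    refine hlt.trans_le ?_
    calc X.ε ^ 2 * e ^ 4 * L.nm X.ϖ ≤ X.ε ^ 2 * e ^ 4 * 1 :=
          mul_le_mul_of_nonneg_left hϖ1.le (by positivity)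
      _ = X.ε * (X.ε * e ^ 4) := by ring
      _ ≤ 1 * (X.ε * e ^ 4) := mul_le_mul_of_nonneg_right hε1 (by positivity)
      _ = X.ε * e ^ 4 := one_mul _
  have h2 : L.nm (L.p : Ω) ^ s < X.ε :=
    h1.trans_le (mul_le_of_le_one_right hε0.le (pow_le_one₀ he0.le he1))
  have h3 : L.nm (L.p : Ω) ^ s < e := by
    refine h1.trans_le ?_
    calc X.ε * e ^ 4 ≤ 1 * e ^ 4 := mul_le_mul_of_nonneg_right hε1 (by positivity)
      _ = e * e ^ 3 := by ring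
      _ ≤ e := mul_le_of_le_one_right he0.le (pow_le_one₀ he0.le he1)
  obtain ⟨i, c, c', w, w', hq⟩ := hX.mq hy hy' ht0 h2 h
  obtain ⟨γ, hγm, hγ1, hγD, hγb⟩ := hX.cen i
  have hγ : ∀ r, γ r ∈ (⊥ : IntermediateField K Ω) ∧ L.nm (γ r) ≤ 1 :=
    fun r => ⟨hγm r, hγ1 r⟩
  obtain ⟨T, φ, pt, hd⟩ := hX.dzc hS hγ hγD hs0 h1 hq
  have hz := Dzc.zero (hX.pk i) hs0 h2 hq hS.nod hϖ1 hγ he0 h3 hd
  obtain ⟨R, b, g, g', hR, hsum⟩ := hX.orb hS hγ (fun w hw => (hγb w hw).1) hs0 hC hs hq hd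
  obtain ⟨hfx, v, hv, hNv⟩ := hX.ub (M' := M ⊔ E) le_sup_right hR
  have hrel := hd.rel
  rw [← Finset.sum_filter_add_sum_filter_not T (fun P => P.1 = 0)] at hrel
  rw [hz] at hrel
  have hrel' : (Finsupp.single y' 1 - Finsupp.single y 1 : (Xf f).pt Ω →₀ ℤ) +
      Nm M (M ⊔ E) (∑ P ∈ R, (Finsupp.single (X.P (b P) (g' P)) 1 -
        Finsupp.single (X.P (b P) (g P)) 1 : (Xf f).pt Ω →₀ ℤ)) ∈ (Xf f).ratEq M Ω := by
    rw [← hsum]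
    exact hrel
  have hfy : Fx M (Finsupp.single y' 1 - Finsupp.single y 1 : (Xf f).pt Ω →₀ ℤ) :=
    (fx_single hy' 1).sub (fx_single hy 1)
  have h5 := nm_ratEq hrel' (hfy.add (nm_fx le_sup_left hfx))
  rw [nm_add bot_le, ← nm_tr bot_le le_sup_left hfx, hNv] at h5
  refine ⟨-v, neg_mem hv, ?_⟩
  rw [mk_neg bot_le, sub_neg_eq_add]
  exact h5

end GX
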