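import Pool.Agent.Lib.MP_f80667_ag.Ep.Mk

/-! (2.3) Displacements are moved into the branches (over `E`). -/

open ZC BE PE CV IntermediateField

namespace GX

variable {F : Type} [Field F] [CharZero F] {N d m : ℕ} {ι : Type}
  {f : ι → MvPolynomial (Fin N) F} {K Ω : Type} [Field K] [CharZero K] [Field Ω] [Algebra K Ω]
  [Algebra F K] [Algebra F Ω] [IsScalarTower F K Ω] [IsAlgClosure K Ω] {L : Ld K Ω}
  {ψ : Fin m → Prj K N d} {E : IntermediateField K Ω} {L' : Ld E Ω} {X : Bd f E Ω d m}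

omit [CharZero F] in
private theorem mv_neg {A : Type} [AddCommGroup A] [DistribMulAction (Ω ≃ₐ[K] Ω) A]
    {M N : IntermediateField K Ω} (h : M ≤ N) [FiniteDimensional K N] (P : A) :
    Nm M N (-P) = -Nm M N P := by
  obtain ⟨s, -, -, -, h₃⟩ := nm_rep h
  rw [h₃, h₃, ← Finset.sum_neg_distrib]
  exact Finset.sum_congr rfl fun γ _ => smul_neg γ P

omit [CharZero F] in
private theorem mv_zero {A : Type} [AddCommGroup A] [DistribMulAction (Ω ≃ₐ[K] Ω) A]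
    {M N : IntermediateField K Ω} (h : M ≤ N) [FiniteDimensional K N] :
    Nm M N (0 : A) = 0 := by
  obtain ⟨s, -, -, -, h₃⟩ := nm_rep h
  rw [h₃]
  exact Finset.sum_eq_zero fun γ _ => smul_zero γ

/-- **Moving lemma**: proof: `Bg.ndc`, `C` with `hC` of `Bg.move_one` (and `C ≠ 0`); `AddSubgroup.closure_induction` (sums, negatives: `nm_add`). `[y'] - [y]` (over `M`) is, modulo rational equivalence over `M`, the trace from `M E` of displacements in the branches. -/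
theorem Bg.move (hX : Bg f L ψ E L' X) : ∃ C : ℕ, ∀ s, C ≤ s →
    ∀ z ∈ Dcy L f (L.nm (L.p : Ω) ^ s), ∃ v ∈ Ub L' X.P (L.nm (L.p : Ω) ^ (s - C)),
      z - Nm (⊥ : IntermediateField K Ω) E v ∈ (Xf f).ratEq K Ω := by
  have hfd : FiniteDimensional K E := hX.fd
  obtain ⟨S, e, hS⟩ := hX.ndc
  have hp0 : 0 ≤ L.nm (L.p : Ω) := L.nonneg _
  have hpos : 0 < X.ε ^ 2 * e ^ 4 * L.nm X.ϖ := by
    have h1 := hX.ok.ϖ0
    rw [hX.nm] at h1
    exact mul_pos (mul_pos (pow_pos hX.ok.ε0 2) (pow_pos hS.e0 4)) h1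
  obtain ⟨C₀, hC₀⟩ := exists_pow_lt_of_lt_one hpos L.lt
  have hC : L.nm (L.p : Ω) ^ (C₀ + 1) < X.ε ^ 2 * e ^ 4 * L.nm X.ϖ :=
    (pow_le_pow_of_le_one hp0 L.lt.le (Nat.le_succ C₀)).trans_lt hC₀
  refine ⟨C₀ + 1, fun s hs z hz => ?_⟩
  have hs0 : s ≠ 0 := by omega
  refine AddSubgroup.closure_induction
    (p := fun z _ => ∃ v ∈ Ub L' X.P (L.nm (L.p : Ω) ^ (s - (C₀ + 1))),
      z - Nm (⊥ : IntermediateField K Ω) E v ∈ (Xf f).ratEq K Ω) ?_ ?_ ?_ ?_ hz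
  · rintro z ⟨M, hM, y, y', hy, hy', h, rfl⟩
    exact hX.move_one hS hs0 hC hs hy hy' h
  · refine ⟨0, zero_mem _, ?_⟩
    rw [mv_zero bot_le, sub_zero]
    exact zero_mem _
  · rintro z z' _ _ ⟨v, hv, h⟩ ⟨v', hv', h'⟩
    refine ⟨v + v', add_mem hv hv', ?_⟩
    rw [nm_add bot_le, add_sub_add_comm]
    exact add_mem h h'
  · rintro z _ ⟨v, hv, h⟩
    refine ⟨-v, neg_mem hv, ?_⟩
    rw [mv_neg bot_le, sub_neg_eq_add, neg_add_eq_sub, ← neg_sub]
    exact neg_mem h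

end GX
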