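import Pool.Agent.Lib.MP_f80667_ag.Gx.VD
import Pool.Agent.Lib.MP_f80667_ag.Sb.A
import Pool.Agent.Lib.MP_f80667_ag.Ep.Ax4

/-!
Cycles which are `0` modulo a number, in terms of a valuation ring `V`.

* `Cgr f V a P P'`: the points have primitive coordinates which are congruent modulo `a V`.
* `Zra f V a z`: for every point the sum of the coefficients of the points congruent to it modulo `a` is `0`.
* `Fnz f V K a`: modulo rational equivalence and the `m`-fold of such cycles there are finitely many such cycles.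
* `Dvz M V K a`: such a cycle with the sum `0` is, for all `m ≠ 0`, rationally equivalent to `m` times a cycle of the same kind.
-/

open ZC BE PE CV IntermediateField

namespace GX

section defs

variable {F : Type} [Field F] {N N' k k' : ℕ} {ι ι' : Type} (f : ι → MvPolynomial (Fin N) F)
  {A : Gv F N' k' ι'} {Ω : Type} [Field Ω] [Algebra F Ω] (V : ValuationSubring Ω)

/-- The points have primitive coordinates which are congruent modulo `a V`. -/
def Cgr (a : Ω) (P P' : (Xf f).pt Ω) : Prop :=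
  ∃ x x' : Fin N → Ω, Co P x ∧ Co P' x' ∧ GM.Pmv V x ∧ GM.Pmv V x' ∧
    ∀ i, ∃ c ∈ V, x i - x' i = a * c

open Classical in
/-- The cycle is `0` modulo `a`. -/
def Zra (a : Ω) (z : (Xf f).pt Ω →₀ ℤ) : Prop :=
  ∀ Q : (Xf f).pt Ω, ∑ P ∈ z.support.filter (fun P => Cgr f V a P Q), z P = 0

/-- The cycles over `K` which are `0` modulo `a`: finite modulo `m`. -/
def Fnz (K : Type) [Field K] [Algebra F K] [Algebra K Ω] [IsScalarTower F K Ω] (a : Ω) : Prop :=
  ∀ m : ℕ, m ≠ 0 → ∃ E : Finset ((Xf f).pt Ω →₀ ℤ), (∀ e ∈ E, e ∈ (Xf f).cyc K Ω ∧ Zra f V a e) ∧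
    ∀ z ∈ (Xf f).cyc K Ω, Zra f V a z → ∃ e ∈ E, ∃ z' ∈ (Xf f).cyc K Ω, Zra f V a z' ∧
      z - e - m • z' ∈ (Xf f).ratEq K Ω

variable {f}

/-- The cycles over `K` which are `0` modulo `a` and have the sum `0` are divisible. -/
def Dvz (M : Mf f A k) (K : Type) [Field K] [Algebra F K] [Algebra K Ω] [IsScalarTower F K Ω]
    (a : Ω) : Prop :=
  letI := A.G.grp Ω
  ∀ m : ℕ, m ≠ 0 → ∀ z ∈ (Xf f).cyc K Ω, Zra f V a z → M.S Ω z = 0 →
    ∃ z' ∈ (Xf f).cyc K Ω, Zra f V a z' ∧ M.S Ω z' = 0 ∧ z - m • z' ∈ (Xf f).ratEq K Ω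

end defs

section loc

variable {F : Type} [Field F] {N : ℕ} {ι : Type} {f : ι → MvPolynomial (Fin N) F} {K Ω : Type}
  [Field K] [CharZero K] [Field Ω] [Algebra K Ω] [Algebra F K] [Algebra F Ω]
  [IsScalarTower F K Ω] [IsAlgClosure K Ω] {L : Ld K Ω} {a : Ω}

/-- Proof: as `srd_iff` (`Gx/VD.lean`). -/
theorem cgr_iff (ha : a ≠ 0) {P P' : (Xf f).pt Ω} :
    Cgr f L.V a P P' ↔ Nrh f L (L.nm a) P P' := by
  have hpos : 0 < L.nm a := L.pos ha
  constructor
  · rintro ⟨x, x', h1, h2, h3, h4, h5⟩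
    obtain ⟨h3, h3'⟩ := GM.pmv_iff.1 h3
    obtain ⟨h4, h4'⟩ := GM.pmv_iff.1 h4
    refine ⟨x, x', h1, h2, h3, h4, h3', h4', fun i => ?_⟩
    obtain ⟨c, hc, h6⟩ := h5 i
    rw [h6, L.mul]
    exact mul_le_of_le_one_right hpos.le (L.mem_V.1 hc)
  · rintro ⟨x, x', h1, h2, h3, h4, h3', h4', h5⟩
    refine ⟨x, x', h1, h2, GM.pmv_iff.2 ⟨h3, h3'⟩, GM.pmv_iff.2 ⟨h4, h4'⟩, fun i =>
      ⟨(x i - x' i) / a, ?_, (mul_div_cancel₀ _ ha).symm⟩⟩
    rw [L.mem_V, L.div]
    exact (div_le_one hpos).2 (h5 i)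

theorem zra_iff (ha : a ≠ 0) {z : (Xf f).pt Ω →₀ ℤ} : Zra f L.V a z ↔ Zrt f L (L.nm a) z := by
  classical
  refine forall_congr' fun Q => ?_
  have h : (∑ P ∈ z.support.filter (fun P => Cgr f L.V a P Q), z P) =
      ∑ P ∈ z.support.filter (fun P => Nrh f L (L.nm a) P Q), z P := by
    refine Finset.sum_congr ?_ fun _ _ => rfl
    ext P
    simp only [Finset.mem_filter, cgr_iff ha]
  constructor
  · intro h1
    rw [← h1, h]
  · intro h1
    rw [← h1, h]

end loc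

end GX
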