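import Mathlib

/-!
Descent from `E` to `K`, abstractly.

* `Abs V D RE RK tr S q`: `V n` the levels over `E`, `D s` the displacements over `K`, `RE`, `RK` the relations, `tr` the trace, `S` the sum, `q` the degree.
-/

namespace GX

variable {A B : Type*} [AddCommGroup A] [AddCommGroup B]

/-- The formal properties. -/
structure Abs (V D : ℕ → AddSubgroup A) (RE RK : AddSubgroup A) (tr : A →+ A) (S : A →+ B)
    (q : ℕ) : Prop where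
  anti : ∀ n, V (n + 1) ≤ V n
  trR : ∀ z ∈ RE, tr z ∈ RK
  SR : ∀ z ∈ RK, S z = 0
  dv : ∀ n, ∃ s₀, ∀ s, s₀ ≤ s → ∀ z ∈ D s, ∃ v ∈ V n, z - tr v ∈ RK
  vd : ∀ s, ∃ n, ∀ v ∈ V n, ∃ z ∈ D s, tr v - z ∈ RK
  fin : ∃ n₀, ∀ n, n₀ ≤ n → (V (n + 1)).relIndex (V n) ≠ 0
  ker : ∃ n₀, ∀ n, n₀ ≤ n → ∀ z ∈ V n, S z = 0 → ∀ k, z ∈ V k
  sum : ∀ z, (∀ k, z ∈ V k) → S z = 0
  div : ∀ z, (∀ k, z ∈ V k) → ∀ m : ℕ, m ≠ 0 → ∃ z', (∀ k, z' ∈ V k) ∧ z - m • z' ∈ RE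
  dm : ∀ m : ℕ, m ≠ 0 → ∀ n, ∃ n', ∀ v ∈ V n', ∃ v' ∈ V n, v - m • v' ∈ RE
  tor : ∀ m : ℕ, m ≠ 0 → ∃ n₀, ∀ n, n₀ ≤ n → ∀ z ∈ V n, m • S z = 0 → S z = 0
  q0 : q ≠ 0
  nrm : ∀ n, ∀ v ∈ V n, ∃ z ∈ V n, tr v - z ∈ RK ∧ tr z = q • z
  St : ∀ z, S z = 0 → S (tr z) = 0

namespace Abs

variable {V D : ℕ → AddSubgroup A} {RE RK : AddSubgroup A} {tr : A →+ A} {S : A →+ B} {q : ℕ}

theorem anti' (h : Abs V D RE RK tr S q) {m n : ℕ} (hmn : m ≤ n) : V n ≤ V m := by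
  induction n, hmn using Nat.le_induction with
  | base => exact le_rfl
  | succ n _ ih => exact (h.anti n).trans ih

/-- **The kernel of the sum on `D s` is divisible modulo the relations.** -/
theorem divisible (h : Abs V D RE RK tr S q) : ∃ s₀, ∀ s, s₀ ≤ s → ∀ z ∈ D s, S z = 0 →
    ∀ m : ℕ, m ≠ 0 → ∀ s', ∃ z' ∈ D s', S z' = 0 ∧ z - m • z' ∈ RK := by
  obtain ⟨a, ha⟩ := h.ker
  obtain ⟨b, hb⟩ := h.tor q h.q0
  obtain ⟨c, hc⟩ := h.dm q h.q0 (max a b)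
  obtain ⟨s₀, hs₀⟩ := h.dv c
  refine ⟨s₀, fun s hs z hz h0 m hm s' => ?_⟩
  obtain ⟨v, hv, hr⟩ := hs₀ s hs z hz
  obtain ⟨v', hv', hr'⟩ := hc v hv
  obtain ⟨x, hx, hvx, hqx⟩ := h.nrm _ v' hv'
  have e1 : z - q • x ∈ RK := by
    have h1 := h.trR _ hr'
    rw [map_sub, map_nsmul] at h1
    have e : z - q • x = (z - tr v) + (tr v - q • tr v') + q • (tr v' - x) := by
      rw [smul_sub]
      abel
    rw [e]
    exact add_mem (add_mem hr h1) (nsmul_mem hvx q)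
  have h1 : S x = 0 := by
    refine hb _ (le_max_right a b) _ hx ?_
    have h2 := h.SR _ e1
    rw [map_sub, map_nsmul, h0, zero_sub, neg_eq_zero] at h2
    exact h2
  have h2 := ha _ (le_max_left a b) _ hx h1
  obtain ⟨w, hw1, hw2⟩ := h.div _ h2 m hm
  obtain ⟨n, hn⟩ := h.vd s'
  obtain ⟨z', hz', hr2⟩ := hn w (hw1 n)
  refine ⟨z', hz', ?_, ?_⟩
  · have h3 := h.SR _ hr2
    rw [map_sub, h.St w (h.sum w hw1), zero_sub, neg_eq_zero] at h3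
    exact h3
  · have h3 := h.trR _ hw2
    rw [map_sub, map_nsmul, hqx] at h3
    have e : z - m • z' = (z - q • x) + (q • x - m • tr w) + m • (tr w - z') := by
      rw [smul_sub]
      abel
    rw [e]
    exact add_mem (add_mem e1 h3) (nsmul_mem hr2 m)

/-- **Finiteness.** -/
theorem finite (h : Abs V D RE RK tr S q) : ∃ s₀, ∀ s, s₀ ≤ s → ∀ m : ℕ, m ≠ 0 → ∀ s',
    ((D s').map (nsmulAddMonoidHom m) ⊔ RK).relIndex (D s) ≠ 0 := by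
  obtain ⟨a, ha⟩ := h.fin
  obtain ⟨s₀, hs₀⟩ := h.dv a
  refine ⟨s₀, fun s hs m hm s' => ?_⟩
  obtain ⟨n, hn⟩ := h.vd s'
  obtain ⟨n', hn'⟩ := h.dm m hm n
  obtain ⟨b, hb⟩ : ∃ b, b = max a n' := ⟨_, rfl⟩
  have hab : a ≤ b := hb ▸ le_max_left _ _
  have hnb : n' ≤ b := hb ▸ le_max_right _ _
  have h1 : ∀ k, a ≤ k → (V k).relIndex (V a) ≠ 0 := by
    intro k hk
    induction k, hk using Nat.le_induction with
    | base => rw [AddSubgroup.relIndex_self]; exact one_ne_zero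
    | succ k hk ih => exact AddSubgroup.relIndex_ne_zero_trans (ha k hk) ih
  obtain ⟨H, hH⟩ : ∃ H, H = (D s').map (nsmulAddMonoidHom m) ⊔ RK := ⟨_, rfl⟩
  have h4 : V b ≤ H.comap tr := by
    intro v hv
    rw [AddSubgroup.mem_comap, hH]
    obtain ⟨v', hv', hr⟩ := hn' v (h.anti' hnb hv)
    obtain ⟨z, hz, hr'⟩ := hn v' hv'
    have h5 := h.trR _ hr
    rw [map_sub, map_nsmul] at h5
    refine AddSubgroup.mem_sup.2 ⟨m • z, ⟨z, hz, rfl⟩, (tr v - m • tr v') + m • (tr v' - z),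
      add_mem h5 (nsmul_mem hr' m), ?_⟩
    rw [smul_sub]
    abel
  have h5 : D s ≤ (V a).map tr ⊔ RK := by
    intro z hz
    obtain ⟨v, hv, hr⟩ := hs₀ s hs z hz
    exact AddSubgroup.mem_sup.2 ⟨tr v, ⟨v, hv, rfl⟩, z - tr v, hr, by abel⟩
  have h6 : RK ≤ H := hH ▸ le_sup_right
  rw [← hH]
  intro h0
  have h7 := AddSubgroup.relIndex_eq_zero_of_le_right (h5.trans (sup_le_sup_left h6 _)) h0
  rw [AddSubgroup.relIndex_sup_right, ← AddSubgroup.relIndex_comap] at h7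
  exact h1 b hab (AddSubgroup.relIndex_eq_zero_of_le_left h4 h7)

end Abs

end GX
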