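import Pool.Agent.Lib.MP_f80667_ag.Ep.N0
import Pool.Agent.Lib.MP_f80667_ag.Ep.Yc
import Pool.Agent.Lib.MP_f80667_ag.Ep.Ax5

/-!
From the displacements to the cycles which are `0` modulo a number.
-/

open ZC BE PE CV IntermediateField

namespace GX

variable {F : Type} [Field F] {N N' k k' : ℕ} {ι ι' : Type} {f : ι → MvPolynomial (Fin N) F}
  {A : Gv F N' k' ι'} {M : Mf f A k} {K Ω : Type} [Field K] [CharZero K] [Field Ω] [Algebra K Ω]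
  [Algebra F K] [Algebra F Ω] [IsScalarTower F K Ω] [IsAlgClosure K Ω] {L : Ld K Ω}

omit [CharZero K] [IsAlgClosure K Ω] in
private theorem dcy_mono {t t' : ℝ} (h : t ≤ t') : Dcy L f t ≤ Dcy L f t' := by
  unfold Dcy
  refine AddSubgroup.closure_mono ?_
  rintro z ⟨E, hE, y, y', h1, h2, ⟨x, x', h3, h4, h5, h6, h7, h8, h9⟩, rfl⟩
  exact ⟨E, hE, y, y', h1, h2, ⟨x, x', h3, h4, h5, h6, h7, h8, fun i => (h9 i).trans h⟩, rfl⟩

omit [CharZero K] [IsAlgClosure K Ω] in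
private theorem zrt_zero (t : ℝ) : Zrt f L t (0 : (Xf f).pt Ω →₀ ℤ) := by
  classical
  intro Q
  rw [Finsupp.support_zero, Finset.filter_empty, Finset.sum_empty]

/-- The cycles over `K` which are `0` modulo `t`. -/
private def zsg (f : ι → MvPolynomial (Fin N) F) (L : Ld K Ω) (t : ℝ) :
    AddSubgroup ((Xf f).pt Ω →₀ ℤ) where
  carrier := {z | z ∈ (Xf f).cyc K Ω ∧ Zrt f L t z}
  zero_mem' := ⟨zero_mem _, zrt_zero t⟩
  add_mem' h h' := ⟨add_mem h.1 h'.1, h.2.add h'.2⟩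
  neg_mem' {z} h := ⟨neg_mem h.1, by
    have h1 := h.2.zsmul (-1)
    rwa [neg_one_zsmul] at h1⟩

private theorem mem_zsg {t : ℝ} {z : (Xf f).pt Ω →₀ ℤ} :
    z ∈ zsg f L t ↔ z ∈ (Xf f).cyc K Ω ∧ Zrt f L t z := Iff.rfl

/-- **Cycles which are `0` modulo a small number.** -/
theorem ep_zrt (hf : ∀ i, ∃ e, (f i).IsHomogeneous e) {C : ℕ}
    (hr : ∀ s, C ≤ s → ∀ (M : IntermediateField K Ω) (P : (Xf f).pt Ω),
      (∀ γ ∈ M.fixingSubgroup, Nrh f L (L.nm (L.p : Ω) ^ s) ((Xf f).act γ P) P) →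
        ∃ P', Fp (Xf f) M P' ∧ Nrh f L (L.nm (L.p : Ω) ^ (s - C)) P' P)
    {V : ℕ → AddSubgroup ((Xf f).pt Ω →₀ ℤ)} {RE : AddSubgroup ((Xf f).pt Ω →₀ ℤ)}
    {tr : ((Xf f).pt Ω →₀ ℤ) →+ ((Xf f).pt Ω →₀ ℤ)} {q : ℕ}
    (hA : letI := A.G.grp Ω
      Abs V (fun s => Dcy L f (L.nm (L.p : Ω) ^ s)) RE ((Xf f).ratEq K Ω) tr (M.S Ω) q) :
    ∃ a₀ : Ω, a₀ ≠ 0 ∧ ∀ a : Ω, a ≠ 0 → (∃ c ∈ L.V, a = a₀ * c) →
      Fnz f L.V K a ∧ Dvz L.V M K a := by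
  classical
  let _ : AddCommGroup ((Xf A.a).pt Ω) := A.G.grp Ω
  have hA' : Abs V (fun s => Dcy L f (L.nm (L.p : Ω) ^ s)) RE ((Xf f).ratEq K Ω) tr (M.S Ω) q :=
    hA
  obtain ⟨s₁, h1⟩ := hA'.divisible
  obtain ⟨s₂, h2⟩ := hA'.finite
  have hch : CharZero Ω := charZero_of_injective_algebraMap (algebraMap K Ω).injective
  have hp0 : (L.p : Ω) ≠ 0 := Nat.cast_ne_zero.2 L.pp.ne_zero
  have hpp : 0 < L.nm (L.p : Ω) := L.pos hp0
  have hp1 : L.nm (L.p : Ω) < 1 := L.lt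
  obtain ⟨s₃, hs₃⟩ : ∃ s₃, s₃ = max s₁ s₂ + 1 := ⟨_, rfl⟩
  refine ⟨(L.p : Ω) ^ (s₃ + C), pow_ne_zero _ hp0, fun a ha hc => ?_⟩
  obtain ⟨c, hc, hac⟩ := hc
  have hta : L.nm a ≤ L.nm (L.p : Ω) ^ (s₃ + C) := by
    rw [hac, L.mul, L.pow]
    exact mul_le_of_le_one_right (pow_nonneg hpp.le _) (L.mem_V.1 hc)
  have ht0 : 0 < L.nm a := L.pos ha
  have ht1 : L.nm a < 1 := hta.trans_lt (pow_lt_one₀ hpp.le hp1 (by omega))
  have ht3 : L.nm (L.p : Ω) ^ (s₃ + C) ≤ L.nm (L.p : Ω) ^ s₃ :=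
    pow_le_pow_of_le_one hpp.le hp1.le (Nat.le_add_right _ _)
  have ht4 : L.nm (L.p : Ω) ^ s₃ < 1 := pow_lt_one₀ hpp.le hp1 (by omega)
  obtain ⟨s', hs'⟩ : ∃ s' : ℕ, L.nm (L.p : Ω) ^ s' ≤ L.nm a := by
    obtain ⟨s', h⟩ := exists_pow_lt_of_lt_one ht0 hp1
    exact ⟨s', h.le⟩
  have hZD : ∀ z ∈ (Xf f).cyc K Ω, Zrt f L (L.nm a) z → z ∈ Dcy L f (L.nm (L.p : Ω) ^ s₃) := by
    intro z hz hz'
    refine zrt_dcy hf ht0 ht1 (hta.trans ht3) ht4 (fun M P hM => ?_) hz hz'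
    obtain ⟨P', h3, h4⟩ := hr (s₃ + C) (Nat.le_add_left _ _) M P fun γ hγ => by
      obtain ⟨x, x', g1, g2, g3, g4, g5, g6, g7⟩ := hM γ hγ
      exact ⟨x, x', g1, g2, g3, g4, g5, g6, fun i => (g7 i).trans hta⟩
    rw [Nat.add_sub_cancel] at h4
    exact ⟨P', h3, h4⟩
  have hDZ : ∀ z ∈ Dcy L f (L.nm (L.p : Ω) ^ s'), z ∈ (Xf f).cyc K Ω ∧ Zrt f L (L.nm a) z :=
    fun z hz => dcy_zrt hf ht0.le ht1 (dcy_mono hs' hz)
  constructor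
  · intro m hm
    obtain ⟨H, hH⟩ : ∃ H, H = (Dcy L f (L.nm (L.p : Ω) ^ s')).map (nsmulAddMonoidHom m) ⊔
      (Xf f).ratEq K Ω := ⟨_, rfl⟩
    have hle : zsg f L (L.nm a) ≤ Dcy L f (L.nm (L.p : Ω) ^ s₃) := fun z hz =>
      hZD z (mem_zsg.1 hz).1 (mem_zsg.1 hz).2
    have h3 : H.relIndex (zsg f L (L.nm a)) ≠ 0 := by
      intro h4
      have h5 := h2 s₃ (by omega) m hm s'
      rw [← hH] at h5
      exact h5 (AddSubgroup.relIndex_eq_zero_of_le_right hle h4)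
    have hfi : (H.addSubgroupOf (zsg f L (L.nm a))).FiniteIndex := ⟨h3⟩
    have hft := Fintype.ofFinite (zsg f L (L.nm a) ⧸ H.addSubgroupOf (zsg f L (L.nm a)))
    refine ⟨Finset.univ.image fun x : zsg f L (L.nm a) ⧸ H.addSubgroupOf (zsg f L (L.nm a)) =>
      ((Quotient.out x : zsg f L (L.nm a)) : (Xf f).pt Ω →₀ ℤ), ?_, ?_⟩
    · intro e he
      obtain ⟨x, -, rfl⟩ := Finset.mem_image.1 he
      exact ⟨(Quotient.out x).2.1, (zra_iff ha).2 (Quotient.out x).2.2⟩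
    · intro z hz hz'
      rw [zra_iff ha] at hz'
      obtain ⟨y, hy⟩ : ∃ y : zsg f L (L.nm a), y = ⟨z, hz, hz'⟩ := ⟨_, rfl⟩
      have hyz : (y : (Xf f).pt Ω →₀ ℤ) = z := by rw [hy]
      obtain ⟨x, hx⟩ : ∃ x : zsg f L (L.nm a) ⧸ H.addSubgroupOf (zsg f L (L.nm a)),
        x = QuotientAddGroup.mk y := ⟨_, rfl⟩
      obtain ⟨o, ho⟩ : ∃ o : zsg f L (L.nm a), o = Quotient.out x := ⟨_, rfl⟩
      refine ⟨o, Finset.mem_image.2 ⟨x, Finset.mem_univ _, by rw [ho]⟩, ?_⟩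
      have h6 : o - y ∈ H.addSubgroupOf (zsg f L (L.nm a)) := by
        have h7 : (QuotientAddGroup.mk o : zsg f L (L.nm a) ⧸
            H.addSubgroupOf (zsg f L (L.nm a))) = QuotientAddGroup.mk y := by
          rw [ho, ← hx]
          exact Quotient.out_eq _
        have h8 := QuotientAddGroup.eq.1 h7.symm
        rwa [neg_add_eq_sub] at h8
      rw [AddSubgroup.mem_addSubgroupOf, hH] at h6
      obtain ⟨_, ⟨w, hw, rfl⟩, r, hr', h9⟩ := AddSubgroup.mem_sup.1 h6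
      obtain ⟨h10, h11⟩ := hDZ w hw
      refine ⟨-w, neg_mem h10, (zra_iff ha).2 ?_, ?_⟩
      · have h12 := h11.zsmul (-1)
        rwa [neg_one_zsmul] at h12
      · have h14 : m • w + r = (o : (Xf f).pt Ω →₀ ℤ) - z := by
          rw [← hyz]
          exact h9
        have h16 : z - (o : (Xf f).pt Ω →₀ ℤ) - m • -w = -r := by
          rw [smul_neg, sub_neg_eq_add, ← neg_sub (o : (Xf f).pt Ω →₀ ℤ) z, ← h14]
          abel
        rw [h16]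
        exact neg_mem hr'
  · intro m hm z hz hz' h0
    rw [zra_iff ha] at hz'
    obtain ⟨w, hw, h3, h4⟩ := h1 s₃ (by omega) z (hZD z hz hz') h0 m hm s'
    obtain ⟨h5, h6⟩ := hDZ w hw
    exact ⟨w, h5, (zra_iff ha).2 h6, h3, h4⟩

end GX
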