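import Pool.Agent.Lib.MP_f80667_ag.Ep.Pe

/-! The polydisc chart is a chart. -/

open ZC BE PE CV IntermediateField

namespace GX

variable {F : Type} [Field F] {N d m : ℕ} {ι : Type} {f : ι → MvPolynomial (Fin N) F}
  {K Ω : Type} [Field K] [CharZero K] [Field Ω] [Algebra K Ω] [Algebra F K] [Algebra F Ω]
  [IsScalarTower F K Ω] [IsAlgClosure K Ω] {L : Ld K Ω} {X : Bd f K Ω d m}
  {M : IntermediateField K Ω} {b : X.B} {β : Fin (d + 1) → Polynomial Ω}
  {ν : Fin (X.ψ (X.i b)).G.natDegree → X.B} {θ : Fin (X.ψ (X.i b)).G.natDegree → Ω} {ρ : ℕ}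
  {q α : Fin (X.ψ (X.i b)).G.natDegree → Ω → Ω} {g : Polynomial (Polynomial Ω)}
  {A : Fin N → Polynomial (Polynomial Ω)} {c : Ω}

private theorem pe1_ev (c w : Ω) (A : Polynomial (Polynomial Ω)) :
    GM.ev₂ (c, w) A = (A.map (Polynomial.evalRingHom c)).eval w := by
  rw [GM.ev₂_eq, Polynomial.map_evalRingHom_eval]

private theorem pe1_aev (P : Ω × Ω) (u : Fin N → Polynomial (Polynomial Ω))
    (G : MvPolynomial (Fin N) F) :
    GM.ev₂ P (MvPolynomial.aeval u G) = MvPolynomial.aeval (fun i => GM.ev₂ P (u i)) G := by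
  rw [MvPolynomial.aeval_def, MvPolynomial.aeval_def, MvPolynomial.eval₂_comp_left]
  have h : (GM.ev₂ P).comp (algebraMap F (Polynomial (Polynomial Ω))) = algebraMap F Ω := by
    refine RingHom.ext fun a => ?_
    rw [RingHom.comp_apply, Polynomial.algebraMap_apply, Polynomial.algebraMap_apply]
    simp [GM.ev₂]
  rw [h]
  rfl

omit [IsAlgClosure K Ω] [Algebra F Ω] [Algebra F K] [IsScalarTower F K Ω] in
private theorem pe1_inf (L : Ld K Ω) : {c : Ω | L.nm c ≤ 1}.Infinite := by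
  have h1 : CharZero Ω := charZero_of_injective_algebraMap (algebraMap K Ω).injective
  exact Set.infinite_of_injective_forall_mem (f := fun n : ℕ => (n : Ω)) Nat.cast_injective
    fun n => L.nat_le n

omit [CharZero K] [Algebra F Ω] [Algebra F K] [IsScalarTower F K Ω] [IsAlgClosure K Ω] in
private theorem pe1_prod (L : Ld K Ω) {I : Type} (s : Finset I) (u : I → Ω)
    (h : ∀ i ∈ s, L.nm (u i) = 1) : L.nm (∏ i ∈ s, u i) = 1 := by
  classical
  induction s using Finset.induction_on with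
  | empty => rw [Finset.prod_empty, L.one]
  | insert a s ha ih =>
    rw [Finset.prod_insert ha, L.mul, h a (Finset.mem_insert_self a s),
      ih fun i hi => h i (Finset.mem_insert_of_mem hi), one_mul]

/-- **The chart.** Proof: `δ`, `bez`: `g` comes from `g₀` over `Polynomial (GM.OM L M)` (`GM.exists_up2`), `ds_ex` there (a domain of characteristic `0`) and `Polynomial.map`; its value at `c`, `nm c ≤ 1`, is the product of the differences of the
`q k c`: norm `1` (`Pch.sep`). `inX` with `s = 0`: `dvd_gen`, `B` = the complement of the closed unit disc, `w = q . c`, `Pch.co`, `co_zero`. `prim`: `Pch.root`, `Pch.val`. -/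
theorem Pch.cht (hX : X.Ok L) (hν : Num X b ν) (hβ : Arc L M β)
    (h : Pch L X M b ν β θ ρ q α g A) (hθ : ∀ k l, k ≠ l → L.nm (θ k - θ l) = 1) :
    ∃ δ : Polynomial Ω, Cht f L M ρ (X.ψ (X.i b)).G.natDegree g δ A ∧
      ∀ c, L.nm c ≤ 1 → L.nm (δ.eval c) = 1 := by
  have hcz : CharZero Ω := charZero_of_injective_algebraMap (algebraMap K Ω).injective
  obtain ⟨g₀, hg₀⟩ := GM.exists_up2 h.ig
  have mc₀ : GM.Mc ρ (X.ψ (X.i b)).G.natDegree g₀ := GM.mc_of_up (by rw [hg₀]; exact h.mc)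
  have hcz₀ : CharZero (OM L M) := RingHom.charZero (GM.om L M)
  obtain ⟨δ₀, U, W, hUW, hδ⟩ := ds_ex mc₀.monic mc₀.deg
  have hδc : ∀ c, L.nm c ≤ 1 → (δ₀.map (GM.om L M)).eval c =
      ∏ k, ∏ l ∈ Finset.univ.erase k, (q k c - q l c) := by
    intro c hc
    have h1 := hδ Ω ((Polynomial.evalRingHom c).comp (Polynomial.mapRingHom (GM.om L M)))
      (fun k => q k c) (by
        rw [← Polynomial.map_map, ← h.gq c hc, ← hg₀]
        rfl)
    rw [← h1]
    simp
  have hcf : ∀ (A : Polynomial (Polynomial (OM L M))), I₂ L M (GM.up₂ (GM.om L M) A) := by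
    intro A i j
    rw [GM.up_cf, Polynomial.coeff_map]
    exact ⟨GM.om_mem _, GM.om_le _⟩
  refine ⟨δ₀.map (GM.om L M), ⟨h.mc, h.ig, ?_, h.iA, ?_, ⟨0, ?_⟩, ?_⟩, ?_⟩
  · intro j
    rw [Polynomial.coeff_map]
    exact ⟨GM.om_mem _, GM.om_le _⟩
  · refine ⟨GM.up₂ (GM.om L M) U, GM.up₂ (GM.om L M) W, hcf U, hcf W, ?_⟩
    have h2 := congrArg (GM.up₂ (GM.om L M)) hUW
    rw [map_add, map_mul, map_mul] at h2
    rw [← GM.up_C, ← h2, hg₀]
    congr 1
    congr 1
    have h3 := GM.up_dY (GM.om L M) g₀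
    rw [hg₀] at h3
    exact h3.symm
  · intro i
    rw [pow_zero, map_one, one_mul]
    refine dvd_gen h.mc.monic h.mc.deg (B := {c : Ω | L.nm c ≤ 1}ᶜ) ?_ ?_
    · rw [compl_compl]
      exact pe1_inf L
    · intro c hc
      have hc' : L.nm c ≤ 1 := by
        by_contra h0
        exact hc h0
      refine ⟨fun k => q k c, ?_, fun k => ⟨?_, ?_⟩⟩
      · intro k l hkl
        by_contra hne
        have h1 := h.sep hθ hc' hne
        simp only at hkl
        rw [hkl, sub_self, L.zero] at h1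
        exact zero_ne_one h1
      · rw [← pe1_ev]
        exact h.at hc' k
      · rw [← pe1_ev, pe1_aev]
        exact co_zero (h.co hX hν hβ hθ hc' k) i
  · intro c w hc _ hw _
    obtain ⟨k, rfl⟩ := h.root hc hw
    obtain ⟨t, -, -, h1⟩ := h.val hθ hc k
    exact h1
  · intro c hc
    rw [hδc c hc]
    exact pe1_prod L _ _ fun k _ => pe1_prod L _ _ fun l hl =>
      h.sep hθ hc (Finset.ne_of_mem_erase hl).symm

end GX
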