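import Pool.Agent.Lib.MP_f80667_ag.Gm.GlF

/-! **The moving lemma (LA)** with coordinates, the coordinates numbered by any finite type. -/

open ZC BE PE CV Polynomial IntermediateField IsLocalRing

namespace GM

variable {F : Type} [Field F] {K Ω : Type} [Field K] [CharZero K] [Field Ω] [Algebra K Ω]
  [Algebra F K] [Algebra F Ω] [IsScalarTower F K Ω] [IsAlgClosure K Ω] {L : Ld K Ω}
  {M : IntermediateField K Ω} {l u s ρ n : ℕ}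

/-- `GM.la_co` for coordinates numbered by a finite type `τ`. Proof: `Fintype.equivFin τ`. -/
theorem la_ty {τ : Type} [Fintype τ] [FiniteDimensional K M] {V : Vr F}
    {Cx : V.pt Ω → (τ → Ω) → Prop} {nr : V.pt Ω → V.pt Ω → Prop}
    {g : Polynomial (Polynomial Ω)} {δ : Polynomial Ω} {A : τ → Polynomial (Polynomial Ω)}
    (mc : Mc ρ n g) (ig : ∀ i j, (g.coeff i).coeff j ∈ M ∧ L.nm ((g.coeff i).coeff j) ≤ 1)
    (iδ : ∀ j, δ.coeff j ∈ M ∧ L.nm (δ.coeff j) ≤ 1)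
    (iA : ∀ k i j, ((A k).coeff i).coeff j ∈ M ∧ L.nm (((A k).coeff i).coeff j) ≤ 1)
    (bez : ∃ B B' : Polynomial (Polynomial Ω),
      (∀ i j, (B.coeff i).coeff j ∈ M ∧ L.nm ((B.coeff i).coeff j) ≤ 1) ∧
      (∀ i j, (B'.coeff i).coeff j ∈ M ∧ L.nm ((B'.coeff i).coeff j) ≤ 1) ∧
        B * g + B' * derivative g = C δ)
    (ex : ∀ Q : Ω × Ω, L.nm Q.1 ≤ 1 → L.nm Q.2 ≤ 1 → ev₂ Q g = 0 → L.nm (δ.eval Q.1) = 1 →
      (∃ j, L.nm (ev₂ Q (A j)) = 1) ∧ ∃ p, Cx p fun j => ev₂ Q (A j))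
    (uq : ∀ p p' x, Cx p x → Cx p' x → p = p')
    (ac : ∀ γ ∈ M.fixingSubgroup, ∀ p x, Cx p x → Cx (V.act γ p) fun j => γ (x j))
    (gp : ∀ (Φ : Finset (Ω × Ω)) (pt : Ω × Ω → V.pt Ω), (∀ P ∈ Φ, δ.eval P.1 ≠ 0) →
      (∀ P ∈ Φ, Cx (pt P) fun j => ev₂ P (A j)) → Gpm V M g Φ pt)
    {π : Ω} (hM : π ∈ M) (h0 : 0 < L.nm π) (h1 : L.nm π < 1)
    (hπ : ∀ x ∈ M, x ≠ 0 → ∃ k : ℤ, L.nm x = L.nm π ^ k)
    (near : ∀ p p' x x', Cx p x → Cx p' x' → (∀ i, L.nm (x i) ≤ 1) → (∀ i, L.nm (x' i) ≤ 1) →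
      (∃ i, L.nm (x i) = 1) → (∃ i, L.nm (x' i) = 1) →
        (∀ i, L.nm (x i - x' i) ≤ L.nm π ^ s) → nr p p')
    (hδ : L.nm (δ.eval 0) = 1) {w₀ : Ω} (hw : w₀ ∈ M) (hw1 : L.nm w₀ ≤ 1)
    (hw0 : L.nm (ev₂ (0, w₀) g) < 1) {P : Ω → V.pt Ω}
    (hP : ∀ c, L.nm c < 1 → ∃ w, L.nm (w - w₀) < 1 ∧ ev₂ (c, w) g = 0 ∧
      Cx (P c) fun j => ev₂ (c, w) (A j)) {q q' : Polynomial Ω} (hq : Dpo L M q)
    (hq' : Dpo L M q')
    (hs : (l = 1 ∧ u = 0 ∧ s ≠ 0) ∨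
      (l.Prime ∧ L.nm (l : Ω) = L.nm π ^ u ∧ u < (l - 1) * s))
    (hqq : ∀ i, L.nm (q.coeff i - q'.coeff i) ≤ L.nm π ^ (s + u)) :
    ∃ z ∈ Dsp L V nr M, rcy P q - rcy P q' - l • z ∈ V.ratEq M Ω := by
  classical
  obtain ⟨e⟩ : Nonempty (τ ≃ Fin (Fintype.card τ)) := ⟨Fintype.equivFin τ⟩
  have hA : ∀ Q : Ω × Ω, (fun t => ev₂ Q (A (e.symm (e t)))) = fun t => ev₂ Q (A t) := by
    intro Q
    funext t
    rw [e.symm_apply_apply]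
  have hone : ∀ x : Fin (Fintype.card τ) → Ω, (∃ i, L.nm (x i) = 1) →
      ∃ t, L.nm (x (e t)) = 1 := by
    rintro x ⟨i, hi⟩
    exact ⟨e.symm i, by rw [e.apply_symm_apply]; exact hi⟩
  refine la_co (L := L) (N := Fintype.card τ) (V := V) (Cx := fun p x => Cx p fun t => x (e t))
    (nr := nr) (g := g) (δ := δ) (A := fun j => A (e.symm j)) mc ig iδ (fun k => iA (e.symm k))
    bez (fun Q i1 i2 i3 i4 => ?_) (fun p p' x h h' => uq p p' _ h h')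
    (fun γ hγ p x h => ac γ hγ p _ h) (fun Φ pt hΦ h => gp Φ pt hΦ fun P hP => ?_) hM h0 h1 hπ
    (fun p p' x x' h h' i1 i2 i3 i4 i5 => near p p' _ _ h h' (fun i => i1 _) (fun i => i2 _)
      (hone x i3) (hone x' i4) (fun i => i5 _))
    hδ hw hw1 hw0 (fun c hc => ?_) hq hq' hs hqq
  · obtain ⟨⟨j, hj⟩, p, hp⟩ := ex Q i1 i2 i3 i4
    refine ⟨⟨e j, ?_⟩, p, ?_⟩
    · change L.nm (ev₂ Q (A (e.symm (e j)))) = 1
      rw [e.symm_apply_apply]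
      exact hj
    · change Cx p fun t => ev₂ Q (A (e.symm (e t)))
      rw [hA]
      exact hp
  · have h2 : Cx (pt P) fun t => ev₂ P (A (e.symm (e t))) := h P hP
    rw [hA] at h2
    exact h2
  · obtain ⟨w, i1, i2, i3⟩ := hP c hc
    refine ⟨w, i1, i2, ?_⟩
    change Cx (P c) fun t => ev₂ (c, w) (A (e.symm (e t)))
    rw [hA]
    exact i3

end GM
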