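import Pool.Agent.Lib.MP_f80667_ag.Ep.Pd2
import Pool.Agent.Lib.MP_f80667_ag.Ep.Pe1
import Pool.Agent.Lib.MP_f80667_ag.Ep.Pf

/-!
**The moving lemma (LA) in the branches**: `Bd.Ok.bs`.
-/

open ZC BE PE CV IntermediateField

namespace GX

variable {F : Type} [Field F] {N d m : ℕ} {ι : Type} {f : ι → MvPolynomial (Fin N) F}
  {K Ω : Type} [Field K] [CharZero K] [Field Ω] [Algebra K Ω] [Algebra F K] [Algebra F Ω]
  [IsScalarTower F K Ω] [IsAlgClosure K Ω] {L : Ld K Ω} {X : Bd f K Ω d m}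

omit [CharZero K] [IsAlgClosure K Ω] in
private theorem pg_ev (A : Fin N → Polynomial (Polynomial Ω)) (β : Fin (d + 1) → Polynomial Ω)
    (c w : Ω) : (fun j => GM.ev₂ (c, w) (Sum.elim A (Sum.elim (fun r => Polynomial.C (β r))
      (fun t : Bool => if t then 1 else Polynomial.X)) j)) =
        Sum.elim (fun j => GM.ev₂ (c, w) (A j)) (Sum.elim (fun r => (β r).eval c)
          (fun t : Bool => if t then 1 else w)) := by
  funext j
  rcases j with j | r | t
  · rfl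
  · simp [GM.ev₂_eq, Polynomial.evalEval]
  · cases t
    · simp [GM.ev₂_eq, Polynomial.evalEval]
    · simp

omit [CharZero K] [IsAlgClosure K Ω] in
private theorem pg_prod (L : Ld K Ω) {σ : Type} (s : Finset σ) (a : σ → Ω)
    (h : ∀ k ∈ s, L.nm (a k) ≤ 1) : L.nm (∏ k ∈ s, a k) ≤ 1 := by
  classical
  induction s using Finset.induction_on with
  | empty =>
    rw [Finset.prod_empty]
    exact L.one.le
  | insert i s hi ih =>
    rw [Finset.prod_insert hi, L.mul]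
    exact mul_le_one₀ (h i (Finset.mem_insert_self i s)) (L.nonneg _)
      (ih fun k hk => h k (Finset.mem_insert_of_mem hk))

/-- The branches with the same data. -/
private theorem pg_P (hX : X.Ok L) {b b' : X.B} (hi : X.i b' = X.i b) (hγ : X.γ b' = X.γ b)
    (hw : X.w b' = X.w b) {h : Fin (d + 1) → Ω} (hh : ∀ r, L.nm (h r) ≤ 1) :
    X.P b' h = X.P b h := by
  have h1 := hX.cop b' hh
  have h2 := hX.cop b hh
  have hcc : X.cc b' h = X.cc b h := by
    funext r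
    rw [Bd.cc, Bd.cc, hγ]
  have h3 := hX.rt_root b' hh
  rw [hcc, hi] at h3
  have h4 : L.nm (X.rt L b' h - X.w b) < X.ε := by
    rw [← hw]
    by_contra h5
    rw [not_lt] at h5
    have h6 := (mul_le_mul_of_nonneg_right h5 hX.ε0.le).trans (hX.rt_le b' hh)
    have h7 : L.nm X.ϖ < X.ε * X.ε := by
      refine hX.sm.trans_le ?_
      rw [← pow_two]
      exact pow_le_pow_of_le_one hX.ε0.le hX.ε1.le (by norm_num)
    exact absurd h7 (not_lt.2 h6)
  have h5 := hX.rt_uniq b hh h3 h4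
  rw [hcc, h5, hi] at h1
  exact co_eq h1 h2

/-- The relation of the points and the extended coordinates. -/
private def pgC (L : Ld K Ω) (X : Bd f K Ω d m) (b : X.B)
    (ν : Fin (X.ψ (X.i b)).G.natDegree → X.B) (θ : Fin (X.ψ (X.i b)).G.natDegree → Ω)
    (p : (Xf f).pt Ω) (x : Fin N ⊕ (Fin (d + 1) ⊕ Bool) → Ω) : Prop :=
  Co p (fun j => x (Sum.inl j)) ∧ (∀ r, L.nm (x (Sum.inr (Sum.inl r))) ≤ 1) ∧
    ∃ k, L.nm (x (Sum.inr (Sum.inr false)) - θ k) < 1 ∧
      p = X.P (ν k) fun r => x (Sum.inr (Sum.inl r))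

/-- **The moving lemma in a branch.** Proof: `Bd.Ok.num`, `Num.chart`, `Pch.cht`; `GM.la_ty` with `τ = Fin N ⊕ (Fin (d + 1) ⊕ Bool)`, the coordinates `A_j`, `β r` (constant in `Y`), `Y`, `1`;
`Cx p x` : `Co p (x ∘ inl)` and `∃ k`, `p = P (ν k) (x ∘ inr ∘ inl)` and `nm (x (inr (inr false)) - θ k) < 1` and the `x (inr (inl r))` are integral. `ex`: `Pch.root`, `Pch.co`; `uq`: `co_eq`; `ac`: `co_act`, `Bd.Ok.act` (`θ k` is over `⊥`); `gp`: `Cht.gpm`;
`near`: `s ≠ 0`, so `nm (θ k - θ k') < 1`, `k = k'`; `w₀ = θ k₀` with `w (ν k₀) = w b` (so `P (ν k₀) h = P b h` by `cop`, `rt_uniq`, `co_eq`); `hw0`: `gq`, `q1`, `qθ`. -/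
theorem Bd.Ok.la (hX : X.Ok L) {b : X.B} (hbig : Big L (X.ψ (X.i b)).G.natDegree)
    (M : IntermediateField K Ω) [FiniteDimensional K M] {π : Ω} (hM : π ∈ M)
    (h0 : 0 < L.nm π) (h1 : L.nm π < 1)
    (hπ : ∀ x ∈ M, x ≠ 0 → ∃ k : ℤ, L.nm x = L.nm π ^ k) {β : Fin (d + 1) → Polynomial Ω}
    (hβ : Arc L M β) {q q' : Polynomial Ω} (hq : Dpo L M q) (hq' : Dpo L M q') {l u s : ℕ}
    (hs : (l = 1 ∧ u = 0 ∧ s ≠ 0) ∨
      (l.Prime ∧ L.nm (l : Ω) = L.nm π ^ u ∧ u < (l - 1) * s))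
    (hqq : ∀ i, L.nm (q.coeff i - q'.coeff i) ≤ L.nm π ^ (s + u)) :
    ∃ z ∈ Dsp L (Xf f) (nb L X.P (L.nm π ^ s)) M,
      rcy (fun c => X.P b fun i => (β i).eval c) q -
        rcy (fun c => X.P b fun i => (β i).eval c) q' - l • z ∈ (Xf f).ratEq M Ω := by
  classical
  obtain ⟨θ, hθ1, hθ2⟩ := hbig
  obtain ⟨ν, hν⟩ := hX.num b
  obtain ⟨ρ, qk, α, g, A, hP⟩ := hν.chart hX hβ hθ1
  obtain ⟨δ, hC, hδ⟩ := hP.cht hX hν hβ hθ2
  obtain ⟨k₀, hk₀⟩ := hν.w
  have hs0 : s ≠ 0 := by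
    rcases hs with h | h
    · exact h.2.2
    · intro h2
      have h3 := h.2.2
      rw [h2, mul_zero] at h3
      exact absurd h3 (Nat.not_lt_zero _)
  have hβ1 : ∀ c, L.nm c ≤ 1 → ∀ r, L.nm ((β r).eval c) ≤ 1 := fun c hc r =>
    L.eval_le (fun i => (hβ r i).2) hc
  have hbot : ∀ x ∈ (⊥ : IntermediateField K Ω), x ∈ M := fun x hx => (bot_le : ⊥ ≤ M) hx
  have hone : ∀ i j, (((1 : Polynomial (Polynomial Ω)).coeff i).coeff j) ∈ M ∧
      L.nm (((1 : Polynomial (Polynomial Ω)).coeff i).coeff j) ≤ 1 := by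
    intro i j
    rw [Polynomial.coeff_one]
    split_ifs
    · rw [Polynomial.coeff_one]
      split_ifs
      · exact ⟨M.one_mem, L.one.le⟩
      · exact ⟨M.zero_mem, by rw [L.zero]; exact zero_le_one⟩
    · rw [Polynomial.coeff_zero]
      exact ⟨M.zero_mem, by rw [L.zero]; exact zero_le_one⟩
  have hXX : ∀ i j, (((Polynomial.X : Polynomial (Polynomial Ω)).coeff i).coeff j) ∈ M ∧
      L.nm (((Polynomial.X : Polynomial (Polynomial Ω)).coeff i).coeff j) ≤ 1 := by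
    intro i j
    rw [Polynomial.coeff_X]
    split_ifs
    · rw [Polynomial.coeff_one]
      split_ifs
      · exact ⟨M.one_mem, L.one.le⟩
      · exact ⟨M.zero_mem, by rw [L.zero]; exact zero_le_one⟩
    · rw [Polynomial.coeff_zero]
      exact ⟨M.zero_mem, by rw [L.zero]; exact zero_le_one⟩
  refine GM.la_ty (L := L) (V := Xf f) (τ := Fin N ⊕ (Fin (d + 1) ⊕ Bool))
    (Cx := pgC L X b ν θ) (nr := nb L X.P (L.nm π ^ s)) (g := g) (δ := δ)
    (A := Sum.elim A (Sum.elim (fun r => Polynomial.C (β r))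
      (fun t : Bool => if t then 1 else Polynomial.X)))
    hC.mc hC.ig hC.iδ ?_ hC.bez ?_ ?_ ?_ ?_ hM h0 h1 hπ ?_ (hδ 0 (by rw [L.zero]; exact
      zero_le_one)) (w₀ := θ k₀) (hbot _ (hθ1 k₀).1) (hθ1 k₀).2 ?_ ?_ hq hq' hs hqq
  · -- the coefficients
    rintro (j | r | t) i e
    · exact hC.iA j i e
    · change ((Polynomial.C (β r)).coeff i).coeff e ∈ M ∧
        L.nm (((Polynomial.C (β r)).coeff i).coeff e) ≤ 1
      rw [Polynomial.coeff_C]
      split_ifs
      · exact hβ r e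
      · rw [Polynomial.coeff_zero]
        exact ⟨M.zero_mem, by rw [L.zero]; exact zero_le_one⟩
    · cases t
      · exact hXX i e
      · exact hone i e
  · -- the points
    rintro ⟨c, w⟩ hc hw hg hd
    refine ⟨⟨Sum.inr (Sum.inr true), ?_⟩, ?_⟩
    · change L.nm (GM.ev₂ (c, w) (1 : Polynomial (Polynomial Ω))) = 1
      rw [map_one]
      exact L.one
    · obtain ⟨k, hk⟩ : ∃ k, w = qk k c := hP.root (c := c) hc hg
      subst hk
      change L.nm c ≤ 1 at hc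
      refine ⟨X.P (ν k) fun r => (β r).eval c, ?_⟩
      rw [pg_ev]
      exact ⟨hP.co hX hν hβ hθ2 hc k, fun r => hβ1 c hc r, k, hP.qθ k c hc, rfl⟩
  · -- uniqueness
    intro p p' x h h'
    exact co_eq h.1 h'.1
  · -- the action
    rintro γ hγ p x ⟨h2, h3, k, h4, h5⟩
    have hfix : ∀ y ∈ M, γ y = y := fun y hy =>
      (IntermediateField.mem_fixingSubgroup_iff M γ).1 hγ y hy
    refine ⟨co_act γ h2, fun r => ?_, k, ?_, ?_⟩
    · rw [L.act]
      exact h3 r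
    · have e : γ (x (Sum.inr (Sum.inr false))) - θ k =
          γ (x (Sum.inr (Sum.inr false)) - θ k) := by
        rw [map_sub, hfix (θ k) (hbot _ (hθ1 k).1)]
      rw [e, L.act]
      exact h4
    · rw [h5]
      exact hX.act γ (ν k) h3
  · -- the curve
    intro Φ pt hΦ hpt
    refine hC.gpm hΦ fun P hPΦ => ?_
    exact (hpt P hPΦ).1
  · -- near points
    rintro p p' x x' ⟨-, h3, k, h4, h5⟩ ⟨-, h3', k', h4', h5'⟩ - - - - hd
    have hlt : L.nm π ^ s < 1 := pow_lt_one₀ h0.le h1 hs0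
    have hk : k = k' := by
      by_contra hne
      have e : θ k - θ k' = (x' (Sum.inr (Sum.inr false)) - θ k') -
          (x (Sum.inr (Sum.inr false)) - θ k) +
            (x (Sum.inr (Sum.inr false)) - x' (Sum.inr (Sum.inr false))) := by ring
      have h6 : L.nm (θ k - θ k') < 1 := by
        rw [e]
        refine (L.add _ _).trans_lt (max_lt ((L.sub _ _).trans_lt (max_lt h4' h4)) ?_)
        exact (hd _).trans_lt hlt
      rw [hθ2 k k' hne] at h6
      exact lt_irrefl _ h6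
    subst hk
    exact ⟨ν k, _, _, h3, h3', h5, h5', fun r => hd _⟩
  · -- the value at the centre
    have h2 := hP.gq 0 (by rw [L.zero]; exact zero_le_one)
    rw [GM.ev₂_eq, ← Polynomial.map_evalRingHom_eval, h2, Polynomial.eval_prod,
      ← Finset.mul_prod_erase _ _ (Finset.mem_univ k₀), L.mul]
    have h3 : L.nm ((Polynomial.X - Polynomial.C (qk k₀ 0)).eval (θ k₀)) < 1 := by
      rw [Polynomial.eval_sub, Polynomial.eval_X, Polynomial.eval_C]
      have h4 := hP.qθ k₀ 0 (by rw [L.zero]; exact zero_le_one)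
      rwa [L.sub_comm] at h4
    have h5 : L.nm (∏ k ∈ Finset.univ.erase k₀,
        (Polynomial.X - Polynomial.C (qk k 0)).eval (θ k₀)) ≤ 1 := by
      refine pg_prod L _ _ fun k _ => ?_
      rw [Polynomial.eval_sub, Polynomial.eval_X, Polynomial.eval_C]
      exact (L.sub _ _).trans (max_le (hθ1 k₀).2 (hP.q1 k 0 (by rw [L.zero]; exact zero_le_one)))
    exact (mul_le_of_le_one_right (L.nonneg _) h5).trans_lt h3
  · -- the branch
    intro c hc
    refine ⟨qk k₀ c, hP.qθ k₀ c hc.le, hP.at hc.le k₀, ?_⟩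
    rw [pg_ev]
    have hPb := pg_P hX (hν.i k₀) (hν.γ k₀) hk₀ (hβ1 c hc.le)
    refine ⟨?_, fun r => hβ1 c hc.le r, k₀, hP.qθ k₀ c hc.le, hPb.symm⟩
    have h2 := hP.co hX hν hβ hθ2 hc.le k₀
    rw [hPb] at h2
    exact h2

/-- **(2.1)** -/
theorem Bd.Ok.bs (hX : X.Ok L) (hbig : ∀ i, Big L (X.ψ i).G.natDegree) : Bs L X.P where
  act γ b h hh := hX.act γ b hh
  rat M _ t x y ht hn hx hy := hX.rat M x y ht hn hx hy
  la M _ π hM h0 h1 hπ β hβ b q q' hq hq' _ l u s hs hqq :=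
    hX.la (hbig _) M hM h0 h1 hπ hβ hq hq' hs hqq

end GX
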