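import Pool.Agent.Lib.MP_f80667_ag.Ep.W0
import Pool.Agent.Lib.MP_f80667_ag.Ep.Gf
import Pool.Agent.Lib.MP_f80667_ag.Ep.E
import Pool.Agent.Lib.MP_f80667_ag.Ep.Ea
import Pool.Agent.Lib.MP_f80667_ag.Lv.St

/-!
The end over the field of the branches (EP, sections 5 and 7).

* `vb_stb`: the levels from some level on satisfy the hypotheses of the stable range.
* `ep_end`: from some level on the cycles with the sum `0` are of every level, and the cycles of every level are divisible modulo rational equivalence.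
-/

open ZC BE PE CV IntermediateField

namespace GX

section stb

variable {F : Type} [Field F] {K Ω : Type} [Field K] [CharZero K] [Field Ω] [Algebra K Ω]
  [Algebra F K] [Algebra F Ω] [IsScalarTower F K Ω] [IsAlgClosure K Ω] {L : Ld K Ω} {V : Vr F}
  [Hf V] {σ B : Type} {P : B → (σ → Ω) → V.pt Ω} {π : Ω}

/-- **The stable range.** -/
theorem vb_stb (hB : Bs L P) (hπ : Uf L π) {e : ℕ} (he0 : e ≠ 0)
    (he : L.nm (L.p : Ω) = L.nm π ^ e) {n₁ : ℕ}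
    (hfin : ∀ n, n₁ ≤ n → (Vb L P π (n + 1)).relIndex (Vb L P π n) ≠ 0) {m : ℕ}
    (h1 : n₁ ≤ m) (h2 : e < m) :
    Stb L.p e 0 (V.ratEq K Ω) fun j => Vb L P π (m + j) where
  anti n := vb_anti hπ (by omega)
  le n := vb_rat _
  epos := Nat.pos_of_ne_zero he0
  dv n _ _ z hz := by
    have hp := L.pp.two_le
    refine vb_div hB hπ L.pp he (n := m + n) ?_ (by rwa [← add_assoc] at hz)
    calc e < m + n := by omega
      _ = 1 * (m + n) := (one_mul _).symm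
      _ ≤ (L.p - 1) * (m + n) := Nat.mul_le_mul_right _ (by omega)
  mp n _ _ w hw := by
    have hp := L.pp.two_le
    refine vb_mul hB hπ he (n := m + n) (by omega) (by omega) ?_ hw
    calc m + (n + e) ≤ 2 * (m + n) := by omega
      _ ≤ L.p * (m + n) := Nat.mul_le_mul_right _ hp
  dl n _ l hl hlp z hz := vb_div_l hB hπ hl hlp (n := m + n) (by omega) hz
  up n _ z hz := vb_mul_one hB hπ (n := m + n) (by omega) hz
  fin n _ := hfin (m + n) (by omega)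

/-- The cycles of every level are divisible. -/
theorem vb_divs (hB : Bs L P) (hπ : Uf L π) {e : ℕ} (he0 : e ≠ 0)
    (he : L.nm (L.p : Ω) = L.nm π ^ e) {n₁ : ℕ}
    (hfin : ∀ n, n₁ ≤ n → (Vb L P π (n + 1)).relIndex (Vb L P π n) ≠ 0)
    {z : V.pt Ω →₀ ℤ} (hz : ∀ j, z ∈ Vb L P π j) {q : ℕ} (hq : q ≠ 0) :
    ∃ w, (∀ j, w ∈ Vb L P π j) ∧ z - q • w ∈ V.ratEq K Ω := by
  obtain ⟨m, hm⟩ : ∃ m, m = max n₁ (e + 1) := ⟨_, rfl⟩
  have hstb := vb_stb hB hπ he0 he hfin (m := m) (by rw [hm]; exact le_max_left _ _)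
    (by rw [hm]; exact lt_of_lt_of_le (Nat.lt_succ_self e) (le_max_right _ _))
  obtain ⟨w, hw, hzw⟩ := hstb.div L.pp (fun j => hz (m + j)) hq
  exact ⟨w, fun j => vb_anti hπ (Nat.le_add_left j m) (hw j), hzw⟩

end stb

section alb

variable {F : Type} [Field F] {N N' k k' d m : ℕ} {ι ι' : Type} {f : ι → MvPolynomial (Fin N) F}
  {A : Gv F N' k' ι'} {M : Mf f A k}
  {K Ω : Type} [Field K] [CharZero K] [Field Ω] [Algebra K Ω] [Algebra F K] [Algebra F Ω]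
  [IsScalarTower F K Ω] [IsAlgClosure K Ω] {L : Ld K Ω} {σ B : Type}
  {P : B → (σ → Ω) → (Xf f).pt Ω} {π : Ω}

/-- **The end over the field of the branches.** -/
theorem ep_end (hB : Bs L P) (hπ : Uf L π) {e : ℕ} (he0 : e ≠ 0)
    (he : L.nm (L.p : Ω) = L.nm π ^ e) {n₁ : ℕ}
    (hfin : ∀ n, n₁ ≤ n → (Vb L P π (n + 1)).relIndex (Vb L P π n) ≠ 0)
    (hl : Lse M P L π e) : letI := A.G.grp Ω
    ∃ n₀ : ℕ, ∀ n, n₀ ≤ n → ∀ z ∈ Vb L P π n, M.S Ω z = 0 → ∀ j, z ∈ Vb L P π j := by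
  let _ : AddCommGroup ((Xf A.a).pt Ω) := A.G.grp Ω
  have hp : Fact L.p.Prime := ⟨L.pp⟩
  obtain ⟨n₂, hl⟩ := hl hp
  obtain ⟨m, hm1, hm2, hm3⟩ : ∃ m, n₁ ≤ m ∧ n₂ ≤ m ∧ e < m :=
    ⟨n₁ + n₂ + e + 1, by omega, by omega, by omega⟩
  have hstb := vb_stb hB hπ he0 he hfin hm1 hm3
  obtain ⟨r, -, -, h2⟩ := hstb.lam
  refine ⟨m + r, fun n hn z hz hS => ?_⟩
  have hzr : z ∈ Vb L P π (m + r) := vb_anti hπ hn hz
  by_contra h3
  push Not at h3
  obtain ⟨j, hj⟩ := h3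
  have h4 : ∃ i, z ∉ Vb L P π (m + i) := ⟨j, fun h => hj (vb_anti hπ (Nat.le_add_left j m) h)⟩
  obtain ⟨lam, l1, l2, l3⟩ := h2 z hzr h4
  refine l2 (hl (m + r) (by omega) lam l1 (fun k x hx => l3 k x ?_) z hzr hS)
  rwa [← add_assoc]

end alb

end GX
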