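import Pool.Agent.Lib.MP_f80667_ag.Ep.Lz
import Pool.Agent.Lib.MP_f80667_ag.Ep.W

/-!
The functionals and the end of the filtration (EP, section 7), for a system of branches.

* `Lste.lse`: the two forms of the theorem on the functionals.
* `bd_end`: a cycle of a high level with the sum `0` is in every level.
-/

open ZC BE PE CV IntermediateField

namespace GX

variable {F : Type} [Field F] {N N' k k' d m : ℕ} {ι ι' : Type} {f : ι → MvPolynomial (Fin N) F}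
  {A : Gv F N' k' ι'} {M : Mf f A k}
  {K Ω : Type} [Field K] [CharZero K] [Field Ω] [Algebra K Ω] [Algebra F K] [Algebra F Ω]
  [IsScalarTower F K Ω] [IsAlgClosure K Ω] {L : Ld K Ω} {X : Bd f K Ω d m} {π : Ω}

omit [CharZero K] [IsAlgClosure K Ω] in
theorem Lste.lse {e : ℕ} (h : Lste M L X π e) : Lse M X.P L π e := fun hp =>
  ⟨max e 1, fun r hr lam h1 h2 z hz hS =>
    h hp r ((le_max_left _ _).trans hr) ((le_max_right _ _).trans hr) lam h1 h2 z hz hS⟩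

/-- **The end of the filtration.** -/
theorem bd_end (hX : X.Ok L) (hP : Bs L X.P) (hf : Hm f) (hπ : Uf L π)
    (hcov : ∀ x, Zp (fo f Ω) x → ∃ i, MvPolynomial.eval (((X.ψ i).om Ω).uv x) ((X.ψ i).om Ω).D ≠ 0)
    (hG : X.Gl L) (hK : PL.DnK L) (hA : A.Ok) (hM : M.Ok) (hAl : M.Alb Ω) {e : ℕ}
    (he0 : e ≠ 0) (he : L.nm (L.p : Ω) = L.nm π ^ e) (hcr : Crl L X π e) {n₁ : ℕ}
    (hfin : ∀ n, n₁ ≤ n → (Vb L X.P π (n + 1)).relIndex (Vb L X.P π n) ≠ 0) :
    letI := A.G.grp Ω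
    ∃ n₀ : ℕ, ∀ n, n₀ ≤ n → ∀ z ∈ Vb L X.P π n, M.S Ω z = 0 → ∀ j, z ∈ Vb L X.P π j :=
  ep_end hP hπ he0 he hfin (lste_of hX hP hf hπ hcov hG hK hA hM hAl he hcr).lse

end GX
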