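import Pool.Agent.Lib.MP_f80667_ag.Ep.S

/-!
Projections with integral coefficients from projections over `F`, and the covering constant.
-/

open ZC BE PE CV IntermediateField

namespace GX

variable {F : Type} [Field F] {N d m : ℕ} {ι : Type} {f : ι → MvPolynomial (Fin N) F}
  {K Ω : Type} [Field K] [Field Ω] [Algebra K Ω] [Algebra F K] [Algebra F Ω]
  [IsScalarTower F K Ω] {L : Ld K Ω}

private theorem xc2_bd (P : MvPolynomial (Fin N) F) : ∃ c : ℝ, 0 ≤ c ∧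
    ∀ x : Fin N → Ω, (∀ j, L.nm (x j) ≤ 1) → L.nm (MvPolynomial.aeval x P) ≤ c := by
  induction P using MvPolynomial.induction_on with
  | C a => exact ⟨L.nm (algebraMap F Ω a), L.nonneg _, fun x _ => by rw [MvPolynomial.aeval_C]⟩
  | add p q hp hq =>
    obtain ⟨c1, h1, h1'⟩ := hp
    obtain ⟨c2, h2, h2'⟩ := hq
    refine ⟨max c1 c2, le_max_of_le_left h1, fun x hx => ?_⟩
    rw [map_add]
    exact (L.add _ _).trans (max_le_max (h1' x hx) (h2' x hx))
  | mul_X p n hp =>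
    obtain ⟨c, h, h'⟩ := hp
    refine ⟨c, h, fun x hx => ?_⟩
    rw [map_mul, MvPolynomial.aeval_X, L.mul]
    exact (mul_le_of_le_one_right (L.nonneg _) (hx n)).trans (h' x hx)

/-- **The covering constant.** Proof: `X_k ^ s = ∑ a_j f_j + ∑ b_i D_i (u_i)` at a primitive point: `1 ≤ C max nm (D_i (u_i (x)))`, `D_i (u_i x)` for `ψ₀` and for `ψ` differ by the factor
`t s ^ e`. -/
theorem exists_cov (hf : ∀ i, ∃ e, (f i).IsHomogeneous e) {ψ₀ : Fin m → Prj F N d}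
    (hD : ∀ i, ∃ e, (ψ₀ i).D.IsHomogeneous e) (hc : Cov f ψ₀) {ψ : Fin m → Prj K N d}
    (hs : ∀ i, ∃ s t : K, s ≠ 0 ∧ t ≠ 0 ∧
      (∀ r j, (ψ i).u r j = s * algebraMap F K ((ψ₀ i).u r j)) ∧
        (ψ i).D = MvPolynomial.C t * MvPolynomial.map (algebraMap F K) (ψ₀ i).D) :
    ∃ ε : ℝ, 0 < ε ∧ ∀ x : Fin N → Ω, (∀ j, L.nm (x j) ≤ 1) → (∃ k, L.nm (x k) = 1) →
      (∀ j, MvPolynomial.aeval x (f j) = 0) →
        ∃ i, ε ≤ L.nm (MvPolynomial.aeval ((ψ i).uv x) (ψ i).D) := by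
  obtain ⟨s₀, hs₀⟩ := hc
  have h1 : ∀ k : Fin N, ∃ b : Fin m → MvPolynomial (Fin N) F, ∀ x : Fin N → Ω,
      (∀ j, MvPolynomial.aeval x (f j) = 0) → x k ^ s₀ =
        ∑ i, MvPolynomial.aeval x (b i) *
          MvPolynomial.aeval ((ψ₀ i).uv x) (ψ₀ i).D := by
    intro k
    obtain ⟨y, hy, z, hz, hyz⟩ := Submodule.mem_sup.1 (hs₀ k)
    obtain ⟨b, hb⟩ := Ideal.mem_span_range_iff_exists_fun.1 hz
    refine ⟨b, fun x hx => ?_⟩
    have h2 := congrArg (MvPolynomial.aeval x) hyz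
    rw [map_add, span_zero hx hy, zero_add, map_pow, MvPolynomial.aeval_X] at h2
    rw [← h2, ← hb, map_sum]
    refine Finset.sum_congr rfl fun i _ => ?_
    rw [map_mul, cp_aeval, pe_C]
  choose b hb using h1
  choose c hc0 hc using fun (k : Fin N) (i : Fin m) => xc2_bd (L := L) (b k i)
  choose sv tv hsv htv hu hDt using hs
  choose e he using hD
  have hfac : ∀ (i : Fin m) (x : Fin N → Ω), MvPolynomial.aeval ((ψ i).uv x) (ψ i).D =
      algebraMap K Ω (tv i) * algebraMap K Ω (sv i) ^ e i *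
        MvPolynomial.aeval ((ψ₀ i).uv x) (ψ₀ i).D := by
    intro i x
    have h3 : (ψ i).uv x = algebraMap K Ω (sv i) • (ψ₀ i).uv x := by
      funext r
      simp only [Prj.uv, lv, Pi.smul_apply, smul_eq_mul, Finset.mul_sum]
      refine Finset.sum_congr rfl fun j _ => ?_
      rw [hu i r j, map_mul, ← IsScalarTower.algebraMap_apply F K Ω, mul_assoc]
    rw [hDt i, h3, map_mul, MvPolynomial.aeval_C, MvPolynomial.aeval_map_algebraMap,
      aeval_smul_hom (he i), mul_assoc]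
  have hw0 : ∀ i, 0 < L.nm (algebraMap K Ω (tv i)) * L.nm (algebraMap K Ω (sv i)) ^ e i := by
    intro i
    have h4 : algebraMap K Ω (tv i) ≠ 0 := fun h => htv i ((map_eq_zero _).1 h)
    have h5 : algebraMap K Ω (sv i) ≠ 0 := fun h => hsv i ((map_eq_zero _).1 h)
    exact mul_pos (L.pos h4) (pow_pos (L.pos h5) _)
  have hsumc : ∀ k i, c k i ≤ 1 + ∑ k, ∑ i, c k i := by
    intro k i
    have h6 : c k i ≤ ∑ i, c k i :=
      Finset.single_le_sum (fun i _ => hc0 k i) (Finset.mem_univ i)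
    have h7 : ∑ i, c k i ≤ ∑ k, ∑ i, c k i :=
      Finset.single_le_sum (f := fun k => ∑ i, c k i)
        (fun k _ => Finset.sum_nonneg fun i _ => hc0 k i) (Finset.mem_univ k)
    linarith
  have hM0 : 0 < 1 + ∑ k, ∑ i, c k i := by
    have h8 : 0 ≤ ∑ k, ∑ i, c k i :=
      Finset.sum_nonneg fun k _ => Finset.sum_nonneg fun i _ => hc0 k i
    linarith
  have hW0 : 0 < 1 + ∑ i, (L.nm (algebraMap K Ω (tv i)) *
      L.nm (algebraMap K Ω (sv i)) ^ e i)⁻¹ := by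
    have h8 : 0 ≤ ∑ i, (L.nm (algebraMap K Ω (tv i)) *
        L.nm (algebraMap K Ω (sv i)) ^ e i)⁻¹ :=
      Finset.sum_nonneg fun i _ => (inv_pos.2 (hw0 i)).le
    linarith
  generalize hMe : 1 + ∑ k, ∑ i, c k i = M at hsumc hM0
  generalize hWe : 1 + ∑ i, (L.nm (algebraMap K Ω (tv i)) *
      L.nm (algebraMap K Ω (sv i)) ^ e i)⁻¹ = W at hW0
  refine ⟨(2 * M * W)⁻¹, inv_pos.2 (by positivity), fun x hx ⟨k, hk⟩ hf0 => ?_⟩
  by_contra hne
  push Not at hne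
  have h9 : L.nm (x k ^ s₀) ≤ 1 / 2 := by
    rw [hb k x hf0]
    refine L.sum_le _ _ (by norm_num) fun i _ => ?_
    have h10 := hne i
    rw [hfac i x, L.mul, L.mul, L.pow] at h10
    have h11 : (L.nm (algebraMap K Ω (tv i)) * L.nm (algebraMap K Ω (sv i)) ^ e i)⁻¹ ≤ W := by
      have h12 : (L.nm (algebraMap K Ω (tv i)) * L.nm (algebraMap K Ω (sv i)) ^ e i)⁻¹ ≤
          ∑ i, (L.nm (algebraMap K Ω (tv i)) * L.nm (algebraMap K Ω (sv i)) ^ e i)⁻¹ :=
        Finset.single_le_sum (f := fun i => (L.nm (algebraMap K Ω (tv i)) *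
          L.nm (algebraMap K Ω (sv i)) ^ e i)⁻¹)
          (fun i _ => (inv_pos.2 (hw0 i)).le) (Finset.mem_univ i)
      linarith
    have h13 : 1 ≤ W * (L.nm (algebraMap K Ω (tv i)) *
        L.nm (algebraMap K Ω (sv i)) ^ e i) := by
      have h14 := mul_le_mul_of_nonneg_right h11 (hw0 i).le
      rwa [inv_mul_cancel₀ (hw0 i).ne'] at h14
    have h15 : 0 ≤ L.nm (MvPolynomial.aeval ((ψ₀ i).uv x) (ψ₀ i).D) := L.nonneg _
    have h16 : L.nm (MvPolynomial.aeval ((ψ₀ i).uv x) (ψ₀ i).D) ≤ (2 * M)⁻¹ := by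
      calc L.nm (MvPolynomial.aeval ((ψ₀ i).uv x) (ψ₀ i).D)
          ≤ (W * (L.nm (algebraMap K Ω (tv i)) * L.nm (algebraMap K Ω (sv i)) ^ e i)) *
            L.nm (MvPolynomial.aeval ((ψ₀ i).uv x) (ψ₀ i).D) :=
            le_mul_of_one_le_left h15 h13
        _ = W * (L.nm (algebraMap K Ω (tv i)) * L.nm (algebraMap K Ω (sv i)) ^ e i *
            L.nm (MvPolynomial.aeval ((ψ₀ i).uv x) (ψ₀ i).D)) := by ring
        _ ≤ W * (2 * M * W)⁻¹ := mul_le_mul_of_nonneg_left h10.le hW0.le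
        _ = (2 * M)⁻¹ := by field_simp
    rw [L.mul]
    calc L.nm (MvPolynomial.aeval x (b k i)) *
          L.nm (MvPolynomial.aeval ((ψ₀ i).uv x) (ψ₀ i).D) ≤ M * (2 * M)⁻¹ :=
          mul_le_mul ((hc k i x hx).trans (hsumc k i)) h16 h15 hM0.le
      _ = 1 / 2 := by field_simp
  rw [L.pow, hk, one_pow] at h9
  norm_num at h9

end GX
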