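import Pool.Agent.Lib.MP_f80667_ag.Ep.X

/-!
A finite Galois extension with a large residue field; extension of the base field for `Pk`.
-/

open ZC BE PE CV IntermediateField

namespace GX

variable {F : Type} [Field F] {N d m : ℕ} {ι : Type} {f : ι → MvPolynomial (Fin N) F}
  {K Ω : Type} [Field K] [CharZero K] [Field Ω] [Algebra K Ω] [Algebra F K] [Algebra F Ω]
  [IsScalarTower F K Ω] [IsAlgClosure K Ω] (L : Ld K Ω)

/-- Proof: the normal closure of `K (S, ζ)`, `ζ` a primitive root of unity of order `p ^ k - 1` with `p ^ k > n` (or roots of unity of an order prime to `p` and `> n`: their differences have norm `1`: `∏ (1 - ζ ^ i) = N`). -/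
theorem exists_gal {S : Set Ω} (hS : S.Finite) (n : ℕ) :
    ∃ E : IntermediateField K Ω, FiniteDimensional K E ∧ IsGalois K E ∧ (∀ x ∈ S, x ∈ E) ∧
      ∃ θ : Fin n → Ω, (∀ k, θ k ∈ E ∧ L.nm (θ k) ≤ 1) ∧
        ∀ k l, k ≠ l → L.nm (θ k - θ l) = 1 := by
  classical
  have hΩ : IsAlgClosed Ω := IsAlgClosure.isAlgClosed K
  have halg : Algebra.IsAlgebraic K Ω := IsAlgClosure.isAlgebraic
  have hκ : IsAlgClosed L.κ := L.κ_closed
  have hinf : Infinite L.κ := inferInstance
  have hnor : Normal K Ω := inferInstance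
  let e : ℕ ↪ L.κ := Infinite.natEmbedding L.κ
  choose θ hθ using fun k : Fin n => L.hv_surj (e k)
  have hfin : (S ∪ Set.range θ).Finite := hS.union (Set.finite_range θ)
  have hfin' : Finite (S ∪ Set.range θ : Set Ω) := hfin.to_subtype
  let E0 : IntermediateField K Ω := IntermediateField.adjoin K (S ∪ Set.range θ)
  have hE0 : FiniteDimensional K E0 :=
    IntermediateField.finiteDimensional_adjoin fun x _ => (halg.isAlgebraic x).isIntegral
  have hle : E0 ≤ normalClosure K E0 Ω := IntermediateField.le_normalClosure E0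
  have hfd : FiniteDimensional K (normalClosure K E0 Ω) :=
    normalClosure.is_finiteDimensional K E0 Ω
  have hn : Normal K (normalClosure K E0 Ω) := normalClosure.normal K E0 Ω
  have hsep : Algebra.IsSeparable K (normalClosure K E0 Ω) := inferInstance
  refine ⟨normalClosure K E0 Ω, hfd, ⟨⟩, fun x hx => ?_, θ, fun k => ⟨?_, ?_⟩, fun k l hkl => ?_⟩
  · exact hle (IntermediateField.subset_adjoin K _ (Or.inl hx))
  · exact hle (IntermediateField.subset_adjoin K _ (Or.inr ⟨k, rfl⟩))
  · exact L.hv_int (hθ k)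
  · refine (L.hv_ne ((hθ k).sub (hθ l))).1 (sub_ne_zero.2 fun h => hkl ?_)
    exact Fin.ext (e.injective h)

end GX
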