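import Pool.Agent.Lib.MP_f80667_ag.Ep.Xe1
import Pool.Agent.Lib.MP_f80667_ag.Ep.Xc2
import Pool.Agent.Lib.MP_f80667_ag.Ep.Xd
import Pool.Agent.Lib.MP_f80667_ag.Pe.Bs

/-!
The existence of the system of branches.
-/

open ZC BE PE CV IntermediateField

namespace GX

variable {F : Type} [Field F] {N d m : ℕ} {ι : Type} {f : ι → MvPolynomial (Fin N) F}

/-- The projections with `D ≠ 0` cover the variety. -/
theorem xf_drop {ψ : Fin m → Prj F N d} (h : ∀ i, (ψ i).Ok f) (hc : Cov f ψ) :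
    ∃ (m' : ℕ) (ψ' : Fin m' → Prj F N d), (∀ i, (ψ' i).Ok f) ∧ Cov f ψ' ∧
      ∀ i, (ψ' i).D ≠ 0 := by
  classical
  obtain ⟨m', ⟨e⟩⟩ := Finite.exists_equiv_fin {i : Fin m // (ψ i).D ≠ 0}
  refine ⟨m', fun j => ψ (e.symm j), fun j => h _, ?_, fun j => (e.symm j).2⟩
  obtain ⟨s, hs⟩ := hc
  refine ⟨s, fun k => ?_⟩
  refine (sup_le_sup_left ?_ (Ideal.span (Set.range f))) (hs k)
  rw [Ideal.span_le]
  rintro _ ⟨i, rfl⟩
  by_cases hi : (ψ i).D = 0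
  · change (ψ i).cp (Polynomial.C (ψ i).D) ∈ _
    rw [hi, Polynomial.C_0, Prj.cp, map_zero]
    exact Ideal.zero_mem _
  · refine Ideal.subset_span ⟨e ⟨i, hi⟩, ?_⟩
    change (ψ (e.symm (e ⟨i, hi⟩))).cp (Polynomial.C (ψ (e.symm (e ⟨i, hi⟩))).D) = _
    rw [e.symm_apply_apply]

variable {K Ω : Type} [Field K] [CharZero K] [Field Ω] [Algebra K Ω]
  [Algebra F K] [Algebra F Ω] [IsScalarTower F K Ω] [IsAlgClosure K Ω] (L : Ld K Ω)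

/-- **The system of branches.** Proof: `Nsg.exists_prj`, the projections with `D ≠ 0` (the others do not contribute to `Cov`); `exists_pk`, `exists_cov`, `exists_cen`, `exists_gal`, `exists_bsL`, `exists_bxe`. -/
theorem exists_bg [CharZero F] (hf : Nsg f d) :
    ∃ (m : ℕ) (ψ : Fin m → Prj K N d), ∀ n, ∃ (E : IntermediateField K Ω) (L' : Ld E Ω)
      (X : Bd f E Ω d m), Bg f L ψ E L' X ∧ Big L' n := by
  classical
  obtain ⟨m₀, φ₀, h₀, hc₀⟩ := hf.exists_prj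
  obtain ⟨m, ψ₀, h, hcv, hD₀⟩ := xf_drop h₀ hc₀
  choose ψ hψ hs using fun i => exists_pk (L := L) hf.hom (h i)
  obtain ⟨ε₁, hε₁, hcov⟩ := exists_cov (L := L) hf.hom (fun i => by
    obtain ⟨e, -, he⟩ := (h i).homD
    exact ⟨e, he⟩) hcv hs
  choose c hc hc1 hcD hg using exists_cen (L := L) hf h hD₀ hψ hs
  have h1 : ∀ i : Fin m, {w : Ω | pe (c i) w (ψ i).G = 0}.Finite := fun i =>
    xe_roots (hψ i) (c i)
  have hS : (⋃ i : Fin m, ⋃ w ∈ {w : Ω | pe (c i) w (ψ i).G = 0},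
      Set.range (((ψ i).om Ω).pt (c i) w) ∪ ⋃ i' : Fin m,
        {w' : Ω | pe ((ψ i').uv (((ψ i).om Ω).pt (c i) w)) w' (ψ i').G = 0}).Finite := by
    refine Set.finite_iUnion fun i => (h1 i).biUnion fun w _ => ?_
    exact (Set.finite_range _).union (Set.finite_iUnion fun i' => xe_roots (hψ i') _)
  refine ⟨m, ψ, fun n => ?_⟩
  obtain ⟨E, hfd, hgal, hE, θ, hθ, hθ'⟩ := exists_gal L hS n
  obtain ⟨L', hp, hnm⟩ := L.exists_bsL E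
  have hE1 : ∀ i w, pe (c i) w (ψ i).G = 0 → ∀ j, ((ψ i).om Ω).pt (c i) w j ∈ E := fun i w hw j =>
    hE _ (Set.mem_iUnion.2 ⟨i, Set.mem_iUnion₂.2 ⟨w, hw, Or.inl ⟨j, rfl⟩⟩⟩)
  have hE2 : ∀ i w, pe (c i) w (ψ i).G = 0 → ∀ i' w',
      pe ((ψ i').uv (((ψ i).om Ω).pt (c i) w)) w' (ψ i').G = 0 → w' ∈ E := fun i w hw i' w' hw' =>
    hE _ (Set.mem_iUnion.2 ⟨i, Set.mem_iUnion₂.2 ⟨w, hw, Or.inr (Set.mem_iUnion.2 ⟨i', hw'⟩)⟩⟩)
  obtain ⟨X, hX⟩ := exists_bxe hψ hε₁ hcov hc hc1 hcD hg hfd hgal hE1 hE2 hp hnm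
  refine ⟨E, L', X, hX, θ, fun k => ⟨?_, ?_⟩, fun k l hkl => ?_⟩
  · rw [IntermediateField.mem_bot]
    exact ⟨⟨θ k, (hθ k).1⟩, rfl⟩
  · rw [hnm]
    exact (hθ k).2
  · rw [hnm]
    exact hθ' k l hkl

end GX
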