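import Pool.Agent.Lib.MP_f80667_ag.Ep.Yd
import Pool.Agent.Lib.MP_f80667_ag.Cv.NfD
import Pool.Agent.Lib.MP_f80667_ag.Pe.Bs

/-! Change of the base field: traces, invariance, conjugation. -/

open ZC BE PE CV IntermediateField

namespace GX

variable {F : Type} [Field F] {K Ω : Type} [Field K] [CharZero K] [Field Ω] [Algebra K Ω]
  [Algebra F K] [Algebra F Ω] [IsScalarTower F K Ω] [IsAlgClosure K Ω] {V : Vr F} [Hf V]
  {E : IntermediateField K Ω}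

variable (E) in
omit [CharZero K] in
/-- `Ω` is an algebraic closure of `E`. -/
theorem yd_ac : IsAlgClosure E Ω := by
  have halg : Algebra.IsAlgebraic K Ω := IsAlgClosure.isAlgebraic
  exact ⟨IsAlgClosure.isAlgClosed K, Algebra.IsAlgebraic.tower_top (K := K) E⟩

/-- The points over `N`. -/
theorem yd_fp {N : IntermediateField E Ω} {x : V.pt Ω} :
    Fp V N x ↔ Fp V (N.restrictScalars K) x := by
  constructor
  · intro h γ hγ
    obtain ⟨σ, hσ, rfl⟩ := (bs_fix E N γ).1 hγ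
    exact h σ hσ
  · intro h σ hσ
    exact h (σ.restrictScalars K) ((bs_fix E N _).2 ⟨σ, hσ, rfl⟩)

/-- The cycles over `N`. -/
theorem yd_fx {N : IntermediateField E Ω} {z : V.pt Ω →₀ ℤ} :
    Fx N z ↔ Fx (N.restrictScalars K) z := by
  constructor
  · intro h γ hγ
    obtain ⟨σ, hσ, rfl⟩ := (bs_fix E N γ).1 hγ
    exact h σ hσ
  · intro h σ hσ
    exact h (σ.restrictScalars K) ((bs_fix E N _).2 ⟨σ, hσ, rfl⟩)

/-- The cycles over `E`. -/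
theorem yd_cyc {z : V.pt Ω →₀ ℤ} : z ∈ V.cyc E Ω ↔ Fx E z := by
  rw [GM.cyc_iff, yd_fx, IntermediateField.restrictScalars_bot_eq_self]

/-- The trace to `E`. -/
theorem yd_nm [FiniteDimensional K E] {N : IntermediateField E Ω} [FiniteDimensional E N]
    {z : V.pt Ω →₀ ℤ} (hz : Fx N z) :
    Nm (⊥ : IntermediateField E Ω) N z = Nm E (N.restrictScalars K) z := by
  have h := bs_nm (K := K) (Ω := Ω) (A := V.pt Ω →₀ ℤ) E (φ := AddEquiv.refl (V.pt Ω →₀ ℤ))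
    (fun σ a => rfl) (N := ⊥) (N' := N) bot_le (P := z) (yd_fx.1 hz)
  rw [IntermediateField.restrictScalars_bot_eq_self] at h
  exact h

/-- The trace to `K`. -/
theorem yd_tr [FiniteDimensional K E] {N : IntermediateField E Ω} [FiniteDimensional E N]
    {z : V.pt Ω →₀ ℤ} (hz : Fx N z) :
    Nm (⊥ : IntermediateField K Ω) E (Nm (⊥ : IntermediateField E Ω) N z) =
      Nm (⊥ : IntermediateField K Ω) (N.restrictScalars K) z := by
  have hfd := bs_fin E N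
  have hle : E ≤ N.restrictScalars K := fun x hx => N.algebraMap_mem ⟨x, hx⟩
  rw [yd_nm hz, ← nm_tr bot_le hle (yd_fx.1 hz)]

section conj

variable {M N : IntermediateField K Ω}

omit [CharZero K] [IsAlgClosure K Ω] in
theorem yd_conj (γ δ : Ω ≃ₐ[K] Ω) :
    δ ∈ (M.map (γ : Ω →ₐ[K] Ω)).fixingSubgroup ↔ γ⁻¹ * δ * γ ∈ M.fixingSubgroup := by
  rw [IntermediateField.mem_fixingSubgroup_iff, IntermediateField.mem_fixingSubgroup_iff]
  constructor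
  · intro h x hx
    have h1 : δ (γ x) = γ x := h (γ x) ⟨x, hx, rfl⟩
    rw [AlgEquiv.mul_apply, AlgEquiv.mul_apply, h1, ← AlgEquiv.mul_apply, inv_mul_cancel,
      AlgEquiv.one_apply]
  · rintro h _ ⟨x, hx, rfl⟩
    have h1 := congrArg γ (h x hx)
    rw [AlgEquiv.mul_apply, AlgEquiv.mul_apply, ← AlgEquiv.mul_apply γ γ⁻¹, mul_inv_cancel,
      AlgEquiv.one_apply] at h1
    exact h1

/-- **The trace of a conjugate.** -/
theorem nm_gal {A : Type} [AddCommGroup A] [DistribMulAction (Ω ≃ₐ[K] Ω) A]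
    (γ : Ω ≃ₐ[K] Ω) (h : M ≤ N) [FiniteDimensional K N] {P : A} (hP : Fx N P) :
    Nm (M.map (γ : Ω →ₐ[K] Ω)) (N.map (γ : Ω →ₐ[K] Ω)) (γ • P) = γ • Nm M N P := by
  classical
  have hfd : FiniteDimensional K (N.map (γ : Ω →ₐ[K] Ω)) :=
    LinearEquiv.finiteDimensional (N.equivMap (γ : Ω →ₐ[K] Ω)).toLinearEquiv
  obtain ⟨s, -, h₁, h₂, h₃⟩ := nm_rep h
  have hinj : Function.Injective fun δ : Ω ≃ₐ[K] Ω => γ * δ * γ⁻¹ := by
    intro a b hab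
    exact mul_left_cancel (mul_right_cancel hab)
  have hPf : Fx (N.map (γ : Ω →ₐ[K] Ω)) (γ • P) := by
    intro δ hδ
    have h4 := hP _ ((yd_conj γ δ).1 hδ)
    rw [mul_smul, mul_smul, inv_smul_eq_iff] at h4
    exact h4
  rw [h₃, nm_eq (IntermediateField.map_mono _ h) (s.map ⟨_, hinj⟩) ?_ ?_ hPf, Finset.sum_map,
    Finset.smul_sum]
  · refine Finset.sum_congr rfl fun δ _ => ?_
    change (γ * δ * γ⁻¹) • γ • P = γ • δ • P
    rw [mul_smul, inv_smul_smul, mul_smul]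
  · intro δ hδ
    obtain ⟨ε, hε, rfl⟩ := Finset.mem_map.1 hδ
    rw [yd_conj]
    have e : γ⁻¹ * ((⟨_, hinj⟩ : (Ω ≃ₐ[K] Ω) ↪ (Ω ≃ₐ[K] Ω)) ε) * γ = ε := by
      change γ⁻¹ * (γ * ε * γ⁻¹) * γ = ε
      group
    rw [e]
    exact h₁ ε hε
  · intro δ hδ
    rw [yd_conj] at hδ
    obtain ⟨ε, ⟨hε, h4⟩, huniq⟩ := h₂ _ hδ
    refine ⟨γ * ε * γ⁻¹, ⟨Finset.mem_map.2 ⟨ε, hε, rfl⟩, ?_⟩, ?_⟩
    · rw [yd_conj]
      have e : γ⁻¹ * ((γ * ε * γ⁻¹)⁻¹ * δ) * γ = ε⁻¹ * (γ⁻¹ * δ * γ) := by group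
      rw [e]
      exact h4
    · rintro _ ⟨hm, hm'⟩
      obtain ⟨ε', hε', rfl⟩ := Finset.mem_map.1 hm
      rw [yd_conj] at hm'
      have e : γ⁻¹ * (((⟨_, hinj⟩ : (Ω ≃ₐ[K] Ω) ↪ (Ω ≃ₐ[K] Ω)) ε')⁻¹ * δ) * γ =
          ε'⁻¹ * (γ⁻¹ * δ * γ) := by
        change γ⁻¹ * ((γ * ε' * γ⁻¹)⁻¹ * δ) * γ = _
        group
      rw [e] at hm'
      rw [huniq ε' ⟨hε', hm'⟩]
      rfl

end conj

end GX
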