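import Pool.Agent.Lib.MP_f80667_ag.Ep.Y
import Pool.Agent.Lib.MP_f80667_ag.Ep.Sd
import Pool.Agent.Lib.MP_f80667_ag.Ep.Yd1

/-! The trace to `K` of a displacement in the branches is a displacement over `K`. -/

open ZC BE PE CV IntermediateField

namespace GX

variable {F : Type} [Field F] {N d m : ℕ} {ι : Type} {f : ι → MvPolynomial (Fin N) F}
  {K Ω : Type} [Field K] [CharZero K] [Field Ω] [Algebra K Ω] [Algebra F K] [Algebra F Ω]
  [IsScalarTower F K Ω] [IsAlgClosure K Ω] {L : Ld K Ω} {ψ : Fin m → Prj K N d}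
  {E : IntermediateField K Ω} {L' : Ld E Ω} {X : Bd f E Ω d m} {π : Ω}

omit [CharZero K] [IsAlgClosure K Ω] [Algebra F K] [IsScalarTower F K Ω] in
theorem nrh_bs (h : ∀ x, L'.nm x = L.nm x) {t : ℝ} {x y : (Xf f).pt Ω} (hn : Nrh f L' t x y) :
    Nrh f L t x y := by
  obtain ⟨x, x', h1, h2, h3, h4, ⟨i, h5⟩, ⟨i', h6⟩, h7⟩ := hn
  refine ⟨x, x', h1, h2, fun i => ?_, fun i => ?_, ⟨i, ?_⟩, ⟨i', ?_⟩, fun i => ?_⟩
  · rw [← h]
    exact h3 i
  · rw [← h]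
    exact h4 i
  · rw [← h]
    exact h5
  · rw [← h]
    exact h6
  · rw [← h]
    exact h7 i

/-- The traces of displacements in the branches. -/
theorem Bg.dsp_dcy (hX : Bg f L ψ E L' X) (hB : Bs L' X.P) {t t' : ℝ} (ht0 : 0 ≤ t)
    (ht1 : t ≤ 1) (htt : t ≤ t') {z : (Xf f).pt Ω →₀ ℤ}
    (hz : z ∈ Dsp L' (Xf f) (nb L' X.P t) (⊥ : IntermediateField E Ω)) :
    Nm (⊥ : IntermediateField K Ω) E z ∈ Dcy L f t' := by
  have hfd := hX.fd
  have hac : IsAlgClosure E Ω := yd_ac E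
  rw [dsp_gen] at hz
  rw [← GM.nmh_apply]
  induction hz using AddSubgroup.closure_induction with
  | mem z hz =>
    obtain ⟨M', y, y', he, h4, h5, h6, rfl⟩ := hz
    have hfd' : FiniteDimensional E M' := he.fd
    obtain ⟨b, h, h', hh, hh', rfl, rfl, hd⟩ := hB.rat M' _ y y' ht0 h6 h4 h5
    rw [GM.nmh_apply, yd_tr ((fx_single h4 1).sub (fx_single h5 1))]
    refine AddSubgroup.subset_closure ⟨M'.restrictScalars K, bs_fin E M', X.P b h', X.P b h,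
      yd_fp.1 h5, yd_fp.1 h4, ?_, rfl⟩
    exact nrh_mono htt (nrh_bs hX.nm (hX.ok.nrh b (fun r => (hh' r).2) (fun r => (hh r).2) ht1 hd))
  | zero =>
    rw [map_zero]
    exact zero_mem _
  | add a b _ _ ha hb =>
    rw [map_add]
    exact add_mem ha hb
  | neg a _ ha =>
    rw [map_neg]
    exact neg_mem ha

/-- **From the branches to `K`.** -/
theorem Bg.vd (hX : Bg f L ψ E L' X) (hB : Bs L' X.P) (hπ : Uf L' π) (s : ℕ) :
    ∃ n, ∀ v ∈ Vb L' X.P π n, v ∈ (Xf f).cyc E Ω → ∃ z ∈ Dcy L f (L.nm (L.p : Ω) ^ s),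
      Nm (⊥ : IntermediateField K Ω) E v - z ∈ (Xf f).ratEq K Ω := by
  have hfd := hX.fd
  have hac : IsAlgClosure E Ω := yd_ac E
  have hc0 : CharZero Ω := charZero_of_injective_algebraMap (algebraMap K Ω).injective
  obtain ⟨n, hn⟩ : ∃ n : ℕ, L'.nm π ^ n < L.nm (L.p : Ω) ^ s :=
    exists_pow_lt_of_lt_one (pow_pos (L.pos (Nat.cast_ne_zero.2 L.pp.ne_zero)) s) hπ.lt
  refine ⟨n, fun v hv hc => ?_⟩
  obtain ⟨d, hd, hdc, hr⟩ := vb_dec hv
  refine ⟨Nm (⊥ : IntermediateField K Ω) E d, hX.dsp_dcy hB (pow_nonneg hπ.pos.le n)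
    (pow_le_one₀ hπ.pos.le hπ.lt.le) hn.le hd, ?_⟩
  have h1 := nm_ratEq (K := K) (M := E) hr (yd_cyc.1 (sub_mem hc hdc))
  have h2 := (GM.nmh (Xf f) E).map_sub v d
  rw [GM.nmh_apply, GM.nmh_apply, GM.nmh_apply] at h2
  rwa [h2] at h1

end GX
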