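import Pool.Agent.Lib.MP_f80667_ag.Ep.Mv
import Pool.Agent.Lib.MP_f80667_ag.Ep.Fc
import Pool.Agent.Lib.MP_f80667_ag.Ep.Yd1

/-! Displacements over `K` are traces of cycles of a high level over `E`. -/

open ZC BE PE CV IntermediateField

namespace GX

variable {F : Type} [Field F] [CharZero F] {N d m : ℕ} {ι : Type}
  {f : ι → MvPolynomial (Fin N) F} {K Ω : Type} [Field K] [CharZero K] [Field Ω] [Algebra K Ω]
  [Algebra F K] [Algebra F Ω] [IsScalarTower F K Ω] [IsAlgClosure K Ω] {L : Ld K Ω}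
  {ψ : Fin m → Prj K N d} {E : IntermediateField K Ω} {L' : Ld E Ω} {X : Bd f E Ω d m} {π : Ω}

/-- **From `K` to the branches.** -/
theorem Bg.dv (hX : Bg f L ψ E L' X) (hB : Bs L' X.P) (hπ : Uf L' π) (n : ℕ) :
    ∃ s₀, ∀ s, s₀ ≤ s → ∀ z ∈ Dcy L f (L.nm (L.p : Ω) ^ s), ∃ v ∈ Vb L' X.P π n,
      v ∈ (Xf f).cyc E Ω ∧ z - Nm (⊥ : IntermediateField K Ω) E v ∈ (Xf f).ratEq K Ω := by
  have hac : IsAlgClosure E Ω := yd_ac E
  obtain ⟨C, hC⟩ := hX.move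
  refine ⟨C + n + 2, fun s hs z hz => ?_⟩
  obtain ⟨v, hv, h1⟩ := hC s (by omega) z hz
  have h2 : Ub L' X.P (L.nm (L.p : Ω) ^ (s - C)) ≤ Vb L' X.P π n ⊓ (Xf f).cyc E Ω := by
    unfold Ub
    rw [AddSubgroup.closure_le]
    rintro _ ⟨M, hM, b, h, h', hh, hh', hd, rfl⟩
    refine ⟨vb_anti hπ (by omega : n ≤ s - C - 1) (dv_all hB hπ hh hh' (by omega) fun i => ?_), ?_⟩
    · rw [hX.p, hX.nm (L.p : Ω)]
      exact hd i
    · exact GM.cyc_iff.2 (nm_fx bot_le ((fx_single (hB.fp hh') 1).sub (fx_single (hB.fp hh) 1)))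
  exact ⟨v, (h2 hv).1, (h2 hv).2, h1⟩

end GX
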