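import Pool.Agent.Lib.MP_f80667_ag.Ep.Y
import Pool.Agent.Lib.MP_f80667_ag.Ep.Sd
import Pool.Agent.Lib.MP_f80667_ag.Ep.Yd1
import Pool.Agent.Lib.MP_f80667_ag.Lv.De

/-! The displacements in the branches over `E` are stable under the Galois group of `K`. -/

open ZC BE PE CV IntermediateField

namespace GX

section fld

variable {K Ω : Type} [Field K] [Field Ω] [Algebra K Ω] [IsAlgClosure K Ω]
  {E : IntermediateField K Ω}

/-- The field `E` is mapped to itself. -/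
private theorem yg_E (hg : IsGalois K E) (γ : Ω ≃ₐ[K] Ω) : E.map (γ : Ω →ₐ[K] Ω) = E := by
  have hn : Normal K E := hg.to_normal
  have hn' : Normal K Ω := IsAlgClosure.normal K Ω
  exact (IntermediateField.normal_iff_forall_map_eq'.1 hn) γ

/-- The conjugate field. -/
private theorem yg_le (hg : IsGalois K E) (γ : Ω ≃ₐ[K] Ω) (M : IntermediateField E Ω) :
    E ≤ (M.restrictScalars K).map (γ : Ω →ₐ[K] Ω) := by
  conv_lhs => rw [← yg_E hg γ]
  exact IntermediateField.map_mono _ fun x hx => M.algebraMap_mem ⟨x, hx⟩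

/-- The unramified extensions of `E` are mapped to themselves. -/
private theorem yg_ur (hg : IsGalois K E) (L' : Ld E Ω) (γ : Ω ≃ₐ[K] Ω) (n : ℕ) :
    ((L'.Ur ⊥ n).restrictScalars K).map (γ : Ω →ₐ[K] Ω) ≤ (L'.Ur ⊥ n).restrictScalars K := by
  have h1 : (L'.Ur ⊥ n).restrictScalars K = E ⊔ adjoin K (L'.Te n) := by
    rw [Ld.Ur, bot_sup_eq, IntermediateField.restrictScalars_adjoin_eq_sup]
  rw [h1, IntermediateField.map_sup, IntermediateField.adjoin_map, yg_E hg γ]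
  refine sup_le_sup le_rfl (IntermediateField.adjoin.mono K _ _ ?_)
  rintro _ ⟨x, hx, rfl⟩
  change γ x ^ L'.p ^ n = γ x
  rw [← map_pow, show x ^ L'.p ^ n = x from hx]

end fld

section fx

variable {F : Type} [Field F] {K Ω : Type} [Field K] [CharZero K] [Field Ω] [Algebra K Ω]
  [Algebra F K] [Algebra F Ω] [IsScalarTower F K Ω] [IsAlgClosure K Ω] {V : Vr F} [Hf V]

omit [CharZero K] [IsAlgClosure K Ω] in
private theorem yg_fp {M : IntermediateField K Ω} {x : V.pt Ω} (hx : Fp V M x)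
    (γ : Ω ≃ₐ[K] Ω) : Fp V (M.map (γ : Ω →ₐ[K] Ω)) (V.act γ x) := by
  intro δ hδ
  have h1 := hx _ ((yd_conj γ δ).1 hδ)
  rw [act_mul Hf.out, act_mul Hf.out] at h1
  have h2 := congrArg (V.act γ) h1
  rw [← act_mul Hf.out γ γ⁻¹, mul_inv_cancel, act_one Hf.out] at h2
  exact h2

end fx

variable {F : Type} [Field F] {N d m : ℕ} {ι : Type} {f : ι → MvPolynomial (Fin N) F}
  {K Ω : Type} [Field K] [CharZero K] [Field Ω] [Algebra K Ω] [Algebra F K] [Algebra F Ω]
  [IsScalarTower F K Ω] [IsAlgClosure K Ω] {L : Ld K Ω} {ψ : Fin m → Prj K N d}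
  {E : IntermediateField K Ω} {L' : Ld E Ω} {X : Bd f E Ω d m} {π : Ω}

/-- **The Galois group permutes the branches.** -/
theorem Bg.actP (hX : Bg f L ψ E L' X) (γ : Ω ≃ₐ[K] Ω) (b : X.B) :
    ∃ b', ∀ h : Fin (d + 1) → Ω, (∀ r, L.nm (h r) ≤ 1) →
      (Xf f).act γ (X.P b h) = X.P b' fun r => γ (h r) := by
  have hac : IsAlgClosure E Ω := yd_ac E
  obtain ⟨b', hi, hγ, hw⟩ := hX.act γ b
  refine ⟨b', fun h hh => ?_⟩
  have hh' : ∀ r, L'.nm (h r) ≤ 1 := fun r => by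
    rw [hX.nm]
    exact hh r
  have hg : ∀ r, L'.nm (γ (h r)) ≤ 1 := fun r => by
    rw [hX.nm, L.act]
    exact hh r
  obtain ⟨t, ht⟩ := hX.hϖ
  have hϖ : γ X.ϖ = X.ϖ := by rw [ht, map_pow, map_natCast]
  have hpe : ∀ (c : Fin (d + 1) → Ω) (w : Ω) (Q : Polynomial (MvPolynomial (Fin (d + 1)) K)),
      γ (pe c w (Q.map (MvPolynomial.map (algebraMap K E)))) =
        pe (fun r => γ (c r)) (γ w) (Q.map (MvPolynomial.map (algebraMap K E))) := by
    intro c w Q
    rw [pe_map, pe_map, pe_act]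
  have hcc : (fun r => γ (X.cc b h r)) = X.cc b' fun r => γ (h r) := by
    funext r
    rw [Bd.cc, Bd.cc, map_add, map_mul, hϖ, hγ]
  have hG : (X.ψ (X.i b)).G = (ψ (X.i b)).G.map (MvPolynomial.map (algebraMap K E)) := by
    rw [hX.hψ]
    rfl
  have hA : ∀ j, (X.ψ (X.i b)).A j =
      ((ψ (X.i b)).A j).map (MvPolynomial.map (algebraMap K E)) := by
    intro j
    rw [hX.hψ]
    rfl
  have hrt : L'.nm (X.rt L' b h - X.w b) < X.ε := by
    obtain ⟨w, h1, h2, -⟩ := hX.ok.co b h hh'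
    rwa [hX.ok.rt_uniq b hh' h2 h1] at h1
  have hroot : γ (X.rt L' b h) = X.rt L' b' fun r => γ (h r) := by
    refine hX.ok.rt_uniq b' hg ?_ ?_
    · have h3 := congrArg γ (hX.ok.rt_root b hh')
      rw [map_zero, hG, hpe, hcc] at h3
      rw [hi, hG]
      exact h3
    · rw [hw, ← map_sub, hX.nm, L.act, ← hX.nm]
      exact hrt
  have h1 := co_act γ (hX.ok.cop b hh')
  have h2 := hX.ok.cop b' hg
  have e : (fun j => γ (pe (X.cc b h) (X.rt L' b h) ((X.ψ (X.i b)).A j))) =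
      fun j => pe (X.cc b' fun r => γ (h r)) (X.rt L' b' fun r => γ (h r))
        ((X.ψ (X.i b')).A j) := by
    funext j
    rw [hi, hA, hpe, hcc, hroot]
  rw [e] at h1
  exact co_eq h1 h2

/-- **The displacements in the branches are stable.** -/
theorem Bg.dsp_act (hX : Bg f L ψ E L' X) (γ : Ω ≃ₐ[K] Ω) {t : ℝ} {z : (Xf f).pt Ω →₀ ℤ}
    (hz : z ∈ Dsp L' (Xf f) (nb L' X.P t) (⊥ : IntermediateField E Ω)) :
    γ • z ∈ Dsp L' (Xf f) (nb L' X.P t) (⊥ : IntermediateField E Ω) := by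
  have hfd := hX.fd
  have hac : IsAlgClosure E Ω := yd_ac E
  rw [dsp_gen] at hz ⊢
  induction hz using AddSubgroup.closure_induction with
  | mem z hz =>
    obtain ⟨M', y, y', he, h4, h5, h6, rfl⟩ := hz
    have hfd' : FiniteDimensional E M' := he.fd
    have hle := yg_le hX.gal γ M'
    obtain ⟨M₁, hM₁⟩ : ∃ M₁ : IntermediateField E Ω, M₁.restrictScalars K =
        (M'.restrictScalars K).map (γ : Ω →ₐ[K] Ω) :=
      ⟨IntermediateField.extendScalars hle, rfl⟩
    have he₁ : Em L' (⊥ : IntermediateField E Ω) M₁ := by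
      obtain ⟨-, n, hn, hM'⟩ := he
      refine ⟨bot_le, n, hn, ?_⟩
      have h9 : M'.restrictScalars K ≤ (L'.Ur ⊥ n).restrictScalars K := fun x hx => hM' hx
      have h7 : M₁.restrictScalars K ≤ (L'.Ur ⊥ n).restrictScalars K := by
        rw [hM₁]
        exact (IntermediateField.map_mono _ h9).trans (yg_ur hX.gal L' γ n)
      exact h7
    have hfd₁ : FiniteDimensional E M₁ := he₁.fd
    have k4 : Fp (Xf f) M₁ ((Xf f).act γ y) := by
      rw [yd_fp, hM₁]
      exact yg_fp (yd_fp.1 h4) γ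
    have k5 : Fp (Xf f) M₁ ((Xf f).act γ y') := by
      rw [yd_fp, hM₁]
      exact yg_fp (yd_fp.1 h5) γ
    have k6 : nb L' X.P t ((Xf f).act γ y) ((Xf f).act γ y') := by
      obtain ⟨b, h, h', hh, hh', rfl, rfl, hd⟩ := h6
      obtain ⟨b', hb⟩ := hX.actP γ b
      refine ⟨b', fun r => γ (h r), fun r => γ (h' r), fun r => ?_, fun r => ?_,
        hb h fun r => ?_, hb h' fun r => ?_, fun r => ?_⟩
      · rw [hX.nm, L.act, ← hX.nm]
        exact hh r
      · rw [hX.nm, L.act, ← hX.nm]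
        exact hh' r
      · rw [← hX.nm]
        exact hh r
      · rw [← hX.nm]
        exact hh' r
      · rw [← map_sub, hX.nm, L.act, ← hX.nm]
        exact hd r
    have hfx : Fx M' (Finsupp.single y 1 - Finsupp.single y' 1 : (Xf f).pt Ω →₀ ℤ) :=
      (fx_single h4 1).sub (fx_single h5 1)
    have hfx₁ : Fx M₁ (Finsupp.single ((Xf f).act γ y) 1 -
        Finsupp.single ((Xf f).act γ y') 1 : (Xf f).pt Ω →₀ ℤ) :=
      (fx_single k4 1).sub (fx_single k5 1)
    refine AddSubgroup.subset_closure ⟨M₁, _, _, he₁, k4, k5, k6, ?_⟩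
    have hfdK := bs_fin E M'
    have hle' : E ≤ M'.restrictScalars K := fun x hx => M'.algebraMap_mem ⟨x, hx⟩
    have h8 := nm_gal γ hle' (yd_fx.1 hfx)
    rw [yg_E hX.gal γ, smul_sub, smul_single, smul_single] at h8
    rw [yd_nm hfx, yd_nm hfx₁, hM₁, ← h8]
  | zero =>
    rw [smul_zero]
    exact zero_mem _
  | add a b _ _ ha hb =>
    rw [smul_add]
    exact add_mem ha hb
  | neg a _ ha =>
    rw [smul_neg]
    exact neg_mem ha

/-- **The trace of a displacement.** -/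
theorem Bg.nrm (hX : Bg f L ψ E L' X) {n : ℕ} {v : (Xf f).pt Ω →₀ ℤ}
    (hv : v ∈ Vb L' X.P π n) (hc : v ∈ (Xf f).cyc E Ω) : ∃ z ∈ Vb L' X.P π n,
      z ∈ (Xf f).cyc E Ω ∧ Nm (⊥ : IntermediateField K Ω) E v - z ∈ (Xf f).ratEq K Ω ∧
        Nm (⊥ : IntermediateField K Ω) E z = Module.finrank K E • z := by
  have hfd := hX.fd
  have hac : IsAlgClosure E Ω := yd_ac E
  obtain ⟨d, hd, hdc, hr⟩ := vb_dec hv
  have hfx : Fx (⊥ : IntermediateField K Ω) (Nm (⊥ : IntermediateField K Ω) E d) :=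
    nm_fx bot_le (yd_cyc.1 hdc)
  refine ⟨Nm (⊥ : IntermediateField K Ω) E d, AddSubgroup.mem_sup_left ?_,
    yd_cyc.2 (hfx.mono bot_le), ?_, ?_⟩
  · obtain ⟨s, -, -, -, h₃⟩ := nm_rep (K := K) (Ω := Ω) (M := ⊥) (N := E) bot_le
    rw [h₃]
    exact sum_mem fun γ _ => hX.dsp_act γ hd
  · have h1 := nm_ratEq (K := K) (M := E) hr (yd_cyc.1 (sub_mem hc hdc))
    have h2 := (GM.nmh (Xf f) E).map_sub v d
    rw [GM.nmh_apply, GM.nmh_apply, GM.nmh_apply] at h2
    rwa [h2] at h1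
  · rw [nm_const bot_le hfx]
    congr 1
    have h := relIndex_fix (K := K) (Ω := Ω) (M := ⊥) (N := E) bot_le
    rwa [IntermediateField.finrank_bot, mul_one] at h

end GX
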