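import Pool.Agent.Lib.MP_f80667_ag.Ep.Yc
import Pool.Agent.Lib.MP_f80667_ag.Ep.Ye
import Pool.Agent.Lib.MP_f80667_ag.Ep.Yf
import Pool.Agent.Lib.MP_f80667_ag.Ep.Yg
import Pool.Agent.Lib.MP_f80667_ag.Ep.W
import Pool.Agent.Lib.MP_f80667_ag.Rs.M3

/-!
The descent to `K` (EP, section 8).

`V n` are the invariant cycles over `E` of level `n` inside the branches, `D s` the displacements over `K` of size `|p| ^ s`; the properties of `Abs` hold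
(`Bg.abs`). So the kernel of the sum on `D s` is divisible modulo rational equivalence (`Bg.ep2`) and `D s` modulo `m D s` and rational equivalence is
finite (`Bg.ep1`).
-/

open ZC BE PE CV IntermediateField

namespace GX

section base

variable {F : Type} [Field F] {K Ω : Type} [Field K] [CharZero K] [Field Ω] [Algebra K Ω]
  [Algebra F K] [Algebra F Ω] [IsScalarTower F K Ω] [IsAlgClosure K Ω] {L : Ld K Ω} {V : Vr F}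
  [Hf V] {σ B : Type} {P : B → (σ → Ω) → V.pt Ω} {π : Ω}

/-- An invariant cycle in a class. -/
private theorem yh_adj {n : ℕ} {z : V.pt Ω →₀ ℤ} (hz : z ∈ Vb L P π n) :
    ∃ w ∈ V.cyc K Ω, z - w ∈ V.ratEq K Ω ∧ ∀ k, z ∈ Vb L P π k → w ∈ Vb L P π k := by
  obtain ⟨d, -, hdc, hr⟩ := vb_dec hz
  exact ⟨d, hdc, hr, fun k hk => vb_sub hk hr⟩

omit [CharZero K] [IsAlgClosure K Ω] [Hf V] in
private theorem yh_sub {z w w' : V.pt Ω →₀ ℤ} {m : ℕ} (hz : z ∈ V.cyc K Ω)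
    (hw' : w' ∈ V.cyc K Ω) (h1 : z - m • w ∈ V.ratEq K Ω) (h2 : w - w' ∈ V.ratEq K Ω) :
    z - m • w' ∈ V.ratEq K Ω ⊓ V.cyc K Ω := by
  refine AddSubgroup.mem_inf.2 ⟨?_, sub_mem hz (nsmul_mem hw' m)⟩
  have e : z - m • w' = (z - m • w) + m • (w - w') := by
    rw [smul_sub]
    abel
  rw [e]
  exact add_mem h1 (nsmul_mem h2 m)

private theorem yh_dm (hB : Bs L P) (hπ : Uf L π) {m : ℕ} (hm : m ≠ 0) (n : ℕ) :
    ∃ n', ∀ v ∈ Vb L P π n' ⊓ V.cyc K Ω, ∃ v' ∈ Vb L P π n ⊓ V.cyc K Ω,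
      v - m • v' ∈ V.ratEq K Ω ⊓ V.cyc K Ω := by
  obtain ⟨n', hn'⟩ := vb_dm hB hπ hm n
  refine ⟨n', fun v hv => ?_⟩
  obtain ⟨w, hw, h1⟩ := hn' v hv.1
  obtain ⟨w', hw', h2, h3⟩ := yh_adj hw
  exact ⟨w', ⟨h3 n hw, hw'⟩, yh_sub hv.2 hw' h1 h2⟩

private theorem yh_div (hB : Bs L P) (hπ : Uf L π) {e : ℕ} (he0 : e ≠ 0)
    (he : L.nm (L.p : Ω) = L.nm π ^ e) {n₁ : ℕ}
    (hfin : ∀ n, n₁ ≤ n → (Vb L P π (n + 1)).relIndex (Vb L P π n) ≠ 0)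
    {z : V.pt Ω →₀ ℤ} (hz : ∀ j, z ∈ Vb L P π j ⊓ V.cyc K Ω) {m : ℕ} (hm : m ≠ 0) :
    ∃ w, (∀ j, w ∈ Vb L P π j ⊓ V.cyc K Ω) ∧ z - m • w ∈ V.ratEq K Ω ⊓ V.cyc K Ω := by
  obtain ⟨w, hw, h1⟩ := vb_divs hB hπ he0 he hfin (fun j => (hz j).1) hm
  obtain ⟨w', hw', h2, h3⟩ := yh_adj (hw 0)
  exact ⟨w', fun j => ⟨h3 j (hw j), hw'⟩, yh_sub (hz 0).2 hw' h1 h2⟩

end base

private theorem yh_fin {A : Type*} [AddCommGroup A] {H H' C : AddSubgroup A}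
    (h : H.relIndex H' ≠ 0) : (H ⊓ C).relIndex (H' ⊓ C) ≠ 0 := by
  have h1 : (H ⊓ C).relIndex (H' ⊓ C) = H.relIndex (H' ⊓ C) := by
    have e : (H ⊓ C) ⊓ (H' ⊓ C) = H ⊓ (H' ⊓ C) := by
      ext x
      simp only [AddSubgroup.mem_inf]
      tauto
    rw [← AddSubgroup.inf_relIndex_right (H ⊓ C), e, AddSubgroup.inf_relIndex_right]
  rw [h1]
  intro h2
  exact h (AddSubgroup.relIndex_eq_zero_of_le_right inf_le_left h2)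

variable {F : Type} [Field F] [CharZero F] {N N' k k' d m : ℕ} {ι ι' : Type}
  {f : ι → MvPolynomial (Fin N) F} {A : Gv F N' k' ι'} {M : Mf f A k}
  {K Ω : Type} [Field K] [CharZero K] [Field Ω] [Algebra K Ω] [Algebra F K] [Algebra F Ω]
  [IsScalarTower F K Ω] [IsAlgClosure K Ω] {L : Ld K Ω} {ψ : Fin m → Prj K N d}
  {E : IntermediateField K Ω} {L' : Ld E Ω} {X : Bd f E Ω d m} {π : Ω}

omit [CharZero F] [CharZero K] [IsAlgClosure K Ω] in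
private theorem yh_smul (hM : M.Ok) (γ : Ω ≃ₐ[K] Ω) {z : (Xf f).pt Ω →₀ ℤ} :
    letI := A.G.grp Ω
    M.S Ω z = 0 → M.S Ω (γ • z) = 0 := by
  let _ : AddCommGroup ((Xf A.a).pt Ω) := A.G.grp Ω
  change M.S Ω z = 0 → M.S Ω (γ • z) = 0
  intro h
  have h1 : M.S Ω (γ • z) = (Xf A.a).act γ (M.S Ω z) := mfS_act hM γ z
  have h2 : M.S Ω (γ • (0 : (Xf f).pt Ω →₀ ℤ)) =
      (Xf A.a).act γ (M.S Ω (0 : (Xf f).pt Ω →₀ ℤ)) := mfS_act hM γ 0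
  rw [smul_zero, map_zero] at h2
  rw [h1, h, ← h2]

/-- **The formal properties.** -/
theorem Bg.abs (hf : Hm f) (hA : A.Ok) (hM : M.Ok) (hX : Bg f L ψ E L' X) (hB : Bs L' X.P)
    (hπ : Uf L' π) {e : ℕ} (he0 : e ≠ 0) (he : L'.nm (L'.p : Ω) = L'.nm π ^ e) {n₁ : ℕ}
    (hfin : ∀ n, n₁ ≤ n → (Vb L' X.P π (n + 1)).relIndex (Vb L' X.P π n) ≠ 0)
    (hl : Lse M X.P L' π e) :
    letI := A.G.grp Ω
    letI := hX.fd
    Abs (fun n => Vb L' X.P π n ⊓ (Xf f).cyc E Ω) (fun s => Dcy L f (L.nm (L.p : Ω) ^ s))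
      ((Xf f).ratEq E Ω ⊓ (Xf f).cyc E Ω) ((Xf f).ratEq K Ω) (GM.nmh (Xf f) E) (M.S Ω)
      (Module.finrank K E) := by
  let _ : AddCommGroup ((Xf A.a).pt Ω) := A.G.grp Ω
  have hfd := hX.fd
  have hac : IsAlgClosure E Ω := yd_ac E
  refine
    { anti := fun n => inf_le_inf_right _ (vb_anti hπ (Nat.le_succ n))
      trR := fun z hz => nm_ratEq (K := K) (M := E) hz.1 (yd_cyc.1 hz.2)
      SR := fun z hz => RS.rs (K := K) hf hA hM hz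
      dv := fun n => ?_
      vd := fun s => ?_
      fin := ⟨n₁, fun n hn => yh_fin (hfin n hn)⟩
      ker := ?_
      sum := fun z hz => vb_sum_zero hf hX.ok hB hA hM hπ fun n => (hz n).1
      div := fun z hz m hm => yh_div hB hπ he0 he hfin hz hm
      dm := fun m hm n => yh_dm hB hπ hm n
      tor := fun m hm => ?_
      q0 := (Module.finrank_pos (R := K) (M := E)).ne'
      nrm := fun n v hv => ?_
      St := fun z hz => ?_ }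
  · obtain ⟨s₀, h⟩ := hX.dv hB hπ n
    refine ⟨s₀, fun s hs z hz => ?_⟩
    obtain ⟨v, h1, h2, h3⟩ := h s hs z hz
    exact ⟨v, ⟨h1, h2⟩, h3⟩
  · obtain ⟨n, h⟩ := hX.vd hB hπ s
    exact ⟨n, fun v hv => h v hv.1 hv.2⟩
  · obtain ⟨n₀, h⟩ := ep_end hB hπ he0 he hfin hl
    exact ⟨n₀, fun n hn z hz h0 k => ⟨h n hn z hz.1 h0 k, hz.2⟩⟩
  · obtain ⟨n₀, h⟩ := exists_vb_tor hf hX.ok hB hA hM hπ (q := (m : ℤ)) (Nat.cast_ne_zero.2 hm)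
    refine ⟨n₀, fun n hn z hz h0 => h n z hn hz.1 ?_⟩
    rw [natCast_zsmul]
    exact h0
  · obtain ⟨z, h1, h2, h3, h4⟩ := hX.nrm hv.1 hv.2
    exact ⟨z, ⟨h1, h2⟩, h3, h4⟩
  · obtain ⟨s, -, -, -, h₃⟩ := nm_rep (K := K) (Ω := Ω) (M := ⊥) (N := E) bot_le
    rw [GM.nmh_apply, h₃, map_sum]
    exact Finset.sum_eq_zero fun γ _ => yh_smul hM γ hz

/-- **Divisibility over `K`.** -/
theorem Bg.ep2 (hf : Hm f) (hA : A.Ok) (hM : M.Ok) (hX : Bg f L ψ E L' X) (hB : Bs L' X.P)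
    (hπ : Uf L' π) {e : ℕ} (he0 : e ≠ 0) (he : L'.nm (L'.p : Ω) = L'.nm π ^ e) {n₁ : ℕ}
    (hfin : ∀ n, n₁ ≤ n → (Vb L' X.P π (n + 1)).relIndex (Vb L' X.P π n) ≠ 0)
    (hl : Lse M X.P L' π e) :
    letI := A.G.grp Ω
    ∃ s₀, ∀ s, s₀ ≤ s → ∀ z ∈ Dcy L f (L.nm (L.p : Ω) ^ s), M.S Ω z = 0 → ∀ m : ℕ, m ≠ 0 →
      ∀ s', ∃ z' ∈ Dcy L f (L.nm (L.p : Ω) ^ s'), M.S Ω z' = 0 ∧
        z - m • z' ∈ (Xf f).ratEq K Ω := by
  let _ : AddCommGroup ((Xf A.a).pt Ω) := A.G.grp Ω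
  have hfd := hX.fd
  exact (hX.abs hf hA hM hB hπ he0 he hfin hl).divisible

/-- **Finiteness over `K`.** -/
theorem Bg.ep1 (hf : Hm f) (hA : A.Ok) (hM : M.Ok) (hX : Bg f L ψ E L' X) (hB : Bs L' X.P)
    (hπ : Uf L' π) {e : ℕ} (he0 : e ≠ 0) (he : L'.nm (L'.p : Ω) = L'.nm π ^ e) {n₁ : ℕ}
    (hfin : ∀ n, n₁ ≤ n → (Vb L' X.P π (n + 1)).relIndex (Vb L' X.P π n) ≠ 0)
    (hl : Lse M X.P L' π e) :
    ∃ s₀, ∀ s, s₀ ≤ s → ∀ m : ℕ, m ≠ 0 → ∀ s',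
      ((Dcy L f (L.nm (L.p : Ω) ^ s')).map (nsmulAddMonoidHom m) ⊔ (Xf f).ratEq K Ω).relIndex
        (Dcy L f (L.nm (L.p : Ω) ^ s)) ≠ 0 := by
  let _ : AddCommGroup ((Xf A.a).pt Ω) := A.G.grp Ω
  have hfd := hX.fd
  exact (hX.abs hf hA hM hB hπ he0 he hfin hl).finite

end GX
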