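import Pool.Agent.Lib.MP_f80667_ag.Ep.Zg
import Pool.Agent.Lib.MP_f80667_ag.Ep.Ld

/-!
The relation of the curves on a line (EP, 2.5).
-/

open ZC BE PE CV IntermediateField GM

namespace GX

variable {F : Type} [Field F] {N d m : ℕ} {ι : Type} {f : ι → MvPolynomial (Fin N) F}
  {K Ω : Type} [Field K] [CharZero K] [Field Ω] [Algebra K Ω] [Algebra F K] [Algebra F Ω]
  [IsScalarTower F K Ω] [IsAlgClosure K Ω] {L : Ld K Ω} {X : Bd f K Ω d m} {π : Ω}

open Classical in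
omit [Algebra F K] [Algebra F Ω] [IsScalarTower F K Ω] [CharZero K] [Field F] [Field K]
  [Algebra K Ω] [IsAlgClosure K Ω] in
private theorem zi_der (S : Finset Ω) {z : Ω} (hz : z ∈ S) :
    (Polynomial.derivative (∏ c ∈ S, (Polynomial.X - Polynomial.C c))).eval z =
      ∏ z' ∈ S.erase z, (z - z') := by
  rw [← Finset.mul_prod_erase S (fun c => Polynomial.X - Polynomial.C c) hz,
    Polynomial.derivative_mul, Polynomial.derivative_X_sub_C, one_mul, Polynomial.eval_add,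
    Polynomial.eval_mul, Polynomial.eval_sub, Polynomial.eval_X, Polynomial.eval_C, sub_self,
    zero_mul, add_zero, Polynomial.eval_prod]
  refine Finset.prod_congr rfl fun c _ => ?_
  rw [Polynomial.eval_sub, Polynomial.eval_X, Polynomial.eval_C]

open Classical in
omit [CharZero K] [IsAlgClosure K Ω] in
private theorem zi_min (L : Ld K Ω) (S : Finset Ω) {ε : ℝ} (hε : 0 < ε) :
    ∃ e : ℝ, 0 < e ∧ e ≤ ε ∧ ∀ z ∈ S, e ≤ L.nm (∏ z' ∈ S.erase z, (z - z')) := by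
  have hne : ∀ z, (∏ z' ∈ S.erase z, (z - z')) ≠ 0 := by
    intro z
    refine Finset.prod_ne_zero_iff.2 fun z' hz' => sub_ne_zero.2 ?_
    exact (Finset.ne_of_mem_erase hz').symm
  rcases S.eq_empty_or_nonempty with rfl | hS
  · exact ⟨ε, hε, le_rfl, fun z hz => absurd hz (Finset.notMem_empty z)⟩
  · obtain ⟨z₀, -, h0⟩ := Finset.exists_min_image S
      (fun z => L.nm (∏ z' ∈ S.erase z, (z - z'))) hS
    exact ⟨min ε (L.nm (∏ z' ∈ S.erase z₀, (z₀ - z'))), lt_min hε (L.pos (hne z₀)),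
      min_le_left _ _, fun z hz => (min_le_right _ _).trans (h0 z hz)⟩

/-- **The relation of the curves on a line.** -/
theorem Bd.Ok.crl (hX : X.Ok L) (hB : Bs L X.P) (hπ : Uf L π) {e : ℕ}
    (he : L.nm (L.p : Ω) = L.nm π ^ e) : Crl L X π e := by
  classical
  intro M hM i c v hc hv S hS η β hβ j hj a ha ha1
  have hfd : FiniteDimensional K M := hM.fd
  have hϖ0 : X.ϖ ≠ 0 := L.ne_zero hX.ϖ0
  have hϖM : X.ϖ ∈ M := (bot_le : ⊥ ≤ M) hX.ϖm
  have he0 : e ≠ 0 := by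
    rintro rfl
    rw [pow_zero] at he
    exact absurd L.lt (not_lt.2 he.ge)
  have hp0 : 0 < L.nm (L.p : Ω) := by
    rw [he]
    exact pow_pos hπ.pos e
  obtain ⟨ε, hε0, hεX, hεS⟩ := zi_min L S hX.ε0
  -- the constants
  obtain ⟨k₀, hk₀⟩ := exists_pow_lt_of_lt_one (lt_min (pow_pos hε0 4) (mul_pos hε0 hX.ϖ0)) L.lt
  obtain ⟨C₁, hC₁⟩ := exists_pow_lt_of_lt_one (mul_pos (pow_pos hε0 3) hX.ϖ0) hπ.lt
  refine ⟨k₀ + C₁, fun k hk => ?_⟩
  have hpk : L.nm ((L.p : Ω) ^ k) < min (ε ^ 4) (ε * L.nm X.ϖ) := by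
    rw [L.pow]
    exact (pow_le_pow_of_le_one hp0.le L.lt.le (show k₀ ≤ k by omega)).trans_lt hk₀
  obtain ⟨n, hn⟩ : ∃ n, n = 2 * k * e - (k₀ + C₁) := ⟨_, rfl⟩
  have hke : k ≤ k * e := Nat.le_mul_of_pos_right k (Nat.pos_of_ne_zero he0)
  have h2 : n + C₁ ≤ 2 * k * e := by
    have h3 : 2 * k * e = 2 * (k * e) := by ring
    omega
  have hfin : L.nm ((L.p : Ω) ^ k) ^ 2 / ε ^ 3 ≤ L.nm π ^ n * L.nm X.ϖ := by
    rw [div_le_iff₀ (pow_pos hε0 3), L.pow, he]
    calc ((L.nm π ^ e) ^ k) ^ 2 = L.nm π ^ (2 * k * e) := by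
          rw [← pow_mul, ← pow_mul]
          congr 1
          ring
      _ ≤ L.nm π ^ (n + C₁) := hπ.pow_le h2
      _ = L.nm π ^ n * L.nm π ^ C₁ := pow_add _ _ _
      _ ≤ L.nm π ^ n * (ε ^ 3 * L.nm X.ϖ) :=
          mul_le_mul_of_nonneg_left hC₁.le (pow_nonneg hπ.pos.le n)
      _ = L.nm π ^ n * L.nm X.ϖ * ε ^ 3 := by ring
  -- the arc
  obtain ⟨A, hA⟩ : ∃ A : Fin (d + 1) → Polynomial Ω,
      A = fun r => Polynomial.C (c r) + Polynomial.C (v r) * Polynomial.X := ⟨_, rfl⟩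
  have hAe : ∀ z r, (A r).eval z = c r + v r * z := by
    intro z r
    rw [hA]
    simp
  have hAf : ∀ z, (fun r => (A r).eval z) = c + z • v := by
    intro z
    funext r
    rw [hAe, Pi.add_apply, Pi.smul_apply, smul_eq_mul]
    ring
  have hAa : Arc L M A := by
    intro r l
    rw [hA]
    simp only [Polynomial.coeff_add, Polynomial.coeff_C_mul, Polynomial.coeff_X]
    have h1 : (Polynomial.C (c r)).coeff l ∈ M ∧ L.nm ((Polynomial.C (c r)).coeff l) ≤ 1 := by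
      rw [Polynomial.coeff_C]
      split_ifs
      · exact hc r
      · exact ⟨M.zero_mem, by rw [L.zero]; exact zero_le_one⟩
    have h3 : (v r * if 1 = l then (1 : Ω) else 0) ∈ M ∧
        L.nm (v r * if 1 = l then (1 : Ω) else 0) ≤ 1 := by
      split_ifs
      · rw [mul_one]
        exact hv r
      · rw [mul_zero]
        exact ⟨M.zero_mem, by rw [L.zero]; exact zero_le_one⟩
    exact ⟨M.add_mem h1.1 h3.1, (L.add _ _).trans (max_le h1.2 h3.2)⟩
  have hAρ : ∀ r, (A r).natDegree ≤ 1 := by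
    intro r
    rw [hA]
    refine (Polynomial.natDegree_add_le _ _).trans (max_le ?_ ?_)
    · rw [Polynomial.natDegree_C]
      exact zero_le_one
    · exact (Polynomial.natDegree_C_mul_le _ _).trans Polynomial.natDegree_X_le
  -- the function
  obtain ⟨x, hx⟩ : ∃ x : Polynomial (Polynomial Ω),
      x = Polynomial.C (Polynomial.C a) * Polynomial.X ^ j := ⟨_, rfl⟩
  have hxc : ∀ l, x.coeff l = if l = j then Polynomial.C a else 0 := by
    intro l
    rw [hx, Polynomial.coeff_C_mul_X_pow]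
  have hxe : ∀ P : Ω × Ω, ev₂ P x = a * P.2 ^ j := by
    intro P
    rw [hx]
    simp [ev₂]
  have ix : I₂ L M x := by
    intro l l'
    rw [hxc]
    split_ifs
    · rw [Polynomial.coeff_C]
      split_ifs
      · exact ⟨ha, ha1⟩
      · exact ⟨M.zero_mem, by rw [L.zero]; exact zero_le_one⟩
    · rw [Polynomial.coeff_zero]
      exact ⟨M.zero_mem, by rw [L.zero]; exact zero_le_one⟩
  have wx : GM.Wl 1 S.card x := by
    intro l hl
    rw [hxc] at hl ⊢
    by_cases h1 : l = j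
    · rw [if_pos h1, Polynomial.natDegree_C, zero_add, mul_one, h1]
      exact hj
    · rw [if_neg h1] at hl
      exact absurd rfl hl
  -- the points
  obtain ⟨T, hT⟩ := (hX.pk i).ex_T A S
  have hTr : ∀ q, q ∈ T ↔ q.1 ∈ S ∧ q.2 ∈ GX.rt (X.ψ i) (c + q.1 • v) := by
    intro q
    rw [hT, mem_rte hX, hAf]
  have hβT : ∀ q ∈ T, Iv L M (η q.1) ∧ X.i (β q.1 q.2) = i ∧
      X.cc (β q.1 q.2) (η q.1) = (fun r => (A r).eval q.1) ∧
        X.rt L (β q.1 q.2) (η q.1) = q.2 := by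
    intro q hq
    obtain ⟨h1, h3⟩ := (hTr q).1 hq
    obtain ⟨h4, h5⟩ := hβ q.1 h1
    obtain ⟨h6, h7, h8⟩ := h5 q.2 h3
    exact ⟨h4, h6, by rw [h7, hAf], h8⟩
  obtain ⟨c', k1, k2⟩ := hX.crx (i := i) hAa hAρ hS ix wx (t := (L.p : Ω) ^ k)
    (pow_mem (_root_.natCast_mem M L.p) k) hε0 hεX (hpk.trans_le (min_le_left _ _))
    (hpk.le.trans (min_le_right _ _)) (fun z hz => by
      rw [zi_der S hz]
      exact hεS z hz) hT (η := fun q => η q.1) (β := fun q => β q.1 q.2) hβT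
  have hetn : ∀ q r, etn X A (fun q => η q.1) c' q r =
      η q.1 r + X.ϖ⁻¹ * (v r * (c' q - q.1)) := by
    intro q r
    rw [etn, hAe, hAe]
    ring
  obtain ⟨g, hg⟩ : ∃ g : Ω × Ω → Fin (d + 1) → Ω, ∀ q, g q = η q.1 + (((L.p : Ω) ^ k *
      (a * q.2 ^ j * (∏ z' ∈ S.erase q.1, (q.1 - z'))⁻¹)) * X.ϖ⁻¹) • v := ⟨_, fun _ => rfl⟩
  have hnT : ∀ q ∈ T, Iv L M (etn X A (fun q => η q.1) c' q) := fun q hq => (k1 q hq).2.2.2.2
  have hclose : ∀ q ∈ T, ∀ r, L.nm (g q r - etn X A (fun q => η q.1) c' q r) ≤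
      L.nm π ^ n := by
    intro q hq r
    obtain ⟨-, -, -, h3, -⟩ := k1 q hq
    rw [zi_der S ((hT q).1 hq).1, hxe] at h3
    rw [hg, hetn, Pi.add_apply, Pi.smul_apply, smul_eq_mul]
    have e1 : η q.1 r + (L.p : Ω) ^ k * (a * q.2 ^ j * (∏ z' ∈ S.erase q.1, (q.1 - z'))⁻¹) *
        X.ϖ⁻¹ * v r - (η q.1 r + X.ϖ⁻¹ * (v r * (c' q - q.1))) =
        -(v r * (c' q - q.1 - (L.p : Ω) ^ k * (a * q.2 ^ j) /
          ∏ z' ∈ S.erase q.1, (q.1 - z')) * X.ϖ⁻¹) := by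
      rw [div_eq_mul_inv]
      ring
    rw [e1, L.neg, L.mul, L.mul, L.inv, ← div_eq_mul_inv, div_le_iff₀ hX.ϖ0]
    exact (mul_le_of_le_one_left (L.nonneg _) (hv r).2).trans (h3.trans hfin)
  have hgI : ∀ q ∈ T, Iv L M (g q) := by
    intro q hq r
    obtain ⟨h1, -, -, h4⟩ := hβT q hq
    have hqS := ((hT q).1 hq).1
    have hq2 : q.2 ∈ M := by
      have h5 := (hX.rt_mem (β q.1 q.2) h1).1
      rwa [h4] at h5
    constructor
    · rw [hg, Pi.add_apply, Pi.smul_apply, smul_eq_mul]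
      refine M.add_mem (h1 r).1 (M.mul_mem (M.mul_mem (M.mul_mem
        (pow_mem (_root_.natCast_mem M L.p) k) (M.mul_mem (M.mul_mem ha (pow_mem hq2 j))
          (M.inv_mem (prod_mem fun z hz => M.sub_mem (hS _ hqS).1
            (hS z (Finset.mem_of_mem_erase hz)).1)))) (M.inv_mem hϖM)) (hv r).1)
    · have e1 : g q r = (g q r - etn X A (fun q => η q.1) c' q r) +
          etn X A (fun q => η q.1) c' q r := by ring
      rw [e1]
      exact (L.add _ _).trans (max_le ((hclose q hq r).trans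
        (pow_le_one₀ hπ.pos.le hπ.lt.le)) (hnT q hq r).2)
  have hz : ∑ q ∈ T, (Finsupp.single (X.P (β q.1 q.2) (g q)) 1 -
      Finsupp.single (X.P (β q.1 q.2) (η q.1)) 1 : (Xf f).pt Ω →₀ ℤ) ∈
        Dsp L (Xf f) (nb L X.P (L.nm π ^ n)) M ⊔ (Xf f).ratEq M Ω := by
    have e1 : ∑ q ∈ T, (Finsupp.single (X.P (β q.1 q.2) (g q)) 1 -
        Finsupp.single (X.P (β q.1 q.2) (η q.1)) 1 : (Xf f).pt Ω →₀ ℤ) =
        ∑ q ∈ T, (Finsupp.single (X.P (β q.1 q.2) (g q)) 1 -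
          Finsupp.single (X.P (β q.1 q.2) (etn X A (fun q => η q.1) c' q)) 1 :
            (Xf f).pt Ω →₀ ℤ) +
        ∑ q ∈ T, (Finsupp.single (X.P (β q.1 q.2) (etn X A (fun q => η q.1) c' q)) (1 : ℤ) -
          Finsupp.single (X.P (β q.1 q.2) (η q.1)) 1) := by
      rw [← Finset.sum_add_distrib]
      refine Finset.sum_congr rfl fun q _ => ?_
      abel
    rw [e1]
    refine add_mem (AddSubgroup.mem_sup_left (sum_mem fun q hq => ?_))
      (AddSubgroup.mem_sup_right k2)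
    exact hB.pt_dsp (hnT q hq) (hgI q hq) (hclose q hq)
  have key := hB.sum_vb hM (s := T) (β := fun q => β q.1 q.2) (h := fun q => η q.1) (g := g)
    (fun q hq => (hβT q hq).1) hgI hz
  rw [Finset.sum_finset_product T S (fun z => GX.rt (X.ψ i) (c + z • v)) hTr] at key
  simp only [hg] at key
  rw [hn] at key
  exact key

end GX
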