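import Pool.Agent.Lib.MP_f80667_ag.Ep.N1
import Pool.Agent.Lib.MP_f80667_ag.Ep.Xf
import Pool.Agent.Lib.MP_f80667_ag.Ep.Pg
import Pool.Agent.Lib.MP_f80667_ag.Ep.Kh2
import Pool.Agent.Lib.MP_f80667_ag.Ep.Ea
import Pool.Agent.Lib.MP_f80667_ag.Ep.Lzb
import Pool.Agent.Lib.MP_f80667_ag.Ep.Gf
import Pool.Agent.Lib.MP_f80667_ag.Ep.Wb
import Pool.Agent.Lib.MP_f80667_ag.Ep.Ax3
import Pool.Agent.Lib.MP_f80667_ag.Ep.Yh
import Pool.Agent.Lib.MP_f80667_ag.Ep.Zh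
import Pool.Agent.Lib.MP_f80667_ag.Ep.Zi
import Pool.Agent.Lib.MP_f80667_ag.Ng.W
import Pool.Agent.Lib.MP_f80667_ag.Pl.Dn

/-! The local theorem. -/

open ZC BE PE CV IntermediateField

namespace GX

section base

variable {F : Type} [Field F] {N N' k k' d m : ℕ} {ι ι' : Type}
  {f : ι → MvPolynomial (Fin N) F} {K Ω : Type} [Field K] [CharZero K] [Field Ω] [Algebra K Ω]
  [Algebra F K] [Algebra F Ω] [IsScalarTower F K Ω] [IsAlgClosure K Ω] {L : Ld K Ω}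
  {X : Bd f K Ω d m} {π : Ω}

/-- **Finiteness of the graded quotients.** -/
theorem bd_fin (hX : X.Ok L) (hB : Bs L X.P) (hπ : Uf L π) :
    ∃ n₁ : ℕ, ∀ n, n₁ ≤ n → (Vb L X.P π (n + 1)).relIndex (Vb L X.P π n) ≠ 0 := by
  have hfin : Finite X.B := hX.fin
  obtain ⟨n₁, h1⟩ := hX.crm hB hπ (D := ∑ i, (X.ψ i).G.natDegree) (fun i =>
    (Nat.sub_le _ _).trans (Finset.single_le_sum (f := fun i => (X.ψ i).G.natDegree)
      (fun i _ => Nat.zero_le _) (Finset.mem_univ i))) L.p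
  have h2 : ∃ v : ℕ, L.nm (2 : Ω) = L.nm π ^ v := by
    obtain ⟨k, hk⟩ := hπ.val 2 two_ne_zero
    rw [map_ofNat] at hk
    have h3 : L.nm (2 : Ω) ≤ 1 := by
      have h4 := L.nat_le 2
      rwa [Nat.cast_ofNat] at h4
    have h5 : 0 ≤ k := by
      by_contra h6
      rw [not_le] at h6
      have h7 := one_lt_zpow_of_neg₀ hπ.pos hπ.lt h6
      rw [← hk] at h7
      exact absurd h3 (not_le.2 h7)
    obtain ⟨v, rfl⟩ := Int.eq_ofNat_of_zero_le h5
    exact ⟨v, by rw [hk, zpow_natCast]⟩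
  obtain ⟨v, hv⟩ := h2
  refine ⟨max n₁ (2 * v + 1), fun n hn => ?_⟩
  have hn1 : n₁ ≤ n := (le_max_left _ _).trans hn
  have hn2 : 2 * v + 1 ≤ n := (le_max_right _ _).trans hn
  exact hB.fin_rel hπ hv hn2 (h1 n hn1) fun z hz => vb_mul_one hB hπ (by omega) hz

end base

variable {F : Type} [Field F] [CharZero F] {N N' k k' d : ℕ} {ι ι' : Type}
  {f : ι → MvPolynomial (Fin N) F} {A : Gv F N' k' ι'} {M : Mf f A k} {K Ω : Type} [Field K]
  [CharZero K] [Field Ω] [Algebra K Ω] [Algebra F K] [Algebra F Ω] [IsScalarTower F K Ω]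
  [IsAlgClosure K Ω]

/-- The sizes of `Big`. -/
private theorem big_mono {E Ω : Type} [Field E] [Field Ω] [Algebra E Ω] {L : Ld E Ω} {n n' : ℕ}
    (h : Big L n) (hn : n' ≤ n) : Big L n' := by
  obtain ⟨θ, h1, h2⟩ := h
  exact ⟨fun k => θ (Fin.castLE hn k), fun k => h1 _, fun k l hkl => h2 _ _ fun h3 => hkl
    (Fin.castLE_injective hn h3)⟩

/-- **The local theorem.** Any residue characteristic, any ramification, any reduction. -/
theorem ep_local (L : Ld K Ω) (hf : Nsg f d) (hK : PL.DnK L) (hA : A.Ok) (hM : M.Ok)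
    (hAl : M.Alb Ω) : ∃ a₀ : Ω, a₀ ≠ 0 ∧ ∀ a : Ω, a ≠ 0 → (∃ c ∈ L.V, a = a₀ * c) →
      Fnz f L.V K a ∧ Dvz L.V M K a := by
  classical
  let _ : AddCommGroup ((Xf A.a).pt Ω) := A.G.grp Ω
  obtain ⟨m, ψ, hbg⟩ := exists_bg L hf
  obtain ⟨E, L', X, hX, hbig⟩ := hbg (∑ i, (ψ i).G.natDegree)
  have hfd : FiniteDimensional K E := hX.fd
  have hgal : IsGalois K E := hX.gal
  have hacl : IsAlgClosed Ω := IsAlgClosure.isAlgClosed K
  have hEcl : IsAlgClosure E Ω := ⟨hacl, by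
    have h1 : Algebra.IsAlgebraic K Ω := IsAlgClosure.isAlgebraic
    exact Algebra.IsAlgebraic.tower_top (K := K) E⟩
  have hchE : CharZero E := charZero_of_injective_algebraMap (algebraMap K E).injective
  have hdeg : ∀ i, (X.ψ i).G.natDegree ≤ ∑ i, (ψ i).G.natDegree := by
    intro i
    rw [hX.hψ i]
    refine (Polynomial.natDegree_map_le).trans ?_
    exact Finset.single_le_sum (f := fun i => (ψ i).G.natDegree) (fun i _ => Nat.zero_le _)
      (Finset.mem_univ i)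
  have hB : Bs L' X.P := hX.ok.bs fun i => big_mono hbig (hdeg i)
  obtain ⟨π, hπ⟩ := exists_uf L'
  obtain ⟨e, he0, he⟩ := hπ.pow
  obtain ⟨n₁, hfin⟩ := bd_fin hX.ok hB hπ
  have hls : Lste M L' X π e := hX.lste hB hf.hom hπ hK hA hM hAl he (hX.ok.crl hB hπ he)
  obtain ⟨C, hC⟩ := exists_rat_near hX.pk hX.ok.ε0 hX.cov
  exact ep_zrt hf.hom hC (Bg.abs hf.hom hA hM hX hB hπ he0 he hfin hls.lse)

end GX
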