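import Pool.Agent.Lib.MP_f80667_ag.Ep.N2
import Pool.Agent.Lib.MP_f80667_ag.St.Gl
import Pool.Agent.Lib.MP_f80667_ag.Cv.LdI
import Pool.Agent.Lib.MP_f80667_ag.Lv.Alb

/-! The theorem for the completions of number fields. -/

open ZC BE PE CV IntermediateField IsDedekindDomain NumberField

namespace GX

/-- **Every finite place.** -/
theorem ep_glob {F : Type} [Field F] [NumberField F] {N N' k k' d : ℕ} {ι ι' : Type}
    {f : ι → MvPolynomial (Fin N) F} {A : Gv F N' k' ι'} {M : Mf f A k} (hf : Nsg f d)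
    (hA : A.Ok) (hM : M.Ok) (v : HeightOneSpectrum (𝓞 F))
    (hb : M.Alb (AlgebraicClosure F))
    {V : ValuationSubring (AlgebraicClosure (FK F v))}
    (hV : V.comap (algebraMap (FK F v) _) = CV.Iv v) :
    ∃ a₀ : AlgebraicClosure (FK F v), a₀ ≠ 0 ∧ ∀ a : AlgebraicClosure (FK F v), a ≠ 0 →
      (∃ c ∈ V, a = a₀ * c) → Fnz f V (FK F v) a ∧ Dvz V M (FK F v) a := by
  have hch : CharZero (FK F v) :=
    charZero_of_injective_algebraMap (algebraMap F (FK F v)).injective
  obtain ⟨L, hL⟩ := exists_ldI v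
  have h1 : V.comap (algebraMap (FK F v) _) = Ok L := by
    rw [hV]
    exact SetLike.ext fun x => (hL x).symm
  obtain rfl := GM.v_uniq L V h1
  exact ep_local L hf (PL.dn_fk hL) hA hM (Mf.alb_ext hb _)

end GX
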