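import Pool.Agent.Lib.MP_f80667_ag.Ep.Pa0

/-!
Symmetric expressions in the roots of a monic polynomial with coefficients in a subring.
-/

open Polynomial

namespace GX

variable {R : Type} [CommRing R] {n : ℕ}

private noncomputable def pa_q {R : Type} [CommRing R] {n : ℕ} (Q : R[X]) (k : Fin n) :
    MvPolynomial (Fin n) R := Q.eval₂ MvPolynomial.C (MvPolynomial.X k)

private theorem pa_hom {R A : Type} [CommRing R] [CommRing A] {n : ℕ}
    (f : MvPolynomial (Fin n) R →+* A) (Q : R[X]) (k : Fin n) :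
    f (pa_q Q k) = Q.eval₂ (f.comp MvPolynomial.C) (f (MvPolynomial.X k)) := by
  unfold pa_q
  exact Polynomial.hom_eval₂ _ _ _ _

private theorem pa_sub {S : Subring R} (Q : S[X]) (k : Fin n) :
    MvPolynomial.map S.subtype (pa_q Q k) = pa_q (Q.map S.subtype) k := by
  have h1 : (MvPolynomial.map S.subtype : MvPolynomial (Fin n) S →+* MvPolynomial (Fin n) R).comp
      MvPolynomial.C = MvPolynomial.C.comp S.subtype :=
    RingHom.ext fun a => MvPolynomial.map_C _ _
  rw [pa_hom, h1, MvPolynomial.map_X]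
  unfold pa_q
  rw [Polynomial.eval₂_map]

private theorem pa_ren (e : Equiv.Perm (Fin n)) (Q : R[X]) (k : Fin n) :
    ((MvPolynomial.rename e : MvPolynomial (Fin n) R →ₐ[R] MvPolynomial (Fin n) R) :
      MvPolynomial (Fin n) R →+* MvPolynomial (Fin n) R) (pa_q Q k) = pa_q Q (e k) := by
  have h1 : ((MvPolynomial.rename e : MvPolynomial (Fin n) R →ₐ[R] MvPolynomial (Fin n) R) :
      MvPolynomial (Fin n) R →+* MvPolynomial (Fin n) R).comp MvPolynomial.C =
        MvPolynomial.C := RingHom.ext fun a => MvPolynomial.rename_C _ _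
  have h2 : ((MvPolynomial.rename e : MvPolynomial (Fin n) R →ₐ[R] MvPolynomial (Fin n) R) :
      MvPolynomial (Fin n) R →+* MvPolynomial (Fin n) R) (MvPolynomial.X k) =
        MvPolynomial.X (e k) := MvPolynomial.rename_X _ _
  rw [pa_hom, h1, h2]
  rfl

private theorem pa_ev {A : Type} [CommRing A] (φ : R →+* A) (w : Fin n → A) (Q : R[X])
    (k : Fin n) : MvPolynomial.eval₂Hom φ w (pa_q Q k) = (Q.map φ).eval (w k) := by
  have h1 : (MvPolynomial.eval₂Hom φ w).comp MvPolynomial.C = φ :=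
    RingHom.ext fun a => MvPolynomial.eval₂Hom_C _ _ _
  rw [pa_hom, h1, MvPolynomial.eval₂Hom_X', Polynomial.eval_map]

private theorem pa_gen (S : Subring R) {P : (MvPolynomial (Fin n) R)[X]}
    (hP : ∀ e : Equiv.Perm (Fin n), P.map ((MvPolynomial.rename e : MvPolynomial (Fin n) R →ₐ[R]
      MvPolynomial (Fin n) R) : MvPolynomial (Fin n) R →+* MvPolynomial (Fin n) R) = P)
    (hS : ∃ P' : (MvPolynomial (Fin n) S)[X], P'.map (MvPolynomial.map S.subtype) = P)
    {g : R[X]} (hg : g.Monic) (hn : g.natDegree = n) (hgS : ∀ i, g.coeff i ∈ S) :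
    ∃ h : R[X], (∀ i, h.coeff i ∈ S) ∧ h.natDegree ≤ P.natDegree ∧
      ∀ (A : Type) [CommRing A] (φ : R →+* A) (w : Fin n → A),
        g.map φ = ∏ k, (X - C (w k)) → h.map φ = P.map (MvPolynomial.eval₂Hom φ w) := by
  have hsym : ∀ i, (P.coeff i).IsSymmetric := by
    intro i e
    have h1 := congrArg (fun q => q.coeff i) (hP e)
    rw [Polynomial.coeff_map] at h1
    exact h1
  have hc : ∀ i m, (P.coeff i).coeff m ∈ S := by
    intro i m
    obtain ⟨P', hP'⟩ := hS
    rw [← hP', Polynomial.coeff_map, MvPolynomial.coeff_map]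
    exact ((P'.coeff i).coeff m).2
  choose r hr hr2 using fun i => sy_one S (hsym i) (hc i) hg hn hgS
  obtain ⟨h, hh⟩ : ∃ h : R[X], h = ∑ i ∈ Finset.range (P.natDegree + 1), C (r i) * X ^ i :=
    ⟨_, rfl⟩
  have hcoe : ∀ i, h.coeff i = if i < P.natDegree + 1 then r i else 0 := by
    intro i
    rw [hh, Polynomial.finsetSum_coeff]
    simp only [coeff_C_mul, coeff_X_pow, mul_ite, mul_one, mul_zero]
    rw [Finset.sum_ite_eq (Finset.range (P.natDegree + 1)) i r]
    simp only [Finset.mem_range]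
  refine ⟨h, fun i => ?_, ?_, fun A _ φ w hw => ?_⟩
  · rw [hcoe]
    split_ifs
    · exact hr i
    · exact zero_mem _
  · rw [Polynomial.natDegree_le_iff_coeff_eq_zero]
    intro i hi
    rw [hcoe, if_neg (by omega)]
  · ext i
    rw [Polynomial.coeff_map, Polynomial.coeff_map, hcoe]
    split_ifs with hi
    · exact hr2 i A φ w hw
    · rw [Polynomial.coeff_eq_zero_of_natDegree_lt (by omega), map_zero, map_zero]

private theorem pa_lift {S : Subring R} {Q : R[X]} (hQ : ∀ i, Q.coeff i ∈ S) :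
    ∃ Q' : S[X], Q'.map S.subtype = Q := by
  have h1 : Q ∈ lifts S.subtype := by
    rw [lifts_iff_coeff_lifts]
    intro i
    exact ⟨⟨Q.coeff i, hQ i⟩, rfl⟩
  exact (mem_lifts Q).1 h1

/-- The product of the `Y - Q (root)`. Proof: the coefficients of `∏ k, (X - C (Q.aeval (MvPolynomial.X k)))` in `(MvPolynomial (Fin n) R)[X]` are symmetric with coefficients in `S`; `sy_one` for each of them (`n + 1` coefficients, the others are `0`). -/
theorem sy_g (S : Subring R) {g : R[X]} (hg : g.Monic) (hn : g.natDegree = n)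
    (hgS : ∀ i, g.coeff i ∈ S) {Q : R[X]} (hQ : ∀ i, Q.coeff i ∈ S) :
    ∃ h : R[X], (∀ i, h.coeff i ∈ S) ∧ h.Monic ∧ h.natDegree = n ∧
      ∀ (A : Type) [CommRing A] (φ : R →+* A) (w : Fin n → A),
        g.map φ = ∏ k, (X - C (w k)) → h.map φ = ∏ k, (X - C ((Q.map φ).eval (w k))) := by
  classical
  rcases subsingleton_or_nontrivial R with hR | hR
  · refine ⟨g, hgS, hg, hn, fun A _ φ w _ => ?_⟩
    have h1 : (0 : A) = 1 := by
      rw [← map_zero φ, ← map_one φ, Subsingleton.elim (0 : R) 1]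
    have h2 : Subsingleton A := subsingleton_of_zero_eq_one h1
    exact Subsingleton.elim _ _
  obtain ⟨Q', hQ'⟩ := pa_lift hQ
  obtain ⟨P, hPd⟩ : ∃ P : (MvPolynomial (Fin n) R)[X], P = ∏ k, (X - C (pa_q Q k)) := ⟨_, rfl⟩
  have hPm : P.Monic := by
    rw [hPd]
    exact monic_prod_of_monic _ _ fun k _ => monic_X_sub_C _
  have hPn : P.natDegree = n := by
    rw [hPd, natDegree_prod_of_monic _ _ fun k _ => monic_X_sub_C _]
    simp
  obtain ⟨h, h1, h2, h3⟩ := pa_gen S (P := P) (fun e => by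
    rw [hPd, Polynomial.map_prod]
    simp only [Polynomial.map_sub, Polynomial.map_X, Polynomial.map_C]
    rw [← Equiv.prod_comp e fun k => (X - C (pa_q Q k) : (MvPolynomial (Fin n) R)[X])]
    exact Finset.prod_congr rfl fun k _ => by rw [← pa_ren e Q k])
    ⟨∏ k, (X - C (pa_q Q' k)), by
      rw [hPd, Polynomial.map_prod]
      refine Finset.prod_congr rfl fun k _ => ?_
      rw [Polynomial.map_sub, Polynomial.map_X, Polynomial.map_C, pa_sub, hQ']⟩ hg hn hgS
  rw [hPn] at h2
  have h4 : (h + C (1 - h.coeff n) * X ^ n).coeff n = 1 := by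
    rw [coeff_add, coeff_C_mul, coeff_X_pow, if_pos rfl, mul_one, add_sub_cancel]
  have h5 : (h + C (1 - h.coeff n) * X ^ n).natDegree ≤ n :=
    (natDegree_add_le _ _).trans (max_le h2 (natDegree_C_mul_X_pow_le _ _))
  refine ⟨h + C (1 - h.coeff n) * X ^ n, fun i => ?_, monic_of_natDegree_le_of_coeff_eq_one n h5 h4,
    le_antisymm h5 (le_natDegree_of_ne_zero (by rw [h4]; exact one_ne_zero)),
    fun A _ φ w hw => ?_⟩
  · rw [coeff_add, coeff_C_mul, coeff_X_pow]
    split_ifs
    · rw [mul_one]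
      exact add_mem (h1 i) (sub_mem (one_mem _) (h1 n))
    · rw [mul_zero, add_zero]
      exact h1 i
  · have h6 := h3 A φ w hw
    have h7 : φ (1 - h.coeff n) = 0 := by
      have h8 := congrArg (fun q => q.coeff n) h6
      simp only [Polynomial.coeff_map] at h8
      have h9 : P.coeff n = 1 := by
        have h10 := hPm.coeff_natDegree
        rwa [hPn] at h10
      rw [h9, map_one] at h8
      rw [map_sub, map_one, h8, sub_self]
    rw [Polynomial.map_add, Polynomial.map_mul, Polynomial.map_C, h7, C_0, zero_mul, add_zero, h6,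
      hPd, Polynomial.map_prod]
    refine Finset.prod_congr rfl fun k _ => ?_
    rw [Polynomial.map_sub, Polynomial.map_X, Polynomial.map_C, pa_ev]

/-- The sum of the `U (root k)` times the products of the `Y - Q (root l)` over `l ≠ k`. Proof: as `sy_g`. -/
theorem sy_A (S : Subring R) {g : R[X]} (hg : g.Monic) (hn : g.natDegree = n)
    (hgS : ∀ i, g.coeff i ∈ S) {U Q : R[X]} (hU : ∀ i, U.coeff i ∈ S)
    (hQ : ∀ i, Q.coeff i ∈ S) :
    ∃ h : R[X], (∀ i, h.coeff i ∈ S) ∧
      ∀ (A : Type) [CommRing A] (φ : R →+* A) (w : Fin n → A),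
        g.map φ = ∏ k, (X - C (w k)) →
          h.map φ = ∑ k, C ((U.map φ).eval (w k)) *
            ∏ l ∈ Finset.univ.erase k, (X - C ((Q.map φ).eval (w l))) := by
  classical
  obtain ⟨Q', hQ'⟩ := pa_lift hQ
  obtain ⟨U', hU'⟩ := pa_lift hU
  obtain ⟨P, hPd⟩ : ∃ P : (MvPolynomial (Fin n) R)[X], P = ∑ k, C (pa_q U k) *
      ∏ l ∈ Finset.univ.erase k, (X - C (pa_q Q l)) := ⟨_, rfl⟩
  obtain ⟨h, h1, h2, h3⟩ := pa_gen S (P := P) (fun e => by
    rw [hPd, Polynomial.map_sum]
    rw [← Equiv.sum_comp e fun k => (C (pa_q U k) *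
      ∏ l ∈ Finset.univ.erase k, (X - C (pa_q Q l)) : (MvPolynomial (Fin n) R)[X])]
    refine Finset.sum_congr rfl fun k _ => ?_
    rw [Polynomial.map_mul, Polynomial.map_C, pa_ren, Polynomial.map_prod]
    congr 1
    refine Finset.prod_bij (fun l _ => e l) (fun l hl => ?_) (fun l _ l' _ hll => e.injective hll)
      (fun l hl => ⟨e.symm l, ?_, e.apply_symm_apply l⟩) fun l _ => ?_
    · rw [Finset.mem_erase] at hl ⊢
      exact ⟨fun h => hl.1 (e.injective h), Finset.mem_univ _⟩
    · rw [Finset.mem_erase] at hl ⊢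
      exact ⟨fun h => hl.1 (by rw [← h, e.apply_symm_apply]), Finset.mem_univ _⟩
    · rw [Polynomial.map_sub, Polynomial.map_X, Polynomial.map_C, pa_ren])
    ⟨∑ k, C (pa_q U' k) * ∏ l ∈ Finset.univ.erase k, (X - C (pa_q Q' l)), by
      rw [hPd, Polynomial.map_sum]
      refine Finset.sum_congr rfl fun k _ => ?_
      rw [Polynomial.map_mul, Polynomial.map_C, pa_sub, hU', Polynomial.map_prod]
      congr 1
      refine Finset.prod_congr rfl fun l _ => ?_
      rw [Polynomial.map_sub, Polynomial.map_X, Polynomial.map_C, pa_sub, hQ']⟩ hg hn hgS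
  refine ⟨h, h1, fun A _ φ w hw => ?_⟩
  rw [h3 A φ w hw, hPd, Polynomial.map_sum]
  refine Finset.sum_congr rfl fun k _ => ?_
  rw [Polynomial.map_mul, Polynomial.map_C, pa_ev, Polynomial.map_prod]
  congr 1
  refine Finset.prod_congr rfl fun l _ => ?_
  rw [Polynomial.map_sub, Polynomial.map_X, Polynomial.map_C, pa_ev]

end GX
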