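import Mathlib

/-!
Symmetric expressions in the roots of a monic polynomial with coefficients in a subring.
-/

open Polynomial

namespace GX

variable {R : Type} [CommRing R] {n : ℕ}

/-- **Symmetric polynomials in the roots.** Proof: `S` as a ring, `T` and `g` come from `T'`, `g'` over `S`; `T'` is symmetric (the map `S → R` is injective), `MvPolynomial.esymmAlgHom_surjective` (for `Fin n`): `T'` is a polynomial `E` in the elementary
symmetric polynomials; `r` = the value of `E` at `(-1) ^ (i + 1) * g'.coeff (n - (i + 1))`. For `φ`, `w`: Vieta's formulas (`Multiset.prod_X_sub_C_coeff`, `MvPolynomial.aeval_esymm_eq_multiset_esymm` or similar). -/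
theorem sy_one (S : Subring R) {T : MvPolynomial (Fin n) R} (hT : T.IsSymmetric)
    (hS : ∀ m, T.coeff m ∈ S) {g : R[X]} (hg : g.Monic) (hn : g.natDegree = n)
    (hgS : ∀ i, g.coeff i ∈ S) : ∃ r ∈ S, ∀ (A : Type) [CommRing A] (φ : R →+* A)
      (w : Fin n → A), g.map φ = ∏ k, (X - C (w k)) → φ r = MvPolynomial.eval₂ φ w T := by
  obtain ⟨T', hT'⟩ : T ∈ Set.range (MvPolynomial.map S.subtype) := by
    rw [MvPolynomial.mem_range_map_iff_coeffs_subset]
    intro c hc
    obtain ⟨m, hm, rfl⟩ := MvPolynomial.mem_coeffs_iff.mp hc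
    exact ⟨⟨T.coeff m, hS m⟩, rfl⟩
  have hinj : Function.Injective (MvPolynomial.map S.subtype : MvPolynomial (Fin n) S → MvPolynomial (Fin n) R) :=
    MvPolynomial.map_injective _ Subtype.val_injective
  have hsym : T'.IsSymmetric := by
    intro σ
    apply hinj
    rw [MvPolynomial.map_rename, hT', hT σ]
  obtain ⟨E, hE⟩ := MvPolynomial.esymmAlgHom_surjective (σ := Fin n) S (n := n) (by simp) ⟨T', hsym⟩
  have hE' : T' = MvPolynomial.aeval (fun i : Fin n => MvPolynomial.esymm (Fin n) S (i + 1)) E := by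
    rw [← MvPolynomial.esymmAlgHom_apply, hE]
  refine ⟨(MvPolynomial.eval (fun i : Fin n => (-1) ^ ((i : ℕ) + 1) * (⟨g.coeff (n - ((i : ℕ) + 1)), hgS _⟩ : S)) E : S),
    Subtype.property _, ?_⟩
  intro A _ φ w hw
  have h1 : MvPolynomial.eval₂ φ w T = MvPolynomial.eval₂ (φ.comp S.subtype) w T' := by
    rw [← hT', MvPolynomial.eval₂_map]
  let _ : Algebra S A := (φ.comp S.subtype).toAlgebra
  have h2 : MvPolynomial.eval₂ (φ.comp S.subtype) w T' = MvPolynomial.aeval w T' := rfl
  have h3 : ∀ i : Fin n, MvPolynomial.aeval w (MvPolynomial.esymm (Fin n) S ((i : ℕ) + 1)) =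
      (-1) ^ ((i : ℕ) + 1) * φ (g.coeff (n - ((i : ℕ) + 1))) := by
    intro i
    rw [MvPolynomial.aeval_esymm_eq_multiset_esymm]
    have h4 := Multiset.prod_X_sub_C_coeff (Finset.univ.val.map w) (k := n - ((i : ℕ) + 1)) (by simp)
    have h5 : (Multiset.map (fun t => X - C t) (Finset.univ.val.map w)).prod = g.map φ := by
      rw [hw, Multiset.map_map]
      rfl
    have hi := i.isLt
    have h6 : Multiset.card (Finset.univ.val.map w) - (n - ((i : ℕ) + 1)) = (i : ℕ) + 1 := by
      simp only [Multiset.card_map, Finset.card_val, Finset.card_univ, Fintype.card_fin]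
      omega
    rw [h5, h6, coeff_map] at h4
    rw [h4, ← mul_assoc, ← mul_pow]
    simp
  rw [h1, h2, hE']
  have h7 : MvPolynomial.aeval w (MvPolynomial.aeval (fun i : Fin n => MvPolynomial.esymm (Fin n) S (i + 1)) E) =
      MvPolynomial.aeval (fun i : Fin n => (-1) ^ ((i : ℕ) + 1) * φ (g.coeff (n - ((i : ℕ) + 1)))) E := by
    rw [← AlgHom.comp_apply, MvPolynomial.comp_aeval]
    congr 2
    funext i
    exact h3 i
  rw [h7]
  have h8 : φ ((MvPolynomial.eval (fun i : Fin n => (-1) ^ ((i : ℕ) + 1) * (⟨g.coeff (n - ((i : ℕ) + 1)), hgS _⟩ : S)) E : S) : R) =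
      algebraMap S A (MvPolynomial.eval (fun i : Fin n => (-1) ^ ((i : ℕ) + 1) * (⟨g.coeff (n - ((i : ℕ) + 1)), hgS _⟩ : S)) E) := rfl
  rw [h8, MvPolynomial.aeval_def]
  have h9 := MvPolynomial.hom_eval₂ (R := S) E (RingHom.id S) (algebraMap S A)
    (fun i : Fin n => (-1) ^ ((i : ℕ) + 1) * (⟨g.coeff (n - ((i : ℕ) + 1)), hgS _⟩ : S))
  rw [RingHom.comp_id] at h9
  rw [← MvPolynomial.eval₂_id]
  rw [h9]
  congr 1
  funext i
  simp only [map_mul, map_pow, map_neg, map_one]
  rfl

end GX
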