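import Mathlib

/-! Divisibility for generic values of a parameter, the discriminant. -/

open Polynomial

namespace GX

variable {R : Type} [CommRing R] {n : ℕ}

/-- **A polynomial over an infinite field which vanishes at the roots.** `g`, `h` over `Ω [z] [Y]`, `g` monic of degree `n`; for almost all `c` the polynomial `g (c, .)` has `n` different roots and `h (c, .)` vanishes there: `g` divides `h`. Proof: the remainder of `h` modulo `g`
(`modByMonic`) has degree `< n` and vanishes at `n` points for almost all `c`: its coefficients have infinitely many zeros. -/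
theorem dvd_gen {Ω : Type} [Field Ω] [Infinite Ω] {g h : Polynomial (Polynomial Ω)} (hg : g.Monic)
    (hn : g.natDegree = n) {B : Set Ω} (hB : Bᶜ.Infinite) (hw : ∀ c, c ∉ B →
      ∃ w : Fin n → Ω, Function.Injective w ∧ ∀ k, (g.map (evalRingHom c)).eval (w k) = 0 ∧
        (h.map (evalRingHom c)).eval (w k) = 0) : g ∣ h := by
  classical
  rw [← Polynomial.modByMonic_eq_zero_iff_dvd hg]
  by_contra hr
  have hdeg : (h %ₘ g).natDegree < n := by
    have h1 : (h %ₘ g).degree < g.degree := Polynomial.degree_modByMonic_lt h hg
    rw [← hn]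
    exact Polynomial.natDegree_lt_natDegree hr h1
  have key : ∀ c, c ∉ B → (h %ₘ g).map (evalRingHom c) = 0 := by
    intro c hc
    obtain ⟨w, hw1, hw2⟩ := hw c hc
    refine Polynomial.eq_zero_of_natDegree_lt_card_of_eval_eq_zero _ hw1 (fun k => ?_) ?_
    · have h2 : (h.map (evalRingHom c)) = (h %ₘ g).map (evalRingHom c) +
          g.map (evalRingHom c) * (h /ₘ g).map (evalRingHom c) := by
        rw [← Polynomial.map_mul, ← Polynomial.map_add, Polynomial.modByMonic_add_div]
      have h3 := (hw2 k).2
      rw [h2, Polynomial.eval_add, Polynomial.eval_mul, (hw2 k).1, zero_mul, add_zero] at h3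
      exact h3
    · rw [Fintype.card_fin]
      exact Polynomial.natDegree_map_le.trans_lt hdeg
  obtain ⟨i, hi⟩ : ∃ i, (h %ₘ g).coeff i ≠ 0 := by
    by_contra h4
    exact hr (Polynomial.ext fun i => by
      rw [Polynomial.coeff_zero]
      by_contra h5
      exact h4 ⟨i, h5⟩)
  refine hi (Polynomial.eq_zero_of_infinite_isRoot _ (hB.mono fun c hc => ?_))
  have h6 := congrArg (fun q => Polynomial.coeff q i) (key c hc)
  simp only [Polynomial.coeff_map, Polynomial.coeff_zero, coe_evalRingHom] at h6
  exact h6

/-- **The discriminant.** Proof: `exists_mul_add_mul_eq_C_resultant` for `g` and its derivative, `resultant_map_map`, `resultant_eq_prod_eval`, `eval_derivative` of a product of linear factors (`n ≠ 0` in the rings; `R` a domain of characteristic `0`: the degree of the derivative is `n - 1` before and after `φ`). -/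
theorem ds_ex [IsDomain R] [CharZero R] {g : R[X]} (hg : g.Monic) (hn : g.natDegree = n) :
    ∃ (δ : R) (U V : R[X]), U * g + V * derivative g = C δ ∧
      ∀ (A : Type) [Field A] [CharZero A] (φ : R →+* A) (w : Fin n → A),
        g.map φ = ∏ k, (X - C (w k)) →
          φ δ = ∏ k, ∏ l ∈ Finset.univ.erase k, (w k - w l) := by
  classical
  rcases Nat.eq_zero_or_pos n with h0 | h0
  · subst h0
    refine ⟨1, 1, 0, ?_, fun A _ _ φ w _ => ?_⟩
    · rw [Polynomial.eq_one_of_monic_natDegree_zero hg hn, one_mul, zero_mul, add_zero, C_1]
    · rw [map_one, Finset.univ_eq_empty, Finset.prod_empty]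
  · have hd : (derivative g).natDegree ≤ n - 1 :=
      (Polynomial.natDegree_derivative_le g).trans (by rw [hn])
    obtain ⟨U, V, -, -, hUV⟩ := Polynomial.exists_mul_add_mul_eq_C_resultant
      (m := n) (n := n - 1) g (derivative g) hn.le hd (Or.inl h0.ne')
    refine ⟨g.resultant (derivative g) n (n - 1), U, V, ?_, fun A _ _ φ w hφ => ?_⟩
    · rw [← hUV]
      ring
    · have h1 := Polynomial.resultant_map_map g (derivative g) n (n - 1) φ
      rw [← Polynomial.derivative_map, hφ] at h1
      have h2 : (∏ k, (X - C (w k)) : A[X]).natDegree = n := by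
        rw [Polynomial.natDegree_prod_of_monic _ _ fun k _ => monic_X_sub_C (w k)]
        simp only [natDegree_X_sub_C, Finset.sum_const, Finset.card_univ, Fintype.card_fin,
          smul_eq_mul, mul_one]
      have h3 : (∏ k, (X - C (w k)) : A[X]).Monic :=
        Polynomial.monic_prod_of_monic _ _ fun k _ => monic_X_sub_C (w k)
      have h4 := Polynomial.resultant_eq_prod_eval (∏ k, (X - C (w k)) : A[X])
        (derivative (∏ k, (X - C (w k)) : A[X])) (n - 1)
        ((Polynomial.natDegree_derivative_le _).trans (by rw [h2]))
        (Polynomial.Splits.prod fun k _ => Polynomial.Splits.X_sub_C (w k))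
      rw [h2, h1, h3.leadingCoeff, one_pow, one_mul] at h4
      rw [h4]
      have h5 : (∏ k, (X - C (w k)) : A[X]).roots = Finset.univ.val.map w := by
        have h6 := Polynomial.roots_multiset_prod_X_sub_C (Finset.univ.val.map w)
        rw [Multiset.map_map] at h6
        exact h6
      rw [h5, Multiset.map_map]
      refine Finset.prod_congr rfl fun k _ => ?_
      rw [Function.comp_apply, Polynomial.derivative_prod_finset, Polynomial.eval_finsetSum,
        Finset.sum_eq_single_of_mem k (Finset.mem_univ k)]
      · rw [Polynomial.derivative_X_sub_C, mul_one, Polynomial.eval_prod]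
        refine Finset.prod_congr rfl fun l _ => ?_
        rw [Polynomial.eval_sub, Polynomial.eval_X, Polynomial.eval_C]
      · intro l _ hl
        rw [Polynomial.derivative_X_sub_C, mul_one, Polynomial.eval_prod]
        refine Finset.prod_eq_zero (i := k) (Finset.mem_erase.2 ⟨hl.symm, Finset.mem_univ k⟩) ?_
        rw [Polynomial.eval_sub, Polynomial.eval_X, Polynomial.eval_C, sub_self]

end GX
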