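import Pool.Agent.Lib.MP_f80667_ag.Gx.XC

/-!
Polynomials over the field of a place: the maximum principle on the closed unit disc, the degree from the growth.
-/

open ZC BE PE CV IntermediateField

namespace GX

variable {K Ω : Type} [Field K] [Field Ω] [Algebra K Ω] (L : Ld K Ω)

private theorem pb_inf [IsAlgClosure K Ω] : Infinite L.κ := by
  have h1 : IsAlgClosed Ω := IsAlgClosure.isAlgClosed K
  have h2 := L.κ_closed
  exact IsAlgClosed.instInfinite

/-- A polynomial with integral coefficients, one of them a unit, has a unit value at an integral number. -/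
private theorem pb_unit [IsAlgClosure K Ω] {q : Polynomial Ω} (hq : ∀ i, L.nm (q.coeff i) ≤ 1)
    {j : ℕ} (hj : q.coeff j = 1) : ∃ c, L.nm c ≤ 1 ∧ L.nm (q.eval c) = 1 := by
  have hl : q ∈ Polynomial.lifts (algebraMap L.V Ω) :=
    (Polynomial.lifts_iff_coeff_lifts q).2 fun n => ⟨⟨q.coeff n, hq n⟩, rfl⟩
  obtain ⟨q', hq'⟩ := (Polynomial.mem_lifts q).1 hl
  have hinj : Function.Injective (algebraMap L.V Ω) := fun a b hab => Subtype.ext hab
  have h1 : q'.coeff j = 1 := by
    apply hinj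
    rw [← Polynomial.coeff_map, hq', hj, map_one]
  have h2 : q'.map (IsLocalRing.residue L.V) ≠ 0 := by
    intro h0
    have h3 := congrArg (fun P => Polynomial.coeff P j) h0
    simp only [Polynomial.coeff_map, h1, map_one, Polynomial.coeff_zero] at h3
    exact one_ne_zero h3
  have hinf := pb_inf L
  obtain ⟨r, hr⟩ : ∃ r, (q'.map (IsLocalRing.residue L.V)).eval r ≠ 0 := by
    by_contra hcon
    push Not at hcon
    exact h2 (Polynomial.funext fun r => by rw [hcon r, Polynomial.eval_zero])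
  obtain ⟨y, rfl⟩ := IsLocalRing.residue_surjective (R := L.V) r
  rw [Polynomial.eval_map, Polynomial.eval₂_at_apply] at hr
  refine ⟨y.1, y.2, ?_⟩
  have h4 : L.rs.Hv ((q'.eval y : L.V) : Ω) (IsLocalRing.residue L.V (q'.eval y)) :=
    ⟨(q'.eval y).2, rfl⟩
  have h5 := (L.hv_ne h4).1 hr
  have h6 : ((q'.eval y : L.V) : Ω) = q.eval y.1 := by
    change algebraMap L.V Ω (q'.eval y) = q.eval (algebraMap L.V Ω y)
    rw [← hq', Polynomial.eval_map, Polynomial.eval₂_at_apply]
  rwa [h6] at h5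

/-- A coefficient of the greatest norm. -/
private theorem pb_max (p : Polynomial Ω) : ∃ j, ∀ i, L.nm (p.coeff i) ≤ L.nm (p.coeff j) := by
  obtain ⟨j, -, hj⟩ := Finset.exists_max_image (Finset.range (p.natDegree + 1))
    (fun i => L.nm (p.coeff i)) ⟨0, Finset.mem_range.2 (Nat.succ_pos _)⟩
  refine ⟨j, fun i => ?_⟩
  by_cases hi : i ≤ p.natDegree
  · exact hj i (Finset.mem_range.2 (Nat.lt_succ_of_le hi))
  · rw [Polynomial.coeff_eq_zero_of_natDegree_lt (not_le.1 hi), L.zero]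
    exact L.nonneg _

private theorem pb_pow {a : ℝ} (ha : 1 ≤ a) {i j : ℕ} (h : i ≤ j) : a ^ i ≤ a ^ j :=
  pow_le_pow_right₀ ha h

/-- Integral polynomials: the growth. -/
private theorem pb_ev {p : Polynomial Ω} (hp : ∀ i, L.nm (p.coeff i) ≤ 1) {D : ℕ}
    (hD : p.natDegree ≤ D) {c : Ω} (hc : 1 ≤ L.nm c) : L.nm (p.eval c) ≤ L.nm c ^ D := by
  rw [Polynomial.eval_eq_sum_range]
  refine L.sum_le _ _ (pow_nonneg (L.nonneg _) _) fun i hi => ?_
  rw [L.mul, L.pow]
  exact (mul_le_of_le_one_left (pow_nonneg (L.nonneg _) _) (hp i)).trans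
    (pb_pow hc ((Nat.lt_succ_iff.1 (Finset.mem_range.1 hi)).trans hD))

/-- **The maximum principle.** Proof: if the greatest coefficient `p.coeff j` has norm `> 1`, then `p / p.coeff j` has integral coefficients, its reduction to the residue field `L.κ` (`L.rdO`) is not zero; `L.κ` is algebraically closed (`L.κ_closed`),
so infinite, and there is an integral `c` with `nm (p.eval c / p.coeff j) = 1`. -/
theorem gs_le [IsAlgClosure K Ω] {p : Polynomial Ω}
    (h : ∀ c, L.nm c ≤ 1 → L.nm (p.eval c) ≤ 1) (j : ℕ) : L.nm (p.coeff j) ≤ 1 := by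
  obtain ⟨j₀, h0⟩ := pb_max L p
  refine (h0 j).trans ?_
  by_contra hcon
  rw [not_le] at hcon
  have hpos : 0 < L.nm (p.coeff j₀) := zero_lt_one.trans hcon
  have hne : p.coeff j₀ ≠ 0 := L.ne_zero hpos
  obtain ⟨c, hc, h1⟩ := pb_unit L (q := Polynomial.C (p.coeff j₀)⁻¹ * p) (j := j₀)
    (fun i => by
      rw [Polynomial.coeff_C_mul, L.mul, L.inv, inv_mul_le_iff₀ hpos, mul_one]
      exact h0 i)
    (by rw [Polynomial.coeff_C_mul, inv_mul_cancel₀ hne])
  rw [Polynomial.eval_mul, Polynomial.eval_C, L.mul, L.inv, inv_mul_eq_one₀ hpos.ne'] at h1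
  exact absurd (h c hc) (not_le.2 (by rw [← h1]; exact hcon))

/-- **The degree from the growth.** Proof: for `nm c` large the leading term of `p.eval c` has a greater norm than the others; `c = (L.p : Ω)⁻¹ ^ k` (`L.p_lt`, char `0`). -/
theorem gs_deg [CharZero K] {p : Polynomial Ω} {C : ℝ} {D : ℕ}
    (h : ∀ c, 1 ≤ L.nm c → L.nm (p.eval c) ≤ C * L.nm c ^ D) : p.natDegree ≤ D := by
  by_contra hcon
  rw [not_le] at hcon
  have hp0 : p ≠ 0 := by
    rintro rfl
    rw [Polynomial.natDegree_zero] at hcon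
    exact absurd hcon (Nat.not_lt_zero _)
  have ha0 : p.leadingCoeff ≠ 0 := Polynomial.leadingCoeff_ne_zero.2 hp0
  have ha : 0 < L.nm p.leadingCoeff := L.pos ha0
  obtain ⟨j, hj⟩ := pb_max L p
  obtain ⟨k, hk⟩ := exists_pow_lt_of_lt_one
    (div_pos ha (lt_of_lt_of_le zero_lt_one (le_max_left 1 (max (L.nm (p.coeff j)) C)))) L.lt
  have hp1 : 0 < L.nm (L.p : Ω) := L.p_pos
  have hcc : L.nm (((L.p : Ω) ^ k)⁻¹) = (L.nm (L.p : Ω) ^ k)⁻¹ := by rw [L.inv, L.pow]
  have hpk : 0 < L.nm (L.p : Ω) ^ k := pow_pos hp1 k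
  have hc1 : 1 ≤ L.nm (((L.p : Ω) ^ k)⁻¹) := by
    rw [hcc]
    exact (one_le_inv₀ hpk).2 (pow_le_one₀ hp1.le L.lt.le)
  rw [lt_div_iff₀ (lt_of_lt_of_le zero_lt_one (le_max_left _ _))] at hk
  have hR : max 1 (max (L.nm (p.coeff j)) C) < L.nm p.leadingCoeff *
      L.nm (((L.p : Ω) ^ k)⁻¹) := by
    rw [hcc, ← div_eq_mul_inv, lt_div_iff₀ hpk, mul_comm]
    exact hk
  have hRj : L.nm (p.coeff j) < L.nm p.leadingCoeff * L.nm (((L.p : Ω) ^ k)⁻¹) :=
    ((le_max_left _ _).trans (le_max_right _ _)).trans_lt hR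
  have hRC : C < L.nm p.leadingCoeff * L.nm (((L.p : Ω) ^ k)⁻¹) :=
    ((le_max_right _ _).trans (le_max_right _ _)).trans_lt hR
  obtain ⟨n, hn⟩ : ∃ n, p.natDegree = n + 1 :=
    ⟨p.natDegree - 1, (Nat.succ_pred_eq_of_pos (lt_of_le_of_lt (Nat.zero_le _) hcon)).symm⟩
  have hDn : D ≤ n := Nat.lt_succ_iff.1 (by rw [Nat.succ_eq_add_one, ← hn]; exact hcon)
  generalize ((L.p : Ω) ^ k)⁻¹ = c at hc1 hRj hRC
  have hcpos : 0 < L.nm c := zero_lt_one.trans_le hc1
  have hlead : p.coeff (n + 1) = p.leadingCoeff := by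
    rw [← hn]
    rfl
  have hsum : p.eval c = (∑ i ∈ Finset.range (n + 1), p.coeff i * c ^ i) +
      p.leadingCoeff * c ^ (n + 1) := by
    rw [Polynomial.eval_eq_sum_range, hn, Finset.sum_range_succ, hlead]
  have hlow : L.nm (∑ i ∈ Finset.range (n + 1), p.coeff i * c ^ i) ≤
      L.nm (p.coeff j) * L.nm c ^ n := by
    refine L.sum_le _ _ (mul_nonneg (L.nonneg _) (pow_nonneg (L.nonneg _) _)) fun i hi => ?_
    rw [L.mul, L.pow]
    exact mul_le_mul (hj i) (pb_pow hc1 (Nat.lt_succ_iff.1 (Finset.mem_range.1 hi)))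
      (pow_nonneg (L.nonneg _) _) (L.nonneg _)
  have hlt : L.nm (∑ i ∈ Finset.range (n + 1), p.coeff i * c ^ i) <
      L.nm (p.leadingCoeff * c ^ (n + 1)) := by
    refine hlow.trans_lt ?_
    rw [L.mul, L.pow, pow_succ', ← mul_assoc]
    exact mul_lt_mul_of_pos_right hRj (pow_pos hcpos n)
  have hval := L.add_eq hlt
  rw [← hsum, L.mul, L.pow] at hval
  have h2 := h c hc1
  rw [hval] at h2
  have h3 : L.nm p.leadingCoeff * L.nm c * L.nm c ^ D ≤ L.nm p.leadingCoeff * L.nm c ^ (n + 1) := by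
    rw [mul_assoc, ← pow_succ']
    exact mul_le_mul_of_nonneg_left (pb_pow hc1 (Nat.succ_le_succ hDn)) ha.le
  exact absurd (le_of_mul_le_mul_right (h3.trans h2) (pow_pos hcpos D)) (not_le.2 hRC)

/-- The growth of the roots. Proof: if `nm w > nm c ^ ρ`, then `w ^ n` is greater than all other terms of `g (c, w)`. -/
theorem gs_root {M : IntermediateField K Ω} {ρ n : ℕ} {g : Polynomial (Polynomial Ω)}
    (hg : GM.Mc ρ n g) (ig : I₂ L M g) {c w : Ω} (hc : 1 ≤ L.nm c)
    (h : GM.ev₂ (c, w) g = 0) : L.nm w ≤ L.nm c ^ ρ := by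
  by_contra hcon
  rw [not_le] at hcon
  have hR : 1 ≤ L.nm c ^ ρ := one_le_pow₀ hc
  have hw1 : 1 ≤ L.nm w := hR.trans hcon.le
  have hwpos : 0 < L.nm w := zero_lt_one.trans_le hw1
  have e : GM.ev₂ (c, w) g = (∑ j ∈ Finset.range n, (g.coeff j).eval c * w ^ j) + w ^ n := by
    change Polynomial.eval c (Polynomial.eval (Polynomial.C w) g) = _
    have hlead : g.coeff n = 1 := by
      rw [← hg.deg]
      exact hg.monic
    rw [Polynomial.eval_eq_sum_range (p := g) (Polynomial.C w), hg.deg,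
      Finset.sum_range_succ, hlead, one_mul, Polynomial.eval_add, Polynomial.eval_finset_sum,
      Polynomial.eval_pow, Polynomial.eval_C]
    refine congrArg (· + w ^ n) ?_
    exact Finset.sum_congr rfl fun j _ => by
      rw [Polynomial.eval_mul, Polynomial.eval_pow, Polynomial.eval_C]
  rcases n with _ | n
  · rw [Finset.sum_range_zero, zero_add, pow_zero] at e
    rw [e] at h
    exact one_ne_zero h
  have hlow : L.nm (∑ j ∈ Finset.range (n + 1), (g.coeff j).eval c * w ^ j) ≤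
      L.nm c ^ ρ * L.nm w ^ n := by
    refine L.sum_le _ _ (mul_nonneg (zero_le_one.trans hR) (pow_nonneg hwpos.le _))
      fun j hj => ?_
    have hj' : j ≤ n := Nat.lt_succ_iff.1 (Finset.mem_range.1 hj)
    rw [L.mul, L.pow]
    have h1 : L.nm ((g.coeff j).eval c) ≤ L.nm c ^ ρ * L.nm w ^ (n - j) := by
      refine (pb_ev L (fun i => (ig j i).2) (hg.le j) hc).trans ?_
      have e1 : (n + 1 - j) * ρ = ρ + ρ * (n - j) := by
        rw [Nat.succ_sub hj', Nat.succ_mul, Nat.add_comm, Nat.mul_comm (n - j) ρ]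
      rw [e1, pow_add, pow_mul]
      exact mul_le_mul_of_nonneg_left
        (pow_le_pow_left₀ (zero_le_one.trans hR) hcon.le (n - j)) (zero_le_one.trans hR)
    refine (mul_le_mul_of_nonneg_right h1 (pow_nonneg hwpos.le j)).trans_eq ?_
    rw [mul_assoc, ← pow_add, Nat.sub_add_cancel hj']
  have hlt : L.nm (∑ j ∈ Finset.range (n + 1), (g.coeff j).eval c * w ^ j) <
      L.nm (w ^ (n + 1)) := by
    refine hlow.trans_lt ?_
    rw [L.pow, pow_succ']
    exact mul_lt_mul_of_pos_right hcon (pow_pos hwpos n)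
  have hval := L.add_eq hlt
  rw [← e, h, L.zero, L.pow] at hval
  exact absurd hval.symm (pow_pos hwpos _).ne'

end GX
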