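import Pool.Agent.Lib.MP_f80667_ag.Ep.Sd
import Pool.Agent.Lib.MP_f80667_ag.Ep.Pb
import Pool.Agent.Lib.MP_f80667_ag.Ep.Pb1

/-!
The branches over one centre, numbered.

* `acb X b β`: the arc `γ b + ϖ β (z)`.
* `Num L X b ν`: `ν k`, `k < n`, are the branches over the centre of `b`, one for every root.
-/

open ZC BE PE CV IntermediateField

namespace GX

variable {F : Type} [Field F] {N d m : ℕ} {ι : Type} {f : ι → MvPolynomial (Fin N) F}
  {K Ω : Type} [Field K] [CharZero K] [Field Ω] [Algebra K Ω] [Algebra F K] [Algebra F Ω]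
  [IsScalarTower F K Ω] [IsAlgClosure K Ω] {L : Ld K Ω} {X : Bd f K Ω d m}
  {M : IntermediateField K Ω} {b : X.B} {β : Fin (d + 1) → Polynomial Ω}

/-- The arc `γ b + ϖ β (z)`. -/
noncomputable def acb (X : Bd f K Ω d m) (b : X.B) (β : Fin (d + 1) → Polynomial Ω) :
    Fin (d + 1) → Polynomial Ω :=
  fun r => Polynomial.C (X.γ b r) + Polynomial.C X.ϖ * β r

omit [CharZero K] [IsAlgClosure K Ω] in
theorem acb_eval (c : Ω) : (fun r => (acb X b β r).eval c) = X.cc b fun r => (β r).eval c := by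
  funext r
  simp [acb, Bd.cc]

/-- Proof: `γ b`, `ϖ` are over `⊥`. -/
theorem Bd.Ok.acb_arc (hX : X.Ok L) (hβ : Arc L M β) : Arc L M (acb X b β) := by
  intro i j
  have e : (acb X b β i).coeff j = (if j = 0 then X.γ b i else 0) + X.ϖ * (β i).coeff j := by
    rw [acb, Polynomial.coeff_add, Polynomial.coeff_C, Polynomial.coeff_C_mul]
  have hϖ1 : L.nm X.ϖ ≤ 1 := by
    refine hX.sm.le.trans (pow_le_one₀ hX.ε0.le hX.ε1.le)
  rw [e]
  have h1 : X.ϖ * (β i).coeff j ∈ M ∧ L.nm (X.ϖ * (β i).coeff j) ≤ 1 := by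
    refine ⟨mul_mem ((bot_le : ⊥ ≤ M) hX.ϖm) (hβ i j).1, ?_⟩
    rw [L.mul]
    exact mul_le_one₀ hϖ1 (L.nonneg _) (hβ i j).2
  split_ifs
  · exact ⟨add_mem ((bot_le : ⊥ ≤ M) (hX.iv b i).1) h1.1,
      (L.add _ _).trans (max_le (hX.iv b i).2 h1.2)⟩
  · rw [zero_add]
    exact h1

omit [CharZero K] [IsAlgClosure K Ω] in
theorem acb_deg {ρ : ℕ} (hρ : ∀ r, (β r).natDegree ≤ ρ) (r : Fin (d + 1)) :
    (acb X b β r).natDegree ≤ ρ := by
  rw [acb]
  refine (Polynomial.natDegree_add_le _ _).trans (max_le ?_ ?_)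
  · rw [Polynomial.natDegree_C]
    exact Nat.zero_le _
  · exact (Polynomial.natDegree_C_mul_le _ _).trans (hρ r)

/-- The branches over the centre of `b`, numbered. -/
structure Num (X : Bd f K Ω d m) (b : X.B)
    (ν : Fin (X.ψ (X.i b)).G.natDegree → X.B) : Prop where
  i : ∀ k, X.i (ν k) = X.i b
  γ : ∀ k, X.γ (ν k) = X.γ b
  w : ∃ k, X.w (ν k) = X.w b
  ne : ∀ k l, k ≠ l → X.w (ν k) ≠ X.w (ν l)

/-- `G (c, Y)`. -/
private noncomputable def pcq {K Ω : Type} [Field K] [Field Ω] [Algebra K Ω] {d : ℕ}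
    (c : Fin (d + 1) → Ω) (P : Polynomial (MvPolynomial (Fin (d + 1)) K)) : Polynomial Ω :=
  P.map (MvPolynomial.aeval c : MvPolynomial (Fin (d + 1)) K →ₐ[K] Ω).toRingHom

private theorem pcq_eval {K Ω : Type} [Field K] [Field Ω] [Algebra K Ω] {d : ℕ}
    (c : Fin (d + 1) → Ω) (w : Ω) (P : Polynomial (MvPolynomial (Fin (d + 1)) K)) :
    (pcq c P).eval w = pe c w P := by
  rw [pcq, Polynomial.eval_map, pe, Polynomial.coe_eval₂RingHom]

private theorem pcq_der {K Ω : Type} [Field K] [Field Ω] [Algebra K Ω] {d : ℕ}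
    (c : Fin (d + 1) → Ω) (w : Ω) (P : Polynomial (MvPolynomial (Fin (d + 1)) K)) :
    (Polynomial.derivative (pcq c P)).eval w = pe c w (Polynomial.derivative P) := by
  rw [pcq, Polynomial.derivative_map]
  exact pcq_eval c w (Polynomial.derivative P)

/-- A monic polynomial of degree `n` with `n` different roots. -/
private theorem pc_prod {Ω : Type} [Field Ω] {g : Polynomial Ω} {n : ℕ} (hm : g.Monic)
    (hn : g.natDegree = n) {r : Fin n → Ω} (hr : Function.Injective r)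
    (h0 : ∀ k, g.eval (r k) = 0) : g = ∏ k, (Polynomial.X - Polynomial.C (r k)) := by
  have hnd : (Multiset.map r Finset.univ.val).Nodup :=
    (Multiset.nodup_map_iff_of_injective hr).2 Finset.univ.nodup
  have hle : Multiset.map r Finset.univ.val ≤ g.roots := by
    rw [Multiset.le_iff_subset hnd]
    intro x hx
    obtain ⟨k, -, rfl⟩ := Multiset.mem_map.1 hx
    rw [Polynomial.mem_roots hm.ne_zero]
    exact h0 k
  have hcard : (Multiset.map r Finset.univ.val).card = n := by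
    rw [Multiset.card_map]
    exact Fintype.card_fin n
  have heq : Multiset.map r Finset.univ.val = g.roots := by
    refine Multiset.eq_of_le_of_card_le hle ?_
    rw [hcard, ← hn]
    exact Polynomial.card_roots' g
  have h1 := Polynomial.prod_multiset_X_sub_C_of_monic_of_roots_card_eq hm
    (by rw [← heq, hcard, hn])
  rw [← heq, Multiset.map_map] at h1
  exact h1.symm

private theorem pc_roots (hX : X.Ok L) (b : X.B) :
    (pcq (X.γ b) (X.ψ (X.i b)).G).roots.Nodup ∧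
      (pcq (X.γ b) (X.ψ (X.i b)).G).roots.card = (X.ψ (X.i b)).G.natDegree := by
  classical
  have hψ := hX.pk (X.i b)
  have hΩ : IsAlgClosed Ω := IsAlgClosure.isAlgClosed K
  have hc : ∀ r, L.nm (X.γ b r) ≤ 1 := fun r => (hX.iv b r).2
  have hm : (pcq (X.γ b) (X.ψ (X.i b)).G).Monic := hψ.mon.map _
  have hdeg : (pcq (X.γ b) (X.ψ (X.i b)).G).natDegree = (X.ψ (X.i b)).G.natDegree :=
    hψ.mon.natDegree_map _
  have hnd : (pcq (X.γ b) (X.ψ (X.i b)).G).roots.Nodup := by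
    rw [Multiset.nodup_iff_count_le_one]
    intro a
    rw [Polynomial.count_roots]
    by_contra h1
    rw [not_le, Polynomial.one_lt_rootMultiplicity_iff_isRoot hm.ne_zero] at h1
    obtain ⟨h2, h3⟩ := h1
    rw [Polynomial.IsRoot.def] at h2 h3
    rw [pcq_eval] at h2
    rw [pcq_der] at h3
    have h4 := hψ.gy hc h2
    rw [h3, (L.zero_iff 0).2 rfl] at h4
    exact absurd (hX.ε0.trans_le (hX.D b)) (not_lt.2 h4)
  exact ⟨hnd, by rw [IsAlgClosed.card_roots_eq_natDegree, hdeg]⟩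

private theorem pc_rt0 (hX : X.Ok L) (b : X.B) : X.rt L b (fun _ => 0) = X.w b := by
  have h0 : ∀ r : Fin (d + 1), L.nm ((fun _ => 0 : Fin (d + 1) → Ω) r) ≤ 1 := fun r => by
    rw [(L.zero_iff 0).2 rfl]
    exact zero_le_one
  refine (hX.rt_uniq b h0 ?_ ?_).symm
  · have h1 : X.cc b (fun _ => 0) = X.γ b := by
      funext r
      rw [Bd.cc, mul_zero, add_zero]
    rw [h1]
    exact hX.root b
  · rw [sub_self, (L.zero_iff 0).2 rfl]
    exact hX.ε0

/-- Proof: `G (γ b, Y)` has `n` different roots (monic, `G_Y ≠ 0` at the roots: `Pk.gy`), over `Ω`; `all` gives a branch for each. -/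
theorem Bd.Ok.num (hX : X.Ok L) (b : X.B) : ∃ ν, Num X b ν := by
  classical
  have hψ := hX.pk (X.i b)
  have hm : (pcq (X.γ b) (X.ψ (X.i b)).G).Monic := hψ.mon.map _
  obtain ⟨hnd, hcard⟩ := pc_roots hX b
  obtain ⟨S, hS0⟩ : ∃ S : Finset Ω, S.val = (pcq (X.γ b) (X.ψ (X.i b)).G).roots :=
    ⟨⟨_, hnd⟩, rfl⟩
  have hS : ∀ w, w ∈ S ↔ pe (X.γ b) w (X.ψ (X.i b)).G = 0 := fun w => by
    rw [← Finset.mem_val, hS0, Polynomial.mem_roots hm.ne_zero, Polynomial.IsRoot.def, pcq_eval]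
  have hSc : S.card = (X.ψ (X.i b)).G.natDegree := by
    rw [Finset.card_def, hS0, hcard]
  let e := (Finset.equivFinOfCardEq hSc).symm
  have h1 : ∀ k, ∃ b', X.i b' = X.i b ∧ X.γ b' = X.γ b ∧ X.w b' = (e k : Ω) :=
    fun k => hX.all b _ ((hS _).1 (e k).2)
  choose ν h2 h3 h4 using h1
  refine ⟨ν, h2, h3, ⟨e.symm ⟨X.w b, (hS _).2 (hX.root b)⟩, ?_⟩, fun k l hkl h => hkl ?_⟩
  · rw [h4, Equiv.apply_symm_apply]
  · rw [h4, h4] at h
    exact e.injective (Subtype.ext h)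

variable {ν : Fin (X.ψ (X.i b)).G.natDegree → X.B}

/-- **The roots over the arc.** Proof: `G (γ b + ϖ h, Y)` is monic of degree `n` with the `n` different roots `rt (ν k) h` (`rt_root`, `rt_sep`). -/
theorem Num.prod (hX : X.Ok L) (hν : Num X b ν) (hβ : Arc L M β) {c : Ω} (hc : L.nm c ≤ 1) :
    (ga (acb X b β) (X.ψ (X.i b)).G).map (Polynomial.evalRingHom c) =
      ∏ k, (Polynomial.X - Polynomial.C (X.rt L (ν k) fun r => (β r).eval c)) := by
  have hψ := hX.pk (X.i b)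
  have hh : ∀ r, L.nm ((fun r => (β r).eval c) r) ≤ 1 := fun r =>
    L.eval_le (fun j => (hβ r j).2) hc
  refine pc_prod ?_ ?_ ?_ ?_
  · exact (hψ.mon.map _).map _
  · exact ((hψ.mon.map _).natDegree_map _).trans (hψ.mon.natDegree_map _)
  · intro k l hkl
    by_contra hne
    have h1 := hX.rt_sep (b' := ν k) (b := ν l) ((hν.i k).trans (hν.i l).symm)
      ((hν.γ k).trans (hν.γ l).symm) (hν.ne k l hne) hh
    have h2 : X.rt L (ν k) (fun r => (β r).eval c) - X.rt L (ν l) (fun r => (β r).eval c) = 0 :=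
      sub_eq_zero.2 hkl
    rw [h2, (L.zero_iff 0).2 rfl] at h1
    exact hν.ne k l hne (sub_eq_zero.1 ((L.zero_iff _).1 h1.symm))
  · intro k
    rw [← GM.ev₂_map (c, X.rt L (ν k) fun r => (β r).eval c), ga_ev, acb_eval]
    have h1 := hX.rt_root (ν k) hh
    have h2 : X.cc (ν k) (fun r => (β r).eval c) = X.cc b fun r => (β r).eval c := by
      funext r
      rw [Bd.cc, Bd.cc, hν.γ k]
    rw [h2, hν.i k] at h1
    exact h1

/-- Proof: the product is `G_Y (γ b, w k)` (`Num.prod` for `β = 0`), `Bd.Ok.gy`. -/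
theorem Num.dist (hX : X.Ok L) (hν : Num X b ν) (k : Fin (X.ψ (X.i b)).G.natDegree) :
    X.ε ≤ L.nm (∏ l ∈ Finset.univ.erase k, (X.w (ν k) - X.w (ν l))) := by
  have hψ := hX.pk (X.i b)
  have hm : (pcq (X.γ b) (X.ψ (X.i b)).G).Monic := hψ.mon.map _
  have hdeg : (pcq (X.γ b) (X.ψ (X.i b)).G).natDegree = (X.ψ (X.i b)).G.natDegree :=
    hψ.mon.natDegree_map _
  have hroot : ∀ k, pe (X.γ b) (X.w (ν k)) (X.ψ (X.i b)).G = 0 := fun k => by
    have h1 := hX.root (ν k)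
    rwa [hν.γ k, hν.i k] at h1
  have h1 := pc_prod hm hdeg (r := fun k => X.w (ν k))
    (fun k l h => by
      by_contra hne
      exact hν.ne k l hne h) fun k => by rw [pcq_eval]; exact hroot k
  have h2 := pcq_der (X.γ b) (X.w (ν k)) (X.ψ (X.i b)).G
  rw [h1, ← Finset.mul_prod_erase Finset.univ _ (Finset.mem_univ k),
    Polynomial.derivative_mul, Polynomial.derivative_sub, Polynomial.derivative_X,
    Polynomial.derivative_C, sub_zero, one_mul, Polynomial.eval_add, Polynomial.eval_mul,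
    Polynomial.eval_sub, Polynomial.eval_X, Polynomial.eval_C, sub_self, zero_mul, add_zero,
    Polynomial.eval_prod] at h2
  have h3 : ∏ l ∈ Finset.univ.erase k, (X.w (ν k) - X.w (ν l)) =
      pe (X.γ b) (X.w (ν k)) (Polynomial.derivative (X.ψ (X.i b)).G) := by
    rw [← h2]
    exact Finset.prod_congr rfl fun l _ => by
      rw [Polynomial.eval_sub, Polynomial.eval_X, Polynomial.eval_C]
  rw [h3]
  exact (hX.D b).trans (hψ.gy (fun r => (hX.iv b r).2) (hroot k))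

/-- Proof: `Pk.am` at the centre, `A_j (c, w)` has norm `≤ 1`. -/
theorem Num.am (hX : X.Ok L) (hν : Num X b ν) (k : Fin (X.ψ (X.i b)).G.natDegree) :
    ∃ a : Ω, a ∈ (⊥ : IntermediateField K Ω) ∧ 1 ≤ L.nm a ∧ L.nm a * X.ε ^ 2 ≤ 1 ∧
      (∀ j, L.nm (a * pe (X.γ b) (X.w (ν k)) ((X.ψ (X.i b)).A j)) ≤ 1) ∧
        ∃ j, L.nm (a * pe (X.γ b) (X.w (ν k)) ((X.ψ (X.i b)).A j)) = 1 := by
  have hψ := hX.pk (X.i b)
  have hc : ∀ r, L.nm (X.γ b r) ≤ 1 := fun r => (hX.iv b r).2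
  have hroot : pe (X.γ b) (X.w (ν k)) (X.ψ (X.i b)).G = 0 := by
    have h1 := hX.root (ν k)
    rwa [hν.γ k, hν.i k] at h1
  obtain ⟨j₁, hj₁⟩ := hψ.am hc hroot (L.ne_zero (hX.ε0.trans_le (hX.D b)))
  obtain ⟨j, -, hj⟩ := Finset.exists_max_image Finset.univ
    (fun j => L.nm (pe (X.γ b) (X.w (ν k)) ((X.ψ (X.i b)).A j))) ⟨j₁, Finset.mem_univ j₁⟩
  have hj' : ∀ k', L.nm (pe (X.γ b) (X.w (ν k)) ((X.ψ (X.i b)).A k')) ≤
      L.nm (pe (X.γ b) (X.w (ν k)) ((X.ψ (X.i b)).A j)) := fun k' => hj k' (Finset.mem_univ k')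
  have hA : X.ε ^ 2 ≤ L.nm (pe (X.γ b) (X.w (ν k)) ((X.ψ (X.i b)).A j)) :=
    ((pow_le_pow_left₀ hX.ε0.le (hX.D b) 2).trans hj₁).trans (hj' j₁)
  have hpos : 0 < L.nm (pe (X.γ b) (X.w (ν k)) ((X.ψ (X.i b)).A j)) :=
    (pow_pos hX.ε0 2).trans_le hA
  have hne : pe (X.γ b) (X.w (ν k)) ((X.ψ (X.i b)).A j) ≠ 0 := L.ne_zero hpos
  have hle : L.nm (pe (X.γ b) (X.w (ν k)) ((X.ψ (X.i b)).A j)) ≤ 1 :=
    pe_le (hψ.iA j) hc (hX.wl (ν k))
  refine ⟨(pe (X.γ b) (X.w (ν k)) ((X.ψ (X.i b)).A j))⁻¹,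
    inv_mem (pe_mem _ (fun r => (hX.iv b r).1) (hX.wm (ν k))), ?_, ?_, fun k' => ?_, j, ?_⟩
  · rw [L.inv]
    exact (one_le_inv₀ hpos).2 hle
  · rw [L.inv, inv_mul_le_iff₀ hpos, mul_one]
    exact hA
  · rw [L.mul, L.inv, inv_mul_le_iff₀ hpos, mul_one]
    exact hj' k'
  · rw [inv_mul_cancel₀ hne, L.one]

end GX
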