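import Pool.Agent.Lib.MP_f80667_ag.Ep.Pa
import Pool.Agent.Lib.MP_f80667_ag.Ep.Pa1
import Pool.Agent.Lib.MP_f80667_ag.Ep.Pc

/-!
**The polydisc chart**: the coordinate `Q (Y)` separates the branches over one centre.
-/

open ZC BE PE CV IntermediateField

namespace GX

variable {F : Type} [Field F] {N d m : ℕ} {ι : Type} {f : ι → MvPolynomial (Fin N) F}
  {K Ω : Type} [Field K] [CharZero K] [Field Ω] [Algebra K Ω] [Algebra F K] [Algebra F Ω]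
  [IsScalarTower F K Ω] [IsAlgClosure K Ω] {L : Ld K Ω} {X : Bd f K Ω d m}
  {M : IntermediateField K Ω} {b : X.B} {β : Fin (d + 1) → Polynomial Ω}
  {ν : Fin (X.ψ (X.i b)).G.natDegree → X.B}

/-- The polydisc chart: `q k c` is the value of the new coordinate on the branch `k` over the point `c` of the arc `β`, `α k c` the factor of the coordinates. -/
structure Pch (L : Ld K Ω) (X : Bd f K Ω d m) (M : IntermediateField K Ω) (b : X.B)
    (ν : Fin (X.ψ (X.i b)).G.natDegree → X.B) (β : Fin (d + 1) → Polynomial Ω)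
    (θ : Fin (X.ψ (X.i b)).G.natDegree → Ω) (ρ : ℕ)
    (q α : Fin (X.ψ (X.i b)).G.natDegree → Ω → Ω) (g : Polynomial (Polynomial Ω))
    (A : Fin N → Polynomial (Polynomial Ω)) : Prop where
  mc : GM.Mc ρ (X.ψ (X.i b)).G.natDegree g
  ig : I₂ L M g
  iA : ∀ j, I₂ L M (A j)
  q1 : ∀ k c, L.nm c ≤ 1 → L.nm (q k c) ≤ 1
  qθ : ∀ k c, L.nm c ≤ 1 → L.nm (q k c - θ k) < 1
  gq : ∀ c, L.nm c ≤ 1 →
    g.map (Polynomial.evalRingHom c) = ∏ k, (Polynomial.X - Polynomial.C (q k c))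
  Aq : ∀ j c, L.nm c ≤ 1 → (A j).map (Polynomial.evalRingHom c) =
    ∑ k, Polynomial.C (α k c * pe (X.cc b fun r => (β r).eval c)
      (X.rt L (ν k) fun r => (β r).eval c) ((X.ψ (X.i b)).A j)) *
        ∏ l ∈ Finset.univ.erase k, (Polynomial.X - Polynomial.C (q l c))
  α1 : ∀ k c, L.nm c ≤ 1 → ∃ j, L.nm (α k c * pe (X.cc b fun r => (β r).eval c)
      (X.rt L (ν k) fun r => (β r).eval c) ((X.ψ (X.i b)).A j)) = 1

private theorem pd_m (hX : X.Ok L) {n : ℕ} (hn : n ≤ 12) : L.nm X.ϖ < X.ε ^ n :=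
  hX.sm.trans_le (pow_le_pow_of_le_one hX.ε0.le hX.ε1.le hn)

private theorem pd_near (X : Bd f K Ω d m) (b : X.B) {h : Fin (d + 1) → Ω}
    (hh : ∀ r, L.nm (h r) ≤ 1) (r : Fin (d + 1)) :
    L.nm (X.cc b h r - X.γ b r) ≤ L.nm X.ϖ := by
  have e : X.cc b h r - X.γ b r = X.ϖ * h r := by
    rw [Bd.cc]
    ring
  rw [e, L.mul]
  exact mul_le_of_le_one_right (L.nonneg _) (hh r)

private theorem pd_le (hX : X.Ok L) (b : X.B) {h : Fin (d + 1) → Ω}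
    (hh : ∀ r, L.nm (h r) ≤ 1) (r : Fin (d + 1)) : L.nm (X.cc b h r) ≤ 1 := by
  have e : X.cc b h r = (X.cc b h r - X.γ b r) + X.γ b r := by ring
  have h1 := pd_m hX (n := 0) (by norm_num)
  rw [pow_zero] at h1
  rw [e]
  exact (L.add _ _).trans (max_le ((pd_near X b hh r).trans h1.le) (hX.iv b r).2)

/-- The root of the branch `b` is near the root over the centre. -/
private theorem pd_rt (hX : X.Ok L) (b : X.B) {h : Fin (d + 1) → Ω}
    (hh : ∀ r, L.nm (h r) ≤ 1) : L.nm (X.rt L b h - X.w b) ≤ X.ε ^ 11 := by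
  have h1 := hX.rt_le b hh
  have h2 := hX.sm.le
  have e : X.ε ^ 12 = X.ε ^ 11 * X.ε := by ring
  rw [e] at h2
  exact le_of_mul_le_mul_right (h1.trans h2) hX.ε0

/-- **The polynomials `Q` and `a`.** `Q (w k) = θ k`, `a (w k)` = the number of `Num.am`. Proof: `lg_ex` (`B = 1`, `B = ε ^ (-2)`), `Num.dist`, `rt_le`, `lg_lip`: `Q (rt (ν k) h) - θ k` has norm `≤ nm ϖ ε ^ (-2) < 1`;
`a (rt (ν k) h) - a (w k)` has norm `≤ nm ϖ ε ^ (-4) < 1 ≤ nm (a (w k))`; the values of `A_j` at `(cc b h, rt (ν k) h)` and at the centre differ by at most `nm ϖ ε ^ (-1)` (`pe_close`), and `nm a ≤ ε ^ (-2)`. -/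
theorem Num.qa (hX : X.Ok L) (hν : Num X b ν)
    {θ : Fin (X.ψ (X.i b)).G.natDegree → Ω}
    (hθ : ∀ k, θ k ∈ (⊥ : IntermediateField K Ω) ∧ L.nm (θ k) ≤ 1) :
    ∃ (Q a : Polynomial Ω) (C : ℝ), 0 ≤ C ∧ (∀ j, Q.coeff j ∈ (⊥ : IntermediateField K Ω)) ∧
      (∀ j, a.coeff j ∈ (⊥ : IntermediateField K Ω)) ∧ (∀ j, L.nm (Q.coeff j) ≤ C) ∧
      Q.natDegree ≤ (X.ψ (X.i b)).G.natDegree ∧
      ∀ k (h : Fin (d + 1) → Ω), (∀ r, L.nm (h r) ≤ 1) →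
        L.nm (Q.eval (X.rt L (ν k) h)) ≤ 1 ∧ L.nm (Q.eval (X.rt L (ν k) h) - θ k) < 1 ∧
        (∀ j, L.nm (a.eval (X.rt L (ν k) h) * pe (X.cc b h) (X.rt L (ν k) h)
          ((X.ψ (X.i b)).A j)) ≤ 1) ∧
        ∃ j, L.nm (a.eval (X.rt L (ν k) h) * pe (X.cc b h) (X.rt L (ν k) h)
          ((X.ψ (X.i b)).A j)) = 1 := by
  have hε0 := hX.ε0
  have hε1 := hX.ε1
  have hw : ∀ k, X.w (ν k) ∈ (⊥ : IntermediateField K Ω) ∧ L.nm (X.w (ν k)) ≤ 1 :=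
    fun k => ⟨hX.wm _, hX.wl _⟩
  obtain ⟨Q, hQ1, hQ2, hQ3⟩ := lg_ex L (w := fun k => X.w (ν k)) (v := θ) hw (fun k => (hθ k).1)
    hε0 zero_le_one (fun k => (hθ k).2) (fun k => hν.dist hX k)
  choose a' ha1 ha2 ha3 ha4 ha5 using fun k => hν.am hX k
  have hε2 : 0 < X.ε ^ 2 := pow_pos hε0 2
  obtain ⟨a, -, hb2, hb3⟩ := lg_ex L (w := fun k => X.w (ν k)) (v := a') hw ha1
    hε0 (B := 1 / X.ε ^ 2) (div_nonneg zero_le_one hε2.le)
    (fun k => (le_div_iff₀ hε2).2 (ha3 k)) (fun k => hν.dist hX k)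
  refine ⟨Q, a, 1 / X.ε, div_nonneg zero_le_one hε0.le, fun j => (hQ2 j).1, fun j => (hb2 j).1,
    fun j => (hQ2 j).2, hQ1, fun k h hh => ?_⟩
  have hi := hν.i k
  have hγ := hν.γ k
  have hr := pd_rt hX (ν k) hh
  have hp11 : X.ε ^ 11 ≤ 1 := pow_le_one₀ hε0.le hε1.le
  have hr1 : L.nm (X.rt L (ν k) h) ≤ 1 := by
    have e : X.rt L (ν k) h = (X.rt L (ν k) h - X.w (ν k)) + X.w (ν k) := by ring
    rw [e]
    exact (L.add _ _).trans (max_le (hr.trans hp11) (hX.wl _))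
  have hQr : L.nm (Q.eval (X.rt L (ν k) h) - θ k) < 1 := by
    have h1 := lg_lip L (div_nonneg zero_le_one hε0.le) (fun j => (hQ2 j).2) (hX.wl (ν k)) hr1
    have h2 : Q.eval (X.w (ν k)) = θ k := hQ3 k
    rw [h2] at h1
    refine h1.trans_lt ?_
    have h3 : 1 / X.ε * L.nm (X.rt L (ν k) h - X.w (ν k)) ≤ 1 / X.ε * X.ε ^ 11 :=
      mul_le_mul_of_nonneg_left hr (div_nonneg zero_le_one hε0.le)
    refine h3.trans_lt ?_
    have e : 1 / X.ε * X.ε ^ 11 = X.ε ^ 10 := by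
      field_simp
    rw [e]
    exact pow_lt_one₀ hε0.le hε1 (by norm_num)
  have har : L.nm (a.eval (X.rt L (ν k) h) - a' k) ≤ X.ε ^ 8 := by
    have h1 := lg_lip L (div_nonneg (div_nonneg zero_le_one hε2.le) hε0.le)
      (fun j => (hb2 j).2) (hX.wl (ν k)) hr1
    have h2 : a.eval (X.w (ν k)) = a' k := hb3 k
    rw [h2] at h1
    refine h1.trans ?_
    have h3 : 1 / X.ε ^ 2 / X.ε * L.nm (X.rt L (ν k) h - X.w (ν k)) ≤
        1 / X.ε ^ 2 / X.ε * X.ε ^ 11 :=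
      mul_le_mul_of_nonneg_left hr (div_nonneg (div_nonneg zero_le_one hε2.le) hε0.le)
    refine h3.trans (le_of_eq ?_)
    field_simp
  have hA : ∀ j, L.nm (pe (X.cc b h) (X.rt L (ν k) h) ((X.ψ (X.i b)).A j) -
      pe (X.γ b) (X.w (ν k)) ((X.ψ (X.i b)).A j)) ≤ X.ε ^ 11 := by
    intro j
    refine pe_close ((hX.pk (X.i b)).iA j) (pd_le hX b hh) hr1 (fun r => (hX.iv b r).2)
      (hX.wl (ν k)) (pow_nonneg hε0.le _) (fun r => ?_) hr
    exact (pd_near X b hh r).trans (pd_m hX (n := 11) (by norm_num)).le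
  have hA1 : ∀ j, L.nm (pe (X.cc b h) (X.rt L (ν k) h) ((X.ψ (X.i b)).A j)) ≤ 1 :=
    fun j => pe_le ((hX.pk (X.i b)).iA j) (pd_le hX b hh) hr1
  have hd : ∀ j, L.nm (a.eval (X.rt L (ν k) h) * pe (X.cc b h) (X.rt L (ν k) h)
      ((X.ψ (X.i b)).A j) - a' k * pe (X.γ b) (X.w (ν k)) ((X.ψ (X.i b)).A j)) < 1 := by
    intro j
    have e : a.eval (X.rt L (ν k) h) * pe (X.cc b h) (X.rt L (ν k) h)
        ((X.ψ (X.i b)).A j) - a' k * pe (X.γ b) (X.w (ν k)) ((X.ψ (X.i b)).A j) =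
        (a.eval (X.rt L (ν k) h) - a' k) * pe (X.cc b h) (X.rt L (ν k) h)
          ((X.ψ (X.i b)).A j) + a' k * (pe (X.cc b h) (X.rt L (ν k) h)
          ((X.ψ (X.i b)).A j) - pe (X.γ b) (X.w (ν k)) ((X.ψ (X.i b)).A j)) := by
      ring
    rw [e]
    refine (L.add _ _).trans_lt (max_lt ?_ ?_)
    · rw [L.mul]
      refine (mul_le_mul har (hA1 j) (L.nonneg _) (pow_nonneg hε0.le _)).trans_lt ?_
      rw [mul_one]
      exact pow_lt_one₀ hε0.le hε1 (by norm_num)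
    · rw [L.mul]
      refine (mul_le_mul_of_nonneg_left (hA j) (L.nonneg _)).trans_lt ?_
      have e2 : L.nm (a' k) * X.ε ^ 11 = L.nm (a' k) * X.ε ^ 2 * X.ε ^ 9 := by ring
      rw [e2]
      refine (mul_le_of_le_one_left (pow_nonneg hε0.le _) (ha3 k)).trans_lt ?_
      exact pow_lt_one₀ hε0.le hε1 (by norm_num)
  refine ⟨?_, hQr, fun j => ?_, ?_⟩
  · have e : Q.eval (X.rt L (ν k) h) = (Q.eval (X.rt L (ν k) h) - θ k) + θ k := by ring
    rw [e]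
    exact (L.add _ _).trans (max_le hQr.le (hθ k).2)
  · have e : a.eval (X.rt L (ν k) h) * pe (X.cc b h) (X.rt L (ν k) h)
        ((X.ψ (X.i b)).A j) = (a.eval (X.rt L (ν k) h) * pe (X.cc b h) (X.rt L (ν k) h)
        ((X.ψ (X.i b)).A j) - a' k * pe (X.γ b) (X.w (ν k)) ((X.ψ (X.i b)).A j)) +
        a' k * pe (X.γ b) (X.w (ν k)) ((X.ψ (X.i b)).A j) := by ring
    rw [e]
    exact (L.add _ _).trans (max_le (hd j).le (ha4 k j))
  · obtain ⟨j, hj⟩ := ha5 k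
    refine ⟨j, ?_⟩
    rw [L.eq_of_close (by rw [hj]; exact hd j), hj]

end GX
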