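import Pool.Agent.Lib.MP_f80667_ag.Ep.Pd

/-! The existence of the polydisc chart. -/

open ZC BE PE CV IntermediateField

namespace GX

variable {F : Type} [Field F] {N d m : ℕ} {ι : Type} {f : ι → MvPolynomial (Fin N) F}
  {K Ω : Type} [Field K] [CharZero K] [Field Ω] [Algebra K Ω] [Algebra F K] [Algebra F Ω]
  [IsScalarTower F K Ω] [IsAlgClosure K Ω] {L : Ld K Ω} {X : Bd f K Ω d m}
  {M : IntermediateField K Ω} {b : X.B} {β : Fin (d + 1) → Polynomial Ω}
  {ν : Fin (X.ψ (X.i b)).G.natDegree → X.B}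

omit [CharZero K] [IsAlgClosure K Ω] in
private theorem pdt_deg {σ : Type} (a : σ → Polynomial Ω) {ρ : ℕ}
    (ha : ∀ r, (a r).natDegree ≤ ρ) {Q : MvPolynomial σ K} {e : ℕ} (hQ : Q.IsHomogeneous e) :
    (MvPolynomial.aeval a Q : Polynomial Ω).natDegree ≤ e * ρ := by
  rw [MvPolynomial.aeval_def, MvPolynomial.eval₂_eq]
  refine Polynomial.natDegree_sum_le_of_forall_le _ _ fun D hD => ?_
  have h1 := hQ (MvPolynomial.mem_support_iff.1 hD)
  rw [Polynomial.algebraMap_apply]
  refine (Polynomial.natDegree_C_mul_le _ _).trans ?_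
  refine (Polynomial.natDegree_prod_le _ _).trans ?_
  have h2 : ∀ i ∈ D.support, (a i ^ D i).natDegree ≤ D i * ρ := fun i _ =>
    (Polynomial.natDegree_pow_le).trans (Nat.mul_le_mul_left _ (ha i))
  refine (Finset.sum_le_sum h2).trans ?_
  rw [← Finset.sum_mul]
  refine Nat.mul_le_mul_right _ (le_of_eq ?_)
  rw [← h1, Finsupp.weight_apply]
  simp [Finsupp.sum]

/-- The polynomials with coefficients in `M`. -/
private def pdtS (M : IntermediateField K Ω) : Subring (Polynomial Ω) where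
  carrier := {p | ∀ j, p.coeff j ∈ M}
  mul_mem' {p q} hp hq j := by
    rw [Polynomial.coeff_mul]
    exact sum_mem fun x _ => M.mul_mem (hp _) (hq _)
  one_mem' j := by
    rw [Polynomial.coeff_one]
    split_ifs
    · exact M.one_mem
    · exact M.zero_mem
  add_mem' {p q} hp hq j := by
    rw [Polynomial.coeff_add]
    exact M.add_mem (hp j) (hq j)
  zero_mem' j := by
    rw [Polynomial.coeff_zero]
    exact M.zero_mem
  neg_mem' {p} hp j := by
    rw [Polynomial.coeff_neg]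
    exact M.neg_mem (hp j)

omit [CharZero K] [IsAlgClosure K Ω] in
private theorem pdtC {M : IntermediateField K Ω} {Q : Polynomial Ω}
    (hQ : ∀ j, Q.coeff j ∈ (⊥ : IntermediateField K Ω)) (i : ℕ) :
    (Q.map (Polynomial.C : Ω →+* Polynomial Ω)).coeff i ∈ pdtS M := by
  intro j
  rw [Polynomial.coeff_map, Polynomial.coeff_C]
  split_ifs
  · exact (bot_le : ⊥ ≤ M) (hQ i)
  · exact M.zero_mem

private theorem pdtM {Q : Polynomial Ω} (c : Ω) :
    (Q.map (Polynomial.C : Ω →+* Polynomial Ω)).map (Polynomial.evalRingHom c) = Q := by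
  rw [Polynomial.map_map]
  have h : (Polynomial.evalRingHom c).comp (Polynomial.C : Ω →+* Polynomial Ω) =
      RingHom.id Ω := by
    ext x
    simp
  rw [h, Polynomial.map_id]

omit [CharZero K] [IsAlgClosure K Ω] in
private theorem pdt_mul (L : Ld K Ω) {p q : Polynomial Ω} (hp : ∀ i, L.nm (p.coeff i) ≤ 1)
    (hq : ∀ i, L.nm (q.coeff i) ≤ 1) (i : ℕ) : L.nm ((p * q).coeff i) ≤ 1 := by
  rw [Polynomial.coeff_mul]
  refine L.sum_le _ _ zero_le_one fun x _ => ?_
  rw [L.mul]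
  exact mul_le_one₀ (hp _) (L.nonneg _) (hq _)

private theorem pdt_prod (L : Ld K Ω) {n : ℕ} (s : Finset (Fin n)) {w : Fin n → Ω}
    (hw : ∀ k, L.nm (w k) ≤ 1) (i : ℕ) :
    L.nm ((∏ l ∈ s, (Polynomial.X - Polynomial.C (w l))).coeff i) ≤ 1 := by
  classical
  induction s using Finset.induction_on generalizing i with
  | empty =>
    rw [Finset.prod_empty, Polynomial.coeff_one]
    split_ifs
    · exact L.one.le
    · rw [L.zero]
      exact zero_le_one
  | insert a s ha ih =>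
    rw [Finset.prod_insert ha]
    refine pdt_mul L (fun j => ?_) ih i
    rw [Polynomial.coeff_sub, Polynomial.coeff_X, Polynomial.coeff_C]
    refine (L.sub _ _).trans (max_le ?_ ?_)
    · split_ifs
      · exact L.one.le
      · rw [L.zero]
        exact zero_le_one
    · split_ifs
      · exact hw a
      · rw [L.zero]
        exact zero_le_one

private theorem pdt_split [IsAlgClosed Ω] {p : Polynomial Ω} {n : ℕ} (hp : p.Monic)
    (hn : p.natDegree = n) :
    ∃ w : Fin n → Ω, p = ∏ k, (Polynomial.X - Polynomial.C (w k)) := by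
  have h1 := IsAlgClosed.splits p
  have h2 := h1.natDegree_eq_card_roots
  rw [hn] at h2
  obtain ⟨l, hl⟩ : ∃ l : List Ω, (l : Multiset Ω) = p.roots := ⟨p.roots.toList, by simp⟩
  have h3 : l.length = n := by
    rw [h2, ← hl, Multiset.coe_card]
  subst h3
  refine ⟨fun k => l.get k, ?_⟩
  have h4 := h1.eq_prod_roots_of_monic hp
  rw [h4, ← hl, Multiset.map_coe, Multiset.prod_coe, ← List.prod_ofFn]
  congr 1
  conv_lhs => rw [← List.ofFn_get l, List.map_ofFn]
  rfl

/-- `Mc` of the raw curve. Proof: as `ch_of`, field `mc` (`Pk.mon`, `Pk.homG`). -/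
theorem Bd.Ok.mc₀ (hX : X.Ok L) (b : X.B) {ρ : ℕ} (hρ : ∀ r, (β r).natDegree ≤ ρ) :
    GM.Mc ρ (X.ψ (X.i b)).G.natDegree (ga (acb X b β) (X.ψ (X.i b)).G) := by
  have h := hX.pk (X.i b)
  refine ⟨h.mon.map _, h.mon.natDegree_map _, fun j => ?_⟩
  rw [ga_coeff]
  exact pdt_deg _ (fun r => acb_deg hρ r) (h.homG j)

/-- **The polydisc chart.** Proof: `S` = the subring of the polynomials in `z` with coefficients in `M`; `g₀ = ga (acb X b β) G`; `sy_g` with `Q` (constant in `z`: `Q.map Polynomial.C`), `sy_A` with `U = a * A_j`; `φ = evalRingHom c`; for `nm c ≤ 1` the roots are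
`rt (ν k) (β c)` (`Num.prod`): `gq`, `Aq`. Integrality: every coefficient (in `Y`) is a polynomial in `z` with values of norm `≤ 1` for `nm c ≤ 1` (`cf_prod` with `t = 1`; sums, products): `gs_le`. Degrees: for `1 ≤ nm c` the roots `w k` of `g₀ (c, .)` (`Ω` is
algebraically closed) have norm `≤ nm c ^ ρ₀` (`gs_root`; `Mc ρ₀ n g₀` as in `ch_of`), so `Q (w k)` has norm `≤ (C + 1) nm c ^ (ρ₀ n)` (`lg_gr`), `cf_prod`, `gs_deg`: `ρ = ρ₀ n`. -/
theorem Num.chart (hX : X.Ok L) (hν : Num X b ν) (hβ : Arc L M β)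
    {θ : Fin (X.ψ (X.i b)).G.natDegree → Ω}
    (hθ : ∀ k, θ k ∈ (⊥ : IntermediateField K Ω) ∧ L.nm (θ k) ≤ 1) :
    ∃ (ρ : ℕ) (q α : Fin (X.ψ (X.i b)).G.natDegree → Ω → Ω) (g : Polynomial (Polynomial Ω))
      (A : Fin N → Polynomial (Polynomial Ω)), Pch L X M b ν β θ ρ q α g A := by
  have : IsAlgClosed Ω := IsAlgClosure.isAlgClosed K
  obtain ⟨Q, a, C, hC, hQ, ha, hQC, hQn, hqa⟩ := hν.qa hX hθ
  have hpk := hX.pk (X.i b)
  have harc := hX.acb_arc (b := b) hβ
  obtain ⟨ρ₀, hρ₀⟩ : ∃ ρ₀ : ℕ, ∀ r, (β r).natDegree ≤ ρ₀ :=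
    ⟨Finset.univ.sup fun r => (β r).natDegree, fun r =>
      Finset.le_sup (f := fun r => (β r).natDegree) (Finset.mem_univ r)⟩
  have hmc := hX.mc₀ b hρ₀
  have hig : I₂ L M (ga (acb X b β) (X.ψ (X.i b)).G) := ga_I₂ harc hpk.iG
  obtain ⟨g, hgS, hgm, hgn, hg⟩ := sy_g (pdtS M) hmc.monic hmc.deg (fun i j => (hig i j).1)
    (pdtC (M := M) hQ)
  have hU : ∀ j i, (a.map (Polynomial.C : Ω →+* Polynomial Ω) *
      ga (acb X b β) ((X.ψ (X.i b)).A j)).coeff i ∈ pdtS M := by
    intro j i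
    rw [Polynomial.coeff_mul]
    exact sum_mem fun x _ => mul_mem (pdtC ha _) fun k => (ga_I₂ harc (hpk.iA j) _ k).1
  have hA := fun j => sy_A (pdtS M) hmc.monic hmc.deg (fun i j => (hig i j).1) (hU j)
    (pdtC (M := M) hQ)
  choose A hAS hA' using hA
  have hβ1 : ∀ c, L.nm c ≤ 1 → ∀ r, L.nm ((β r).eval c) ≤ 1 := fun c hc r =>
    L.eval_le (fun i => (hβ r i).2) hc
  have hgq : ∀ c, L.nm c ≤ 1 → g.map (Polynomial.evalRingHom c) =
      ∏ k, (Polynomial.X - Polynomial.C
        (Q.eval (X.rt L (ν k) fun r => (β r).eval c))) := by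
    intro c hc
    have h1 := hg Ω (Polynomial.evalRingHom c) _ (hν.prod hX hβ hc)
    rw [pdtM] at h1
    exact h1
  have hAq : ∀ j c, L.nm c ≤ 1 → (A j).map (Polynomial.evalRingHom c) =
      ∑ k, Polynomial.C (a.eval (X.rt L (ν k) fun r => (β r).eval c) *
        pe (X.cc b fun r => (β r).eval c) (X.rt L (ν k) fun r => (β r).eval c)
          ((X.ψ (X.i b)).A j)) * ∏ l ∈ Finset.univ.erase k, (Polynomial.X - Polynomial.C
            (Q.eval (X.rt L (ν l) fun r => (β r).eval c))) := by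
    intro j c hc
    have h1 := hA' j Ω (Polynomial.evalRingHom c) _ (hν.prod hX hβ hc)
    rw [pdtM] at h1
    rw [h1]
    refine Finset.sum_congr rfl fun k _ => ?_
    rw [Polynomial.map_mul, Polynomial.eval_mul, pdtM]
    have h2 := ga_ev (acb X b β) ((X.ψ (X.i b)).A j) c (X.rt L (ν k) fun r => (β r).eval c)
    rw [acb_eval, GM.ev₂_eq, ← Polynomial.map_evalRingHom_eval] at h2
    rw [h2]
  refine ⟨ρ₀ * (X.ψ (X.i b)).G.natDegree,
    fun k c => Q.eval (X.rt L (ν k) fun r => (β r).eval c),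
    fun k c => a.eval (X.rt L (ν k) fun r => (β r).eval c), g, A, ?_⟩
  refine ⟨⟨hgm, hgn, fun j => ?_⟩, fun i j => ⟨hgS i j, ?_⟩, fun j i k => ⟨hAS j i k, ?_⟩,
    fun k c hc => (hqa k _ (hβ1 c hc)).1, fun k c hc => (hqa k _ (hβ1 c hc)).2.1, hgq, hAq,
    fun k c hc => (hqa k _ (hβ1 c hc)).2.2.2⟩
  · rcases lt_or_ge (X.ψ (X.i b)).G.natDegree j with hj | hj
    · rw [Polynomial.coeff_eq_zero_of_natDegree_lt (by rw [hgn]; exact hj),
        Polynomial.natDegree_zero]
      exact Nat.zero_le _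
    · refine gs_deg L (C := (C + 1) ^ ((X.ψ (X.i b)).G.natDegree - j)) fun c hc => ?_
      obtain ⟨w, hw⟩ := pdt_split (hmc.monic.map (Polynomial.evalRingHom c))
        ((hmc.monic.natDegree_map _).trans hmc.deg)
      have h1 := hg Ω (Polynomial.evalRingHom c) w hw
      rw [pdtM] at h1
      have h2 : (g.coeff j).eval c = (g.map (Polynomial.evalRingHom c)).coeff j := by
        rw [Polynomial.coeff_map]
        rfl
      rw [h2, h1]
      have hw1 : ∀ k, L.nm (w k) ≤ L.nm c ^ ρ₀ := by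
        intro k
        refine gs_root L hmc hig hc ?_
        rw [GM.ev₂_eq, ← Polynomial.map_evalRingHom_eval, hw, Polynomial.eval_prod]
        refine Finset.prod_eq_zero (Finset.mem_univ k) ?_
        rw [Polynomial.eval_sub, Polynomial.eval_X, Polynomial.eval_C, sub_self]
      have ht : 1 ≤ L.nm c ^ ρ₀ := one_le_pow₀ hc
      have hw2 : ∀ k, L.nm (Q.eval (w k)) ≤ (C + 1) * (L.nm c ^ ρ₀) ^
          (X.ψ (X.i b)).G.natDegree := fun k =>
        (lg_gr L hQC hQn ht (hw1 k)).trans (mul_le_mul_of_nonneg_right (by linarith)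
          (pow_nonneg (zero_le_one.trans ht) _))
      refine (cf_prod L (fun k => Q.eval (w k)) (mul_nonneg (by linarith)
        (pow_nonneg (zero_le_one.trans ht) _)) hw2 hj).trans (le_of_eq ?_)
      rw [mul_pow, ← pow_mul, ← pow_mul]
      congr 2
      ring
  · refine gs_le L (fun c hc => ?_) j
    have h2 : (g.coeff i).eval c = (g.map (Polynomial.evalRingHom c)).coeff i := by
      rw [Polynomial.coeff_map]
      rfl
    rw [h2, hgq c hc]
    exact pdt_prod L _ (fun k => (hqa k _ (hβ1 c hc)).1) i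
  · refine gs_le L (fun c hc => ?_) k
    have h2 : ((A j).coeff i).eval c = ((A j).map (Polynomial.evalRingHom c)).coeff i := by
      rw [Polynomial.coeff_map]
      rfl
    rw [h2, hAq j c hc, Polynomial.finsetSum_coeff]
    refine L.sum_le _ _ zero_le_one fun k' _ => ?_
    rw [Polynomial.coeff_C_mul, L.mul]
    exact mul_le_one₀ ((hqa k' _ (hβ1 c hc)).2.2.1 j) (L.nonneg _)
      (pdt_prod L _ (fun k => (hqa k _ (hβ1 c hc)).1) i)

end GX
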