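import Pool.Agent.Lib.MP_f80667_ag.Ep.Pd

/-!
The points and coordinates of the polydisc chart.
-/

open ZC BE PE CV IntermediateField

namespace GX

variable {F : Type} [Field F] {N d m : ℕ} {ι : Type} {f : ι → MvPolynomial (Fin N) F}
  {K Ω : Type} [Field K] [CharZero K] [Field Ω] [Algebra K Ω] [Algebra F K] [Algebra F Ω]
  [IsScalarTower F K Ω] [IsAlgClosure K Ω] {L : Ld K Ω} {X : Bd f K Ω d m}
  {M : IntermediateField K Ω} {b : X.B} {β : Fin (d + 1) → Polynomial Ω}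
  {ν : Fin (X.ψ (X.i b)).G.natDegree → X.B} {θ : Fin (X.ψ (X.i b)).G.natDegree → Ω} {ρ : ℕ}
  {q α : Fin (X.ψ (X.i b)).G.natDegree → Ω → Ω} {g : Polynomial (Polynomial Ω)}
  {A : Fin N → Polynomial (Polynomial Ω)} {c : Ω}

private theorem pe0_ev {R : Type} [CommRing R] (c w : R) (A : Polynomial (Polynomial R)) :
    GM.ev₂ (c, w) A = (A.map (Polynomial.evalRingHom c)).eval w := by
  rw [GM.ev₂_eq, Polynomial.map_evalRingHom_eval]

private theorem pe0_prod {K Ω : Type} [Field K] [Field Ω] [Algebra K Ω] (L : Ld K Ω) {I : Type}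
    (s : Finset I) (u : I → Ω) (h : ∀ i ∈ s, L.nm (u i) = 1) : L.nm (∏ i ∈ s, u i) = 1 := by
  classical
  induction s using Finset.induction_on with
  | empty => rw [Finset.prod_empty, L.one]
  | insert a s ha ih =>
    rw [Finset.prod_insert ha, L.mul, h a (Finset.mem_insert_self a s),
      ih fun i hi => h i (Finset.mem_insert_of_mem hi), one_mul]

/-- The points of the curve over `c`. Proof: `gq`. -/
theorem Pch.root (h : Pch L X M b ν β θ ρ q α g A) (hc : L.nm c ≤ 1) {w : Ω}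
    (hw : GM.ev₂ (c, w) g = 0) : ∃ k, w = q k c := by
  rw [pe0_ev, h.gq c hc, Polynomial.eval_prod, Finset.prod_eq_zero_iff] at hw
  obtain ⟨k, -, hk⟩ := hw
  rw [Polynomial.eval_sub, Polynomial.eval_X, Polynomial.eval_C, sub_eq_zero] at hk
  exact ⟨k, hk⟩

theorem Pch.at (h : Pch L X M b ν β θ ρ q α g A) (hc : L.nm c ≤ 1)
    (k : Fin (X.ψ (X.i b)).G.natDegree) : GM.ev₂ (c, q k c) g = 0 := by
  rw [pe0_ev, h.gq c hc, Polynomial.eval_prod]
  refine Finset.prod_eq_zero (Finset.mem_univ k) ?_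
  rw [Polynomial.eval_sub, Polynomial.eval_X, Polynomial.eval_C, sub_self]

/-- The values are unit separated. Proof: `qθ`. -/
theorem Pch.sep (h : Pch L X M b ν β θ ρ q α g A) (hθ : ∀ k l, k ≠ l → L.nm (θ k - θ l) = 1)
    (hc : L.nm c ≤ 1) {k l : Fin (X.ψ (X.i b)).G.natDegree} (hkl : k ≠ l) :
    L.nm (q k c - q l c) = 1 := by
  have h1 := hθ k l hkl
  have h2 : L.nm ((q k c - q l c) - (θ k - θ l)) < L.nm (θ k - θ l) := by
    rw [h1]
    have e : (q k c - q l c) - (θ k - θ l) = (q k c - θ k) - (q l c - θ l) := by ring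
    rw [e]
    exact (L.sub _ _).trans_lt (max_lt (h.qθ k c hc) (h.qθ l c hc))
  rw [L.eq_of_close h2, h1]

/-- The coordinates on the branch `k`: `A_j (c, q k c)` is `t` times `A_j (cc, rt)`, `t = α k c * ∏ l ≠ k, (q k c - q l c) ≠ 0`. Proof: `Aq`, the other summands have the factor `Y - q k c`; `α1`, `Pch.sep`. -/
theorem Pch.val (h : Pch L X M b ν β θ ρ q α g A) (hθ : ∀ k l, k ≠ l → L.nm (θ k - θ l) = 1)
    (hc : L.nm c ≤ 1) (k : Fin (X.ψ (X.i b)).G.natDegree) :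
    ∃ t : Ω, t ≠ 0 ∧ (∀ j, GM.ev₂ (c, q k c) (A j) = t * pe (X.cc b fun r => (β r).eval c)
      (X.rt L (ν k) fun r => (β r).eval c) ((X.ψ (X.i b)).A j)) ∧
        ∃ j, L.nm (GM.ev₂ (c, q k c) (A j)) = 1 := by
  have hP : L.nm (∏ l ∈ Finset.univ.erase k, (q k c - q l c)) = 1 :=
    pe0_prod L _ _ fun l hl => h.sep hθ hc (Finset.ne_of_mem_erase hl).symm
  have hev : ∀ j, GM.ev₂ (c, q k c) (A j) =
      α k c * pe (X.cc b fun r => (β r).eval c) (X.rt L (ν k) fun r => (β r).eval c)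
        ((X.ψ (X.i b)).A j) * ∏ l ∈ Finset.univ.erase k, (q k c - q l c) := by
    intro j
    rw [pe0_ev, h.Aq j c hc, Polynomial.eval_finsetSum,
      Finset.sum_eq_single_of_mem k (Finset.mem_univ k)]
    · rw [Polynomial.eval_mul, Polynomial.eval_C, Polynomial.eval_prod]
      refine congrArg _ (Finset.prod_congr rfl fun l _ => ?_)
      rw [Polynomial.eval_sub, Polynomial.eval_X, Polynomial.eval_C]
    · intro l _ hlk
      rw [Polynomial.eval_mul, Polynomial.eval_prod]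
      refine mul_eq_zero_of_right _ ?_
      refine Finset.prod_eq_zero (i := k)
        (Finset.mem_erase.2 ⟨hlk.symm, Finset.mem_univ k⟩) ?_
      rw [Polynomial.eval_sub, Polynomial.eval_X, Polynomial.eval_C, sub_self]
  obtain ⟨j₀, hj₀⟩ := h.α1 k c hc
  have hα : α k c ≠ 0 := by
    intro h0
    rw [h0, zero_mul, (L.zero_iff 0).2 rfl] at hj₀
    exact zero_ne_one hj₀
  have hPne : (∏ l ∈ Finset.univ.erase k, (q k c - q l c)) ≠ 0 :=
    L.ne_zero (by rw [hP]; exact one_pos)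
  refine ⟨α k c * ∏ l ∈ Finset.univ.erase k, (q k c - q l c), mul_ne_zero hα hPne,
    fun j => ?_, j₀, ?_⟩
  · rw [hev j]
    ring
  · rw [hev j₀, L.mul, hj₀, hP, one_mul]

/-- Proof: `Pch.val`, `Bd.Ok.cop` (for `ν k`; `cc (ν k) = cc b`, `i (ν k) = i b`), `co_smul`. -/
theorem Pch.co (hX : X.Ok L) (hν : Num X b ν) (hβ : Arc L M β)
    (h : Pch L X M b ν β θ ρ q α g A) (hθ : ∀ k l, k ≠ l → L.nm (θ k - θ l) = 1)
    (hc : L.nm c ≤ 1) (k : Fin (X.ψ (X.i b)).G.natDegree) :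
    Co (X.P (ν k) fun r => (β r).eval c) fun j => GM.ev₂ (c, q k c) (A j) := by
  have hb : ∀ r, L.nm ((β r).eval c) ≤ 1 := fun r => L.eval_le (fun j => (hβ r j).2) hc
  obtain ⟨t, ht, h1, -⟩ := h.val hθ hc k
  have h2 := hX.cop (ν k) (h := fun r => (β r).eval c) hb
  have h3 : X.cc (ν k) (fun r => (β r).eval c) = X.cc b fun r => (β r).eval c := by
    funext r
    rw [Bd.cc, Bd.cc, hν.γ k]
  have h4 : ∀ j, GM.ev₂ (c, q k c) (A j) = t * pe (X.cc (ν k) fun r => (β r).eval c)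
      (X.rt L (ν k) fun r => (β r).eval c) ((X.ψ (X.i (ν k))).A j) := by
    intro j
    rw [h3, hν.i k]
    exact h1 j
  rw [funext h4]
  exact co_smul (hX.pk (X.i (ν k))).hom h2 ht

end GX
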