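import Pool.Agent.Lib.MP_f80667_ag.Ep.N0
import Pool.Agent.Lib.MP_f80667_ag.Lv.Z
import Pool.Agent.Lib.MP_f80667_ag.Lv.De

/-!
The cycles with reduction `0` modulo the cycles which are `0` modulo `a`, at a place of good reduction.

* `Rfa f V K a p`: finitely many classes, killed by a power of `p`.
* `Tgd M V K a p`: the cycles with reduction `0` and sum `0` are the sum of a cycle which is `0` modulo `a` with sum `0` and of a cycle of a
  finite set of torsion cycles.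
-/

open ZC BE PE CV IntermediateField

namespace GX

section defs

variable {F : Type} [Field F] {N N' k k' : ℕ} {ι ι' : Type} (f : ι → MvPolynomial (Fin N) F)
  {A : Gv F N' k' ι'} {Ω : Type} [Field Ω] [Algebra F Ω] (V : ValuationSubring Ω)

/-- The cycles with reduction `0` modulo the cycles which are `0` modulo `a`: finitely many classes, killed by a power of `p`. -/
def Rfa (K : Type) [Field K] [Algebra F K] [Algebra K Ω] [IsScalarTower F K Ω] (a : Ω)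
    (p : ℕ) : Prop :=
  (∃ E : Finset ((Xf f).pt Ω →₀ ℤ), (∀ e ∈ E, e ∈ (Xf f).cyc K Ω) ∧
    ∀ z ∈ (Xf f).cyc K Ω, Zrd f V z → ∃ e ∈ E, ∃ u ∈ (Xf f).cyc K Ω, Zra f V a u ∧
      z - e - u ∈ (Xf f).ratEq K Ω) ∧
  ∃ k : ℕ, ∀ z ∈ (Xf f).cyc K Ω, Zrd f V z → ∃ u ∈ (Xf f).cyc K Ω, Zra f V a u ∧
    p ^ k • z - u ∈ (Xf f).ratEq K Ω

variable {f}

/-- The cycles with reduction `0` and sum `0`: cycles which are `0` modulo `a` with sum `0`, and finitely many torsion cycles. -/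
def Tgd (M : Mf f A k) (K : Type) [Field K] [Algebra F K] [Algebra K Ω] [IsScalarTower F K Ω]
    (a : Ω) (p : ℕ) : Prop :=
  letI := A.G.grp Ω
  ∃ E : Finset ((Xf f).pt Ω →₀ ℤ),
    (∀ e ∈ E, e ∈ (Xf f).cyc K Ω ∧ Zrd f V e ∧ M.S Ω e = 0 ∧
      ∃ k : ℕ, p ^ k • e ∈ (Xf f).ratEq K Ω) ∧
    ∀ z ∈ (Xf f).cyc K Ω, Zrd f V z → M.S Ω z = 0 → ∃ e ∈ E, ∃ u ∈ (Xf f).cyc K Ω,
      Zra f V a u ∧ M.S Ω u = 0 ∧ z - e - u ∈ (Xf f).ratEq K Ω

end defs

section loc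

variable {F : Type} [Field F] {N d m : ℕ} {ι : Type} {K Ω : Type}
  [Field K] [CharZero K] [Field Ω] [Algebra K Ω] [Algebra F K] [Algebra F Ω]
  [IsScalarTower F K Ω] [IsAlgClosure K Ω] {f : ι → MvPolynomial (Fin N) F} {L : Ld K Ω} {π a : Ω}

theorem dr_dcy {t : ℝ} {n : ℕ} (h : L.nm π ^ n ≤ t) :
    Dr f L π n (⊥ : IntermediateField K Ω) ≤ Dcy L f t := by
  rw [dr_gen]
  refine AddSubgroup.closure_mono ?_
  rintro z ⟨M, y, y', h1, h2, h3, h4, rfl⟩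
  exact ⟨M, h1.fd, y', y, h3, h2, nrh_mono h (nrh_symm h4), rfl⟩

/-- **Finitely many classes.** -/
theorem rfa_of (hπ : Uf L π) (hf : Hm f) {ψ : Fin m → Prj K N d} (hψ : ∀ i, Pj f L (ψ i))
    (hc : Cvr f L ψ)
    (hfin : ∀ n, 1 ≤ n → (Vl f L π (n + 1)).relIndex (Vl f L π n) ≠ 0) (ha : a ≠ 0)
    (ha1 : L.nm a < 1) : Rfa f L.V K a L.p := by
  classical
  obtain ⟨r, hr⟩ : ∃ r : ℕ, L.nm π ^ (r + 1) ≤ L.nm a := by
    obtain ⟨r, h⟩ := exists_pow_lt_of_lt_one (L.pos ha) hπ.lt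
    exact ⟨r, (pow_le_pow_of_le_one hπ.pos.le hπ.lt.le (Nat.le_succ r)).trans h.le⟩
  have hDZ : ∀ z ∈ Dr f L π (r + 1) (⊥ : IntermediateField K Ω),
      z ∈ (Xf f).cyc K Ω ∧ Zra f L.V a z := by
    intro z hz
    obtain ⟨h1, h2⟩ := dcy_zrt hf (L.pos ha).le ha1 (dr_dcy hr hz)
    exact ⟨h1, (zra_iff ha).2 h2⟩
  have hV : ∀ z ∈ Vl f L π (r + 1), ∃ u ∈ (Xf f).cyc K Ω, Zra f L.V a u ∧
      z - u ∈ (Xf f).ratEq K Ω := by
    intro z hz
    obtain ⟨b, hb, c, hc, rfl⟩ := AddSubgroup.mem_sup.1 hz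
    obtain ⟨h1, h2⟩ := hDZ b hb
    exact ⟨b, h1, h2, by rw [add_sub_cancel_left]; exact hc⟩
  have hrel : ∀ n : ℕ, (Vl f L π (n + 1)).relIndex (Vl f L π 1) ≠ 0 := by
    intro n
    induction n with
    | zero => rw [zero_add, AddSubgroup.relIndex_self]; exact one_ne_zero
    | succ n ih => exact AddSubgroup.relIndex_ne_zero_trans (hfin (n + 1) (by omega)) ih
  obtain ⟨E, hE1, hE2⟩ := exists_reps (hrel r)
  have key : ∀ b : (Xf f).pt Ω →₀ ℤ, ∃ c, b ∈ Vl f L π 1 → c ∈ (Xf f).cyc K Ω ∧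
      Zrd f L.V c ∧ b - c ∈ (Xf f).ratEq K Ω := by
    intro b
    by_cases hb : b ∈ Vl f L π 1
    · obtain ⟨c, hc, c', hc', rfl⟩ := AddSubgroup.mem_sup.1 hb
      obtain ⟨h7, h8⟩ := hπ.x_dr_zr hf hc
      exact ⟨c, fun _ => ⟨h7, zrd_iff.2 h8, by rw [add_sub_cancel_left]; exact hc'⟩⟩
    · exact ⟨0, fun h => absurd h hb⟩
  choose g hg using key
  refine ⟨⟨E.image g, fun e he => ?_, fun z hz h0 => ?_⟩, r, fun z hz h0 => ?_⟩
  · obtain ⟨b, hb, rfl⟩ := Finset.mem_image.1 he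
    obtain ⟨b1, b2, b3⟩ := hg b (hE1 b hb)
    exact b1
  · obtain ⟨e, he, h2⟩ := hE2 z (hπ.x_zr hf hψ hc hz (zrd_iff.1 h0))
    obtain ⟨b1, b2, b3⟩ := hg e (hE1 e he)
    obtain ⟨u, hu, hu1, hu2⟩ := hV _ h2
    refine ⟨g e, Finset.mem_image.2 ⟨e, he, rfl⟩, u, hu, hu1, ?_⟩
    have e1 : z - g e - u = (z - e - u) + (e - g e) := by abel
    rw [e1]
    exact add_mem hu2 b3
  · refine hV _ ?_
    have h1 : ∀ n : ℕ, L.p ^ n • z ∈ Vl f L π (n + 1) := by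
      intro n
      induction n with
      | zero =>
        rw [pow_zero, one_smul, zero_add]
        exact hπ.x_zr hf hψ hc hz (zrd_iff.1 h0)
      | succ n ih =>
        rw [pow_succ', mul_smul]
        exact vl_mul_one hπ hf hψ hc (Nat.succ_ne_zero n) ih
    exact h1 r

end loc

end GX
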