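import Pool.Agent.Lib.MP_f80667_ag.Ep.Q1
import Pool.Agent.Lib.MP_f80667_ag.Rs.M3

/-!
The cycles with reduction `0` and sum `0`.

* `zrt_zr`: a cycle which is `0` modulo `t < 1` has reduction `0`.
* `tgd_of`: from `Rfa` and `Dvz` to `Tgd`.
-/

open ZC BE PE CV IntermediateField

namespace GX

section zr

variable {F : Type} [Field F] {N : ℕ} {ι : Type} {f : ι → MvPolynomial (Fin N) F}
  {K Ω : Type} [Field K] [Field Ω] [Algebra K Ω] [Algebra F K] [Algebra F Ω]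
  [IsScalarTower F K Ω] {L : Ld K Ω}

/-- A cycle which is `0` modulo `t` has reduction `0`. -/
theorem zrt_zr (hf : Hm f) {t : ℝ} (h0 : 0 ≤ t) (h1 : t < 1) {z : (Xf f).pt Ω →₀ ℤ}
    (hz : Zrt f L t z) : Zr f L z := by
  classical
  obtain ⟨hr, hs, ht, -⟩ := nrh_eqv (L := L) hf h0 h1
  let s : Setoid ((Xf f).pt Ω) := ⟨Nrh f L t, hr, @hs, @ht⟩
  intro y
  rw [← Finset.sum_fiberwise_of_maps_to
    (g := fun P => (Quotient.mk s P))
    (t := (z.support.filter fun x => ∃ r < 1, Nrh f L r x y).image fun P => Quotient.mk s P)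
    (fun P hP => Finset.mem_image_of_mem _ hP)]
  refine Finset.sum_eq_zero fun c hc => ?_
  obtain ⟨Q, hQ, rfl⟩ := Finset.mem_image.1 hc
  obtain ⟨-, r, hr1, hQy⟩ := Finset.mem_filter.1 hQ
  have h3 := hz Q
  have h4 : ((z.support.filter fun x => ∃ r < 1, Nrh f L r x y).filter
      fun P => Quotient.mk s P = Quotient.mk s Q) = z.support.filter fun P => Nrh f L t P Q := by
    rw [Finset.filter_filter]
    refine Finset.filter_congr fun P _ => ?_
    constructor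
    · rintro ⟨-, h⟩
      exact Quotient.exact h
    · intro h
      refine ⟨⟨max r t, max_lt hr1 h1, ?_⟩, Quotient.sound h⟩
      exact nrh_trans hf (nrh_mono (le_max_right _ _) h) (nrh_mono (le_max_left _ _) hQy)
  rw [h4]
  exact h3

omit [Algebra F K] [IsScalarTower F K Ω] in
theorem zr_neg {z : (Xf f).pt Ω →₀ ℤ} (hz : Zr f L z) : Zr f L (-z) := by
  classical
  intro y
  have h1 : ∑ x ∈ (-z).support.filter (fun x => ∃ r < 1, Nrh f L r x y), (-z) x =
      -∑ x ∈ z.support.filter (fun x => ∃ r < 1, Nrh f L r x y), z x := by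
    rw [Finsupp.support_neg, ← Finset.sum_neg_distrib]
    rfl
  rw [h1, hz y, neg_zero]

end zr

section main

variable {F : Type} [Field F] {N N' k k' : ℕ} {ι ι' : Type} {f : ι → MvPolynomial (Fin N) F}
  {A : Gv F N' k' ι'} {M : Mf f A k} {K Ω : Type} [Field K] [CharZero K] [Field Ω]
  [Algebra K Ω] [Algebra F K] [Algebra F Ω] [IsScalarTower F K Ω] [IsAlgClosure K Ω] {L : Ld K Ω}
  {a : Ω}

/-- **The cycles with reduction `0` and sum `0`.** -/
theorem tgd_of (hf : Hm f) (hA : A.Ok) (hM : M.Ok) (ha : a ≠ 0) (ha1 : L.nm a < 1) {p : ℕ}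
    (hp : p ≠ 0) (hR : Rfa f L.V K a p) (hD : Dvz L.V M K a) : Tgd L.V M K a p := by
  classical
  let _ : AddCommGroup ((Xf A.a).pt Ω) := A.G.grp Ω
  have hrs : ∀ x ∈ (Xf f).ratEq K Ω, M.S Ω x = 0 := fun x hx => RS.rs hf hA hM hx
  obtain ⟨⟨E, hE1, hE2⟩, k, hk⟩ := hR
  -- the cycles with reduction `0` and sum `0`, cycles with reduction `0`, cycles which are `0` modulo `a` with sum `0`
  have hz1 : ∀ z : (Xf f).pt Ω →₀ ℤ, Zra f L.V a z → Zrd f L.V z := fun z hz =>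
    zrd_iff.2 (zrt_zr hf (L.nonneg a) ha1 ((zra_iff ha).1 hz))
  -- for every `e` in `E` one cycle `g e` in the class of `e`
  have key : ∀ e : (Xf f).pt Ω →₀ ℤ, ∃ c : (Xf f).pt Ω →₀ ℤ, c ∈ (Xf f).cyc K Ω ∧ Zrd f L.V c ∧
      M.S Ω c = 0 ∧ (p ^ k • c ∈ (Xf f).ratEq K Ω) ∧
      ∀ z ∈ (Xf f).cyc K Ω, Zrd f L.V z → M.S Ω z = 0 → (∃ u ∈ (Xf f).cyc K Ω,
        Zra f L.V a u ∧ z - e - u ∈ (Xf f).ratEq K Ω) → ∃ u ∈ (Xf f).cyc K Ω,
          Zra f L.V a u ∧ M.S Ω u = 0 ∧ z - c - u ∈ (Xf f).ratEq K Ω := by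
    intro e
    by_cases h : ∃ z₀ ∈ (Xf f).cyc K Ω, Zrd f L.V z₀ ∧ M.S Ω z₀ = 0 ∧ ∃ u ∈ (Xf f).cyc K Ω,
      Zra f L.V a u ∧ z₀ - e - u ∈ (Xf f).ratEq K Ω
    · obtain ⟨z₀, h1, h2, h3, u₀, h4, h5, h6⟩ := h
      obtain ⟨u₁, h7, h8, h9⟩ := hk z₀ h1 h2
      have h10 : M.S Ω u₁ = 0 := by
        have h11 := hrs _ h9
        rw [map_sub, map_nsmul, h3, smul_zero, zero_sub, neg_eq_zero] at h11
        exact h11
      obtain ⟨w, w1, w2, w3, w4⟩ := hD (p ^ k) (pow_ne_zero k hp) u₁ h7 h8 h10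
      have w3' : M.S Ω w = 0 := w3
      have hsub : ∀ {x y : (Xf f).pt Ω →₀ ℤ}, Zra f L.V a x → Zra f L.V a y →
          Zra f L.V a (x - y) := fun {x y} hx hy => by
        rw [zra_iff ha] at hx hy ⊢
        rw [sub_eq_add_neg, ← neg_one_zsmul y]
        exact hx.add (hy.zsmul _)
      have hsubd : ∀ {x y : (Xf f).pt Ω →₀ ℤ}, Zrd f L.V x → Zrd f L.V y →
          Zrd f L.V (x - y) := fun {x y} hx hy => by
        rw [sub_eq_add_neg]
        exact zrd_iff.2 (zr_add (zrd_iff.1 hx) (zr_neg (zrd_iff.1 hy)))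
      refine ⟨z₀ - w, sub_mem h1 w1, hsubd h2 (hz1 w w2), ?_, ?_, ?_⟩
      · rw [map_sub, h3, w3', sub_zero]
      · have e1 : p ^ k • (z₀ - w) = (p ^ k • z₀ - u₁) + (u₁ - p ^ k • w) := by
          rw [smul_sub]
          abel
        rw [e1]
        exact add_mem h9 w4
      · rintro z g1 g2 g3 ⟨u, g4, g5, g6⟩
        have e1 : z - (z₀ - w) - (u - u₀ + w) = (z - e - u) - (z₀ - e - u₀) := by abel
        have hm : z - (z₀ - w) - (u - u₀ + w) ∈ (Xf f).ratEq K Ω := by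
          rw [e1]
          exact sub_mem g6 h6
        have hw : Zra f L.V a (u - u₀ + w) := by
          have h12 := hsub g5 h5
          rw [zra_iff ha] at h12 w2 ⊢
          exact h12.add w2
        refine ⟨u - u₀ + w, add_mem (sub_mem g4 h4) w1, hw, ?_, hm⟩
        have h13 := hrs _ hm
        rw [map_sub, map_sub, g3, map_sub, h3, w3', sub_zero, sub_zero, zero_sub,
          neg_eq_zero] at h13
        exact h13
    · refine ⟨0, zero_mem _, ?_, map_zero _, ?_, ?_⟩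
      · refine hz1 0 ((zra_iff ha).2 ?_)
        intro Q
        rw [Finsupp.support_zero, Finset.filter_empty, Finset.sum_empty]
      · rw [smul_zero]
        exact zero_mem _
      · intro z g1 g2 g3 g4
        exact absurd ⟨z, g1, g2, g3, g4⟩ h
  choose g g1 g2 g3 g4 g5 using key
  refine ⟨E.image g, fun e he => ?_, fun z hz h0 hS => ?_⟩
  · obtain ⟨e, -, rfl⟩ := Finset.mem_image.1 he
    exact ⟨g1 e, g2 e, g3 e, k, g4 e⟩
  · obtain ⟨e, he, h1⟩ := hE2 z hz h0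
    exact ⟨g e, Finset.mem_image.2 ⟨e, he, rfl⟩, g5 e z hz h0 hS h1⟩

end main

end GX
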