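import Pool.Agent.Lib.MP_f80667_ag.Ep.Q2
import Pool.Agent.Lib.MP_f80667_ag.To.Da

/-! Descent of `Rfa` by two extensions of coprime degrees. -/

open ZC BE PE CV IntermediateField

namespace GX

variable {F : Type} [Field F] {N : ℕ} {ι : Type} {f : ι → MvPolynomial (Fin N) F}
  {K Ω : Type} [Field K] [CharZero K] [Field Ω] [Algebra K Ω] [Algebra F K] [Algebra F Ω]
  [IsScalarTower F K Ω] [IsAlgClosure K Ω] {L : Ld K Ω} {a : Ω}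

private theorem q3_const (M : IntermediateField K Ω) [FiniteDimensional K M]
    {z : (Xf f).pt Ω →₀ ℤ} (hz : z ∈ (Xf f).cyc K Ω) :
    GM.nmh (Xf f) M z = Module.finrank K M • z := by
  rw [GM.nmh_apply, nm_const bot_le (GM.cyc_iff.1 hz)]
  congr 1
  have h := relIndex_fix (K := K) (Ω := Ω) (M := ⊥) (N := M) bot_le
  rwa [IntermediateField.finrank_bot, mul_one] at h

private theorem q3_cyc (M : IntermediateField K Ω) [FiniteDimensional K M]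
    {z : (Xf f).pt Ω →₀ ℤ} (hz : z ∈ (Xf f).cyc M Ω) :
    GM.nmh (Xf f) M z ∈ (Xf f).cyc K Ω := by
  rw [GM.nmh_apply, GM.cyc_iff]
  exact nm_fx bot_le (fx_cyc'.2 hz)

private theorem q3_rat (M : IntermediateField K Ω) [FiniteDimensional K M]
    {z : (Xf f).pt Ω →₀ ℤ} (hz : z ∈ (Xf f).cyc M Ω) (h : z ∈ (Xf f).ratEq M Ω) :
    GM.nmh (Xf f) M z ∈ (Xf f).ratEq K Ω := by
  rw [GM.nmh_apply]
  exact nm_ratEq h (fx_cyc'.2 hz)

private theorem q3_zra (hf : Hm f) (ha : a ≠ 0) (ha1 : L.nm a < 1) (M : IntermediateField K Ω)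
    [FiniteDimensional K M] {z : (Xf f).pt Ω →₀ ℤ} (h : Zra f L.V a z) :
    Zra f L.V a (GM.nmh (Xf f) M z) := by
  rw [zra_iff ha] at h ⊢
  rw [GM.nmh_apply]
  exact h.nm hf (L.nonneg a) ha1

/-- One extension. -/
private theorem q3_one (hf : Hm f) (ha : a ≠ 0) (ha1 : L.nm a < 1) (M : IntermediateField K Ω)
    [FiniteDimensional K M] {z e u : (Xf f).pt Ω →₀ ℤ} {q : ℕ} (hz : z ∈ (Xf f).cyc K Ω)
    (he : e ∈ (Xf f).cyc M Ω) (hu : u ∈ (Xf f).cyc M Ω) (hu' : Zra f L.V a u)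
    (h : q • z - e - u ∈ (Xf f).ratEq M Ω) :
    GM.nmh (Xf f) M u ∈ (Xf f).cyc K Ω ∧ Zra f L.V a (GM.nmh (Xf f) M u) ∧
      q • Module.finrank K M • z - GM.nmh (Xf f) M e - GM.nmh (Xf f) M u ∈
        (Xf f).ratEq K Ω := by
  refine ⟨q3_cyc M hu, q3_zra hf ha ha1 M hu', ?_⟩
  rw [← q3_const M hz, ← map_nsmul, ← map_sub, ← map_sub]
  exact q3_rat M (sub_mem (sub_mem (nsmul_mem (cyc_up hz) q) he) hu) h

/-- **Descent for `Rfa`.** -/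
theorem rfa_cop (hf : Hm f) (ha : a ≠ 0) (ha1 : L.nm a < 1)
    {M₁ M₂ : IntermediateField K Ω} [FiniteDimensional K M₁] [FiniteDimensional K M₂]
    (h : (Module.finrank K M₁).Coprime (Module.finrank K M₂)) {p : ℕ}
    (h₁ : Rfa f L.V M₁ a p) (h₂ : Rfa f L.V M₂ a p) : Rfa f L.V K a p := by
  classical
  obtain ⟨u, v, huv⟩ : ∃ u v : ℤ, u * Module.finrank K M₁ + v * Module.finrank K M₂ = 1 :=
    Nat.isCoprime_iff_coprime.2 h
  obtain ⟨⟨E₁, c₁, d₁⟩, k₁, g₁⟩ := h₁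
  obtain ⟨⟨E₂, c₂, d₂⟩, k₂, g₂⟩ := h₂
  have hZ : ∀ {x y : (Xf f).pt Ω →₀ ℤ}, Zra f L.V a x → Zra f L.V a y →
      Zra f L.V a (u • x + v • y) := fun {x y} hx hy => by
    rw [zra_iff ha] at hx hy ⊢
    exact (hx.zsmul u).add (hy.zsmul v)
  have hz1 : ∀ z : (Xf f).pt Ω →₀ ℤ,
      u • (Module.finrank K M₁ • z) + v • (Module.finrank K M₂ • z) = z := fun z => by
    rw [← natCast_zsmul, ← natCast_zsmul, smul_smul, smul_smul, ← add_smul, huv, one_smul]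
  refine ⟨⟨(E₁ ×ˢ E₂).image fun e => u • GM.nmh (Xf f) M₁ e.1 + v • GM.nmh (Xf f) M₂ e.2,
    fun e he => ?_, fun z hz h0 => ?_⟩, k₁ + k₂, fun z hz h0 => ?_⟩
  · obtain ⟨⟨e₁, e₂⟩, h3, rfl⟩ := Finset.mem_image.1 he
    obtain ⟨h4, h5⟩ := Finset.mem_product.1 h3
    exact add_mem (zsmul_mem (q3_cyc M₁ (c₁ e₁ h4)) u) (zsmul_mem (q3_cyc M₂ (c₂ e₂ h5)) v)
  · obtain ⟨e₁, he₁, u₁, m1, m2, m3⟩ := d₁ z (cyc_up hz) h0
    obtain ⟨e₂, he₂, u₂, n1, n2, n3⟩ := d₂ z (cyc_up hz) h0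
    obtain ⟨p1, p2, p3⟩ := q3_one hf ha ha1 M₁ (q := 1) hz (c₁ e₁ he₁) m1 m2
      (by rwa [one_smul])
    obtain ⟨q1, q2, q3⟩ := q3_one hf ha ha1 M₂ (q := 1) hz (c₂ e₂ he₂) n1 n2
      (by rwa [one_smul])
    rw [one_smul] at p3 q3
    refine ⟨_, Finset.mem_image.2 ⟨(e₁, e₂), Finset.mem_product.2 ⟨he₁, he₂⟩, rfl⟩,
      u • GM.nmh (Xf f) M₁ u₁ + v • GM.nmh (Xf f) M₂ u₂,
      add_mem (zsmul_mem p1 u) (zsmul_mem q1 v), hZ p2 q2, ?_⟩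
    have h5 := add_mem (zsmul_mem p3 u) (zsmul_mem q3 v)
    have e : z - (u • GM.nmh (Xf f) M₁ e₁ + v • GM.nmh (Xf f) M₂ e₂) -
        (u • GM.nmh (Xf f) M₁ u₁ + v • GM.nmh (Xf f) M₂ u₂) =
        u • (Module.finrank K M₁ • z - GM.nmh (Xf f) M₁ e₁ - GM.nmh (Xf f) M₁ u₁) +
          v • (Module.finrank K M₂ • z - GM.nmh (Xf f) M₂ e₂ - GM.nmh (Xf f) M₂ u₂) := by
      calc z - (u • GM.nmh (Xf f) M₁ e₁ + v • GM.nmh (Xf f) M₂ e₂) -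
          (u • GM.nmh (Xf f) M₁ u₁ + v • GM.nmh (Xf f) M₂ u₂)
          = (u • (Module.finrank K M₁ • z) + v • (Module.finrank K M₂ • z)) -
            (u • GM.nmh (Xf f) M₁ e₁ + v • GM.nmh (Xf f) M₂ e₂) -
            (u • GM.nmh (Xf f) M₁ u₁ + v • GM.nmh (Xf f) M₂ u₂) := by rw [hz1 z]
        _ = _ := by module
    rw [e]
    exact h5
  · obtain ⟨u₁, m1, m2, m3⟩ := g₁ z (cyc_up hz) h0
    obtain ⟨u₂, n1, n2, n3⟩ := g₂ z (cyc_up hz) h0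
    obtain ⟨p1, p2, p3⟩ := q3_one hf ha ha1 M₁ (q := p ^ k₁) hz (zero_mem _) m1 m2
      (by rwa [sub_zero])
    obtain ⟨q1, q2, q3⟩ := q3_one hf ha ha1 M₂ (q := p ^ k₂) hz (zero_mem _) n1 n2
      (by rwa [sub_zero])
    rw [map_zero, sub_zero] at p3 q3
    refine ⟨p ^ k₂ • (u • GM.nmh (Xf f) M₁ u₁) + p ^ k₁ • (v • GM.nmh (Xf f) M₂ u₂),
      add_mem (nsmul_mem (zsmul_mem p1 u) _) (nsmul_mem (zsmul_mem q1 v) _), ?_, ?_⟩
    · rw [zra_iff ha] at p2 q2 ⊢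
      rw [← natCast_zsmul, ← natCast_zsmul]
      exact ((p2.zsmul u).zsmul _).add ((q2.zsmul v).zsmul _)
    · have h5 := add_mem (nsmul_mem (zsmul_mem p3 u) (p ^ k₂))
        (nsmul_mem (zsmul_mem q3 v) (p ^ k₁))
      have e : p ^ (k₁ + k₂) • z -
          (p ^ k₂ • (u • GM.nmh (Xf f) M₁ u₁) + p ^ k₁ • (v • GM.nmh (Xf f) M₂ u₂)) =
          p ^ k₂ • (u • (p ^ k₁ • Module.finrank K M₁ • z - GM.nmh (Xf f) M₁ u₁)) +
            p ^ k₁ • (v • (p ^ k₂ • Module.finrank K M₂ • z - GM.nmh (Xf f) M₂ u₂)) := by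
        calc p ^ (k₁ + k₂) • z -
            (p ^ k₂ • (u • GM.nmh (Xf f) M₁ u₁) + p ^ k₁ • (v • GM.nmh (Xf f) M₂ u₂))
            = p ^ (k₁ + k₂) • (u • (Module.finrank K M₁ • z) + v • (Module.finrank K M₂ • z)) -
              (p ^ k₂ • (u • GM.nmh (Xf f) M₁ u₁) + p ^ k₁ • (v • GM.nmh (Xf f) M₂ u₂)) := by
                rw [hz1 z]
          _ = _ := by
                rw [pow_add]
                module
      rw [e]
      exact h5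

end GX
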