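import Pool.Agent.Lib.MP_f80667_ag.Ep.Q3
import Pool.Agent.Lib.MP_f80667_ag.Ng.X
import Pool.Agent.Lib.MP_f80667_ag.Ep.N3

/-!
The cycles with reduction `0` at a place of good reduction, `p` odd.

* `Gdv.rfa`: finitely many classes modulo the cycles which are `0` modulo `a`.
* `tgd_glob`: the cycles with reduction `0` and sum `0` over the completions of number fields. There is no condition on `A`, `M` at the
  place.
-/

open ZC BE PE CV IntermediateField IsDedekindDomain NumberField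

namespace GX

section loc

variable {F : Type} [Field F] {N d : ℕ} {ι : Type} {f : ι → MvPolynomial (Fin N) F}
  {K Ω : Type} [Field K] [CharZero K] [Field Ω] [Algebra K Ω] [Algebra F K] [Algebra F Ω]
  [IsScalarTower F K Ω] [IsAlgClosure K Ω] {L : Ld K Ω} {a : Ω}

/-- With projections over `K`. -/
private theorem q4_dat (hf : Hm f) (h2 : 2 < L.p) (ha : a ≠ 0) (ha1 : L.nm a < 1) {m : ℕ}
    {ψ : Fin m → Prj K N d} {f₀ : ι → MvPolynomial (Fin N) (L.V.comap (algebraMap K Ω))}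
    {ψ₀ : Fin m → Prj (L.V.comap (algebraMap K Ω)) N d}
    (h : Dat L.V (fun i => MvPolynomial.map (algebraMap F K) (f i)) ψ f₀ ψ₀) :
    Rfa f L.V K a L.p := by
  have hch : CharZero Ω := charZero_of_injective_algebraMap (algebraMap K Ω).injective
  obtain ⟨π, hπ⟩ := exists_uf L
  obtain ⟨hψ, hc⟩ := Dat.pj_of hf h L rfl
  exact rfa_of hπ hf hψ hc (fun n hn => gr_fin' hf hπ h2 hψ hc (Nat.one_le_iff_ne_zero.1 hn))
    ha ha1

/-- Over an unramified extension of degree a power of `l`. -/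
private theorem q4_l (h : Gdv L.V f d) (h2 : 2 < L.p) (ha : a ≠ 0) (ha1 : L.nm a < 1) {r l : ℕ}
    (hr : r ≠ 0) (hl : 2 ≤ l) : ∃ a' : ℕ, Rfa f L.V (L.Ur ⊥ (r * l ^ a')) a L.p := by
  have hch : CharZero Ω := charZero_of_injective_algebraMap (algebraMap K Ω).injective
  obtain ⟨π, hπ⟩ := exists_uf L
  obtain ⟨a', m, ψ, f₀, ψ₀, hdat, -, -⟩ := exists_datl' hπ hr hl h
  have hn : r * l ^ a' ≠ 0 := mul_ne_zero hr (pow_ne_zero a' (by omega))
  have hfd : FiniteDimensional K (L.Ur ⊥ (r * l ^ a')) := Ld.ur_fin ⊥ _ hn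
  have hcl : IsAlgClosure (L.Ur ⊥ (r * l ^ a')) Ω :=
    ⟨IsAlgClosure.isAlgClosed K, Algebra.IsAlgebraic.tower_top (K := K) _⟩
  exact ⟨a', q4_dat (L := xt L (L.Ur ⊥ (r * l ^ a'))) h.hom h2 ha ha1 hdat⟩

/-- **The classes of the cycles with reduction `0`.** -/
theorem Gdv.rfa (h : Gdv L.V f d) (h2 : 2 < L.p) (ha : a ≠ 0) (ha1 : L.nm a < 1) :
    Rfa f L.V K a L.p := by
  obtain ⟨r, hr⟩ := exists_rf0 L
  obtain ⟨a', ha'⟩ := q4_l h h2 ha ha1 hr.ne (le_refl 2)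
  obtain ⟨b', hb'⟩ := q4_l h h2 ha ha1 (l := 3) hr.ne (by norm_num)
  have hfa : FiniteDimensional K (L.Ur ⊥ (r * 2 ^ a')) :=
    Ld.ur_fin ⊥ _ (mul_ne_zero hr.ne (pow_ne_zero a' two_ne_zero))
  have hfb : FiniteDimensional K (L.Ur ⊥ (r * 3 ^ b')) :=
    Ld.ur_fin ⊥ _ (mul_ne_zero hr.ne (pow_ne_zero b' three_ne_zero))
  refine rfa_cop h.hom ha ha1 ?_ ha' hb'
  rw [ur_deg hr two_ne_zero, ur_deg hr three_ne_zero]
  exact Nat.Coprime.pow _ _ (by norm_num)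

end loc

/-- **Good reduction.** -/
theorem tgd_glob {F : Type} [Field F] [NumberField F] {N N' k k' d : ℕ} {ι ι' : Type}
    {f : ι → MvPolynomial (Fin N) F} {A : Gv F N' k' ι'} {M : Mf f A k} (hf : Nsg f d)
    (hA : A.Ok) (hM : M.Ok) (v : HeightOneSpectrum (𝓞 F)) (hb : M.Alb (AlgebraicClosure F))
    {V : ValuationSubring (AlgebraicClosure (FK F v))}
    (hV : V.comap (algebraMap (FK F v) _) = CV.Iv v) (h : Gdv V f d) {p : ℕ} (hp : p.Prime)
    (hpv : (p : AlgebraicClosure (FK F v)) ∈ V.nonunits) (h2 : 2 < p) :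
    ∃ a₀ : AlgebraicClosure (FK F v), a₀ ≠ 0 ∧ ∀ a : AlgebraicClosure (FK F v), a ≠ 0 →
      (∃ c ∈ V, a = a₀ * c) → Tgd V M (FK F v) a p := by
  have hch : CharZero (FK F v) :=
    charZero_of_injective_algebraMap (algebraMap F (FK F v)).injective
  obtain ⟨a₁, h1, hd⟩ := ep_glob hf hA hM v hb hV
  obtain ⟨L, hL⟩ := exists_ldI v
  have hVL : V.comap (algebraMap (FK F v) _) = Ok L := by
    rw [hV]
    exact SetLike.ext fun x => (hL x).symm
  obtain rfl := GM.v_uniq L V hVL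
  have h3 : L.p = p := by
    by_contra hne
    have h4 : L.nm (p : AlgebraicClosure (FK F v)) = 1 := L.nat_unit fun h5 =>
      hne ((Nat.prime_dvd_prime_iff_eq L.pp hp).1 h5)
    exact absurd (GM.non_iff.1 hpv) (by rw [h4]; exact lt_irrefl _)
  subst h3
  obtain ⟨e, he⟩ := exists_pow_lt_of_lt_one (inv_pos.2 (L.pos h1)) L.lt
  have hlt : L.nm (a₁ * (L.p : AlgebraicClosure (FK F v)) ^ e) < 1 := by
    rw [L.mul, L.pow]
    calc L.nm a₁ * L.nm (L.p : AlgebraicClosure (FK F v)) ^ e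
        < L.nm a₁ * (L.nm a₁)⁻¹ := mul_lt_mul_of_pos_left he (L.pos h1)
      _ = 1 := mul_inv_cancel₀ (L.pos h1).ne'
  refine ⟨a₁ * (L.p : AlgebraicClosure (FK F v)) ^ e,
    mul_ne_zero h1 (pow_ne_zero _ (L.ne_zero L.p_pos)), fun a ha hc => ?_⟩
  obtain ⟨c, hc, hac⟩ := hc
  have ha1 : L.nm a < 1 := by
    rw [hac, L.mul]
    exact (mul_le_of_le_one_right (L.nonneg _) (L.mem_V.1 hc)).trans_lt hlt
  obtain ⟨-, h4⟩ := hd a ha ⟨(L.p : AlgebraicClosure (FK F v)) ^ e * c,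
    mul_mem (pow_mem (L.mem_V.2 L.lt.le) e) hc, by
      rw [hac]
      ring⟩
  exact tgd_of hf.hom hA hM ha ha1 L.pp.ne_zero (h.rfa h2 ha ha1) h4

end GX
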