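import Pool.Agent.Lib.MP_f80667_ag.Ep.Q4

/-!
The cycles with reduction `0` and sum `0` at a place of good reduction, `p` odd, are divisible + finite modulo rational equivalence.

* `ctv_of`: from `Tgd` and `Dvz` to `Ctv`.
* `ctv_glob`: the completions of number fields. There is no condition on `A`, `M` at the place.
-/

open ZC BE PE CV IntermediateField IsDedekindDomain NumberField

namespace GX

section loc

variable {F : Type} [Field F] {N N' k k' : ℕ} {ι ι' : Type} {f : ι → MvPolynomial (Fin N) F}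
  {A : Gv F N' k' ι'} {M : Mf f A k} {K Ω : Type} [Field K] [CharZero K] [Field Ω]
  [Algebra K Ω] [Algebra F K] [Algebra F Ω] [IsScalarTower F K Ω] [IsAlgClosure K Ω] {L : Ld K Ω}
  {a : Ω}

theorem ctv_of (hf : Hm f) (ha : a ≠ 0) (ha1 : L.nm a < 1) {p : ℕ} (hT : Tgd L.V M K a p)
    (hD : Dvz L.V M K a) : Ctv L.V M K p := by
  let _ : AddCommGroup ((Xf A.a).pt Ω) := A.G.grp Ω
  obtain ⟨E, h1, h2⟩ := hT
  refine ⟨E, h1, fun z hz h0 hS => ?_⟩
  obtain ⟨e, he, u, hu, hua, huS, hr⟩ := h2 z hz h0 hS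
  refine ⟨e, he, fun m hm => ?_⟩
  obtain ⟨w, hw, hwa, hwS, hwr⟩ := hD m hm u hu hua huS
  refine ⟨w, hw, zrd_iff.2 (zrt_zr hf (L.nonneg a) ha1 ((zra_iff ha).1 hwa)), hwS, ?_⟩
  have e1 : z - e - m • w = (z - e - u) + (u - m • w) := by abel
  rw [e1]
  exact add_mem hr hwr

end loc

/-- **Good reduction**, no condition on the group variety and on the morphism at the place. -/
theorem ctv_glob {F : Type} [Field F] [NumberField F] {N N' k k' d : ℕ} {ι ι' : Type}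
    {f : ι → MvPolynomial (Fin N) F} {A : Gv F N' k' ι'} {M : Mf f A k} (hf : Nsg f d)
    (hA : A.Ok) (hM : M.Ok) (v : HeightOneSpectrum (𝓞 F)) (hb : M.Alb (AlgebraicClosure F))
    {V : ValuationSubring (AlgebraicClosure (FK F v))}
    (hV : V.comap (algebraMap (FK F v) _) = CV.Iv v) (h : Gdv V f d) {p : ℕ} (hp : p.Prime)
    (hpv : (p : AlgebraicClosure (FK F v)) ∈ V.nonunits) (h2 : 2 < p) :
    Ctv V M (FK F v) p := by
  have hch : CharZero (FK F v) :=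
    charZero_of_injective_algebraMap (algebraMap F (FK F v)).injective
  obtain ⟨a₁, h1, hd⟩ := ep_glob hf hA hM v hb hV
  obtain ⟨a₂, h3, ht⟩ := tgd_glob hf hA hM v hb hV h hp hpv h2
  obtain ⟨L, hL⟩ := exists_ldI v
  have hVL : V.comap (algebraMap (FK F v) _) = Ok L := by
    rw [hV]
    exact SetLike.ext fun x => (hL x).symm
  obtain rfl := GM.v_uniq L V hVL
  have hc : ∀ b : AlgebraicClosure (FK F v), b ≠ 0 → ∃ c : AlgebraicClosure (FK F v), c ≠ 0 ∧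
      L.nm (b * c) < 1 ∧ c ∈ L.V := by
    intro b hb
    obtain ⟨e, he⟩ := exists_pow_lt_of_lt_one (inv_pos.2 (L.pos hb)) L.lt
    refine ⟨(L.p : AlgebraicClosure (FK F v)) ^ e, pow_ne_zero _ (L.ne_zero L.p_pos), ?_, ?_⟩
    · rw [L.mul, L.pow]
      calc L.nm b * L.nm (L.p : AlgebraicClosure (FK F v)) ^ e
          < L.nm b * (L.nm b)⁻¹ := mul_lt_mul_of_pos_left he (L.pos hb)
        _ = 1 := mul_inv_cancel₀ (L.pos hb).ne'
    · exact pow_mem (L.mem_V.2 L.lt.le) e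
  obtain ⟨c₁, hc1, hc1', hc1''⟩ := hc a₁ h1
  obtain ⟨c₂, hc2, hc2', hc2''⟩ := hc a₂ h3
  have hV1 : a₁ * c₁ ∈ L.V := L.mem_V.2 hc1'.le
  have hV2 : a₂ * c₂ ∈ L.V := L.mem_V.2 hc2'.le
  have h4 := hd ((a₁ * c₁) * (a₂ * c₂)) (mul_ne_zero (mul_ne_zero h1 hc1) (mul_ne_zero h3 hc2))
    ⟨c₁ * (a₂ * c₂), mul_mem hc1'' hV2, by ring⟩
  have h5 := ht ((a₁ * c₁) * (a₂ * c₂)) (mul_ne_zero (mul_ne_zero h1 hc1) (mul_ne_zero h3 hc2))
    ⟨c₂ * (a₁ * c₁), mul_mem hc2'' hV1, by ring⟩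
  have ha1 : L.nm ((a₁ * c₁) * (a₂ * c₂)) < 1 := by
    rw [L.mul]
    exact (mul_le_of_le_one_right (L.nonneg _) hc2'.le).trans_lt hc1'
  exact ctv_of hf.hom (mul_ne_zero (mul_ne_zero h1 hc1) (mul_ne_zero h3 hc2)) ha1 h5 h4.2

end GX
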