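import Pool.Agent.Lib.MP_f80667_ag.Ep.Sa

/-! Projections with integral coefficients: roots over near points (Hensel's lemma with constants). -/

open ZC BE PE CV IntermediateField

namespace GX

variable {F : Type} [Field F] {N d : ℕ} {ι : Type} {f : ι → MvPolynomial (Fin N) F} {K Ω : Type}
  [Field K] [CharZero K] [Field Ω] [Algebra K Ω] [Algebra F K] [Algebra F Ω]
  [IsScalarTower F K Ω] [IsAlgClosure K Ω] {L : Ld K Ω} {ψ : Prj K N d}
  {M : IntermediateField K Ω} {c c' : Fin (d + 1) → Ω} {w w' : Ω} {t δ : ℝ}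

/-- `G (c, Y)`. -/
private noncomputable def chq {K Ω : Type} [Field K] [Field Ω] [Algebra K Ω] {d : ℕ}
    (c : Fin (d + 1) → Ω) (P : Polynomial (MvPolynomial (Fin (d + 1)) K)) : Polynomial Ω :=
  P.map (MvPolynomial.aeval c : MvPolynomial (Fin (d + 1)) K →ₐ[K] Ω).toRingHom

private theorem chq_eval {K Ω : Type} [Field K] [Field Ω] [Algebra K Ω] {d : ℕ}
    (c : Fin (d + 1) → Ω) (w : Ω) (P : Polynomial (MvPolynomial (Fin (d + 1)) K)) :
    (chq c P).eval w = pe c w P := by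
  rw [chq, Polynomial.eval_map, pe, Polynomial.coe_eval₂RingHom]

private theorem chq_der {K Ω : Type} [Field K] [Field Ω] [Algebra K Ω] {d : ℕ}
    (c : Fin (d + 1) → Ω) (w : Ω) (P : Polynomial (MvPolynomial (Fin (d + 1)) K)) :
    (Polynomial.derivative (chq c P)).eval w = pe c w (Polynomial.derivative P) := by
  rw [chq, Polynomial.derivative_map]
  exact chq_eval c w (Polynomial.derivative P)

/-- The polynomial with the roots `s`. -/
private noncomputable def sbq {Ω : Type} [Field Ω] (s : Multiset Ω) : Polynomial Ω :=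
  (s.map fun a => Polynomial.X - Polynomial.C a).prod

private theorem sbq_cons {Ω : Type} [Field Ω] (a : Ω) (s : Multiset Ω) :
    sbq (a ::ₘ s) = (Polynomial.X - Polynomial.C a) * sbq s := by
  rw [sbq, sbq, Multiset.map_cons, Multiset.prod_cons]

private theorem sbq_eval {Ω : Type} [Field Ω] (a : Ω) (s : Multiset Ω) (w : Ω) :
    (sbq (a ::ₘ s)).eval w = (w - a) * (sbq s).eval w := by
  rw [sbq_cons, Polynomial.eval_mul, Polynomial.eval_sub, Polynomial.eval_X, Polynomial.eval_C]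

private theorem sbq_der {Ω : Type} [Field Ω] (a : Ω) (s : Multiset Ω) (w : Ω) :
    (Polynomial.derivative (sbq (a ::ₘ s))).eval w =
      (sbq s).eval w + (w - a) * (Polynomial.derivative (sbq s)).eval w := by
  rw [sbq_cons, Polynomial.derivative_mul, Polynomial.derivative_sub, Polynomial.derivative_X,
    Polynomial.derivative_C, sub_zero, one_mul, Polynomial.eval_add, Polynomial.eval_mul,
    Polynomial.eval_sub, Polynomial.eval_X, Polynomial.eval_C]

private theorem sb_A {K Ω : Type} [Field K] [Field Ω] [Algebra K Ω] (L : Ld K Ω)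
    (s : Multiset Ω) (w : Ω) {r : ℝ} (hr : 0 ≤ r) (h : ∀ a ∈ s, r ≤ L.nm (w - a)) :
    r * L.nm ((Polynomial.derivative (sbq s)).eval w) ≤ L.nm ((sbq s).eval w) := by
  induction s using Multiset.induction_on with
  | empty =>
    rw [sbq, Multiset.map_zero, Multiset.prod_zero, Polynomial.derivative_one,
      Polynomial.eval_zero, L.zero, mul_zero]
    exact L.nonneg _
  | cons a s ih =>
    have ih' := ih fun b hb => h b (Multiset.mem_cons_of_mem hb)
    have ha := h a (Multiset.mem_cons_self a s)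
    rw [sbq_der, sbq_eval, L.mul]
    refine (mul_le_mul_of_nonneg_left (L.add _ _) hr).trans ?_
    rw [mul_max_of_nonneg _ _ hr]
    refine max_le (mul_le_mul_of_nonneg_right ha (L.nonneg _)) ?_
    rw [L.mul]
    calc r * (L.nm (w - a) * L.nm ((Polynomial.derivative (sbq s)).eval w))
        = L.nm (w - a) * (r * L.nm ((Polynomial.derivative (sbq s)).eval w)) := by ring
      _ ≤ L.nm (w - a) * L.nm ((sbq s).eval w) :=
        mul_le_mul_of_nonneg_left ih' (L.nonneg _)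

private theorem sb_B {K Ω : Type} [Field K] [Field Ω] [Algebra K Ω] (L : Ld K Ω)
    (s : Multiset Ω) (w w₁ : Ω) (h : ∀ a ∈ s, L.nm (w₁ - w) ≤ L.nm (w₁ - a)) :
    L.nm ((sbq s).eval w) ≤ L.nm ((sbq s).eval w₁) := by
  induction s using Multiset.induction_on with
  | empty =>
    rw [sbq, Multiset.map_zero, Multiset.prod_zero, Polynomial.eval_one, Polynomial.eval_one]
  | cons a s ih =>
    have ih' := ih fun b hb => h b (Multiset.mem_cons_of_mem hb)
    have ha := h a (Multiset.mem_cons_self a s)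
    rw [sbq_eval, sbq_eval, L.mul, L.mul]
    refine mul_le_mul ?_ ih' (L.nonneg _) (L.nonneg _)
    have h1 : w - a = (w₁ - a) - (w₁ - w) := by ring
    rw [h1]
    exact (L.sub _ _).trans (max_le le_rfl ha)

private theorem sb_split (hψ : Pk f L ψ)
    (c : Fin (d + 1) → Ω) : chq c ψ.G = sbq (chq c ψ.G).roots := by
  have hΩ : IsAlgClosed Ω := IsAlgClosure.isAlgClosed K
  have hm : (chq c ψ.G).Monic := hψ.mon.map _
  exact (IsAlgClosed.splits (chq c ψ.G)).eq_prod_roots_of_monic hm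

private theorem sb_root (hψ : Pk f L ψ) (c : Fin (d + 1) → Ω) {w : Ω} :
    w ∈ (chq c ψ.G).roots ↔ pe c w ψ.G = 0 := by
  have hm : (chq c ψ.G).Monic := hψ.mon.map _
  rw [Polynomial.mem_roots hm.ne_zero, Polynomial.IsRoot.def, chq_eval]

private theorem sb_min {K Ω : Type} [Field K] [Field Ω] [Algebra K Ω] (L : Ld K Ω)
    (s : Multiset Ω) (w : Ω) (hs : s ≠ 0) :
    ∃ a ∈ s, ∀ b ∈ s, L.nm (w - a) ≤ L.nm (w - b) := by
  classical
  obtain ⟨a0, ha0⟩ := Multiset.exists_mem_of_ne_zero hs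
  obtain ⟨a, ha, h⟩ := s.toFinset.exists_min_image (fun a => L.nm (w - a))
    ⟨a0, Multiset.mem_toFinset.2 ha0⟩
  exact ⟨a, Multiset.mem_toFinset.1 ha, fun b hb => h b (Multiset.mem_toFinset.2 hb)⟩

private theorem sb_iG' (hψ : Pk f L ψ) (j : ℕ) (e : Fin (d + 1) →₀ ℕ) :
    L.nm (algebraMap K Ω (((Polynomial.derivative ψ.G).coeff j).coeff e)) ≤ 1 := by
  have h1 : ((Polynomial.derivative ψ.G).coeff j).coeff e =
      (ψ.G.coeff (j + 1)).coeff e * ((j + 1 : ℕ) : K) := by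
    rw [Polynomial.coeff_derivative]
    have h2 : ((j : MvPolynomial (Fin (d + 1)) K) + 1) = MvPolynomial.C ((j + 1 : ℕ) : K) := by
      push_cast
      rw [map_add, map_natCast, map_one]
    rw [h2, mul_comm, MvPolynomial.coeff_C_mul, mul_comm]
  rw [h1, map_mul, L.mul, map_natCast]
  exact mul_le_one₀ (hψ.iG _ _) (L.nonneg _) (L.nat_le _)

/-- **Hensel with constants**: a root over a near point. Proof: `G (c', Y)` is monic, so it has a root `w'` with `nm (w' - w) ^ n ≤ nm (G (c', w))`; better: the roots `w'_1 .. w'_n` of `G (c', Y)`: if all were at distance `> t / δ` from `w`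
then, because `nm G (c', w) ≤ t` .. ; or Newton in `Ω` (algebraically closed): among the roots of `G (c', Y)` choose the nearest `w'` to `w`; `nm (G_Y (c', w)) ≥ δ` (`t < δ`) is the norm of a sum of products of `n - 1` of the differences
`w - w'_k`, so the product of all differences except the smallest one has norm `≥ δ`, and `nm (w - w') δ ≤ nm (G (c', w)) ≤ t`. -/
theorem Pk.root (hψ : Pk f L ψ) (hc : ∀ r, L.nm (c r) ≤ 1) (hc' : ∀ r, L.nm (c' r) ≤ 1)
    (hG : pe c w ψ.G = 0) (h0 : 0 ≤ t) (ht : ∀ r, L.nm (c' r - c r) ≤ t)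
    (hδ : δ ≤ L.nm (pe c w (Polynomial.derivative ψ.G))) (hδ0 : 0 < δ) (h : t < δ) :
    ∃ w', pe c' w' ψ.G = 0 ∧ L.nm (w' - w) * δ ≤ t := by
  have hw := hψ.wl hc hG
  have h1 : L.nm (pe c' w ψ.G) ≤ t := by
    have h2 := pe_close hψ.iG hc' hw hc hw h0 ht (by rw [sub_self, L.zero]; exact h0)
    rwa [hG, sub_zero] at h2
  have h3 : δ ≤ L.nm (pe c' w (Polynomial.derivative ψ.G)) := by
    have h2 := pe_close (sb_iG' hψ) hc' hw hc hw h0 ht (by rw [sub_self, L.zero]; exact h0)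
    have h4 := L.eq_of_close (h2.trans_lt (h.trans_le hδ))
    rw [h4]
    exact hδ
  have hs : (chq c' ψ.G).roots ≠ 0 := by
    intro h4
    have h5 := sb_split hψ c'
    rw [h4, sbq, Multiset.map_zero, Multiset.prod_zero] at h5
    rw [← chq_der, h5, Polynomial.derivative_one, Polynomial.eval_zero, L.zero] at h3
    exact absurd hδ0 (not_lt.2 h3)
  obtain ⟨a, ha, h4⟩ := sb_min L _ w hs
  refine ⟨a, (sb_root hψ c').1 ha, ?_⟩
  have h5 := sb_A L _ w (L.nonneg (w - a)) h4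
  rw [← sb_split hψ c', chq_eval, chq_der] at h5
  rw [L.sub_comm]
  exact (mul_le_mul_of_nonneg_left h3 (L.nonneg _)).trans (h5.trans h1)

/-- Uniqueness. Proof: `G_Y (c', w')` has norm `≥ δ` (`t < δ ^ 2`: Lipschitz), so another root has distance `≥ δ` from `w'` (`Pk.sep`). -/
theorem Pk.root_uniq (hψ : Pk f L ψ) (hc : ∀ r, L.nm (c r) ≤ 1) (hc' : ∀ r, L.nm (c' r) ≤ 1)
    (hG : pe c w ψ.G = 0) (h0 : 0 ≤ t) (ht : ∀ r, L.nm (c' r - c r) ≤ t)
    (hδ : δ ≤ L.nm (pe c w (Polynomial.derivative ψ.G))) (hδ0 : 0 < δ) (h : t < δ ^ 2)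
    {w₁ w₂ : Ω} (h1 : pe c' w₁ ψ.G = 0) (h2 : pe c' w₂ ψ.G = 0) (h1' : L.nm (w₁ - w) < δ)
    (h2' : L.nm (w₂ - w) < δ) : w₁ = w₂ := by
  have hw := hψ.wl hc hG
  have hw1 := hψ.wl hc' h1
  have hδ1 : δ ≤ 1 := hδ.trans (pe_le (sb_iG' hψ) hc hw)
  have ht1 : t < δ := by
    refine h.trans_le ?_
    rw [pow_two]
    exact mul_le_of_le_one_left hδ0.le hδ1
  by_contra hne
  have h3 := hψ.sep hc' h1 h2 hne
  have h4 : L.nm (w₁ - w₂) < δ := by
    have h5 : w₁ - w₂ = (w₁ - w) - (w₂ - w) := by ring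
    rw [h5]
    exact (L.sub _ _).trans_lt (max_lt h1' h2')
  have h6 := pe_close (sb_iG' hψ) hc' hw1 hc hw (t := max t (L.nm (w₁ - w)))
    (h0.trans (le_max_left _ _)) (fun r => (ht r).trans (le_max_left _ _)) (le_max_right _ _)
  have h7 := L.eq_of_close (h6.trans_lt ((max_lt ht1 h1').trans_le hδ))
  rw [h7] at h3
  exact absurd (hδ.trans h3) (not_le.2 h4)

/-- Rationality. Proof: `Pk.root_uniq` and Galois theory (`Ω / M`): the root is fixed by `M.fixingSubgroup`. -/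
theorem Pk.root_mem (hψ : Pk f L ψ) (hc : Iv L M c) (hc' : Iv L M c') (hw : w ∈ M)
    (hG : pe c w ψ.G = 0) (h0 : 0 ≤ t) (ht : ∀ r, L.nm (c' r - c r) ≤ t)
    (hδ : δ ≤ L.nm (pe c w (Polynomial.derivative ψ.G))) (hδ0 : 0 < δ) (h : t < δ ^ 2)
    {w₁ : Ω} (h1 : pe c' w₁ ψ.G = 0) (h1' : L.nm (w₁ - w) < δ) : w₁ ∈ M := by
  refine mem_of_fix M fun γ hγ => ?_
  have hfix : ∀ y ∈ M, γ y = y := fun y hy =>
    (IntermediateField.mem_fixingSubgroup_iff M γ).1 hγ y hy
  have h2 := congrArg γ h1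
  rw [pe_act, map_zero] at h2
  have h3 : (fun r => γ (c' r)) = c' := funext fun r => hfix _ (hc' r).1
  rw [h3] at h2
  refine hψ.root_uniq (fun r => (hc r).2) (fun r => (hc' r).2) hG h0 ht hδ hδ0 h h2 h1 ?_ h1'
  have h4 : γ w₁ - w = γ (w₁ - w) := by
    rw [map_sub, hfix w hw]
  rw [h4, L.act]
  exact h1'

/-- Every root over `c'` is near a root over `c`. Proof: `Pk.root` from `c'` to `c` needs the bound at `w₁`; instead: `nm (G (c, w₁)) ≤ t`, the nearest root `w` of `G (c, Y)` to `w₁`: `nm (w₁ - w) nm (G_Y (c, w)) ≤ t` (the other differences are `≥` those of `w`). -/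
theorem Pk.root_near (hψ : Pk f L ψ) (hc : ∀ r, L.nm (c r) ≤ 1) (hc' : ∀ r, L.nm (c' r) ≤ 1)
    (h0 : 0 ≤ t) (ht : ∀ r, L.nm (c' r - c r) ≤ t)
    (hδ : ∀ w, pe c w ψ.G = 0 → δ ≤ L.nm (pe c w (Polynomial.derivative ψ.G))) (hδ0 : 0 < δ)
    {w₁ : Ω} (h1 : pe c' w₁ ψ.G = 0) : ∃ w, pe c w ψ.G = 0 ∧ L.nm (w₁ - w) * δ ≤ t := by
  have hw1 := hψ.wl hc' h1
  have h3 : L.nm (pe c w₁ ψ.G) ≤ t := by
    have h2 := pe_close hψ.iG hc' hw1 hc hw1 h0 ht (by rw [sub_self, L.zero]; exact h0)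
    rw [h1, zero_sub, L.neg] at h2
    exact h2
  have hs : (chq c ψ.G).roots ≠ 0 := by
    intro h4
    have h5 := sb_split hψ c
    rw [h4, sbq, Multiset.map_zero, Multiset.prod_zero] at h5
    have h6 : ψ.G = 1 := by
      have h7 : ψ.G.natDegree = 0 := by
        have h8 : (chq c ψ.G).natDegree = ψ.G.natDegree := hψ.mon.natDegree_map _
        rw [← h8, h5, Polynomial.natDegree_one]
      exact (Polynomial.Monic.natDegree_eq_zero hψ.mon).1 h7
    rw [h6, map_one] at h1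
    exact one_ne_zero h1
  obtain ⟨w, hwr, h4⟩ := sb_min L _ w₁ hs
  have hw := (sb_root hψ c).1 hwr
  refine ⟨w, hw, ?_⟩
  obtain ⟨s, hs'⟩ := Multiset.exists_cons_of_mem hwr
  have h5 := sb_split hψ c
  rw [hs'] at h5 h4
  have h6 := sb_B L s w w₁ fun a ha => h4 a (Multiset.mem_cons_of_mem ha)
  have h7 : pe c w (Polynomial.derivative ψ.G) = (sbq s).eval w := by
    rw [← chq_der, h5, sbq_der, sub_self, zero_mul, add_zero]
  have h8 : pe c w₁ ψ.G = (w₁ - w) * (sbq s).eval w₁ := by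
    rw [← chq_eval, h5, sbq_eval]
  rw [h8, L.mul] at h3
  have h9 := hδ w hw
  rw [h7] at h9
  exact (mul_le_mul_of_nonneg_left (h9.trans h6) (L.nonneg _)).trans h3

end GX
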