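import Pool.Agent.Lib.MP_f80667_ag.Ep.Sb

/-!
The branches: the roots and the points.

* `Bd.rt b h`: the value of `y` at the point `γ b + ϖ h` on the branch `b`.
-/

open ZC BE PE CV IntermediateField

namespace GX

variable {F : Type} [Field F] {N d m : ℕ} {ι : Type} {f : ι → MvPolynomial (Fin N) F}
  {K Ω : Type} [Field K] [CharZero K] [Field Ω] [Algebra K Ω] [Algebra F K] [Algebra F Ω]
  [IsScalarTower F K Ω] [IsAlgClosure K Ω] {L : Ld K Ω} {X : Bd f K Ω d m}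
  {M : IntermediateField K Ω} {b b' : X.B} {h h' : Fin (d + 1) → Ω} {t : ℝ}

open Classical in
/-- The value of `y` at the point `γ b + ϖ h` on the branch `b`. -/
noncomputable def Bd.rt (L : Ld K Ω) (X : Bd f K Ω d m) (b : X.B) (h : Fin (d + 1) → Ω) : Ω :=
  if hx : ∃ w, L.nm (w - X.w b) < X.ε ∧ pe (X.cc b h) w (X.ψ (X.i b)).G = 0 then hx.choose
  else X.w b

private theorem sc_e1 (hX : X.Ok L) : X.ε < 1 := hX.εp.trans_lt L.lt

private theorem sc_m2 (hX : X.Ok L) : L.nm X.ϖ < X.ε ^ 2 :=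
  hX.sm.trans_le (pow_le_pow_of_le_one hX.ε0.le (sc_e1 hX).le (by norm_num))

private theorem sc_m1 (hX : X.Ok L) : L.nm X.ϖ < X.ε := by
  refine (sc_m2 hX).trans_le ?_
  rw [sq]
  exact mul_le_of_le_one_left hX.ε0.le (sc_e1 hX).le

private theorem sc_close (X : Bd f K Ω d m) (b : X.B) {h h' : Fin (d + 1) → Ω} {t : ℝ}
    (ht : ∀ r, L.nm (h' r - h r) ≤ t) (r : Fin (d + 1)) :
    L.nm (X.cc b h' r - X.cc b h r) ≤ L.nm X.ϖ * t := by
  have e : X.cc b h' r - X.cc b h r = X.ϖ * (h' r - h r) := by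
    rw [Bd.cc, Bd.cc]
    ring
  rw [e, L.mul]
  exact mul_le_mul_of_nonneg_left (ht r) (L.nonneg _)

private theorem sc_near (X : Bd f K Ω d m) (b : X.B) {h : Fin (d + 1) → Ω}
    (hh : ∀ r, L.nm (h r) ≤ 1) (r : Fin (d + 1)) :
    L.nm (X.cc b h r - X.γ b r) ≤ L.nm X.ϖ := by
  have e : X.cc b h r - X.γ b r = X.ϖ * h r := by
    rw [Bd.cc]
    ring
  rw [e, L.mul]
  exact mul_le_of_le_one_right (L.nonneg _) (hh r)

private theorem sc_le (hX : X.Ok L) (b : X.B) {h : Fin (d + 1) → Ω}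
    (hh : ∀ r, L.nm (h r) ≤ 1) (r : Fin (d + 1)) : L.nm (X.cc b h r) ≤ 1 := by
  have e : X.cc b h r = (X.cc b h r - X.γ b r) + X.γ b r := by ring
  rw [e]
  exact (L.add _ _).trans (max_le ((sc_near X b hh r).trans
    ((sc_m1 hX).trans (sc_e1 hX)).le) (hX.iv b r).2)

private theorem sc_rt (hX : X.Ok L) (b : X.B) {h : Fin (d + 1) → Ω}
    (hh : ∀ r, L.nm (h r) ≤ 1) : L.nm (X.rt L b h - X.w b) < X.ε ∧
      pe (X.cc b h) (X.rt L b h) (X.ψ (X.i b)).G = 0 := by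
  have hx : ∃ w, L.nm (w - X.w b) < X.ε ∧ pe (X.cc b h) w (X.ψ (X.i b)).G = 0 := by
    obtain ⟨w, h1, h2, -⟩ := hX.co b h hh
    exact ⟨w, h1, h2⟩
  unfold Bd.rt
  rw [dif_pos hx]
  exact hx.choose_spec

private theorem sc_gy (hX : X.Ok L) (b : X.B) :
    X.ε ≤ L.nm (pe (X.γ b) (X.w b) (Polynomial.derivative (X.ψ (X.i b)).G)) :=
  (hX.D b).trans ((hX.pk (X.i b)).gy (fun r => (hX.iv b r).2) (hX.root b))

theorem Bd.Ok.cc_iv (hX : X.Ok L) (hh : Iv L M h) : Iv L M (X.cc b h) := by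
  intro r
  refine ⟨?_, sc_le hX b (fun r => (hh r).2) r⟩
  rw [Bd.cc]
  exact add_mem ((bot_le : ⊥ ≤ M) (hX.iv b r).1) (mul_mem ((bot_le : ⊥ ≤ M) hX.ϖm) (hh r).1)

theorem Bd.Ok.ε1 (hX : X.Ok L) : X.ε < 1 := by
  exact sc_e1 hX

theorem Bd.Ok.gy (hX : X.Ok L) (b : X.B) :
    X.ε ≤ L.nm (pe (X.γ b) (X.w b) (Polynomial.derivative (X.ψ (X.i b)).G)) := by
  exact sc_gy hX b

/-- Different branches over one centre. -/
theorem Bd.Ok.sep (hX : X.Ok L) (hi : X.i b' = X.i b) (hγ : X.γ b' = X.γ b)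
    (hw : X.w b' ≠ X.w b) : X.ε ≤ L.nm (X.w b' - X.w b) := by
  have h1 := hX.root b'
  rw [hγ, hi] at h1
  rw [L.sub_comm]
  exact (sc_gy hX b).trans ((hX.pk (X.i b)).sep (fun r => (hX.iv b r).2) (hX.root b) h1
    (Ne.symm hw))

/-- The value of `D` does not change its norm in the polydisc. -/
theorem Bd.Ok.D_cc (hX : X.Ok L) (b : X.B) (hh : ∀ r, L.nm (h r) ≤ 1) :
    L.nm (MvPolynomial.aeval (X.cc b h) (X.ψ (X.i b)).D) =
      L.nm (MvPolynomial.aeval (X.γ b) (X.ψ (X.i b)).D) := by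
  have h1 := (hX.pk (X.i b)).D_near (fun r => (hX.iv b r).2) (sc_le hX b hh) (L.nonneg X.ϖ)
    (sc_near X b hh)
  have h2 := (h1.trans_lt (sc_m1 hX)).trans_le (hX.D b)
  have h3 := L.add_eq h2
  rwa [sub_add_cancel] at h3

theorem Bd.Ok.rt_root (hX : X.Ok L) (b : X.B) (hh : ∀ r, L.nm (h r) ≤ 1) :
    pe (X.cc b h) (X.rt L b h) (X.ψ (X.i b)).G = 0 := by
  exact (sc_rt hX b hh).2

private theorem sc_gy' (hX : X.Ok L) (b : X.B) {h : Fin (d + 1) → Ω}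
    (hh : ∀ r, L.nm (h r) ≤ 1) {w : Ω} (hw : pe (X.cc b h) w (X.ψ (X.i b)).G = 0) :
    X.ε ≤ L.nm (pe (X.cc b h) w (Polynomial.derivative (X.ψ (X.i b)).G)) := by
  refine (hX.D b).trans ?_
  rw [← hX.D_cc b hh]
  exact (hX.pk (X.i b)).gy (sc_le hX b hh) hw

private theorem sc_uniq (hX : X.Ok L) (b : X.B) {h : Fin (d + 1) → Ω}
    (hh : ∀ r, L.nm (h r) ≤ 1) {w : Ω} (h1 : pe (X.cc b h) w (X.ψ (X.i b)).G = 0)
    (h2 : L.nm (w - X.w b) < X.ε) : w = X.rt L b h :=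
  (hX.pk (X.i b)).root_uniq (fun r => (hX.iv b r).2) (sc_le hX b hh) (hX.root b)
    (L.nonneg X.ϖ) (sc_near X b hh) (sc_gy hX b) hX.ε0 (sc_m2 hX) h1 (sc_rt hX b hh).2 h2
    (sc_rt hX b hh).1

private theorem sc_small (hX : X.Ok L) {x : Ω} (h : L.nm x * X.ε ≤ L.nm X.ϖ) :
    L.nm x < X.ε := by
  by_contra h1
  rw [not_lt] at h1
  have h2 := (mul_le_mul_of_nonneg_right h1 hX.ε0.le).trans h
  rw [← sq] at h2
  exact absurd (sc_m2 hX) (not_lt.2 h2)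

theorem Bd.Ok.rt_le (hX : X.Ok L) (b : X.B) (hh : ∀ r, L.nm (h r) ≤ 1) :
    L.nm (X.rt L b h - X.w b) * X.ε ≤ L.nm X.ϖ := by
  obtain ⟨w', h1, h2⟩ := (hX.pk (X.i b)).root (fun r => (hX.iv b r).2) (sc_le hX b hh)
    (hX.root b) (L.nonneg X.ϖ) (sc_near X b hh) (sc_gy hX b) hX.ε0 (sc_m1 hX)
  have h3 := sc_uniq hX b hh h1 (sc_small hX h2)
  rw [← h3]
  exact h2

theorem Bd.Ok.rt_uniq (hX : X.Ok L) (b : X.B) (hh : ∀ r, L.nm (h r) ≤ 1) {w : Ω}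
    (h1 : pe (X.cc b h) w (X.ψ (X.i b)).G = 0) (h2 : L.nm (w - X.w b) < X.ε) :
    w = X.rt L b h := by
  exact sc_uniq hX b hh h1 h2

theorem Bd.Ok.rt_mem (hX : X.Ok L) (b : X.B) (hh : Iv L M h) :
    X.rt L b h ∈ M ∧ L.nm (X.rt L b h) ≤ 1 := by
  have hh1 : ∀ r, L.nm (h r) ≤ 1 := fun r => (hh r).2
  obtain ⟨h1, h2⟩ := sc_rt hX b hh1
  refine ⟨?_, (hX.pk (X.i b)).wl (sc_le hX b hh1) h2⟩
  exact (hX.pk (X.i b)).root_mem (c := X.γ b)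
    (fun r => ⟨(bot_le : ⊥ ≤ M) (hX.iv b r).1, (hX.iv b r).2⟩) (hX.cc_iv hh)
    ((bot_le : ⊥ ≤ M) (hX.wm b)) (hX.root b) (L.nonneg X.ϖ) (sc_near X b hh1) (sc_gy hX b)
    hX.ε0 (sc_m2 hX) h2 h1

theorem Bd.Ok.rt_act (hX : X.Ok L) (b : X.B) (hh : ∀ r, L.nm (h r) ≤ 1) (γ : Ω ≃ₐ[K] Ω) :
    γ (X.rt L b h) = X.rt L b fun r => γ (h r) := by
  obtain ⟨h1, h2⟩ := sc_rt hX b hh
  have hfix : ∀ y ∈ (⊥ : IntermediateField K Ω), γ y = y := by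
    intro y hy
    obtain ⟨a, rfl⟩ := IntermediateField.mem_bot.1 hy
    exact γ.commutes a
  have h3 := congrArg γ h2
  rw [pe_act, map_zero] at h3
  have h4 : (fun r => γ (X.cc b h r)) = X.cc b fun r => γ (h r) := by
    funext r
    rw [Bd.cc, Bd.cc, map_add, map_mul, hfix _ (hX.iv b r).1, hfix _ hX.ϖm]
  rw [h4] at h3
  refine sc_uniq hX b (fun r => by rw [L.act]; exact hh r) h3 ?_
  have h5 : γ (X.rt L b h) - X.w b = γ (X.rt L b h - X.w b) := by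
    rw [map_sub, hfix _ (hX.wm b)]
  rw [h5, L.act]
  exact h1

theorem Bd.Ok.rt_near (hX : X.Ok L) (b : X.B) (hh : ∀ r, L.nm (h r) ≤ 1)
    (hh' : ∀ r, L.nm (h' r) ≤ 1) (h0 : 0 ≤ t) (ht : ∀ r, L.nm (h' r - h r) ≤ t) :
    L.nm (X.rt L b h' - X.rt L b h) * X.ε ≤ L.nm X.ϖ * t := by
  obtain ⟨h1, h2⟩ := sc_rt hX b hh
  by_cases ht1 : t < 1
  · have hlt : L.nm X.ϖ * t < X.ε :=
      (mul_le_of_le_one_right (L.nonneg _) ht1.le).trans_lt (sc_m1 hX)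
    obtain ⟨w', h3, h4⟩ := (hX.pk (X.i b)).root (sc_le hX b hh) (sc_le hX b hh') h2
      (mul_nonneg (L.nonneg _) h0) (sc_close X b ht) (sc_gy' hX b hh h2) hX.ε0 hlt
    have h5 : L.nm (w' - X.rt L b h) < X.ε :=
      sc_small hX (h4.trans (mul_le_of_le_one_right (L.nonneg _) ht1.le))
    have h6 : L.nm (w' - X.w b) < X.ε := by
      have e : w' - X.w b = (w' - X.rt L b h) + (X.rt L b h - X.w b) := by ring
      rw [e]
      exact (L.add _ _).trans_lt (max_lt h5 h1)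
    rw [← sc_uniq hX b hh' h3 h6]
    exact h4
  · rw [not_lt] at ht1
    have h3 := hX.rt_le b hh
    have h4 := hX.rt_le b hh'
    have e : X.rt L b h' - X.rt L b h = (X.rt L b h' - X.w b) - (X.rt L b h - X.w b) := by ring
    have h5 : L.nm (X.rt L b h' - X.rt L b h) * X.ε ≤ L.nm X.ϖ := by
      rw [e]
      rcases le_max_iff.1 (L.sub (X.rt L b h' - X.w b) (X.rt L b h - X.w b)) with h6 | h6
      · exact (mul_le_mul_of_nonneg_right h6 hX.ε0.le).trans h4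
      · exact (mul_le_mul_of_nonneg_right h6 hX.ε0.le).trans h3
    exact h5.trans (le_mul_of_one_le_right (L.nonneg _) ht1)

/-- The roots over the point `γ b + ϖ h` are the values of the branches over the centre. -/
theorem Bd.Ok.rt_all (hX : X.Ok L) (b : X.B) (hh : ∀ r, L.nm (h r) ≤ 1) {w : Ω}
    (h1 : pe (X.cc b h) w (X.ψ (X.i b)).G = 0) :
    ∃ b', X.i b' = X.i b ∧ X.γ b' = X.γ b ∧ w = X.rt L b' h := by
  obtain ⟨w₀, h2, h3⟩ := (hX.pk (X.i b)).root_near (fun r => (hX.iv b r).2) (sc_le hX b hh)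
    (L.nonneg X.ϖ) (sc_near X b hh)
    (fun w hw => (hX.D b).trans ((hX.pk (X.i b)).gy (fun r => (hX.iv b r).2) hw)) hX.ε0 h1
  obtain ⟨b', hi, hγ, hw⟩ := hX.all b w₀ h2
  refine ⟨b', hi, hγ, sc_uniq hX b' hh ?_ ?_⟩
  · have h4 : X.cc b' h = X.cc b h := by
      funext r
      rw [Bd.cc, Bd.cc, hγ]
    rw [h4, hi]
    exact h1
  · rw [hw]
    exact sc_small hX h3

theorem Bd.Ok.rt_sep (hX : X.Ok L) (hi : X.i b' = X.i b) (hγ : X.γ b' = X.γ b)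
    (hw : X.w b' ≠ X.w b) (hh : ∀ r, L.nm (h r) ≤ 1) :
    L.nm (X.rt L b' h - X.rt L b h) = L.nm (X.w b' - X.w b) := by
  obtain ⟨h1, -⟩ := sc_rt hX b hh
  obtain ⟨h2, -⟩ := sc_rt hX b' hh
  have h3 := hX.sep hi hγ hw
  have e : X.rt L b' h - X.rt L b h =
      ((X.rt L b' h - X.w b') - (X.rt L b h - X.w b)) + (X.w b' - X.w b) := by ring
  rw [e]
  exact L.add_eq (((L.sub _ _).trans_lt (max_lt h2 h1)).trans_le h3)

theorem Bd.Ok.cop (hX : X.Ok L) (b : X.B) (hh : ∀ r, L.nm (h r) ≤ 1) :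
    Co (X.P b h) fun j => pe (X.cc b h) (X.rt L b h) ((X.ψ (X.i b)).A j) := by
  obtain ⟨w, h1, h2, h3⟩ := hX.co b h hh
  rw [← sc_uniq hX b hh h2 h1]
  exact h3

end GX
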