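import Pool.Agent.Lib.MP_f80667_ag.Ep.D
import Pool.Agent.Lib.MP_f80667_ag.Sb.A

/-!
The statement of the theorem on the functionals (EP, section 6).

* `Lse M P L π e`: a `p`-adic functional which kills the rational equivalences and is small on the small levels inside the branches vanishes on the kernel of the sum, from some level on.
-/

open ZC BE PE CV IntermediateField

namespace GX

variable {F : Type} [Field F] {N N' k k' : ℕ} {ι ι' : Type} {f : ι → MvPolynomial (Fin N) F}
  {A : Gv F N' k' ι'}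
  {K Ω : Type} [Field K] [Field Ω] [Algebra K Ω] [Algebra F K] [Algebra F Ω]
  [IsScalarTower F K Ω] {σ B : Type}

/-- A `p`-adic functional which kills the rational equivalences and is small on the small levels vanishes on the kernel of the sum. -/
def Lse (M : Mf f A k) (P : B → (σ → Ω) → (Xf f).pt Ω) (L : Ld K Ω) (π : Ω) (e : ℕ) : Prop :=
  letI := A.G.grp Ω
  ∀ (_ : Fact L.p.Prime), ∃ n₁ : ℕ, ∀ r : ℕ, n₁ ≤ r →
    ∀ lam : ((Xf f).pt Ω →₀ ℤ) →+ ℚ_[L.p], (∀ x ∈ (Xf f).ratEq K Ω, lam x = 0) →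
      (∀ k : ℕ, ∀ x ∈ Vb L P π (r + k * e), ‖lam x‖ ≤ (L.p : ℝ) ^ (-(k : ℤ))) →
        ∀ z ∈ Vb L P π r, M.S Ω z = 0 → lam z = 0

end GX
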