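import Mathlib

/-!
The descent (EP, section 8): pure algebra.

* `Dk S t q p R R' V D`: `V n` is a filtration of the cycles over `E`, `D s` a filtration of the cycles over `K`, `t` is the trace from `E` to `K`,
  `R`, `R'` are the rational equivalences over `K`, `E`, `S` is the sum, `q` the degree of `E / K`.
* `Dk.ep2`: the kernel of the sum in `D s` is divisible modulo `R`.
* `Dk.ep1`: `D s` modulo `m D s + R` is finite, and zero for `m` prime to `p`.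
-/

namespace GX

variable {Z A : Type} [AddCommGroup Z] [AddCommGroup A]

/-- The properties of the filtrations over `E` and over `K`. -/
structure Dk (S : Z →+ A) (t : Z →+ Z) (q p : ℕ) (R R' : AddSubgroup Z)
    (V D : ℕ → AddSubgroup Z) : Prop where
  q0 : q ≠ 0
  anti : Antitone V
  tR : ∀ z ∈ R', t z ∈ R
  SR : ∀ z ∈ R, S z = 0
  nrm : ∀ n, ∀ v ∈ V n, ∃ z ∈ V n, t v - z ∈ R ∧ t z = q • z
  St : ∀ z, S z = 0 → S (t z) = 0
  div : ∀ m, m ≠ 0 → ∃ u n₀, ∀ n, n₀ ≤ n → ∀ z ∈ V (n + u), ∃ w ∈ V n, z - m • w ∈ R'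
  dp : ∀ m : ℕ, m.Coprime p → ∀ n, 1 ≤ n → ∀ z ∈ V n, ∃ w ∈ V n, z - m • w ∈ R'
  pk : ∀ n N, 1 ≤ n → ∃ k : ℕ, ∀ z ∈ V n, p ^ k • z ∈ V N
  fin : ∃ n₁, ∀ n, n₁ ≤ n → (V (n + 1)).relIndex (V n) ≠ 0
  tor : ∃ n₀, ∀ n, n₀ ≤ n → ∀ z ∈ V n, q • S z = 0 → S z = 0
  ker : ∃ n₀, ∀ n, n₀ ≤ n → ∀ z ∈ V n, S z = 0 → ∀ j, z ∈ V j
  zero : ∀ z, (∀ j, z ∈ V j) → S z = 0
  dvs : ∀ m : ℕ, m ≠ 0 → ∀ z, (∀ j, z ∈ V j) → ∃ w, (∀ j, w ∈ V j) ∧ z - m • w ∈ R'
  into : ∀ n, ∃ s₀, ∀ s, s₀ ≤ s → ∀ z ∈ D s, ∃ v ∈ V n, z - t v ∈ R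
  back : ∀ s, ∃ n, ∀ v ∈ V n, ∃ z ∈ D s, t v - z ∈ R

variable {S : Z →+ A} {t : Z →+ Z} {q p : ℕ} {R R' : AddSubgroup Z} {V D : ℕ → AddSubgroup Z}

/-- **The kernel of the sum is divisible.** -/
theorem Dk.ep2 (h : Dk S t q p R R' V D) : ∃ s₀, ∀ s, s₀ ≤ s → ∀ z ∈ D s, S z = 0 →
    ∀ m : ℕ, m ≠ 0 → ∃ z' ∈ D s, S z' = 0 ∧ z - m • z' ∈ R := by
  obtain ⟨u, n₀, hdiv⟩ := h.div q h.q0
  obtain ⟨n₁, htor⟩ := h.tor
  obtain ⟨n₂, hker⟩ := h.ker
  obtain ⟨n, hn⟩ : ∃ n, n = max n₀ (max n₁ n₂) := ⟨_, rfl⟩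
  obtain ⟨s₀, hs₀⟩ := h.into (n + u)
  refine ⟨s₀, fun s hs z hz hS m hm => ?_⟩
  obtain ⟨v, hv, hzv⟩ := hs₀ s hs z hz
  obtain ⟨v', hv', hvv⟩ := hdiv n (by rw [hn]; exact le_max_left _ _) v hv
  obtain ⟨x, hx, h1, h2⟩ := h.nrm n v' hv'
  -- `z = q x` modulo `R`
  have h3 : z - q • x ∈ R := by
    have h4 := h.tR _ hvv
    rw [map_sub, map_nsmul] at h4
    have e : z - q • x = (z - t v) + (t v - q • t v') + q • (t v' - x) := by
      rw [smul_sub]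
      abel
    rw [e]
    exact add_mem (add_mem hzv h4) (nsmul_mem h1 q)
  have h4 : q • S x = 0 := by
    have h5 := h.SR _ h3
    rw [map_sub, map_nsmul, hS, zero_sub, neg_eq_zero] at h5
    exact h5
  have h5 : S x = 0 := htor n (by rw [hn]; exact (le_max_left _ _).trans (le_max_right _ _))
    x hx h4
  have h6 : ∀ j, x ∈ V j := hker n
    (by rw [hn]; exact (le_max_right _ _).trans (le_max_right _ _)) x hx h5
  obtain ⟨w, hw, hxw⟩ := h.dvs m hm x h6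
  obtain ⟨k, hk⟩ := h.back s
  obtain ⟨z', hz', h7⟩ := hk w (hw k)
  refine ⟨z', hz', ?_, ?_⟩
  · have h8 := h.SR _ h7
    rw [map_sub, h.St w (h.zero w hw), zero_sub, neg_eq_zero] at h8
    exact h8
  · have h8 := h.tR _ hxw
    rw [map_sub, map_nsmul, h2] at h8
    have e : z - m • z' = (z - q • x) + (q • x - m • t w) + m • (t w - z') := by
      rw [smul_sub]
      abel
    rw [e]
    exact add_mem (add_mem h3 h8) (nsmul_mem h7 m)

/-- Representatives of a finite quotient. -/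
private theorem wda_reps {A : Type} [AddCommGroup A] {R T : AddSubgroup A}
    (h : R.relIndex T ≠ 0) :
    ∃ E : Finset A, (∀ e ∈ E, e ∈ T) ∧ ∀ t ∈ T, ∃ e ∈ E, t - e ∈ R := by
  classical
  have hfi : (R.addSubgroupOf T).FiniteIndex := ⟨h⟩
  have hfin : Finite (T ⧸ R.addSubgroupOf T) := inferInstance
  let _ : Fintype (T ⧸ R.addSubgroupOf T) := Fintype.ofFinite _
  refine ⟨Finset.univ.image fun q : T ⧸ R.addSubgroupOf T => ((q.out : T) : A), fun e he => ?_,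
    fun t ht => ?_⟩
  · obtain ⟨q, -, rfl⟩ := Finset.mem_image.1 he
    exact q.out.2
  · obtain ⟨q, hq⟩ : ∃ q : T ⧸ R.addSubgroupOf T, q = QuotientAddGroup.mk ⟨t, ht⟩ := ⟨_, rfl⟩
    refine ⟨_, Finset.mem_image.2 ⟨q, Finset.mem_univ q, rfl⟩, ?_⟩
    have h9 : (QuotientAddGroup.mk q.out : T ⧸ R.addSubgroupOf T) =
        QuotientAddGroup.mk ⟨t, ht⟩ := by rw [← hq]; exact Quotient.out_eq q
    have h10 := QuotientAddGroup.eq.1 h9
    rw [AddSubgroup.mem_addSubgroupOf] at h10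
    have h11 : (((-q.out + ⟨t, ht⟩ : T)) : A) = t - (q.out : T) := by
      push_cast
      abel
    rwa [h11] at h10

private theorem wda_fin (hV : Antitone V) {n₁ : ℕ}
    (hf : ∀ n, n₁ ≤ n → (V (n + 1)).relIndex (V n) ≠ 0) (k : ℕ) :
    (V (n₁ + k)).relIndex (V n₁) ≠ 0 := by
  induction k with
  | zero =>
    rw [add_zero, AddSubgroup.relIndex_self]
    exact one_ne_zero
  | succ k ih =>
    have h1 := AddSubgroup.relIndex_mul_relIndex (V (n₁ + (k + 1))) (V (n₁ + k)) (V n₁)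
      (hV (by omega)) (hV (by omega))
    rw [← h1]
    exact mul_ne_zero (hf _ (Nat.le_add_right _ _)) ih

/-- **The quotients by the multiples are finite.** -/
theorem Dk.ep1 (h : Dk S t q p R R' V D) : ∃ s₀, ∀ s, s₀ ≤ s →
    (∀ m : ℕ, m ≠ 0 → ∃ E : Finset Z, (∀ e ∈ E, e ∈ D s) ∧
      ∀ z ∈ D s, ∃ e ∈ E, ∃ w ∈ D s, z - e - m • w ∈ R) ∧
    ∀ m : ℕ, m.Coprime p → ∀ z ∈ D s, ∃ w ∈ D s, z - m • w ∈ R := by
  classical
  obtain ⟨n₂, hfin⟩ := h.fin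
  obtain ⟨n₁, hn₁, hn₁'⟩ : ∃ n₁, n₂ ≤ n₁ ∧ 1 ≤ n₁ := ⟨max n₂ 1, le_max_left _ _, le_max_right _ _⟩
  obtain ⟨s₀, hs₀⟩ := h.into n₁
  refine ⟨s₀, fun s hs => ?_⟩
  obtain ⟨k, hk⟩ := h.back s
  refine ⟨fun m hm => ?_, fun m hm z hz => ?_⟩
  · obtain ⟨u, n₀, hdiv⟩ := h.div m hm
    -- `t` of the level `N` is in `m D s + R`
    obtain ⟨N, hN, hN', hNV⟩ : ∃ N, n₁ ≤ N ∧ n₁ + (N - n₁) = N ∧
        ∀ v ∈ V N, ∃ w ∈ D s, t v - m • w ∈ R := by
      refine ⟨max (max n₀ k) n₁ + u, by omega, by omega, fun v hv => ?_⟩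
      obtain ⟨w, hw, hvw⟩ := hdiv _ (by omega) v hv
      obtain ⟨w', hw', h1⟩ := hk w (h.anti (by omega : k ≤ max (max n₀ k) n₁) hw)
      refine ⟨w', hw', ?_⟩
      have h2 := h.tR _ hvw
      rw [map_sub, map_nsmul] at h2
      have e : t v - m • w' = (t v - m • t w) + m • (t w - w') := by
        rw [smul_sub]
        abel
      rw [e]
      exact add_mem h2 (nsmul_mem h1 m)
    have h1 := wda_fin h.anti (fun n hn => hfin n (hn₁.trans hn)) (N - n₁)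
    rw [hN'] at h1
    obtain ⟨E, hE, hE'⟩ := wda_reps h1
    have key : ∀ e : Z, ∃ g, (∃ z ∈ D s, ∃ w ∈ D s, z - t e - m • w ∈ R) →
        g ∈ D s ∧ ∃ w ∈ D s, g - t e - m • w ∈ R := by
      intro e
      by_cases he : ∃ z ∈ D s, ∃ w ∈ D s, z - t e - m • w ∈ R
      · obtain ⟨z, hz, hw⟩ := he
        exact ⟨z, fun _ => ⟨hz, hw⟩⟩
      · exact ⟨0, fun h => absurd h he⟩
    choose g hg using key
    refine ⟨(E.filter fun e => ∃ z ∈ D s, ∃ w ∈ D s, z - t e - m • w ∈ R).image g,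
      fun e he => ?_, fun z hz => ?_⟩
    · obtain ⟨a, ha, rfl⟩ := Finset.mem_image.1 he
      exact (hg a (Finset.mem_filter.1 ha).2).1
    · obtain ⟨v, hv, hzv⟩ := hs₀ s hs z hz
      obtain ⟨e, he, hve⟩ := hE' v hv
      obtain ⟨w, hw, h2⟩ := hNV _ hve
      rw [map_sub] at h2
      have h3 : z - t e - m • w ∈ R := by
        have e1 : z - t e - m • w = (z - t v) + (t v - t e - m • w) := by abel
        rw [e1]
        exact add_mem hzv h2
      obtain ⟨h4, w', hw', h5⟩ := hg e ⟨z, hz, w, hw, h3⟩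
      refine ⟨g e, Finset.mem_image.2 ⟨e, Finset.mem_filter.2 ⟨he, z, hz, w, hw, h3⟩, rfl⟩,
        w - w', sub_mem hw hw', ?_⟩
      have e2 : z - g e - m • (w - w') = (z - t e - m • w) - (g e - t e - m • w') := by
        rw [smul_sub]
        abel
      rw [e2]
      exact sub_mem h3 h5
  · obtain ⟨v, hv, hzv⟩ := hs₀ s hs z hz
    obtain ⟨N, hN1, hNk⟩ : ∃ N, 1 ≤ N ∧ k ≤ N := ⟨max 1 k, le_max_left _ _, le_max_right _ _⟩
    obtain ⟨j, hj⟩ := h.pk n₁ N hn₁'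
    obtain ⟨w, hw, h1⟩ := h.dp m hm N hN1 _ (hj v hv)
    obtain ⟨d, hd, h2⟩ := hk w (h.anti hNk hw)
    -- `p ^ j z = m d` modulo `R`
    have h3 : p ^ j • z - m • d ∈ R := by
      have h4 := h.tR _ h1
      rw [map_sub, map_nsmul, map_nsmul] at h4
      have e : p ^ j • z - m • d = p ^ j • (z - t v) + (p ^ j • t v - m • t w) +
          m • (t w - d) := by
        rw [smul_sub, smul_sub]
        abel
      rw [e]
      exact add_mem (add_mem (nsmul_mem hzv _) h4) (nsmul_mem h2 m)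
    obtain ⟨a, b, hab⟩ := Nat.isCoprime_iff_coprime.2 (Nat.Coprime.pow_right j hm)
    refine ⟨a • z + b • d, add_mem (zsmul_mem hz a) (zsmul_mem hd b), ?_⟩
    have e : z - m • (a • z + b • d) = b • (p ^ j • z - m • d) := by
      calc z - m • (a • z + b • d)
          = (a * (m : ℤ) + b * ((p ^ j : ℕ) : ℤ)) • z - m • (a • z + b • d) := by
            rw [hab, one_smul]
        _ = b • (p ^ j • z - m • d) := by
            rw [add_smul, smul_sub, smul_add, mul_smul, mul_smul, natCast_zsmul, natCast_zsmul,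
              smul_comm a m z, smul_comm b m d]
            abel
    rw [e]
    exact zsmul_mem h3 b

end GX
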