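import Pool.Agent.Lib.MP_f80667_ag.Gx.PjP

/-!
General centres. `f = 0` is a nonsingular projective variety over `F` (the ideal is prime), `ψ_i` projections over `F`: there is a point `γ` over `F` of the
projective space such that `D_i (γ) ≠ 0` and at all points over `γ` all the `D_{i'}` are not `0`.
-/

open MvPolynomial

namespace GX

variable {F : Type} [Field F] [CharZero F] {N d m : ℕ} {ι : Type}
  {f : ι → MvPolynomial (Fin N) F}

/-- Proof: choose `c` over `F` with `D (c) ≠ 0` (`exists_pt`) and a root `w` of `G (c, Y)` in the algebraic closure: the degree of `G` is not `0`, otherwise `X_k ^ s ∈ I` for all `k`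
(`onG`), `I` is prime, the quotient is `F`: transcendence degree `0`. `x = pt c w` is a point of the variety with `u (x) = c` (`Prj.Ok.pt_zp` over the algebraic closure), so `D (u (x)) ≠ 0`, but it would be `0`
if `D (u)` were in the ideal. -/
theorem Nsg.D_not (hf : Nsg f d) {ψ : Prj F N d} (h : ψ.Ok f) (hD : ψ.D ≠ 0) :
    ψ.cp (Polynomial.C ψ.D) ∉ Ideal.span (Set.range f) := by
  intro hmem
  set I : Ideal (MvPolynomial (Fin N) F) := Ideal.span (Set.range f) with hI
  by_cases hdeg : ψ.G.natDegree = 0
  · have hG1 : ψ.G = 1 := Polynomial.eq_one_of_monic_natDegree_zero h.mon hdeg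
    obtain ⟨s, hs⟩ := h.onG
    have hp := hf.prime
    have hX : ∀ k, (X k : MvPolynomial (Fin N) F) ∈ I := by
      intro k
      have h1 := hs k
      rw [hG1, Prj.cp, map_one, mul_one] at h1
      exact hp.mem_of_pow_mem s h1
    have hsur : ∀ P : MvPolynomial (Fin N) F,
        ∃ a : F, Ideal.Quotient.mk I P = algebraMap F (MvPolynomial (Fin N) F ⧸ I) a := by
      intro P
      induction P using MvPolynomial.induction_on with
      | C a => exact ⟨a, rfl⟩
      | add P Q hP hQ =>
        obtain ⟨a, ha⟩ := hP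
        obtain ⟨b, hb⟩ := hQ
        exact ⟨a + b, by rw [map_add, map_add, ha, hb]⟩
      | mul_X P k hP => exact ⟨0, by
          rw [map_mul, Ideal.Quotient.eq_zero_iff_mem.2 (hX k), mul_zero, map_zero]⟩
    have halg : Algebra.IsAlgebraic F (MvPolynomial (Fin N) F ⧸ I) := by
      refine ⟨fun z => ?_⟩
      obtain ⟨P, rfl⟩ := Ideal.Quotient.mk_surjective z
      obtain ⟨a, ha⟩ := hsur P
      rw [ha]
      exact isAlgebraic_algebraMap a
    have hdim := hf.dim
    rw [← hI, trdeg_eq_zero] at hdim
    have h0 : (0 : ℕ) = d + 1 := by exact_mod_cast hdim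
    omega
  · obtain ⟨c, hc⟩ := exists_pt (F := F) (κ := F) hD
    set c' : Fin (d + 1) → AlgebraicClosure F :=
      fun r => algebraMap F (AlgebraicClosure F) (c r) with hc'
    have hc0 : aeval c' ψ.D ≠ 0 := by
      intro h0
      apply hc
      have h1 : aeval c' ψ.D = algebraMap F (AlgebraicClosure F) (aeval c ψ.D) :=
        MvPolynomial.aeval_algebraMap_apply (AlgebraicClosure F) c ψ.D
      rw [h1, map_eq_zero] at h0
      exact h0
    set g : Polynomial (AlgebraicClosure F) :=
      ψ.G.map (aeval c' : MvPolynomial (Fin (d + 1)) F →ₐ[F] AlgebraicClosure F).toRingHom with hg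
    have hgd : g.degree ≠ 0 := by
      rw [hg, h.mon.degree_map]
      intro h0
      exact hdeg (Polynomial.natDegree_eq_of_degree_eq_some h0)
    obtain ⟨w, hw⟩ := IsAlgClosed.exists_root g hgd
    have hG : pe c' w ψ.G = 0 := by
      rw [Polynomial.IsRoot.def, hg, Polynomial.eval_map] at hw
      exact hw
    obtain ⟨h1, h2, -⟩ := h.in_pt hf.hom hG (inv_mul_cancel₀ hc0) rfl
    have h3 := span_zero h1 hmem
    rw [cp_aeval, pe_C, h2] at h3
    exact hc0 h3

end GX
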