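import Pool.Agent.Lib.MP_f80667_ag.Ep.Xa

/-!
General centres: the equation of an element over the ring of the projection. `f = 0` is a nonsingular projective variety over `F` (the ideal is prime), `ψ_i` projections over `F`: there is a point `γ` over `F` of the
projective space such that `D_i (γ) ≠ 0` and at all points over `γ` all the `D_{i'}` are not `0`.
-/

open MvPolynomial

namespace GX

variable {F : Type} [Field F] [CharZero F] {N d m : ℕ} {ι : Type}
  {f : ι → MvPolynomial (Fin N) F}

/-- In a commutative ring without zero divisors which is generated by elements `x_j` such that `δ x_j` is a polynomial in an integral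
element `y`, everything is algebraic. -/
private theorem xa1_alg {A : Type} [CommRing A] [IsDomain A] [Algebra F A] {x : Fin N → A}
    {c : Fin (d + 1) → A} {y : A} {G : Polynomial (MvPolynomial (Fin (d + 1)) F)}
    {D : MvPolynomial (Fin (d + 1)) F} {P : Fin N → Polynomial (MvPolynomial (Fin (d + 1)) F)}
    (hG : G.Monic) (h0 : pe c y G = 0) (hD : aeval c D ≠ 0)
    (hP : ∀ j, pe c y (P j) = aeval c D * x j) (q : MvPolynomial (Fin N) F) :
    IsAlgebraic (aeval c : MvPolynomial (Fin (d + 1)) F →ₐ[F] A).range (aeval x q) := by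
  have hy : IsIntegral (aeval c : MvPolynomial (Fin (d + 1)) F →ₐ[F] A).range y := by
    refine ⟨G.map (aeval c : MvPolynomial (Fin (d + 1)) F →ₐ[F] A).rangeRestrict.toRingHom,
      hG.map _, ?_⟩
    rw [Polynomial.eval₂_map]
    exact h0
  have hx : ∀ j, IsAlgebraic (aeval c : MvPolynomial (Fin (d + 1)) F →ₐ[F] A).range (x j) := by
    intro j
    refine IsAlgebraic.iff_exists_smul_integral.2
      ⟨(aeval c : MvPolynomial (Fin (d + 1)) F →ₐ[F] A).rangeRestrict D, fun h => hD ?_, ?_⟩
    · exact congrArg Subtype.val h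
    · have h1 : (aeval c : MvPolynomial (Fin (d + 1)) F →ₐ[F] A).rangeRestrict D • x j =
          aeval c D * x j := rfl
      rw [h1, ← hP j, pe_sum]
      refine IsIntegral.sum _ fun i _ => ?_
      exact (isIntegral_algebraMap (R := (aeval c : MvPolynomial (Fin (d + 1)) F →ₐ[F] A).range)
        (x := (aeval c : MvPolynomial (Fin (d + 1)) F →ₐ[F] A).rangeRestrict ((P j).coeff i))).mul
          (hy.pow i)
  induction q using MvPolynomial.induction_on with
  | C a =>
    rw [MvPolynomial.aeval_C]
    exact isAlgebraic_algebraMap (R := (aeval c : MvPolynomial (Fin (d + 1)) F →ₐ[F] A).range)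
      (algebraMap F _ a)
  | add p q hp hq =>
    rw [map_add]
    exact hp.add hq
  | mul_X p j hp =>
    rw [map_mul, aeval_X]
    exact hp.mul (hx j)

/-- The ring `F[x] / I` is algebraic over `F[u]` and `u_0, .., u_d` are algebraically independent: every `q` not in `I` satisfies an equation with the constant term `r (u)`, `r ≠ 0`.
Proof: in the field of fractions of the quotient `B`: `x_j = A_j (u, y) / D (u)` and `G (u, y) = 0`, so the field is algebraic over the field generated by `u`; the transcendence degree is `d + 1`, so the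
`d + 1` elements `u_r` are a transcendence basis; the minimal equation of the class of `q` over `F(u)`, denominators cleared. -/
theorem Nsg.exists_r (hf : Nsg f d) {ψ : Prj F N d} (h : ψ.Ok f) (hD : ψ.D ≠ 0)
    {q : MvPolynomial (Fin N) F} (hq : q ∉ Ideal.span (Set.range f)) :
    ∃ r : MvPolynomial (Fin (d + 1)) F, r ≠ 0 ∧ ∃ a : MvPolynomial (Fin N) F,
      ψ.cp (Polynomial.C r) - a * q ∈ Ideal.span (Set.range f) := by
  have hp : (Ideal.span (Set.range f)).IsPrime := hf.prime
  obtain ⟨x, hx⟩ : ∃ x : Fin N → MvPolynomial (Fin N) F ⧸ Ideal.span (Set.range f),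
      ∀ p, aeval x p = Ideal.Quotient.mk (Ideal.span (Set.range f)) p := by
    refine ⟨fun j => Ideal.Quotient.mk _ (X j), fun p => ?_⟩
    have h1 : (aeval fun j => Ideal.Quotient.mk (Ideal.span (Set.range f)) (X j)) =
        Ideal.Quotient.mkₐ F (Ideal.span (Set.range f)) := by
      refine MvPolynomial.algHom_ext fun j => ?_
      rw [aeval_X]
      rfl
    rw [h1]
    rfl
  have h2 : aeval (ψ.uv x) ψ.D ≠ 0 := by
    intro h3
    refine hf.D_not h hD (Ideal.Quotient.eq_zero_iff_mem.1 ?_)
    rw [← hx, cp_aeval, pe_C, h3]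
  obtain ⟨k, hk⟩ : ∃ k, x k ≠ 0 := by
    by_contra h3
    push Not at h3
    obtain ⟨e, he, hh⟩ := h.homD
    refine h2 ?_
    have h4 : ψ.uv x = 0 := by
      funext r
      rw [Prj.uv, lv]
      exact Finset.sum_eq_zero fun j _ => by rw [h3 j, mul_zero]
    rw [h4, aeval_zero, MvPolynomial.constantCoeff_eq, hh.coeff_eq_zero, map_zero]
    rw [map_zero]
    exact fun h5 => he h5.symm
  have h0 : pe (ψ.uv x) (ψ.yv x) ψ.G = 0 := by
    obtain ⟨s, hs⟩ := h.onG
    have h1 := Ideal.Quotient.eq_zero_iff_mem.2 (hs k)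
    rw [← hx, map_mul, map_pow, aeval_X, cp_aeval] at h1
    exact (mul_eq_zero.1 h1).resolve_left (pow_ne_zero s hk)
  have hA : ∀ j, pe (ψ.uv x) (ψ.yv x) (ψ.A j) = aeval (ψ.uv x) ψ.D * x j := by
    intro j
    obtain ⟨s, hs⟩ := h.onA
    have h1 := Ideal.Quotient.eq_zero_iff_mem.2 (hs k j)
    rw [← hx, map_mul, map_pow, aeval_X, map_sub, map_mul, aeval_X, cp_aeval, cp_aeval, pe_C] at h1
    exact sub_eq_zero.1 ((mul_eq_zero.1 h1).resolve_left (pow_ne_zero s hk))
  have hq0 : aeval x q ≠ 0 := by
    rw [hx]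
    exact fun h3 => hq (Ideal.Quotient.eq_zero_iff_mem.1 h3)
  obtain ⟨r', hr', a', ha'⟩ := (xa1_alg h.mon h0 h2 hA q).exists_nonzero_dvd
    (mem_nonZeroDivisors_of_ne_zero hq0)
  obtain ⟨r, hr⟩ := r'.2
  obtain ⟨a, ha⟩ := Ideal.Quotient.mk_surjective a'
  refine ⟨r, fun h3 => hr' (Subtype.ext ?_), a, Ideal.Quotient.eq_zero_iff_mem.1 ?_⟩
  · rw [← hr, h3]
    exact map_zero _
  · rw [map_sub, map_mul, ha, ← hx, ← hx, cp_aeval, pe_C, sub_eq_zero]
    have h4 : aeval (ψ.uv x) r = (r' : MvPolynomial (Fin N) F ⧸ Ideal.span (Set.range f)) := hr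
    rw [h4, mul_comm]
    exact ha'

end GX
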