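import Pool.Agent.Lib.MP_f80667_ag.Ep.Xa1

/-!
General centres. `f = 0` is a nonsingular projective variety over `F` (the ideal is prime), `ψ_i` projections over `F`: there is a point `γ` over `F` of the
projective space such that `D_i (γ) ≠ 0` and at all points over `γ` all the `D_{i'}` are not `0`.
-/

open MvPolynomial

namespace GX

variable {F : Type} [Field F] [CharZero F] {N d m : ℕ} {ι : Type}
  {f : ι → MvPolynomial (Fin N) F}

/-- **General centres.** Proof: `exists_r` for the product `q` of all `D_{i'} (u_{i'})` (not in `I`: `D_not`, prime); `exists_pt` for `r D_i`. -/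
theorem Nsg.exists_gen (hf : Nsg f d) {ψ : Fin m → Prj F N d} (h : ∀ i, (ψ i).Ok f)
    (hD : ∀ i, (ψ i).D ≠ 0) (i : Fin m) :
    ∃ γ : Fin (d + 1) → F, eval γ (ψ i).D ≠ 0 ∧
      ∀ (Ω : Type) [Field Ω] [Algebra F Ω] (x : Fin N → Ω), (∀ j, aeval x (f j) = 0) →
        (∀ r, (ψ i).uv x r = algebraMap F Ω (γ r)) →
          ∀ i', aeval ((ψ i').uv x) (ψ i').D ≠ 0 := by
  have hp := hf.prime
  have hq : (∏ i', (ψ i').cp (Polynomial.C (ψ i').D)) ∉ Ideal.span (Set.range f) := by
    intro hmem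
    obtain ⟨i', -, h1⟩ := hp.prod_mem_iff.1 hmem
    exact hf.D_not (h i') (hD i') h1
  obtain ⟨r, hr, a, ha⟩ := hf.exists_r (h i) (hD i) hq
  obtain ⟨γ, hγ⟩ := exists_pt (F := F) (κ := F) (mul_ne_zero hr (hD i))
  have hγ' : eval γ (r * (ψ i).D) ≠ 0 := hγ
  rw [map_mul] at hγ'
  refine ⟨γ, right_ne_zero_of_mul hγ', ?_⟩
  intro Ω _ _ x hx hu i' h0
  have h1 := span_zero hx ha
  rw [map_sub, map_mul, map_prod, Finset.prod_eq_zero (Finset.mem_univ i'), mul_zero, sub_zero,
    cp_aeval, pe_C] at h1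
  · have hu' : (ψ i).uv x = fun s => algebraMap F Ω (γ s) := funext hu
    rw [hu'] at h1
    have h2 : aeval (fun s => algebraMap F Ω (γ s)) r = algebraMap F Ω (aeval γ r) :=
      MvPolynomial.aeval_algebraMap_apply Ω γ r
    rw [h2, map_eq_zero] at h1
    exact left_ne_zero_of_mul hγ' h1
  · rw [cp_aeval, pe_C]
    exact h0

end GX
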