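import Pool.Agent.Lib.MP_f80667_ag.Ng.U
import Pool.Agent.Lib.MP_f80667_ag.Ng.Ub

/-! General points of the projective space over the ground field: all the points over them are good for all projections. -/

open MvPolynomial

namespace GX

variable {F : Type} [Field F] {N d m : ℕ} {ι : Type} {f : ι → MvPolynomial (Fin N) F}

/-- The value of the product of the `cp (C D)` at a multiple of a point. -/
private theorem xa_prod {S : Type} [CommRing S] [Algebra F S] {ψ : Fin m → Prj F N d}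
    {e : Fin m → ℕ} (he : ∀ i, (ψ i).D.IsHomogeneous (e i)) (t : S) (x : Fin N → S) :
    aeval (t • x) (∏ i, (ψ i).cp (Polynomial.C (ψ i).D)) =
      ∏ i, (t ^ e i * aeval ((ψ i).uv x) (ψ i).D) := by
  rw [map_prod]
  refine Finset.prod_congr rfl fun i _ => ?_
  rw [cp_aeval, pe_C, uv_smul, aeval_smul_hom (he i)]

/-- **General points.** `n` is a nonzero polynomial such that all the points over the zeros of nothing else are good. -/
theorem gen_F (hom : ∀ i, ∃ e, (f i).IsHomogeneous e)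
    (hp : (Ideal.span (Set.range f)).IsPrime) {ψ : Fin m → Prj F N d} (hok : ∀ i, (ψ i).Ok f)
    (hD : ∀ i, (ψ i).cp (Polynomial.C (ψ i).D) ∉ Ideal.span (Set.range f)) (i : Fin m) :
    ∃ n : MvPolynomial (Fin (d + 1)) F, n ≠ 0 ∧ ∀ (E : Type) [Field E] [Algebra F E]
      (c : Fin (d + 1) → E) (w : E), aeval c n ≠ 0 → pe c w (ψ i).G = 0 →
        ∀ i', aeval ((ψ i').uv fun j => pe c w ((ψ i).A j)) (ψ i').D ≠ 0 := by
  classical
  have hdom : IsDomain (MvPolynomial (Fin N) F ⧸ Ideal.span (Set.range f)) :=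
    Ideal.Quotient.isDomain _
  choose e he0 he using fun i' => (hok i').homD
  obtain ⟨x, hx⟩ : ∃ x : Fin N → MvPolynomial (Fin N) F ⧸ Ideal.span (Set.range f),
    x = fun j => Ideal.Quotient.mk _ (X j) := ⟨_, rfl⟩
  have hae : ∀ p : MvPolynomial (Fin N) F, aeval x p = Ideal.Quotient.mk _ p := by
    intro p
    have h := DFunLike.congr_fun (MvPolynomial.aeval_unique
      (Ideal.Quotient.mkₐ F (Ideal.span (Set.range f)))) p
    rw [hx]
    exact h.symm
  have hmem : ∀ p : MvPolynomial (Fin N) F, aeval x p = 0 ↔ p ∈ Ideal.span (Set.range f) := by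
    intro p
    rw [hae, Ideal.Quotient.eq_zero_iff_mem]
  have hne : ∀ i', aeval ((ψ i').uv x) (ψ i').D ≠ 0 := by
    intro i' h0
    refine hD i' ((hmem _).1 ?_)
    rw [cp_aeval, pe_C]
    exact h0
  have hD0 : (ψ i).D ≠ 0 := by
    intro h0
    refine hne i ?_
    rw [h0, map_zero]
  obtain ⟨k, hk⟩ : ∃ k, x k ≠ 0 := by
    by_contra hcon
    push Not at hcon
    refine hne i ?_
    have h1 : x = (0 : MvPolynomial (Fin N) F ⧸ Ideal.span (Set.range f)) • x := by
      funext j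
      rw [hcon j]
      change _ = (0 : MvPolynomial (Fin N) F ⧸ Ideal.span (Set.range f)) * x j
      rw [zero_mul]
    rw [h1, uv_smul, aeval_smul_hom (he i), zero_pow (he0 i), zero_mul]
  obtain ⟨δ, hδ⟩ : ∃ δ, δ = aeval ((ψ i).uv x) (ψ i).D := ⟨_, rfl⟩
  have hδ0 : δ ≠ 0 := by
    rw [hδ]
    exact hne i
  have hG0 : pe ((ψ i).uv x) ((ψ i).yv x) (ψ i).G = 0 := by
    obtain ⟨s, h⟩ := (hok i).onG
    have h1 := (hmem _).2 (h k)
    rw [map_mul, map_pow, aeval_X, cp_aeval] at h1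
    exact (mul_eq_zero.1 h1).resolve_left (pow_ne_zero s hk)
  have hA : ∀ j, pe ((ψ i).uv x) ((ψ i).yv x) ((ψ i).A j) = δ * x j := by
    intro j
    obtain ⟨s, h⟩ := (hok i).onA
    have h1 := (hmem _).2 (h k j)
    rw [map_mul, map_pow, aeval_X, map_sub, map_mul, aeval_X, cp_aeval, cp_aeval, pe_C,
      ← hδ] at h1
    exact sub_eq_zero.1 ((mul_eq_zero.1 h1).resolve_left (pow_ne_zero s hk))
  obtain ⟨P, hP⟩ : ∃ P, P = ∏ i', (ψ i').cp (Polynomial.C (ψ i').D) := ⟨_, rfl⟩
  have hQ0 : pe ((ψ i).uv x) ((ψ i).yv x) (aeval (ψ i).A P) ≠ 0 := by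
    have h1 : (fun j => pe ((ψ i).uv x) ((ψ i).yv x) ((ψ i).A j)) = δ • x := by
      funext j
      rw [hA j]
      rfl
    rw [pe_aeval, h1, hP, xa_prod he]
    exact Finset.prod_ne_zero_iff.2 fun i' _ => mul_ne_zero (pow_ne_zero _ hδ0) (hne i')
  have hcl : ∀ T : Polynomial (MvPolynomial (Fin (d + 1)) F), T.degree < (ψ i).G.degree →
      (ψ i).G ∣ T * aeval (ψ i).A P → T = 0 := by
    rintro T hT ⟨E, hE⟩
    refine ok_van hom (hok i) hD0 hT ?_
    have h1 := congrArg (pe ((ψ i).uv x) ((ψ i).yv x)) hE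
    rw [map_mul, map_mul, hG0, zero_mul] at h1
    have h2 := (mul_eq_zero.1 h1).resolve_right hQ0
    rw [← cp_aeval] at h2
    exact (hmem _).1 h2
  obtain ⟨n, a, b, hn, hab⟩ := res_ne (hok i).mon hcl
  refine ⟨n, hn, fun E _ _ c w hc hw i' => ?_⟩
  have h1 := congrArg (pe c w) hab
  rw [map_add, map_mul, map_mul, hw, mul_zero, add_zero, pe_C] at h1
  have h2 : pe c w (aeval (ψ i).A P) ≠ 0 := by
    intro h0
    rw [h0, mul_zero] at h1
    exact hc h1.symm
  have h3 := xa_prod he (1 : E) fun j => pe c w ((ψ i).A j)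
  rw [one_smul] at h3
  rw [pe_aeval, hP, h3] at h2
  exact right_ne_zero_of_mul (Finset.prod_ne_zero_iff.1 h2 i' (Finset.mem_univ i'))

end GX
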