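import Pool.Agent.Lib.MP_f80667_ag.Gx.Al

/-!
Scaling of a projection: `u` is replaced by `s u`, `y` by `s a y`, `D` by `t D`.
-/

open MvPolynomial

namespace GX

variable {K : Type} [Field K] {N d : ℕ} {ι : Type} {f : ι → MvPolynomial (Fin N) K}

/-- `P (b c, b' Y)`. -/
noncomputable def scp (b b' : K) (P : Polynomial (MvPolynomial (Fin (d + 1)) K)) :
    Polynomial (MvPolynomial (Fin (d + 1)) K) :=
  P.sum fun j q => Polynomial.C (C (b' ^ j) * aeval (fun r => C b * X r) q) * Polynomial.X ^ j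

/-- The scaled projection. -/
noncomputable def Prj.sc (ψ : Prj K N d) (e : ℕ) (s a t : K) : Prj K N d where
  u r j := s * ψ.u r j
  y j := s * a * ψ.y j
  G := Polynomial.C (C (a ^ ψ.G.natDegree)) * scp 1 a⁻¹ ψ.G
  D := C t * ψ.D
  A j := Polynomial.C (C (t * s ^ e)) * scp s⁻¹ (s * a)⁻¹ (ψ.A j)

private theorem xb_hom {S σ : Type} [CommRing S] [Algebra K S] [Fintype σ]
    {q : MvPolynomial σ K} {m : ℕ} (h : q.IsHomogeneous m) (l : S) (c : σ → S) :
    aeval (fun r => l * c r) q = l ^ m * aeval c q := by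
  rw [aeval_def, aeval_def, eval₂_eq', eval₂_eq', Finset.mul_sum]
  refine Finset.sum_congr rfl fun n hn => ?_
  have h1 : ∑ i, n i = m := by
    rw [h.degree_eq_sum_deg_support hn]
    exact (Finset.sum_subset (Finset.subset_univ _) fun i _ hi => by
      simpa using hi).symm
  rw [Finset.prod_congr rfl (fun i _ => mul_pow l (c i) (n i)), Finset.prod_mul_distrib,
    Finset.prod_pow_eq_pow_sum, h1]
  ring

private noncomputable def xb_r (b b' : K) : Polynomial (MvPolynomial (Fin (d + 1)) K) →+*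
    Polynomial (MvPolynomial (Fin (d + 1)) K) :=
  Polynomial.eval₂RingHom (Polynomial.C.comp (aeval (fun r => C b * X r) :
    MvPolynomial (Fin (d + 1)) K →ₐ[K] MvPolynomial (Fin (d + 1)) K).toRingHom)
    (Polynomial.C (C b') * Polynomial.X)

private theorem xb_eq (b b' : K) (P : Polynomial (MvPolynomial (Fin (d + 1)) K)) :
    scp b b' P = xb_r b b' P := by
  unfold scp xb_r
  rw [Polynomial.coe_eval₂RingHom, Polynomial.eval₂_eq_sum]
  unfold Polynomial.sum
  refine Finset.sum_congr rfl fun j _ => ?_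
  simp only [AlgHom.toRingHom_eq_coe, RingHom.coe_comp, RingHom.coe_coe, Function.comp_apply,
    mul_pow, map_mul, map_pow]
  ring

private theorem xb_C (b b' : K) (q : MvPolynomial (Fin (d + 1)) K) :
    xb_r b b' (Polynomial.C q) = Polynomial.C (aeval (fun r => C b * X r) q) := by
  simp [xb_r]

private theorem xb_X (b b' : K) :
    xb_r b b' (Polynomial.X : Polynomial (MvPolynomial (Fin (d + 1)) K)) =
      Polynomial.C (C b') * Polynomial.X := by
  simp [xb_r]

private theorem xb_CC (b b' k : K) :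
    xb_r b b' (Polynomial.C (C k) : Polynomial (MvPolynomial (Fin (d + 1)) K)) =
      Polynomial.C (C k) := by
  rw [xb_C, aeval_C]
  rfl

private theorem xb_Ch (b b' : K) {q : MvPolynomial (Fin (d + 1)) K} {m : ℕ}
    (h : q.IsHomogeneous m) :
    xb_r b b' (Polynomial.C q) = Polynomial.C (C (b ^ m)) * Polynomial.C q := by
  rw [xb_C, xb_hom h, ← map_pow, ← Polynomial.C_mul]
  congr 2
  exact DFunLike.congr_fun (aeval_X_left) q

/-- coefficients of the image -/
private theorem xb_coeff (b b' : K) (P : Polynomial (MvPolynomial (Fin (d + 1)) K)) (j : ℕ) :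
    (scp b b' P).coeff j = C (b' ^ j) * aeval (fun r => C b * X r) (P.coeff j) := by
  unfold scp Polynomial.sum
  rw [Polynomial.finset_sum_coeff]
  simp only [Polynomial.coeff_C_mul_X_pow]
  rw [Finset.sum_ite_eq]
  split_ifs with h
  · rfl
  · rw [Polynomial.notMem_support_iff.1 h, map_zero, mul_zero]

private theorem xb_one (q : MvPolynomial (Fin (d + 1)) K) :
    aeval (fun r => C (1 : K) * X r) q = q := by
  have : (fun r => C (1 : K) * X r : Fin (d + 1) → MvPolynomial (Fin (d + 1)) K) = X := by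
    funext r
    rw [C_1, one_mul]
  rw [this]
  exact DFunLike.congr_fun (aeval_X_left) q

/-- the values -/
private theorem xb_pe {S : Type} [CommRing S] [Algebra K S] (b b' : K) (c : Fin (d + 1) → S)
    (w : S) (P : Polynomial (MvPolynomial (Fin (d + 1)) K)) :
    pe c w (xb_r b b' P) = pe (fun r => algebraMap K S b * c r) (algebraMap K S b' * w) P := by
  have : (pe c w).comp (xb_r b b') =
      pe (fun r => algebraMap K S b * c r) (algebraMap K S b' * w) := by
    refine Polynomial.ringHom_ext (fun q => ?_) ?_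
    · rw [RingHom.comp_apply, xb_C]
      simp only [pe, Polynomial.coe_eval₂RingHom, Polynomial.eval₂_C]
      have : ((aeval c : MvPolynomial (Fin (d + 1)) K →ₐ[K] S).comp
          (aeval (fun r => C b * X r) : MvPolynomial (Fin (d + 1)) K →ₐ[K]
            MvPolynomial (Fin (d + 1)) K)) = aeval (fun r => algebraMap K S b * c r) := by
        refine algHom_ext fun r => ?_
        rw [AlgHom.comp_apply, aeval_X, aeval_X, map_mul, aeval_X, aeval_C]
      exact DFunLike.congr_fun this q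
    · rw [RingHom.comp_apply, xb_X]
      simp [pe]
  exact DFunLike.congr_fun this P

private theorem xb_peC {S : Type} [CommRing S] [Algebra K S] (c : Fin (d + 1) → S) (w : S)
    (k : K) : pe c w (Polynomial.C (C k)) = algebraMap K S k := by
  simp [pe]

private theorem xb_peq {S : Type} [CommRing S] [Algebra K S] (c : Fin (d + 1) → S) (w : S)
    (q : MvPolynomial (Fin (d + 1)) K) : pe c w (Polynomial.C q) = aeval c q := by
  simp [pe]

/-- homogeneity in all variables -/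
private theorem xb_peG {S : Type} [CommRing S] [Algebra K S] {n : ℕ}
    {P : Polynomial (MvPolynomial (Fin (d + 1)) K)} (hn : P.natDegree ≤ n)
    (h : ∀ j, (P.coeff j).IsHomogeneous (n - j)) (c : Fin (d + 1) → S) (w l : S) :
    pe (fun r => l * c r) (l * w) P = l ^ n * pe c w P := by
  simp only [pe, Polynomial.coe_eval₂RingHom, Polynomial.eval₂_eq_sum, Polynomial.sum]
  rw [Finset.mul_sum]
  refine Finset.sum_congr rfl fun j hj => ?_
  have h1 : j ≤ n := (Polynomial.le_natDegree_of_mem_supp j hj).trans hn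
  change aeval (fun r => l * c r) (P.coeff j) * (l * w) ^ j =
    l ^ n * (aeval c (P.coeff j) * w ^ j)
  rw [xb_hom (h j), mul_pow]
  have h2 : l ^ n = l ^ (n - j) * l ^ j := by rw [← pow_add, Nat.sub_add_cancel h1]
  rw [h2]
  ring

private theorem xb_lf (l : K) (v : Fin N → K) :
    lf (fun j => l * v j) = C l * lf v := by
  unfold lf
  rw [Finset.mul_sum]
  refine Finset.sum_congr rfl fun j _ => ?_
  rw [C_mul]
  ring

private theorem xb_der (b b' : K) (P : Polynomial (MvPolynomial (Fin (d + 1)) K)) :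
    Polynomial.derivative (xb_r b b' P) =
      Polynomial.C (C b') * xb_r b b' (Polynomial.derivative P) := by
  induction P using Polynomial.induction_on' with
  | add p q hp hq => rw [map_add, map_add, hp, hq, map_add, map_add, mul_add]
  | monomial n q =>
    have key : ∀ (x : MvPolynomial (Fin (d + 1)) K) (j : ℕ),
        xb_r b b' (Polynomial.C x * Polynomial.X ^ j) =
          Polynomial.C (aeval (fun r => C b * X r) x * C b' ^ j) * Polynomial.X ^ j := by
      intro x j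
      rw [map_mul (xb_r b b'), map_pow (xb_r b b'), xb_C, xb_X, mul_pow, ← Polynomial.C_pow,
        ← mul_assoc, ← Polynomial.C_mul]
    rw [← Polynomial.C_mul_X_pow_eq_monomial, key, Polynomial.derivative_C_mul_X_pow,
      Polynomial.derivative_C_mul_X_pow, key, ← mul_assoc, ← Polynomial.C_mul]
    rcases n with _ | n
    · simp
    · rw [Nat.add_sub_cancel, pow_succ]
      simp only [map_mul, map_natCast, map_pow]
      ring

private theorem xb_av (b b' : K) (A : Fin N → Polynomial (MvPolynomial (Fin (d + 1)) K))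
    (g : MvPolynomial (Fin N) K) :
    xb_r b b' (aeval A g) = aeval (fun j => xb_r b b' (A j)) g := by
  induction g using MvPolynomial.induction_on with
  | C k =>
    rw [aeval_C, aeval_C]
    exact xb_CC _ _ k
  | add p q hp hq => rw [map_add, map_add, map_add, hp, hq]
  | mul_X p j hp =>
    rw [map_mul (aeval A), map_mul (xb_r b b'), map_mul (aeval fun j => xb_r b b' (A j)), hp,
      aeval_X, aeval_X]

private theorem xb_alg {R : Type} [CommRing R] {z1 z2 z3 z4 Z w : R} {m : ℕ}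
    (h4 : z1 * z2 = 1) :
    (z3 * w) ^ m * (z4 * Z) = z4 * (z3 * z2) ^ m * ((z1 * w) ^ m * Z) := by
  have h6 : z1 ^ m * z2 ^ m = 1 := by rw [← mul_pow, h4, one_pow]
  simp only [mul_pow]
  linear_combination (-(z3 ^ m * w ^ m * z4 * Z)) * h6

private theorem xb_CCm (x y : K) : (Polynomial.C (C (x * y)) :
    Polynomial (MvPolynomial (Fin (d + 1)) K)) = Polynomial.C (C x) * Polynomial.C (C y) := by
  rw [← Polynomial.C_mul, ← C_mul]

private theorem xb_dv {m : ℕ} {G : Polynomial (MvPolynomial (Fin (d + 1)) K)}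
    {A A' : Fin m → Polynomial (MvPolynomial (Fin (d + 1)) K)} {l l' : Fin m → K} {k k' : K}
    {F F' : Polynomial (MvPolynomial (Fin (d + 1)) K)} (b b' : K)
    (hl : ∀ j, l' j = k' * l j) (hA : ∀ j, A' j = Polynomial.C (C k) * xb_r b b' (A j))
    (hF : F' = Polynomial.C (C (k' * k)) * xb_r b b' F)
    (h : G ∣ xb_r b b' (∑ j, Polynomial.C (C (l j)) * A j - F)) :
    G ∣ ∑ j, Polynomial.C (C (l' j)) * A' j - F' := by
  have e : ∑ j, Polynomial.C (C (l' j)) * A' j - F' =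
      Polynomial.C (C (k' * k)) * xb_r b b' (∑ j, Polynomial.C (C (l j)) * A j - F) := by
    rw [map_sub (xb_r b b'), map_sum (xb_r b b'), mul_sub, ← hF, Finset.mul_sum]
    have h1 : ∀ j, Polynomial.C (C (l' j)) * A' j =
       Polynomial.C (C (k' * k)) * xb_r b b' (Polynomial.C (C (l j)) * A j) := by
      intro j
      rw [map_mul (xb_r b b'), xb_CC, hl, hA, xb_CCm, xb_CCm]
      generalize (Polynomial.C (C k') : Polynomial (MvPolynomial (Fin (d + 1)) K)) = z1
      generalize (Polynomial.C (C k) : Polynomial (MvPolynomial (Fin (d + 1)) K)) = z2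
      generalize (Polynomial.C (C (l j)) : Polynomial (MvPolynomial (Fin (d + 1)) K)) = z3
      generalize xb_r b b' (A j) = z4
      ring
    rw [Finset.sum_congr rfl fun j _ => h1 j]
  rw [e]
  exact h.mul_left _

private theorem xb_f0 {s z x y t : K} (e : ℕ) (h : s * z = 1) (h' : x * y = 1) :
    x * (t * s ^ e) * (z ^ e * y) = t := by
  have h1 : s ^ e * z ^ e = 1 := by rw [← mul_pow, h, one_pow]
  generalize s ^ e = p at h1 ⊢
  generalize z ^ e = q at h1 ⊢
  linear_combination (t * x * y) * h1 + t * h'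

private theorem xb_f1 (s t : K) (e : ℕ) (hs : s ≠ 0) : s * (t * s ^ e) * (s⁻¹ ^ e * s⁻¹) = t :=
  xb_f0 e (mul_inv_cancel₀ hs) (mul_inv_cancel₀ hs)

private theorem xb_f2 (s a t : K) (e : ℕ) (hs : s ≠ 0) (ha : a ≠ 0) :
    s * a * (t * s ^ e) * (s⁻¹ ^ e * (s * a)⁻¹) = t :=
  xb_f0 e (mul_inv_cancel₀ hs) (mul_inv_cancel₀ (mul_ne_zero hs ha))

/-- **Scaling.** Proof: `scp b b'` is the ring homomorphism `c ↦ b c`, `Y ↦ b' Y`; `G (s⁻¹ c, (s a)⁻¹ Y) = (s a) ^ (-n) G' (c, Y)`, `D (s⁻¹ c) = s ^ (-e) D (c)`; `cp' G' = (s a) ^ n cp G`,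
`cp' A'_j = t s ^ e cp A_j`, `cp' D' = t s ^ e cp D` (homogeneous); `f_i (t s ^ e A) = (t s ^ e) ^ deg f_i (A)`. -/
theorem Prj.Ok.sc {ψ : Prj K N d} (hf : ∀ i, ∃ e, (f i).IsHomogeneous e) (h : ψ.Ok f) {e : ℕ}
    (he : e ≠ 0) (hD : ψ.D.IsHomogeneous e) {s a t : K} (hs : s ≠ 0) (ha : a ≠ 0)
    (ht : t ≠ 0) : (ψ.sc e s a t).Ok f := by
  have hsa : s * a ≠ 0 := mul_ne_zero hs ha
  have eG : (ψ.sc e s a t).G = Polynomial.C (C (a ^ ψ.G.natDegree)) * xb_r 1 a⁻¹ ψ.G := by
    rw [← xb_eq]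
    rfl
  have eA : ∀ j, (ψ.sc e s a t).A j =
      Polynomial.C (C (t * s ^ e)) * xb_r s⁻¹ (s * a)⁻¹ (ψ.A j) := by
    intro j
    rw [← xb_eq]
    rfl
  have eD : (ψ.sc e s a t).D = C t * ψ.D := rfl
  have hco : ∀ j, (ψ.sc e s a t).G.coeff j =
      C (a ^ ψ.G.natDegree * a⁻¹ ^ j) * ψ.G.coeff j := by
    intro j
    rw [eG, ← xb_eq, Polynomial.coeff_C_mul, xb_coeff, xb_one, ← mul_assoc, ← C_mul]
  have hdeg : (ψ.sc e s a t).G.natDegree = ψ.G.natDegree := by
    refine le_antisymm ?_ ?_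
    · refine Polynomial.natDegree_le_iff_coeff_eq_zero.2 fun j hj => ?_
      rw [hco, Polynomial.coeff_eq_zero_of_natDegree_lt hj, mul_zero]
    · refine Polynomial.le_natDegree_of_ne_zero ?_
      rw [hco, h.mon.coeff_natDegree, mul_one]
      rw [Ne, C_eq_zero]
      exact mul_ne_zero (pow_ne_zero _ ha) (pow_ne_zero _ (inv_ne_zero ha))
  have huf : ∀ r, lf ((ψ.sc e s a t).u r) = C s * lf (ψ.u r) := fun r => xb_lf s (ψ.u r)
  have hyf : lf (ψ.sc e s a t).y = C (s * a) * lf ψ.y := xb_lf (s * a) ψ.y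
  have hcp : ∀ (b b' : K) (P : Polynomial (MvPolynomial (Fin (d + 1)) K)),
      (ψ.sc e s a t).cp (xb_r b b' P) =
        pe (fun r => C (b * s) * lf (ψ.u r)) (C (b' * (s * a)) * lf ψ.y) P := by
    intro b b' P
    unfold Prj.cp
    rw [xb_pe]
    simp only [huf, hyf, algebraMap_eq, ← mul_assoc, ← C_mul]
  have hG1 : (ψ.sc e s a t).cp (ψ.sc e s a t).G =
      C ((s * a) ^ ψ.G.natDegree) * ψ.cp ψ.G := by
    have h1 := hcp 1 a⁻¹ ψ.G
    have h2 : a⁻¹ * (s * a) = s := by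
      field_simp
    rw [one_mul, h2, xb_peG le_rfl h.homG] at h1
    rw [eG]
    unfold Prj.cp at h1 ⊢
    rw [map_mul, xb_peC, h1, algebraMap_eq, ← mul_assoc, ← C_pow, ← C_mul]
    congr 3
    rw [mul_pow]
    ring
  have hA1 : ∀ j, (ψ.sc e s a t).cp ((ψ.sc e s a t).A j) = C (t * s ^ e) * ψ.cp (ψ.A j) := by
    intro j
    have h1 := hcp s⁻¹ (s * a)⁻¹ (ψ.A j)
    rw [inv_mul_cancel₀ hs, inv_mul_cancel₀ hsa] at h1
    simp only [C_1, one_mul] at h1
    rw [eA]
    unfold Prj.cp at h1 ⊢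
    rw [map_mul, xb_peC, h1, algebraMap_eq]
  have hD1 : (ψ.sc e s a t).cp (Polynomial.C (ψ.sc e s a t).D) =
      C (t * s ^ e) * ψ.cp (Polynomial.C ψ.D) := by
    rw [eD]
    unfold Prj.cp
    rw [xb_peq, xb_peq, map_mul, aeval_C, algebraMap_eq]
    simp only [huf]
    rw [xb_hom hD, C_mul, C_pow]
    ring
  have hφG : xb_r s⁻¹ (s * a)⁻¹ ψ.G =
      Polynomial.C (C ((s * a)⁻¹ ^ ψ.G.natDegree)) * (ψ.sc e s a t).G := by
    ext1 j
    rw [← xb_eq, xb_coeff, Polynomial.coeff_C_mul, hco, xb_hom (h.homG j), ← C_pow]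
    have e1 : aeval (X : Fin (d + 1) → MvPolynomial (Fin (d + 1)) K) (ψ.G.coeff j) =
        ψ.G.coeff j := DFunLike.congr_fun (aeval_X_left) _
    rw [e1, ← mul_assoc, ← mul_assoc, ← C_mul, ← C_mul]
    rcases lt_or_ge ψ.G.natDegree j with hj | hj
    · rw [Polynomial.coeff_eq_zero_of_natDegree_lt hj, mul_zero, mul_zero]
    · congr 2
      have h2 : s⁻¹ ^ ψ.G.natDegree = s⁻¹ ^ (ψ.G.natDegree - j) * s⁻¹ ^ j := by
        rw [← pow_add, Nat.sub_add_cancel hj]
      rw [mul_inv, mul_pow, mul_pow, h2]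
      have h3 : a⁻¹ ^ ψ.G.natDegree * a ^ ψ.G.natDegree = 1 := by
        rw [← mul_pow, inv_mul_cancel₀ ha, one_pow]
      calc s⁻¹ ^ j * a⁻¹ ^ j * s⁻¹ ^ (ψ.G.natDegree - j) =
          (s⁻¹ ^ j * a⁻¹ ^ j * s⁻¹ ^ (ψ.G.natDegree - j)) * 1 := (mul_one _).symm
        _ = _ := by
          rw [← h3]
          ring
  have hun : IsUnit (Polynomial.C (C ((s * a)⁻¹ ^ ψ.G.natDegree)) :
      Polynomial (MvPolynomial (Fin (d + 1)) K)) := by
    have : IsUnit ((s * a)⁻¹ ^ ψ.G.natDegree) :=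
      (pow_ne_zero _ (inv_ne_zero hsa)).isUnit
    exact (this.map (C : K →+* MvPolynomial (Fin (d + 1)) K)).map Polynomial.C
  have hdvd : ∀ P, ψ.G ∣ P → (ψ.sc e s a t).G ∣ xb_r s⁻¹ (s * a)⁻¹ P := by
    intro P hP
    have h1 := map_dvd (xb_r s⁻¹ (s * a)⁻¹) hP
    rw [hφG] at h1
    exact (dvd_mul_left _ _).trans h1
  have hs1 : s⁻¹ ^ e * s ^ e = 1 := by rw [← mul_pow, inv_mul_cancel₀ hs, one_pow]
  refine ⟨?_, ?_, ?_, ?_, ?_, ?_, ?_, ?_, ?_⟩
  · unfold Polynomial.Monic Polynomial.leadingCoeff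
    rw [hdeg, hco, h.mon.coeff_natDegree, mul_one, ← mul_pow, mul_inv_cancel₀ ha, one_pow, C_1]
  · intro j
    rw [hdeg, hco]
    exact (h.homG j).C_mul _
  · exact ⟨e, he, hD.C_mul t⟩
  · obtain ⟨B, B', hB⟩ := h.bez
    have h1 := congrArg (xb_r 1 a⁻¹) hB
    rw [map_add, map_mul, map_mul, xb_C, xb_one] at h1
    refine ⟨Polynomial.C (C (t * a⁻¹ ^ ψ.G.natDegree)) * xb_r 1 a⁻¹ B,
      Polynomial.C (C (t * a * a⁻¹ ^ ψ.G.natDegree)) * xb_r 1 a⁻¹ B', ?_⟩
    have h3 : a⁻¹ ^ ψ.G.natDegree * a ^ ψ.G.natDegree = 1 := by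
      rw [← mul_pow, inv_mul_cancel₀ ha, one_pow]
    have h4 : (Polynomial.C (C (a⁻¹ ^ ψ.G.natDegree)) * Polynomial.C (C (a ^ ψ.G.natDegree)) :
        Polynomial (MvPolynomial (Fin (d + 1)) K)) = 1 := by
      rw [← Polynomial.C_mul, ← C_mul, h3, C_1, Polynomial.C_1]
    have h5 : (Polynomial.C (C a) * Polynomial.C (C a⁻¹) :
        Polynomial (MvPolynomial (Fin (d + 1)) K)) = 1 := by
      rw [← Polynomial.C_mul, ← C_mul, mul_inv_cancel₀ ha, C_1, Polynomial.C_1]
    have h6 : (Polynomial.C (C (t * a⁻¹ ^ ψ.G.natDegree)) :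
        Polynomial (MvPolynomial (Fin (d + 1)) K)) =
        Polynomial.C (C t) * Polynomial.C (C (a⁻¹ ^ ψ.G.natDegree)) := by
      rw [← Polynomial.C_mul, ← C_mul]
    have h7 : (Polynomial.C (C (t * a * a⁻¹ ^ ψ.G.natDegree)) :
        Polynomial (MvPolynomial (Fin (d + 1)) K)) =
        Polynomial.C (C t) * Polynomial.C (C a) * Polynomial.C (C (a⁻¹ ^ ψ.G.natDegree)) := by
      rw [← Polynomial.C_mul, ← Polynomial.C_mul, ← C_mul, ← C_mul]
    have h8 : Polynomial.C (C t * ψ.D) = Polynomial.C (C t) * Polynomial.C ψ.D :=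
      Polynomial.C_mul
    rw [eG, eD, Polynomial.derivative_C_mul, xb_der, h6, h7, h8]
    revert h1 h4 h5
    generalize xb_r 1 a⁻¹ ψ.G = g
    generalize xb_r 1 a⁻¹ (Polynomial.derivative ψ.G) = g'
    generalize xb_r 1 a⁻¹ B = p
    generalize xb_r 1 a⁻¹ B' = p'
    generalize (Polynomial.C (C a) : Polynomial (MvPolynomial (Fin (d + 1)) K)) = z1
    generalize (Polynomial.C (C a⁻¹) : Polynomial (MvPolynomial (Fin (d + 1)) K)) = z2
    generalize (Polynomial.C (C (a⁻¹ ^ ψ.G.natDegree)) :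
      Polynomial (MvPolynomial (Fin (d + 1)) K)) = z3
    generalize (Polynomial.C (C (a ^ ψ.G.natDegree)) :
      Polynomial (MvPolynomial (Fin (d + 1)) K)) = z4
    generalize (Polynomial.C (C t) : Polynomial (MvPolynomial (Fin (d + 1)) K)) = z5
    generalize (Polynomial.C ψ.D : Polynomial (MvPolynomial (Fin (d + 1)) K)) = z6
    intro h1 h4 h5
    linear_combination (z5 * p * g + z5 * p' * g' * (z1 * z2)) * h4 + z5 * p' * g' * h5 +
      z5 * h1
  · obtain ⟨m, hm⟩ := h.onG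
    refine ⟨m, fun k => ?_⟩
    rw [hG1]
    have := Ideal.mul_mem_left _ (C ((s * a) ^ ψ.G.natDegree)) (hm k)
    refine (congrArg (· ∈ _) ?_).mpr this
    ring
  · obtain ⟨m, hm⟩ := h.onA
    refine ⟨m, fun k j => ?_⟩
    rw [hA1, hD1]
    have := Ideal.mul_mem_left _ (C (t * s ^ e)) (hm k j)
    refine (congrArg (· ∈ _) ?_).mpr this
    ring
  · obtain ⟨m, hm⟩ := h.inX
    refine ⟨m, fun i => ?_⟩
    obtain ⟨q, hq⟩ := hf i
    have h1 := hdvd _ (hm i)
    have h2 := xb_av s⁻¹ (s * a)⁻¹ ψ.A (f i)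
    have h3 : aeval (ψ.sc e s a t).A (f i) = Polynomial.C (C (t * s ^ e)) ^ q *
        aeval (fun j => xb_r s⁻¹ (s * a)⁻¹ (ψ.A j)) (f i) := by
      rw [← xb_hom hq, ← funext eA]
    rw [map_mul (xb_r s⁻¹ (s * a)⁻¹), h2, Polynomial.C_pow, map_pow (xb_r s⁻¹ (s * a)⁻¹),
      xb_Ch _ _ hD] at h1
    rw [h3, eD, Polynomial.C_pow, Polynomial.C_mul]
    have h4 : (Polynomial.C (C (s⁻¹ ^ e)) * Polynomial.C (C (s ^ e)) :
        Polynomial (MvPolynomial (Fin (d + 1)) K)) = 1 := by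
      rw [← Polynomial.C_mul, ← C_mul, hs1, C_1, Polynomial.C_1]
    rw [xb_alg h4]
    exact h1.mul_left _
  · intro r
    refine xb_dv (k' := s) (k := t * s ^ e) s⁻¹ (s * a)⁻¹ (fun j => rfl) eA ?_
      (hdvd _ (h.inu r))
    have h8 : (C (s * (t * s ^ e)) * (C (s⁻¹ ^ e) * C s⁻¹) : MvPolynomial (Fin (d + 1)) K) =
        C t := by
      rw [← C_mul, ← C_mul, xb_f1 s t e hs]
    have e1 : aeval (fun r => C s⁻¹ * X r : Fin (d + 1) → MvPolynomial (Fin (d + 1)) K) ψ.D =
        C (s⁻¹ ^ e) * ψ.D := by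
      rw [xb_hom hD, ← C_pow]
      exact congrArg _ (DFunLike.congr_fun (aeval_X_left) ψ.D)
    have e2 : aeval (fun r => C s⁻¹ * X r : Fin (d + 1) → MvPolynomial (Fin (d + 1)) K)
        (ψ.D * X r) = C (s⁻¹ ^ e) * ψ.D * (C s⁻¹ * X r) := by
      rw [map_mul (aeval (fun r => C s⁻¹ * X r :
        Fin (d + 1) → MvPolynomial (Fin (d + 1)) K)), aeval_X, e1]
    rw [eD, xb_C, e2, ← Polynomial.C_mul, ← h8]
    refine congrArg _ ?_
    generalize (C (s * (t * s ^ e)) : MvPolynomial (Fin (d + 1)) K) = z1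
    generalize (C (s⁻¹ ^ e) : MvPolynomial (Fin (d + 1)) K) = z2
    generalize (C s⁻¹ : MvPolynomial (Fin (d + 1)) K) = z3
    generalize (X r : MvPolynomial (Fin (d + 1)) K) = z4
    ring
  · refine xb_dv (k' := s * a) (k := t * s ^ e) s⁻¹ (s * a)⁻¹ (fun j => rfl) eA ?_
      (hdvd _ h.iny)
    have h8 : (Polynomial.C (C (s * a * (t * s ^ e))) * (Polynomial.C (C (s⁻¹ ^ e)) *
        Polynomial.C (C (s * a)⁻¹)) : Polynomial (MvPolynomial (Fin (d + 1)) K)) =
        Polynomial.C (C t) := by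
      rw [← xb_CCm, ← xb_CCm, xb_f2 s a t e hs ha]
    rw [eD, map_mul (xb_r s⁻¹ (s * a)⁻¹), xb_Ch _ _ hD, xb_X, Polynomial.C_mul (a := C t), ← h8]
    generalize (Polynomial.C (C (s * a * (t * s ^ e))) :
      Polynomial (MvPolynomial (Fin (d + 1)) K)) = z1
    generalize (Polynomial.C (C (s⁻¹ ^ e)) : Polynomial (MvPolynomial (Fin (d + 1)) K)) = z2
    generalize (Polynomial.C (C (s * a)⁻¹) : Polynomial (MvPolynomial (Fin (d + 1)) K)) = z3
    generalize (Polynomial.C ψ.D : Polynomial (MvPolynomial (Fin (d + 1)) K)) = z4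
    generalize (Polynomial.X : Polynomial (MvPolynomial (Fin (d + 1)) K)) = z5
    ring


end GX
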