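import Pool.Agent.Lib.MP_f80667_ag.Ep.S

/-!
Projections with integral coefficients from projections over `F`, and the covering constant.
-/

open ZC BE PE CV IntermediateField

namespace GX

variable {F : Type} [Field F] {N d m : ℕ} {ι : Type} {f : ι → MvPolynomial (Fin N) F}
  {K Ω : Type} [Field K] [Field Ω] [Algebra K Ω] [Algebra F K] [Algebra F Ω]
  [IsScalarTower F K Ω] {L : Ld K Ω}

/-- Integral coefficients and `Prj.Ok` over `K` give `Pk`. Proof: `onX`, `inu`, `iny` at a point `x` over `Ω`: `onG`, `onA` at `x` with `x_k ≠ 0`, divisibility by `G` at `(c, w)`; `ok`: map to `Ω`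
(as in `gdy_of` / `Dat`; `Prj.Ok.map` may exist). -/
theorem pk_of {ψ : Prj K N d} (hf : ∀ i, ∃ e, (f i).IsHomogeneous e)
    (h : ψ.Ok fun i => MvPolynomial.map (algebraMap F K) (f i))
    (iu : ∀ r j, L.nm (algebraMap K Ω (ψ.u r j)) ≤ 1)
    (iy : ∀ j, L.nm (algebraMap K Ω (ψ.y j)) ≤ 1)
    (iG : ∀ j e, L.nm (algebraMap K Ω ((ψ.G.coeff j).coeff e)) ≤ 1)
    (iD : ∀ e, L.nm (algebraMap K Ω (ψ.D.coeff e)) ≤ 1)
    (iA : ∀ i j e, L.nm (algebraMap K Ω (((ψ.A i).coeff j).coeff e)) ≤ 1)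
    (bez : ∃ B B' : Polynomial (MvPolynomial (Fin (d + 1)) K),
      (∀ j e, L.nm (algebraMap K Ω ((B.coeff j).coeff e)) ≤ 1) ∧
      (∀ j e, L.nm (algebraMap K Ω ((B'.coeff j).coeff e)) ≤ 1) ∧
      B * ψ.G + B' * Polynomial.derivative ψ.G = Polynomial.C ψ.D) : Pk f L ψ := by
  refine ⟨iu, iy, iG, iD, iA, hf, h.mon, h.homG, h.homD, bez, ?_, ?_, ?_, ?_, ?_⟩
  · intro x hx0 hx
    obtain ⟨k, hk⟩ := Function.ne_iff.1 hx0
    refine h.on_pt (fun i => ?_) (IsUnit.mk0 (x k) hk)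
    rw [MvPolynomial.aeval_map_algebraMap]
    exact hx i
  · obtain ⟨s, hs⟩ := h.inX
    refine ⟨s, fun i => ?_⟩
    have h1 := hs i
    rw [MvPolynomial.aeval_map_algebraMap] at h1
    exact h1
  · intro c w hG
    exact (h.in_A hG).1
  · intro c w hG
    exact (h.in_A hG).2.1
  · have h1 := h.map (algebraMap K Ω)
    have h2 : (fun i => MvPolynomial.map (algebraMap K Ω)
        (MvPolynomial.map (algebraMap F K) (f i))) =
          fun i => MvPolynomial.map (algebraMap F Ω) (f i) := by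
      funext i
      rw [MvPolynomial.map_map, ← IsScalarTower.algebraMap_eq]
    rw [h2] at h1
    exact h1

end GX
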