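import Pool.Agent.Lib.MP_f80667_ag.Ep.Xc
import Pool.Agent.Lib.MP_f80667_ag.Ep.Xb

/-!
Projections with integral coefficients from projections over `F`, and the covering constant.
-/

open ZC BE PE CV IntermediateField

namespace GX

variable {F : Type} [Field F] {N d m : ℕ} {ι : Type} {f : ι → MvPolynomial (Fin N) F}
  {K Ω : Type} [Field K] [Field Ω] [Algebra K Ω] [Algebra F K] [Algebra F Ω]
  [IsScalarTower F K Ω] {L : Ld K Ω}

private theorem xp_mul (x y : K) : L.nm (algebraMap K Ω (x * y)) =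
    L.nm (algebraMap K Ω x) * L.nm (algebraMap K Ω y) := by
  rw [map_mul, L.mul]

private theorem xp_pow (x : K) (n : ℕ) : L.nm (algebraMap K Ω (x ^ n)) =
    L.nm (algebraMap K Ω x) ^ n := by
  induction n with
  | zero => rw [pow_zero, pow_zero, map_one, L.one]
  | succ n ih => rw [pow_succ, xp_mul, ih, pow_succ]

private theorem xp_zero : L.nm (algebraMap K Ω 0) = 0 := by
  rw [map_zero, L.zero]

/-- A bound for the coefficients. -/
private theorem xp_bd₀ (q : MvPolynomial (Fin (d + 1)) K) :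
    ∃ M : ℝ, 0 ≤ M ∧ ∀ e, L.nm (algebraMap K Ω (q.coeff e)) ≤ M := by
  have h0 : ∀ e ∈ q.support, 0 ≤ L.nm (algebraMap K Ω (q.coeff e)) := fun e _ => L.nonneg _
  refine ⟨∑ e ∈ q.support, L.nm (algebraMap K Ω (q.coeff e)), Finset.sum_nonneg h0, fun e => ?_⟩
  by_cases he : e ∈ q.support
  · exact Finset.single_le_sum h0 he
  · rw [MvPolynomial.notMem_support_iff.1 he, xp_zero]
    exact Finset.sum_nonneg h0

private theorem xp_bd (P : Polynomial (MvPolynomial (Fin (d + 1)) K)) :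
    ∃ M : ℝ, 0 ≤ M ∧ ∀ j e, L.nm (algebraMap K Ω ((P.coeff j).coeff e)) ≤ M := by
  choose M hM h using fun j => xp_bd₀ (L := L) (P.coeff j)
  have h0 : ∀ j ∈ P.support, 0 ≤ M j := fun j _ => hM j
  refine ⟨∑ j ∈ P.support, M j, Finset.sum_nonneg h0, fun j e => ?_⟩
  by_cases hj : j ∈ P.support
  · exact (h j e).trans (Finset.single_le_sum h0 hj)
  · rw [Polynomial.notMem_support_iff.1 hj, MvPolynomial.coeff_zero, xp_zero]
    exact Finset.sum_nonneg h0

/-- A power of `p` which makes the numbers of norm `≤ M` integral. -/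
private theorem xp_p (L : Ld K Ω) [CharZero K] (M : ℝ) (hM : 0 ≤ M) :
    ∃ s : K, s ≠ 0 ∧ L.nm (algebraMap K Ω s) ≤ 1 ∧ L.nm (algebraMap K Ω s) * M ≤ 1 := by
  obtain ⟨n, hn⟩ := exists_pow_lt_of_lt_one (show 0 < (M + 1)⁻¹ by positivity) L.lt
  refine ⟨(L.p : K) ^ n, pow_ne_zero _ (Nat.cast_ne_zero.2 L.pp.ne_zero), ?_⟩
  rw [xp_pow, map_natCast]
  refine ⟨pow_le_one₀ (L.nonneg _) L.lt.le, ?_⟩
  have h1 : L.nm (L.p : Ω) ^ n * M ≤ (M + 1)⁻¹ * M :=
    mul_le_mul_of_nonneg_right hn.le hM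
  refine h1.trans ?_
  rw [inv_mul_le_iff₀ (by positivity)]
  linarith

/-- A multiple. -/
private theorem xp_le {s x : K} {M : ℝ} (h : L.nm (algebraMap K Ω s) * M ≤ 1)
    (hx : L.nm (algebraMap K Ω x) ≤ M) : L.nm (algebraMap K Ω (s * x)) ≤ 1 := by
  rw [xp_mul]
  exact (mul_le_mul_of_nonneg_left hx (L.nonneg _)).trans h

private theorem xp_scp (b' : K) (P : Polynomial (MvPolynomial (Fin (d + 1)) K)) :
    scp 1 b' P = P.comp (Polynomial.C (MvPolynomial.C b') * Polynomial.X) := by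
  rw [scp, Polynomial.comp, Polynomial.eval₂_eq_sum]
  congr 1
  funext j q
  have h : (fun r : Fin (d + 1) => MvPolynomial.C (1 : K) * MvPolynomial.X r) = MvPolynomial.X := by
    funext r
    rw [map_one, one_mul]
  rw [h, MvPolynomial.aeval_X_left_apply, mul_pow, ← Polynomial.C_pow, ← map_pow, map_mul]
  ring

/-- **Integral coefficients.** Proof: `Prj.Ok.sc` with `s = p ^ b`, `a = p ^ a'`, `t = p ^ k`, `b, a', k` large (in this order): `s u`, `s a y` integral for `s` large; the coefficients of `a ^ n G (c, Y / a)`: of degree `n - j` in `Y ^ j`, `j < n`: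
integral for `a` large (`j = n`: `1`); `t` large for `D`, `A` and `B' = t a ^ (-n) B (c, Y / a)`, `B'' = t a ^ (1 - n) B' (c, Y / a)`. There is a bound for the finitely many coefficients. -/
theorem exists_pk [CharZero K] (hf : ∀ i, ∃ e, (f i).IsHomogeneous e) {ψ₀ : Prj F N d}
    (h : ψ₀.Ok f) : ∃ ψ : Prj K N d, Pk f L ψ ∧ ∃ s t : K, s ≠ 0 ∧ t ≠ 0 ∧
      (∀ r j, ψ.u r j = s * algebraMap F K (ψ₀.u r j)) ∧
        ψ.D = MvPolynomial.C t * MvPolynomial.map (algebraMap F K) ψ₀.D := by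
  have h1 : (ψ₀.map (algebraMap F K)).Ok fun i => MvPolynomial.map (algebraMap F K) (f i) :=
    h.map (algebraMap F K)
  have hf1 : ∀ i, ∃ e, (MvPolynomial.map (algebraMap F K) (f i)).IsHomogeneous e := fun i => by
    obtain ⟨e, he⟩ := hf i
    exact ⟨e, he.map _⟩
  have hu1 : ∀ r j, (ψ₀.map (algebraMap F K)).u r j = algebraMap F K (ψ₀.u r j) := fun r j => rfl
  have hD1 : (ψ₀.map (algebraMap F K)).D = MvPolynomial.map (algebraMap F K) ψ₀.D := rfl
  rw [← hD1]
  simp only [← hu1]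
  generalize ψ₀.map (algebraMap F K) = ψ₁ at h1 hu1 hD1 ⊢
  obtain ⟨e, he, hDe⟩ := h1.homD
  obtain ⟨B, B', hB⟩ := h1.bez
  -- the number `s`
  obtain ⟨s, hs0, hs1, hs⟩ := xp_p L (∑ r, ∑ j, L.nm (algebraMap K Ω (ψ₁.u r j)))
    (Finset.sum_nonneg fun r _ => Finset.sum_nonneg fun j _ => L.nonneg _)
  have hsu : ∀ r j, L.nm (algebraMap K Ω (s * ψ₁.u r j)) ≤ 1 := fun r j => by
    refine xp_le hs ?_
    refine (Finset.single_le_sum (f := fun j => L.nm (algebraMap K Ω (ψ₁.u r j)))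
      (fun j _ => L.nonneg _) (Finset.mem_univ j)).trans ?_
    exact Finset.single_le_sum (f := fun r => ∑ j, L.nm (algebraMap K Ω (ψ₁.u r j)))
      (fun r _ => Finset.sum_nonneg fun j _ => L.nonneg _) (Finset.mem_univ r)
  -- the number `a`
  obtain ⟨MG, hMG, hG⟩ := xp_bd (L := L) ψ₁.G
  obtain ⟨a, ha0, ha1, ha⟩ := xp_p L (MG + ∑ j, L.nm (algebraMap K Ω (s * ψ₁.y j)))
    (add_nonneg hMG (Finset.sum_nonneg fun j _ => L.nonneg _))
  have hay : ∀ j, L.nm (algebraMap K Ω (s * a * ψ₁.y j)) ≤ 1 := fun j => by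
    rw [mul_comm s a, mul_assoc]
    refine xp_le ha ?_
    exact (Finset.single_le_sum (f := fun j => L.nm (algebraMap K Ω (s * ψ₁.y j)))
      (fun j _ => L.nonneg _) (Finset.mem_univ j)).trans (le_add_of_nonneg_left hMG)
  have haG : ∀ j e, L.nm (algebraMap K Ω (a * (ψ₁.G.coeff j).coeff e)) ≤ 1 := fun j e =>
    xp_le ha ((hG j e).trans (le_add_of_nonneg_right
      (Finset.sum_nonneg fun j _ => L.nonneg _)))
  -- the number `t`
  obtain ⟨MD, hMD, hD⟩ := xp_bd₀ (L := L) ψ₁.D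
  choose MA hMA hA using fun i => xp_bd (L := L)
    (Polynomial.C (MvPolynomial.C (s ^ e)) * scp s⁻¹ (s * a)⁻¹ (ψ₁.A i))
  set n := ψ₁.G.natDegree with hn
  set Q : Polynomial (MvPolynomial (Fin (d + 1)) K) :=
    Polynomial.C (MvPolynomial.C (a⁻¹ ^ n)) * scp 1 a⁻¹ B with hQ
  set Q' : Polynomial (MvPolynomial (Fin (d + 1)) K) :=
    Polynomial.C (MvPolynomial.C (a * a⁻¹ ^ n)) * scp 1 a⁻¹ B' with hQ'
  obtain ⟨MB, hMB, hQb⟩ := xp_bd (L := L) Q
  obtain ⟨MB', hMB', hQb'⟩ := xp_bd (L := L) Q'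
  have hSA : 0 ≤ ∑ i, MA i := Finset.sum_nonneg fun i _ => hMA i
  obtain ⟨t, ht0, ht1, ht⟩ := xp_p L (MD + ∑ i, MA i + MB + MB') (by positivity)
  refine ⟨ψ₁.sc e s a t, pk_of hf (h1.sc hf1 he hDe hs0 ha0 ht0) hsu hay ?_ ?_ ?_ ?_, s, t, hs0,
    ht0, fun r j => rfl, rfl⟩
  · -- `G`
    intro j e'
    have hc : (ψ₁.sc e s a t).G.coeff j =
        MvPolynomial.C (a ^ n * a⁻¹ ^ j) * ψ₁.G.coeff j := by
      change (Polynomial.C (MvPolynomial.C (a ^ n)) * scp 1 a⁻¹ ψ₁.G).coeff j = _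
      rw [xp_scp, Polynomial.coeff_C_mul, Polynomial.comp_C_mul_X_coeff, ← map_pow, map_mul]
      ring
    rw [hc, MvPolynomial.coeff_C_mul]
    rcases lt_trichotomy j n with hj | hj | hj
    · have h2 : a ^ n * a⁻¹ ^ j * (ψ₁.G.coeff j).coeff e' =
          a ^ (n - j - 1) * (a * (ψ₁.G.coeff j).coeff e') := by
        have h3 : n = (n - j - 1) + 1 + j := by omega
        have h4 : a ^ n = a ^ (n - j - 1) * a * a ^ j := by
          rw [← pow_succ, ← pow_add, ← h3]
        have h5 : a ^ j * a⁻¹ ^ j = 1 := by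
          rw [← mul_pow, mul_inv_cancel₀ ha0, one_pow]
        rw [h4, mul_assoc (a ^ (n - j - 1) * a) (a ^ j), h5]
        ring
      rw [h2, xp_mul, xp_pow]
      exact mul_le_one₀ (pow_le_one₀ (L.nonneg _) ha1) (L.nonneg _) (haG j e')
    · have h5 : a ^ n * a⁻¹ ^ j = 1 := by
        rw [hj, ← mul_pow, mul_inv_cancel₀ ha0, one_pow]
      have h6 : ψ₁.G.coeff j = 1 := by
        rw [hj, hn]
        exact h1.mon
      rw [h5, one_mul, h6, MvPolynomial.coeff_one]
      split_ifs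
      · rw [map_one, L.one]
      · rw [xp_zero]
        exact zero_le_one
    · rw [Polynomial.coeff_eq_zero_of_natDegree_lt hj, MvPolynomial.coeff_zero, mul_zero, xp_zero]
      exact zero_le_one
  · -- `D`
    intro e'
    change L.nm (algebraMap K Ω ((MvPolynomial.C t * ψ₁.D).coeff e')) ≤ 1
    rw [MvPolynomial.coeff_C_mul]
    exact xp_le ht ((hD e').trans (by linarith))
  · -- `A`
    intro i j e'
    have hc : (ψ₁.sc e s a t).A i = Polynomial.C (MvPolynomial.C t) *
        (Polynomial.C (MvPolynomial.C (s ^ e)) * scp s⁻¹ (s * a)⁻¹ (ψ₁.A i)) := by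
      change Polynomial.C (MvPolynomial.C (t * s ^ e)) * scp s⁻¹ (s * a)⁻¹ (ψ₁.A i) = _
      rw [map_mul, map_mul, mul_assoc]
    rw [hc, Polynomial.coeff_C_mul, MvPolynomial.coeff_C_mul]
    refine xp_le ht ((hA i j e').trans ?_)
    have h2 := Finset.single_le_sum (f := MA) (fun i _ => hMA i) (Finset.mem_univ i)
    linarith
  · -- `B`
    refine ⟨Polynomial.C (MvPolynomial.C t) * Q, Polynomial.C (MvPolynomial.C t) * Q',
      fun j e' => ?_, fun j e' => ?_, ?_⟩
    · rw [Polynomial.coeff_C_mul, MvPolynomial.coeff_C_mul]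
      exact xp_le ht ((hQb j e').trans (by linarith))
    · rw [Polynomial.coeff_C_mul, MvPolynomial.coeff_C_mul]
      exact xp_le ht ((hQb' j e').trans (by linarith))
    · have hc : (ψ₁.sc e s a t).G = Polynomial.C (MvPolynomial.C (a ^ n)) *
          ψ₁.G.comp (Polynomial.C (MvPolynomial.C a⁻¹) * Polynomial.X) := by
        change Polynomial.C (MvPolynomial.C (a ^ n)) * scp 1 a⁻¹ ψ₁.G = _
        rw [xp_scp]
      have hc' : Polynomial.derivative (ψ₁.sc e s a t).G =
          Polynomial.C (MvPolynomial.C (a ^ n)) * (Polynomial.C (MvPolynomial.C a⁻¹) *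
            (Polynomial.derivative ψ₁.G).comp
              (Polynomial.C (MvPolynomial.C a⁻¹) * Polynomial.X)) := by
        rw [hc, Polynomial.derivative_C_mul, Polynomial.derivative_comp,
          Polynomial.derivative_C_mul, Polynomial.derivative_X, mul_one]
      have h2 := congrArg (fun P => P.comp
        (Polynomial.C (MvPolynomial.C a⁻¹) * Polynomial.X)) hB
      simp only [Polynomial.add_comp, Polynomial.mul_comp, Polynomial.C_comp] at h2
      have h5 : (Polynomial.C (MvPolynomial.C (a⁻¹ ^ n)) :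
          Polynomial (MvPolynomial (Fin (d + 1)) K)) *
            Polynomial.C (MvPolynomial.C (a ^ n)) = 1 := by
        rw [← map_mul, ← map_mul, ← mul_pow, inv_mul_cancel₀ ha0, one_pow, map_one, map_one]
      have h6 : (Polynomial.C (MvPolynomial.C a) :
          Polynomial (MvPolynomial (Fin (d + 1)) K)) *
            Polynomial.C (MvPolynomial.C a⁻¹) = 1 := by
        rw [← map_mul, ← map_mul, mul_inv_cancel₀ ha0, map_one, map_one]
      rw [hc', hc, hQ, hQ', xp_scp, xp_scp]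
      change _ = Polynomial.C (MvPolynomial.C t * ψ₁.D)
      rw [map_mul Polynomial.C, ← h2, map_mul MvPolynomial.C a, map_mul Polynomial.C]
      linear_combination (Polynomial.C (MvPolynomial.C t) *
        (B.comp (Polynomial.C (MvPolynomial.C a⁻¹) * Polynomial.X)) *
        (ψ₁.G.comp (Polynomial.C (MvPolynomial.C a⁻¹) * Polynomial.X)) +
        Polynomial.C (MvPolynomial.C t) *
        (B'.comp (Polynomial.C (MvPolynomial.C a⁻¹) * Polynomial.X)) *
        (Polynomial.C (MvPolynomial.C a) * Polynomial.C (MvPolynomial.C a⁻¹)) *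
        ((Polynomial.derivative ψ₁.G).comp
          (Polynomial.C (MvPolynomial.C a⁻¹) * Polynomial.X))) * h5 +
        Polynomial.C (MvPolynomial.C t) *
        (B'.comp (Polynomial.C (MvPolynomial.C a⁻¹) * Polynomial.X)) *
        ((Polynomial.derivative ψ₁.G).comp
          (Polynomial.C (MvPolynomial.C a⁻¹) * Polynomial.X)) * h6

end GX
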