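import Pool.Agent.Lib.MP_f80667_ag.Ep.X

/-!
A finite Galois extension with a large residue field; extension of the base field for `Pk`.
-/

open ZC BE PE CV IntermediateField

namespace GX

variable {F : Type} [Field F] {N d m : ℕ} {ι : Type} {f : ι → MvPolynomial (Fin N) F}
  {K Ω : Type} [Field K] [CharZero K] [Field Ω] [Algebra K Ω] [Algebra F K] [Algebra F Ω]
  [IsScalarTower F K Ω] [IsAlgClosure K Ω] (L : Ld K Ω)

variable {L}

/-- Extension of the base field. Proof: field by field (`uv`, `yv`, `pe` of the mapped data are the same: `pe_map`, `uv_map`, `yv_map`). -/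
theorem Pk.map {ψ : Prj K N d} (h : Pk f L ψ) (E : IntermediateField K Ω) {L' : Ld E Ω}
    (hL : ∀ x, L'.nm x = L.nm x) : Pk f L' (ψ.map (algebraMap K E)) := by
  have hA : ∀ a : K, algebraMap E Ω (algebraMap K E a) = algebraMap K Ω a := fun a =>
    (IsScalarTower.algebraMap_apply K E Ω a).symm
  have hi : ∀ P : Polynomial (MvPolynomial (Fin (d + 1)) K),
      (∀ j e, L.nm (algebraMap K Ω ((P.coeff j).coeff e)) ≤ 1) → ∀ j e, L'.nm (algebraMap E Ω
        (((P.map (MvPolynomial.map (algebraMap K E))).coeff j).coeff e)) ≤ 1 := by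
    intro P hP j e
    rw [Polynomial.coeff_map, MvPolynomial.coeff_map, hA, hL]
    exact hP j e
  have hG : (ψ.map (algebraMap K E)).G = ψ.G.map (MvPolynomial.map (algebraMap K E)) := rfl
  have hD : (ψ.map (algebraMap K E)).D = MvPolynomial.map (algebraMap K E) ψ.D := rfl
  have hAj : (ψ.map (algebraMap K E)).A = fun j =>
    (ψ.A j).map (MvPolynomial.map (algebraMap K E)) := rfl
  have hDe : ∀ c : Fin (d + 1) → Ω, MvPolynomial.aeval c (ψ.map (algebraMap K E)).D =
      MvPolynomial.aeval c ψ.D := fun c => by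
    rw [hD, MvPolynomial.aeval_map_algebraMap]
  have hdeg : (ψ.map (algebraMap K E)).G.natDegree = ψ.G.natDegree := by
    rw [hG]
    exact h.mon.natDegree_map _
  refine ⟨fun r j => ?_, fun j => ?_, hi _ h.iG, fun e => ?_, fun i => hi _ (h.iA i), h.hom,
    h.mon.map _, fun j => ?_, ?_, ?_, fun x hx h0 => ?_, ?_, fun c w hw r => ?_,
    fun c w hw => ?_, ?_⟩
  · change L'.nm (algebraMap E Ω (algebraMap K E (ψ.u r j))) ≤ 1
    rw [hA, hL]
    exact h.iu r j
  · change L'.nm (algebraMap E Ω (algebraMap K E (ψ.y j))) ≤ 1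
    rw [hA, hL]
    exact h.iy j
  · rw [hD, MvPolynomial.coeff_map, hA, hL]
    exact h.iD e
  · rw [hdeg, hG, Polynomial.coeff_map]
    exact (h.homG j).map _
  · obtain ⟨e, he, h1⟩ := h.homD
    exact ⟨e, he, h1.map _⟩
  · obtain ⟨B, B', hB, hB', h1⟩ := h.bez
    refine ⟨_, _, hi B hB, hi B' hB', ?_⟩
    rw [hG, hD, Polynomial.derivative_map, ← Polynomial.map_mul, ← Polynomial.map_mul,
      ← Polynomial.map_add, h1, Polynomial.map_C]
  · obtain ⟨h1, h2⟩ := h.onX x hx h0
    rw [uv_map, yv_map, hG, pe_map]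
    refine ⟨h1, fun j => ?_⟩
    rw [hAj, hDe]
    exact (pe_map _ _ _).trans (h2 j)
  · obtain ⟨s, hs⟩ := h.inX
    refine ⟨s, fun i => ?_⟩
    have h1 := Polynomial.map_dvd (MvPolynomial.map (algebraMap K E)) (hs i)
    rw [Polynomial.map_mul, Polynomial.map_C, map_pow] at h1
    rw [hG, hD, hAj]
    have h2 : (MvPolynomial.aeval ψ.A (f i)).map (MvPolynomial.map (algebraMap K E)) =
        MvPolynomial.aeval (fun j => (ψ.A j).map (MvPolynomial.map (algebraMap K E))) (f i) := by
      have h3 := MvPolynomial.hom_eval₂ (f i) (algebraMap F (Polynomial (MvPolynomial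
        (Fin (d + 1)) K))) (Polynomial.mapRingHom (MvPolynomial.map (algebraMap K E))) ψ.A
      have h4 : (Polynomial.mapRingHom (MvPolynomial.map (σ := Fin (d + 1))
          (algebraMap K E))).comp (algebraMap F (Polynomial (MvPolynomial (Fin (d + 1)) K))) =
          algebraMap F (Polynomial (MvPolynomial (Fin (d + 1)) E)) := by
        refine RingHom.ext fun a => ?_
        change Polynomial.map (MvPolynomial.map (algebraMap K E))
          (Polynomial.C (MvPolynomial.C (algebraMap F K a))) =
          Polynomial.C (MvPolynomial.C (algebraMap F E a))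
        rw [Polynomial.map_C, MvPolynomial.map_C, ← IsScalarTower.algebraMap_apply F K E]
      rw [h4] at h3
      exact h3
    rwa [h2] at h1
  · rw [hG, pe_map] at hw
    have h1 : (fun j => pe c w ((ψ.map (algebraMap K E)).A j)) = fun j => pe c w (ψ.A j) :=
      funext fun j => pe_map _ _ _
    rw [h1, uv_map, hDe]
    exact h.inu c w hw r
  · rw [hG, pe_map] at hw
    have h1 : (fun j => pe c w ((ψ.map (algebraMap K E)).A j)) = fun j => pe c w (ψ.A j) :=
      funext fun j => pe_map _ _ _
    rw [h1, yv_map, hDe]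
    exact h.iny c w hw
  · have h1 : (ψ.map (algebraMap K E)).map (algebraMap E Ω) = ψ.map (algebraMap K Ω) := by
      have h2 : (algebraMap E Ω).comp (algebraMap K E) = algebraMap K Ω := RingHom.ext hA
      have h3 : (MvPolynomial.map (σ := Fin (d + 1)) (algebraMap E Ω)).comp
          (MvPolynomial.map (algebraMap K E)) = MvPolynomial.map (algebraMap K Ω) := by
        refine RingHom.ext fun a => ?_
        rw [RingHom.comp_apply, MvPolynomial.map_map, h2]
      simp only [Prj.map, Polynomial.map_map, MvPolynomial.map_map, h3, h2, hA]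
    rw [h1]
    exact h.ok

end GX
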