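import Pool.Agent.Lib.MP_f80667_ag.Ep.Sa
import Pool.Agent.Lib.MP_f80667_ag.Ep.Xa2
import Pool.Agent.Lib.MP_f80667_ag.Ep.Xc1
import Pool.Agent.Lib.MP_f80667_ag.Gx.ChC

/-!
Centres in good position (EP, section 1).

`Xgd f L ψ x`: `x` are integral coordinates of a point of the variety which is good for all projections.
-/

open ZC BE PE CV IntermediateField

namespace GX

variable {F : Type} [Field F] {N d m : ℕ} {ι : Type} {K Ω : Type} [Field K] [CharZero K]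
  [Field Ω] [Algebra K Ω] [Algebra F K] [Algebra F Ω] [IsScalarTower F K Ω] [IsAlgClosure K Ω]

/-- The point is integral and good for all projections. -/
structure Xgd (f : ι → MvPolynomial (Fin N) F) (L : Ld K Ω) (ψ : Fin m → Prj K N d)
    (x : Fin N → Ω) : Prop where
  le : ∀ j, L.nm (x j) ≤ 1
  ne : x ≠ 0
  eq : ∀ i, MvPolynomial.aeval x (f i) = 0
  D : ∀ i, MvPolynomial.aeval ((ψ i).uv x) (ψ i).D ≠ 0

variable {f : ι → MvPolynomial (Fin N) F} {L : Ld K Ω}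

/-- Proof: `aeval c D` for `D = t D⁰`, `c = s c⁰`. -/
private theorem xe_D {P : MvPolynomial (Fin (d + 1)) F} {e : ℕ} (hP : P.IsHomogeneous e)
    {Q : MvPolynomial (Fin (d + 1)) K} {t : K}
    (hQ : Q = MvPolynomial.C t * MvPolynomial.map (algebraMap F K) P)
    (c : Fin (d + 1) → Ω) (s : Ω) :
    MvPolynomial.aeval (s • c) Q = algebraMap K Ω t * (s ^ e * MvPolynomial.aeval c P) := by
  rw [hQ, map_mul, MvPolynomial.aeval_C, MvPolynomial.aeval_map_algebraMap, aeval_smul_hom hP]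

/-- Proof: the roots of a monic polynomial. -/
private theorem xe_fin (P : Polynomial (MvPolynomial (Fin (d + 1)) K)) (hP : P.Monic)
    (c : Fin (d + 1) → Ω) : {w | pe c w P = 0}.Finite := by
  have h1 : (P.map (MvPolynomial.aeval c : MvPolynomial (Fin (d + 1)) K →ₐ[K] Ω).toRingHom) ≠ 0 :=
    (hP.map _).ne_zero
  refine (Polynomial.finite_setOfPred_isRoot h1).subset fun w hw => ?_
  have h2 : (P.map (MvPolynomial.aeval c :
      MvPolynomial (Fin (d + 1)) K →ₐ[K] Ω).toRingHom).eval w = pe c w P := by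
    rw [Polynomial.eval_map, pe, Polynomial.coe_eval₂RingHom]
  exact h2.trans hw

/-- Proof: `lv`. -/
private theorem xe_uv {ψ : Prj K N d} {ψ₀ : Prj F N d} {s : K}
    (h : ∀ r j, ψ.u r j = s * algebraMap F K (ψ₀.u r j)) (x : Fin N → Ω) :
    ψ.uv x = algebraMap K Ω s • ψ₀.uv x := by
  funext r
  change lv (ψ.u r) x = algebraMap K Ω s * lv (ψ₀.u r) x
  rw [lv, lv, Finset.mul_sum]
  refine Finset.sum_congr rfl fun j _ => ?_
  rw [h r j, map_mul, ← IsScalarTower.algebraMap_apply F K Ω, mul_assoc]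

/-- The point `A / D`. -/
private theorem xe_zp {ψ : Prj K N d} {c : Fin (d + 1) → Ω} {w : Ω} (hψ : Pk f L ψ)
    (hG : pe c w ψ.G = 0) (hD : MvPolynomial.aeval c ψ.D ≠ 0) :
    (ψ.om Ω).pt c w ≠ 0 ∧ (∀ i, MvPolynomial.aeval ((ψ.om Ω).pt c w) (f i) = 0) ∧
      ψ.uv ((ψ.om Ω).pt c w) = c := by
  obtain ⟨hz, hu, hy⟩ := hψ.ok.pt_zp (om_hom hψ.hom) (c := c) (w := w)
    (by
      change pe c w (ψ.om Ω).G = 0
      rw [om_G]
      exact hG) (by
      change MvPolynomial.eval c (ψ.om Ω).D ≠ 0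
      rw [om_D]
      exact hD)
  refine ⟨(om_zp.1 hz).1, (om_zp.1 hz).2, ?_⟩
  rw [← om_uv]
  exact hu

/-- **Centres.** Proof: `γ` from `Nsg.exists_gen` for `ψ₀`, `c⁰ = s_i γ`, `D_i (c⁰) = t s ^ e D⁰ (γ) ≠ 0`; the roots `w` of `G_i (c⁰, .)` are finitely many, `a` so large that `p ^ a c⁰` and all `p ^ a pt (c⁰, w)` are integral; `c = p ^ a c⁰`. A root over `c` is `p ^ a` times a root over `c⁰`
(`pe_smul`), `pt (c, p ^ a w) = p ^ a pt (c⁰, w)` (`Prj.Ok.pt_smul` for `(hψ i).ok`). `D`: `x = pt (c, w)`, `u_i (x) = c` (`Prj.Ok.pt_zp`), `x' = (s_i p ^ a)⁻¹ x` has `u⁰_i (x') = γ`: `D⁰_i' (u⁰_i' (x')) ≠ 0`; `hs` and homogeneity. `ne`: `D_i (u_i (x)) ≠ 0`, `homD`. -/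
theorem exists_cen [CharZero F] (hf : Nsg f d) {ψ₀ : Fin m → Prj F N d}
    (h₀ : ∀ i, (ψ₀ i).Ok f) (hD₀ : ∀ i, (ψ₀ i).D ≠ 0) {ψ : Fin m → Prj K N d}
    (hψ : ∀ i, Pk f L (ψ i)) (hs : ∀ i, ∃ s t : K, s ≠ 0 ∧ t ≠ 0 ∧
      (∀ r j, (ψ i).u r j = s * algebraMap F K ((ψ₀ i).u r j)) ∧
        (ψ i).D = MvPolynomial.C t * MvPolynomial.map (algebraMap F K) (ψ₀ i).D) (i : Fin m) :
    ∃ c : Fin (d + 1) → Ω, (∀ r, c r ∈ (⊥ : IntermediateField K Ω)) ∧
      (∀ r, L.nm (c r) ≤ 1) ∧ MvPolynomial.aeval c (ψ i).D ≠ 0 ∧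
        ∀ w, pe c w (ψ i).G = 0 → Xgd f L ψ (((ψ i).om Ω).pt c w) := by
  obtain ⟨γ, hγ, hgen⟩ := hf.exists_gen h₀ hD₀ i
  obtain ⟨s, t, hs0, ht0, hu, hD⟩ := hs i
  obtain ⟨e, -, he⟩ := (h₀ i).homD
  have hinj : Function.Injective (algebraMap F Ω) := (algebraMap F Ω).injective
  have hsΩ : algebraMap K Ω s ≠ 0 := (map_ne_zero _).2 hs0
  have htΩ : algebraMap K Ω t ≠ 0 := (map_ne_zero _).2 ht0
  obtain ⟨g, hg⟩ : ∃ g : Fin (d + 1) → Ω, g = fun r => algebraMap F Ω (γ r) := ⟨_, rfl⟩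
  have hgD : MvPolynomial.aeval g (ψ₀ i).D ≠ 0 := by
    have h2 : MvPolynomial.aeval (fun r => algebraMap F Ω (γ r)) (ψ₀ i).D =
        algebraMap F Ω (MvPolynomial.aeval γ (ψ₀ i).D) :=
      MvPolynomial.aeval_algebraMap_apply Ω γ _
    rw [hg, h2]
    exact (map_ne_zero _).2 hγ
  obtain ⟨c₀, hc₀⟩ : ∃ c : Fin (d + 1) → Ω, c = algebraMap K Ω s • g := ⟨_, rfl⟩
  have hc₀D : MvPolynomial.aeval c₀ (ψ i).D ≠ 0 := by
    rw [hc₀, xe_D he hD]
    exact mul_ne_zero htΩ (mul_ne_zero (pow_ne_zero _ hsΩ) hgD)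
  have hfin := xe_fin (ψ i).G (hψ i).mon c₀
  -- the bound
  obtain ⟨M, hM0, hM1, hM2⟩ : ∃ M : ℝ, 0 ≤ M ∧ (∀ r, L.nm (c₀ r) ≤ M) ∧
      ∀ w, pe c₀ w (ψ i).G = 0 → ∀ j, L.nm (((ψ i).om Ω).pt c₀ w j) ≤ M := by
    refine ⟨∑ r, L.nm (c₀ r) + ∑ w ∈ hfin.toFinset, ∑ j, L.nm (((ψ i).om Ω).pt c₀ w j), ?_, ?_, ?_⟩
    · exact add_nonneg (Finset.sum_nonneg fun r _ => L.nonneg _)
        (Finset.sum_nonneg fun w _ => Finset.sum_nonneg fun j _ => L.nonneg _)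
    · intro r
      refine (Finset.single_le_sum (f := fun r => L.nm (c₀ r)) (fun r _ => L.nonneg _)
        (Finset.mem_univ r)).trans (le_add_of_nonneg_right ?_)
      exact Finset.sum_nonneg fun w _ => Finset.sum_nonneg fun j _ => L.nonneg _
    · intro w hw j
      refine ((Finset.single_le_sum (f := fun j => L.nm (((ψ i).om Ω).pt c₀ w j))
        (fun j _ => L.nonneg _) (Finset.mem_univ j)).trans
        (Finset.single_le_sum (f := fun w => ∑ j, L.nm (((ψ i).om Ω).pt c₀ w j))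
          (fun w _ => Finset.sum_nonneg fun j _ => L.nonneg _)
          (hfin.mem_toFinset.2 hw))).trans (le_add_of_nonneg_left ?_)
      exact Finset.sum_nonneg fun r _ => L.nonneg _
  obtain ⟨a, ha⟩ := exists_pow_lt_of_lt_one (show 0 < (M + 1)⁻¹ by positivity) L.lt
  obtain ⟨q, hq⟩ : ∃ q : Ω, q = (L.p : Ω) ^ a := ⟨_, rfl⟩
  have : CharZero Ω := charZero_of_injective_algebraMap (algebraMap K Ω).injective
  have hq0 : q ≠ 0 := by
    rw [hq]
    exact pow_ne_zero _ (Nat.cast_ne_zero.2 L.pp.ne_zero)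
  have hqM : ∀ x : Ω, L.nm x ≤ M → L.nm (q * x) ≤ 1 := fun x hx => by
    rw [hq, L.mul, L.pow]
    have h1 : L.nm (L.p : Ω) ^ a * L.nm x ≤ (M + 1)⁻¹ * M :=
      mul_le_mul ha.le hx (L.nonneg _) (by positivity)
    refine h1.trans ?_
    rw [inv_mul_le_iff₀ (by positivity)]
    linarith
  have hqm : q ∈ (⊥ : IntermediateField K Ω) := by
    rw [hq]
    exact pow_mem (_root_.natCast_mem _ _) _
  have hcD : MvPolynomial.aeval (q • c₀) (ψ i).D ≠ 0 := by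
    rw [hc₀, smul_smul, xe_D he hD]
    exact mul_ne_zero htΩ (mul_ne_zero (pow_ne_zero _ (mul_ne_zero hq0 hsΩ)) hgD)
  refine ⟨q • c₀, fun r => ?_, fun r => hqM _ (hM1 r), hcD, fun w hw => ?_⟩
  · rw [hc₀, hg]
    refine mul_mem hqm (mul_mem ?_ ?_)
    · exact IntermediateField.algebraMap_mem _ _
    · change algebraMap F Ω (γ r) ∈ _
      rw [IsScalarTower.algebraMap_apply F K Ω]
      exact IntermediateField.algebraMap_mem _ _
  · -- the points over `c`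
    obtain ⟨w₀, hw₀⟩ : ∃ w₀ : Ω, w₀ = q⁻¹ * w := ⟨_, rfl⟩
    have hww : w = q * w₀ := by rw [hw₀, mul_inv_cancel_left₀ hq0]
    have hG₀ : pe c₀ w₀ (ψ i).G = 0 := by
      have h1 := pe_smul (hψ i).homG le_rfl c₀ w₀ q
      rw [← hww, hw] at h1
      exact (mul_eq_zero.1 h1.symm).resolve_left (pow_ne_zero _ hq0)
    obtain ⟨-, -, hpt, -⟩ := (hψ i).ok.pt_smul (om_hom hf.hom) (c := c₀) (w := w₀) (s := q)
      (by
        change pe c₀ w₀ ((ψ i).om Ω).G = 0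
        rw [om_G]
        exact hG₀) (by
        change MvPolynomial.eval c₀ ((ψ i).om Ω).D ≠ 0
        rw [om_D]
        exact hc₀D) hq0
    change ((ψ i).om Ω).pt (q • c₀) (q * w₀) = q • ((ψ i).om Ω).pt c₀ w₀ at hpt
    rw [← hww] at hpt
    obtain ⟨hne, heq, huv⟩ := xe_zp (hψ i) hw hcD
    obtain ⟨-, heq₀, huv₀⟩ := xe_zp (hψ i) hG₀ hc₀D
    refine ⟨fun j => ?_, hne, heq, fun i' => ?_⟩
    · rw [hpt]
      exact hqM _ (hM2 w₀ hG₀ j)
    · have h1 := hgen Ω (((ψ i).om Ω).pt c₀ w₀) heq₀ (fun r => by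
        have h2 : algebraMap K Ω s * (ψ₀ i).uv (((ψ i).om Ω).pt c₀ w₀) r =
            algebraMap K Ω s * algebraMap F Ω (γ r) := by
          have h3 := congrFun (xe_uv hu (((ψ i).om Ω).pt c₀ w₀)) r
          have h4 := congrFun huv₀ r
          have h5 := congrFun hc₀ r
          rw [hg] at h5
          exact (h3.symm.trans h4).trans h5
        exact mul_left_cancel₀ hsΩ h2) i'
      obtain ⟨s', t', hs0', ht0', hu', hD'⟩ := hs i'
      obtain ⟨e', -, he'⟩ := (h₀ i').homD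
      rw [hpt, xe_uv hu', uv_smul, smul_smul, xe_D he' hD']
      exact mul_ne_zero ((map_ne_zero _).2 ht0') (mul_ne_zero (pow_ne_zero _
        (mul_ne_zero ((map_ne_zero _).2 hs0') hq0)) h1)

end GX
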