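import Pool.Agent.Lib.MP_f80667_ag.Ep.X
import Pool.Agent.Lib.MP_f80667_ag.Ep.Xe
import Pool.Agent.Lib.MP_f80667_ag.Ep.Sb
import Pool.Agent.Lib.MP_f80667_ag.Ep.Xd1

/-! The system of branches over centres in good position. -/

open ZC BE PE CV IntermediateField

namespace GX

variable {F : Type} [Field F] {N d m : ℕ} {ι : Type} {f : ι → MvPolynomial (Fin N) F}
  {K Ω : Type} [Field K] [CharZero K] [Field Ω] [Algebra K Ω] [Algebra F K] [Algebra F Ω]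
  [IsScalarTower F K Ω] [IsAlgClosure K Ω] {L : Ld K Ω}

/-- The branches: a projection `i'`, a point over the centre of `i`, a root for `i'` at this point. -/
def Xbr (ψ : Fin m → Prj K N d) (c : Fin m → Fin (d + 1) → Ω) : Type :=
  {t : Fin m × (Fin m × Ω) × Ω // pe (c t.2.1.1) t.2.1.2 (ψ t.2.1.1).G = 0 ∧
    pe ((ψ t.1).uv (((ψ t.2.1.1).om Ω).pt (c t.2.1.1) t.2.1.2)) t.2.2 (ψ t.1).G = 0}

omit [CharZero K] [IsAlgClosure K Ω] in
theorem xe_roots {ψ₁ : Prj K N d} (hψ : Pk f L ψ₁) (c : Fin (d + 1) → Ω) :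
    {w : Ω | pe c w ψ₁.G = 0}.Finite := by
  have h0 : (ψ₁.G.map (MvPolynomial.aeval c : MvPolynomial (Fin (d + 1)) K →ₐ[K] Ω).toRingHom)
      ≠ 0 := (hψ.mon.map _).ne_zero
  refine (Polynomial.finite_setOfPred_isRoot h0).subset fun w hw => ?_
  change Polynomial.eval w _ = 0
  rw [Polynomial.eval_map]
  exact hw

omit [CharZero K] [IsAlgClosure K Ω] in
theorem xbr_fin {ψ : Fin m → Prj K N d} (hψ : ∀ i, Pk f L (ψ i))
    (c : Fin m → Fin (d + 1) → Ω) : Finite (Xbr ψ c) := by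
  have h1 : ∀ i : Fin m, {w : Ω | pe (c i) w (ψ i).G = 0}.Finite := fun i =>
    xe_roots (hψ i) (c i)
  have h2 : {t : Fin m × Ω | pe (c t.1) t.2 (ψ t.1).G = 0}.Finite := by
    refine (Set.finite_iUnion fun i : Fin m => (h1 i).image fun w => (i, w)).subset ?_
    rintro ⟨i, w⟩ h
    exact Set.mem_iUnion.2 ⟨i, w, h, rfl⟩
  have h3 : {t : Fin m × (Fin m × Ω) × Ω | pe (c t.2.1.1) t.2.1.2 (ψ t.2.1.1).G = 0 ∧
    pe ((ψ t.1).uv (((ψ t.2.1.1).om Ω).pt (c t.2.1.1) t.2.1.2)) t.2.2 (ψ t.1).G = 0}.Finite := by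
    have h4 : (⋃ i' : Fin m, ⋃ t ∈ {t : Fin m × Ω | pe (c t.1) t.2 (ψ t.1).G = 0},
        (fun w' => (i', t, w')) '' {w' : Ω | pe ((ψ i').uv (((ψ t.1).om Ω).pt (c t.1) t.2)) w'
          (ψ i').G = 0}).Finite := by
      refine Set.finite_iUnion fun i' => h2.biUnion fun t _ => ?_
      exact (xe_roots (hψ i') _).image _
    refine h4.subset ?_
    rintro ⟨i', t, w'⟩ ⟨h, h'⟩
    exact Set.mem_iUnion.2 ⟨i', Set.mem_iUnion₂.2 ⟨t, h, w', h', rfl⟩⟩
  exact h3.to_subtype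

omit [CharZero K] [IsAlgClosure K Ω] in
/-- A lower bound for finitely many positive numbers. -/
theorem xe_low {T : Type} [Finite T] {g : T → ℝ} (h : ∀ t, 0 < g t) :
    ∃ ε : ℝ, 0 < ε ∧ ∀ t, ε ≤ g t := by
  rcases isEmpty_or_nonempty T with hT | hT
  · exact ⟨1, one_pos, fun t => (hT.false t).elim⟩
  · obtain ⟨t₀, ht₀⟩ := Finite.exists_min g
    exact ⟨g t₀, h t₀, ht₀⟩

/-- The point of the branch over `γ + ϖ h`. -/
theorem xe_pt {ψ₁ : Prj K N d} (hψ : Pk f L ψ₁) {γ : Fin (d + 1) → Ω} {w ϖ : Ω} {ε : ℝ}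
    (hγ : ∀ r, L.nm (γ r) ≤ 1) (hw : pe γ w ψ₁.G = 0) (hε : 0 < ε) (hε1 : ε < 1)
    (hD : ε ≤ L.nm (MvPolynomial.aeval γ ψ₁.D)) (hϖ : L.nm ϖ < ε ^ 12) {h : Fin (d + 1) → Ω}
    (hh : ∀ r, L.nm (h r) ≤ 1) : ∃ p : (Xf f).pt Ω, ∃ w', L.nm (w' - w) < ε ∧
      pe (fun r => γ r + ϖ * h r) w' ψ₁.G = 0 ∧
        Co p fun j => pe (fun r => γ r + ϖ * h r) w' (ψ₁.A j) := by
  have h12 : ε ^ 12 ≤ ε ^ 2 := pow_le_pow_of_le_one hε.le hε1.le (by norm_num)
  have h2 : ε ^ 2 ≤ ε := by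
    rw [pow_two]
    exact mul_le_of_le_one_right hε.le hε1.le
  have hϖ1 : L.nm ϖ < ε := hϖ.trans_le (h12.trans h2)
  have hd : ∀ r, L.nm (γ r + ϖ * h r - γ r) ≤ L.nm ϖ := by
    intro r
    rw [add_sub_cancel_left, L.mul]
    exact mul_le_of_le_one_right (L.nonneg _) (hh r)
  have hc' : ∀ r, L.nm (γ r + ϖ * h r) ≤ 1 := by
    intro r
    refine (L.add _ _).trans (max_le (hγ r) ?_)
    have h3 := hd r
    rw [add_sub_cancel_left] at h3
    exact h3.trans (hϖ1.le.trans hε1.le)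
  have hgy := hψ.gy hγ hw
  obtain ⟨w', hw', hw1⟩ := hψ.root hγ hc' hw (L.nonneg ϖ) hd (hD.trans hgy) hε hϖ1
  have hDn : MvPolynomial.aeval (fun r => γ r + ϖ * h r) ψ₁.D ≠ 0 := by
    intro h0
    have h3 := hψ.D_near hγ hc' (L.nonneg ϖ) hd
    rw [h0, zero_sub, L.neg] at h3
    exact absurd (hD.trans h3) (not_le.2 hϖ1)
  obtain ⟨p, hp⟩ := hψ.co hDn hw'
  refine ⟨p, w', ?_, hw', hp⟩
  have h4 : L.nm (w' - w) * ε < ε * ε := by
    refine hw1.trans_lt (hϖ.trans_le ?_)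
    rw [← pow_two]
    exact h12
  exact lt_of_mul_lt_mul_right h4 hε.le

/-- **The system of branches** over centres in good position. -/
theorem exists_bxe {ψ : Fin m → Prj K N d} (hψ : ∀ i, Pk f L (ψ i)) {ε₁ : ℝ} (hε₁ : 0 < ε₁)
    (hcov : ∀ x : Fin N → Ω, (∀ j, L.nm (x j) ≤ 1) → (∃ k, L.nm (x k) = 1) →
      (∀ j, MvPolynomial.aeval x (f j) = 0) →
        ∃ i, ε₁ ≤ L.nm (MvPolynomial.aeval ((ψ i).uv x) (ψ i).D))
    {c : Fin m → Fin (d + 1) → Ω} (hc : ∀ i r, c i r ∈ (⊥ : IntermediateField K Ω))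
    (hc1 : ∀ i r, L.nm (c i r) ≤ 1) (hcD : ∀ i, MvPolynomial.aeval (c i) (ψ i).D ≠ 0)
    (hg : ∀ i w, pe (c i) w (ψ i).G = 0 → Xgd f L ψ (((ψ i).om Ω).pt (c i) w))
    {E : IntermediateField K Ω} (hfd : FiniteDimensional K E) (hgal : IsGalois K E)
    (hE1 : ∀ i w, pe (c i) w (ψ i).G = 0 → ∀ j, ((ψ i).om Ω).pt (c i) w j ∈ E)
    (hE2 : ∀ i w, pe (c i) w (ψ i).G = 0 → ∀ i' w',
      pe ((ψ i').uv (((ψ i).om Ω).pt (c i) w)) w' (ψ i').G = 0 → w' ∈ E)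
    {L' : Ld E Ω} (hp : L'.p = L.p) (hnm : ∀ x, L'.nm x = L.nm x) :
    ∃ X : Bd f E Ω d m, Bg f L ψ E L' X := by
  classical
  have hfin := xbr_fin hψ c
  let x : Xbr ψ c → Fin N → Ω := fun t => ((ψ t.1.2.1.1).om Ω).pt (c t.1.2.1.1) t.1.2.1.2
  let γ : Xbr ψ c → Fin (d + 1) → Ω := fun t => (ψ t.1.1).uv (x t)
  have hx : ∀ t, Xgd f L ψ (x t) := fun t => hg _ _ t.2.1
  have hγ1 : ∀ t r, L.nm (γ t r) ≤ 1 := fun t r => lv_le ((hψ _).iu r) (hx t).le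
  have hroot : ∀ t : Xbr ψ c, pe (γ t) t.1.2.2 (ψ t.1.1).G = 0 := fun t => t.2.2
  have hγD : ∀ t : Xbr ψ c, 0 < L.nm (MvPolynomial.aeval (γ t) (ψ t.1.1).D) := fun t =>
    L.pos ((hx t).D _)
  obtain ⟨ε₂, h2, h2'⟩ := xe_low hγD
  obtain ⟨ε₃, h3, h3'⟩ := xe_low (g := fun i => L.nm (MvPolynomial.aeval (c i) (ψ i).D))
    fun i => L.pos (hcD i)
  have hp0 : 0 < L.nm (L.p : Ω) := L.p_pos
  obtain ⟨ε, hε⟩ : ∃ ε, ε = min (min ε₁ (L.nm (L.p : Ω))) (min ε₂ (min ε₃ (1 / 2))) := ⟨_, rfl⟩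
  have hε0 : 0 < ε := by
    rw [hε]
    exact lt_min (lt_min hε₁ hp0) (lt_min h2 (lt_min h3 one_half_pos))
  have hεp : ε ≤ L.nm (L.p : Ω) := hε.le.trans ((min_le_left _ _).trans (min_le_right _ _))
  have hεc : ε ≤ ε₁ := hε.le.trans ((min_le_left _ _).trans (min_le_left _ _))
  have hε2 : ε ≤ ε₂ := hε.le.trans ((min_le_right _ _).trans (min_le_left _ _))
  have hε3 : ε ≤ ε₃ := hε.le.trans ((min_le_right _ _).trans
    ((min_le_right _ _).trans (min_le_left _ _)))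
  have hε1 : ε < 1 := by
    have h4 : ε ≤ 1 / 2 := hε.le.trans ((min_le_right _ _).trans
      ((min_le_right _ _).trans (min_le_right _ _)))
    linarith
  obtain ⟨r, hr⟩ := exists_pow_lt_of_lt_one (pow_pos hε0 12) L.lt
  rw [← L.pow] at hr
  have hP : ∀ (t : Xbr ψ c) (h : Fin (d + 1) → Ω), ∃ p : (Xf f).pt Ω,
      (∀ r, L.nm (h r) ≤ 1) → ∃ w', L.nm (w' - t.1.2.2) < ε ∧
        pe (fun j => γ t j + (L.p : Ω) ^ r * h j) w' (ψ t.1.1).G = 0 ∧
          Co p fun k => pe (fun j => γ t j + (L.p : Ω) ^ r * h j) w' ((ψ t.1.1).A k) := by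
    intro t h
    by_cases hh : ∀ r, L.nm (h r) ≤ 1
    · obtain ⟨p, w', h4⟩ := xe_pt (hψ t.1.1) (hγ1 t) (hroot t) hε0 hε1 (hε2.trans (h2' t)) hr hh
      exact ⟨p, fun _ => ⟨w', h4⟩⟩
    · obtain ⟨p, -⟩ := xe_pt (f := f) (hψ t.1.1) (hγ1 t) (hroot t) hε0 hε1 (hε2.trans (h2' t)) hr
        (h := 0) fun r => by
          rw [Pi.zero_apply, L.zero]
          exact zero_le_one
      exact ⟨p, fun h5 => absurd h5 hh⟩
  choose P hP using hP
  have hact : ∀ (σ : Ω ≃ₐ[K] Ω) (i : Fin m), (fun r => σ (c i r)) = c i := by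
    intro σ i
    funext r
    obtain ⟨a, ha⟩ := IntermediateField.mem_bot.1 (hc i r)
    rw [← ha, AlgEquiv.commutes]
  refine ⟨{
    ψ := fun i => (ψ i).map (algebraMap K E)
    B := Xbr ψ c
    i := fun t => t.1.1
    γ := γ
    w := fun t => t.1.2.2
    ϖ := (L.p : Ω) ^ r
    ε := ε
    P := P }, ?_⟩
  refine
    { fd := hfd
      gal := hgal
      p := hp
      nm := hnm
      ok := ?_
      hψ := fun _ => rfl
      pk := hψ
      hϖ := ⟨r, rfl⟩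
      act := ?_
      cov := ?_
      cen := ?_ }
  · refine
      { fin := hfin
        pk := fun i => (hψ i).map E hnm
        ϖm := pow_mem (IntermediateField.natCast_mem _ _) _
        ϖ0 := ?_
        ε0 := hε0
        εp := ?_
        sm := ?_
        iv := ?_
        wm := ?_
        wl := ?_
        root := ?_
        all := ?_
        D := ?_
        co := ?_ }
    · change 0 < L'.nm ((L.p : Ω) ^ r)
      rw [hnm, L.pow]
      exact pow_pos hp0 r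
    · change ε ≤ L'.nm (L'.p : Ω)
      rw [hnm, hp]
      exact hεp
    · change L'.nm ((L.p : Ω) ^ r) < ε ^ 12
      rw [hnm]
      exact hr
    · intro t j
      refine ⟨?_, ?_⟩
      · rw [IntermediateField.mem_bot]
        exact ⟨⟨γ t j, lv_mem _ (hE1 _ _ t.2.1)⟩, rfl⟩
      · rw [hnm]
        exact hγ1 t j
    · intro t
      rw [IntermediateField.mem_bot]
      exact ⟨⟨t.1.2.2, hE2 _ _ t.2.1 _ _ t.2.2⟩, rfl⟩
    · intro t
      rw [hnm]
      exact (hψ t.1.1).wl (hγ1 t) (hroot t)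
    · intro t
      exact (pe_map (R' := E) (γ t) t.1.2.2 (ψ t.1.1).G).trans (hroot t)
    · intro t w hw
      have h4 : pe (γ t) w (ψ t.1.1).G = 0 := (pe_map (R' := E) (γ t) w (ψ t.1.1).G).symm.trans hw
      exact ⟨⟨(t.1.1, t.1.2.1, w), t.2.1, h4⟩, rfl, rfl, rfl⟩
    · intro t
      change ε ≤ L'.nm (MvPolynomial.aeval (γ t) (MvPolynomial.map (algebraMap K E) (ψ t.1.1).D))
      rw [hnm, MvPolynomial.aeval_map_algebraMap]
      exact hε2.trans (h2' t)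
    · intro t h hh
      obtain ⟨w', h4, h5, h6⟩ := hP t h fun r => by
        rw [← hnm]
        exact hh r
      refine ⟨w', ?_, ?_, ?_⟩
      · rw [hnm]
        exact h4
      · exact (pe_map (R' := E) _ w' (ψ t.1.1).G).trans h5
      · have h7 : (fun k => pe (fun j => γ t j + (L.p : Ω) ^ r * h j) w'
            (((ψ t.1.1).map (algebraMap K E)).A k)) =
              fun k => pe (fun j => γ t j + (L.p : Ω) ^ r * h j) w' ((ψ t.1.1).A k) := by
          funext k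
          exact pe_map (R' := E) _ w' ((ψ t.1.1).A k)
        change Co (P t h) fun k => pe (fun j => γ t j + (L.p : Ω) ^ r * h j) w'
          (((ψ t.1.1).map (algebraMap K E)).A k)
        rw [h7]
        exact h6
  · rintro σ ⟨⟨i', ⟨i, w⟩, w'⟩, h4, h5⟩
    have h6 : pe (c i) (σ w) (ψ i).G = 0 := by
      have h7 := congrArg σ h4
      rwa [pe_act, map_zero, hact] at h7
    have h8 : (fun j => σ (((ψ i).om Ω).pt (c i) w j)) = ((ψ i).om Ω).pt (c i) (σ w) := by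
      funext j
      rw [pt_act, hact]
    have h9 : (fun r => σ ((ψ i').uv (((ψ i).om Ω).pt (c i) w) r)) =
        (ψ i').uv (((ψ i).om Ω).pt (c i) (σ w)) := by
      funext r
      rw [← h8]
      exact lv_act σ _ _
    have h10 : pe ((ψ i').uv (((ψ i).om Ω).pt (c i) (σ w))) (σ w') (ψ i').G = 0 := by
      have h7 := congrArg σ h5
      rwa [pe_act, map_zero, h9] at h7
    exact ⟨⟨(i', (i, σ w), σ w'), h6, h10⟩, rfl, fun r => (congrFun h9 r).symm, rfl⟩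
  · intro y h4 h5 h6
    obtain ⟨i, hi⟩ := hcov y h4 h5 h6
    exact ⟨i, hεc.trans hi⟩
  · intro i
    refine ⟨c i, hc i, hc1 i, hε3.trans (h3' i), fun w hw => ⟨?_, fun i' => ?_⟩⟩
    · have hDn : MvPolynomial.eval (c i) ((ψ i).om Ω).D ≠ 0 := by
        rw [om_D]
        exact hcD i
      obtain ⟨-, h4, -⟩ := (hψ i).ok.pt_zp (om_hom (hψ i).hom) (c := c i) (w := w)
        (by rw [om_G]; exact hw) hDn
      have h4' : (ψ i).uv (((ψ i).om Ω).pt (c i) w) = c i := by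
        rw [← om_uv]
        exact h4
      exact ⟨⟨(i, (i, w), w), hw, by rw [h4']; exact hw⟩, rfl, h4', rfl⟩
    · have h4 := hg i w hw
      obtain ⟨h5, -⟩ := (hψ i').onX _ h4.ne h4.eq
      exact ⟨⟨(i', (i, w), (ψ i').yv (((ψ i).om Ω).pt (c i) w)), hw, h5⟩, rfl, fun _ => rfl, rfl⟩

end GX
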