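import Pool.Agent.Lib.MP_f80667_ag.Ep.E
import Pool.Agent.Lib.MP_f80667_ag.Ep.B

/-! Levels and multiplication by any integer; up to rational equivalence the levels consist of invariant cycles. -/

open ZC BE PE CV IntermediateField Polynomial

namespace GX

variable {F : Type} [Field F] {K Ω : Type} [Field K] [CharZero K] [Field Ω] [Algebra K Ω]
  [Algebra F K] [Algebra F Ω] [IsScalarTower F K Ω] [IsAlgClosure K Ω] {L : Ld K Ω} {V : Vr F}
  [Hf V] {σ B : Type} {P : B → (σ → Ω) → V.pt Ω} {π : Ω} {M M' : IntermediateField K Ω}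

/-- Multiplication by a prime number. -/
private theorem yd_prime (hB : Bs L P) (hπ : Uf L π) {l : ℕ} (hl : l.Prime) (n : ℕ) :
    ∃ n', ∀ v ∈ Vb L P π n', ∃ v' ∈ Vb L P π n, v - l • v' ∈ V.ratEq K Ω := by
  have hl0 : (l : K) ≠ 0 := Nat.cast_ne_zero.2 hl.ne_zero
  obtain ⟨k, hk⟩ := hπ.val (l : K) hl0
  rw [map_natCast] at hk
  have hk0 : 0 ≤ k := by
    by_contra hneg
    rw [not_le] at hneg
    have h1 : L.nm (l : Ω) ≤ 1 := L.nat_le l
    rw [hk] at h1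
    exact absurd h1 (not_le.2 (one_lt_zpow_of_neg₀ hπ.pos hπ.lt hneg))
  obtain ⟨u, rfl⟩ := Int.eq_ofNat_of_zero_le hk0
  have hu : L.nm (l : Ω) = L.nm π ^ u := by rw [hk, zpow_natCast]
  refine ⟨max n (u + 1) + u, fun v hv => ?_⟩
  have h1 : 1 ≤ l - 1 := Nat.le_sub_of_add_le hl.two_le
  have h2 : u < (l - 1) * max n (u + 1) := by
    calc u < u + 1 := Nat.lt_succ_self u
      _ ≤ max n (u + 1) := le_max_right _ _
      _ = 1 * max n (u + 1) := (one_mul _).symm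
      _ ≤ (l - 1) * max n (u + 1) := Nat.mul_le_mul_right _ h1
  obtain ⟨w, hw, h3⟩ := vb_div hB hπ hl hu h2 hv
  exact ⟨w, vb_anti hπ (le_max_left _ _) hw, h3⟩

/-- **Multiplication by any integer.** -/
theorem vb_dm (hB : Bs L P) (hπ : Uf L π) {m : ℕ} (hm : m ≠ 0) (n : ℕ) :
    ∃ n', ∀ v ∈ Vb L P π n', ∃ v' ∈ Vb L P π n, v - m • v' ∈ V.ratEq K Ω := by
  induction m using Nat.recOnMul generalizing n with
  | zero => exact absurd rfl hm
  | one =>
    refine ⟨n, fun v hv => ⟨v, hv, ?_⟩⟩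
    rw [one_smul, sub_self]
    exact zero_mem _
  | prime p hp => exact yd_prime hB hπ hp n
  | mul a b ha hb =>
    obtain ⟨n₁, h₁⟩ := ha (left_ne_zero_of_mul hm) n
    obtain ⟨n₂, h₂⟩ := hb (right_ne_zero_of_mul hm) n₁
    refine ⟨n₂, fun v hv => ?_⟩
    obtain ⟨w, hw, h3⟩ := h₂ v hv
    obtain ⟨w', hw', h4⟩ := h₁ w hw
    refine ⟨w', hw', ?_⟩
    have e : v - (a * b) • w' = (v - b • w) + b • (w - a • w') := by
      rw [smul_sub, smul_smul, mul_comm b a]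
      abel
    rw [e]
    exact add_mem h3 (nsmul_mem h4 b)

/-- The decomposition. -/
theorem vb_dec {n : ℕ} {z : V.pt Ω →₀ ℤ} (hz : z ∈ Vb L P π n) :
    ∃ d ∈ Dsp L V (nb L P (L.nm π ^ n)) (⊥ : IntermediateField K Ω), d ∈ V.cyc K Ω ∧
      z - d ∈ V.ratEq K Ω := by
  obtain ⟨d, hd, r, hr, rfl⟩ := AddSubgroup.mem_sup.1 hz
  refine ⟨d, hd, GM.cyc_iff.2 (dsp_fx hd), ?_⟩
  rwa [add_sub_cancel_left]

omit [CharZero K] [IsAlgClosure K Ω] in
theorem vb_sub {n : ℕ} {z d : V.pt Ω →₀ ℤ} (hz : z ∈ Vb L P π n) (h : z - d ∈ V.ratEq K Ω) :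
    d ∈ Vb L P π n := by
  have e : d = z - (z - d) := by abel
  rw [e]
  exact sub_mem hz (vb_rat n h)

end GX
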