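import Pool.Agent.Lib.MP_f80667_ag.Gm.GyAn

/-!
Newton's lemma in two variables for the equations `b (c) = t X (c, w)`, `g (c, w) = 0` at a point `P` with `b (P.1) = 0`, `g (P) = 0` where
`β = b' (P.1)` and `κ = g_Y (P)` are not units: `t` is divisible by `β ^ 2 κ ^ 2 π`.
-/

open Polynomial

namespace GM

section ring

variable {R : Type} [CommRing R]

private theorem za_up (P : R × R) (A : R[X][X]) :
    up₂ (ev₂ P) (up₂ ((C : R[X] →+* R[X][X]).comp (C : R →+* R[X])) A) = A := by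
  have h1 : (up₂ (ev₂ P)).comp (up₂ ((C : R[X] →+* R[X][X]).comp (C : R →+* R[X]))) =
      RingHom.id (R[X][X]) := by
    refine Polynomial.ringHom_ext' (Polynomial.ringHom_ext' (RingHom.ext fun a => ?_) ?_) ?_
    · simp [up₂, ev₂]
    · simp [up₂, ev₂]
    · simp [up₂, ev₂]
  exact congrArg (fun φ => φ A) h1

/-- The Taylor formula for `A (c + s Z, w + u Y)`. -/
theorem tay_sc (A : R[X][X]) (c w s u : R) : ∃ k₁ k₂ k₃ : R[X][X], ∀ P : R × R,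
    ev₂ (c + s * P.1, w + u * P.2) A = ev₂ (c, w) A + ev₂ (c, w) (dZ A) * (s * P.1) +
      ev₂ (c, w) (dY A) * (u * P.2) + ev₂ P k₁ * (s * P.1) ^ 2 +
      ev₂ P k₂ * ((s * P.1) * (u * P.2)) + ev₂ P k₃ * (u * P.2) ^ 2 := by
  let f : R →+* R[X][X] := (C : R[X] →+* R[X][X]).comp (C : R →+* R[X])
  obtain ⟨S, hS⟩ : ∃ S, S = f s * C X := ⟨_, rfl⟩
  obtain ⟨U, hU⟩ : ∃ U, U = f u * X := ⟨_, rfl⟩
  obtain ⟨k₁, k₂, k₃, hk⟩ := tay₂ (up₂ f A) (f c) (f w) S U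
  refine ⟨k₁, k₂, k₃, fun P => ?_⟩
  have h1 := congrArg (ev₂ P) hk
  have hf : ∀ a : R, ev₂ P (f a) = a := by
    intro a
    simp [f, ev₂]
  have e1 : ev₂ P S = s * P.1 := by
    rw [hS, map_mul, hf]
    simp [ev₂]
  have e2 : ev₂ P U = u * P.2 := by
    rw [hU, map_mul, hf]
    simp [ev₂]
  have e3 : ev₂ P (ev₂ (f c + S, f w + U) (up₂ f A)) =
      ev₂ (c + s * P.1, w + u * P.2) A := by
    have h2 := ev_up (ev₂ P) (f c + S, f w + U) (up₂ f A)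
    rw [za_up P A, map_add, map_add, hf, hf, e1, e2] at h2
    exact h2.symm
  rw [e3] at h1
  rw [h1]
  simp only [map_add, map_mul, map_pow, e1, e2, dZ_up, dY_up]
  rw [ev_up f (c, w), ev_up f (c, w), ev_up f (c, w), hf, hf, hf]

/-- **Newton's lemma** for `b (c) = t X (c, w)`, `g (c, w) = 0`. -/
theorem newt_sc {π : R} [IsAdicComplete (Ideal.span {π}) R] (b : R[X]) (x g : R[X][X])
    (P : R × R) (hb : b.eval P.1 = 0) (hg : ev₂ P g = 0) {t β κ : R} (ht : π ∣ t)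
    (hβ : b.derivative.eval P.1 = β) (hκ : ev₂ P (dY g) = κ) :
    ∃ Q : R × R, π ∣ Q.1 ∧ π ∣ Q.2 ∧
      b.eval (P.1 + β * κ ^ 2 * Q.1) =
        β ^ 2 * κ ^ 2 * t * ev₂ (P.1 + β * κ ^ 2 * Q.1, P.2 + κ * Q.2) x ∧
      ev₂ (P.1 + β * κ ^ 2 * Q.1, P.2 + κ * Q.2) g = 0 := by
  obtain ⟨m₁, m₂, m₃, hm⟩ := tay_sc (C b) P.1 P.2 (β * κ ^ 2) 0
  obtain ⟨l₁, l₂, l₃, hl⟩ := tay_sc x P.1 P.2 (β * κ ^ 2) κ
  obtain ⟨k₁, k₂, k₃, hk⟩ := tay_sc g P.1 P.2 (β * κ ^ 2) κ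
  let f : R →+* R[X][X] := (C : R[X] →+* R[X][X]).comp (C : R →+* R[X])
  have hP : ((P.1, P.2) : R × R) = P := rfl
  obtain ⟨Z, hZ⟩ : ∃ Z : R[X][X], Z = C X := ⟨_, rfl⟩
  have hf : ∀ (a : R) (Q : R × R), ev₂ Q (f a) = a := by
    intro a Q
    simp [f, ev₂]
  have hfz : ∀ a : R, dZ (f a) = 0 := by
    intro a
    change dZ (C (C a)) = 0
    rw [dZ_C, derivative_C, map_zero]
  have hfy : ∀ a : R, dY (f a) = 0 := by
    intro a
    change derivative (C (C a)) = 0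
    rw [derivative_C]
  have eZ : ∀ Q : R × R, ev₂ Q Z = Q.1 := by
    intro Q
    rw [hZ]
    simp [ev₂]
  have eY : ∀ Q : R × R, ev₂ Q (X : R[X][X]) = Q.2 := by
    intro Q
    simp [ev₂]
  have zZ : dZ Z = 1 := by
    rw [hZ, dZ_C, derivative_X, map_one]
  have yZ : dY Z = 0 := by
    rw [hZ]
    exact derivative_C
  have yX : dY (X : R[X][X]) = 1 := derivative_X
  have yadd : ∀ A B : R[X][X], dY (A + B) = dY A + dY B := fun A B => derivative_add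
  have ymul : ∀ A B : R[X][X], dY (A * B) = dY A * B + A * dY B := fun A B => derivative_mul
  -- the equations
  obtain ⟨G₂, hG₂⟩ : ∃ G₂ : R[X][X], G₂ = f (ev₂ P (dZ g) * β) * Z + X +
      k₁ * (f (β ^ 2 * κ ^ 2) * (Z * Z)) + k₂ * (f (β * κ) * (Z * X)) + k₃ * (X * X) :=
    ⟨_, rfl⟩
  obtain ⟨G₁, hG₁⟩ : ∃ G₁ : R[X][X], G₁ = Z + m₁ * (f (κ ^ 2) * (Z * Z)) +
      f (-t) * (f (ev₂ P x) + f (ev₂ P (dZ x) * (β * κ ^ 2)) * Z + f (ev₂ P (dY x) * κ) * X +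
        l₁ * (f ((β * κ ^ 2) ^ 2) * (Z * Z)) + l₂ * (f (β * κ ^ 2 * κ) * (Z * X)) +
        l₃ * (f (κ ^ 2) * (X * X))) := ⟨_, rfl⟩
  have E₁ : ∀ Q : R × R, β ^ 2 * κ ^ 2 * ev₂ Q G₁ = b.eval (P.1 + β * κ ^ 2 * Q.1) -
      β ^ 2 * κ ^ 2 * t * ev₂ (P.1 + β * κ ^ 2 * Q.1, P.2 + κ * Q.2) x := by
    intro Q
    have h1 := hm Q
    have h2 : ∀ (c w : R) (q : R[X]), ev₂ (c, w) (C q) = q.eval c := by
      intro c w q
      simp [ev₂]
    rw [h2, dZ_C, h2, h2, hb, hβ] at h1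
    rw [h1, hl Q, hG₁]
    simp only [map_add, map_mul, hf, eZ, eY, map_neg]
    ring
  have E₂ : ∀ Q : R × R, κ ^ 2 * ev₂ Q G₂ =
      ev₂ (P.1 + β * κ ^ 2 * Q.1, P.2 + κ * Q.2) g := by
    intro Q
    rw [hk Q, hG₂, hP, hg, hκ]
    simp only [map_add, map_mul, hf, eZ, eY]
    ring
  -- the values at the origin
  have a₁ : ev₂ ((0, 0) : R × R) G₁ = -(t * ev₂ P x) := by
    rw [hG₁]
    simp only [map_add, map_mul, hf, eZ, eY]
    ring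
  have a₂ : ev₂ ((0, 0) : R × R) G₂ = 0 := by
    rw [hG₂]
    simp only [map_add, map_mul, hf, eZ, eY]
    ring
  have j₁ : ev₂ ((0, 0) : R × R) (dZ G₁) = 1 - t * (ev₂ P (dZ x) * (β * κ ^ 2)) := by
    rw [hG₁]
    simp only [dZ_add, dZ_mul, hfz, zZ, dZ_X, map_add, map_mul, map_zero, map_one, hf, eZ, eY]
    ring
  have j₂ : ev₂ ((0, 0) : R × R) (dY G₁) = -(t * (ev₂ P (dY x) * κ)) := by
    rw [hG₁]
    simp only [yadd, ymul, hfy, yZ, yX, map_add, map_mul, map_zero, map_one, hf, eZ, eY]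
    ring
  have j₃ : ev₂ ((0, 0) : R × R) (dZ G₂) = ev₂ P (dZ g) * β := by
    rw [hG₂]
    simp only [dZ_add, dZ_mul, hfz, zZ, dZ_X, map_add, map_mul, map_zero, map_one, hf, eZ, eY]
    ring
  have j₄ : ev₂ ((0, 0) : R × R) (dY G₂) = 1 := by
    rw [hG₂]
    simp only [yadd, ymul, hfy, yZ, yX, map_add, map_mul, map_zero, map_one, hf, eZ, eY]
    ring
  have hJ : IsUnit (ev₂ ((0, 0) : R × R) (dZ G₁) * ev₂ ((0, 0) : R × R) (dY G₂) -
      ev₂ ((0, 0) : R × R) (dY G₁) * ev₂ ((0, 0) : R × R) (dZ G₂)) := by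
    obtain ⟨t', rfl⟩ := ht
    have h1 : π ∈ (⊥ : Ideal R).jacobson :=
      IsAdicComplete.le_jacobson_bot (Ideal.span {π}) (Ideal.mem_span_singleton_self π)
    have h2 := Ideal.mem_jacobson_bot.1 h1
      (t' * (-(ev₂ P (dZ x) * (β * κ ^ 2)) + ev₂ P (dY x) * κ * (ev₂ P (dZ g) * β)))
    convert h2 using 1
    rw [j₁, j₂, j₃, j₄]
    ring
  obtain ⟨Q, q1, q2, q3, q4⟩ := newt₂ (π := π) (x := G₁) (g := G₂) (P := ((0, 0) : R × R))
    (by rw [a₁]; exact (ht.mul_right _).neg_right) (by rw [a₂]; exact dvd_zero _) hJ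
  refine ⟨Q, by simpa using q1, by simpa using q2, ?_, ?_⟩
  · have h1 := E₁ Q
    rw [q3, mul_zero] at h1
    exact (sub_eq_zero.1 h1.symm)
  · rw [← E₂ Q, q4, mul_zero]

end ring

end GM
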