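import Pool.Agent.Lib.MP_f80667_ag.Ep.Za
import Pool.Agent.Lib.MP_f80667_ag.Gm.GyB

/-!
The common zeros of `b (c) - t X (c, w)` and `g (c, w)` near a common zero `P` of `b` and `g` where `b' (P.1)` and `g_Y (P)` have the norms
`≥ e`, `nm t < e ^ 4`.

* `Zbp`: the hypotheses.
* `Zbp.close`: the estimates, `Zbp.uniq`: the uniqueness, `Zbp.jac`: the zero is simple, `Zbp.ex`: the existence.
-/

open ZC BE PE CV IntermediateField

namespace GM

variable {K Ω : Type} [Field K] [Field Ω] [Algebra K Ω]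

/-- A common zero `P` of `b` and `g`. -/
structure Zbp (L : Ld K Ω) (b : Polynomial Ω) (x g : Polynomial (Polynomial Ω)) (P : Ω × Ω) (t : Ω)
    (e : ℝ) : Prop where
  ib : ∀ i, L.nm (b.coeff i) ≤ 1
  ix : In₂ L x
  ig : In₂ L g
  ip : Ip L P
  hb : b.eval P.1 = 0
  hg : ev₂ P g = 0
  e0 : 0 < e
  db : e ≤ L.nm (b.derivative.eval P.1)
  dg : e ≤ L.nm (ev₂ P (dY g))
  te : L.nm t < e ^ 4

variable {L : Ld K Ω} {b : Polynomial Ω} {x g : Polynomial (Polynomial Ω)} {P Q Q' : Ω × Ω}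
  {t : Ω} {e : ℝ}

private theorem zb_C (P : Ω × Ω) (q : Polynomial Ω) : ev₂ P (Polynomial.C q) = q.eval P.1 := by
  simp [ev₂]

private theorem zb_in {b : Polynomial Ω} (ib : ∀ i, L.nm (b.coeff i) ≤ 1) :
    In₂ L (Polynomial.C b) := by
  intro i j
  rw [Polynomial.coeff_C]
  split_ifs
  · exact ib j
  · rw [Polynomial.coeff_zero, L.zero]
    exact zero_le_one

/-- Taylor for a polynomial in one variable. -/
private theorem zb_tay {b : Polynomial Ω} (ib : ∀ i, L.nm (b.coeff i) ≤ 1) {c c' : Ω}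
    (hc : L.nm c ≤ 1) (hc' : L.nm c' ≤ 1) :
    L.nm (b.eval c' - b.eval c - b.derivative.eval c * (c' - c)) ≤ L.nm (c' - c) ^ 2 := by
  have hP : Ip L ((c, 0) : Ω × Ω) := ⟨hc, by rw [L.zero]; exact zero_le_one⟩
  have hQ : Ip L ((c', 0) : Ω × Ω) := ⟨hc', by rw [L.zero]; exact zero_le_one⟩
  have h := tay_nm (zb_in ib) hP hQ (r := L.nm (c' - c)) le_rfl (by
    rw [sub_self, L.zero]
    exact L.nonneg _)
  rwa [zb_C, zb_C, dZ_C, zb_C, sub_self, mul_zero, add_zero] at h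

private theorem zb_sub {b : Polynomial Ω} (ib : ∀ i, L.nm (b.coeff i) ≤ 1) {c c' : Ω}
    (hc : L.nm c ≤ 1) (hc' : L.nm c' ≤ 1) : L.nm (b.eval c' - b.eval c) ≤ L.nm (c' - c) := by
  have hP : Ip L ((c, 0) : Ω × Ω) := ⟨hc, by rw [L.zero]; exact zero_le_one⟩
  have hQ : Ip L ((c', 0) : Ω × Ω) := ⟨hc', by rw [L.zero]; exact zero_le_one⟩
  have h := ev_sub_le (zb_in ib) hP hQ (r := L.nm (c' - c)) le_rfl (by
    rw [sub_self, L.zero]
    exact L.nonneg _)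
  rwa [zb_C, zb_C] at h

private theorem zb_der {b : Polynomial Ω} (ib : ∀ i, L.nm (b.coeff i) ≤ 1) (i : ℕ) :
    L.nm (b.derivative.coeff i) ≤ 1 := by
  have h := (zb_in ib).dZ 0 i
  rwa [dZ_C, Polynomial.coeff_C_zero] at h

theorem Zbp.e1 (h : Zbp L b x g P t e) : e ≤ 1 :=
  h.dg.trans (ev_le h.ig.dY h.ip)

/-- The powers of `e`. -/
private theorem Zbp.pw (h : Zbp L b x g P t e) : L.nm t < e ^ 3 ∧ L.nm t < e ^ 2 ∧ L.nm t < e := by
  have h0 := h.e0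
  have h1 := h.e1
  have h2 := h.te
  have e43 : e ^ 4 ≤ e ^ 3 := pow_le_pow_of_le_one h0.le h1 (by norm_num)
  have e32 : e ^ 3 ≤ e ^ 2 := pow_le_pow_of_le_one h0.le h1 (by norm_num)
  have e21 : e ^ 2 ≤ e ^ 1 := pow_le_pow_of_le_one h0.le h1 (by norm_num)
  rw [pow_one] at e21
  exact ⟨h2.trans_le e43, h2.trans_le (e43.trans e32), h2.trans_le ((e43.trans e32).trans e21)⟩

private theorem Zbp.te1 (h : Zbp L b x g P t e) : L.nm t / e < e ^ 3 ∧ L.nm t / e < e := by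
  have h0 := h.e0
  have h2 := h.te
  obtain ⟨-, h3, -⟩ := h.pw
  constructor
  · rw [div_lt_iff₀ h0]
    calc L.nm t < e ^ 4 := h2
      _ = e ^ 3 * e := by ring
  · rw [div_lt_iff₀ h0]
    calc L.nm t < e ^ 2 := h3
      _ = e * e := by ring

private theorem Zbp.te2 (h : Zbp L b x g P t e) : L.nm t / e ^ 2 < e ^ 2 ∧ L.nm t / e ^ 2 < e := by
  have h0 := h.e0
  have h2 := h.te
  obtain ⟨h3, -, -⟩ := h.pw
  have h4 : 0 < e ^ 2 := pow_pos h0 2
  constructor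
  · rw [div_lt_iff₀ h4]
    calc L.nm t < e ^ 4 := h2
      _ = e ^ 2 * e ^ 2 := by ring
  · rw [div_lt_iff₀ h4]
    calc L.nm t < e ^ 3 := h3
      _ = e * e ^ 2 := by ring

/-- **The estimates.** -/
theorem Zbp.close (h : Zbp L b x g P t e) (hQ : Ip L Q)
    (h1 : L.nm (Q.1 - P.1) < L.nm (b.derivative.eval P.1))
    (h2 : L.nm (Q.2 - P.2) < L.nm (ev₂ P (dY g))) (h3 : b.eval Q.1 = t * ev₂ Q x)
    (h4 : ev₂ Q g = 0) : L.nm (Q.1 - P.1) ≤ L.nm t / e ∧ L.nm (Q.2 - P.2) ≤ L.nm t / e ^ 2 ∧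
      L.nm (Q.1 - P.1 - t * ev₂ P x / b.derivative.eval P.1) ≤ L.nm t ^ 2 / e ^ 3 := by
  have e0 := h.e0
  have e1 := h.e1
  obtain ⟨β, hβ⟩ : ∃ β, β = b.derivative.eval P.1 := ⟨_, rfl⟩
  obtain ⟨κ, hκ⟩ : ∃ κ, κ = ev₂ P (dY g) := ⟨_, rfl⟩
  obtain ⟨δ, hδ⟩ : ∃ δ, δ = Q.1 - P.1 := ⟨_, rfl⟩
  obtain ⟨η, hη⟩ : ∃ η, η = Q.2 - P.2 := ⟨_, rfl⟩
  have db : e ≤ L.nm β := by rw [hβ]; exact h.db
  have dg : e ≤ L.nm κ := by rw [hκ]; exact h.dg
  have hxQ : L.nm (ev₂ Q x) ≤ 1 := ev_le h.ix hQ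
  have hδ1 : L.nm δ ≤ 1 := by
    rw [hδ]
    exact (L.sub _ _).trans (max_le hQ.1 h.ip.1)
  have hη1 : L.nm η ≤ 1 := by
    rw [hη]
    exact (L.sub _ _).trans (max_le hQ.2 h.ip.2)
  -- the first coordinate
  have k1 := zb_tay h.ib h.ip.1 hQ.1
  rw [h.hb, sub_zero, ← hβ, ← hδ, h3] at k1
  have htx : L.nm (t * ev₂ Q x) ≤ L.nm t := by
    rw [L.mul]
    exact mul_le_of_le_one_right (L.nonneg _) hxQ
  have k2 : L.nm β * L.nm δ ≤ L.nm t := by
    have e2 : β * δ = t * ev₂ Q x - (t * ev₂ Q x - β * δ) := by ring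
    have h5 : L.nm (β * δ) ≤ max (L.nm t) (L.nm δ ^ 2) := by
      rw [e2]
      exact (L.sub _ _).trans (max_le_max htx k1)
    rw [L.mul] at h5
    rcases le_max_iff.1 h5 with h6 | h6
    · exact h6
    · rcases (L.nonneg δ).eq_or_lt with h7 | h7
      · rw [← h7, mul_zero]
        exact L.nonneg _
      · rw [← hβ, ← hδ] at h1
        exact absurd h6 (not_le.2 (by nlinarith))
  have k3 : L.nm δ ≤ L.nm t / e := by
    rw [le_div_iff₀ e0]
    nlinarith [L.nonneg δ]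
  -- the second coordinate
  obtain ⟨r, hr⟩ : ∃ r, r = max (L.nm δ) (L.nm η) := ⟨_, rfl⟩
  have k4 := tay_nm h.ig h.ip hQ (r := r) (by rw [hr, hδ]; exact le_max_left _ _)
    (by rw [hr, hη]; exact le_max_right _ _)
  rw [h4, h.hg, sub_self, zero_sub, L.neg, ← hκ, ← hδ, ← hη] at k4
  have hgz : L.nm (ev₂ P (dZ g) * δ) ≤ L.nm δ := by
    rw [L.mul]
    exact mul_le_of_le_one_left (L.nonneg _) (ev_le h.ig.dZ h.ip)
  have k5 : L.nm κ * L.nm η ≤ L.nm δ := by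
    have e2 : κ * η = (ev₂ P (dZ g) * δ + κ * η) - ev₂ P (dZ g) * δ := by ring
    have h5 : L.nm (κ * η) ≤ max (r ^ 2) (L.nm δ) := by
      rw [e2]
      exact (L.sub _ _).trans (max_le_max k4 hgz)
    rw [L.mul] at h5
    rcases le_max_iff.1 h5 with h6 | h6
    · rcases le_total (L.nm η) (L.nm δ) with h7 | h7
      · rw [hr, max_eq_left h7] at h6
        refine h6.trans ?_
        rw [sq]
        exact mul_le_of_le_one_left (L.nonneg _) hδ1
      · rw [hr, max_eq_right h7] at h6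
        rcases (L.nonneg η).eq_or_lt with h8 | h8
        · rw [← h8, mul_zero]
          exact L.nonneg _
        · rw [← hκ, ← hη] at h2
          exact absurd h6 (not_le.2 (by nlinarith))
    · exact h6
  have k6 : L.nm η ≤ L.nm t / e ^ 2 := by
    rw [le_div_iff₀ (pow_pos e0 2)]
    have h5 : e * L.nm η ≤ L.nm t / e := by nlinarith [L.nonneg η]
    rw [le_div_iff₀ e0] at h5
    nlinarith
  refine ⟨by rw [← hδ]; exact k3, by rw [← hη]; exact k6, ?_⟩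
  -- the second order
  rw [← hβ, ← hδ]
  have hβ0 : β ≠ 0 := L.ne_zero (e0.trans_le db)
  have e2 : δ - t * ev₂ P x / β =
      (t * (ev₂ Q x - ev₂ P x) - (t * ev₂ Q x - β * δ)) / β := by
    field_simp
    ring
  have ht0 := L.nonneg t
  have hB : L.nm t / e ≤ L.nm t / e ^ 2 := by
    apply div_le_div_of_nonneg_left ht0 (pow_pos e0 2)
    nlinarith
  have h5 : L.nm (t * (ev₂ Q x - ev₂ P x)) ≤ L.nm t ^ 2 / e ^ 2 := by
    rw [L.mul]
    have h6 := ev_sub_le h.ix h.ip hQ (r := L.nm t / e ^ 2) (by rw [← hδ]; exact k3.trans hB)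
      (by rw [← hη]; exact k6)
    calc L.nm t * L.nm (ev₂ Q x - ev₂ P x) ≤ L.nm t * (L.nm t / e ^ 2) :=
          mul_le_mul_of_nonneg_left h6 ht0
      _ = L.nm t ^ 2 / e ^ 2 := by ring
  have h6 : L.nm (t * ev₂ Q x - β * δ) ≤ L.nm t ^ 2 / e ^ 2 := by
    refine k1.trans ?_
    have h7 := pow_le_pow_left₀ (L.nonneg δ) k3 2
    rwa [div_pow] at h7
  rw [e2, L.div]
  have h7 := (L.sub (t * (ev₂ Q x - ev₂ P x)) (t * ev₂ Q x - β * δ)).trans (max_le h5 h6)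
  calc L.nm (t * (ev₂ Q x - ev₂ P x) - (t * ev₂ Q x - β * δ)) / L.nm β
      ≤ (L.nm t ^ 2 / e ^ 2) / e :=
        div_le_div₀ (div_nonneg (pow_nonneg ht0 2) (pow_nonneg e0.le 2)) h7 e0 db
    _ = L.nm t ^ 2 / e ^ 3 := by
        rw [div_div, ← pow_succ]

private theorem Zbp.near (h : Zbp L b x g P t e) (hQ : Ip L Q) (h1 : L.nm (Q.1 - P.1) ≤ L.nm t / e)
    (h2 : L.nm (Q.2 - P.2) ≤ L.nm t / e ^ 2) :
    L.nm (b.derivative.eval Q.1) = L.nm (b.derivative.eval P.1) ∧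
      L.nm (ev₂ Q (dY g)) = L.nm (ev₂ P (dY g)) := by
  have h3 := h.te1.2
  have h4 := h.te2.2
  constructor
  · refine L.eq_of_close ?_
    exact (zb_sub (zb_der h.ib) h.ip.1 hQ.1).trans_lt ((h1.trans_lt h3).trans_le h.db)
  · refine L.eq_of_close ?_
    have h5 := ev_sub_le h.ig.dY h.ip hQ (r := max (L.nm t / e) (L.nm t / e ^ 2))
      (h1.trans (le_max_left _ _)) (h2.trans (le_max_right _ _))
    exact h5.trans_lt ((max_lt h3 h4).trans_le h.dg)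

/-- **The uniqueness.** -/
theorem Zbp.uniq (h : Zbp L b x g P t e) (hQ : Ip L Q)
    (h1 : L.nm (Q.1 - P.1) < L.nm (b.derivative.eval P.1))
    (h2 : L.nm (Q.2 - P.2) < L.nm (ev₂ P (dY g))) (h3 : b.eval Q.1 = t * ev₂ Q x)
    (h4 : ev₂ Q g = 0) (hQ' : Ip L Q')
    (h1' : L.nm (Q'.1 - P.1) < L.nm (b.derivative.eval P.1))
    (h2' : L.nm (Q'.2 - P.2) < L.nm (ev₂ P (dY g))) (h3' : b.eval Q'.1 = t * ev₂ Q' x)
    (h4' : ev₂ Q' g = 0) : Q = Q' := by
  have e0 := h.e0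
  have e1 := h.e1
  obtain ⟨a1, a2, -⟩ := h.close hQ h1 h2 h3 h4
  obtain ⟨b1, b2, -⟩ := h.close hQ' h1' h2' h3' h4'
  obtain ⟨c1, c2⟩ := h.near hQ' b1 b2
  obtain ⟨β, hβ⟩ : ∃ β, β = b.derivative.eval Q'.1 := ⟨_, rfl⟩
  obtain ⟨κ, hκ⟩ : ∃ κ, κ = ev₂ Q' (dY g) := ⟨_, rfl⟩
  obtain ⟨δ, hδ⟩ : ∃ δ, δ = Q.1 - Q'.1 := ⟨_, rfl⟩
  obtain ⟨η, hη⟩ : ∃ η, η = Q.2 - Q'.2 := ⟨_, rfl⟩
  have db : e ≤ L.nm β := by rw [hβ, c1]; exact h.db
  have dg : e ≤ L.nm κ := by rw [hκ, c2]; exact h.dg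
  have hδe : L.nm δ < e := by
    have e2 : δ = (Q.1 - P.1) - (Q'.1 - P.1) := by rw [hδ]; ring
    rw [e2]
    exact (L.sub _ _).trans_lt (max_lt (a1.trans_lt h.te1.2) (b1.trans_lt h.te1.2))
  have hηe : L.nm η < e := by
    have e2 : η = (Q.2 - P.2) - (Q'.2 - P.2) := by rw [hη]; ring
    rw [e2]
    exact (L.sub _ _).trans_lt (max_lt (a2.trans_lt h.te2.2) (b2.trans_lt h.te2.2))
  have hd0 := L.nonneg δ
  have hn0 := L.nonneg η
  have ht0 := L.nonneg t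
  have hte := h.pw.2.2
  have hte2 := h.pw.2.1
  -- the first coordinate
  have k1 := zb_tay h.ib hQ'.1 hQ.1
  rw [← hβ, ← hδ, h3, h3'] at k1
  have k2 : L.nm (t * ev₂ Q x - t * ev₂ Q' x) ≤ L.nm t * max (L.nm δ) (L.nm η) := by
    rw [← mul_sub, L.mul]
    exact mul_le_mul_of_nonneg_left (ev_sub_le h.ix hQ' hQ (by rw [hδ]; exact le_max_left _ _)
      (by rw [hη]; exact le_max_right _ _)) ht0
  have k3 : e * L.nm δ ≤ L.nm t * L.nm η := by
    have e2 : β * δ = (t * ev₂ Q x - t * ev₂ Q' x) - (t * ev₂ Q x - t * ev₂ Q' x - β * δ) := by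
      ring
    have h5 : L.nm (β * δ) ≤ max (L.nm t * max (L.nm δ) (L.nm η)) (L.nm δ ^ 2) := by
      rw [e2]
      exact (L.sub _ _).trans (max_le_max k2 k1)
    rw [L.mul] at h5
    rcases hd0.eq_or_lt with h6 | h6
    · rw [← h6, mul_zero]
      exact mul_nonneg ht0 hn0
    · have h9 : e * L.nm δ ≤ max (L.nm t * max (L.nm δ) (L.nm η)) (L.nm δ ^ 2) :=
        (mul_le_mul_of_nonneg_right db hd0).trans h5
      rcases le_max_iff.1 h9 with h7 | h7
      · rcases le_total (L.nm η) (L.nm δ) with h8 | h8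
        · rw [max_eq_left h8] at h7
          exact absurd (le_of_mul_le_mul_right h7 h6) (not_le.2 hte)
        · rwa [max_eq_right h8] at h7
      · rw [sq] at h7
        exact absurd (le_of_mul_le_mul_right h7 h6) (not_le.2 hδe)
  -- the second coordinate
  obtain ⟨r, hr⟩ : ∃ r, r = max (L.nm δ) (L.nm η) := ⟨_, rfl⟩
  have k4 := tay_nm h.ig hQ' hQ (r := r) (by rw [hr, hδ]; exact le_max_left _ _)
    (by rw [hr, hη]; exact le_max_right _ _)
  rw [h4, h4', sub_self, zero_sub, L.neg, ← hκ, ← hδ, ← hη] at k4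
  have hgz : L.nm (ev₂ Q' (dZ g) * δ) ≤ L.nm δ := by
    rw [L.mul]
    exact mul_le_of_le_one_left hd0 (ev_le h.ig.dZ hQ')
  have k5 : L.nm η = 0 := by
    by_contra hne
    have hpos : 0 < L.nm η := lt_of_le_of_ne hn0 (Ne.symm hne)
    have e2 : κ * η = (ev₂ Q' (dZ g) * δ + κ * η) - ev₂ Q' (dZ g) * δ := by ring
    have h5 : L.nm (κ * η) ≤ max (r ^ 2) (L.nm δ) := by
      rw [e2]
      exact (L.sub _ _).trans (max_le_max k4 hgz)
    rw [L.mul] at h5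
    have h6 : e * L.nm η ≤ max (r ^ 2) (L.nm δ) := by
      refine le_trans ?_ h5
      exact mul_le_mul_of_nonneg_right dg hn0
    have h9 : L.nm t * L.nm η < e * L.nm η := mul_lt_mul_of_pos_right hte hpos
    have h10 : L.nm δ < L.nm η := lt_of_mul_lt_mul_left (k3.trans_lt h9) e0.le
    rcases le_max_iff.1 h6 with h7 | h7
    · rw [hr, max_eq_right h10.le, sq] at h7
      exact absurd (le_of_mul_le_mul_right h7 hpos) (not_le.2 hηe)
    · have h11 : e * (e * L.nm η) ≤ L.nm t * L.nm η :=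
        (mul_le_mul_of_nonneg_left h7 e0.le).trans k3
      have h12 : e ^ 2 * L.nm η ≤ L.nm t * L.nm η := by
        rw [sq, mul_assoc]
        exact h11
      exact absurd (le_of_mul_le_mul_right h12 hpos) (not_le.2 hte2)
  have k6 : L.nm δ = 0 := by
    rw [k5, mul_zero] at k3
    exact le_antisymm (nonpos_of_mul_nonpos_right k3 e0) hd0
  have z1 : Q.1 - Q'.1 = 0 := by
    rw [← hδ]
    exact (L.zero_iff _).1 k6
  have z2 : Q.2 - Q'.2 = 0 := by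
    rw [← hη]
    exact (L.zero_iff _).1 k5
  exact Prod.ext (sub_eq_zero.1 z1) (sub_eq_zero.1 z2)

/-- **The zero is simple.** -/
theorem Zbp.jac (h : Zbp L b x g P t e) (hQ : Ip L Q)
    (h1 : L.nm (Q.1 - P.1) < L.nm (b.derivative.eval P.1))
    (h2 : L.nm (Q.2 - P.2) < L.nm (ev₂ P (dY g))) (h3 : b.eval Q.1 = t * ev₂ Q x)
    (h4 : ev₂ Q g = 0) : ev₂ Q (dY g) ≠ 0 ∧
      jac (Polynomial.C b - Polynomial.C (Polynomial.C t) * x) g Q ≠ 0 := by
  have e0 := h.e0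
  have e1 := h.e1
  obtain ⟨a1, a2, -⟩ := h.close hQ h1 h2 h3 h4
  obtain ⟨c1, c2⟩ := h.near hQ a1 a2
  have hκ : e ≤ L.nm (ev₂ Q (dY g)) := by rw [c2]; exact h.dg
  have hβ : e ≤ L.nm (b.derivative.eval Q.1) := by rw [c1]; exact h.db
  refine ⟨L.ne_zero (e0.trans_le hκ), ?_⟩
  have hy : Polynomial.C b - Polynomial.C (Polynomial.C t) * x =
      Polynomial.C b + Polynomial.C (Polynomial.C (-t)) * x := by
    rw [map_neg, map_neg]
    ring
  have z1 : ev₂ Q (dZ (Polynomial.C b - Polynomial.C (Polynomial.C t) * x)) =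
      b.derivative.eval Q.1 - t * ev₂ Q (dZ x) := by
    rw [hy, dZ_add, dZ_mul, dZ_C, dZ_C, Polynomial.derivative_C, map_add, map_add, map_mul,
      map_mul, zb_C, zb_C, zb_C, Polynomial.eval_C, Polynomial.eval_zero]
    ring
  have z2 : ev₂ Q (dY (Polynomial.C b - Polynomial.C (Polynomial.C t) * x)) =
      -(t * ev₂ Q (dY x)) := by
    have h5 : dY (Polynomial.C b - Polynomial.C (Polynomial.C t) * x) =
        -(Polynomial.C (Polynomial.C t) * dY x) := by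
      unfold dY
      rw [Polynomial.derivative_sub, Polynomial.derivative_C, Polynomial.derivative_C_mul,
        zero_sub]
    rw [h5, map_neg, map_mul, zb_C, Polynomial.eval_C]
  have k1 : L.nm (b.derivative.eval Q.1 - t * ev₂ Q (dZ x)) =
      L.nm (b.derivative.eval Q.1) := by
    refine L.eq_of_close ?_
    have e2 : b.derivative.eval Q.1 - t * ev₂ Q (dZ x) - b.derivative.eval Q.1 =
        -(t * ev₂ Q (dZ x)) := by ring
    rw [e2, L.neg, L.mul]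
    exact (mul_le_of_le_one_right (L.nonneg _) (ev_le h.ix.dZ hQ)).trans_lt
      (h.pw.2.2.trans_le hβ)
  have k2 : L.nm (-(t * ev₂ Q (dY x)) * ev₂ Q (dZ g)) ≤ L.nm t := by
    rw [L.mul, L.neg, L.mul]
    refine (mul_le_of_le_one_right (mul_nonneg (L.nonneg _) (L.nonneg _))
      (ev_le h.ig.dZ hQ)).trans ?_
    exact mul_le_of_le_one_right (L.nonneg _) (ev_le h.ix.dY hQ)
  have k3 : e ^ 2 ≤ L.nm ((b.derivative.eval Q.1 - t * ev₂ Q (dZ x)) * ev₂ Q (dY g)) := by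
    rw [L.mul, k1, sq]
    exact mul_le_mul hβ hκ e0.le (L.nonneg _)
  unfold GM.jac
  rw [z1, z2]
  intro h0
  have h5 := sub_eq_zero.1 h0
  rw [h5] at k3
  exact absurd (k3.trans k2) (not_le.2 h.pw.2.1)

end GM
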