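import Pool.Agent.Lib.MP_f80667_ag.Ep.Zb
import Pool.Agent.Lib.MP_f80667_ag.Gm.GyBx
import Pool.Agent.Lib.MP_f80667_ag.Gm.GyBz
import Pool.Agent.Lib.MP_f80667_ag.Gm.GyAo

/-!
The existence of the zeros near `P`. The data `Zd` of the relation; all common zeros are near the points of `T`.
-/

open ZC BE PE CV IntermediateField

namespace GM

variable {K Ω : Type} [Field K] [Field Ω] [Algebra K Ω] {L : Ld K Ω} {b : Polynomial Ω}
  {x g : Polynomial (Polynomial Ω)} {P Q Q' : Ω × Ω} {t : Ω} {e : ℝ}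

/-- Polynomials with coefficients in the range of a ring homomorphism. -/
private theorem zc_range {R R' : Type} [CommRing R] [CommRing R'] (f : R →+* R')
    {B : Polynomial (Polynomial R')} (h : ∀ i j, ∃ c, f c = (B.coeff i).coeff j) :
    ∃ B' : Polynomial (Polynomial R), up₂ f B' = B := by
  have h1 : B ∈ Polynomial.lifts (Polynomial.mapRingHom f) := by
    rw [Polynomial.lifts_iff_coeff_lifts]
    intro i
    have h2 : B.coeff i ∈ Polynomial.lifts f := by
      rw [Polynomial.lifts_iff_coeff_lifts]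
      intro j
      exact h i j
    exact (Polynomial.mem_lifts _).1 h2
  exact (Polynomial.mem_lifts _).1 h1

/-- **The existence.** Proof: `newt_sc` over the ring `OM L M`. -/
theorem Zbp.ex (h : Zbp L b x g P t e) {M : IntermediateField K Ω} [FiniteDimensional K M]
    (mb : ∀ i, b.coeff i ∈ M) (mx : Rm M x) (mg : Rm M g) (m1 : P.1 ∈ M) (m2 : P.2 ∈ M)
    (mt : t ∈ M) : ∃ Q : Ω × Ω, Ip L Q ∧
      L.nm (Q.1 - P.1) < L.nm (b.derivative.eval P.1) ∧
      L.nm (Q.2 - P.2) < L.nm (ev₂ P (dY g)) ∧ b.eval Q.1 = t * ev₂ Q x ∧ ev₂ Q g = 0 := by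
  obtain ⟨f, hf⟩ : ∃ f : OM L M →+* Ω, ∀ z : OM L M, f z = ((z : M) : Ω) :=
    ⟨(algebraMap M Ω).comp (OM L M).subtype, fun _ => rfl⟩
  have hinj : Function.Injective f := by
    intro y z hyz
    rw [hf, hf] at hyz
    exact Subtype.ext (Subtype.ext hyz)
  have hrg : ∀ c : Ω, c ∈ M → L.nm c ≤ 1 → ∃ z : OM L M, f z = c := fun c hc h1 =>
    ⟨⟨⟨c, hc⟩, h1⟩, hf _⟩
  have hle : ∀ z : OM L M, L.nm (f z) ≤ 1 := fun z => by
    rw [hf]
    exact z.2
  have hmM : ∀ z : OM L M, f z ∈ M := fun z => by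
    rw [hf]
    exact (z : M).2
  obtain ⟨x', hx'⟩ := zc_range f fun i j => hrg _ (mx i j) (h.ix i j)
  obtain ⟨g', hg'⟩ := zc_range f fun i j => hrg _ (mg i j) (h.ig i j)
  obtain ⟨b', hb'⟩ : ∃ b' : Polynomial (OM L M), b'.map f = b := by
    refine (Polynomial.mem_lifts _).1 ((Polynomial.lifts_iff_coeff_lifts _).2 fun i => ?_)
    exact hrg _ (mb i) (h.ib i)
  obtain ⟨c, hc⟩ := hrg _ m1 h.ip.1
  obtain ⟨w, hw⟩ := hrg _ m2 h.ip.2
  have hP : ((f c, f w) : Ω × Ω) = P := Prod.ext hc hw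
  have hbe : ∀ (q : Polynomial (OM L M)) (c : OM L M), (q.map f).eval (f c) = f (q.eval c) :=
    fun q c => Polynomial.eval_map_apply ..
  obtain ⟨β, hβ⟩ : ∃ β, b'.derivative.eval c = β := ⟨_, rfl⟩
  obtain ⟨κ, hκ⟩ : ∃ κ, ev₂ (c, w) (dY g') = κ := ⟨_, rfl⟩
  have fβ : b.derivative.eval P.1 = f β := by
    rw [← hb', Polynomial.derivative_map, ← hc, hbe, hβ]
  have fκ : ev₂ P (dY g) = f κ := by
    rw [← hg', ← hP, dY_up, ev_up f (c, w), hκ]
  have e0 := h.e0
  have db : e ≤ L.nm (f β) := by rw [← fβ]; exact h.db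
  have dg : e ≤ L.nm (f κ) := by rw [← fκ]; exact h.dg
  have hβ0 : f β ≠ 0 := L.ne_zero (e0.trans_le db)
  have hκ0 : f κ ≠ 0 := L.ne_zero (e0.trans_le dg)
  have hden : e ^ 4 ≤ L.nm (f β ^ 2 * f κ ^ 2) := by
    rw [L.mul, L.pow, L.pow]
    calc e ^ 4 = e ^ 2 * e ^ 2 := by ring
      _ ≤ L.nm (f β) ^ 2 * L.nm (f κ) ^ 2 :=
        mul_le_mul (pow_le_pow_left₀ e0.le db 2) (pow_le_pow_left₀ e0.le dg 2)
          (pow_nonneg e0.le 2) (pow_nonneg (L.nonneg _) 2)
  have ht1 : L.nm (t / (f β ^ 2 * f κ ^ 2)) < 1 := by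
    rw [L.div, div_lt_one ((pow_pos e0 4).trans_le hden)]
    exact h.te.trans_le hden
  obtain ⟨t₁, ht₁⟩ := hrg (t / (f β ^ 2 * f κ ^ 2))
    (M.div_mem mt (M.mul_mem (pow_mem (hmM β) 2) (pow_mem (hmM κ) 2))) ht1.le
  obtain ⟨π, hπ⟩ := IsDiscreteValuationRing.exists_irreducible (OM L M)
  have hmax := (IsDiscreteValuationRing.irreducible_iff_uniformizer π).1 hπ
  have : IsAdicComplete (Ideal.span {π}) (OM L M) := by
    rw [← hmax]
    exact acOM L M
  have hdvd : ∀ z : OM L M, π ∣ z ↔ L.nm (f z) < 1 := fun z => by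
    rw [← Ideal.mem_span_singleton, ← hmax, maxOM, hf]
  obtain ⟨Q, q1, q2, q3, q4⟩ := newt_sc (π := π) b' x' g' (c, w)
    (hinj (by rw [map_zero, ← hbe, hb', hc]; exact h.hb))
    (hinj (by rw [map_zero, ← ev_up, hg', hP]; exact h.hg))
    (t := t₁) ((hdvd _).2 (by rw [ht₁]; exact ht1)) hβ hκ
  rw [hdvd] at q1 q2
  have hP1 : P.1 = f c := hc.symm
  have hP2 : P.2 = f w := hw.symm
  refine ⟨(f (c + β * κ ^ 2 * Q.1), f (w + κ * Q.2)), ⟨hle _, hle _⟩, ?_, ?_, ?_, ?_⟩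
  · rw [fβ, hP1]
    change L.nm (f (c + β * κ ^ 2 * Q.1) - f c) < _
    rw [map_add, add_sub_cancel_left, map_mul, map_mul, L.mul, L.mul, map_pow, L.pow]
    have h5 : 0 < L.nm (f β) := e0.trans_le db
    have h6 : L.nm (f κ) ^ 2 ≤ 1 := pow_le_one₀ (L.nonneg _) (hle _)
    calc L.nm (f β) * L.nm (f κ) ^ 2 * L.nm (f Q.1) ≤ L.nm (f β) * 1 * L.nm (f Q.1) :=
          mul_le_mul_of_nonneg_right (mul_le_mul_of_nonneg_left h6 h5.le) (L.nonneg _)
      _ < L.nm (f β) * 1 * 1 := mul_lt_mul_of_pos_left q1 (by rwa [mul_one])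
      _ = L.nm (f β) := by ring
  · rw [fκ, hP2]
    change L.nm (f (w + κ * Q.2) - f w) < _
    rw [map_add, add_sub_cancel_left, map_mul, L.mul]
    exact mul_lt_of_lt_one_right (e0.trans_le dg) q2
  · have h5 := congrArg f q3
    rw [← hbe, hb', map_mul, ← ev_up f (c + β * κ ^ 2 * Q.1, w + κ * Q.2), hx', map_mul, map_mul,
      ht₁, map_pow, map_pow] at h5
    change b.eval (f (c + β * κ ^ 2 * Q.1)) = _
    rw [h5]
    field_simp
  · rw [← hg', ev_up f (c + β * κ ^ 2 * Q.1, w + κ * Q.2), q4, map_zero]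

/-- The data of the relation. -/
structure Zd (L : Ld K Ω) (M : IntermediateField K Ω) (ρ n : ℕ) (g : Polynomial (Polynomial Ω))
    (b : Polynomial Ω) (x : Polynomial (Polynomial Ω)) (t : Ω) (e : ℝ) (T : Finset (Ω × Ω)) :
    Prop where
  mc : Mc ρ n g
  ig : In₂ L g
  rg : Rm M g
  bm : b.Monic
  ib : ∀ i, L.nm (b.coeff i) ≤ 1
  rb : ∀ i, b.coeff i ∈ M
  ix : In₂ L x
  rx : Rm M x
  wx : Wl ρ b.natDegree x
  mt : t ∈ M
  te : L.nm t < e ^ 4
  e0 : 0 < e
  mT : ∀ q, q ∈ T ↔ b.eval q.1 = 0 ∧ ev₂ q g = 0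
  db : ∀ q ∈ T, e ≤ L.nm (b.derivative.eval q.1)
  dg : ∀ q ∈ T, e ≤ L.nm (ev₂ q (dY g))

variable {M : IntermediateField K Ω} {ρ n : ℕ} {T : Finset (Ω × Ω)}

theorem Zd.ip (h : Zd L M ρ n g b x t e T) {q : Ω × Ω} (hq : q ∈ T) : Ip L q := by
  have h1 := (h.mT q).1 hq
  have h2 : L.nm q.1 ≤ 1 := L.root_le h.bm h.ib h1.1
  exact ⟨h2, w_int h.mc.monic h.ig h2 h1.2⟩

theorem Zd.zp (h : Zd L M ρ n g b x t e T) {q : Ω × Ω} (hq : q ∈ T) : Zbp L b x g q t e :=
  ⟨h.ib, h.ix, h.ig, h.ip hq, ((h.mT q).1 hq).1, ((h.mT q).1 hq).2, h.e0, h.db q hq, h.dg q hq,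
    h.te⟩

/-- The nearest root of a polynomial. -/
private theorem zc_root [IsAlgClosed Ω] {p : Polynomial Ω} (hp : p.Monic) (h0 : p.natDegree ≠ 0)
    (c : Ω) : ∃ a, p.eval a = 0 ∧
      L.nm (c - a) * L.nm (p.derivative.eval a) ≤ L.nm (p.eval c) := by
  classical
  have hs := (IsAlgClosed.splits p).eq_prod_roots_of_monic hp
  have hcard : Multiset.card p.roots = p.natDegree :=
    ((IsAlgClosed.splits p).natDegree_eq_card_roots).symm
  have hne : p.roots.toFinset.Nonempty := by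
    rw [Finset.nonempty_iff_ne_empty]
    intro h1
    rw [Multiset.toFinset_eq_empty] at h1
    rw [h1, Multiset.card_zero] at hcard
    exact h0 hcard.symm
  obtain ⟨a, ha, hmin⟩ := Finset.exists_min_image p.roots.toFinset (fun a => L.nm (c - a)) hne
  have ha' : a ∈ p.roots := Multiset.mem_toFinset.1 ha
  obtain ⟨s, hsa⟩ := Multiset.exists_cons_of_mem ha'
  obtain ⟨q, hq⟩ : ∃ q, q = (s.map fun a => Polynomial.X - Polynomial.C a).prod := ⟨_, rfl⟩
  have hpq : p = (Polynomial.X - Polynomial.C a) * q := by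
    rw [hs, hsa, Multiset.map_cons, Multiset.prod_cons, hq]
  have hder : p.derivative.eval a = q.eval a := by
    rw [hpq, Polynomial.derivative_mul, Polynomial.derivative_X_sub_C]
    simp
  have hev : ∀ z : Ω, q.eval z = (s.map fun a => z - a).prod := by
    intro z
    rw [hq, Polynomial.eval_multiset_prod, Multiset.map_map]
    simp
  have hall : ∀ a' ∈ s, L.nm (a - a') ≤ L.nm (c - a') := by
    intro a' ha''
    have h1 := hmin a' (Multiset.mem_toFinset.2 (by rw [hsa]; exact Multiset.mem_cons_of_mem ha''))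
    have e1 : a - a' = (c - a') - (c - a) := by ring
    rw [e1]
    exact (L.sub _ _).trans (max_le le_rfl h1)
  have key : ∀ s : Multiset Ω, (∀ a' ∈ s, L.nm (a - a') ≤ L.nm (c - a')) →
      L.nm ((s.map fun a' => a - a').prod) ≤ L.nm ((s.map fun a' => c - a').prod) := by
    intro s
    induction s using Multiset.induction_on with
    | empty =>
      intro _
      simp
    | cons a' s ih =>
      intro h1
      rw [Multiset.map_cons, Multiset.prod_cons, Multiset.map_cons, Multiset.prod_cons, L.mul,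
        L.mul]
      exact mul_le_mul (h1 a' (Multiset.mem_cons_self _ _))
        (ih fun z hz => h1 z (Multiset.mem_cons_of_mem hz)) (L.nonneg _) (L.nonneg _)
  refine ⟨a, (Polynomial.mem_roots'.1 ha').2, ?_⟩
  have h1 : p.eval c = (c - a) * q.eval c := by
    conv_lhs => rw [hpq]
    rw [Polynomial.eval_mul]
    simp
  rw [h1, L.mul, hder, hev, hev]
  exact mul_le_mul_of_nonneg_left (key s hall) (L.nonneg _)

private theorem zc_C (P : Ω × Ω) (q : Polynomial Ω) : ev₂ P (Polynomial.C q) = q.eval P.1 := by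
  simp [ev₂]

/-- The function `b - t x`. -/
noncomputable def bx (b : Polynomial Ω) (x : Polynomial (Polynomial Ω)) (t : Ω) :
    Polynomial (Polynomial Ω) :=
  Polynomial.C b - Polynomial.C (Polynomial.C t) * x

theorem ev_bx (P : Ω × Ω) : ev₂ P (bx b x t) = b.eval P.1 - t * ev₂ P x := by
  unfold bx
  rw [map_sub, map_mul, zc_C, zc_C, Polynomial.eval_C]

theorem bx_zero : bx b x 0 = Polynomial.C b := by
  unfold bx
  rw [map_zero, map_zero, zero_mul, sub_zero]

/-- Proof: the polynomial `b - z ^ D` has a degree `< D`. -/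
theorem ut_bx {ρ : ℕ} (hb : b.Monic) (hx : Wl ρ b.natDegree x) (h0 : b.natDegree ≠ 0) (t : Ω) :
    Ut ρ b.natDegree (bx b x t) := by
  have hlt : (b - Polynomial.X ^ b.natDegree).natDegree < b.natDegree := by
    rcases eq_or_ne (b - Polynomial.X ^ b.natDegree) 0 with h1 | h1
    · rw [h1, Polynomial.natDegree_zero]
      exact Nat.pos_of_ne_zero h0
    · rw [Polynomial.natDegree_lt_iff_degree_lt h1]
      have h2 : b.degree = (b.natDegree : WithBot ℕ) :=
        Polynomial.degree_eq_natDegree hb.ne_zero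
      have h3 := Polynomial.degree_sub_lt_left (p := b) (q := Polynomial.X ^ b.natDegree)
        (by rw [h2, Polynomial.degree_X_pow]) hb.ne_zero
        (by rw [hb.leadingCoeff, (Polynomial.monic_X_pow _).leadingCoeff])
      rw [h2] at h3
      exact h3
  intro i hi
  have hc : (bx b x t - Polynomial.C (Polynomial.X ^ b.natDegree)).coeff i =
      (if i = 0 then b - Polynomial.X ^ b.natDegree else 0) -
        Polynomial.C t * x.coeff i := by
    unfold bx
    rw [Polynomial.coeff_sub, Polynomial.coeff_sub, Polynomial.coeff_C, Polynomial.coeff_C,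
      Polynomial.coeff_C_mul]
    split_ifs <;> ring
  rw [hc] at hi ⊢
  have hxi : x.coeff i ≠ 0 → (Polynomial.C t * x.coeff i).natDegree + i * ρ < b.natDegree := by
    intro h1
    exact (Nat.add_le_add_right (Polynomial.natDegree_C_mul_le _ _) _).trans_lt (hx i h1)
  rcases eq_or_ne i 0 with rfl | h1
  · rw [if_pos rfl, Nat.zero_mul, Nat.add_zero]
    refine (Polynomial.natDegree_sub_le _ _).trans_lt (max_lt hlt ?_)
    by_cases h2 : x.coeff 0 = 0
    · rw [h2, mul_zero, Polynomial.natDegree_zero]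
      exact Nat.pos_of_ne_zero h0
    · have h3 := hxi h2
      omega
  · rw [if_neg h1, zero_sub] at hi ⊢
    rw [Polynomial.natDegree_neg]
    refine hxi fun h2 => hi ?_
    rw [h2, mul_zero, neg_zero]

theorem in_bx (ib : ∀ i, L.nm (b.coeff i) ≤ 1) (ix : In₂ L x) (ht : L.nm t ≤ 1) :
    In₂ L (bx b x t) := by
  intro i j
  unfold bx
  rw [Polynomial.coeff_sub, Polynomial.coeff_sub, Polynomial.coeff_C, Polynomial.coeff_C_mul,
    Polynomial.coeff_C_mul]
  refine (L.sub _ _).trans (max_le ?_ ?_)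
  · split_ifs
    · exact ib j
    · rw [Polynomial.coeff_zero, L.zero]
      exact zero_le_one
  · rw [L.mul]
    exact mul_le_one₀ ht (L.nonneg _) (ix i j)

theorem rm_bx (rb : ∀ i, b.coeff i ∈ M) (rx : Rm M x) (mt : t ∈ M) : Rm M (bx b x t) := by
  intro i j
  unfold bx
  rw [Polynomial.coeff_sub, Polynomial.coeff_sub, Polynomial.coeff_C, Polynomial.coeff_C_mul,
    Polynomial.coeff_C_mul]
  refine M.sub_mem ?_ (M.mul_mem mt (rx i j))
  split_ifs
  · exact rb j
  · rw [Polynomial.coeff_zero]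
    exact M.zero_mem

theorem Zd.t1 (h : Zd L M ρ n g b x t e T) (hT : T.Nonempty) : L.nm t < 1 := by
  obtain ⟨q, hq⟩ := hT
  have h1 := (h.zp hq).e1
  exact h.te.trans_le (pow_le_one₀ h.e0.le h1)

theorem Zd.bd (h : Zd L M ρ n g b x t e T) (hT : T.Nonempty) : b.natDegree ≠ 0 := by
  intro h0
  obtain ⟨q, hq⟩ := hT
  have h1 := ((h.mT q).1 hq).1
  rw [h.bm.natDegree_eq_zero.1 h0, Polynomial.eval_one] at h1
  exact one_ne_zero h1

/-- **All common zeros are near the points of `T`.** Proof: `z_int`; the nearest root `c₀` of `b`, the nearest root of `g (c₀, Y)`. -/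
theorem Zd.near [IsAlgClosed Ω] (h : Zd L M ρ n g b x t e T) (ht : L.nm t < 1)
    (h1 : ev₂ Q g = 0) (h0 : b.eval Q.1 = t * ev₂ Q x) :
    Ip L Q ∧ ∃ q ∈ T, L.nm (Q.1 - q.1) < e ∧ L.nm (Q.2 - q.2) < e := by
  have hb0 : b.natDegree ≠ 0 := by
    intro h2
    have h3 : x = 0 := by
      ext1 j
      by_contra hj
      rw [Polynomial.coeff_zero] at hj
      have h4 := h.wx j hj
      omega
    rw [h.bm.natDegree_eq_zero.1 h2, Polynomial.eval_one, h3, map_zero, mul_zero] at h0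
    exact one_ne_zero h0
  have hQ : Ip L Q := z_int h.mc h.ig (ut_bx h.bm h.wx hb0 t) (in_bx h.ib h.ix ht.le) h1
    (by rw [ev_bx, h0, sub_self])
  refine ⟨hQ, ?_⟩
  obtain ⟨c₀, hc₀, hc1⟩ := zc_root (L := L) h.bm hb0 Q.1
  obtain ⟨p, hp⟩ : ∃ p, p = g.map (Polynomial.evalRingHom c₀) := ⟨_, rfl⟩
  have hpm : p.Monic := by
    rw [hp]
    exact h.mc.monic.map _
  have hpe : ∀ w, p.eval w = ev₂ (c₀, w) g := by
    intro w
    rw [hp, ev₂_eq, Polynomial.map_evalRingHom_eval]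
  have hpd : ∀ w, p.derivative.eval w = ev₂ (c₀, w) (dY g) := by
    intro w
    rw [hp, Polynomial.derivative_map, ev₂_eq, Polynomial.map_evalRingHom_eval]
    rfl
  have hn0 : p.natDegree ≠ 0 := by
    intro h2
    have h3 : g.natDegree = 0 := by
      rw [hp, h.mc.monic.natDegree_map] at h2
      exact h2
    rw [h.mc.monic.natDegree_eq_zero.1 h3, map_one] at h1
    exact one_ne_zero h1
  obtain ⟨w₀, hw₀, hw1⟩ := zc_root (L := L) hpm hn0 Q.2
  rw [hpe] at hw₀ hw1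
  rw [hpd] at hw1
  have hq : ((c₀, w₀) : Ω × Ω) ∈ T := (h.mT _).2 ⟨hc₀, hw₀⟩
  have db := h.db _ hq
  have dg := h.dg _ hq
  have e0 := h.e0
  have e1 := (h.zp hq).e1
  have hip := h.ip hq
  change e ≤ L.nm (b.derivative.eval c₀) at db
  have k1 : L.nm (Q.1 - c₀) * e ≤ L.nm t := by
    refine (mul_le_mul_of_nonneg_left db (L.nonneg _)).trans (hc1.trans ?_)
    rw [h0, L.mul]
    exact mul_le_of_le_one_right (L.nonneg _) (ev_le h.ix hQ)
  have k2 : L.nm (Q.2 - w₀) * e ≤ L.nm (Q.1 - c₀) := by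
    refine (mul_le_mul_of_nonneg_left dg (L.nonneg _)).trans (hw1.trans ?_)
    have hI : Ip L ((c₀, Q.2) : Ω × Ω) := ⟨hip.1, hQ.2⟩
    have h5 := ev_sub_le h.ig hI hQ (r := L.nm (Q.1 - c₀)) le_rfl (by
      rw [sub_self, L.zero]
      exact L.nonneg _)
    rwa [h1, zero_sub, L.neg] at h5
  have k3 : L.nm (Q.1 - c₀) < e ^ 3 := by
    have h5 : L.nm (Q.1 - c₀) * e < e ^ 3 * e := by
      refine (k1.trans_lt h.te).trans_eq ?_
      ring
    exact lt_of_mul_lt_mul_right h5 e0.le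
  have k4 : L.nm (Q.2 - w₀) < e ^ 2 := by
    have h5 : L.nm (Q.2 - w₀) * e < e ^ 2 * e := by
      refine (k2.trans_lt k3).trans_eq ?_
      ring
    exact lt_of_mul_lt_mul_right h5 e0.le
  have e3 : e ^ 3 ≤ e ^ 1 := pow_le_pow_of_le_one e0.le e1 (by norm_num)
  have e2 : e ^ 2 ≤ e ^ 1 := pow_le_pow_of_le_one e0.le e1 (by norm_num)
  rw [pow_one] at e3 e2
  exact ⟨(c₀, w₀), hq, k3.trans_le e3, k4.trans_le e2⟩

end GM
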