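import Pool.Agent.Lib.MP_f80667_ag.Ep.Zc
import Pool.Agent.Lib.MP_f80667_ag.Gm.GpL

/-!
**DZ + PR** (EP, 2.2), for an arbitrary variety: the zeros of `b - t x` on the curve `g = 0` are near the zeros of `b`.
-/

open ZC BE PE CV IntermediateField

namespace GM

section act

variable {K Ω : Type} [Field K] [Field Ω] [Algebra K Ω] {M : IntermediateField K Ω}

/-- The action of the Galois group on the values. -/
theorem ev_act {γ : Ω ≃ₐ[K] Ω} (hγ : γ ∈ M.fixingSubgroup) {A : Polynomial (Polynomial Ω)}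
    (hA : Rm M A) (P : Ω × Ω) : γ (ev₂ P A) = ev₂ (γ P.1, γ P.2) A := by
  obtain ⟨A', rfl⟩ := exists_up hA
  have key : (γ : Ω →+* Ω).comp ((ev₂ P).comp (up₂ (algebraMap M Ω))) =
      (ev₂ (γ P.1, γ P.2)).comp (up₂ (algebraMap M Ω)) := by
    refine Polynomial.ringHom_ext' (Polynomial.ringHom_ext' (RingHom.ext fun a => ?_) ?_) ?_
    · have h1 : γ (algebraMap M Ω a) = algebraMap M Ω a :=
        (IntermediateField.mem_fixingSubgroup_iff _ γ).1 hγ _ a.2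
      simpa [up₂, ev₂] using h1
    · simp [up₂, ev₂]
    · simp [up₂, ev₂]
  exact congrArg (fun φ => φ A') key

theorem eval_act {γ : Ω ≃ₐ[K] Ω} (hγ : γ ∈ M.fixingSubgroup) {b : Polynomial Ω}
    (hb : ∀ i, b.coeff i ∈ M) (c : Ω) : γ (b.eval c) = b.eval (γ c) := by
  have h1 : Rm M (Polynomial.C b) := by
    intro i j
    rw [Polynomial.coeff_C]
    split_ifs
    · exact hb j
    · rw [Polynomial.coeff_zero]
      exact M.zero_mem
  have h2 := ev_act hγ h1 ((c, 0) : Ω × Ω)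
  have h3 : ∀ P : Ω × Ω, ev₂ P (Polynomial.C b) = b.eval P.1 := by
    intro P
    simp [ev₂]
  rwa [h3, h3] at h2

end act

variable {F : Type} [Field F] {K Ω : Type} [Field K] [CharZero K] [Field Ω] [Algebra K Ω]
  [Algebra F K] [Algebra F Ω] [IsScalarTower F K Ω] [IsAlgClosure K Ω] {L : Ld K Ω}
  {M : IntermediateField K Ω} {ρ n : ℕ} {b : Polynomial Ω} {x g : Polynomial (Polynomial Ω)}
  {t : Ω} {e : ℝ} {T : Finset (Ω × Ω)}

omit [CharZero K] in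
private theorem zd_ex [FiniteDimensional K M] (h : Zd L M ρ n g b x t e T) {q : Ω × Ω}
    (hq : q ∈ T) : ∃ Q : Ω × Ω, Ip L Q ∧
      L.nm (Q.1 - q.1) < L.nm (b.derivative.eval q.1) ∧
      L.nm (Q.2 - q.2) < L.nm (ev₂ q (dY g)) ∧ b.eval Q.1 = t * ev₂ Q x ∧ ev₂ Q g = 0 := by
  have halg : Algebra.IsAlgebraic K Ω := IsAlgClosure.isAlgebraic
  have f1 : FiniteDimensional K K⟮q.1⟯ :=
    adjoin.finiteDimensional (halg.isAlgebraic q.1).isIntegral
  have f2 : FiniteDimensional K K⟮q.2⟯ :=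
    adjoin.finiteDimensional (halg.isAlgebraic q.2).isIntegral
  obtain ⟨M', hM'⟩ : ∃ M', M' = M ⊔ (K⟮q.1⟯ ⊔ K⟮q.2⟯) := ⟨_, rfl⟩
  have fM : FiniteDimensional K M' := by
    rw [hM']
    have : FiniteDimensional K (K⟮q.1⟯ ⊔ K⟮q.2⟯ : IntermediateField K Ω) :=
      IntermediateField.finiteDimensional_sup _ _
    exact IntermediateField.finiteDimensional_sup _ _
  have hle : M ≤ M' := by
    rw [hM']
    exact le_sup_left
  have h1 : q.1 ∈ M' := by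
    rw [hM']
    exact (le_sup_left.trans le_sup_right : K⟮q.1⟯ ≤ _) (mem_adjoin_simple_self K q.1)
  have h2 : q.2 ∈ M' := by
    rw [hM']
    exact (le_sup_right.trans le_sup_right : K⟮q.2⟯ ≤ _) (mem_adjoin_simple_self K q.2)
  exact (h.zp hq).ex (fun i => hle (h.rb i)) (fun i j => hle (h.rx i j))
    (fun i j => hle (h.rg i j)) h1 h2 (hle h.mt)

open Classical in
/-- **DZ + PR.** The zeros of `b - t x` are near the zeros of `b`; the divisor of `1 - t x / b`. -/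
theorem Zd.dz [FiniteDimensional K M] (h : Zd L M ρ n g b x t e T) :
    ∃ φ : Ω × Ω → Ω × Ω,
      (∀ q ∈ T, Ip L (φ q) ∧ ev₂ (φ q) g = 0 ∧ b.eval (φ q).1 = t * ev₂ (φ q) x ∧
        L.nm ((φ q).1 - q.1) ≤ L.nm t / e ∧ L.nm ((φ q).2 - q.2) ≤ L.nm t / e ^ 2 ∧
        L.nm ((φ q).1 - q.1 - t * ev₂ q x / b.derivative.eval q.1) ≤ L.nm t ^ 2 / e ^ 3) ∧
      (∀ q ∈ T, ∀ Q, ev₂ Q g = 0 → b.eval Q.1 = t * ev₂ Q x → L.nm (Q.1 - q.1) < e →
        L.nm (Q.2 - q.2) < e → Q = φ q) ∧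
      (∀ q ∈ T, ∀ q' ∈ T, φ q = φ q' → q = q') ∧
      (∀ γ ∈ M.fixingSubgroup, ∀ q ∈ T, ((γ q.1, γ q.2) : Ω × Ω) ∈ T ∧
        φ (γ q.1, γ q.2) = (γ (φ q).1, γ (φ q).2)) ∧
      ∀ (V : Vr F) (pt : Ω × Ω → V.pt Ω), Gpm V M g (T ∪ T.image φ) pt →
        ∑ q ∈ T, (Finsupp.single (pt (φ q)) (1 : ℤ) - Finsupp.single (pt q) 1) ∈
          V.ratEq M Ω := by
  have hcl : IsAlgClosed Ω := IsAlgClosure.isAlgClosed K
  have hex : ∀ q : Ω × Ω, ∃ Q : Ω × Ω, q ∈ T → Ip L Q ∧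
      L.nm (Q.1 - q.1) < L.nm (b.derivative.eval q.1) ∧
      L.nm (Q.2 - q.2) < L.nm (ev₂ q (dY g)) ∧ b.eval Q.1 = t * ev₂ Q x ∧ ev₂ Q g = 0 := by
    intro q
    by_cases hq : q ∈ T
    · obtain ⟨Q, hQ⟩ := zd_ex h hq
      exact ⟨Q, fun _ => hQ⟩
    · exact ⟨q, fun h => absurd h hq⟩
  choose φ hφ using hex
  have e0 := h.e0
  have hcl2 : ∀ q ∈ T, L.nm ((φ q).1 - q.1) ≤ L.nm t / e ∧
      L.nm ((φ q).2 - q.2) ≤ L.nm t / e ^ 2 ∧
      L.nm ((φ q).1 - q.1 - t * ev₂ q x / b.derivative.eval q.1) ≤ L.nm t ^ 2 / e ^ 3 := by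
    intro q hq
    obtain ⟨h1, h2, h3, h4, h5⟩ := hφ q hq
    exact (h.zp hq).close h1 h2 h3 h4 h5
  have hlt : ∀ q ∈ T, L.nm ((φ q).1 - q.1) < e ∧ L.nm ((φ q).2 - q.2) < e := by
    intro q hq
    have e1 := (h.zp hq).e1
    obtain ⟨h1, h2, -⟩ := hcl2 q hq
    have e43 : e ^ 4 ≤ e ^ 3 := pow_le_pow_of_le_one e0.le e1 (by norm_num)
    have e42 : e ^ 4 ≤ e ^ 2 := pow_le_pow_of_le_one e0.le e1 (by norm_num)
    constructor
    · refine h1.trans_lt ?_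
      rw [div_lt_iff₀ e0]
      calc L.nm t < e ^ 2 := h.te.trans_le e42
        _ = e * e := by ring
    · refine h2.trans_lt ?_
      rw [div_lt_iff₀ (pow_pos e0 2)]
      calc L.nm t < e ^ 3 := h.te.trans_le e43
        _ = e * e ^ 2 := by ring
  -- uniqueness
  have huniq : ∀ q ∈ T, ∀ Q, ev₂ Q g = 0 → b.eval Q.1 = t * ev₂ Q x → L.nm (Q.1 - q.1) < e →
      L.nm (Q.2 - q.2) < e → Q = φ q := by
    intro q hq Q h1 h2 h3 h4
    obtain ⟨a1, a2, a3, a4, a5⟩ := hφ q hq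
    have e1 := (h.zp hq).e1
    have hip := h.ip hq
    have hQ : Ip L Q := by
      constructor
      · have h5 := L.add (Q.1 - q.1) q.1
        rw [sub_add_cancel] at h5
        exact h5.trans (max_le (h3.le.trans e1) hip.1)
      · have h5 := L.add (Q.2 - q.2) q.2
        rw [sub_add_cancel] at h5
        exact h5.trans (max_le (h4.le.trans e1) hip.2)
    exact (h.zp hq).uniq hQ (h3.trans_le (h.db q hq)) (h4.trans_le (h.dg q hq)) h2 h1 a1 a2 a3 a4 a5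
  -- the points of `T` are separated
  have hsep : ∀ q ∈ T, ∀ q' ∈ T, L.nm (q.1 - q'.1) < e → L.nm (q.2 - q'.2) < e → q = q' := by
    intro q hq q' hq' h1 h2
    have hz : Zbp L b x g q' 0 e := by
      have h3 := h.zp hq'
      exact ⟨h3.ib, h3.ix, h3.ig, h3.ip, h3.hb, h3.hg, h3.e0, h3.db, h3.dg, by
        rw [L.zero]
        exact pow_pos e0 4⟩
    have hd := h.db q' hq'
    have hg := h.dg q' hq'
    refine hz.uniq (h.ip hq) (h1.trans_le hd) (h2.trans_le hg) ?_ ((h.mT q).1 hq).2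
      (h.ip hq') ?_ ?_ ?_ ((h.mT q').1 hq').2
    · rw [zero_mul]
      exact ((h.mT q).1 hq).1
    · rw [sub_self, L.zero]
      exact e0.trans_le hd
    · rw [sub_self, L.zero]
      exact e0.trans_le hg
    · rw [zero_mul]
      exact ((h.mT q').1 hq').1
  have hinj : ∀ q ∈ T, ∀ q' ∈ T, φ q = φ q' → q = q' := by
    intro q hq q' hq' he
    obtain ⟨a1, a2⟩ := hlt q hq
    obtain ⟨b1, b2⟩ := hlt q' hq'
    refine hsep q hq q' hq' ?_ ?_
    · have e2 : q.1 - q'.1 = ((φ q').1 - q'.1) - ((φ q).1 - q.1) := by rw [he]; ring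
      rw [e2]
      exact (L.sub _ _).trans_lt (max_lt b1 a1)
    · have e2 : q.2 - q'.2 = ((φ q').2 - q'.2) - ((φ q).2 - q.2) := by rw [he]; ring
      rw [e2]
      exact (L.sub _ _).trans_lt (max_lt b2 a2)
  refine ⟨φ, fun q hq => ?_, huniq, hinj, fun γ hγ q hq => ?_, fun V pt hpt => ?_⟩
  · obtain ⟨h1, h2, h3, h4, h5⟩ := hφ q hq
    obtain ⟨c1, c2, c3⟩ := hcl2 q hq
    exact ⟨h1, h5, h4, c1, c2, c3⟩
  · have hq' := (h.mT q).1 hq
    have hγT : ((γ q.1, γ q.2) : Ω × Ω) ∈ T := by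
      refine (h.mT _).2 ⟨?_, ?_⟩
      · change b.eval (γ q.1) = 0
        rw [← eval_act hγ h.rb, hq'.1, map_zero]
      · rw [← ev_act hγ h.rg, hq'.2, map_zero]
    refine ⟨hγT, ?_⟩
    obtain ⟨h1, h2, h3, h4, h5⟩ := hφ q hq
    obtain ⟨c1, c2⟩ := hlt q hq
    refine (huniq _ hγT _ ?_ ?_ ?_ ?_).symm
    · rw [← ev_act hγ h.rg, h5, map_zero]
    · change b.eval (γ (φ q).1) = _
      have ht : γ t = t := (IntermediateField.mem_fixingSubgroup_iff _ γ).1 hγ _ h.mt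
      rw [← eval_act hγ h.rb, h4, map_mul, ev_act hγ h.rx, ht]
    · change L.nm (γ (φ q).1 - γ q.1) < e
      rw [← map_sub, L.act]
      exact c1
    · change L.nm (γ (φ q).2 - γ q.2) < e
      rw [← map_sub, L.act]
      exact c2
  -- the divisor
  rcases T.eq_empty_or_nonempty with hTe | hTn
  · rw [hTe, Finset.sum_empty]
    exact zero_mem _
  have ht1 := h.t1 hTn
  have hb0 := h.bd hTn
  have hev0 : ∀ P : Ω × Ω, ev₂ P (bx b x 0) = b.eval P.1 := by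
    intro P
    rw [ev_bx, zero_mul, sub_zero]
  have hzx : ∀ P : Ω × Ω, ev₂ P g = 0 → ev₂ P (bx b x t) = 0 → P ∈ T.image φ := by
    intro P h1 h2
    rw [ev_bx, sub_eq_zero] at h2
    obtain ⟨-, q, hq, h3, h4⟩ := h.near ht1 h1 h2
    rw [Finset.mem_image]
    exact ⟨q, hq, (huniq q hq P h1 h2 h3 h4).symm⟩
  have hzy : ∀ P : Ω × Ω, ev₂ P g = 0 → ev₂ P (bx b x 0) = 0 → P ∈ T := by
    intro P h1 h2
    rw [hev0] at h2
    exact (h.mT P).2 ⟨h2, h1⟩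
  have hj1 : ∀ q ∈ T, ev₂ (φ q) (dY g) ≠ 0 ∧ jac (bx b x t) g (φ q) ≠ 0 := by
    intro q hq
    obtain ⟨a1, a2, a3, a4, a5⟩ := hφ q hq
    exact (h.zp hq).jac a1 a2 a3 a4 a5
  have hz0 : ∀ q ∈ T, Zbp L b x g q 0 e := by
    intro q hq
    have h3 := h.zp hq
    exact ⟨h3.ib, h3.ix, h3.ig, h3.ip, h3.hb, h3.hg, h3.e0, h3.db, h3.dg, by
      rw [L.zero]
      exact pow_pos e0 4⟩
  have hj0 : ∀ q ∈ T, ev₂ q (dY g) ≠ 0 ∧ jac (bx b x 0) g q ≠ 0 := by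
    intro q hq
    have hd := h.db q hq
    have hg := h.dg q hq
    refine (hz0 q hq).jac (h.ip hq) ?_ ?_ ?_ ((h.mT q).1 hq).2
    · rw [sub_self, L.zero]
      exact e0.trans_le hd
    · rw [sub_self, L.zero]
      exact e0.trans_le hg
    · rw [zero_mul]
      exact ((h.mT q).1 hq).1
  have hΦ : ∀ P ∈ T ∪ T.image φ, ev₂ P g = 0 ∧ ev₂ P (dY g) ≠ 0 := by
    intro P hP
    rcases Finset.mem_union.1 hP with hP | hP
    · exact ⟨((h.mT P).1 hP).2, (hj0 P hP).1⟩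
    · obtain ⟨q, hq, rfl⟩ := Finset.mem_image.1 hP
      exact ⟨(hφ q hq).2.2.2.2, (hj1 q hq).1⟩
  have hall : ∀ P : Ω × Ω, ev₂ P g = 0 → ev₂ P (bx b x t) = 0 ∨ ev₂ P (bx b x 0) = 0 →
      P ∈ T ∪ T.image φ := by
    rintro P h1 (h2 | h2)
    · exact Finset.mem_union_right _ (hzx P h1 h2)
    · exact Finset.mem_union_left _ (hzy P h1 h2)
  have key := pr_m V h.rg (rm_bx h.rb h.rx h.mt) (rm_bx h.rb h.rx M.zero_mem) h.mc
    (ut_bx h.bm h.wx hb0 t) (ut_bx h.bm h.wx hb0 0) hΦ hall hpt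
  have hx1 : ∀ P ∈ T ∪ T.image φ, odp g P (bx b x t) = if P ∈ T.image φ then 1 else 0 := by
    intro P hP
    obtain ⟨h1, h2⟩ := hΦ P hP
    split_ifs with h3
    · obtain ⟨q, hq, rfl⟩ := Finset.mem_image.1 h3
      exact odp_one h1 h2 (by rw [ev_bx, (hφ q hq).2.2.2.1, sub_self]) (hj1 q hq).2
    · exact odp_zero h1 h2 fun h4 => h3 (hzx P h1 h4)
  have hy1 : ∀ P ∈ T ∪ T.image φ, odp g P (bx b x 0) = if P ∈ T then 1 else 0 := by
    intro P hP
    obtain ⟨h1, h2⟩ := hΦ P hP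
    split_ifs with h3
    · exact odp_one h1 h2 (by rw [hev0]; exact ((h.mT P).1 h3).1) (hj0 P h3).2
    · exact odp_zero h1 h2 fun h4 => h3 (hzy P h1 h4)
  have hsum : ∑ P ∈ T ∪ T.image φ, Finsupp.single (pt P)
      ((odp g P (bx b x t) : ℤ) - odp g P (bx b x 0)) =
      ∑ q ∈ T, (Finsupp.single (pt (φ q)) (1 : ℤ) - Finsupp.single (pt q) 1) := by
    have e1 : ∀ P ∈ T ∪ T.image φ, Finsupp.single (pt P)
        ((odp g P (bx b x t) : ℤ) - odp g P (bx b x 0)) =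
        (if P ∈ T.image φ then Finsupp.single (pt P) (1 : ℤ) else 0) -
          (if P ∈ T then Finsupp.single (pt P) (1 : ℤ) else 0) := by
      intro P hP
      rw [hx1 P hP, hy1 P hP]
      split_ifs <;> simp
    rw [Finset.sum_congr rfl e1, Finset.sum_sub_distrib, Finset.sum_sub_distrib,
      Finset.sum_ite_mem, Finset.sum_ite_mem, Finset.union_inter_cancel_right,
      Finset.union_inter_cancel_left, Finset.sum_image hinj]
  rw [hsum] at key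
  exact key

end GM
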