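import Pool.Agent.Lib.MP_f80667_ag.Ep.Ze
import Pool.Agent.Lib.MP_f80667_ag.Ep.Sc
import Pool.Agent.Lib.MP_f80667_ag.Gx.XA

/-!
The relation of the curves for branches over the integers of `M`: the common part of (2.4) and (2.5).
-/

open ZC BE PE CV IntermediateField GM

namespace GX

variable {F : Type} [Field F] {N d m : ℕ} {ι : Type} {f : ι → MvPolynomial (Fin N) F}
  {K Ω : Type} [Field K] [CharZero K] [Field Ω] [Algebra K Ω] [Algebra F K] [Algebra F Ω]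
  [IsScalarTower F K Ω] [IsAlgClosure K Ω] {L : Ld K Ω} {X : Bd f K Ω d m}
  {M : IntermediateField K Ω}

omit [CharZero K] [IsAlgClosure K Ω] in
private theorem zf_prod (S : Finset Ω) (c : Ω) :
    (∏ z ∈ S, (Polynomial.X - Polynomial.C z)).eval c = 0 ↔ c ∈ S := by
  rw [Polynomial.eval_prod, Finset.prod_eq_zero_iff]
  constructor
  · rintro ⟨z, hz, h⟩
    rw [Polynomial.eval_sub, Polynomial.eval_X, Polynomial.eval_C, sub_eq_zero] at h
    rwa [h]
  · intro h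
    exact ⟨c, h, by rw [Polynomial.eval_sub, Polynomial.eval_X, Polynomial.eval_C, sub_self]⟩

omit [CharZero K] [IsAlgClosure K Ω] in
private theorem zf_coeff {S : Finset Ω} (hS : ∀ z ∈ S, z ∈ M ∧ L.nm z ≤ 1) (j : ℕ) :
    (∏ z ∈ S, (Polynomial.X - Polynomial.C z)).coeff j ∈ M ∧
      L.nm ((∏ z ∈ S, (Polynomial.X - Polynomial.C z)).coeff j) ≤ 1 := by
  revert j
  refine Finset.prod_induction (fun c => Polynomial.X - Polynomial.C c)
    (fun q : Polynomial Ω => ∀ j, q.coeff j ∈ M ∧ L.nm (q.coeff j) ≤ 1) ?_ ?_ ?_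
  · intro p q hp hq j
    rw [Polynomial.coeff_mul]
    refine ⟨sum_mem fun x _ => M.mul_mem (hp _).1 (hq _).1, L.sum_le _ _ zero_le_one fun x _ => ?_⟩
    rw [L.mul]
    exact mul_le_one₀ (hp _).2 (L.nonneg _) (hq _).2
  · intro j
    rw [Polynomial.coeff_one]
    split_ifs
    · exact ⟨M.one_mem, L.one.le⟩
    · exact ⟨M.zero_mem, by rw [L.zero]; exact zero_le_one⟩
  · intro c hc j
    rw [Polynomial.coeff_sub, Polynomial.coeff_X, Polynomial.coeff_C]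
    have h1 : (if 1 = j then (1 : Ω) else 0) ∈ M ∧ L.nm (if 1 = j then (1 : Ω) else 0) ≤ 1 := by
      split_ifs
      · exact ⟨M.one_mem, L.one.le⟩
      · exact ⟨M.zero_mem, by rw [L.zero]; exact zero_le_one⟩
    have h2 : (if j = 0 then c else 0) ∈ M ∧ L.nm (if j = 0 then c else 0) ≤ 1 := by
      split_ifs
      · exact hS c hc
      · exact ⟨M.zero_mem, by rw [L.zero]; exact zero_le_one⟩
    exact ⟨M.sub_mem h1.1 h2.1, (L.sub _ _).trans (max_le h1.2 h2.2)⟩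

omit [CharZero K] [IsAlgClosure K Ω] in
private theorem zf_mem {y : Ω} (hG : IsGalois K Ω) (h : ∀ γ ∈ M.fixingSubgroup, γ y = y) :
    y ∈ M := by
  rw [← InfiniteGalois.fixedField_fixingSubgroup M, IntermediateField.mem_fixedField_iff]
  exact h

/-- The parameters of the displaced points. -/
def etn (X : Bd f K Ω d m) (a : Fin (d + 1) → Polynomial Ω) (η : Ω × Ω → Fin (d + 1) → Ω)
    (c' : Ω × Ω → Ω) (q : Ω × Ω) : Fin (d + 1) → Ω :=
  fun r => η q r + X.ϖ⁻¹ * ((a r).eval (c' q) - (a r).eval q.1)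

/-- **The relation of the curves for branches.** -/
theorem Bd.Ok.crx (hX : X.Ok L) [FiniteDimensional K M] {i : Fin m}
    {a : Fin (d + 1) → Polynomial Ω} (ha : Arc L M a) {ρ : ℕ} (hρ : ∀ r, (a r).natDegree ≤ ρ)
    {S : Finset Ω} (hS : ∀ z ∈ S, z ∈ M ∧ L.nm z ≤ 1) {x : Polynomial (Polynomial Ω)}
    (ix : I₂ L M x) (wx : GM.Wl ρ S.card x) {t : Ω} (mt : t ∈ M) {e : ℝ} (e0 : 0 < e)
    (eε : e ≤ X.ε) (te : L.nm t < e ^ 4) (te' : L.nm t ≤ e * L.nm X.ϖ)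
    (hm : ∀ z ∈ S, e ≤ L.nm
      ((Polynomial.derivative (∏ c ∈ S, (Polynomial.X - Polynomial.C c))).eval z))
    {T : Finset (Ω × Ω)}
    (hT : ∀ q, q ∈ T ↔ q.1 ∈ S ∧ pe (fun r => (a r).eval q.1) q.2 (X.ψ i).G = 0)
    {η : Ω × Ω → Fin (d + 1) → Ω} {β : Ω × Ω → X.B}
    (hβ : ∀ q ∈ T, Iv L M (η q) ∧ X.i (β q) = i ∧
      X.cc (β q) (η q) = (fun r => (a r).eval q.1) ∧ X.rt L (β q) (η q) = q.2) :
    ∃ c' : Ω × Ω → Ω, (∀ q ∈ T, c' q ∈ M ∧ L.nm (c' q) ≤ 1 ∧ L.nm (c' q - q.1) ≤ L.nm t / e ∧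
      L.nm (c' q - q.1 - t * ev₂ q x /
        (Polynomial.derivative (∏ c ∈ S, (Polynomial.X - Polynomial.C c))).eval q.1) ≤
          L.nm t ^ 2 / e ^ 3 ∧ Iv L M (etn X a η c' q)) ∧
      ∑ q ∈ T, (Finsupp.single (X.P (β q) (etn X a η c' q)) (1 : ℤ) -
        Finsupp.single (X.P (β q) (η q)) 1) ∈ (Xf f).ratEq M Ω := by
  classical
  rcases T.eq_empty_or_nonempty with hTe | ⟨q₀, hq₀⟩
  · refine ⟨fun _ => 0, fun q hq => ?_, ?_⟩
    · rw [hTe] at hq
      exact absurd hq (Finset.notMem_empty q)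
    · rw [hTe, Finset.sum_empty]
      exact zero_mem _
  have hcl : IsAlgClosed Ω := IsAlgClosure.isAlgClosed K
  have hn : Normal K Ω := IsAlgClosure.normal K Ω
  have hGal : IsGalois K Ω := ⟨⟩
  have hψ := hX.pk i
  have hϖ0 : X.ϖ ≠ 0 := L.ne_zero hX.ϖ0
  have hG0 : (X.ψ i).G.natDegree ≠ 0 := by
    intro h1
    have h2 := ((hT q₀).1 hq₀).2
    rw [(Polynomial.Monic.natDegree_eq_zero hψ.mon).1 h1, map_one] at h2
    exact one_ne_zero h2
  have hac : ∀ {c : Ω}, L.nm c ≤ 1 → ∀ r, L.nm ((a r).eval c) ≤ 1 := fun hc r =>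
    L.eval_le (fun i => (ha r i).2) hc
  -- every point of `S` is in a polydisc
  have hD : ∀ z ∈ S, e ≤ L.nm (MvPolynomial.aeval (fun r => (a r).eval z) (X.ψ i).D) := by
    intro z hz
    obtain ⟨w, hw⟩ : ∃ w, pe (fun r => (a r).eval z) w (X.ψ i).G = 0 := by
      obtain ⟨p, hp⟩ : ∃ p : Polynomial Ω,
          p = (ga a (X.ψ i).G).map (Polynomial.evalRingHom z) := ⟨_, rfl⟩
      have hmc := hψ.mc (a := a) hρ
      have hpd : p.degree ≠ 0 := by
        intro h1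
        have h2 := Polynomial.natDegree_eq_zero_iff_degree_le_zero.2 h1.le
        rw [hp, hmc.monic.natDegree_map, hmc.deg] at h2
        exact hG0 h2
      obtain ⟨w, hw⟩ := IsAlgClosed.exists_root p hpd
      refine ⟨w, ?_⟩
      rw [← ga_ev, ev₂_eq, ← Polynomial.map_evalRingHom_eval, ← hp]
      exact hw
    have hq : ((z, w) : Ω × Ω) ∈ T := (hT _).2 ⟨hz, hw⟩
    obtain ⟨h1, h2, h3, -⟩ := hβ _ hq
    have h4 := hX.D_cc (β (z, w)) (fun r => (h1 r).2)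
    rw [h3] at h4
    have h5 := hX.D (β (z, w))
    rw [← h4, h2] at h5
    exact eε.trans h5
  obtain ⟨T', φ, k1, k2, -, -, k5, k6⟩ := hψ.dz (M := M) ha hρ
    (b := ∏ z ∈ S, (Polynomial.X - Polynomial.C z))
    (Polynomial.monic_prod_of_monic _ _ fun c _ => Polynomial.monic_X_sub_C c)
    (zf_coeff hS) ix (by
      rw [Polynomial.natDegree_prod_of_monic _ _ fun c _ => Polynomial.monic_X_sub_C c]
      simpa using wx) mt e0 te (fun c hc => by
        rw [zf_prod] at hc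
        exact ⟨hm c hc, hD c hc⟩)
  obtain rfl : T' = T := by
    ext q
    rw [k1, hT, zf_prod]
  -- rational points
  have hfix : ∀ γ ∈ M.fixingSubgroup, ∀ y ∈ M, γ y = y := fun γ hγ y hy =>
    (IntermediateField.mem_fixingSubgroup_iff M γ).1 hγ y hy
  have hcM : ∀ q ∈ T', (φ q).1 ∈ M := by
    intro q hq
    obtain ⟨h1, h2, h3, h4⟩ := hβ q hq
    refine zf_mem hGal fun γ hγ => ?_
    have h5 : ((γ q.1, γ q.2) : Ω × Ω) = q := by
      refine Prod.ext (hfix γ hγ _ (hS _ ((hT q).1 hq).1).1) ?_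
      have h6 := (hX.rt_mem (β q) h1).1
      rw [h4] at h6
      exact hfix γ hγ _ h6
    have h6 := (k5 γ hγ q hq).2
    rw [h5] at h6
    exact (congrArg Prod.fst h6).symm
  have haM : ∀ {c : Ω}, c ∈ M → ∀ r, (a r).eval c ∈ M := by
    intro c hc r
    rw [Polynomial.eval_eq_sum_range]
    exact sum_mem fun j _ => M.mul_mem (ha r j).1 (pow_mem hc j)
  have hCa : ∀ r, In₂ L (Polynomial.C (a r)) := by
    intro r i j
    rw [Polynomial.coeff_C]
    split_ifs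
    · exact (ha r j).2
    · rw [Polynomial.coeff_zero, L.zero]
      exact zero_le_one
  have hev1 : ∀ (P : Ω × Ω) (p : Polynomial Ω), ev₂ P (Polynomial.C p) = p.eval P.1 := by
    intro P p
    simp [ev₂]
  have hΔ : ∀ q ∈ T', ∀ r, L.nm ((a r).eval (φ q).1 - (a r).eval q.1) ≤ L.nm X.ϖ := by
    intro q hq r
    obtain ⟨h1, h2, -, -, h5, -, -, -⟩ := k2 q hq
    have i1 : Ip L ((q.1, 0) : Ω × Ω) := ⟨h1.1, by rw [L.zero]; exact zero_le_one⟩
    have i2 : Ip L (((φ q).1, 0) : Ω × Ω) := ⟨h2.1, by rw [L.zero]; exact zero_le_one⟩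
    have h7 := ev_sub_le (hCa r) i1 i2 (r := L.nm t / e) h5 (by
      rw [sub_self, L.zero]
      exact div_nonneg (L.nonneg _) e0.le)
    rw [hev1, hev1] at h7
    refine h7.trans ?_
    rw [div_le_iff₀ e0, mul_comm]
    exact te'
  have hη : ∀ q ∈ T', Iv L M (etn X a η (fun q => (φ q).1) q) := by
    intro q hq r
    obtain ⟨h1, -, -, -⟩ := hβ q hq
    have hϖM : X.ϖ ∈ M := (bot_le : ⊥ ≤ M) hX.ϖm
    have hq1 : q.1 ∈ M := (hS _ ((hT q).1 hq).1).1
    refine ⟨M.add_mem (h1 r).1 (M.mul_mem (M.inv_mem hϖM)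
      (M.sub_mem (haM (hcM q hq) r) (haM hq1 r))), ?_⟩
    refine (L.add _ _).trans (max_le (h1 r).2 ?_)
    rw [L.mul, L.inv, inv_mul_le_iff₀ hX.ϖ0, mul_one]
    exact hΔ q hq r
  have hcc : ∀ q ∈ T', X.cc (β q) (etn X a η (fun q => (φ q).1) q) =
      fun r => (a r).eval (φ q).1 := by
    intro q hq
    obtain ⟨-, -, h3, -⟩ := hβ q hq
    funext r
    have h5 := congrFun h3 r
    rw [Bd.cc] at h5 ⊢
    rw [etn, mul_add, ← add_assoc, h5, ← mul_assoc, mul_inv_cancel₀ hϖ0, one_mul,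
      add_sub_cancel]
  have he1 : e ≤ 1 := eε.trans hX.ε1.le
  have hε2 : L.nm X.ϖ < X.ε ^ 2 :=
    hX.sm.trans_le (pow_le_pow_of_le_one hX.ε0.le hX.ε1.le (by norm_num))
  have hrt : ∀ q ∈ T', X.rt L (β q) (etn X a η (fun q => (φ q).1) q) = (φ q).2 := by
    intro q hq
    obtain ⟨h1, h2, h3, h4⟩ := hβ q hq
    obtain ⟨-, -, g3, -, -, g6, -, -⟩ := k2 q hq
    refine (hX.rt_uniq (β q) (fun r => (hη q hq r).2) ?_ ?_).symm
    · rw [hcc q hq, h2]
      exact g3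
    · have g7 := hX.rt_le (β q) (fun r => (h1 r).2)
      rw [h4] at g7
      have g8 : L.nm (q.2 - X.w (β q)) < X.ε := by
        have g9 : L.nm (q.2 - X.w (β q)) * X.ε < X.ε * X.ε := by
          rw [← sq]
          exact g7.trans_lt hε2
        exact lt_of_mul_lt_mul_right g9 hX.ε0.le
      have g9 : L.nm ((φ q).2 - q.2) < X.ε := by
        refine (g6.trans_lt ?_).trans_le eε
        rw [div_lt_iff₀ (pow_pos e0 2)]
        have h43 : e ^ 4 ≤ e ^ 3 := pow_le_pow_of_le_one e0.le he1 (by norm_num)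
        calc L.nm t < e ^ 3 := te.trans_le h43
          _ = e * e ^ 2 := by ring
      have e2 : (φ q).2 - X.w (β q) = ((φ q).2 - q.2) + (q.2 - X.w (β q)) := by ring
      rw [e2]
      exact (L.add _ _).trans_lt (max_lt g9 g8)
  refine ⟨fun q => (φ q).1, fun q hq => ?_, ?_⟩
  · obtain ⟨h1, h2, h3, h4, h5, h6, h7, h8⟩ := k2 q hq
    exact ⟨hcM q hq, h2.1, h5, h7, hη q hq⟩
  -- the points
  have hcu : ∀ q ∈ T', Cup f (X.ψ i) a q (X.P (β q) (η q)) := by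
    intro q hq
    obtain ⟨h1, h2, h3, h4⟩ := hβ q hq
    have h5 := hX.cop (β q) (fun r => (h1 r).2)
    rw [h2, h3, h4] at h5
    exact h5
  have hcu' : ∀ q ∈ T', Cup f (X.ψ i) a (φ q)
      (X.P (β q) (etn X a η (fun q => (φ q).1) q)) := by
    intro q hq
    obtain ⟨h1, h2, h3, h4⟩ := hβ q hq
    have h5 := hX.cop (β q) (fun r => (hη q hq r).2)
    rw [h2, hcc q hq, hrt q hq] at h5
    exact h5
  have hex : ∀ Q : Ω × Ω, ∃ p : (Xf f).pt Ω, (∃ p', Cup f (X.ψ i) a Q p') →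
      Cup f (X.ψ i) a Q p := by
    intro Q
    by_cases h1 : ∃ p', Cup f (X.ψ i) a Q p'
    · obtain ⟨p, hp⟩ := h1
      exact ⟨p, fun _ => hp⟩
    · exact ⟨X.P (β q₀) (η q₀), fun h2 => absurd h2 h1⟩
  choose P hP using hex
  have hP1 : ∀ q ∈ T', P q = X.P (β q) (η q) := fun q hq =>
    co_eq (hP q ⟨_, hcu q hq⟩) (hcu q hq)
  have hP2 : ∀ q ∈ T', P (φ q) = X.P (β q) (etn X a η (fun q => (φ q).1) q) := fun q hq =>
    co_eq (hP (φ q) ⟨_, hcu' q hq⟩) (hcu' q hq)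
  have h := k6 P fun q hq => ⟨hP q ⟨_, hcu q hq⟩, hP (φ q) ⟨_, hcu' q hq⟩⟩
  have hsum : ∑ q ∈ T', (Finsupp.single (P (φ q)) (1 : ℤ) - Finsupp.single (P q) 1) =
      ∑ q ∈ T', (Finsupp.single (X.P (β q) (etn X a η (fun q => (φ q).1) q)) (1 : ℤ) -
        Finsupp.single (X.P (β q) (η q)) 1) :=
    Finset.sum_congr rfl fun q hq => by rw [hP1 q hq, hP2 q hq]
  rw [← hsum]
  exact h

end GX
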