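import Pool.Agent.Lib.MP_f80667_ag.Ep.Zf
import Pool.Agent.Lib.MP_f80667_ag.Ep.B
import Pool.Agent.Lib.MP_f80667_ag.Lv.Tr

/-!
Tools for (2.4) and (2.5): the finite set of the points over `S`; the division of `G (γ, Y)` by `Y - w`; sums of displacements.
-/

open ZC BE PE CV IntermediateField GM

namespace GX

section pts

variable {F : Type} [Field F] {N d : ℕ} {ι : Type} {f : ι → MvPolynomial (Fin N) F} {K Ω : Type}
  [Field K] [Field Ω] [Algebra K Ω] [Algebra F K] [Algebra F Ω] [IsScalarTower F K Ω]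
  {L : Ld K Ω} {ψ : Prj K N d} {M : IntermediateField K Ω}

/-- The points over `S`. -/
theorem Pk.ex_T (hψ : Pk f L ψ) (a : Fin (d + 1) → Polynomial Ω) (S : Finset Ω) :
    ∃ T : Finset (Ω × Ω), ∀ q, q ∈ T ↔ q.1 ∈ S ∧ pe (fun r => (a r).eval q.1) q.2 ψ.G = 0 := by
  classical
  refine ⟨S.biUnion fun c =>
    (((ga a ψ.G).map (Polynomial.evalRingHom c)).roots.toFinset).image fun w => (c, w),
    fun q => ?_⟩
  have hm : (ga a ψ.G).Monic := hψ.mon.map _
  have hpe : ∀ c w : Ω, ((ga a ψ.G).map (Polynomial.evalRingHom c)).eval w =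
      pe (fun r => (a r).eval c) w ψ.G := by
    intro c w
    rw [Polynomial.map_evalRingHom_eval, ← ga_ev, ev₂_eq]
  rw [Finset.mem_biUnion]
  constructor
  · rintro ⟨c, hc, hq⟩
    obtain ⟨w, hw, rfl⟩ := Finset.mem_image.1 hq
    refine ⟨hc, ?_⟩
    have h1 := (Polynomial.mem_roots'.1 (Multiset.mem_toFinset.1 hw)).2
    rw [Polynomial.IsRoot, hpe] at h1
    exact h1
  · rintro ⟨h1, h2⟩
    refine ⟨q.1, h1, ?_⟩
    refine Finset.mem_image.2 ⟨q.2, Multiset.mem_toFinset.2 (Polynomial.mem_roots'.2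
      ⟨(hm.map _).ne_zero, ?_⟩), rfl⟩
    rw [Polynomial.IsRoot, hpe]
    exact h2

/-- The division of `G (c, Y)` by `Y - w`. -/
theorem Pk.quot (hψ : Pk f L ψ) {c : Fin (d + 1) → Ω} (hc : Iv L M c) {w : Ω} (hw : w ∈ M)
    (hG : pe c w ψ.G = 0) : ∃ q : Polynomial Ω, (∀ j, q.coeff j ∈ M ∧ L.nm (q.coeff j) ≤ 1) ∧
      (∀ j, q.coeff j ≠ 0 → j ≤ ψ.G.natDegree - 1) ∧
      q.eval w = pe c w (Polynomial.derivative ψ.G) ∧
      ∀ w', w' ≠ w → pe c w' ψ.G = 0 → q.eval w' = 0 := by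
  obtain ⟨p, hp⟩ : ∃ p : Polynomial Ω,
      p = ψ.G.map (MvPolynomial.aeval c : MvPolynomial (Fin (d + 1)) K →ₐ[K] Ω).toRingHom :=
    ⟨_, rfl⟩
  have hpe : ∀ w, p.eval w = pe c w ψ.G := by
    intro w
    rw [hp, Polynomial.eval_map]
    rfl
  have hpd : ∀ w, p.derivative.eval w = pe c w (Polynomial.derivative ψ.G) := by
    intro w
    rw [hp, Polynomial.derivative_map, Polynomial.eval_map]
    rfl
  have hpm : p.Monic := by
    rw [hp]
    exact hψ.mon.map _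
  have hpn : p.natDegree = ψ.G.natDegree := by
    rw [hp]
    exact hψ.mon.natDegree_map _
  have hpc : ∀ j, p.coeff j ∈ M ∧ L.nm (p.coeff j) ≤ 1 := by
    intro j
    rw [hp, Polynomial.coeff_map]
    exact ⟨aev_mem _ fun r => (hc r).1, ae_le (hψ.iG j) fun r => (hc r).2⟩
  have hw1 : L.nm w ≤ 1 := L.root_le hpm (fun j => (hpc j).2) (by rw [hpe]; exact hG)
  have hr : p.IsRoot w := by
    rw [Polynomial.IsRoot, hpe]
    exact hG
  obtain ⟨q, hq⟩ : ∃ q, q = p /ₘ (Polynomial.X - Polynomial.C w) := ⟨_, rfl⟩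
  have hpq : (Polynomial.X - Polynomial.C w) * q = p := by
    rw [hq]
    exact Polynomial.mul_divByMonic_eq_iff_isRoot.2 hr
  refine ⟨q, fun j => ?_, fun j hj => ?_, ?_, fun w' hne hw' => ?_⟩
  · rw [hq, Polynomial.coeff_divByMonic_X_sub_C]
    refine ⟨sum_mem fun i _ => M.mul_mem (pow_mem hw _) (hpc i).1,
      L.sum_le _ _ zero_le_one fun i _ => ?_⟩
    rw [L.mul, L.pow]
    exact mul_le_one₀ (pow_le_one₀ (L.nonneg _) hw1) (L.nonneg _) (hpc i).2
  · have h1 := Polynomial.le_natDegree_of_ne_zero hj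
    rw [hq, Polynomial.natDegree_divByMonic _ (Polynomial.monic_X_sub_C w),
      Polynomial.natDegree_X_sub_C, hpn] at h1
    exact h1
  · rw [← hpd, ← hpq, Polynomial.derivative_mul, Polynomial.derivative_X_sub_C]
    simp
  · have h1 : p.eval w' = 0 := by rw [hpe]; exact hw'
    rw [← hpq, Polynomial.eval_mul, Polynomial.eval_sub, Polynomial.eval_X,
      Polynomial.eval_C] at h1
    exact (mul_eq_zero.1 h1).resolve_left (sub_ne_zero.2 hne)

end pts

section tay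

variable {K Ω : Type} [Field K] [Field Ω] [Algebra K Ω] {L : Ld K Ω} {M : IntermediateField K Ω}

/-- Polynomials in one variable are Lipschitz. -/
theorem zl_sub {b : Polynomial Ω} (ib : ∀ i, L.nm (b.coeff i) ≤ 1) {c c' : Ω}
    (hc : L.nm c ≤ 1) (hc' : L.nm c' ≤ 1) : L.nm (b.eval c' - b.eval c) ≤ L.nm (c' - c) := by
  have h1 : In₂ L (Polynomial.C b) := by
    intro i j
    rw [Polynomial.coeff_C]
    split_ifs
    · exact ib j
    · rw [Polynomial.coeff_zero, L.zero]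
      exact zero_le_one
  have hC : ∀ P : Ω × Ω, ev₂ P (Polynomial.C b) = b.eval P.1 := by
    intro P
    simp [ev₂]
  have hP : Ip L ((c, 0) : Ω × Ω) := ⟨hc, by rw [L.zero]; exact zero_le_one⟩
  have hQ : Ip L ((c', 0) : Ω × Ω) := ⟨hc', by rw [L.zero]; exact zero_le_one⟩
  have h := ev_sub_le h1 hP hQ (r := L.nm (c' - c)) le_rfl (by
    rw [sub_self, L.zero]
    exact L.nonneg _)
  rwa [hC, hC] at h

/-- Taylor for polynomials in one variable. -/
theorem zl_tay {b : Polynomial Ω} (ib : ∀ i, L.nm (b.coeff i) ≤ 1) {c c' : Ω}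
    (hc : L.nm c ≤ 1) (hc' : L.nm c' ≤ 1) :
    L.nm (b.eval c' - b.eval c - b.derivative.eval c * (c' - c)) ≤ L.nm (c' - c) ^ 2 := by
  have h1 : In₂ L (Polynomial.C b) := by
    intro i j
    rw [Polynomial.coeff_C]
    split_ifs
    · exact ib j
    · rw [Polynomial.coeff_zero, L.zero]
      exact zero_le_one
  have hC : ∀ (P : Ω × Ω) (q : Polynomial Ω), ev₂ P (Polynomial.C q) = q.eval P.1 := by
    intro P q
    simp [ev₂]
  have hP : Ip L ((c, 0) : Ω × Ω) := ⟨hc, by rw [L.zero]; exact zero_le_one⟩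
  have hQ : Ip L ((c', 0) : Ω × Ω) := ⟨hc', by rw [L.zero]; exact zero_le_one⟩
  have h := tay_nm h1 hP hQ (r := L.nm (c' - c)) le_rfl (by
    rw [sub_self, L.zero]
    exact L.nonneg _)
  rwa [hC, hC, dZ_C, hC, sub_self, mul_zero, add_zero] at h

theorem zl_mem {b : Polynomial Ω} (ib : ∀ i, b.coeff i ∈ M) {c : Ω} (hc : c ∈ M) :
    b.eval c ∈ M := by
  rw [Polynomial.eval_eq_sum_range]
  exact sum_mem fun j _ => M.mul_mem (ib j) (pow_mem hc j)

theorem zl_der {b : Polynomial Ω} (ib : ∀ i, b.coeff i ∈ M ∧ L.nm (b.coeff i) ≤ 1) (i : ℕ) :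
    b.derivative.coeff i ∈ M ∧ L.nm (b.derivative.coeff i) ≤ 1 := by
  rw [Polynomial.coeff_derivative]
  have h1 : ((i : Ω) + 1) = ((i + 1 : ℕ) : Ω) := by push_cast; ring
  rw [h1]
  refine ⟨M.mul_mem (ib _).1 (_root_.natCast_mem M (i + 1)), ?_⟩
  rw [L.mul]
  exact mul_le_one₀ (ib _).2 (L.nonneg _) (L.nat_le _)

theorem zl_le {b : Polynomial Ω} (ib : ∀ i, L.nm (b.coeff i) ≤ 1) {c : Ω} (hc : L.nm c ≤ 1) :
    L.nm (b.eval c) ≤ 1 := L.eval_le ib hc

end tay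

section vb

variable {F : Type} [Field F] {K Ω : Type} [Field K] [CharZero K] [Field Ω] [Algebra K Ω]
  [Algebra F K] [Algebra F Ω] [IsScalarTower F K Ω] [IsAlgClosure K Ω] {L : Ld K Ω} {V : Vr F}
  [Hf V] {σ B : Type} {P : B → (σ → Ω) → V.pt Ω} {M : IntermediateField K Ω} {π : Ω}

/-- A sum of displacements over `M` which is small over `M`. -/
theorem Bs.sum_vb (hB : Bs L P) (hM : Um L M) {κ : Type} {s : Finset κ} {β : κ → B}
    {h g : κ → σ → Ω} (hh : ∀ k ∈ s, Iv L M (h k)) (hg : ∀ k ∈ s, Iv L M (g k)) {n : ℕ}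
    (hz : ∑ k ∈ s, (Finsupp.single (P (β k) (g k)) 1 -
      Finsupp.single (P (β k) (h k)) 1 : V.pt Ω →₀ ℤ) ∈
        Dsp L V (nb L P (L.nm π ^ n)) M ⊔ V.ratEq M Ω) :
    ∑ k ∈ s, dvb P M (β k) (h k) (g k) ∈ Vb L P π n := by
  have hfd : FiniteDimensional K M := hM.fd
  have h1 : ∑ k ∈ s, dvb P M (β k) (h k) (g k) = Nm (⊥ : IntermediateField K Ω) M
      (∑ k ∈ s, (Finsupp.single (P (β k) (g k)) 1 -
        Finsupp.single (P (β k) (h k)) 1 : V.pt Ω →₀ ℤ)) := by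
    rw [nm_sum' bot_le]
    rfl
  rw [h1]
  refine vb_sup hM hz ?_
  intro γ hγ
  rw [Finset.smul_sum]
  refine Finset.sum_congr rfl fun k hk => ?_
  exact ((fx_single (hB.fp (hg k hk)) 1).sub (fx_single (hB.fp (hh k hk)) 1)) γ hγ

end vb

end GX
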