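import Pool.Agent.Lib.MP_f80667_ag.Ep.Zg
import Pool.Agent.Lib.MP_f80667_ag.Ep.K

/-!
The relation of the curves modulo `V (n + 1)`, in each branch alone (EP, 2.4).
-/

open ZC BE PE CV IntermediateField GM

namespace GX

section real

private theorem zh_real {E W P N T : ℝ} (hE : 0 < E) (hEP : E ≤ P) (hP : P < 1) (hW : 0 < W)
    (hWE : W < E ^ 12) (hN0 : 0 ≤ N) (hN : N ≤ E ^ 6 * W) (hT0 : 0 ≤ T) (hT : T * E ≤ N) :
    T < E ^ 4 ∧ T ≤ E * W ∧ T ^ 2 / E ^ 3 ≤ N * P ∧ T * W / E ≤ N * P ∧ (T / E) ^ 2 ≤ N * P := by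
  have hE1 : E < 1 := hEP.trans_lt hP
  have hW1 : W < 1 := hWE.trans (pow_lt_one₀ hE.le hE1 (by norm_num))
  have hT' : T ≤ N / E := by rwa [le_div_iff₀ hE]
  have hNE : N / E ≤ E ^ 5 * W := by
    rw [div_le_iff₀ hE]
    calc N ≤ E ^ 6 * W := hN
      _ = E ^ 5 * W * E := by ring
  have h5 : T ≤ E ^ 5 * W := hT'.trans hNE
  have hE54 : E ^ 5 ≤ E ^ 4 := pow_le_pow_of_le_one hE.le hE1.le (by norm_num)
  have hE51 : E ^ 5 ≤ E := by
    have := pow_le_pow_of_le_one hE.le hE1.le (show 1 ≤ 5 by norm_num)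
    rwa [pow_one] at this
  have hEW : E * W ≤ P := by
    calc E * W ≤ E * 1 := mul_le_mul_of_nonneg_left hW1.le hE.le
      _ ≤ P := by rw [mul_one]; exact hEP
  have hTT : T ^ 2 ≤ N ^ 2 / E ^ 2 := by
    have := pow_le_pow_left₀ hT0 hT' 2
    rwa [div_pow] at this
  have hNN : N ^ 2 ≤ N * (E ^ 6 * W) := by
    rw [sq]
    exact mul_le_mul_of_nonneg_left hN hN0
  refine ⟨?_, ?_, ?_, ?_, ?_⟩
  · calc T ≤ E ^ 5 * W := h5
      _ < E ^ 5 * 1 := mul_lt_mul_of_pos_left hW1 (pow_pos hE 5)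
      _ ≤ E ^ 4 := by rw [mul_one]; exact hE54
  · exact h5.trans (mul_le_mul_of_nonneg_right hE51 hW.le)
  · rw [div_le_iff₀ (pow_pos hE 3)]
    calc T ^ 2 ≤ N ^ 2 / E ^ 2 := hTT
      _ ≤ N * (E ^ 6 * W) / E ^ 2 := div_le_div_of_nonneg_right hNN (pow_nonneg hE.le 2)
      _ = N * (E * W) * E ^ 3 := by
          field_simp
      _ ≤ N * P * E ^ 3 := mul_le_mul_of_nonneg_right (mul_le_mul_of_nonneg_left hEW hN0)
          (pow_nonneg hE.le 3)
  · rw [div_le_iff₀ hE]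
    have h6 : W ≤ E * (P * E) := by
      have h7 : E ^ 12 ≤ E ^ 3 := pow_le_pow_of_le_one hE.le hE1.le (by norm_num)
      calc W ≤ E ^ 3 := hWE.le.trans h7
        _ = E * (E * E) := by ring
        _ ≤ E * (P * E) := mul_le_mul_of_nonneg_left (mul_le_mul_of_nonneg_right hEP hE.le) hE.le
    calc T * W ≤ T * (E * (P * E)) := mul_le_mul_of_nonneg_left h6 hT0
      _ = (T * E) * (P * E) := by ring
      _ ≤ N * (P * E) := mul_le_mul_of_nonneg_right hT (mul_nonneg (hE.le.trans hEP) hE.le)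
      _ = N * P * E := by ring
  · rw [div_pow, div_le_iff₀ (pow_pos hE 2)]
    calc T ^ 2 ≤ N ^ 2 / E ^ 2 := hTT
      _ ≤ N * (E ^ 6 * W) / E ^ 2 := div_le_div_of_nonneg_right hNN (pow_nonneg hE.le 2)
      _ = N * (E * W) * E ^ 3 := by
          field_simp
      _ ≤ N * P * E ^ 3 := mul_le_mul_of_nonneg_right (mul_le_mul_of_nonneg_left hEW hN0)
          (pow_nonneg hE.le 3)
      _ ≤ N * P * E ^ 2 := mul_le_mul_of_nonneg_left
          (pow_le_pow_of_le_one hE.le hE1.le (by norm_num)) (mul_nonneg hN0 (hE.le.trans hEP))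

end real

variable {F : Type} [Field F] {N d m : ℕ} {ι : Type} {f : ι → MvPolynomial (Fin N) F}
  {K Ω : Type} [Field K] [CharZero K] [Field Ω] [Algebra K Ω] [Algebra F K] [Algebra F Ω]
  [IsScalarTower F K Ω] [IsAlgClosure K Ω] {L : Ld K Ω} {X : Bd f K Ω d m} {π : Ω}

omit [IsAlgClosure K Ω] in
/-- `p` is not bigger than the uniformizer. -/
theorem Uf.p_le (hπ : Uf L π) : L.nm (L.p : Ω) ≤ L.nm π := by
  have h0 : (L.p : K) ≠ 0 := Nat.cast_ne_zero.2 L.pp.ne_zero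
  obtain ⟨k, hk⟩ := hπ.val (L.p : K) h0
  rw [map_natCast] at hk
  have h1 := L.lt
  rw [hk] at h1 ⊢
  have hk1 : 1 ≤ k := by
    by_contra h2
    push Not at h2
    have h3 : k ≤ 0 := by omega
    have h4 : (1 : ℝ) ≤ L.nm π ^ k := one_le_zpow_of_nonpos₀ hπ.pos hπ.lt.le h3
    exact absurd h1 (not_lt.2 h4)
  calc L.nm π ^ k ≤ L.nm π ^ (1 : ℤ) := zpow_le_zpow_right_of_le_one₀ hπ.pos hπ.lt.le hk1
    _ = L.nm π := zpow_one _

/-- **The relation of the curves modulo `V (n + 1)`.** -/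
theorem Bd.Ok.crm (hX : X.Ok L) (hB : Bs L X.P) (hπ : Uf L π) {D : ℕ}
    (hD : ∀ i, (X.ψ i).G.natDegree - 1 ≤ D) (ρ : ℕ) :
    ∃ n₀, ∀ n, n₀ ≤ n → Crm L X.P π n D ρ := by
  classical
  have hε0 := hX.ε0
  have hε1 := hX.ε1
  have hϖ0 : X.ϖ ≠ 0 := L.ne_zero hX.ϖ0
  obtain ⟨n₀, hn₀⟩ := exists_pow_lt_of_lt_one (mul_pos (pow_pos hε0 6) hX.ϖ0) hπ.lt
  refine ⟨n₀, fun n hn M hM β hβ hρ b S hS hU hDS τ hτ hτ1 => ?_⟩
  have hfd : FiniteDimensional K M := hM.fd
  have hψ := hX.pk (X.i b)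
  have hϖM : X.ϖ ∈ M := (bot_le : ⊥ ≤ M) hX.ϖm
  have hϖ1 : L.nm X.ϖ ≤ 1 := hX.sm.le.trans (pow_le_one₀ hε0.le hε1.le)
  have hN : L.nm π ^ n ≤ X.ε ^ 6 * L.nm X.ϖ := (hπ.pow_le hn).trans hn₀.le
  have hγM : Iv L M (X.γ b) := fun r => ⟨(bot_le : ⊥ ≤ M) (hX.iv b r).1, (hX.iv b r).2⟩
  have hwM : X.w b ∈ M := (bot_le : ⊥ ≤ M) (hX.wm b)
  -- the function
  obtain ⟨u, u1, u2, u3, u4⟩ := hψ.quot hγM hwM (hX.root b)
  obtain ⟨κ, hκ⟩ : ∃ κ, κ = pe (X.γ b) (X.w b) (Polynomial.derivative (X.ψ (X.i b)).G) := ⟨_, rfl⟩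
  have hκε : X.ε ≤ L.nm κ := by
    rw [hκ]
    exact hX.gy b
  have hκ0 : κ ≠ 0 := L.ne_zero (hε0.trans_le hκε)
  have hκM : κ ∈ M := by
    rw [hκ]
    exact pe_mem _ (fun r => (hγM r).1) hwM
  rw [← hκ] at u3
  obtain ⟨x, hx⟩ : ∃ x : Polynomial (Polynomial Ω),
      x = Polynomial.C (Polynomial.C τ) * u.map Polynomial.C := ⟨_, rfl⟩
  have hxc : ∀ j, x.coeff j = Polynomial.C (τ * u.coeff j) := by
    intro j
    rw [hx, Polynomial.coeff_C_mul, Polynomial.coeff_map, ← Polynomial.C_mul]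
  have hxe : ∀ P : Ω × Ω, ev₂ P x = τ * u.eval P.2 := by
    intro P
    have h1 : ev₂ P (u.map Polynomial.C) = u.eval P.2 := by
      rw [ev₂_eq, ← Polynomial.map_evalRingHom_eval, Polynomial.map_map]
      have h2 : (Polynomial.evalRingHom P.1).comp Polynomial.C = RingHom.id Ω := by
        ext a
        simp
      rw [h2, Polynomial.map_id]
    rw [hx, map_mul, h1]
    simp [ev₂]
  have ix : I₂ L M x := by
    intro i j
    rw [hxc, Polynomial.coeff_C]
    split_ifs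
    · refine ⟨M.mul_mem hτ (u1 i).1, ?_⟩
      rw [L.mul]
      exact mul_le_one₀ hτ1 (L.nonneg _) (u1 i).2
    · exact ⟨M.zero_mem, by rw [L.zero]; exact zero_le_one⟩
  have wx : GM.Wl ρ S.card x := by
    intro j hj
    rw [hxc] at hj ⊢
    rw [Polynomial.natDegree_C, zero_add]
    have h1 : u.coeff j ≠ 0 := by
      intro h2
      rw [h2, mul_zero, Polynomial.C_0] at hj
      exact hj rfl
    exact (Nat.mul_le_mul_right ρ ((u2 j h1).trans (hD _))).trans_lt hDS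
  -- the arc
  obtain ⟨a, haa⟩ : ∃ a : Fin (d + 1) → Polynomial Ω,
      a = fun r => Polynomial.C (X.γ b r) + Polynomial.C X.ϖ * β r := ⟨_, rfl⟩
  have hae : ∀ c r, (a r).eval c = X.γ b r + X.ϖ * (β r).eval c := by
    intro c r
    rw [haa]
    simp
  have ha : Arc L M a := by
    intro r j
    rw [haa]
    simp only [Polynomial.coeff_add, Polynomial.coeff_C_mul]
    have h1 : (Polynomial.C (X.γ b r)).coeff j ∈ M ∧
        L.nm ((Polynomial.C (X.γ b r)).coeff j) ≤ 1 := by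
      rw [Polynomial.coeff_C]
      split_ifs
      · exact hγM r
      · exact ⟨M.zero_mem, by rw [L.zero]; exact zero_le_one⟩
    refine ⟨M.add_mem h1.1 (M.mul_mem hϖM (hβ r j).1), (L.add _ _).trans (max_le h1.2 ?_)⟩
    rw [L.mul]
    exact mul_le_one₀ hϖ1 (L.nonneg _) (hβ r j).2
  have haρ : ∀ r, (a r).natDegree ≤ ρ := by
    intro r
    rw [haa]
    refine (Polynomial.natDegree_add_le _ _).trans (max_le ?_ ?_)
    · rw [Polynomial.natDegree_C]
      exact Nat.zero_le _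
    · exact (Polynomial.natDegree_C_mul_le _ _).trans (hρ r)
  obtain ⟨t, ht⟩ : ∃ t, t = π ^ n / κ := ⟨_, rfl⟩
  have htM : t ∈ M := by
    rw [ht]
    exact M.div_mem (pow_mem (hπ.mem M) n) hκM
  have htn : L.nm t * X.ε ≤ L.nm π ^ n := by
    rw [ht, L.div, L.pow, div_mul_eq_mul_div, div_le_iff₀ (hε0.trans_le hκε)]
    exact mul_le_mul_of_nonneg_left hκε (pow_nonneg hπ.pos.le n)
  obtain ⟨r1, r2, r3, r4, r5⟩ := zh_real hε0 (hX.εp.trans hπ.p_le) hπ.lt hX.ϖ0 hX.sm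
    (pow_nonneg hπ.pos.le n) hN (L.nonneg t) htn
  have hpow : L.nm π ^ n * L.nm π = L.nm π ^ (n + 1) := (pow_succ _ _).symm
  rw [hpow] at r3 r4 r5
  -- the branches
  obtain ⟨T, hT⟩ := hψ.ex_T a S
  obtain ⟨η, hη⟩ : ∃ η : Ω × Ω → Fin (d + 1) → Ω, η = fun q r => (β r).eval q.1 := ⟨_, rfl⟩
  have hβl : ∀ {c : Ω}, L.nm c ≤ 1 → ∀ r, L.nm ((β r).eval c) ≤ 1 := fun hc r =>
    zl_le (fun i => (hβ r i).2) hc
  have hβM : ∀ {c : Ω}, c ∈ M → ∀ r, (β r).eval c ∈ M := fun hc r =>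
    zl_mem (fun i => (hβ r i).1) hc
  have hηI : ∀ q ∈ T, Iv L M (η q) := by
    intro q hq r
    have h1 := hS _ ((hT q).1 hq).1
    rw [hη]
    exact ⟨hβM h1.1 r, hβl h1.2 r⟩
  have hcc : ∀ q : Ω × Ω, X.cc b (η q) = fun r => (a r).eval q.1 := by
    intro q
    funext r
    rw [hae, hη, Bd.cc]
  have hex : ∀ q : Ω × Ω, ∃ b' : X.B, (q.2 = X.rt L b (η q) → b' = b) ∧ (q ∈ T →
      X.i b' = X.i b ∧ X.γ b' = X.γ b ∧ q.2 = X.rt L b' (η q)) := by
    intro q
    by_cases h1 : q.2 = X.rt L b (η q)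
    · exact ⟨b, fun _ => rfl, fun _ => ⟨rfl, rfl, h1⟩⟩
    · by_cases h2 : q ∈ T
      · have h3 := ((hT q).1 h2).2
        rw [← hcc] at h3
        obtain ⟨b', k1, k2, k3⟩ := hX.rt_all b (fun r => (hηI q h2 r).2) h3
        exact ⟨b', fun h => absurd h h1, fun _ => ⟨k1, k2, k3⟩⟩
      · exact ⟨b, fun _ => rfl, fun h => absurd h h2⟩
  choose B hB1 hB2 using hex
  have hccB : ∀ q ∈ T, X.cc (B q) (η q) = fun r => (a r).eval q.1 := by
    intro q hq
    rw [← hcc]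
    funext r
    rw [Bd.cc, Bd.cc, (hB2 q hq).2.1]
  obtain ⟨c', k1, k2⟩ := hX.crx (i := X.i b) ha haρ hS ix wx htM hε0 le_rfl r1 r2
    (fun z hz => by
      rw [nm_der hU hz]
      exact hε1.le) hT (η := η) (β := B)
    (fun q hq => ⟨hηI q hq, (hB2 q hq).1, hccB q hq, (hB2 q hq).2.2.symm⟩)
  -- the parameters of the displaced points
  have hetn : ∀ q r, etn X a η c' q r = (β r).eval (c' q) := by
    intro q r
    rw [etn, hae, hae, hη]
    field_simp
    ring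
  obtain ⟨mm, hmm⟩ : ∃ mm : Ω → Ω, ∀ c, mm c = (Polynomial.derivative
      (∏ c ∈ S, (Polynomial.X - Polynomial.C c))).eval c := ⟨_, fun _ => rfl⟩
  have hmm1 : ∀ c ∈ S, L.nm (mm c) = 1 := by
    intro c hc
    rw [hmm]
    exact nm_der hU hc
  have hmmM : ∀ c ∈ S, mm c ∈ M := by
    intro c hc
    rw [hmm, ← Finset.mul_prod_erase S (fun c => Polynomial.X - Polynomial.C c) hc,
      Polynomial.derivative_mul, Polynomial.derivative_X_sub_C, one_mul, Polynomial.eval_add,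
      Polynomial.eval_mul, Polynomial.eval_sub, Polynomial.eval_X, Polynomial.eval_C, sub_self,
      zero_mul, add_zero, Polynomial.eval_prod]
    refine prod_mem fun z hz => ?_
    rw [Polynomial.eval_sub, Polynomial.eval_X, Polynomial.eval_C]
    exact M.sub_mem (hS c hc).1 (hS z (Finset.mem_of_mem_erase hz)).1
  have hI : ∀ q ∈ T, L.nm q.1 ≤ 1 := fun q hq => (hS _ ((hT q).1 hq).1).2
  have hqw : ∀ q ∈ T, L.nm (q.2 - X.w (B q)) ≤ L.nm X.ϖ / X.ε ∧ L.nm q.2 ≤ 1 := by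
    intro q hq
    have h1 := hX.rt_le (B q) (fun r => (hηI q hq r).2)
    have h2 := hX.rt_mem (B q) (hηI q hq)
    rw [← (hB2 q hq).2.2] at h1 h2
    exact ⟨by rwa [le_div_iff₀ hε0], h2.2⟩
  have hwB : ∀ q, L.nm (X.w (B q)) ≤ 1 := fun q => hX.wl _
  have hu : ∀ {y y' : Ω}, L.nm y ≤ 1 → L.nm y' ≤ 1 →
      L.nm (u.eval y' - u.eval y) ≤ L.nm (y' - y) := fun h1 h2 =>
    zl_sub (fun i => (u1 i).2) h1 h2
  -- the other branches move less
  have hsm : ∀ q ∈ T, q.2 ≠ X.rt L b (η q) → ∀ r,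
      L.nm (etn X a η c' q r - η q r) ≤ L.nm π ^ (n + 1) := by
    intro q hq hne r
    obtain ⟨e1, e2, e3⟩ := hB2 q hq
    have hw : X.w (B q) ≠ X.w b := by
      intro h1
      apply hne
      refine hX.rt_uniq b (fun r => (hηI q hq r).2) ?_ ?_
      · rw [hcc]
        exact ((hT q).1 hq).2
      · rw [← h1]
        have h2 : L.nm X.ϖ / X.ε < X.ε := by
          rw [div_lt_iff₀ hε0, ← sq]
          exact hX.sm.trans_le (pow_le_pow_of_le_one hε0.le hε1.le (by norm_num))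
        exact (hqw q hq).1.trans_lt h2
    have hq0 : u.eval (X.w (B q)) = 0 := by
      refine u4 _ hw ?_
      have h1 := hX.root (B q)
      rw [e1, e2] at h1
      exact h1
    have hxs : L.nm (ev₂ q x) ≤ L.nm X.ϖ / X.ε := by
      rw [hxe, L.mul]
      refine (mul_le_of_le_one_left (L.nonneg _) hτ1).trans ?_
      have h1 := hu (hwB q) (hqw q hq).2
      rw [hq0, sub_zero] at h1
      exact h1.trans (hqw q hq).1
    obtain ⟨k3, k4, -, k6, -⟩ := k1 q hq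
    rw [← hmm] at k6
    have hcq : L.nm (c' q - q.1) ≤ L.nm π ^ (n + 1) := by
      have e4 : c' q - q.1 = (c' q - q.1 - t * ev₂ q x / mm q.1) + t * ev₂ q x / mm q.1 := by
        ring
      rw [e4]
      refine (L.add _ _).trans (max_le (k6.trans r3) ?_)
      rw [L.div, hmm1 _ ((hT q).1 hq).1, div_one, L.mul]
      refine (mul_le_mul_of_nonneg_left hxs (L.nonneg _)).trans ?_
      rw [← mul_div_assoc]
      exact r4
    rw [hetn, hη]
    exact (zl_sub (fun i => (hβ r i).2) (hI q hq) k4).trans hcq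
  -- the branch `b`
  obtain ⟨g, hg⟩ : ∃ g : Ω → Fin (d + 1) → Ω, ∀ c r, g c r = (β r).eval c +
      π ^ n * (τ / mm c) * (Polynomial.derivative (β r)).eval c := ⟨_, fun _ _ => rfl⟩
  have hbr : ∀ q ∈ T, q.2 = X.rt L b (η q) → ∀ r,
      L.nm (g q.1 r - etn X a η c' q r) ≤ L.nm π ^ (n + 1) := by
    intro q hq hqb r
    have hBq := hB1 q hqb
    obtain ⟨k3, k4, k5, k6, -⟩ := k1 q hq
    rw [← hmm] at k6
    have hxs : L.nm (ev₂ q x - τ * κ) ≤ L.nm X.ϖ / X.ε := by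
      rw [hxe, ← mul_sub, L.mul]
      refine (mul_le_of_le_one_left (L.nonneg _) hτ1).trans ?_
      have h1 := hu (hwB q) (hqw q hq).2
      rw [hBq, u3] at h1
      refine h1.trans ?_
      have h2 := (hqw q hq).1
      rwa [hBq] at h2
    have hmq := hmm1 _ ((hT q).1 hq).1
    have hmq0 : mm q.1 ≠ 0 := L.ne_zero (by rw [hmq]; exact one_pos)
    have h1 : L.nm (c' q - q.1 - π ^ n * (τ / mm q.1)) ≤ L.nm π ^ (n + 1) := by
      have e4 : c' q - q.1 - π ^ n * (τ / mm q.1) = (c' q - q.1 - t * ev₂ q x / mm q.1) +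
          t * (ev₂ q x - τ * κ) / mm q.1 := by
        have e5 : t * (τ * κ) = π ^ n * τ := by
          rw [ht]
          field_simp
        rw [mul_sub, e5]
        field_simp
        ring
      rw [e4]
      refine (L.add _ _).trans (max_le (k6.trans r3) ?_)
      rw [L.div, hmq, div_one, L.mul]
      refine (mul_le_mul_of_nonneg_left hxs (L.nonneg _)).trans ?_
      rw [← mul_div_assoc]
      exact r4
    have h2 : L.nm (c' q - q.1) ^ 2 ≤ L.nm π ^ (n + 1) :=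
      (pow_le_pow_left₀ (L.nonneg _) k5 2).trans r5
    have h3 := zl_tay (fun i => (hβ r i).2) (hI q hq) k4
    have h4 : L.nm ((Polynomial.derivative (β r)).eval q.1) ≤ 1 :=
      zl_le (fun i => (zl_der (M := M) (hβ r) i).2) (hI q hq)
    rw [hg, hetn]
    have e4 : (β r).eval q.1 + π ^ n * (τ / mm q.1) * (Polynomial.derivative (β r)).eval q.1 -
        (β r).eval (c' q) =
        -((β r).eval (c' q) - (β r).eval q.1 -
          (Polynomial.derivative (β r)).eval q.1 * (c' q - q.1)) -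
        (Polynomial.derivative (β r)).eval q.1 * (c' q - q.1 - π ^ n * (τ / mm q.1)) := by
      ring
    rw [e4]
    refine (L.sub _ _).trans (max_le ?_ ?_)
    · rw [L.neg]
      exact h3.trans h2
    · rw [L.mul]
      exact (mul_le_of_le_one_left (L.nonneg _) h4).trans h1
  have hgI : ∀ c ∈ S, Iv L M (g c) := by
    intro c hc r
    rw [hg]
    obtain ⟨h1, h2⟩ := hS c hc
    have hmc := hmm1 c hc
    have h3 : L.nm ((Polynomial.derivative (β r)).eval c) ≤ 1 :=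
      zl_le (fun i => (zl_der (M := M) (hβ r) i).2) h2
    refine ⟨M.add_mem (hβM h1 r) (M.mul_mem (M.mul_mem (pow_mem (hπ.mem M) n)
      (M.div_mem hτ (hmmM c hc))) (zl_mem (fun i => (zl_der (L := L) (hβ r) i).1) h1)), ?_⟩
    refine (L.add _ _).trans (max_le (hβl h2 r) ?_)
    rw [L.mul, L.mul, L.pow, L.div, hmc, div_one]
    exact mul_le_one₀ (mul_le_one₀ (pow_le_one₀ hπ.pos.le hπ.lt.le) (L.nonneg _) hτ1)
      (L.nonneg _) h3
  -- the sum over `S`
  have hηc : ∀ c w w' : Ω, η (c, w) = η (c, w') := by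
    intro c w w'
    rw [hη]
  obtain ⟨σ, hσ⟩ : ∃ σ : Ω → Ω × Ω, ∀ c, σ c = (c, X.rt L b (η (c, 0))) := ⟨_, fun _ => rfl⟩
  have hσ1 : ∀ c, (σ c).1 = c := fun c => by rw [hσ]
  have hσ2 : ∀ c, (σ c).2 = X.rt L b (η (σ c)) := by
    intro c
    rw [hσ]
    exact congrArg (X.rt L b) (hηc c 0 _)
  have hσT : ∀ c ∈ S, σ c ∈ T := by
    intro c hc
    rw [hT, hσ1, hσ2]
    refine ⟨hc, ?_⟩
    have h1 : ∀ r, L.nm (η (σ c) r) ≤ 1 := by
      intro r
      rw [hη]
      change L.nm ((β r).eval (σ c).1) ≤ 1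
      rw [hσ1]
      exact hβl (hS c hc).2 r
    have h2 := hX.rt_root b h1
    rw [hcc, hσ1] at h2
    exact h2
  have hfil : T.filter (fun q => q.2 = X.rt L b (η q)) = S.image σ := by
    ext q
    rw [Finset.mem_filter, Finset.mem_image]
    constructor
    · rintro ⟨h1, h2⟩
      refine ⟨q.1, ((hT q).1 h1).1, Prod.ext (hσ1 _) ?_⟩
      rw [hσ2, h2]
      congr 1
      have h3 : η (σ q.1) = η (q.1, q.2) := by
        rw [hσ]
        exact hηc _ _ _
      exact h3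
    · rintro ⟨c, hc, rfl⟩
      exact ⟨hσT c hc, hσ2 c⟩
  have hσi : ∀ c ∈ S, ∀ c' ∈ S, σ c = σ c' → c = c' := by
    intro c _ c' _ h1
    have h2 := congrArg Prod.fst h1
    rwa [hσ1, hσ1] at h2
  have hsumS : ∀ G : Ω × Ω → ((Xf f).pt Ω →₀ ℤ),
      ∑ c ∈ S, G (σ c) = ∑ q ∈ T.filter (fun q => q.2 = X.rt L b (η q)), G q := by
    intro G
    rw [hfil, Finset.sum_image hσi]
  have hnT : ∀ q ∈ T, Iv L M (etn X a η c' q) := fun q hq => (k1 q hq).2.2.2.2
  have hz : ∑ c ∈ S, (Finsupp.single (X.P b (g c)) 1 -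
      Finsupp.single (X.P b fun r => (β r).eval c) 1 : (Xf f).pt Ω →₀ ℤ) ∈
        Dsp L (Xf f) (nb L X.P (L.nm π ^ (n + 1))) M ⊔ (Xf f).ratEq M Ω := by
    have e1 : ∑ c ∈ S, (Finsupp.single (X.P b (g c)) 1 -
        Finsupp.single (X.P b fun r => (β r).eval c) 1 : (Xf f).pt Ω →₀ ℤ) =
        ∑ c ∈ S, (Finsupp.single (X.P b (g (σ c).1)) 1 -
          Finsupp.single (X.P b (η (σ c))) 1 : (Xf f).pt Ω →₀ ℤ) := by
      refine Finset.sum_congr rfl fun c _ => ?_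
      have h1 : η (σ c) = fun r => (β r).eval c := by
        rw [hη]
        funext r
        change (β r).eval (σ c).1 = _
        rw [hσ1]
      rw [hσ1, h1]
    have e2 := hsumS fun q => (Finsupp.single (X.P b (g q.1)) 1 -
      Finsupp.single (X.P b (η q)) 1 : (Xf f).pt Ω →₀ ℤ)
    have e3 := Finset.sum_filter_add_sum_filter_not T (fun q => q.2 = X.rt L b (η q))
      fun q => (Finsupp.single (X.P (B q) (etn X a η c' q)) (1 : ℤ) -
        Finsupp.single (X.P (B q) (η q)) 1)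
    have e4 : ∑ q ∈ T.filter (fun q => q.2 = X.rt L b (η q)),
        (Finsupp.single (X.P (B q) (etn X a η c' q)) (1 : ℤ) -
          Finsupp.single (X.P (B q) (η q)) 1) =
        ∑ q ∈ T.filter (fun q => q.2 = X.rt L b (η q)),
          (Finsupp.single (X.P b (etn X a η c' q)) (1 : ℤ) -
            Finsupp.single (X.P b (η q)) 1) := by
      refine Finset.sum_congr rfl fun q hq => ?_
      rw [hB1 q (Finset.mem_filter.1 hq).2]
    have e5 : ∑ q ∈ T.filter (fun q => q.2 = X.rt L b (η q)),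
        (Finsupp.single (X.P b (g q.1)) 1 -
          Finsupp.single (X.P b (η q)) 1 : (Xf f).pt Ω →₀ ℤ) =
        ∑ q ∈ T.filter (fun q => q.2 = X.rt L b (η q)),
          (Finsupp.single (X.P b (g q.1)) 1 -
            Finsupp.single (X.P b (etn X a η c' q)) 1 : (Xf f).pt Ω →₀ ℤ) +
        ∑ q ∈ T.filter (fun q => q.2 = X.rt L b (η q)),
          (Finsupp.single (X.P b (etn X a η c' q)) (1 : ℤ) -
            Finsupp.single (X.P b (η q)) 1) := by
      rw [← Finset.sum_add_distrib]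
      refine Finset.sum_congr rfl fun q _ => ?_
      abel
    rw [e1, e2, e5, ← e4, ← add_sub_cancel_right (∑ q ∈ T.filter (fun q => q.2 =
      X.rt L b (η q)), (Finsupp.single (X.P (B q) (etn X a η c' q)) (1 : ℤ) -
        Finsupp.single (X.P (B q) (η q)) 1)) (∑ q ∈ T.filter (fun q => ¬ q.2 =
      X.rt L b (η q)), (Finsupp.single (X.P (B q) (etn X a η c' q)) (1 : ℤ) -
        Finsupp.single (X.P (B q) (η q)) 1)), e3]
    refine add_mem (AddSubgroup.mem_sup_left (sum_mem fun q hq => ?_))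
      (sub_mem (AddSubgroup.mem_sup_right k2) (AddSubgroup.mem_sup_left
        (sum_mem fun q hq => ?_)))
    · obtain ⟨h1, h2⟩ := Finset.mem_filter.1 hq
      exact hB.pt_dsp (hnT q h1) (hgI _ ((hT q).1 h1).1) (hbr q h1 h2)
    · obtain ⟨h1, h2⟩ := Finset.mem_filter.1 hq
      exact hB.pt_dsp (hηI q h1) (hnT q h1) (hsm q h1 h2)
  have key := hB.sum_vb hM (s := S) (β := fun _ => b) (h := fun c r => (β r).eval c) (g := g)
    (fun c hc r => ⟨hβM (hS c hc).1 r, hβl (hS c hc).2 r⟩) hgI hz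
  have hfin : ∀ c, g c = fun i => (β i).eval c + π ^ n * (τ / (Polynomial.derivative
      (∏ c ∈ S, (Polynomial.X - Polynomial.C c))).eval c) *
        (Polynomial.derivative (β i)).eval c := by
    intro c
    funext r
    rw [hg, hmm]
  simp only [hfin] at key
  exact key

end GX
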